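import Pool.Agent.Y18.LP.Main

/-!
Relative versions of the theorems of `Y18/LP`: tuples of characters over a finite group of characters
with nonvanishing twisted `L`-values.
-/

set_option autoImplicit false

open Complex UpperHalfPlane MatrixGroups CongruenceSubgroup NumberField IsDedekindDomain ZMod Topology

namespace Pool.Agent.X252.AF

open Finset Pool.Agent.Y18.BSD Pool.Agent.Y18.NF Pool.Agent.Y18.LP
open Pool.Agent.TH940 (Fr)
open Pool.Agent.W263.BSD (pointCount GoodPrime IsLSeries)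
open W165.CE (fac)

section abs0

variable {G : Type} [CommGroup G] {R : Subring ℂ} {e : ℕ}

lemma sup_closure (he : 0 < e) {r : ℕ} (y : Fin r → G) (hy : ∀ j, y j ^ e = 1)
    (G0 H : Subgroup G) (h0 : G0 ≤ H) (hyH : ∀ j, y j ∈ H) :
    G0 ⊔ Subgroup.closure (Set.range y) ≤ H ∧ ∀ x ∈ G0 ⊔ Subgroup.closure (Set.range y),
      ∃ g ∈ G0, ∃ J : Fin r → ℕ, x = g * ∏ j, y j ^ J j := by
  refine ⟨sup_le h0 ?_, fun x hx => ?_⟩
  · rw [Subgroup.closure_le]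
    rintro _ ⟨j, rfl⟩
    exact hyH j
  · obtain ⟨g, hg, z, hz, rfl⟩ := Subgroup.mem_sup.1 hx
    obtain ⟨J, rfl⟩ := mem_closure_tuple he y hy hz
    exact ⟨g, hg, J, rfl⟩

/-- the index set of the products -/
def idx (ι : Type) [Fintype ι] {G : Type} (F0 : Finset G) (r e : ℕ) :
    Finset (ι × G × (Fin r → Fin e)) :=
  univ ×ˢ (F0 ×ˢ univ)

omit [CommGroup G] in
lemma mem_idx {ι : Type} [Fintype ι] {F0 : Finset G} {r e : ℕ} (x : ι × G × (Fin r → Fin e)) :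
    x ∈ idx ι F0 r e ↔ x.2.1 ∈ F0 := by
  unfold idx
  rw [Finset.mem_product, Finset.mem_product]
  simp

theorem tup_abs_rel {ι : Type} [Fintype ι] (hR : ∀ z : ℂ, z ^ e = 1 → z ∈ R) (he : 0 < e)
    {P : Ideal R} (hP : P.IsMaximal)
    (hP1 : ∀ z : R, (z : ℂ) ^ e = 1 → 1 - z ∈ P) (r : ℕ) (F0 : Finset G) (H : Subgroup G)
    (hH : ∀ c ∈ H, c ^ e = 1) (hF : ∀ h ∈ F0, h ∈ H) (W : ι → Submodule R ℂ) (β : ι → G → ℂ)
    (hg : ∀ i, Good e P (W i) (fun c : H => β i c)) {V : ℕ}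
    (hV : ∏ x ∈ idx ι F0 r e, β x.1 x.2.1 ∉ P ^ (V + 1) • ∏ x ∈ idx ι F0 r e, W x.1) :
    ∃ K : Finset (Fin r → G), K.card ≤ 2 ^ V ∧ (∀ k ∈ K, ∀ j, k j ∈ H) ∧
        ∀ c : Fin r → G, (∀ j, c j ∈ H) → ∃ k ∈ K, ∀ h ∈ F0, ∀ J : Fin r → ℕ, ∀ i,
          β i (h * ∏ j, (c j * k j) ^ J j) ≠ 0 := by
  classical
  have hgg := Good.prod (Γ := Fin r → H) (e := e) hP.isPrime (idx ι F0 r e)
    (fun x => W x.1)
    (fun x (c : Fin r → H) => β x.1 (x.2.1 * ((pj H (fun i => (x.2.2 i : ℕ)) c : H) : G)))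
    (fun x hx => by
      have h1 := ((hg x.1).comp hR ⟨x.2.1, hF _ ((mem_idx x).1 hx)⟩ 1).hom
        (pj H (fun i => (x.2.2 i : ℕ)))
      simpa only [pow_one, Subgroup.coe_mul] using h1)
  obtain ⟨K, hK1, hK2⟩ := correction hR hP hP1 hgg (V := V) (by
    have : ∏ x ∈ idx ι F0 r e, β x.1 (x.2.1 * ((pj H (fun i => (x.2.2 i : ℕ)) 1 : H) : G)) =
        ∏ x ∈ idx ι F0 r e, β x.1 x.2.1 := by
      refine Finset.prod_congr rfl fun x _ => ?_
      rw [map_one, Subgroup.coe_one, mul_one]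
    rw [this]
    exact hV)
  refine ⟨(K.map (fun (c : Fin r → H) j => (c j : G))).toFinset, ?_, ?_, ?_⟩
  · exact (List.toFinset_card_le _).trans (by rwa [List.length_map])
  · intro k hk j
    rw [List.mem_toFinset, List.mem_map] at hk
    obtain ⟨c, _, rfl⟩ := hk
    exact (c j).2
  · intro c hc
    obtain ⟨k, hk, h1⟩ := hK2 fun j => ⟨c j, hc j⟩
    refine ⟨fun j => (k j : G), ?_, fun h hh J i => ?_⟩
    · rw [List.mem_toFinset, List.mem_map]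
      exact ⟨k, hk, rfl⟩
    · have h2 := Finset.prod_ne_zero_iff.1 h1
        (i, h, fun j => ⟨J j % e, Nat.mod_lt _ he⟩) ((mem_idx _).2 hh)
      have h5 : ((pj H (fun j => J j % e) ((fun j => ⟨c j, hc j⟩) * k) : H) : G) =
          ∏ j, (c j * (k j : G)) ^ J j := by
        show ((∏ j, ((⟨c j, hc j⟩ : H) * k j) ^ (J j % e) : H) : G) = _
        rw [← Subgroup.coe_subtype, map_prod]
        refine Finset.prod_congr rfl fun j _ => ?_
        rw [map_pow, map_mul, Subgroup.coe_subtype]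
        exact (pow_modA (hH _ (H.mul_mem (hc j) (k j).2)) (J j)).symm
      rw [← h5]
      exact h2

end abs0

section abs

variable {ι : Type} [Fintype ι] {N : ι → ℕ} {f : ι → ℚ → ℂ} {a : ι → ℕ → ℂ}

/-- **a small set of corrections for tuples, over a finite set** -/
theorem tuples_rel (hms : ∀ i, MS (N i) (f i) (a i)) (h0 : ∀ i, f i 0 ≠ 0) {l : ℕ} (hl : l.Prime)
    (n : ℕ) (lam : Ideal (integralClosure ℤ ℂ)) (hlam : lam.IsPrime)
    (hmem : (l : integralClosure ℤ ℂ) ∈ lam) (r : ℕ) (F : Subgroup Fam) (F0 : Finset Fam)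
    (hF : ∀ c ∈ F0, c ∈ F) (hFok : Ok F (l ^ n) (AdS N a lam))
    (hFn : ∀ c ∈ F, ∀ i, bt (f i) c ≠ 0) :
    ∃ V : ℕ, ∀ H : Subgroup Fam, Ok H (l ^ n) (AdS N a lam) → F ≤ H →
      ∃ K : Finset (Fin r → Fam), K.card ≤ 2 ^ V ∧ (∀ k ∈ K, ∀ j, k j ∈ H) ∧
        ∀ c : Fin r → Fam, (∀ j, c j ∈ H) → ∃ k ∈ K, ∀ h ∈ F0, ∀ J : Fin r → ℕ, ∀ i,
          bt (f i) (h * ∏ j, (c j * k j) ^ J j) ≠ 0 := by
  classical
  have he : 0 < l ^ n := pow_pos hl.pos n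
  obtain ⟨R, hR0, P, al, hP, hR, hP1, hA⟩ := setup hms h0 hl n lam hlam hmem
  have hval : ∏ x ∈ idx ι F0 r (l ^ n), bt (f x.1) x.2.1 ≠ 0 :=
    Finset.prod_ne_zero_iff.2 fun x hx => hFn _ (hF _ ((mem_idx (G := Fam) x).1 hx)) _
  have hin : ∏ x ∈ idx ι F0 r (l ^ n), bt (f x.1) x.2.1 ∈
      ∏ x ∈ idx ι F0 r (l ^ n), Submodule.span R (Set.range (f x.1)) := by
    refine prod_mem' (idx ι F0 r (l ^ n))
      (fun x : ι × Fam × (Fin r → Fin (l ^ n)) => Submodule.span R (Set.range (f x.1)))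
      (fun x : ι × Fam × (Fin r → Fin (l ^ n)) => bt (f x.1) x.2.1) fun x hx => ?_
    exact (good (hms x.1) hR (al x.1) hP.isPrime hP1 hFok (hA x.1)).mem
      ⟨x.2.1, hF _ ((mem_idx (G := Fam) x).1 hx)⟩
  have hfg : (∏ x ∈ idx ι F0 r (l ^ n), Submodule.span R (Set.range (f x.1))).FG :=
    fg_prod (idx ι F0 r (l ^ n))
      (fun x : ι × Fam × (Fin r → Fin (l ^ n)) => Submodule.span R (Set.range (f x.1)))
      (fun x _ => span_fg (hms x.1).fin)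
  have key : ∀ (B : Submodule R ℂ) (x : ℂ), B.FG → x ∈ B → x ≠ 0 → ∃ V : ℕ, x ∉ P ^ (V + 1) • B :=
    fun B x h1 h2 h3 => krull hP.ne_top h1 h2 h3
  obtain ⟨V, hV⟩ := key _ _ hfg hin hval
  refine ⟨V, fun H hH hFH => ?_⟩
  exact tup_abs_rel (G := Fam) hR he hP hP1 r F0 H (fun c hc => hH.pow c hc)
    (fun h hh => hFH (hF h hh)) (fun i => Submodule.span R (Set.range (f i)))
    (fun i c => bt (f i) c)
    (fun i => good (hms i) hR (al i) hP.isPrime hP1 hH (hA i)) hV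

end abs

section tw

variable {N : ℕ} [NeZero N] {f : CuspForm (Gamma0 N : Subgroup (GL (Fin 2) ℝ)) 2}

/-- `L(f, χ_c, s)` is entire and does not vanish at `1`. -/
def TWn (N : ℕ) (f : CuspForm (Gamma0 N : Subgroup (GL (Fin 2) ℝ)) 2) (c : Fam) : Prop :=
  ∃ G : ℂ → ℂ, Differentiable ℂ G ∧ (∀ s : ℂ, 3 / 2 < s.re →
      HasProd (fun p : Nat.Primes => ez N (co f) (cvl c p) s p) (G s)) ∧ G 1 ≠ 0

theorem tw_conv {w : ℝ} (hnf : W388.IsNewf N 2 f w) (hfr : Fr f (w : ℂ)) (hc : Cf N (co f))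
    {c : Fam} (hfin : {q | c q ≠ 1}.Finite) (hp : ∀ q ∈ sp c, q.Prime ∧ ¬ q ∣ N)
    (h : TWn N f c) : bt (bv f) c⁻¹ ≠ 0 := by
  classical
  obtain ⟨G', hG'1, hG'2, hG'3⟩ := h
  have hne : NeZero (dd (sp c)) := ⟨dd_ne_zero fun q hq => (hp q hq).1⟩
  have hco : Nat.Coprime (dd (sp c)) N := by
    unfold dd
    rw [Nat.coprime_prod_left_iff]
    intro q hq
    exact (Nat.Prime.coprime_iff_not_dvd (hp q hq).1).2 (hp q hq).2
  have hprim := chi_primitive c hfin fun q hq => (hp q hq).1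
  obtain ⟨L, hL1, hL2, hL3⟩ := exists_L hnf hfr hc (dd (sp c)) (chi c) hprim hco
  have hLs : ∀ s : ℂ, 3 / 2 < s.re →
      HasProd (fun p : Nat.Primes => ez N (co f) (cvl c p) s p) (L s) := by
    intro s hs
    have h2 := hc.euler (chi c) hs
    rw [← hL2 s hs] at h2
    have h3 : (fun p : ℕ => if p.Prime then (lf N (co f) (chi c) s p)⁻¹ else 1) =
        Set.mulIndicator {p : ℕ | p.Prime} (fun p => (lf N (co f) (chi c) s p)⁻¹) := by
      funext p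
      by_cases hp : p.Prime
      · rw [if_pos hp, Set.mulIndicator_of_mem (show p ∈ {p : ℕ | p.Prime} from hp)]
      · rw [if_neg hp, Set.mulIndicator_of_notMem (show p ∉ {p : ℕ | p.Prime} from hp)]
    rw [h3] at h2
    have h4 := hasProd_subtype_iff_mulIndicator.2 h2
    refine (congrArg (fun g => HasProd g (L s)) (funext fun p : Nat.Primes => ?_)).mp h4
    show (lf N (co f) (chi c) s (p : ℕ))⁻¹ = _
    unfold lf ez
    rw [chi_nat]
    congr 2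
    split_ifs with h
    · simp
    · have hp0 : ((p : ℕ) : ℂ) ≠ 0 := by exact_mod_cast p.2.ne_zero
      have e : ((p : ℕ) : ℂ) ^ (1 - 2 * s) = (p : ℕ) * (((p : ℕ) : ℂ) ^ (-s)) ^ 2 := by
        rw [show (1 - 2 * s : ℂ) = 1 + ((-s) + (-s)) by ring, Complex.cpow_add _ _ hp0,
          Complex.cpow_add _ _ hp0, Complex.cpow_one]
        ring
      rw [e]
  have heq : L = G' := by
    have h1 : ∀ s : ℂ, (3 : ℝ) / 2 < s.re → L s = G' s := fun s hs =>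
      (hLs s hs).unique (hG'2 s hs)
    have hA : AnalyticOnNhd ℂ L Set.univ := fun s _ => hL1.analyticAt s
    have hB : AnalyticOnNhd ℂ G' Set.univ := fun s _ => hG'1.analyticAt s
    have hev : L =ᶠ[𝓝 (2 : ℂ)] G' := by
      have hopen : IsOpen {s : ℂ | (3 : ℝ) / 2 < s.re} :=
        isOpen_lt continuous_const Complex.continuous_re
      filter_upwards [hopen.mem_nhds (show (2 : ℂ) ∈ {s : ℂ | (3 : ℝ) / 2 < s.re} by
        show (3 : ℝ) / 2 < (2 : ℂ).re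
        norm_num)] with s hs
      exact h1 s hs
    exact hA.eq_of_eventuallyEq hB hev
  have hgs : gaussSum (chi c)⁻¹ (stdAddChar (N := dd (sp c))) ≠ 0 :=
    Pool.Agent.W440.TW.gauss_ne_zero _ (Pool.Agent.W440.TW.inv_primitive _ hprim)
  intro hb
  rw [bt_inv (bv f) hfin] at hb
  rw [← hL3, heq] at hb
  exact (mul_ne_zero hgs hG'3) hb

theorem tw_one {a b : ℤ} (hΔ : 4 * a ^ 3 + 27 * b ^ 2 ≠ 0) (hf : IsFormOf a b N f)
    (h0 : RankZero a b) : TWn N f 1 := by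
  obtain ⟨w, hnf, hfr⟩ := hf.newf
  have h1 : {q : ℕ | (1 : Fam) q ≠ 1} = ∅ := by
    ext q; simp
  have hfin : {q : ℕ | (1 : Fam) q ≠ 1}.Finite := by rw [h1]; exact Set.finite_empty
  obtain ⟨G, hG1, hG2, hG3⟩ := tw_complete hnf hfr hf.cf (c := 1) hfin (fun q hq => by
    have h2 := (mem_sp hfin q).1 hq
    exact absurd rfl h2)
  refine ⟨G, hG1, hG2, hG3 ?_⟩
  have h2 : ((1 : Fam))⁻¹ = 1 := by
    funext q
    ext u
    simp
  rw [h2, bt_one]
  exact bv0_ne hΔ hf h0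

end tw

section
variable (m : ℕ) (a b : Fin m → ℤ) (hΔ : ∀ i, 4 * a i ^ 3 + 27 * b i ^ 2 ≠ 0)
    (N : Fin m → ℕ) [∀ i, NeZero (N i)]
    (f : (i : Fin m) → CuspForm (Gamma0 (N i) : Subgroup (GL (Fin 2) ℝ)) 2)
    (hf : ∀ i, IsFormOf (a i) (b i) (N i) (f i))

include hΔ hf in
/-- **Abelian fields with `r` generators over a given one.** -/
theorem fields_rel (l n r : ℕ) (hl : l.Prime) (G0 : Subgroup Fam) (hG0 : HOk m a b l n G0)
    (hfin : (G0 : Set Fam).Finite) (h0 : ∀ c ∈ G0, ∀ i, TWn (N i) (f i) c) :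
    ∃ V : ℕ, ∀ H : Subgroup Fam, HOk m a b l n H → G0 ≤ H →
      ∃ K : Finset (Fin r → Fam), K.card ≤ 2 ^ V ∧ (∀ k ∈ K, ∀ j, k j ∈ H) ∧
        ∀ c : Fin r → Fam, (∀ j, c j ∈ H) → ∃ k ∈ K,
          ∀ (F : IntermediateField ℚ ℂ) [NumberField F],
            F ≤ IntermediateField.adjoin ℚ {x : ℂ |
              ∃ χ ∈ G0 ⊔ Subgroup.closure (Set.range (fun j => c j * k j)),
              x = eta χ (Complex.exp (2 * Real.pi * Complex.I / (dd (sp χ) : ℕ)))} →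
            ∀ i, RZ F (a i) (b i) (f i) := by
  obtain ⟨lam, h1, h2, h3⟩ := exists_lam hl
  have hms : ∀ i, MS (N i) (bv (f i)) (co (f i)) := fun i => by
    obtain ⟨w, -, hfr⟩ := (hf i).newf
    exact ms_of (hf i).hrel hfr
  have hbt : ∀ c ∈ G0, ∀ i, bt (bv (f i)) c ≠ 0 := by
    intro c hc i
    obtain ⟨w, hnf, hfr⟩ := (hf i).newf
    have h4 := tw_conv hnf hfr (hf i).cf (c := c⁻¹) (hG0.fin _ (G0.inv_mem hc)) (fun q hq => by
      have h5 := (mem_sp (hG0.fin _ (G0.inv_mem hc)) q).1 hq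
      obtain ⟨h6, h7⟩ := hG0.adm _ (G0.inv_mem hc) q h5
      exact ⟨h6, ((hf i).points q (h7 i).1).1⟩) (h0 _ (G0.inv_mem hc) i)
    have h5 : ((c⁻¹ : Fam))⁻¹ = c := inv_inv c
    rwa [h5] at h4
  have hv : ∀ i, bv (f i) 0 ≠ 0 := fun i => by
    have h4 := hbt 1 G0.one_mem i
    rwa [bt_one] at h4
  obtain ⟨V, hV⟩ := tuples_rel hms hv hl n lam h1 h2 r G0 hfin.toFinset
    (fun c hc => hfin.mem_toFinset.1 hc) (ok_of m a b N f hf hl hG0 h3) hbt
  refine ⟨V, fun H hH hGH => ?_⟩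
  obtain ⟨K, hK1, hK2, hK3⟩ := hV H (ok_of m a b N f hf hl hH h3) hGH
  refine ⟨K, hK1, hK2, fun c hc => ?_⟩
  obtain ⟨k, hk, h4⟩ := hK3 c hc
  obtain ⟨hle, hrep⟩ := sup_closure (G := Fam) (pow_pos hl.pos n) (fun j => c j * k j)
    (fun j => hH.pow _ (H.mul_mem (hc j) (hK2 k hk j))) G0 H hGH
    (fun j => H.mul_mem (hc j) (hK2 k hk j))
  refine ⟨k, hk, fun F _ hF i => ?_⟩
  refine core (hΔ i) (hf i) _ (fun c hc => hH.fin c (hle hc)) (fun c hc q hq => by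
    obtain ⟨hq1, hq2⟩ := hH.adm c (hle hc) q hq
    exact ⟨hq1, ((hf i).points q (hq2 i).1).1⟩) (fun x hx => ?_) F hF
  obtain ⟨g, hg, J, rfl⟩ := hrep x hx
  exact h4 g (hfin.mem_toFinset.2 hg) J i

end

end Pool.Agent.X252.AF
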