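import Pool.Agent.X252.GV

/-!
# Stable subspaces of rational representations without fixed vectors
-/

set_option autoImplicit false

open Finset Pool.Agent.X328.PB Pool.Agent.X310.Mu

namespace Pool.Agent.X252.GU

open Pool.Agent.X252.GA Pool.Agent.X252.GC

section
variable {V : Type*} [AddCommGroup V] [Module ℚ V] {G : Type} [Group G]
  (act : G →* Module.End ℚ V) (U : Submodule ℚ V)

/-- The subgroup fixes no nonzero vector of the subspace. -/
def NoFix (D : Subgroup G) : Prop := ∀ v ∈ U, (∀ d ∈ D, act d v = v) → v = 0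

variable [Fintype G]

variable {U} in
lemma kills (hU : ∀ g, ∀ u ∈ U, act g u ∈ U) {D : Subgroup G} (h : NoFix act U D) {u : V}
    (hu : u ∈ U) : GC.theta act (nA D) u = 0 := by
  apply h _ (GC.theta_stable U hU _ hu)
  intro d hd
  have h1 : act d (GC.theta act (nA D) u) =
      GC.theta act (MonoidAlgebra.single d (1 : ℚ) * nA D) u := by
    rw [map_mul, GC.theta_single, Rat.cast_one, one_smul]
    rfl
  rw [h1, single_mul_nA hd]

/-- The elements of the group ring which annihilate the subspace. -/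
noncomputable def idU : Ideal (MonoidAlgebra ℚ G) where
  carrier := {x | ∀ u ∈ U, GC.theta act x u = 0}
  add_mem' := by
    intro x y hx hy u hu
    rw [map_add, LinearMap.add_apply, hx u hu, hy u hu, add_zero]
  zero_mem' := by
    intro u _
    rw [map_zero, LinearMap.zero_apply]
  smul_mem' := by
    intro c x hx u hu
    rw [smul_eq_mul, map_mul, Module.End.mul_apply, hx u hu, map_zero]

variable {U}

lemma idU_right (hU : ∀ g, ∀ u ∈ U, act g u ∈ U) (x : MonoidAlgebra ℚ G) (hx : x ∈ idU act U)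
    (y : MonoidAlgebra ℚ G) : x * y ∈ idU act U := by
  intro u hu
  rw [map_mul, Module.End.mul_apply]
  exact hx _ (GC.theta_stable _ hU y hu)

lemma noFix_of_mem {H : Subgroup G} (h : nA H ∈ idU act U) : NoFix act U H := by
  classical
  intro v hv hfix
  have h1 := h v hv
  rw [GV.theta_nrm] at h1
  unfold nrm at h1
  rw [Finset.sum_congr rfl (g := fun _ => v) (fun d hd => hfix d (by simpa using hd)),
    Finset.sum_const, ← Nat.cast_smul_eq_nsmul ℚ] at h1
  rcases smul_eq_zero.1 h1 with h2 | h2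
  · exfalso
    have h3 : (Finset.univ.filter fun g : G => g ∈ H).card = 0 := by exact_mod_cast h2
    rw [Finset.card_eq_zero] at h3
    have h4 : (1 : G) ∈ Finset.univ.filter fun g : G => g ∈ H := by simp
    rw [h3] at h4
    simp at h4
  · exact h2

omit [Fintype G] in
lemma noFix_bot : NoFix act U (⊥ : Subgroup G) ↔ ∀ v ∈ U, v = 0 := by
  constructor
  · intro h v hv
    refine h v hv fun d hd => ?_
    rw [Subgroup.mem_bot] at hd
    rw [hd, map_one, Module.End.one_apply]
  · intro h v hv _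
    exact h v hv

variable (U) in
/-- Every irreducible rational representation which occurs in `U` and has a nonzero vector fixed by
`H` has for some `j` a nonzero vector fixed by `D j`. -/
def DominatedIn (H : Subgroup G) {ι : Type} (D : ι → Subgroup G) : Prop :=
  ∀ (S : Type) [AddCommGroup S] [Module ℚ S] (σ : G →* Module.End ℚ S), Irred σ →
    Occurs act U σ → (∃ s : S, s ≠ 0 ∧ ∀ h ∈ H, σ h s = s) →
      ∃ j, ∃ s : S, s ≠ 0 ∧ ∀ d ∈ D j, σ d s = s

variable (U) in
/-- Some nonzero irreducible rational representation in which the elements different from one of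
the group fix only zero occurs in `U`. -/
def FreeIn : Prop :=
  ∃ (S : Type) (_ : AddCommGroup S) (_ : Module ℚ S) (σ : G →* Module.End ℚ S), Irred σ ∧
    Occurs act U σ ∧ (∃ s : S, s ≠ 0) ∧ ∀ g : G, g ≠ 1 → ∀ s : S, σ g s = s → s = 0

/-- **Stable subspaces without fixed vectors.** -/
theorem main (hU : ∀ g, ∀ u ∈ U, act g u ∈ U) :
    (∀ (H : Subgroup G) (ι : Type) (D : ι → Subgroup G), DominatedIn act U H D →
      (∀ j, NoFix act U (D j)) → NoFix act U H) ∧
    (∀ c : G, c * c = 1 → ((∀ u ∈ U, u = 0) ↔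
      NoFix act U (Subgroup.zpowers c) ∧ NoFix act U (comms c))) ∧
    (∀ c : G, InSimple c → c ≠ 1 → c * c = 1 →
      ((∀ u ∈ U, u = 0) ↔ NoFix act U (Subgroup.zpowers c))) ∧
    (∀ (ι : Type) (D : ι → Subgroup G) (K : Subgroup G), Partitions K D →
      ((∀ u ∈ U, u = 0) ↔ ∀ j, NoFix act U (D j))) ∧
    ((∃ u ∈ U, u ≠ 0) → (∀ P : Subgroup G, (Nat.card P).Prime → NoFix act U P) →
      FreeIn act U ∧ CyclicSubgroups G) := by
  have hr := idU_right act hU
  have hdom : ∀ (H : Subgroup G) (ι : Type) (D : ι → Subgroup G), DominatedIn act U H D →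
      (∀ j, NoFix act U (D j)) → NoFix act U H := by
    intro H ι D hD h
    apply noFix_of_mem
    refine mem_of_dominatedOn (H := H) (D := D) (fun V _ _ ρ => Occurs act U ρ) ?_ _ hr
      (fun j u hu => kills act hU (h j) hu) ?_
    · intro V _ _ ρ hρ hQ hv
      exact hD V ρ hρ hQ hv
    · intro S hS
      exact occurs_of_ann _ hU _ hr (fun x hx => hx) S hS
  have hup : ∀ (H : Subgroup G), (∀ u ∈ U, u = 0) → NoFix act U H := fun H h u hu _ => h u hu
  have hdown : ∀ (ι : Type) (D : ι → Subgroup G), Dominated (⊥ : Subgroup G) D →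
      (∀ j, NoFix act U (D j)) → ∀ u ∈ U, u = 0 := by
    intro ι D hD h
    exact (noFix_bot act).1 (hdom ⊥ ι D (fun S _ _ σ hσ _ => hD S σ hσ) h)
  refine ⟨hdom, ?_, ?_, ?_, ?_⟩
  · intro c hc
    refine ⟨fun h => ⟨hup _ h, hup _ h⟩, fun h => hdown _ _ (dominated_two hc ⊥) ?_⟩
    intro b
    cases b
    · exact h.2
    · exact h.1
  · rintro c ⟨S, hSs, hS, hcS⟩ hc1 hc
    exact ⟨hup _, fun h => hdown _ _ (dominated_comms hc (comms_of_simple S hS hcS hc1) ⊥)
      fun _ => h⟩
  · rintro ι D K ⟨hf, hι, hle, hpart⟩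
    exact ⟨fun h j => hup _ h, hdown _ _ (dominated_partition D K hι hle hpart ⊥)⟩
  · rintro ⟨u, hu, hu0⟩ hP
    obtain ⟨-, -, k3⟩ := structure_of_ideal (idU act U) hr
      (fun h => hu0 (by
        have h2 := h u hu
        rwa [map_one, Module.End.one_apply] at h2))
      fun P hPp u hu => kills act hU (hP P hPp) hu
    refine ⟨?_, k3⟩
    by_contra hcon
    apply hu0
    refine (noFix_bot act).1 (hdom ⊥ {P : Subgroup G // (Nat.card P).Prime} (fun P => P.1) ?_
      fun P => hP P.1 P.2) u hu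
    intro V _ _ ρ hρ ho hv
    obtain ⟨v, hv0, -⟩ := hv
    by_contra hno
    push Not at hno
    apply hcon
    refine ⟨V, _, _, ρ, hρ, ho, ⟨v, hv0⟩, fun g hg w hw => ?_⟩
    obtain ⟨P, hPp, hPg⟩ := Pool.Agent.X328.PB.card_zpowers_prime hg
    by_contra hw0
    obtain ⟨d, hd, hd'⟩ := hno ⟨P, hPp⟩ w hw0
    exact hd' (fixed_zpow ρ hw d (hPg hd))

end

end Pool.Agent.X252.GU
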