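import Pool.Agent.Y152.AS.Ops
import Pool.Agent.X252.GU

/-!
# Albanese kernels of varieties with a finite group of automorphisms
-/

set_option autoImplicit false

open CategoryTheory AlgebraicGeometry

universe u v

namespace Pool.Agent.X252.AK

open Pool.Agent.H914 Pool.Agent.H914.VarClass Pool.Agent.H914.VarClass.Obj Pool.Agent.W492.BB
  Pool.Agent.W550.Corr Pool.Agent.TH133 Pool.Agent.Y152.AS Pool.Agent.X328.PB
  Pool.Agent.X252.GA Pool.Agent.X252.GC Pool.Agent.X252.GU Pool.Agent.X310.Mu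

variable {k : Type u} [Field k] {𝒱 : VarClass k}

/-- The Albanese kernel of `X` vanishes, with rational coefficients. -/
def AlbVanishes (C : TheoryData.{u, v, 0} 𝒱 ℚ) (X : 𝒱.Obj) : Prop :=
  ∀ a : C.A X, InAlbKer C a → a = 0

/-- The Albanese kernel of the quotient `X / H` vanishes, with rational coefficients: there are no
nonzero elements of the Albanese kernel of `X` which are fixed by `H`. -/
def QuotAlbVanishes (C : TheoryData.{u, v, 0} 𝒱 ℚ) {X : 𝒱.Obj} {G : Type} [Group G]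
    (ρ : G →* Aut X) (H : Subgroup G) : Prop :=
  ∀ a : C.A X, InAlbKer C a → (∀ h ∈ H, C.down (ρ h).hom a = a) → a = 0

/-- There is a nonzero `G`-equivariant homomorphism from the rational representation `σ` to the
Albanese kernel of `X`. -/
def OccursInAlb (C : TheoryData.{u, v, 0} 𝒱 ℚ) {X : 𝒱.Obj} {G : Type} [Group G]
    (ρ : G →* Aut X) {S : Type} [AddCommGroup S] [Module ℚ S] (σ : G →* Module.End ℚ S) : Prop :=
  ∃ f : S →+ C.A X, (∀ s, InAlbKer C (f s)) ∧ (∀ g s, f (σ g s) = C.down (ρ g).hom (f s)) ∧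
    ∃ s, f s ≠ 0

/-- Every irreducible rational representation which occurs in the Albanese kernel of `X` and has a
nonzero vector fixed by `H` has for some `j` a nonzero vector fixed by `D j`. -/
def DominatedAlb (C : TheoryData.{u, v, 0} 𝒱 ℚ) {X : 𝒱.Obj} {G : Type} [Group G]
    (ρ : G →* Aut X) (H : Subgroup G) {ι : Type} (D : ι → Subgroup G) : Prop :=
  ∀ (S : Type) [AddCommGroup S] [Module ℚ S] (σ : G →* Module.End ℚ S), Irred σ →
    OccursInAlb C ρ σ → (∃ s : S, s ≠ 0 ∧ ∀ h ∈ H, σ h s = s) →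
      ∃ j, ∃ s : S, s ≠ 0 ∧ ∀ d ∈ D j, σ d s = s

/-- Some nonzero irreducible rational representation in which the elements different from one of
the group fix only zero occurs in the Albanese kernel of `X`. -/
def FreeInAlb (C : TheoryData.{u, v, 0} 𝒱 ℚ) {X : 𝒱.Obj} {G : Type} [Group G]
    (ρ : G →* Aut X) : Prop :=
  ∃ (S : Type) (_ : AddCommGroup S) (_ : Module ℚ S) (σ : G →* Module.End ℚ S), Irred σ ∧
    OccursInAlb C ρ σ ∧ (∃ s : S, s ≠ 0) ∧ ∀ g : G, g ≠ 1 → ∀ s : S, σ g s = s → s = 0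

section
variable {C : TheoryData.{u, v, 0} 𝒱 ℚ} [hC : IsChowProj C] {X : 𝒱.Obj}

lemma deg_push (f : X ⟶ X) {i : ℤ} {a : C.A X} (ha : C.Deg i a) : C.Deg i (C.down f a) := by
  have h := C.push_mem f ha
  rwa [sub_self, mul_zero, add_zero] at h

lemma graph_deg (f : X ⟶ X) : C.Deg X.dim (C.graph f) := by
  have h := C.push_mem (Obj.lift (𝟙 X) f) (C.one_mem X)
  have e1 : (0 : ℤ) + 1 * (((X.prod X).dim : ℤ) - (X.dim : ℤ)) = X.dim := by
    rw [dim_prod]; push_cast; ring
  rwa [e1] at h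

lemma alb_push (f : X ⟶ X) {a : C.A X} (ha : InAlbKer C a) : InAlbKer C (C.down f a) := by
  refine ⟨deg_push f ha.deg, fun Y W hW => ?_⟩
  rw [TheoryData.down, ← C.act_graph f a, ← C.act_comp]
  refine ha.act_eq_zero Y _ ?_
  have e1 : (X.dim : ℤ) + (1 - X.dim) = 1 := by ring
  have h := comp_mem C (e := 0) (e' := 1 - X.dim) (Γ := C.graph f) (Δ := W)
    (by rw [add_zero]; exact graph_deg f) (by rw [e1]; exact hW)
  have e : (X.dim : ℤ) + (0 + (1 - X.dim)) = 1 := by ring
  rwa [e] at h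

/-- The action of the group on the cycles. -/
noncomputable def pushAct {G : Type} [Group G] (ρ : G →* Aut X) : G →* Module.End ℚ (C.A X) where
  toFun g := C.push (ρ g).hom
  map_one' := by
    ext a
    rw [map_one]
    exact C.push_id a
  map_mul' g h := by
    ext a
    rw [map_mul]
    exact C.push_comp (ρ h).hom (ρ g).hom a

variable {G : Type} [Group G] (ρ : G →* Aut X)

lemma occurs_iff {S : Type} [AddCommGroup S] [Module ℚ S] (σ : G →* Module.End ℚ S) :
    OccursInAlb C ρ σ ↔ Occurs (pushAct (C := C) ρ) (albKer C X) σ := by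
  unfold OccursInAlb Occurs
  simp only [inAlbKer_iff]
  rfl

lemma quot_iff (H : Subgroup G) :
    QuotAlbVanishes C ρ H ↔ NoFix (pushAct (C := C) ρ) (albKer C X) H := by
  unfold QuotAlbVanishes NoFix
  simp only [inAlbKer_iff]
  rfl

lemma alb_iff : AlbVanishes C X ↔ ∀ u ∈ albKer C X, u = 0 := by
  unfold AlbVanishes
  simp only [inAlbKer_iff]

lemma dominated_iff (H : Subgroup G) {ι : Type} (D : ι → Subgroup G) :
    DominatedAlb C ρ H D ↔ DominatedIn (pushAct (C := C) ρ) (albKer C X) H D := by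
  unfold DominatedAlb DominatedIn
  simp only [occurs_iff]

lemma free_iff : FreeInAlb C ρ ↔ FreeIn (pushAct (C := C) ρ) (albKer C X) := by
  unfold FreeInAlb FreeIn
  simp only [occurs_iff]

theorem main' [Fintype G] :
    (∀ (H : Subgroup G) (ι : Type) (D : ι → Subgroup G), DominatedAlb C ρ H D →
      (∀ j, QuotAlbVanishes C ρ (D j)) → QuotAlbVanishes C ρ H) ∧
    (∀ c : G, c * c = 1 → (AlbVanishes C X ↔
      QuotAlbVanishes C ρ (Subgroup.zpowers c) ∧ QuotAlbVanishes C ρ (comms c))) ∧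
    (∀ c : G, InSimple c → c ≠ 1 → c * c = 1 →
      (AlbVanishes C X ↔ QuotAlbVanishes C ρ (Subgroup.zpowers c))) ∧
    (∀ (ι : Type) (D : ι → Subgroup G) (K : Subgroup G), Partitions K D →
      (AlbVanishes C X ↔ ∀ j, QuotAlbVanishes C ρ (D j))) ∧
    (¬ AlbVanishes C X → (∀ P : Subgroup G, (Nat.card P).Prime → QuotAlbVanishes C ρ P) →
      FreeInAlb C ρ ∧ CyclicSubgroups G) := by
  obtain ⟨h1, h2, h3, h4, h5⟩ := GU.main (pushAct (C := C) ρ) (U := albKer C X)
    (fun g u hu => inAlbKer_iff.1 (alb_push _ (inAlbKer_iff.2 hu)))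
  simp only [dominated_iff, quot_iff, alb_iff, free_iff]
  refine ⟨h1, h2, h3, h4, fun h0 => h5 ?_⟩
  push Not at h0
  exact h0

end

end Pool.Agent.X252.AK
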