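import Pool.Agent.X252.AK

/-!
# Kernels of Abel-Jacobi maps of varieties with a finite group of automorphisms
-/

set_option autoImplicit false

open CategoryTheory AlgebraicGeometry

universe u v

namespace Pool.Agent.X252.AL

open Pool.Agent.H914 Pool.Agent.H914.VarClass Pool.Agent.H914.VarClass.Obj Pool.Agent.W492.BB
  Pool.Agent.W550.Corr Pool.Agent.TH133 Pool.Agent.X328.PB
  Pool.Agent.X252.GA Pool.Agent.X252.GC Pool.Agent.X252.GU Pool.Agent.X310.Mu
  Pool.Agent.X252.AK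

variable {k : Type u} [Field k] {𝒱 : VarClass k}

/-- The Abel-Jacobi map with kernel `U` is injective. -/
def AJInj {C : TheoryData.{u, v, 0} 𝒱 ℚ} {X : 𝒱.Obj} (U : Submodule ℚ (C.A X)) : Prop :=
  ∀ a ∈ U, a = 0

/-- The Abel-Jacobi map of the quotient `X / H` is injective: its kernel consists of the elements of
the kernel `U` for `X` which are fixed by `H`. -/
def QuotAJInj {C : TheoryData.{u, v, 0} 𝒱 ℚ} {X : 𝒱.Obj} (U : Submodule ℚ (C.A X)) {G : Type}
    [Group G] (ρ : G →* Aut X) (H : Subgroup G) : Prop :=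
  ∀ a ∈ U, (∀ h ∈ H, C.down (ρ h).hom a = a) → a = 0

/-- There is a nonzero `G`-equivariant homomorphism from the rational representation `σ` to the
kernel `U`. -/
def OccursInKer {C : TheoryData.{u, v, 0} 𝒱 ℚ} {X : 𝒱.Obj} (U : Submodule ℚ (C.A X)) {G : Type}
    [Group G] (ρ : G →* Aut X) {S : Type} [AddCommGroup S] [Module ℚ S]
    (σ : G →* Module.End ℚ S) : Prop :=
  ∃ f : S →+ C.A X, (∀ s, f s ∈ U) ∧ (∀ g s, f (σ g s) = C.down (ρ g).hom (f s)) ∧ ∃ s, f s ≠ 0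

/-- Every irreducible rational representation which occurs in the kernel `U` and has a nonzero
vector fixed by `H` has for some `j` a nonzero vector fixed by `D j`. -/
def DominatedKer {C : TheoryData.{u, v, 0} 𝒱 ℚ} {X : 𝒱.Obj} (U : Submodule ℚ (C.A X)) {G : Type}
    [Group G] (ρ : G →* Aut X) (H : Subgroup G) {ι : Type} (D : ι → Subgroup G) : Prop :=
  ∀ (S : Type) [AddCommGroup S] [Module ℚ S] (σ : G →* Module.End ℚ S), Irred σ →
    OccursInKer U ρ σ → (∃ s : S, s ≠ 0 ∧ ∀ h ∈ H, σ h s = s) →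
      ∃ j, ∃ s : S, s ≠ 0 ∧ ∀ d ∈ D j, σ d s = s

/-- Some nonzero irreducible rational representation in which the elements different from one of
the group fix only zero occurs in the kernel `U`. -/
def FreeInKer {C : TheoryData.{u, v, 0} 𝒱 ℚ} {X : 𝒱.Obj} (U : Submodule ℚ (C.A X)) {G : Type}
    [Group G] (ρ : G →* Aut X) : Prop :=
  ∃ (S : Type) (_ : AddCommGroup S) (_ : Module ℚ S) (σ : G →* Module.End ℚ S), Irred σ ∧
    OccursInKer U ρ σ ∧ (∃ s : S, s ≠ 0) ∧ ∀ g : G, g ≠ 1 → ∀ s : S, σ g s = s → s = 0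

section
variable {C : TheoryData.{u, v, 0} 𝒱 ℚ} [hC : IsChowProj C] {X : 𝒱.Obj}
  {U : Submodule ℚ (C.A X)} {G : Type} [Group G] (ρ : G →* Aut X)

theorem main' [Fintype G] (hU : ∀ (g : G), ∀ a ∈ U, C.down (ρ g).hom a ∈ U) :
    (∀ (H : Subgroup G) (ι : Type) (D : ι → Subgroup G), DominatedKer U ρ H D →
      (∀ j, QuotAJInj U ρ (D j)) → QuotAJInj U ρ H) ∧
    (∀ c : G, c * c = 1 → (AJInj U ↔
      QuotAJInj U ρ (Subgroup.zpowers c) ∧ QuotAJInj U ρ (comms c))) ∧
    (∀ c : G, InSimple c → c ≠ 1 → c * c = 1 →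
      (AJInj U ↔ QuotAJInj U ρ (Subgroup.zpowers c))) ∧
    (∀ (ι : Type) (D : ι → Subgroup G) (H : Subgroup G), Partitions H D →
      (AJInj U ↔ ∀ j, QuotAJInj U ρ (D j))) ∧
    (¬ AJInj U → (∀ P : Subgroup G, (Nat.card P).Prime → QuotAJInj U ρ P) →
      FreeInKer U ρ ∧ CyclicSubgroups G) := by
  obtain ⟨h1, h2, h3, h4, h5⟩ := GU.main (pushAct (C := C) ρ) (U := U) hU
  refine ⟨h1, h2, h3, h4, fun h0 => h5 ?_⟩
  unfold AJInj at h0
  push Not at h0
  exact h0

end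

end Pool.Agent.X252.AL
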