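import Mathlib

/-!
# One-cyclotomic pro-`p` groups: definitions and an obstruction
-/

namespace Pool.Agent.X252.Cyc

open Finset

/-! ### Definitions -/

section Defs

variable (p : ℕ) [Fact p.Prime] {Γ : Type*} [Group Γ] [TopologicalSpace Γ]

/-- Continuous one-cocycles of the subgroup `U` with values in the discrete module `R` on which
`g` acts as multiplication by the image of `θ g`; for `R = ZMod (p ^ n)` this module is
`ℤ_p(1) / p ^ n`. -/
def IsCocycle (θ : Γ →* ℤ_[p]ˣ) (U : Subgroup Γ) {R : Type} [CommRing R] (r : ℤ_[p] →+* R)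
    (c : U → R) : Prop :=
  IsLocallyConstant c ∧ ∀ g h : U, c (g * h) = c g + r (θ g) * c h

/-- The pair `(Γ, θ)` is 1-cyclotomic: for every open subgroup `U` and every `n ≥ 1` the map
`H¹(U, ℤ_p(1) / p ^ n) → H¹(U, ℤ_p(1) / p)` is surjective, that is, every continuous cocycle
modulo `p` is the sum of the reduction of a continuous cocycle modulo `p ^ n` and a
coboundary. -/
def CyclotomicPair (θ : Γ →* ℤ_[p]ˣ) : Prop :=
  ∀ U : Subgroup Γ, IsOpen (U : Set Γ) → ∀ n : ℕ, ∀ hn : n ≠ 0, ∀ c' : U → ZMod p,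
    IsCocycle p θ U (PadicInt.toZMod (p := p)) c' →
      ∃ c : U → ZMod (p ^ n), IsCocycle p θ U (PadicInt.toZModPow (p := p) n) c ∧
        ∃ m : ZMod p, ∀ g : U, c' g = ZMod.castHom (dvd_pow_self p hn) (ZMod p) (c g) +
          (PadicInt.toZMod (p := p) (θ g) * m - m)

/-- The group `Γ` is 1-cyclotomic: for some continuous orientation `θ : Γ → ℤ_p^×`, the pair
`(Γ, θ)` is 1-cyclotomic. -/
def Cyclotomic (Γ : Type*) [Group Γ] [TopologicalSpace Γ] : Prop :=
  ∃ θ : Γ →* ℤ_[p]ˣ, Continuous θ ∧ CyclotomicPair p θ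

end Defs

/-! ### Combinatorics -/

section Comb

variable {p : ℕ} [Fact p.Prime]

/-- The carry of the addition of two residues. -/
def eps (x y : ZMod p) : ℕ := if p ≤ x.val + y.val then 1 else 0

lemma val_add_val (x y : ZMod p) : x.val + y.val = (x + y).val + p * eps x y := by
  unfold eps
  split_ifs with h
  · rw [ZMod.val_add_val_of_le h, mul_one]
  · rw [ZMod.val_add_of_lt (not_le.1 h), mul_zero, add_zero]

lemma tele {A : Type*} [AddCommGroup A] (E : ZMod p → A) : ∑ t, (E (t + 1) - E t) = 0 := by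
  rw [Finset.sum_sub_distrib, sub_eq_zero]
  exact Equiv.sum_comp (Equiv.addRight (1 : ZMod p)) E

lemma comb {A : Type*} [AddCommGroup A] (ψ D1 D2 D3 : ZMod p → ZMod p → A)
    (h1 : ∀ x y, ψ x y = D1 (x + 1) y - D1 x y)
    (h2 : ∀ x y, ψ x y = D2 x (y + 1) - D2 x y)
    (h3 : ∀ x y, ψ x y = D3 (x + 1) (y - 1) - D3 x y) :
    p • ∑ x, ∑ y, eps x y • ψ x y = 0 := by
  have s1 : ∑ x : ZMod p, ∑ y : ZMod p, x.val • ψ x y = 0 := by
    refine Finset.sum_eq_zero fun x _ => ?_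
    rw [← Finset.smul_sum]
    simp only [h2]
    rw [tele (fun y => D2 x y), smul_zero]
  have s2 : ∑ x : ZMod p, ∑ y : ZMod p, y.val • ψ x y = 0 := by
    rw [Finset.sum_comm]
    refine Finset.sum_eq_zero fun y _ => ?_
    rw [← Finset.smul_sum]
    simp only [h1]
    rw [tele (fun x => D1 x y), smul_zero]
  have s3 : ∑ x : ZMod p, ∑ y : ZMod p, (x + y).val • ψ x y = 0 := by
    have e : ∀ x : ZMod p, ∑ y : ZMod p, (x + y).val • ψ x y =
        ∑ s : ZMod p, s.val • ψ x (s - x) := by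
      intro x
      rw [← Equiv.sum_comp (Equiv.addLeft x) (fun s => s.val • ψ x (s - x))]
      refine Finset.sum_congr rfl fun y _ => ?_
      simp
    simp only [e]
    rw [Finset.sum_comm]
    refine Finset.sum_eq_zero fun s _ => ?_
    rw [← Finset.smul_sum]
    have : ∀ x : ZMod p, ψ x (s - x) =
        (fun t => D3 t (s - t)) (x + 1) - (fun t => D3 t (s - t)) x := by
      intro x
      rw [h3]
      simp only
      rw [show s - x - 1 = s - (x + 1) by ring]
    simp only [this]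
    rw [tele (fun t => D3 t (s - t)), smul_zero]
  have key : p • ∑ x : ZMod p, ∑ y : ZMod p, eps x y • ψ x y =
      ∑ x : ZMod p, ∑ y : ZMod p, x.val • ψ x y + ∑ x : ZMod p, ∑ y : ZMod p, y.val • ψ x y -
        ∑ x : ZMod p, ∑ y : ZMod p, (x + y).val • ψ x y := by
    rw [← Finset.sum_add_distrib, ← Finset.sum_sub_distrib, Finset.smul_sum]
    refine Finset.sum_congr rfl fun x _ => ?_
    rw [← Finset.sum_add_distrib, ← Finset.sum_sub_distrib, Finset.smul_sum]
    refine Finset.sum_congr rfl fun y _ => ?_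
    rw [← add_smul, val_add_val, add_smul, add_sub_cancel_left, mul_smul]
  rw [key, s1, s2, s3]
  simp

end Comb

/-! ### The wreath product -/

section Wreath

variable (p : ℕ) [Fact p.Prime]

/-- The finite `p`-group used to detect the obstruction. -/
abbrev W : Type := RegularWreathProduct (Multiplicative (ZMod p)) (Multiplicative (ZMod p × ZMod p))

instance : Finite (Multiplicative (ZMod p × ZMod p)) :=
  inferInstanceAs (Finite (ZMod p × ZMod p))

instance : Finite (Multiplicative (ZMod p)) :=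
  inferInstanceAs (Finite (ZMod p))

lemma isPGroup_W : IsPGroup p (W p) := by
  refine IsPGroup.of_card (n := p * p + 2) ?_
  rw [RegularWreathProduct.card]
  have h1 : Nat.card (Multiplicative (ZMod p)) = p := by
    show Nat.card (ZMod p) = p
    rw [Nat.card_zmod]
  have h2 : Nat.card (Multiplicative (ZMod p × ZMod p)) = p * p := by
    show Nat.card (ZMod p × ZMod p) = p * p
    rw [Nat.card_prod, Nat.card_zmod]
  rw [h1, h2, pow_add, pow_two]

/-- The directions. -/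
def dir (i : ℕ) : ZMod p × ZMod p := if i = 1 then (0, 1) else if i = 2 then (1, -1) else (1, 0)

/-- The function `F`. -/
def FF (x : ZMod p) : ZMod p := (if x = 1 then 1 else 0) - (if x = 0 then 1 else 0)

/-- The base functions. -/
def base (i : ℕ) (q : ZMod p × ZMod p) : ZMod p :=
  if i = 1 then - q.2 * FF p q.1 else if q.1 = 0 then 1 else 0

lemma base_dir (i : ℕ) (q : ZMod p × ZMod p) :
    base p i (q - dir p i) - base p i q = FF p q.1 := by
  unfold base dir
  by_cases h1 : i = 1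
  · simp only [h1, if_true, Prod.fst_sub, Prod.snd_sub, sub_zero]
    ring
  · simp only [h1, if_false]
    have e : (q - (if i = 2 then ((1 : ZMod p), (-1 : ZMod p)) else (1, 0))).1 = q.1 - 1 := by
      split_ifs <;> rfl
    simp only [e, FF, sub_eq_zero]

/-- The images of the generators `x_i`. -/
def wx (i : ℕ) : W p := ⟨1, Multiplicative.ofAdd (dir p i)⟩

/-- The images of the generators `y_i`. -/
def wy (i : ℕ) : W p := ⟨fun s => Multiplicative.ofAdd (base p i s.toAdd), 1⟩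

/-- The common commutator. -/
def ww : W p := ⟨fun s => Multiplicative.ofAdd (FF p s.toAdd.1), 1⟩

lemma comm_w (i : ℕ) : wx p i * wy p i * (wx p i)⁻¹ * (wy p i)⁻¹ = ww p := by
  have hr : (wx p i * wy p i * (wx p i)⁻¹ * (wy p i)⁻¹).right = (ww p).right := by
    simp [wx, wy, ww]
  have hl : (wx p i * wy p i * (wx p i)⁻¹ * (wy p i)⁻¹).left = (ww p).left := by
    funext s
    apply Multiplicative.toAdd.injective
    show _ = FF p s.toAdd.1
    rw [← base_dir p i s.toAdd]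
    simp [wx, wy, sub_eq_add_neg, add_comm]
  exact RegularWreathProduct.ext hl hr

end Wreath

/-! ### Elementary lemmas -/

section Elem

variable {p : ℕ} [hp : Fact p.Prime]

lemma sum_eps (x : ZMod p) : ∑ y : ZMod p, eps x y = x.val := by
  have h : ∑ y : ZMod p, (x.val + y.val) = ∑ y : ZMod p, ((x + y).val + p * eps x y) :=
    Finset.sum_congr rfl fun y _ => val_add_val x y
  rw [Finset.sum_add_distrib, Finset.sum_add_distrib, ← Finset.mul_sum,
    Finset.sum_const, Finset.card_univ, ZMod.card, smul_eq_mul] at h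
  have e := Equiv.sum_comp (Equiv.addLeft x) (fun y : ZMod p => y.val)
  simp only [Equiv.coe_addLeft] at e
  have h' : p * x.val = p * ∑ y : ZMod p, eps x y := by
    omega
  exact (Nat.eq_of_mul_eq_mul_left hp.out.pos h').symm

lemma sum_eps_FF : ∑ x : ZMod p, ∑ y : ZMod p, eps x y • FF p (-x) = -1 := by
  have h1 : ∀ x : ZMod p, ∑ y : ZMod p, eps x y • FF p (-x) = x * FF p (-x) := by
    intro x
    rw [← Finset.sum_smul, sum_eps, nsmul_eq_mul, ZMod.natCast_zmod_val]
  simp only [h1]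
  have h2 : ∀ x : ZMod p, x * FF p (-x) = if x = -1 then -1 else 0 := by
    intro x
    unfold FF
    have e1 : (-x = 1) ↔ x = -1 := by
      rw [neg_eq_iff_eq_neg]
    simp only [e1, neg_eq_zero]
    by_cases h : x = 0
    · subst h
      by_cases h0 : (0 : ZMod p) = -1
      · rw [if_pos h0, if_pos h0, ← h0]
        simp
      · rw [if_neg h0, if_neg h0]
        simp
    · rw [if_neg h]
      by_cases h0 : x = -1
      · rw [if_pos h0, if_pos h0, h0]
        ring
      · rw [if_neg h0, if_neg h0]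
        ring
  simp only [h2]
  rw [Finset.sum_ite_eq']
  simp

lemma mul_eq_of_cast (m : ℕ) (hm : m + 1 ≠ 0) (z₁ z₂ : ZMod (p ^ (m + 1)))
    (h : ZMod.castHom (dvd_pow_self p hm) (ZMod p) z₁ =
      ZMod.castHom (dvd_pow_self p hm) (ZMod p) z₂) :
    (p : ZMod (p ^ (m + 1))) ^ m * z₁ = (p : ZMod (p ^ (m + 1))) ^ m * z₂ := by
  have key : ∀ z : ZMod (p ^ (m + 1)), ZMod.castHom (dvd_pow_self p hm) (ZMod p) z = 0 →
      (p : ZMod (p ^ (m + 1))) ^ m * z = 0 := by
    intro z hz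
    obtain ⟨k, rfl⟩ := ZMod.natCast_zmod_surjective z
    rw [map_natCast, ZMod.natCast_eq_zero_iff] at hz
    obtain ⟨l, rfl⟩ := hz
    rw [← Nat.cast_pow, ← Nat.cast_mul, ← mul_assoc, ← pow_succ, Nat.cast_mul, ZMod.natCast_self,
      zero_mul]
  have := key (z₁ - z₂) (by rw [map_sub, h, sub_self])
  rw [mul_sub, sub_eq_zero] at this
  exact this

end Elem

/-! ### The obstruction -/

section Main

variable {p : ℕ} [hp : Fact p.Prime] {Γ : Type*} [Group Γ] [TopologicalSpace Γ]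
  [IsTopologicalGroup Γ]

lemma isLocallyConstant_of_ker {P : Type*} [Group P] (φ : Γ →* P)
    (h : IsOpen (φ.ker : Set Γ)) : IsLocallyConstant φ := by
  rw [IsLocallyConstant.iff_exists_open]
  intro x
  refine ⟨(fun y => x⁻¹ * y) ⁻¹' (φ.ker : Set Γ), h.preimage (by fun_prop), ?_, ?_⟩
  · simp
  · intro y hy
    have hy' : φ (x⁻¹ * y) = 1 := hy
    rw [map_mul, map_inv, inv_mul_eq_one] at hy'
    exact hy'.symm

omit [TopologicalSpace Γ] [IsTopologicalGroup Γ] in
/-- The value of a cocycle on a commutator. -/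
lemma cocycle_comm {R : Type} [CommRing R] (t : Γ →* R) (C : Γ → R)
    (hC : ∀ g h, C (g * h) = C g + t g * C h) (x y : Γ) :
    C (x * y * x⁻¹ * y⁻¹) = (1 - t y) * C x + (t x - 1) * C y := by
  have h1 : x * y * x⁻¹ * y⁻¹ * (y * x) = x * y := by group
  have h2 := hC (x * y * x⁻¹ * y⁻¹) (y * x)
  have h3 : t (x * y * x⁻¹ * y⁻¹) = 1 := by
    have hx : t x * t x⁻¹ = 1 := by rw [← map_mul, mul_inv_cancel, map_one]
    have hy : t y * t y⁻¹ = 1 := by rw [← map_mul, mul_inv_cancel, map_one]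
    rw [map_mul, map_mul, map_mul]
    calc t x * t y * t x⁻¹ * t y⁻¹ = (t x * t x⁻¹) * (t y * t y⁻¹) := by ring
      _ = 1 := by rw [hx, hy, mul_one]
  rw [h1, h3, one_mul, hC x y, hC y x] at h2
  linear_combination -h2

variable {d : ℕ} (x y : Fin d → Γ)
  (hF1 : ∀ i j, x i * y i * (x i)⁻¹ * (y i)⁻¹ = x j * y j * (x j)⁻¹ * (y j)⁻¹)
  (hF2 : ∀ H : Subgroup Γ, IsClosed (H : Set Γ) → (∀ i, x i ∈ H) → (∀ i, y i ∈ H) → ∀ g, g ∈ H)
  (hF3 : ∀ (P : Type) [Group P] [Finite P], IsPGroup p P → ∀ x' y' : Fin d → P,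
    (∀ i j, x' i * y' i * (x' i)⁻¹ * (y' i)⁻¹ = x' j * y' j * (x' j)⁻¹ * (y' j)⁻¹) →
    ∃ φ : Γ →* P, IsOpen (φ.ker : Set Γ) ∧ (∀ i, φ (x i) = x' i) ∧ (∀ i, φ (y i) = y' i))
  (hF4 : ∀ N : Subgroup Γ, N.Normal → IsOpen (N : Set Γ) → ∀ g, ∃ k : ℕ, g ^ (p ^ k) ∈ N)

omit [IsTopologicalGroup Γ] in
include hF4 in
/-- The orientation is trivial modulo `p`. -/
lemma theta_one (θ : Γ →* ℤ_[p]ˣ) (hθ : Continuous θ) (g : Γ) :
    PadicInt.toZMod (p := p) (θ g) = 1 := by
  let f : Γ →* (ZMod p)ˣ := (Units.map (PadicInt.toZMod (p := p)).toMonoidHom).comp θ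
  have hf : ∀ g, ((f g : (ZMod p)ˣ) : ZMod p) = PadicInt.toZMod (p := p) (θ g) := fun g => rfl
  have hopen : IsOpen (f.ker : Set Γ) := by
    have : (f.ker : Set Γ) = (fun g => ((θ g : ℤ_[p]ˣ) : ℤ_[p]) - 1) ⁻¹' (Metric.ball 0 1) := by
      ext g
      rw [Set.mem_preimage, mem_ball_zero_iff, SetLike.mem_coe, MonoidHom.mem_ker, Units.ext_iff, hf,
        Units.val_one, ← sub_eq_zero, ← map_one (PadicInt.toZMod (p := p)), ← map_sub,
        ← RingHom.mem_ker, PadicInt.ker_toZMod, IsLocalRing.mem_maximalIdeal, PadicInt.mem_nonunits]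
    rw [this]
    exact Metric.isOpen_ball.preimage ((Units.continuous_val.comp hθ).sub continuous_const)
  obtain ⟨k, hk⟩ := hF4 f.ker inferInstance hopen g
  rw [MonoidHom.mem_ker, Units.ext_iff, hf, map_pow, Units.val_pow_eq_pow_val, map_pow,
    Units.val_one] at hk
  rw [← hk]
  exact (ZMod.pow_card_pow _).symm

include hF1 hF3 hF4 in
lemma theta_step (θ : Γ →* ℤ_[p]ˣ) (hθ : Continuous θ) (hd : 3 ≤ d)
    (hcyc : CyclotomicPair p θ) (m : ℕ)
    (hm : ∀ i, (p : ℤ_[p]) ^ m ∣ (θ (x i) : ℤ_[p]) - 1 ∧ (p : ℤ_[p]) ^ m ∣ (θ (y i) : ℤ_[p]) - 1) :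
    ∀ i, (p : ℤ_[p]) ^ (m + 1) ∣ (θ (x i) : ℤ_[p]) - 1 ∧
      (p : ℤ_[p]) ^ (m + 1) ∣ (θ (y i) : ℤ_[p]) - 1 := by
  classical
  -- lifting of prescribed values
  have lift : ∀ a b : Fin d → ZMod p, ∃ C : Γ → ZMod (p ^ (m + 1)),
      (∀ g h, C (g * h) = C g + PadicInt.toZModPow (p := p) (m + 1) (θ g) * C h) ∧
      (∀ i, ZMod.castHom (dvd_pow_self p m.succ_ne_zero) (ZMod p) (C (x i)) = a i) ∧
      (∀ i, ZMod.castHom (dvd_pow_self p m.succ_ne_zero) (ZMod p) (C (y i)) = b i) := by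
    intro a b
    have hP : IsPGroup p (Multiplicative (ZMod p)) := by
      refine IsPGroup.of_card (n := 1) ?_
      show Nat.card (ZMod p) = p ^ 1
      rw [Nat.card_zmod, pow_one]
    obtain ⟨φ, hφ, hφx, hφy⟩ := hF3 (Multiplicative (ZMod p)) hP
      (fun i => Multiplicative.ofAdd (a i)) (fun i => Multiplicative.ofAdd (b i))
      (by intro i j; simp)
    obtain ⟨c, ⟨-, hc⟩, e, he⟩ := hcyc ⊤ isOpen_univ (m + 1) m.succ_ne_zero
      (fun g => (φ g).toAdd)
      ⟨((isLocallyConstant_of_ker φ hφ).comp Multiplicative.toAdd).comp_continuous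
        continuous_subtype_val, by
        intro g h
        rw [theta_one hF4 θ hθ]
        simp⟩
    refine ⟨fun g => c ⟨g, trivial⟩, fun g h => hc ⟨g, trivial⟩ ⟨h, trivial⟩, fun i => ?_,
      fun i => ?_⟩
    · have := he ⟨x i, trivial⟩
      rw [theta_one hF4 θ hθ, one_mul, sub_self, add_zero] at this
      rw [← this, hφx]
      rfl
    · have := he ⟨y i, trivial⟩
      rw [theta_one hF4 θ hθ, one_mul, sub_self, add_zero] at this
      rw [← this, hφy]
      rfl
  let t : Γ →* ZMod (p ^ (m + 1)) :=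
    ((PadicInt.toZModPow (p := p) (m + 1)).toMonoidHom.comp (Units.coeHom ℤ_[p])).comp θ
  have ht : ∀ g, t g = PadicInt.toZModPow (p := p) (m + 1) (θ g) := fun g => rfl
  have htx : ∀ g, (p : ℤ_[p]) ^ m ∣ (θ g : ℤ_[p]) - 1 →
      ∃ s, t g - 1 = (p : ZMod (p ^ (m + 1))) ^ m * s := by
    rintro g ⟨s, hs⟩
    refine ⟨PadicInt.toZModPow (p := p) (m + 1) s, ?_⟩
    rw [ht, ← map_one (PadicInt.toZModPow (p := p) (m + 1)), ← map_sub, hs, map_mul, map_pow,
      map_natCast]
  have hfin : ∀ g, t g - 1 = 0 → (p : ℤ_[p]) ^ (m + 1) ∣ (θ g : ℤ_[p]) - 1 := by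
    intro g hg
    rw [ht, ← map_one (PadicInt.toZModPow (p := p) (m + 1)), ← map_sub, ← RingHom.mem_ker,
      PadicInt.ker_toZModPow, Ideal.mem_span_singleton] at hg
    exact hg
  intro i
  obtain ⟨j, hj⟩ : ∃ j : Fin d, j ≠ i := by
    have : Nontrivial (Fin d) := Fin.nontrivial_iff_two_le.2 (by omega)
    exact exists_ne i
  obtain ⟨s1, hs1⟩ := htx (x i) (hm i).1
  obtain ⟨s2, hs2⟩ := htx (y i) (hm i).2
  obtain ⟨s3, hs3⟩ := htx (x j) (hm j).1
  obtain ⟨s4, hs4⟩ := htx (y j) (hm j).2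
  have hcast : ∀ z w : ZMod (p ^ (m + 1)),
      ZMod.castHom (dvd_pow_self p m.succ_ne_zero) (ZMod p) z =
        ZMod.castHom (dvd_pow_self p m.succ_ne_zero) (ZMod p) w →
      (p : ZMod (p ^ (m + 1))) ^ m * z = (p : ZMod (p ^ (m + 1))) ^ m * w :=
    fun z w h => mul_eq_of_cast m m.succ_ne_zero z w h
  constructor
  · apply hfin
    obtain ⟨C, hC, hCx, hCy⟩ := lift 0 (Pi.single i 1)
    have e1 := cocycle_comm t C hC (x i) (y i)
    have e2 := cocycle_comm t C hC (x j) (y j)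
    rw [hF1 i j, e2] at e1
    have c1 := hcast (C (x i)) 0 (by rw [hCx, map_zero]; rfl)
    have c2 := hcast (C (y i)) 1 (by rw [hCy, map_one]; simp)
    have c3 := hcast (C (x j)) 0 (by rw [hCx, map_zero]; rfl)
    have c4 := hcast (C (y j)) 0 (by rw [hCy, map_zero]; simp [hj])
    have d4 : t (y j) = 1 + (p : ZMod (p ^ (m + 1))) ^ m * s4 := by rw [← hs4]; ring
    have d3 : t (x j) = 1 + (p : ZMod (p ^ (m + 1))) ^ m * s3 := by rw [← hs3]; ring
    have d2 : t (y i) = 1 + (p : ZMod (p ^ (m + 1))) ^ m * s2 := by rw [← hs2]; ring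
    have d1 : t (x i) = 1 + (p : ZMod (p ^ (m + 1))) ^ m * s1 := by rw [← hs1]; ring
    rw [hs1]
    rw [d1, d2, d3, d4] at e1
    linear_combination (-1 : ZMod (p ^ (m + 1))) * e1 - s2 * c1 * (-1) - s1 * c2 + s4 * c3 * (-1) + s3 * c4
  · apply hfin
    obtain ⟨C, hC, hCx, hCy⟩ := lift (Pi.single i 1) 0
    have e1 := cocycle_comm t C hC (x i) (y i)
    have e2 := cocycle_comm t C hC (x j) (y j)
    rw [hF1 i j, e2] at e1
    have c1 := hcast (C (x i)) 1 (by rw [hCx, map_one]; simp)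
    have c2 := hcast (C (y i)) 0 (by rw [hCy, map_zero]; rfl)
    have c3 := hcast (C (x j)) 0 (by rw [hCx, map_zero]; simp [hj])
    have c4 := hcast (C (y j)) 0 (by rw [hCy, map_zero]; rfl)
    have d4 : t (y j) = 1 + (p : ZMod (p ^ (m + 1))) ^ m * s4 := by rw [← hs4]; ring
    have d3 : t (x j) = 1 + (p : ZMod (p ^ (m + 1))) ^ m * s3 := by rw [← hs3]; ring
    have d2 : t (y i) = 1 + (p : ZMod (p ^ (m + 1))) ^ m * s2 := by rw [← hs2]; ring
    have d1 : t (x i) = 1 + (p : ZMod (p ^ (m + 1))) ^ m * s1 := by rw [← hs1]; ring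
    rw [hs2]
    rw [d1, d2, d3, d4] at e1
    linear_combination e1 - s2 * c1 + s1 * c2 + s4 * c3 - s3 * c4

include hF1 hF2 hF3 hF4 in
lemma theta_trivial (θ : Γ →* ℤ_[p]ˣ) (hθ : Continuous θ) (hd : 3 ≤ d)
    (hcyc : CyclotomicPair p θ) (g : Γ) : θ g = 1 := by
  have h : ∀ m : ℕ, ∀ i, (p : ℤ_[p]) ^ m ∣ (θ (x i) : ℤ_[p]) - 1 ∧
      (p : ℤ_[p]) ^ m ∣ (θ (y i) : ℤ_[p]) - 1 := by
    intro m
    induction m with
    | zero => intro i; simp
    | succ m ih => exact theta_step x y hF1 hF3 hF4 θ hθ hd hcyc m ih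
  have h' : ∀ g, (∀ m : ℕ, (p : ℤ_[p]) ^ m ∣ (θ g : ℤ_[p]) - 1) → θ g = 1 := by
    intro g hg
    rw [Units.ext_iff, Units.val_one, ← PadicInt.ext_of_toZModPow]
    intro n
    rw [← sub_eq_zero, ← map_sub, ← RingHom.mem_ker, PadicInt.ker_toZModPow,
      Ideal.mem_span_singleton]
    exact hg n
  have hcl : IsClosed (θ.ker : Set Γ) := by
    have : (θ.ker : Set Γ) = (fun g => ((θ g : ℤ_[p]ˣ) : ℤ_[p])) ⁻¹' {1} := by
      ext g
      rw [Set.mem_preimage, Set.mem_singleton_iff, SetLike.mem_coe, MonoidHom.mem_ker,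
        Units.ext_iff, Units.val_one]
    rw [this]
    exact isClosed_singleton.preimage (Units.continuous_val.comp hθ)
  exact hF2 θ.ker hcl (fun i => h' _ fun m => (h m i).1) (fun i => h' _ fun m => (h m i).2) g

include hF1 hF2 hF3 hF4 in
/-- A pro-`p` group with the given generators and relations is not 1-cyclotomic. -/
theorem not_cyclotomic (hd : 3 ≤ d) : ¬ Cyclotomic p Γ := by
  classical
  rintro ⟨θ, hθ, hcyc⟩
  have hθ1 := theta_trivial x y hF1 hF2 hF3 hF4 θ hθ hd hcyc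
  -- the finite quotient
  have : Finite (W p) := Finite.of_equiv _ (RegularWreathProduct.equivProd _ _).symm
  obtain ⟨φ, hφ, hφx, hφy⟩ := hF3 (W p) (isPGroup_W p) (fun i => wx p i) (fun i => wy p i)
    (fun i j => by simp only [comm_w])
  let π : Γ →* Multiplicative (ZMod p × ZMod p) := (RegularWreathProduct.rightHom).comp φ
  have hπ : ∀ g, π g = (φ g).right := fun g => rfl
  let U : Subgroup Γ := π.ker
  have hUn : U.Normal := inferInstance
  have hUmem : ∀ g, g ∈ U ↔ (φ g).right = 1 := fun g => Iff.rfl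
  have hUo : IsOpen (U : Set Γ) := by
    refine Subgroup.isOpen_mono (H₁ := φ.ker) ?_ hφ
    intro g hg
    rw [hUmem, (hg : φ g = 1)]
    rfl
  obtain ⟨c, ⟨-, hc⟩, e, he⟩ := hcyc U hUo 2 two_ne_zero
    (fun u => ((φ u).left 1).toAdd)
    ⟨((isLocallyConstant_of_ker φ hφ).comp (fun w : W p => (w.left 1).toAdd)).comp_continuous
      continuous_subtype_val, by
      intro g h
      have hg : (φ g).right = 1 := (hUmem _).1 g.2
      rw [hθ1]
      simp [hg]⟩
  -- extend by zero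
  let C : Γ → ZMod (p ^ 2) := fun g => if h : g ∈ U then c ⟨g, h⟩ else 0
  have hCc : ∀ g (h : g ∈ U), C g = c ⟨g, h⟩ := fun g h => dif_pos h
  have hCm : ∀ g h, g ∈ U → h ∈ U → C (g * h) = C g + C h := by
    intro g h hg hh
    rw [hCc _ hg, hCc _ hh, hCc _ (U.mul_mem hg hh)]
    have := hc ⟨g, hg⟩ ⟨h, hh⟩
    rw [hθ1, Units.val_one, map_one, one_mul] at this
    exact this
  have hC1 : C 1 = 0 := by
    have := hCm 1 1 U.one_mem U.one_mem
    rw [one_mul] at this
    linear_combination -this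
  have hCi : ∀ g, g ∈ U → C g⁻¹ = - C g := by
    intro g hg
    have := hCm g g⁻¹ hg (U.inv_mem hg)
    rw [mul_inv_cancel, hC1] at this
    linear_combination -this
  have hcj : ∀ g v, v ∈ U → g * v * g⁻¹ ∈ U := fun g v hv => hUn.conj_mem v hv g
  have hCconj : ∀ u v, u ∈ U → v ∈ U → C (u * v * u⁻¹) = C v := by
    intro u v hu hv
    rw [hCm _ _ (U.mul_mem hu hv) (U.inv_mem hu), hCm _ _ hu hv, hCi u hu]
    ring
  have hCred : ∀ g, g ∈ U → ZMod.castHom (dvd_pow_self p two_ne_zero) (ZMod p) (C g) =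
      ((φ g).left 1).toAdd := by
    intro g hg
    have := he ⟨g, hg⟩
    rw [hθ1, Units.val_one, map_one, one_mul, sub_self, add_zero] at this
    rw [hCc g hg, ← this]
  have hinv : ∀ g g' v, v ∈ U → (φ g).right = (φ g').right →
      C (g * v * g⁻¹) = C (g' * v * g'⁻¹) := by
    intro g g' v hv h
    have hu : g' * g⁻¹ ∈ U := by
      rw [hUmem, map_mul, map_inv, RegularWreathProduct.mul_right, RegularWreathProduct.inv_right,
        h, mul_inv_cancel]
    have := hCconj (g' * g⁻¹) (g * v * g⁻¹) hu (hcj g v hv)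
    rw [← this]
    congr 1
    group
  -- the section
  have i0 : (0 : ℕ) < d := by omega
  have i1 : (1 : ℕ) < d := by omega
  have i2 : (2 : ℕ) < d := by omega
  let s : ZMod p → ZMod p → Γ := fun a b => x ⟨0, i0⟩ ^ a.val * x ⟨1, i1⟩ ^ b.val
  have hs : ∀ a b, (φ (s a b)).right = Multiplicative.ofAdd (a, b) := by
    intro a b
    have h0 : π (x ⟨0, i0⟩) = Multiplicative.ofAdd (1, 0) := by
      rw [hπ, hφx]; rfl
    have h1 : π (x ⟨1, i1⟩) = Multiplicative.ofAdd (0, 1) := by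
      rw [hπ, hφx]; rfl
    rw [← hπ, map_mul, map_pow, map_pow, h0, h1, ← ofAdd_nsmul, ← ofAdd_nsmul, ← ofAdd_add]
    congr 1
    simp
  have hyU : ∀ i, y i ∈ U := by
    intro i
    rw [hUmem, hφy]
    rfl
  let w : Γ := x ⟨0, i0⟩ * y ⟨0, i0⟩ * (x ⟨0, i0⟩)⁻¹ * (y ⟨0, i0⟩)⁻¹
  have hw : ∀ i, w = x i * y i * (x i)⁻¹ * (y i)⁻¹ := fun i => hF1 _ i
  have hφw : φ w = ww p := by
    rw [map_mul, map_mul, map_mul, map_inv, map_inv, hφx, hφy, comm_w]
  have hwU : w ∈ U := by
    rw [hUmem, hφw]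
    rfl
  have main : ∀ (i : Fin d) (a b : ZMod p), C (s a b * w * (s a b)⁻¹) =
      C (s (a + (dir p i).1) (b + (dir p i).2) * y i *
        (s (a + (dir p i).1) (b + (dir p i).2))⁻¹) - C (s a b * y i * (s a b)⁻¹) := by
    intro i a b
    have e1 : s a b * w * (s a b)⁻¹ =
        (s a b * x i * y i * (s a b * x i)⁻¹) * (s a b * y i * (s a b)⁻¹)⁻¹ := by
      rw [hw i]; group
    rw [e1, hCm _ _ (hcj _ _ (hyU i)) (U.inv_mem (hcj _ _ (hyU i))), hCi _ (hcj _ _ (hyU i)),
      sub_eq_add_neg]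
    congr 1
    refine hinv _ _ _ (hyU i) ?_
    rw [map_mul, RegularWreathProduct.mul_right, hs, hs, hφx]
    rfl
  have hcomb := comb (fun a b => C (s a b * w * (s a b)⁻¹))
    (fun a b => C (s a b * y ⟨0, i0⟩ * (s a b)⁻¹))
    (fun a b => C (s a b * y ⟨1, i1⟩ * (s a b)⁻¹))
    (fun a b => C (s a b * y ⟨2, i2⟩ * (s a b)⁻¹))
    (fun a b => by
      have := main ⟨0, i0⟩ a b
      simpa [dir] using this)
    (fun a b => by
      have := main ⟨1, i1⟩ a b
      simpa [dir] using this)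
    (fun a b => by
      have := main ⟨2, i2⟩ a b
      simpa [dir, sub_eq_add_neg] using this)
  have hred : ∀ a b, ZMod.castHom (dvd_pow_self p two_ne_zero) (ZMod p)
      (C (s a b * w * (s a b)⁻¹)) = FF p (-a) := by
    intro a b
    rw [hCred _ (hcj _ _ hwU), map_mul, map_mul, map_inv, hφw]
    simp [ww, hs]
  have hsum : ZMod.castHom (dvd_pow_self p two_ne_zero) (ZMod p)
      (∑ a : ZMod p, ∑ b : ZMod p, eps a b • C (s a b * w * (s a b)⁻¹)) = -1 := by
    rw [map_sum, ← sum_eps_FF]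
    refine Finset.sum_congr rfl fun a _ => ?_
    rw [map_sum]
    refine Finset.sum_congr rfl fun b _ => ?_
    rw [map_nsmul, hred]
  have h2 := mul_eq_of_cast (p := p) 1 two_ne_zero
    (∑ a : ZMod p, ∑ b : ZMod p, eps a b • C (s a b * w * (s a b)⁻¹)) (-1)
    (by rw [map_neg, map_one]; exact hsum)
  rw [nsmul_eq_mul] at hcomb
  rw [pow_one] at h2
  have h3 : (p : ZMod (p ^ 2)) = 0 := by
    have h4 : (p : ZMod (p ^ 2)) * -1 = 0 := by
      rw [← hcomb]
      exact h2.symm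
    linear_combination -h4
  rw [ZMod.natCast_eq_zero_iff] at h3
  have h5 := Nat.le_of_dvd hp.out.pos h3
  have h6 : p ^ 1 < p ^ 2 := Nat.pow_lt_pow_right hp.out.one_lt (by norm_num)
  rw [pow_one] at h6
  omega

end Main

end Pool.Agent.X252.Cyc
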