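import Pool.Agent.X252.CycAbs

/-!
# The pro-`p` completion and pro-`p` presentations
-/

namespace Pool.Agent.X252.Cyc

open scoped commutatorElement

/-! ### The pro-`p` completion of an abstract group -/

section ProP

/-- Normal subgroups of `p`-power index of `F`. -/
def PNormal (p : ℕ) (F : Type) [Group F] : Type :=
  {N : Subgroup F // N.Normal ∧ ∃ k : ℕ, N.index = p ^ k}

/-- The finite `p`-group `F / N`, equipped with the discrete topology. -/
def PQuot {p : ℕ} {F : Type} [Group F] (N : PNormal p F) : Type := F ⧸ N.1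

variable {p : ℕ} {F : Type} [Group F]

instance (N : PNormal p F) : N.1.Normal := N.2.1

instance (N : PNormal p F) : Group (PQuot N) := inferInstanceAs (Group (F ⧸ N.1))

instance (N : PNormal p F) : TopologicalSpace (PQuot N) := ⊥

instance (N : PNormal p F) : DiscreteTopology (PQuot N) := ⟨rfl⟩

/-- The canonical homomorphism of `F` to the product of the quotients `F / N`. -/
def toProd (p : ℕ) (F : Type) [Group F] : F →* (∀ N : PNormal p F, PQuot N) where
  toFun f := fun N => (QuotientGroup.mk f : F ⧸ N.1)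
  map_one' := rfl
  map_mul' _ _ := rfl

/-- The pro-`p` completion of `F`: the closure of the image of `F` in the product of its finite
quotients of `p`-power order (for `F` a free group on a finite set `X` this is the free pro-`p`
group on `X`). -/
abbrev ProPCompletion (p : ℕ) (F : Type) [Group F] : Type :=
  ((toProd p F).range.topologicalClosure : Subgroup (∀ N : PNormal p F, PQuot N))

/-- The canonical homomorphism of `F` to its pro-`p` completion. -/
def toPro (p : ℕ) (F : Type) [Group F] : F →* ProPCompletion p F :=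
  (toProd p F).codRestrict _ fun f => Subgroup.le_topologicalClosure _ ⟨f, rfl⟩

/-- The projection of the completion to a quotient. -/
def proj (N : PNormal p F) : ProPCompletion p F →* PQuot N :=
  (Pi.evalMonoidHom _ N).comp (Subgroup.subtype _)

lemma continuous_proj (N : PNormal p F) : Continuous (proj N) :=
  (continuous_apply N).comp continuous_subtype_val

lemma proj_toPro (N : PNormal p F) (f : F) : proj N (toPro p F f) = (QuotientGroup.mk f : F ⧸ N.1) :=
  rfl

lemma denseRange_toPro : DenseRange (toPro p F) := by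
  rw [DenseRange, dense_iff_closure_eq, Set.eq_univ_iff_forall]
  intro z
  rw [closure_subtype]
  have hz : (z : ∀ N : PNormal p F, PQuot N) ∈ closure ((toProd p F).range : Set _) := z.2
  convert hz using 2
  ext w
  constructor
  · rintro ⟨_, ⟨f, rfl⟩, rfl⟩
    exact ⟨f, rfl⟩
  · rintro ⟨f, rfl⟩
    exact ⟨_, ⟨f, rfl⟩, rfl⟩

/-- Universal property for finite `p`-groups. -/
lemma exists_hom [Fact p.Prime] {P : Type} [Group P] [Finite P] (hP : IsPGroup p P) (f : F →* P) :
    ∃ φ : ProPCompletion p F →* P, IsOpen (φ.ker : Set (ProPCompletion p F)) ∧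
      ∀ a, φ (toPro p F a) = f a := by
  have hidx : ∃ k : ℕ, f.ker.index = p ^ k := by
    rw [Subgroup.index_ker]
    obtain ⟨n, hn⟩ := (hP.to_subgroup f.range).exists_card_eq
    exact ⟨n, hn⟩
  let N : PNormal p F := ⟨f.ker, inferInstance, hidx⟩
  let g : PQuot N →* P := QuotientGroup.kerLift f
  refine ⟨g.comp (proj N), ?_, fun a => ?_⟩
  · refine Subgroup.isOpen_mono (H₁ := (proj N).ker) ?_ ?_
    · intro z hz
      rw [MonoidHom.mem_ker, MonoidHom.comp_apply, (hz : proj N z = 1), map_one]
    · have : ((proj N).ker : Set (ProPCompletion p F)) = proj N ⁻¹' {1} := rfl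
      rw [this]
      exact (isOpen_discrete _).preimage (continuous_proj N)
  · show g (proj N (toPro p F a)) = f a
    rw [proj_toPro]
    exact QuotientGroup.kerLift_mk f a

/-- Every element is torsion of `p`-power order modulo an open subgroup. -/
lemma exists_pow_mem [Fact p.Prime] (M : Subgroup (ProPCompletion p F))
    (hM : IsOpen (M : Set (ProPCompletion p F))) (g : ProPCompletion p F) :
    ∃ k : ℕ, g ^ (p ^ k) ∈ M := by
  obtain ⟨V, hV, hVM⟩ := isOpen_induced_iff.1 hM
  have h1 : (1 : ∀ N : PNormal p F, PQuot N) ∈ V := by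
    have : (1 : ProPCompletion p F) ∈ (Subtype.val ⁻¹' V : Set (ProPCompletion p F)) := by
      rw [hVM]; exact M.one_mem
    exact this
  rw [isOpen_pi_iff] at hV
  obtain ⟨I, u, hu, hIV⟩ := hV 1 h1
  have hk : ∀ N : PNormal p F, ∃ k : ℕ, ∀ q : PQuot N, q ^ (p ^ k) = 1 := by
    intro N
    obtain ⟨k, hk⟩ := N.2.2
    refine ⟨k, fun q => ?_⟩
    rw [← hk, Subgroup.index_eq_card]
    exact pow_card_eq_one' (G := PQuot N)
  choose k hk using hk
  refine ⟨∑ N ∈ I, k N, ?_⟩
  have : g ^ (p ^ (∑ N ∈ I, k N)) ∈ (Subtype.val ⁻¹' V : Set (ProPCompletion p F)) := by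
    apply hIV
    intro N hN
    have hN' : (g ^ (p ^ (∑ N ∈ I, k N))).1 N = 1 := by
      show (proj N (g ^ (p ^ (∑ N ∈ I, k N)))) = 1
      rw [map_pow]
      obtain ⟨l, hl⟩ := Nat.exists_eq_add_of_le (Finset.single_le_sum (f := k)
        (fun _ _ => Nat.zero_le _) (Finset.mem_coe.1 hN))
      rw [hl, pow_add, pow_mul, hk, one_pow]
    rw [hN']
    exact (hu N hN).2
  rw [hVM] at this
  exact this

end ProP

/-! ### Pro-`p` presentations -/

section Pres

variable {p : ℕ} {F : Type} [Group F]

/-- The pro-`p` group obtained from the pro-`p` completion of `F` by killing the closed normal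
subgroup generated by the set `R`. For `F` free on a finite set this is the pro-`p` group with the
given generators and the relators `R`. -/
abbrev ProPQuot (p : ℕ) (F : Type) [Group F] (R : Set (ProPCompletion p F)) : Type :=
  ProPCompletion p F ⧸ (Subgroup.normalClosure R).topologicalClosure

variable (R : Set (ProPCompletion p F))

instance normal_clos : ((Subgroup.normalClosure R).topologicalClosure).Normal :=
  Subgroup.is_normal_topologicalClosure _

lemma denseRange_quot : DenseRange (fun f : F => (QuotientGroup.mk (toPro p F f) : ProPQuot p F R)) :=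
  (QuotientGroup.mk_surjective.denseRange).comp denseRange_toPro continuous_quotient_mk'

lemma exists_hom_quot [Fact p.Prime] {P : Type} [Group P] [Finite P] (hP : IsPGroup p P)
    (f : F →* P) (hR : ∀ φ : ProPCompletion p F →* P, (∀ a, φ (toPro p F a) = f a) →
      ∀ r ∈ R, φ r = 1) :
    ∃ φ : ProPQuot p F R →* P, IsOpen (φ.ker : Set (ProPQuot p F R)) ∧
      ∀ a, φ (QuotientGroup.mk (toPro p F a)) = f a := by
  obtain ⟨φ, hφ, hφf⟩ := exists_hom hP f
  have hle : (Subgroup.normalClosure R).topologicalClosure ≤ φ.ker := by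
    refine Subgroup.topologicalClosure_minimal _ ?_ (Subgroup.isClosed_of_isOpen _ hφ)
    exact Subgroup.normalClosure_le_normal fun r hr => hR φ hφf r hr
  refine ⟨QuotientGroup.lift _ φ hle, ?_, fun a => ?_⟩
  · rw [← isQuotientMap_quotient_mk'.isOpen_preimage]
    exact hφ
  · rw [QuotientGroup.lift_mk]
    exact hφf a

lemma exists_pow_mem_quot [Fact p.Prime] (M : Subgroup (ProPQuot p F R))
    (hM : IsOpen (M : Set (ProPQuot p F R))) (g : ProPQuot p F R) :
    ∃ k : ℕ, g ^ (p ^ k) ∈ M := by
  obtain ⟨g, rfl⟩ := QuotientGroup.mk_surjective g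
  obtain ⟨k, hk⟩ := exists_pow_mem (M.comap (QuotientGroup.mk' _))
    (hM.preimage continuous_quotient_mk') g
  exact ⟨k, hk⟩

end Pres

/-! ### The group of the problem -/

section TheGroup

variable (p d : ℕ)

/-- The free pro-`p` group on `x_1, …, x_d, y_1, …, y_d`. -/
abbrev FreePro : Type := ProPCompletion p (FreeGroup (Fin d ⊕ Fin d))

/-- The generator `x_i` of the free pro-`p` group. -/
def genX (i : Fin d) : FreePro p d := toPro p _ (FreeGroup.of (Sum.inl i))

/-- The generator `y_i` of the free pro-`p` group. -/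
def genY (i : Fin d) : FreePro p d := toPro p _ (FreeGroup.of (Sum.inr i))

/-- The relators `[x_i, y_i] [x_{i+1}, y_{i+1}]⁻¹`. -/
def relators : Set (FreePro p d) :=
  {r | ∃ i j : Fin d, (j : ℕ) = i + 1 ∧
    r = ⁅genX p d i, genY p d i⁆ * ⁅genX p d j, genY p d j⁆⁻¹}

/-- The pro-`p` group with generators `x_1, y_1, …, x_d, y_d` and the relations
`[x_i, y_i] = [x_{i+1}, y_{i+1}]` for `1 ≤ i ≤ d - 1`. -/
abbrev ChainGroup : Type := ProPQuot p (FreeGroup (Fin d ⊕ Fin d)) (relators p d)

end TheGroup

section Final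

variable {p d : ℕ} [hp : Fact p.Prime]

/-- The image of `x_i`. -/
def gx (i : Fin d) : ChainGroup p d := QuotientGroup.mk (genX p d i)

/-- The image of `y_i`. -/
def gy (i : Fin d) : ChainGroup p d := QuotientGroup.mk (genY p d i)

omit hp in
lemma rel_succ (i j : Fin d) (hij : (j : ℕ) = i + 1) :
    (gx i : ChainGroup p d) * gy i * (gx i)⁻¹ * (gy i)⁻¹ = gx j * gy j * (gx j)⁻¹ * (gy j)⁻¹ := by
  have h : ⁅genX p d i, genY p d i⁆ * ⁅genX p d j, genY p d j⁆⁻¹ ∈
      (Subgroup.normalClosure (relators p d)).topologicalClosure :=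
    Subgroup.le_topologicalClosure _ (Subgroup.subset_normalClosure ⟨i, j, hij, rfl⟩)
  have h2 := (QuotientGroup.eq_one_iff _).2 h
  rw [QuotientGroup.mk_mul, QuotientGroup.mk_inv, mul_inv_eq_one, commutatorElement_def,
    commutatorElement_def] at h2
  exact h2

omit hp in
lemma rel_all (hd : 0 < d) (i j : Fin d) :
    (gx i : ChainGroup p d) * gy i * (gx i)⁻¹ * (gy i)⁻¹ = gx j * gy j * (gx j)⁻¹ * (gy j)⁻¹ := by
  have h : ∀ (n : ℕ) (hn : n < d), (gx ⟨n, hn⟩ : ChainGroup p d) * gy ⟨n, hn⟩ * (gx ⟨n, hn⟩)⁻¹ *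
      (gy ⟨n, hn⟩)⁻¹ = gx ⟨0, hd⟩ * gy ⟨0, hd⟩ * (gx ⟨0, hd⟩)⁻¹ * (gy ⟨0, hd⟩)⁻¹ := by
    intro n
    induction n with
    | zero => intro _; rfl
    | succ n ih =>
      intro hn
      rw [← ih (by omega)]
      exact (rel_succ _ _ rfl).symm
  rw [h i.1 i.2, h j.1 j.2]

theorem chainGroup_not_cyclotomic (hd : 3 ≤ d) : ¬ Cyclotomic p (ChainGroup p d) := by
  refine not_cyclotomic (gx (p := p) (d := d)) gy (rel_all (by omega)) ?_ ?_ ?_ hd
  · intro H hH hx hy g
    have hle : ∀ f : FreeGroup (Fin d ⊕ Fin d),
        (QuotientGroup.mk (toPro p _ f) : ChainGroup p d) ∈ H := by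
      intro f
      induction f using FreeGroup.induction_on with
      | C1 => exact H.one_mem
      | of i =>
        rcases i with i | i
        · exact hx i
        · exact hy i
      | inv_of i hi => 
        rw [map_inv, QuotientGroup.mk_inv]
        exact H.inv_mem hi
      | mul a b ha hb =>
        rw [map_mul, QuotientGroup.mk_mul]
        exact H.mul_mem ha hb
    have := (denseRange_quot (p := p) (relators p d)) g
    exact hH.closure_subset_iff.2 (by rintro _ ⟨f, rfl⟩; exact hle f) this
  · intro P _ _ hP x' y' hrel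
    obtain ⟨φ, hφ, hφf⟩ := exists_hom_quot (relators p d) hP
      (FreeGroup.lift (Sum.elim x' y')) (by
        rintro φ hφ r ⟨i, j, -, rfl⟩
        have hx : ∀ i, φ (genX p d i) = x' i := fun i => by
          rw [genX, hφ]; simp
        have hy : ∀ i, φ (genY p d i) = y' i := fun i => by
          rw [genY, hφ]; simp
        rw [map_mul, map_inv, mul_inv_eq_one, commutatorElement_def, commutatorElement_def]
        simp only [map_mul, map_inv, hx, hy]
        exact hrel i j)
    refine ⟨φ, hφ, fun i => ?_, fun i => ?_⟩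
    · refine (hφf (FreeGroup.of (Sum.inl i))).trans ?_
      simp
    · refine (hφf (FreeGroup.of (Sum.inr i))).trans ?_
      simp
  · intro N _ hN g
    exact exists_pow_mem_quot _ N hN g

end Final

end Pool.Agent.X252.Cyc
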