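import Pool.Agent.X252.GC

/-!
# The translates of a vector of a rational representation of a finite group
-/

set_option autoImplicit false

open Finset Pool.Agent.X328.PB Pool.Agent.X310.Mu

namespace Pool.Agent.X252.GV

open Pool.Agent.X252.GA Pool.Agent.X252.GC

section
variable {V : Type*} [AddCommGroup V] [Module ℚ V] {G : Type} [Group G]
  (act : G →* Module.End ℚ V) (v : V)

/-- The subspace spanned by the translates of the vector. -/
def orb : Submodule ℚ V := Submodule.span ℚ (Set.range fun a => act a v)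

lemma orb_stable (g : G) (u : V) (hu : u ∈ orb act v) : act g u ∈ orb act v := by
  have h : orb act v ≤ (orb act v).comap (act g) := by
    unfold orb
    rw [Submodule.span_le]
    rintro _ ⟨a, rfl⟩
    change act g (act a v) ∈ orb act v
    rw [← Module.End.mul_apply, ← map_mul]
    exact Submodule.subset_span ⟨g * a, rfl⟩
  exact h hu

lemma self_mem : v ∈ orb act v := by
  refine Submodule.subset_span ⟨1, ?_⟩
  simp

variable [Fintype G]

lemma theta_nrm (H : Subgroup G) (u : V) : GC.theta act (nA H) u = nrm act H u := by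
  classical
  rw [GC.theta_nA, finsum_eq_sum_of_fintype, LinearMap.sum_apply, nrm]
  refine (Finset.sum_bij' (fun g hg => ⟨g, by simpa using hg⟩) (fun h _ => h.1)
    ?_ ?_ ?_ ?_ ?_).symm
  · intro g hg; simp
  · intro h _; simp
  · intro g hg; simp
  · intro h _; simp
  · intro g hg; simp

/-- The elements of the group ring which annihilate the translates. -/
noncomputable def idv : Ideal (MonoidAlgebra ℚ G) where
  carrier := {x | ∀ u ∈ orb act v, GC.theta act x u = 0}
  add_mem' := by
    intro x y hx hy u hu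
    rw [map_add, LinearMap.add_apply, hx u hu, hy u hu, add_zero]
  zero_mem' := by
    intro u _
    rw [map_zero, LinearMap.zero_apply]
  smul_mem' := by
    intro c x hx u hu
    rw [smul_eq_mul, map_mul, Module.End.mul_apply, hx u hu, map_zero]

lemma idv_right (x : MonoidAlgebra ℚ G) (hx : x ∈ idv act v)
    (y : MonoidAlgebra ℚ G) : x * y ∈ idv act v := by
  intro u hu
  rw [map_mul, Module.End.mul_apply]
  exact hx _ (GC.theta_stable _ (orb_stable act v) y hu)

lemma nA_mem (H : Subgroup G) : nA H ∈ idv act v ↔ ∀ a, nrm act H (act a v) = 0 := by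
  constructor
  · intro h a
    rw [← theta_nrm]
    exact h _ (Submodule.subset_span ⟨a, rfl⟩)
  · intro h
    have h1 : orb act v ≤ LinearMap.ker (GC.theta act (nA H)) := by
      unfold orb
      rw [Submodule.span_le]
      rintro _ ⟨a, rfl⟩
      change GC.theta act (nA H) (act a v) = 0
      rw [theta_nrm]
      exact h a
    exact fun u hu => h1 hu

lemma one_mem : (1 : MonoidAlgebra ℚ G) ∈ idv act v ↔ v = 0 := by
  constructor
  · intro h
    have h1 := h v (self_mem act v)
    rwa [map_one, Module.End.one_apply] at h1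
  · rintro rfl u hu
    have h1 : orb act (0 : V) ≤ ⊥ := by
      unfold orb
      rw [Submodule.span_le]
      rintro _ ⟨a, rfl⟩
      simp
    rw [(Submodule.mem_bot ℚ).1 (h1 hu), map_zero]

/-- **The vanishing of a vector and of its norms.** -/
theorem main :
    (∀ (H : Subgroup G) (ι : Type) (D : ι → Subgroup G),
      (∀ (S : Type) [AddCommGroup S] [Module ℚ S] (ρ : G →* Module.End ℚ S), Irred ρ →
        Occurs act (orb act v) ρ → (∃ s : S, s ≠ 0 ∧ ∀ h ∈ H, ρ h s = s) →
          ∃ i, ∃ s : S, s ≠ 0 ∧ ∀ d ∈ D i, ρ d s = s) →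
      (∀ j a, nrm act (D j) (act a v) = 0) → ∀ a, nrm act H (act a v) = 0) ∧
    (∀ c : G, c * c = 1 → (v = 0 ↔ (∀ a, nrm act (Subgroup.zpowers c) (act a v) = 0) ∧
      ∀ a, nrm act (comms c) (act a v) = 0)) ∧
    (∀ c : G, InSimple c → c ≠ 1 → c * c = 1 →
      (v = 0 ↔ ∀ a, nrm act (Subgroup.zpowers c) (act a v) = 0)) ∧
    (∀ (ι : Type) (D : ι → Subgroup G) (K : Subgroup G), Partitions K D →
      (v = 0 ↔ ∀ j, nrm act (D j) v = 0)) ∧
    (v ≠ 0 → (∀ P : Subgroup G, (Nat.card P).Prime → nrm act P v = 0) →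
      (∃ (S : Type) (_ : AddCommGroup S) (_ : Module ℚ S) (ρ : G →* Module.End ℚ S), Irred ρ ∧
        Occurs act (orb act v) ρ ∧ (∃ s : S, s ≠ 0) ∧
        ∀ g : G, g ≠ 1 → ∀ s : S, ρ g s = s → s = 0) ∧ CyclicSubgroups G) := by
  have hr := idv_right act v
  have h1 := one_mem act v
  have hup : ∀ (H : Subgroup G), v = 0 → ∀ a, nrm act H (act a v) = 0 := by
    intro H h a
    rw [h, map_zero, ← theta_nrm, map_zero]
  have hdown : ∀ (ι : Type) (D : ι → Subgroup G), Dominated (⊥ : Subgroup G) D →
      (∀ j a, nrm act (D j) (act a v) = 0) → v = 0 := by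
    intro ι D hD h
    rw [← h1]
    exact one_mem_of_dominated hD _ hr fun j => (nA_mem act v _).2 (h j)
  have hdom : ∀ (H : Subgroup G) (ι : Type) (D : ι → Subgroup G),
      (∀ (S : Type) [AddCommGroup S] [Module ℚ S] (ρ : G →* Module.End ℚ S), Irred ρ →
        Occurs act (orb act v) ρ → (∃ s : S, s ≠ 0 ∧ ∀ h ∈ H, ρ h s = s) →
          ∃ i, ∃ s : S, s ≠ 0 ∧ ∀ d ∈ D i, ρ d s = s) →
      (∀ j a, nrm act (D j) (act a v) = 0) → nA H ∈ idv act v := by
    intro H ι D hD h
    refine mem_of_dominatedOn (H := H) (D := D)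
      (fun V _ _ ρ => Occurs act (orb act v) ρ) ?_ _ hr (fun j => (nA_mem act v _).2 (h j)) ?_
    · intro V _ _ ρ hρ hQ hv
      exact hD V ρ hρ hQ hv
    · intro S hS
      exact occurs_of_ann _ (orb_stable act v) _ hr (fun x hx => hx) S hS
  refine ⟨?_, ?_, ?_, ?_, ?_⟩
  · intro H ι D hD h
    exact (nA_mem act v H).1 (hdom H ι D hD h)
  · intro c hc
    refine ⟨fun h => ⟨hup _ h, hup _ h⟩, fun h => hdown _ _ (dominated_two hc ⊥) ?_⟩
    intro b
    cases b
    · exact h.2
    · exact h.1
  · rintro c ⟨S, hSs, hS, hcS⟩ hc1 hc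
    exact ⟨hup _, fun h => hdown _ _ (dominated_comms hc (comms_of_simple S hS hcS hc1) ⊥)
      fun _ => h⟩
  · rintro ι D K ⟨hf, hι, hle, hpart⟩
    have : Fintype ι := Fintype.ofFinite ι
    refine ⟨fun h j => ?_, fun h => eq_zero_of_partition act D K
      (by rwa [← Nat.card_eq_fintype_card]) hle hpart h⟩
    rw [h, ← theta_nrm, map_zero]
  · intro h0 hP
    have hP' : ∀ P : Subgroup G, (Nat.card P).Prime → ∀ a, nrm act P (act a v) = 0 := by
      intro P hPp a
      have e : act a⁻¹ (nrm act P (act a v)) =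
          nrm act (P.map (MulAut.conj a⁻¹).toMonoidHom) v := by
        classical
        unfold nrm
        rw [map_sum]
        refine Finset.sum_bij' (fun g _ => a⁻¹ * g * a) (fun g _ => a * g * a⁻¹) ?_ ?_ ?_ ?_ ?_
        · intro g hg
          simp only [Finset.mem_filter, Finset.mem_univ, true_and] at hg ⊢
          exact ⟨g, hg, by simp⟩
        · intro g hg
          simp only [Finset.mem_filter, Finset.mem_univ, true_and] at hg ⊢
          obtain ⟨x, hx, rfl⟩ := hg
          have : a * ((MulAut.conj a⁻¹).toMonoidHom x) * a⁻¹ = x := by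
            simp [mul_assoc]
          rw [this]
          exact hx
        · intro g _; group
        · intro g _; group
        · intro g _
          rw [map_mul, map_mul, Module.End.mul_apply, Module.End.mul_apply]
      have h2 : nrm act (P.map (MulAut.conj a⁻¹).toMonoidHom) v = 0 := by
        apply hP
        rw [Nat.card_congr (P.equivMapOfInjective _ (MulAut.conj a⁻¹).injective).toEquiv.symm]
        exact hPp
      rw [h2] at e
      have e2 := congrArg (act a) e
      rw [map_zero, ← Module.End.mul_apply, ← map_mul, mul_inv_cancel, map_one,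
        Module.End.one_apply] at e2
      exact e2
    obtain ⟨-, -, k3⟩ := structure_of_ideal (idv act v) hr
      (fun h => h0 (h1.1 h)) fun P hPp => (nA_mem act v P).2 (hP' P hPp)
    refine ⟨?_, k3⟩
    by_contra hcon
    apply h0
    have h2 := hdom ⊥ {P : Subgroup G // (Nat.card P).Prime} (fun P => P.1) ?_
      fun P => hP' P.1 P.2
    · rwa [nA_bot, h1] at h2
    · intro V _ _ ρ hρ ho hv
      obtain ⟨v, hv0, -⟩ := hv
      by_contra hno
      push Not at hno
      apply hcon
      refine ⟨V, _, _, ρ, hρ, ho, ⟨v, hv0⟩, fun g hg w hw => ?_⟩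
      obtain ⟨P, hPp, hPg⟩ := Pool.Agent.X328.PB.card_zpowers_prime hg
      by_contra hw0
      obtain ⟨d, hd, hd'⟩ := hno ⟨P, hPp⟩ w hw0
      exact hd' (fixed_zpow ρ hw d (hPg hd))

/-- A vector vanishes if its norms and those of its translates vanish for a dominating family. -/
lemma zero_of_dominated {ι : Type} {D : ι → Subgroup G} (hD : Dominated (⊥ : Subgroup G) D)
    (h : ∀ j a, nrm act (D j) (act a v) = 0) : v = 0 := by
  rw [← one_mem act v]
  exact one_mem_of_dominated hD _ (idv_right act v) fun j => (nA_mem act v _).2 (h j)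

/-- Two actions. -/
lemma zero_of_two (L R : G →* Module.End ℚ V) {ι : Type} {D : ι → Subgroup G}
    (hD : Dominated (⊥ : Subgroup G) D)
    (h : ∀ i j a b, nrm L (D j) (L b (nrm R (D i) (R a v))) = 0) : v = 0 :=
  zero_of_dominated R v hD fun i a => zero_of_dominated L _ hD fun j b => h i j a b

/-- The structure of the group for two actions. -/
lemma structure_of_two (L R : G →* Module.End ℚ V) {v : V} (hv : v ≠ 0)
    (h : ∀ P P' : Subgroup G, (Nat.card P).Prime → (Nat.card P').Prime → ∀ a b,
      nrm L P' (L b (nrm R P (R a v))) = 0) : FixedPointFree G ∧ CyclicSubgroups G := by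
  by_cases hw : ∃ P : Subgroup G, (Nat.card P).Prime ∧ ∃ a, nrm R P (R a v) ≠ 0
  · obtain ⟨P, hP, a, hPa⟩ := hw
    obtain ⟨k1, -, k3⟩ := structure_of_ideal (idv L (nrm R P (R a v))) (idv_right L _)
      (fun h0 => hPa ((one_mem L _).1 h0)) fun P' hP' => (nA_mem L _ P').2 fun b => h P P' hP hP' a b
    exact ⟨k1, k3⟩
  · push Not at hw
    obtain ⟨k1, -, k3⟩ := structure_of_ideal (idv R v) (idv_right R _)
      (fun h0 => hv ((one_mem R _).1 h0)) fun P hP => (nA_mem R _ P).2 fun a => hw P hP a
    exact ⟨k1, k3⟩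

end

end Pool.Agent.X252.GV
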