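import Pool.Agent.X328.PB.Main
import Pool.Agent.X252.GV

/-!
# Correspondences on a surface and a finite group of automorphisms
-/

set_option autoImplicit false

open CategoryTheory AlgebraicGeometry

universe u v w

namespace Pool.Agent.X252.FG

open Pool.Agent.H914 Pool.Agent.H914.VarClass Pool.Agent.H914.VarClass.Obj Pool.Agent.W492.BB
  Pool.Agent.W550.Corr Pool.Agent.TH133 Pool.Agent.Y152.AS Pool.Agent.X307.BV
  Pool.Agent.X307.PG Pool.Agent.X328.PB Pool.Agent.X252.GA Pool.Agent.X252.GC Pool.Agent.X252.GV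
  Pool.Agent.X310.Mu

variable {k : Type u} [Field k] {𝒱 : VarClass k} {C : TheoryData.{u, v, 0} 𝒱 ℚ}

open Classical in
/-- The sum of the `h ∘ Γ ∘ g`, `g ∈ D`, `h ∈ D'`. -/
noncomputable def between {X : 𝒱.Obj} {G : Type} [Group G] [Fintype G] (ρ : G →* Aut X)
    (Γ : C.A (X.prod X)) (D D' : Subgroup G) : C.A (X.prod X) :=
  ∑ g : G with g ∈ D, ∑ h : G with h ∈ D',
    C.comp (C.comp (C.graph (ρ g).hom) Γ) (C.graph (ρ h).hom)

variable [hC : IsChowProj C]

/-- Composition with the graph of the inverse of an automorphism on the other side. -/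
noncomputable def coRep (X : 𝒱.Obj) (hX : X.dim = 2) {G : Type} [Group G] (ρ : G →* Aut X) :
    G →* Module.End ℚ (C.A (X.prod X) ⧸ degenerate C X X) where
  toFun g := (degenerate C X X).mapQ (degenerate C X X)
    (compL C (X := X) (Y := X) (Z := X) (C.graph (ρ g⁻¹).hom))
    (fun _ hW => degenerate_comp_left hX hX hW (graph_mem2 hX hX _))
  map_one' := by
    ext Z
    change (Submodule.Quotient.mk (C.comp (C.graph (ρ 1⁻¹).hom) Z) :
      C.A (X.prod X) ⧸ degenerate C X X) = Submodule.Quotient.mk Z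
    rw [inv_one, map_one]
    have h1 : C.graph (1 : Aut X).hom = dg C X := rfl
    rw [h1, dg_comp]
  map_mul' g h := by
    ext Z
    change (Submodule.Quotient.mk (C.comp (C.graph (ρ (g * h)⁻¹).hom) Z) :
      C.A (X.prod X) ⧸ degenerate C X X) =
      Submodule.Quotient.mk (C.comp (C.graph (ρ g⁻¹).hom) (C.comp (C.graph (ρ h⁻¹).hom) Z))
    rw [← comp_assoc, graph_comp, mul_inv_rev, map_mul]
    rfl

lemma coRep_mk {X : 𝒱.Obj} (hX : X.dim = 2) {G : Type} [Group G] (ρ : G →* Aut X) (g : G)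
    (Z : C.A (X.prod X)) : coRep X hX ρ g (Submodule.Quotient.mk Z) =
      Submodule.Quotient.mk (C.comp (C.graph (ρ g⁻¹).hom) Z) := rfl

lemma rep_mk {X : 𝒱.Obj} (hX : X.dim = 2) {G : Type} [Group G] (ρ : G →* Aut X) (g : G)
    (Z : C.A (X.prod X)) : rep X hX ρ g (Submodule.Quotient.mk Z) =
      Submodule.Quotient.mk (C.comp Z (C.graph (ρ g).hom)) := rfl

lemma mk_between {X : 𝒱.Obj} (hX : X.dim = 2) {G : Type} [Group G] [Fintype G]
    (ρ : G →* Aut X) (Γ : C.A (X.prod X)) (D D' : Subgroup G) (a b : G) :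
    (Submodule.Quotient.mk (between ρ
      (C.comp (C.comp (C.graph (ρ a⁻¹).hom) Γ) (C.graph (ρ b).hom)) D D') :
        C.A (X.prod X) ⧸ degenerate C X X) =
    nrm (rep X hX ρ) D' (rep X hX ρ b (nrm (coRep X hX ρ) D (coRep X hX ρ a
      (Submodule.Quotient.mk Γ)))) := by
  classical
  unfold between nrm
  have e1 : ∀ s : Finset G, ∀ f : G → C.A (X.prod X),
      (Submodule.Quotient.mk (∑ g ∈ s, f g) : C.A (X.prod X) ⧸ degenerate C X X) =
        ∑ g ∈ s, Submodule.Quotient.mk (f g) := fun s f =>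
    map_sum (degenerate C X X).mkQ _ _
  rw [e1, Finset.sum_congr rfl fun g _ => e1 _ _, Finset.sum_comm]
  refine Finset.sum_congr rfl fun h _ => ?_
  rw [map_sum, map_sum]
  refine Finset.sum_bij' (fun g _ => g⁻¹) (fun g _ => g⁻¹) ?_ ?_ ?_ ?_ ?_
  · intro g hg
    simp only [Finset.mem_filter, Finset.mem_univ, true_and] at hg ⊢
    exact inv_mem hg
  · intro g hg
    simp only [Finset.mem_filter, Finset.mem_univ, true_and] at hg ⊢
    exact inv_mem hg
  · intro g _; exact inv_inv g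
  · intro g _; exact inv_inv g
  · intro g _
    rw [coRep_mk, coRep_mk, rep_mk, rep_mk, inv_inv]
    congr 1
    rw [← comp_assoc, ← comp_assoc]

/-- The compositions with the graphs on both sides have degree two. -/
lemma translate_mem {X : 𝒱.Obj} (hX : X.dim = 2) {Γ : C.A (X.prod X)} (hΓ : C.Deg 2 Γ)
    (f g : X ⟶ X) : C.Deg 2 (C.comp (C.comp (C.graph f) Γ) (C.graph g)) :=
  comp_mem2 hX hX (comp_mem2 hX hX (graph_mem2 hX hX f) hΓ) (graph_mem2 hX hX g)

lemma between_mem {X : 𝒱.Obj} (hX : X.dim = 2) {G : Type} [Group G] [Fintype G]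
    (ρ : G →* Aut X) {Γ : C.A (X.prod X)} (hΓ : C.Deg 2 Γ) (D D' : Subgroup G) :
    C.Deg 2 (between ρ Γ D D') := by
  classical
  unfold between
  exact Submodule.sum_mem _ fun g _ => Submodule.sum_mem _ fun h _ =>
    translate_mem hX hΓ _ _

variable {K : Type w} [Field K] {W : WeilTheoryData.{u, v, w} C K} [IsWeilProj W]

lemma homDeg_sum {X : 𝒱.Obj} {ι : Type} (s : Finset ι) (f : ι → C.A (X.prod X))
    (h : ∀ i ∈ s, HomDeg W (f i)) : HomDeg W (∑ i ∈ s, f i) := by
  classical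
  induction s using Finset.induction_on with
  | empty => rw [Finset.sum_empty]; exact HomDeg.zero
  | insert a s ha ih =>
    rw [Finset.sum_insert ha]
    exact (h a (Finset.mem_insert_self a s)).add
      (ih fun i hi => h i (Finset.mem_insert_of_mem hi))

lemma homDeg_between {X : 𝒱.Obj} (hX : X.dim = 2) {G : Type} [Group G] [Fintype G]
    (ρ : G →* Aut X) {Γ : C.A (X.prod X)} (hΓ : HomDeg W Γ) (D D' : Subgroup G) (f g : X ⟶ X) :
    HomDeg W (between ρ (C.comp (C.comp (C.graph f) Γ) (C.graph g)) D D') := by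
  classical
  unfold between
  refine homDeg_sum _ _ fun a _ => homDeg_sum _ _ fun b _ => ?_
  exact HomDeg.comp_right hX (HomDeg.comp_left hX hX (HomDeg.comp_right hX
    (HomDeg.comp_left hX hX hΓ (graph_mem2 hX hX f)) (graph_mem2 hX hX g))
      (graph_mem2 hX hX _)) (graph_mem2 hX hX _)

/-- Bloch's conjecture for all correspondences on the surface `X` (with rational coefficients): the
correspondences of degree two which are homologically equivalent to degenerate ones are
degenerate. -/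
def BlochFor (W : WeilTheoryData.{u, v, w} C K) (X : 𝒱.Obj) : Prop :=
  ∀ Γ : C.A (X.prod X), C.Deg 2 Γ → IsHomDegenerate W Γ → IsDegenerate C Γ

/-- Bloch's conjecture for all correspondences from the quotient `X / D` to the quotient `X / D'`.
These correspondences are, by pull-back to `X × X`, the sums of the `h ∘ Γ ∘ g`, `g ∈ D`,
`h ∈ D'`. -/
def BlochBetween (W : WeilTheoryData.{u, v, w} C K) {X : 𝒱.Obj} {G : Type} [Group G] [Fintype G]
    (ρ : G →* Aut X) (D D' : Subgroup G) : Prop :=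
  ∀ Γ : C.A (X.prod X), C.Deg 2 Γ → IsHomDegenerate W (between ρ Γ D D') →
    IsDegenerate C (between ρ Γ D D')

omit hC [IsWeilProj W] in
lemma isHom_of [IsChowProj C] {X : 𝒱.Obj} {Γ : C.A (X.prod X)} (h : HomDeg W Γ) :
    IsHomDegenerate W Γ := by
  obtain ⟨Z, hZ, h1⟩ := h
  exact ⟨Z, isDegenerate_iff.2 hZ, h1⟩

lemma between_of_for {X : 𝒱.Obj} (hX : X.dim = 2) {G : Type} [Group G] [Fintype G]
    (ρ : G →* Aut X) (h : BlochFor W X) (D D' : Subgroup G) : BlochBetween W ρ D D' :=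
  fun _ hΓ => h _ (between_mem hX ρ hΓ D D')

lemma nrm_zero {X : 𝒱.Obj} (hX : X.dim = 2) {G : Type} [Group G] [Fintype G]
    (ρ : G →* Aut X) {D D' : Subgroup G} (h : BlochBetween W ρ D D') {Γ : C.A (X.prod X)}
    (hΓ : C.Deg 2 Γ) (hh : IsHomDegenerate W Γ) (a b : G) :
    nrm (rep X hX ρ) D' (rep X hX ρ b (nrm (coRep X hX ρ) D (coRep X hX ρ a
      (Submodule.Quotient.mk Γ)))) = 0 := by
  rw [← mk_between, mk_eq_zero]
  exact h _ (translate_mem hX hΓ _ _) (isHom_of (homDeg_between hX ρ hh.homDeg D D' _ _))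

theorem for_iff {X : 𝒱.Obj} (hX : X.dim = 2) {G : Type} [Group G] [Fintype G]
    (ρ : G →* Aut X) {ι : Type} {D : ι → Subgroup G} (hD : Dominated (⊥ : Subgroup G) D) :
    BlochFor W X ↔ ∀ i j, BlochBetween W ρ (D i) (D j) := by
  refine ⟨fun h i j => between_of_for hX ρ h _ _, fun h Γ hΓ hh => ?_⟩
  rw [← mk_eq_zero]
  exact zero_of_two _ (rep X hX ρ) (coRep X hX ρ) hD fun i j a b =>
    nrm_zero hX ρ (h i j) hΓ hh a b

theorem structure_for {X : 𝒱.Obj} (hX : X.dim = 2) {G : Type} [Group G] [Fintype G]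
    (ρ : G →* Aut X) (h0 : ¬ BlochFor W X)
    (h : ∀ P P' : Subgroup G, (Nat.card P).Prime → (Nat.card P').Prime →
      BlochBetween W ρ P P') : FixedPointFree G ∧ CyclicSubgroups G := by
  unfold BlochFor at h0
  push Not at h0
  obtain ⟨Γ, hΓ, hh, hd⟩ := h0
  rw [← mk_eq_zero] at hd
  exact structure_of_two (rep X hX ρ) (coRep X hX ρ) hd fun P P' hP hP' a b =>
    nrm_zero hX ρ (h P P' hP hP') hΓ hh a b

end Pool.Agent.X252.FG
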