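import Pool.Agent.X328.PB.Alg
import Pool.Agent.X310.MuGrp

/-!
# Two-sided ideals of rational group rings and fixed vectors
-/

set_option autoImplicit false

open Finset Pool.Agent.X328.PB Pool.Agent.X310.Mu

namespace Pool.Agent.X252.GA

/-- The subspaces of the rational representation `ρ` which are stable under the group are `0` and
the whole space. -/
def Irred {G V : Type} [Group G] [AddCommGroup V] [Module ℚ V] (ρ : G →* Module.End ℚ V) : Prop :=
  ∀ U : Submodule ℚ V, (∀ g, ∀ u ∈ U, ρ g u ∈ U) → U = ⊥ ∨ U = ⊤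

/-- Every irreducible rational representation of `G` with a nonzero vector fixed by `H` has, for
some `i`, a nonzero vector fixed by `D i`. -/
def Dominated {G ι : Type} [Group G] (H : Subgroup G) (D : ι → Subgroup G) : Prop :=
  ∀ (V : Type) [AddCommGroup V] [Module ℚ V] (ρ : G →* Module.End ℚ V), Irred ρ →
    (∃ v : V, v ≠ 0 ∧ ∀ h ∈ H, ρ h v = v) → ∃ i, ∃ v : V, v ≠ 0 ∧ ∀ d ∈ D i, ρ d v = v

/-- `G` has an irreducible rational representation, different from zero, in which no element
different from one has a nonzero fixed vector. -/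
def FixedPointFree (G : Type) [Group G] : Prop :=
  ∃ (V : Type) (_ : AddCommGroup V) (_ : Module ℚ V) (ρ : G →* Module.End ℚ V), Irred ρ ∧
    (∃ v : V, v ≠ 0) ∧ ∀ g : G, g ≠ 1 → ∀ v : V, ρ g v = v → v = 0

variable {G : Type} [Group G] [Fintype G]

open Classical in
/-- The sum of the elements of a subgroup. -/
noncomputable def nA (H : Subgroup G) : MonoidAlgebra ℚ G :=
  ∑ g : G with g ∈ H, MonoidAlgebra.single g (1 : ℚ)

/-- The representation on a module over the group ring. -/
noncomputable def repOf (M : Type) [AddCommGroup M] [Module (MonoidAlgebra ℚ G) M] [Module ℚ M]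
    [IsScalarTower ℚ (MonoidAlgebra ℚ G) M] : G →* Module.End ℚ M where
  toFun g := Algebra.lsmul ℚ ℚ M (MonoidAlgebra.single g (1 : ℚ) : MonoidAlgebra ℚ G)
  map_one' := by
    ext m
    change (MonoidAlgebra.single (1 : G) (1 : ℚ) : MonoidAlgebra ℚ G) • m = m
    rw [← MonoidAlgebra.one_def, one_smul]
  map_mul' g h := by
    ext m
    change (MonoidAlgebra.single (g * h) (1 : ℚ) : MonoidAlgebra ℚ G) • m =
      (MonoidAlgebra.single g (1 : ℚ) : MonoidAlgebra ℚ G) •
        ((MonoidAlgebra.single h (1 : ℚ) : MonoidAlgebra ℚ G) • m)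
    rw [smul_smul, MonoidAlgebra.single_mul_single, one_mul]

section
variable {M : Type} [AddCommGroup M] [Module (MonoidAlgebra ℚ G) M] [Module ℚ M]
    [IsScalarTower ℚ (MonoidAlgebra ℚ G) M]

omit [Fintype G] in
lemma repOf_apply (g : G) (m : M) :
    repOf M g m = (MonoidAlgebra.single g (1 : ℚ) : MonoidAlgebra ℚ G) • m := rfl

lemma nrm_repOf (H : Subgroup G) (m : M) : nrm (repOf M) H m = nA H • m := by
  classical
  unfold nrm nA
  rw [Finset.sum_smul]
  rfl

omit [Fintype G] in
/-- Subspaces stable under the group are submodules. -/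
lemma stable_smul {U : Submodule ℚ M} (hU : ∀ g : G, ∀ u ∈ U, repOf (G := G) M g u ∈ U)
    (x : MonoidAlgebra ℚ G) {u : M} (hu : u ∈ U) : x • u ∈ U := by
  induction x using MonoidAlgebra.induction_linear with
  | zero => rw [zero_smul]; exact U.zero_mem
  | add f g hf hg => rw [add_smul]; exact U.add_mem hf hg
  | single g r =>
    have h1 : (MonoidAlgebra.single g r : MonoidAlgebra ℚ G) =
        r • MonoidAlgebra.single g (1 : ℚ) := by
      rw [MonoidAlgebra.smul_single, smul_eq_mul, mul_one]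
    rw [h1, smul_assoc]
    exact U.smul_mem r (hU g u hu)

lemma irred_of_simple [IsSimpleModule (MonoidAlgebra ℚ G) M] : Irred (repOf (G := G) M) := by
  intro U hU
  let U' : Submodule (MonoidAlgebra ℚ G) M :=
    { carrier := U
      add_mem' := fun ha hb => U.add_mem ha hb
      zero_mem' := U.zero_mem
      smul_mem' := fun x _ hu => stable_smul hU x hu }
  rcases eq_bot_or_eq_top U' with h | h
  · left
    rw [Submodule.eq_bot_iff]
    intro x hx
    exact (Submodule.eq_bot_iff U').1 h x hx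
  · right
    rw [Submodule.eq_top_iff']
    intro x
    exact (Submodule.eq_top_iff'.1 h x : x ∈ U')

end

lemma single_mul_nA {H : Subgroup G} {g : G} (hg : g ∈ H) :
    (MonoidAlgebra.single g (1 : ℚ) : MonoidAlgebra ℚ G) * nA H = nA H := by
  classical
  unfold nA
  rw [Finset.mul_sum]
  refine Finset.sum_bij' (fun h _ => g * h) (fun h _ => g⁻¹ * h) ?_ ?_ ?_ ?_ ?_
  · intro h hh
    simp only [Finset.mem_filter, Finset.mem_univ, true_and] at hh ⊢
    exact H.mul_mem hg hh
  · intro h hh
    simp only [Finset.mem_filter, Finset.mem_univ, true_and] at hh ⊢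
    exact H.mul_mem (H.inv_mem hg) hh
  · intro h _; simp
  · intro h _; simp
  · intro h _
    rw [MonoidAlgebra.single_mul_single, one_mul]

/-- Norms of fixed vectors. -/
lemma nrm_of_fixed {V : Type} [AddCommGroup V] [Module ℚ V] (ρ : G →* Module.End ℚ V)
    (D : Subgroup G) {v : V} (hv : ∀ d ∈ D, ρ d v = v) (h0 : nrm ρ D v = 0) : v = 0 := by
  classical
  unfold nrm at h0
  rw [Finset.sum_congr rfl (g := fun _ => v) (fun d hd => hv d (by simpa using hd)),
    Finset.sum_const, ← Nat.cast_smul_eq_nsmul ℚ] at h0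
  rcases smul_eq_zero.1 h0 with h | h
  · exfalso
    have h1 : (Finset.univ.filter fun g : G => g ∈ D).card = 0 := by exact_mod_cast h
    rw [Finset.card_eq_zero] at h1
    have h2 : (1 : G) ∈ Finset.univ.filter (fun g : G => g ∈ D) := by simp [D.one_mem]
    rw [h1] at h2
    simp at h2
  · exact h

/-- Norms are fixed vectors. -/
lemma fixed_nrm {V : Type} [AddCommGroup V] [Module ℚ V] (ρ : G →* Module.End ℚ V)
    (D : Subgroup G) (v : V) {d : G} (hd : d ∈ D) : ρ d (nrm ρ D v) = nrm ρ D v := by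
  classical
  unfold nrm
  rw [map_sum]
  refine Finset.sum_bij' (fun h _ => d * h) (fun h _ => d⁻¹ * h) ?_ ?_ ?_ ?_ ?_
  · intro h hh
    simp only [Finset.mem_filter, Finset.mem_univ, true_and] at hh ⊢
    exact D.mul_mem hd hh
  · intro h hh
    simp only [Finset.mem_filter, Finset.mem_univ, true_and] at hh ⊢
    exact D.mul_mem (D.inv_mem hd) hh
  · intro h _; simp
  · intro h _; simp
  · intro h _
    rw [rep_mul]

/-- **Fixed vectors and two-sided ideals.** -/
theorem mem_of_dominated {ι : Type} {H : Subgroup G} {D : ι → Subgroup G} (h : Dominated H D)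
    (I : Ideal (MonoidAlgebra ℚ G)) (hI : ∀ x ∈ I, ∀ y, x * y ∈ I) (hD : ∀ i, nA (D i) ∈ I) :
    nA H ∈ I := by
  classical
  by_contra hH
  have : NeZero (Nat.card G : ℚ) := ⟨by exact_mod_cast Nat.card_pos.ne'⟩
  have hss : IsSemisimpleRing (MonoidAlgebra ℚ G) := inferInstance
  have hs : ∃ S : Submodule (MonoidAlgebra ℚ G) (MonoidAlgebra ℚ G ⧸ I),
      IsSimpleModule (MonoidAlgebra ℚ G) S ∧ ∃ s ∈ S, nA H • s ≠ 0 := by
    by_contra hcon
    push Not at hcon
    apply hH
    have htop : (Submodule.Quotient.mk 1 : MonoidAlgebra ℚ G ⧸ I) ∈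
        sSup {S : Submodule (MonoidAlgebra ℚ G) (MonoidAlgebra ℚ G ⧸ I) |
          IsSimpleModule (MonoidAlgebra ℚ G) S} := by
      rw [IsSemisimpleModule.sSup_simples_eq_top]
      trivial
    have hz : ∀ m ∈ sSup {S : Submodule (MonoidAlgebra ℚ G) (MonoidAlgebra ℚ G ⧸ I) |
          IsSimpleModule (MonoidAlgebra ℚ G) S}, nA H • m = 0 := by
      intro m hm
      rw [sSup_eq_iSup'] at hm
      refine Submodule.iSup_induction _ (motive := fun m => nA H • m = 0) hm ?_ ?_ ?_
      · rintro ⟨S, hS⟩ x hx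
        exact hcon S hS x hx
      · exact smul_zero _
      · intro x y hx hy
        rw [smul_add, hx, hy, add_zero]
    have h1 := hz _ htop
    rw [← Submodule.Quotient.mk_smul, smul_eq_mul, mul_one, Submodule.Quotient.mk_eq_zero] at h1
    exact h1
  obtain ⟨S, hS, s, hsS, hs0⟩ := hs
  obtain ⟨i, v, hv0, hv⟩ := h S (repOf S) irred_of_simple
    ⟨nA H • ⟨s, hsS⟩, fun h0 => hs0 (congrArg Subtype.val h0), fun g hg => by
      rw [repOf_apply, smul_smul, single_mul_nA hg]⟩
  apply hv0
  apply nrm_of_fixed (repOf (G := G) S) (D i) hv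
  rw [nrm_repOf]
  apply Subtype.ext
  obtain ⟨b, hb⟩ := Submodule.Quotient.mk_surjective I v.1
  change nA (D i) • v.1 = 0
  rw [← hb, ← Submodule.Quotient.mk_smul, smul_eq_mul, Submodule.Quotient.mk_eq_zero]
  exact hI _ (hD i) b

/-- A family of norms whose two-sided ideal is everything. -/
lemma one_mem_of_dominated {ι : Type} {D : ι → Subgroup G} (h : Dominated (⊥ : Subgroup G) D)
    (I : Ideal (MonoidAlgebra ℚ G)) (hI : ∀ x ∈ I, ∀ y, x * y ∈ I) (hD : ∀ i, nA (D i) ∈ I) :
    (1 : MonoidAlgebra ℚ G) ∈ I := by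
  classical
  have h1 := mem_of_dominated h I hI hD
  have h2 : nA (⊥ : Subgroup G) = 1 := by
    unfold nA
    have : (Finset.univ.filter fun g : G => g ∈ (⊥ : Subgroup G)) = {1} := by
      ext g
      simp [Subgroup.mem_bot]
    rw [this, Finset.sum_singleton, MonoidAlgebra.one_def]
  rwa [h2] at h1

/-! ### Criteria for domination -/

omit [Fintype G] in
lemma neg_of_no_fixed {V : Type} [AddCommGroup V] [Module ℚ V] (ρ : G →* Module.End ℚ V) {c : G}
    (hc : c * c = 1) (h : ∀ v : V, ρ c v = v → v = 0) (v : V) : ρ c v = -v := by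
  have h1 : ρ c (v + ρ c v) = v + ρ c v := by
    rw [map_add]
    have : ρ c (ρ c v) = v := by
      have h2 : ρ (c * c) v = ρ c (ρ c v) := by rw [map_mul]; rfl
      rw [← h2, hc, map_one, Module.End.one_apply]
    rw [this, add_comm]
  exact (neg_eq_of_add_eq_zero_right (h _ h1)).symm

omit [Fintype G] in
lemma comms_fix {V : Type} [AddCommGroup V] [Module ℚ V] (ρ : G →* Module.End ℚ V) {c : G}
    (hc : c * c = 1) (h : ∀ v : V, ρ c v = -v) {g : G} (hg : g ∈ comms c) (v : V) : ρ g v = v := by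
  have hci : c⁻¹ = c := inv_eq_of_mul_eq_one_right hc
  unfold comms at hg
  induction hg using Subgroup.closure_induction generalizing v with
  | mem x hx =>
    obtain ⟨y, rfl⟩ := hx
    rw [hci, map_mul, map_mul, map_mul]
    simp only [Module.End.mul_apply]
    rw [h v, map_neg, h, neg_neg]
    have h2 : ρ (y * y⁻¹) v = ρ y (ρ y⁻¹ v) := by rw [map_mul]; rfl
    rw [← h2, mul_inv_cancel, map_one, Module.End.one_apply]
  | one => rw [map_one, Module.End.one_apply]
  | mul x y _ _ hx hy => rw [map_mul, Module.End.mul_apply, hy, hx]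
  | inv x _ hx =>
    have h2 : ρ (x * x⁻¹) v = ρ x (ρ x⁻¹ v) := by rw [map_mul]; rfl
    rw [mul_inv_cancel, map_one, Module.End.one_apply] at h2
    rw [hx] at h2
    exact h2.symm

omit [Fintype G] in
lemma fixed_zpow {V : Type} [AddCommGroup V] [Module ℚ V] (ρ : G →* Module.End ℚ V) {c : G} {v : V}
    (h : ρ c v = v) (d : G) (hd : d ∈ Subgroup.zpowers c) : ρ d v = v := by
  obtain ⟨n, rfl⟩ := hd
  have hn : ∀ n : ℕ, ρ (c ^ n) v = v := by
    intro n
    induction n with
    | zero => rw [pow_zero, map_one, Module.End.one_apply]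
    | succ n ih => rw [pow_succ, map_mul, Module.End.mul_apply, h, ih]
  change ρ (c ^ n) v = v
  cases n with
  | ofNat n => rw [Int.ofNat_eq_natCast, zpow_natCast]; exact hn n
  | negSucc n =>
    rw [zpow_negSucc]
    have h2 : ρ ((c ^ (n + 1))⁻¹ * c ^ (n + 1)) v = ρ (c ^ (n + 1))⁻¹ (ρ (c ^ (n + 1)) v) := by
      rw [map_mul]; rfl
    rw [inv_mul_cancel, map_one, Module.End.one_apply, hn] at h2
    exact h2.symm

omit [Fintype G] in
/-- An involution which is a product of the commutators with it. -/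
lemma dominated_comms {c : G} (hc : c * c = 1) (hcc : c ∈ comms c) (H : Subgroup G) :
    Dominated H (fun _ : Unit => Subgroup.zpowers c) := by
  intro V _ _ ρ _ hv
  obtain ⟨v, hv0, -⟩ := hv
  refine ⟨(), ?_⟩
  by_contra hcon
  push Not at hcon
  have h1 : ∀ v : V, ρ c v = v → v = 0 := by
    intro w hw
    by_contra hw0
    obtain ⟨d, hd, hd'⟩ := hcon w hw0
    exact hd' (fixed_zpow ρ hw d hd)
  have h2 := neg_of_no_fixed ρ hc h1
  have h3 := comms_fix ρ hc h2 hcc v
  exact hv0 (h1 v h3)

/-- The subgroups `⟨c⟩` and `comms c`. -/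
def two (c : G) : Bool → Subgroup G
  | true => Subgroup.zpowers c
  | false => comms c

omit [Fintype G] in
/-- An involution, and the group generated by the commutators with it. -/
lemma dominated_two {c : G} (hc : c * c = 1) (H : Subgroup G) : Dominated H (two c) := by
  intro V _ _ ρ _ hv
  obtain ⟨v, hv0, -⟩ := hv
  by_cases h : ∀ v : V, ρ c v = v → v = 0
  · exact ⟨false, v, hv0, fun d hd => comms_fix ρ hc (neg_of_no_fixed ρ hc h) hd v⟩
  · push Not at h
    obtain ⟨w, hw, hw0⟩ := h
    exact ⟨true, w, hw0, fun d hd => fixed_zpow ρ hw d hd⟩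

/-- A partition dominates. -/
lemma dominated_partition {ι : Type} [Finite ι] (D : ι → Subgroup G) (K : Subgroup G)
    (hι : 2 ≤ Nat.card ι) (hle : ∀ i, D i ≤ K) (hpart : ∀ k ∈ K, k ≠ 1 → ∃! i, k ∈ D i)
    (H : Subgroup G) : Dominated H D := by
  intro V _ _ ρ _ hv
  obtain ⟨v, hv0, -⟩ := hv
  have : Fintype ι := Fintype.ofFinite ι
  by_contra hcon
  push Not at hcon
  apply hv0
  refine eq_zero_of_partition ρ D K (by rwa [← Nat.card_eq_fintype_card]) hle hpart fun i => ?_
  by_contra h0
  obtain ⟨d, hd, hd'⟩ := hcon i _ h0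
  exact hd' (fixed_nrm ρ (D i) v hd)

/-- Either the subgroups of prime order dominate, or there is a fixed point free
representation. -/
lemma dominated_or_fpf (h : ¬ FixedPointFree G) (H : Subgroup G) :
    Dominated H (fun P : {P : Subgroup G // (Nat.card P).Prime} => P.1) := by
  intro V _ _ ρ hρ hv
  obtain ⟨v, hv0, -⟩ := hv
  by_contra hcon
  push Not at hcon
  apply h
  refine ⟨V, _, _, ρ, hρ, ⟨v, hv0⟩, fun g hg w hw => ?_⟩
  obtain ⟨P, hP, hPg⟩ := card_zpowers_prime hg
  by_contra hw0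
  obtain ⟨d, hd, hd'⟩ := hcon ⟨P, hP⟩ w hw0
  exact hd' (fixed_zpow ρ hw d (hPg hd))

/-- **The groups for which the norms of the subgroups of prime order do not generate the group
ring as a two-sided ideal.** -/
theorem structure_of_ideal (I : Ideal (MonoidAlgebra ℚ G)) (hI : ∀ x ∈ I, ∀ y, x * y ∈ I)
    (h1 : (1 : MonoidAlgebra ℚ G) ∉ I)
    (hP : ∀ P : Subgroup G, (Nat.card P).Prime → nA P ∈ I) :
    FixedPointFree G ∧
    (∀ g h : G, MonoidAlgebra.single g (1 : ℚ) - MonoidAlgebra.single h 1 ∈ I → g = h) ∧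
    (∀ (K : Subgroup G) (p q : ℕ), p.Prime → q.Prime → Nat.card K = p * q → IsCyclic K) ∧
    (∀ K : Subgroup G, (∀ a ∈ K, ∀ b ∈ K, a * b = b * a) → IsCyclic K) ∧
    ∀ σ τ : G, orderOf σ = 2 → orderOf τ = 2 → σ = τ := by
  have hv : (Submodule.Quotient.mk 1 : MonoidAlgebra ℚ G ⧸ I) ≠ 0 := by
    rw [Ne, Submodule.Quotient.mk_eq_zero]
    exact h1
  have h0 : ∀ P : Subgroup G, (Nat.card P).Prime →
      nrm (repOf (G := G) (MonoidAlgebra ℚ G ⧸ I)) P (Submodule.Quotient.mk 1) = 0 := by
    intro P hPp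
    rw [nrm_repOf, ← Submodule.Quotient.mk_smul, smul_eq_mul, mul_one,
      Submodule.Quotient.mk_eq_zero]
    exact hP P hPp
  obtain ⟨k1, k2, k3, k4⟩ := structure_of_group (repOf (G := G) (MonoidAlgebra ℚ G ⧸ I)) hv h0
  refine ⟨?_, ?_, k2, k3, k4⟩
  · by_contra hf
    exact h1 (one_mem_of_dominated (dominated_or_fpf hf ⊥) I hI fun P => hP P.1 P.2)
  · intro g h hgh
    apply k1 g h
    rw [repOf_apply, repOf_apply, ← Submodule.Quotient.mk_smul, ← Submodule.Quotient.mk_smul,
      smul_eq_mul, smul_eq_mul, mul_one, mul_one, Submodule.Quotient.eq]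
    exact hgh

end Pool.Agent.X252.GA
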