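import Pool.Agent.X252.GA

/-!
# Two-sided ideals of rational group rings which contain annihilators
-/

set_option autoImplicit false

open Finset Pool.Agent.X328.PB Pool.Agent.X310.Mu

namespace Pool.Agent.X252.GA

variable {G : Type} [Group G] [Fintype G]

/-- A simple submodule on which a norm does not vanish. -/
theorem exists_simple {H : Subgroup G} (I : Ideal (MonoidAlgebra ℚ G)) (hH : nA H ∉ I) :
    ∃ S : Submodule (MonoidAlgebra ℚ G) (MonoidAlgebra ℚ G ⧸ I),
      IsSimpleModule (MonoidAlgebra ℚ G) S ∧ ∃ s ∈ S, nA H • s ≠ 0 := by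
  classical
  have : NeZero (Nat.card G : ℚ) := ⟨by exact_mod_cast Nat.card_pos.ne'⟩
  have hss : IsSemisimpleRing (MonoidAlgebra ℚ G) := inferInstance
  by_contra hcon
  push Not at hcon
  apply hH
  have htop : (Submodule.Quotient.mk 1 : MonoidAlgebra ℚ G ⧸ I) ∈
      sSup {S : Submodule (MonoidAlgebra ℚ G) (MonoidAlgebra ℚ G ⧸ I) |
        IsSimpleModule (MonoidAlgebra ℚ G) S} := by
    rw [IsSemisimpleModule.sSup_simples_eq_top]
    trivial
  have hz : ∀ m ∈ sSup {S : Submodule (MonoidAlgebra ℚ G) (MonoidAlgebra ℚ G ⧸ I) |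
        IsSimpleModule (MonoidAlgebra ℚ G) S}, nA H • m = 0 := by
    intro m hm
    rw [sSup_eq_iSup'] at hm
    refine Submodule.iSup_induction _ (motive := fun m => nA H • m = 0) hm ?_ ?_ ?_
    · rintro ⟨S, hS⟩ x hx
      exact hcon S hS x hx
    · exact smul_zero _
    · intro x y hx hy
      rw [smul_add, hx, hy, add_zero]
  have h1 := hz _ htop
  rw [← Submodule.Quotient.mk_smul, smul_eq_mul, mul_one, Submodule.Quotient.mk_eq_zero] at h1
  exact h1

/-- **Simple subquotients and annihilators.** If a two-sided ideal `I` contains the elements which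
annihilate the set `U`, then a simple submodule of the quotient by `I` has a nonzero homomorphism
to a submodule generated by an element of `U`. -/
theorem exists_hom (I : Ideal (MonoidAlgebra ℚ G)) (hI : ∀ x ∈ I, ∀ y, x * y ∈ I)
    (S : Submodule (MonoidAlgebra ℚ G) (MonoidAlgebra ℚ G ⧸ I))
    [hS : IsSimpleModule (MonoidAlgebra ℚ G) S] {N : Type*} [AddCommGroup N]
    [Module (MonoidAlgebra ℚ G) N] (U : Set N) (hann : ∀ x, (∀ n ∈ U, x • n = 0) → x ∈ I) :
    ∃ n ∈ U, ∃ f : S →ₗ[MonoidAlgebra ℚ G] N,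
      (∀ s, ∃ x : MonoidAlgebra ℚ G, f s = x • n) ∧ ∃ s, f s ≠ 0 := by
  classical
  have : NeZero (Nat.card G : ℚ) := ⟨by exact_mod_cast Nat.card_pos.ne'⟩
  have hss : IsSemisimpleRing (MonoidAlgebra ℚ G) := inferInstance
  have hnt := IsSimpleModule.nontrivial (MonoidAlgebra ℚ G) S
  obtain ⟨s0, hs0⟩ := exists_ne (0 : S)
  let φ : MonoidAlgebra ℚ G →ₗ[MonoidAlgebra ℚ G] S :=
    LinearMap.toSpanSingleton (MonoidAlgebra ℚ G) S s0
  have hφ : Function.Surjective φ := by
    have h1 : LinearMap.range φ = ⊤ := by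
      rcases eq_bot_or_eq_top (LinearMap.range φ) with h | h
      · exfalso
        apply hs0
        have h2 : φ 1 ∈ LinearMap.range φ := ⟨1, rfl⟩
        rw [h, Submodule.mem_bot] at h2
        simpa [φ] using h2
      · exact h
    exact LinearMap.range_eq_top.1 h1
  obtain ⟨L, hL⟩ := exists_isCompl (LinearMap.ker φ)
  have hinj : Function.Injective (φ.domRestrict L) := by
    rw [← LinearMap.ker_eq_bot, LinearMap.ker_eq_bot']
    rintro ⟨l, hl⟩ h
    have h2 : l ∈ LinearMap.ker φ ⊓ L := ⟨h, hl⟩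
    rw [hL.inf_eq_bot, Submodule.mem_bot] at h2
    exact Subtype.ext h2
  have hsurj : Function.Surjective (φ.domRestrict L) := by
    intro s
    obtain ⟨x, rfl⟩ := hφ s
    have h2 : x ∈ LinearMap.ker φ ⊔ L := by rw [hL.sup_eq_top]; trivial
    obtain ⟨y, hy, z, hz, rfl⟩ := Submodule.mem_sup.1 h2
    refine ⟨⟨z, hz⟩, ?_⟩
    change φ z = φ (y + z)
    rw [map_add, LinearMap.mem_ker.1 hy, zero_add]
  let e : L ≃ₗ[MonoidAlgebra ℚ G] S := LinearEquiv.ofBijective _ ⟨hinj, hsurj⟩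
  have hex : ∃ l ∈ L, ∃ n ∈ U, l • n ≠ 0 := by
    by_contra hcon
    push Not at hcon
    obtain ⟨l, hl⟩ := e.surjective s0
    apply hs0
    rw [← hl]
    change φ l.1 = 0
    obtain ⟨b, hb⟩ := Submodule.Quotient.mk_surjective I s0.1
    apply Subtype.ext
    change l.1 • s0.1 = 0
    rw [← hb, ← Submodule.Quotient.mk_smul, smul_eq_mul, Submodule.Quotient.mk_eq_zero]
    exact hI _ (hann _ (hcon l.1 l.2)) b
  obtain ⟨l, hl, n, hn, hln⟩ := hex
  refine ⟨n, hn, (LinearMap.toSpanSingleton (MonoidAlgebra ℚ G) N n).comp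
    (L.subtype.comp e.symm.toLinearMap), fun s => ⟨(e.symm s).1, rfl⟩, e ⟨l, hl⟩, ?_⟩
  change (e.symm (e ⟨l, hl⟩)).1 • n ≠ 0
  rw [LinearEquiv.symm_apply_apply]
  exact hln

/-- **Fixed vectors and two-sided ideals**, for a class of representations which contains all simple
submodules of the quotient. -/
theorem mem_of_dominatedOn {ι : Type} {H : Subgroup G} {D : ι → Subgroup G}
    (Q : ∀ (V : Type) [AddCommGroup V] [Module ℚ V], (G →* Module.End ℚ V) → Prop)
    (h : ∀ (V : Type) [AddCommGroup V] [Module ℚ V] (ρ : G →* Module.End ℚ V), Irred ρ → Q V ρ →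
      (∃ v : V, v ≠ 0 ∧ ∀ h ∈ H, ρ h v = v) → ∃ i, ∃ v : V, v ≠ 0 ∧ ∀ d ∈ D i, ρ d v = v)
    (I : Ideal (MonoidAlgebra ℚ G)) (hI : ∀ x ∈ I, ∀ y, x * y ∈ I) (hD : ∀ i, nA (D i) ∈ I)
    (hQ : ∀ (S : Submodule (MonoidAlgebra ℚ G) (MonoidAlgebra ℚ G ⧸ I)),
      IsSimpleModule (MonoidAlgebra ℚ G) S → Q S (repOf S)) :
    nA H ∈ I := by
  classical
  by_contra hH
  obtain ⟨S, hS, s, hsS, hs0⟩ := exists_simple I hH
  obtain ⟨i, v, hv0, hv⟩ := h S (repOf S) irred_of_simple (hQ S hS)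
    ⟨nA H • ⟨s, hsS⟩, fun h0 => hs0 (congrArg Subtype.val h0), fun g hg => by
      rw [repOf_apply, smul_smul, single_mul_nA hg]⟩
  apply hv0
  apply nrm_of_fixed (repOf (G := G) S) (D i) hv
  rw [nrm_repOf]
  apply Subtype.ext
  obtain ⟨b, hb⟩ := Submodule.Quotient.mk_surjective I v.1
  change nA (D i) • v.1 = 0
  rw [← hb, ← Submodule.Quotient.mk_smul, smul_eq_mul, Submodule.Quotient.mk_eq_zero]
  exact hI _ (hD i) b

omit [Fintype G] in
lemma nA_bot [Fintype G] : nA (⊥ : Subgroup G) = 1 := by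
  classical
  unfold nA
  have : (Finset.univ.filter fun g : G => g ∈ (⊥ : Subgroup G)) = {1} := by
    ext g
    simp [Subgroup.mem_bot]
  rw [this, Finset.sum_singleton, MonoidAlgebra.one_def]

end Pool.Agent.X252.GA
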