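import Pool.Agent.X252.GB

/-!
# Finite groups of operators and a projector commuting with them
-/

set_option autoImplicit false

open Finset Pool.Agent.X328.PB Pool.Agent.X310.Mu

namespace Pool.Agent.X252.GC

open Pool.Agent.X252.GA

/-- The set `Q` of operators contains `1` and is closed under sums, products and multiplication by
rational numbers. -/
structure IsRatAlg {K V : Type*} [Field K] [AddCommGroup V] [Module K V]
    (Q : Set (Module.End K V)) : Prop where
  zero : 0 ∈ Q
  add : ∀ {x y}, x ∈ Q → y ∈ Q → x + y ∈ Q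
  smul : ∀ (q : ℚ) {x}, x ∈ Q → (q : K) • x ∈ Q
  mul : ∀ {x y}, x ∈ Q → y ∈ Q → x * y ∈ Q

section
variable {K V : Type*} [Field K] [CharZero K] [AddCommGroup V] [Module K V]
variable {Q : Set (Module.End K V)} {G : Type} [Group G] [Fintype G]
  (act : G →* Module.End K V) (π : Module.End K V)

/-- The group ring acts. -/
noncomputable def theta : MonoidAlgebra ℚ G →+* Module.End K V :=
  (MonoidAlgebra.lift K (Module.End K V) G act).toRingHom.comp
    (MonoidAlgebra.mapRingHom G (algebraMap ℚ K))

omit [Fintype G] in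
lemma theta_single (g : G) (q : ℚ) :
    theta act (MonoidAlgebra.single g q) = (q : K) • act g := by
  unfold theta
  rw [RingHom.comp_apply, MonoidAlgebra.mapRingHom_single]
  exact MonoidAlgebra.lift_single _ _ _

variable {act π}

omit [Fintype G] in
lemma theta_mem (hQ : IsRatAlg Q) (hact : ∀ g, act g ∈ Q) (x : MonoidAlgebra ℚ G) :
    theta act x ∈ Q := by
  induction x using MonoidAlgebra.induction_linear with
  | zero => rw [map_zero]; exact hQ.zero
  | add f g hf hg => rw [map_add]; exact hQ.add hf hg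
  | single g r =>
    rw [theta_single]
    exact hQ.smul r (hact g)

omit [Fintype G] in
lemma theta_comm (hπ : ∀ g, act g * π = π * act g) (x : MonoidAlgebra ℚ G) :
    theta act x * π = π * theta act x := by
  induction x using MonoidAlgebra.induction_linear with
  | zero => rw [map_zero, zero_mul, mul_zero]
  | add f g hf hg => rw [map_add, add_mul, mul_add, hf, hg]
  | single g r => rw [theta_single, smul_mul_assoc, mul_smul_comm, hπ]

/-- The elements of the group ring whose product with the projector is in `Q`. -/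
noncomputable def idl (hQ : IsRatAlg Q) (hact : ∀ g, act g ∈ Q) (π : Module.End K V) :
    Ideal (MonoidAlgebra ℚ G) where
  carrier := {x | theta act x * π ∈ Q}
  add_mem' := by
    intro x y hx hy
    rw [Set.mem_ofPred_eq, map_add, add_mul]
    exact hQ.add hx hy
  zero_mem' := by
    rw [Set.mem_ofPred_eq, map_zero, zero_mul]
    exact hQ.zero
  smul_mem' := by
    intro c x hx
    rw [Set.mem_ofPred_eq, smul_eq_mul, map_mul, mul_assoc]
    exact hQ.mul (theta_mem hQ hact c) hx

lemma mem_idl (hQ : IsRatAlg Q) (hact : ∀ g, act g ∈ Q) {x : MonoidAlgebra ℚ G} :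
    x ∈ idl hQ hact π ↔ theta act x * π ∈ Q := Iff.rfl

lemma idl_right (hQ : IsRatAlg Q) (hact : ∀ g, act g ∈ Q) (hπ : ∀ g, act g * π = π * act g)
    (x : MonoidAlgebra ℚ G) (hx : x ∈ idl hQ hact π) (y : MonoidAlgebra ℚ G) :
    x * y ∈ idl hQ hact π := by
  rw [mem_idl, map_mul, mul_assoc, theta_comm hπ, ← mul_assoc]
  exact hQ.mul hx (theta_mem hQ hact y)

lemma theta_nA (H : Subgroup G) : theta act (nA H) = ∑ᶠ h : H, act h.1 := by
  classical
  unfold nA
  rw [map_sum, finsum_eq_sum_of_fintype]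
  refine Finset.sum_bij' (fun g hg => ⟨g, by simpa using hg⟩) (fun h _ => h.1)
    ?_ ?_ ?_ ?_ ?_
  · intro g hg; simp
  · intro h _; simp
  · intro g hg; simp
  · intro h _; simp
  · intro g hg
    rw [theta_single]
    simp

end

/-- There is a nonzero equivariant homomorphism from the representation to the subspace `U`. -/
def Occurs {K V : Type*} [Field K] [AddCommGroup V] [Module K V] {G : Type} [Group G]
    (act : G →* Module.End K V) (U : Submodule K V) {S : Type} [AddCommGroup S] [Module ℚ S]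
    (ρ : G →* Module.End ℚ S) : Prop :=
  ∃ f : S →+ V, (∀ s, f s ∈ U) ∧ (∀ g s, f (ρ g s) = act g (f s)) ∧ ∃ s, f s ≠ 0

/-- No irreducible rational representation occurs in both subspaces. -/
def NoCommonRep {K V : Type*} [Field K] [AddCommGroup V] [Module K V] {G : Type} [Group G]
    (act : G →* Module.End K V) (U U' : Submodule K V) : Prop :=
  ∀ (S : Type) [AddCommGroup S] [Module ℚ S] (ρ : G →* Module.End ℚ S), Irred ρ →
    Occurs act U ρ → ¬ Occurs act U' ρ

/-- Every irreducible rational representation which occurs in both subspaces and has a nonzero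
vector fixed by `H` has for some `i` a nonzero vector fixed by `D i`. -/
def DominatedRep {K V : Type*} [Field K] [AddCommGroup V] [Module K V] {G : Type} [Group G]
    (act : G →* Module.End K V) (U U' : Submodule K V) {ι : Type} (H : Subgroup G)
    (D : ι → Subgroup G) : Prop :=
  ∀ (S : Type) [AddCommGroup S] [Module ℚ S] (ρ : G →* Module.End ℚ S), Irred ρ →
    Occurs act U ρ → Occurs act U' ρ →
    (∃ v : S, v ≠ 0 ∧ ∀ h ∈ H, ρ h v = v) → ∃ i, ∃ v : S, v ≠ 0 ∧ ∀ d ∈ D i, ρ d v = v

/-- Some irreducible nonzero rational representation occurs in both subspaces, and the elements of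
the group different from one fix only `0` in it. -/
def CommonFreeRep {K V : Type*} [Field K] [AddCommGroup V] [Module K V] {G : Type} [Group G]
    (act : G →* Module.End K V) (U U' : Submodule K V) : Prop :=
  ∃ (S : Type) (_ : AddCommGroup S) (_ : Module ℚ S) (ρ : G →* Module.End ℚ S), Irred ρ ∧
    Occurs act U ρ ∧ Occurs act U' ρ ∧ (∃ v : S, v ≠ 0) ∧
    ∀ g : G, g ≠ 1 → ∀ v : S, ρ g v = v → v = 0

/-- The element is contained in a nonabelian simple subgroup. -/
def InSimple {G : Type} [Group G] (c : G) : Prop :=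
  ∃ S : Subgroup G, IsSimpleGroup S ∧ (∃ x y : S, x * y ≠ y * x) ∧ c ∈ S

/-- The subgroups `D j`, finitely many but at least two, are contained in `K` and every element of
`K` different from one is contained in exactly one of them. -/
def Partitions {G ι : Type} [Group G] (K : Subgroup G) (D : ι → Subgroup G) : Prop :=
  Finite ι ∧ 2 ≤ Nat.card ι ∧ (∀ j, D j ≤ K) ∧ ∀ g ∈ K, g ≠ 1 → ∃! j, g ∈ D j

/-- The subgroups whose order is the product of two prime numbers and the commutative subgroups
are cyclic, and there is at most one element of order two. -/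
def CyclicSubgroups (G : Type) [Group G] : Prop :=
  (∀ (K : Subgroup G) (p q : ℕ), p.Prime → q.Prime → Nat.card K = p * q → IsCyclic K) ∧
    (∀ K : Subgroup G, (∀ x ∈ K, ∀ y ∈ K, x * y = y * x) → IsCyclic K) ∧
    ∀ σ τ : G, orderOf σ = 2 → orderOf τ = 2 → σ = τ

section
variable {K V : Type*} [Field K] [CharZero K] [AddCommGroup V] [Module K V]
variable {Q : Set (Module.End K V)} {G : Type} [Group G] [Fintype G]
  {act : G →* Module.End K V} {π : Module.End K V}

lemma theta_stable (U : Submodule K V) (hU : ∀ g, ∀ u ∈ U, act g u ∈ U)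
    (x : MonoidAlgebra ℚ G) {u : V} (hu : u ∈ U) : theta act x u ∈ U := by
  induction x using MonoidAlgebra.induction_linear with
  | zero => rw [map_zero, LinearMap.zero_apply]; exact Submodule.zero_mem _
  | add f g hf hg => rw [map_add, LinearMap.add_apply]; exact Submodule.add_mem _ hf hg
  | single g r =>
    rw [theta_single, LinearMap.smul_apply]
    exact Submodule.smul_mem _ _ (hU g u hu)

lemma occurs_of_ann (U : Submodule K V) (hU : ∀ g, ∀ u ∈ U, act g u ∈ U)
    (I : Ideal (MonoidAlgebra ℚ G)) (hI : ∀ x ∈ I, ∀ y, x * y ∈ I)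
    (hann : ∀ x : MonoidAlgebra ℚ G, (∀ n ∈ U, theta act x n = 0) → x ∈ I)
    (S : Submodule (MonoidAlgebra ℚ G) (MonoidAlgebra ℚ G ⧸ I))
    (hS : IsSimpleModule (MonoidAlgebra ℚ G) S) : Occurs act U (repOf (G := G) S) := by
  let _ : Module (MonoidAlgebra ℚ G) V := Module.compHom V (theta act)
  have hsm : ∀ (x : MonoidAlgebra ℚ G) (n : V), x • n = theta act x n := fun _ _ => rfl
  obtain ⟨n, hn, f, hf, s, hs⟩ := exists_hom I hI S (U : Set V) hann
  refine ⟨f.toAddMonoidHom, ?_, ?_, s, hs⟩
  · intro v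
    obtain ⟨x, hx⟩ := hf v
    change f v ∈ _
    rw [hx, hsm]
    exact theta_stable U hU x hn
  · intro g v
    change f (repOf S g v) = act g (f v)
    rw [repOf_apply, map_smul, hsm, theta_single, Rat.cast_one, one_smul]

/-- **Finite groups of operators and a projector.** -/
theorem main (hQ : IsRatAlg Q) (hact : ∀ g, act g ∈ Q) (hπ : ∀ g, act g * π = π * act g)
    (hππ : π * π = π) :
    (NoCommonRep act (LinearMap.range π) (LinearMap.ker π) → π ∈ Q) ∧
    (∀ (H : Subgroup G) (ι : Type) (D : ι → Subgroup G),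
      DominatedRep act (LinearMap.range π) (LinearMap.ker π) H D →
      (∀ j, (∑ᶠ h : D j, act h.1) * π ∈ Q) → (∑ᶠ h : H, act h.1) * π ∈ Q) ∧
    (∀ c : G, c * c = 1 → (π ∈ Q ↔ (∑ᶠ h : Subgroup.zpowers c, act h.1) * π ∈ Q ∧
      (∑ᶠ h : comms c, act h.1) * π ∈ Q)) ∧
    (∀ c : G, InSimple c → c ≠ 1 → c * c = 1 →
      (π ∈ Q ↔ (∑ᶠ h : Subgroup.zpowers c, act h.1) * π ∈ Q)) ∧
    (∀ (ι : Type) (D : ι → Subgroup G) (K : Subgroup G), Partitions K D →
      (π ∈ Q ↔ ∀ j, (∑ᶠ h : D j, act h.1) * π ∈ Q)) ∧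
    (π ∉ Q → (∀ P : Subgroup G, (Nat.card P).Prime → (∑ᶠ h : P, act h.1) * π ∈ Q) →
      CommonFreeRep act (LinearMap.range π) (LinearMap.ker π) ∧ CyclicSubgroups G) := by
  have hnA : ∀ H : Subgroup G, nA H ∈ idl hQ hact π ↔ (∑ᶠ h : H, act h.1) * π ∈ Q := by
    intro H
    rw [mem_idl, theta_nA]
  have h1 : (1 : MonoidAlgebra ℚ G) ∈ idl hQ hact π ↔ π ∈ Q := by
    rw [mem_idl, map_one, one_mul]
  have hr := idl_right hQ hact hπ
  have hup : ∀ H : Subgroup G, π ∈ Q → (∑ᶠ h : H, act h.1) * π ∈ Q := by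
    intro H h
    rw [← hnA]
    have h2 := (idl hQ hact π).mul_mem_left (nA H) (h1.2 h)
    rwa [mul_one] at h2
  have hdown : ∀ (ι : Type) (D : ι → Subgroup G), Dominated (⊥ : Subgroup G) D →
      (∀ j, (∑ᶠ h : D j, act h.1) * π ∈ Q) → π ∈ Q := by
    intro ι D hD h
    rw [← h1]
    exact one_mem_of_dominated hD _ hr fun j => (hnA _).2 (h j)
  have hdom : ∀ (H : Subgroup G) (ι : Type) (D : ι → Subgroup G),
      DominatedRep act (LinearMap.range π) (LinearMap.ker π) H D →
      (∀ j, (∑ᶠ h : D j, act h.1) * π ∈ Q) → nA H ∈ idl hQ hact π := by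
    intro H ι D hD h
    refine mem_of_dominatedOn (H := H) (D := D)
      (fun V _ _ ρ => Occurs act (LinearMap.range π) ρ ∧ Occurs act (LinearMap.ker π) ρ) ?_ _ hr
      (fun j => (hnA _).2 (h j)) ?_
    · intro V _ _ ρ hρ hQ hv
      exact hD V ρ hρ hQ.1 hQ.2 hv
    · intro S hS
      refine ⟨occurs_of_ann _ ?_ _ hr ?_ S hS, occurs_of_ann _ ?_ _ hr ?_ S hS⟩
      · rintro g _ ⟨u, rfl⟩
        refine ⟨act g u, ?_⟩
        rw [← Module.End.mul_apply, ← hπ]
        rfl
      · intro x hx
        rw [mem_idl]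
        have h0 : theta act x * π = 0 := by
          ext v
          exact hx (π v) ⟨v, rfl⟩
        rw [h0]
        exact hQ.zero
      · intro g u hu
        rw [LinearMap.mem_ker] at hu ⊢
        have h2 : (π * act g) u = (act g * π) u := by rw [hπ]
        rw [Module.End.mul_apply, Module.End.mul_apply, hu, map_zero] at h2
        exact h2
      · intro x hx
        rw [mem_idl]
        have h0 : theta act x * π = theta act x := by
          ext v
          have h2 : v - π v ∈ LinearMap.ker π := by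
            rw [LinearMap.mem_ker, map_sub]
            have h3 : (π * π) v = π v := by rw [hππ]
            rw [Module.End.mul_apply] at h3
            rw [h3, sub_self]
          have h3 := hx _ h2
          rw [map_sub, sub_eq_zero] at h3
          rw [Module.End.mul_apply]
          exact h3.symm
        rw [h0]
        exact theta_mem hQ hact x
  have hdom1 : ∀ (ι : Type) (D : ι → Subgroup G),
      DominatedRep act (LinearMap.range π) (LinearMap.ker π) ⊥ D →
      (∀ j, (∑ᶠ h : D j, act h.1) * π ∈ Q) → π ∈ Q := by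
    intro ι D hD h
    have h2 := hdom ⊥ ι D hD h
    rwa [nA_bot, h1] at h2
  refine ⟨?_, ?_, ?_, ?_, ?_, ?_⟩
  · intro h
    refine hdom1 Empty (fun e => e.elim) ?_ fun e => e.elim
    intro V _ _ ρ hρ h1 h2 _
    exact absurd h2 (h V ρ hρ h1)
  · intro H ι D hD h
    rw [← hnA]
    exact hdom H ι D hD h
  · intro c hc
    refine ⟨fun h => ⟨hup _ h, hup _ h⟩, fun h => hdown _ _ (dominated_two hc ⊥) ?_⟩
    intro b
    cases b
    · exact h.2
    · exact h.1
  · rintro c ⟨S, hSs, hS, hcS⟩ hc1 hc
    exact ⟨hup _, fun h => hdown _ _ (dominated_comms hc (comms_of_simple S hS hcS hc1) ⊥)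
      fun _ => h⟩
  · rintro ι D K ⟨hf, hι, hle, hpart⟩
    exact ⟨fun h j => hup _ h, hdown _ _ (dominated_partition D K hι hle hpart ⊥)⟩
  · intro h0 hP
    obtain ⟨-, -, k3⟩ := structure_of_ideal (idl hQ hact π) hr
      (fun h => h0 (h1.1 h)) fun P hPp => (hnA _).2 (hP P hPp)
    refine ⟨?_, k3⟩
    by_contra hcon
    apply h0
    refine hdom1 {P : Subgroup G // (Nat.card P).Prime} (fun P => P.1) ?_ fun P => hP P.1 P.2
    intro V _ _ ρ hρ ho1 ho2 hv
    obtain ⟨v, hv0, -⟩ := hv
    by_contra hno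
    push Not at hno
    apply hcon
    refine ⟨V, _, _, ρ, hρ, ho1, ho2, ⟨v, hv0⟩, fun g hg w hw => ?_⟩
    obtain ⟨P, hPp, hPg⟩ := Pool.Agent.X328.PB.card_zpowers_prime hg
    by_contra hw0
    obtain ⟨d, hd, hd'⟩ := hno ⟨P, hPp⟩ w hw0
    exact hd' (fixed_zpow ρ hw d (hPg hd))

end

end Pool.Agent.X252.GC
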