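import Mathlib

/-!
# Permutation groups with a coset meeting all Young subgroups of small rank
-/

namespace Pool.Agent.X252.GC

open Equiv

section Basic

variable {α : Type*} [DecidableEq α]

/-- The three-cycle `a → b → c → a` (for distinct points). -/
def c3 (a b c : α) : Perm α := swap a b * swap b c

lemma conj_c3 (g : Perm α) (a b c : α) : g * c3 a b c * g⁻¹ = c3 (g a) (g b) (g c) := by
  unfold c3
  rw [swap_apply_apply, swap_apply_apply]
  group

lemma c3_inv (a b c : α) : (c3 a b c)⁻¹ = c3 c b a := by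
  unfold c3
  rw [mul_inv_rev, swap_inv, swap_inv, swap_comm b c, swap_comm a b]

lemma c3_rot {a b c : α} (hab : a ≠ b) (hbc : b ≠ c) (hac : a ≠ c) : c3 a b c = c3 b c a := by
  unfold c3
  ext x
  simp only [Perm.mul_apply, swap_apply_def]
  grind

/-- All three-cycles on `B` lie in `G`. -/
def AltOn (G : Subgroup (Perm α)) (B : Finset α) : Prop :=
  ∀ a ∈ B, ∀ b ∈ B, ∀ c ∈ B, a ≠ b → b ≠ c → a ≠ c → c3 a b c ∈ G

lemma AltOn.extend {G : Subgroup (Perm α)} {B : Finset α} (hB : AltOn G B) {c u v : α}
    (hc : c ∉ B) (hu : u ∈ B) (hv : v ∈ B) (huv : u ≠ v) (h : c3 c u v ∈ G) :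
    AltOn G (insert c B) := by
  have hne : ∀ a ∈ B, c ≠ a := fun a ha h => hc (h ▸ ha)
  -- swapping the last two arguments
  have hswap : ∀ a ∈ B, ∀ b ∈ B, a ≠ b → c3 c a b ∈ G → c3 c b a ∈ G := by
    intro a ha b hb hab hP
    have h1 := G.inv_mem hP
    rw [c3_inv] at h1
    rw [c3_rot hab.symm (hne a ha).symm (hne b hb).symm, c3_rot (hne a ha).symm (hne b hb) hab]
      at h1
    exact h1
  have hrep : ∀ a ∈ B, ∀ b ∈ B, ∀ w ∈ B, a ≠ b → w ≠ a → w ≠ b →
      c3 c a b ∈ G → c3 c b w ∈ G := by
    intro a ha b hb w hw hab hwa hwb hP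
    have h1 : c3 a b w * c3 c a b * (c3 a b w)⁻¹ ∈ G :=
      G.mul_mem (G.mul_mem (hB a ha b hb w hw hab hwb.symm hwa.symm) hP)
        (G.inv_mem (hB a ha b hb w hw hab hwb.symm hwa.symm))
    rw [conj_c3] at h1
    have e1 : c3 a b w c = c := by
      unfold c3
      rw [Perm.mul_apply, swap_apply_of_ne_of_ne (hne b hb) (hne w hw),
        swap_apply_of_ne_of_ne (hne a ha) (hne b hb)]
    have e2 : c3 a b w a = b := by
      unfold c3
      rw [Perm.mul_apply, swap_apply_of_ne_of_ne hab hwa.symm, swap_apply_left]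
    have e3 : c3 a b w b = w := by
      unfold c3
      rw [Perm.mul_apply, swap_apply_left, swap_apply_of_ne_of_ne hwa hwb]
    rwa [e1, e2, e3] at h1
  have claim1 : ∀ w ∈ B, w ≠ u → c3 c u w ∈ G := by
    intro w hw hwu
    by_cases hwv : w = v
    · rwa [hwv]
    · exact hrep v hv u hu w hw huv.symm hwv hwu (hswap u hu v hv huv h)
  have key : ∀ a ∈ B, ∀ b ∈ B, a ≠ b → c3 c a b ∈ G := by
    intro a ha b hb hab
    by_cases hau : a = u
    · subst hau
      exact claim1 b hb hab.symm
    · by_cases hbu : b = u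
      · subst hbu
        exact hswap b hb a ha hab.symm (claim1 a ha hab)
      · exact hrep u hu a ha b hb (Ne.symm hau) hbu hab.symm (claim1 a ha hau)
  intro x hx y hy z hz hxy hyz hxz
  rw [Finset.mem_insert] at hx hy hz
  rcases hx with rfl | hx
  · rcases hy with rfl | hy
    · exact absurd rfl hxy
    · rcases hz with rfl | hz
      · exact absurd rfl hxz
      · exact key y hy z hz hyz
  · rcases hy with rfl | hy
    · rcases hz with rfl | hz
      · exact absurd rfl hyz
      · rw [c3_rot hxy hyz hxz]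
        exact key z hz x hx hxz.symm
    · rcases hz with rfl | hz
      · rw [c3_rot hxy hyz hxz, c3_rot hyz hxz.symm hxy.symm]
        exact key x hx y hy hxy
      · exact hB x hx y hy z hz hxy hyz hxz

lemma AltOn.conj {G : Subgroup (Perm α)} {B : Finset α} (hB : AltOn G B) {g : Perm α}
    (hg : g ∈ G) : AltOn G (B.image g) := by
  intro a ha b hb c hc hab hbc hac
  rw [Finset.mem_image] at ha hb hc
  obtain ⟨a, ha, rfl⟩ := ha
  obtain ⟨b, hb, rfl⟩ := hb
  obtain ⟨c, hc, rfl⟩ := hc
  rw [← conj_c3]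
  exact G.mul_mem (G.mul_mem hg (hB a ha b hb c hc (fun h => hab (by rw [h]))
    (fun h => hbc (by rw [h])) (fun h => hac (by rw [h])))) (G.inv_mem hg)

end Basic

section Small

/-- In the symmetric group of a set with at most three elements fourth powers commute. -/
lemma pow_four_comm {β : Type*} [Fintype β] [DecidableEq β] (h : Fintype.card β ≤ 3)
    (p q : Perm β) : p ^ 4 * q ^ 4 = q ^ 4 * p ^ 4 := by
  have key : ∀ m : ℕ, m ≤ 3 → ∀ p q : Perm (Fin m), p ^ 4 * q ^ 4 = q ^ 4 * p ^ 4 := by
    intro m hm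
    interval_cases m <;> decide +kernel
  let e := Fintype.equivFin β
  have h1 := key _ h (e.permCongr p) (e.permCongr q)
  have hmul : ∀ a b : Perm β, e.permCongr (a * b) = e.permCongr a * e.permCongr b := by
    intro a b
    ext x
    simp [Equiv.permCongr_apply]
  have hpow : ∀ (a : Perm β) (n : ℕ), e.permCongr (a ^ n) = (e.permCongr a) ^ n := by
    intro a n
    induction n with
    | zero =>
      ext x
      simp [Equiv.permCongr_apply]
    | succ n ih => rw [pow_succ, pow_succ, hmul, ih]
  rw [← hpow, ← hpow, ← hmul, ← hmul] at h1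
  exact e.permCongr.injective h1

end Small

section Chain

variable {α : Type*} [Fintype α] [DecidableEq α]

/-- The even permutations of `X` which are induced by an element of `H` fixing `D` pointwise. -/
def Real (H : Subgroup (Perm α)) (X D : Finset α) :
    Subgroup (alternatingGroup {x // x ∈ X}) where
  carrier := {a | ∃ h ∈ H, (∀ x : {x // x ∈ X}, h x = ((a : Perm {x // x ∈ X}) x : α)) ∧
    ∀ z ∈ D, h z = z}
  one_mem' := ⟨1, H.one_mem, fun _ => rfl, fun _ _ => rfl⟩
  mul_mem' := by
    rintro a b ⟨g, hg, hga, hgD⟩ ⟨h, hh, hhb, hhD⟩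
    refine ⟨g * h, H.mul_mem hg hh, fun x => ?_, fun z hz => ?_⟩
    · rw [Perm.mul_apply, hhb x, hga]
      rfl
    · rw [Perm.mul_apply, hhD z hz, hgD z hz]
  inv_mem' := by
    rintro a ⟨g, hg, hga, hgD⟩
    refine ⟨g⁻¹, H.inv_mem hg, fun x => ?_, fun z hz => ?_⟩
    · rw [Perm.inv_eq_iff_eq, hga]
      simp
    · rw [Perm.inv_eq_iff_eq, hgD z hz]

omit [Fintype α] in
lemma mem_Real {H : Subgroup (Perm α)} {X D : Finset α} {a : alternatingGroup {x // x ∈ X}} :
    a ∈ Real H X D ↔ ∃ h ∈ H, (∀ x : {x // x ∈ X}, h x = ((a : Perm {x // x ∈ X}) x : α)) ∧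
    ∀ z ∈ D, h z = z := Iff.rfl

lemma chain {ι : Type*} [DecidableEq ι] (H : Subgroup (Perm α)) (X : Finset α)
    (hX : 3 ≤ X.card) [IsSimpleGroup (alternatingGroup {x // x ∈ X})] (c : α → ι)
    (hH : ∀ h ∈ H, ∀ z, c (h z) = c z) (h0 : Real H X ∅ = ⊤) (s : Finset ι)
    (hs : ∀ v ∈ s, (Finset.univ.filter fun z => c z = v).card < X.card) :
    Real H X (Finset.univ.filter fun z => c z ∈ s) = ⊤ := by
  classical
  induction s using Finset.induction_on with
  | empty =>
    rw [← h0]
    congr 1
    ext z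
    simp
  | insert v s hv ih =>
    have ih := ih fun w hw => hs w (Finset.mem_insert_of_mem hw)
    set R := Real H X (Finset.univ.filter fun z => c z ∈ insert v s) with hR
    have hnorm : R.Normal := by
      constructor
      intro a ha b
      obtain ⟨g, hg, hga, hgD⟩ := ha
      obtain ⟨h, hh, hhb, -⟩ : b ∈ Real H X ∅ := by rw [h0]; trivial
      refine ⟨h * g * h⁻¹, H.mul_mem (H.mul_mem hh hg) (H.inv_mem hh), fun x => ?_, fun z hz => ?_⟩
      · have h1 : h⁻¹ (x : α) = (((b⁻¹ : alternatingGroup {x // x ∈ X}) : Perm {x // x ∈ X}) x : α) := by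
          rw [Perm.inv_eq_iff_eq, hhb]
          simp
        rw [Perm.mul_apply, Perm.mul_apply, h1, hga, hhb]
        rfl
      · rw [Perm.mul_apply, Perm.mul_apply, hgD]
        · simp
        · rw [Finset.mem_filter] at hz ⊢
          refine ⟨Finset.mem_univ _, ?_⟩
          rw [hH _ (H.inv_mem hh)]
          exact hz.2
    rcases hnorm.eq_bot_or_eq_top with hbot | htop
    · exfalso
      -- an injection into the symmetric group of the class
      have hall : ∀ a : alternatingGroup {x // x ∈ X}, ∃ h ∈ H,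
          (∀ x : {x // x ∈ X}, h x = ((a : Perm {x // x ∈ X}) x : α)) ∧
          ∀ z ∈ (Finset.univ.filter fun z => c z ∈ s), h z = z := by
        intro a
        have : a ∈ Real H X (Finset.univ.filter fun z => c z ∈ s) := by rw [ih]; trivial
        exact this
      choose f hfH hfX hfD using hall
      let F : alternatingGroup {x // x ∈ X} → Perm {z // c z = v} := fun a =>
        (f a).subtypePerm fun z => by rw [hH _ (hfH a)]
      have hF : Function.Injective F := by
        intro a b hab
        have h1 : a * b⁻¹ ∈ R := by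
          refine ⟨f a * (f b)⁻¹, H.mul_mem (hfH a) (H.inv_mem (hfH b)), fun x => ?_, fun z hz => ?_⟩
          · have h1 : (f b)⁻¹ (x : α) = (((b⁻¹ : alternatingGroup {x // x ∈ X}) :
                Perm {x // x ∈ X}) x : α) := by
              rw [Perm.inv_eq_iff_eq, hfX]
              simp
            rw [Perm.mul_apply, h1, hfX]
            rfl
          · rw [Finset.mem_filter, Finset.mem_insert] at hz
            rw [Perm.mul_apply]
            rcases hz.2 with hz | hz
            · have h2 : c ((f b)⁻¹ z) = v := by rw [hH _ (H.inv_mem (hfH b)), hz]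
              have h3 := Equiv.congr_fun hab ⟨(f b)⁻¹ z, h2⟩
              have h4 := congrArg Subtype.val h3
              simp only [F, Perm.subtypePerm_apply] at h4
              rw [h4]
              simp
            · have h2 : (f b)⁻¹ z = z := by
                rw [Perm.inv_eq_iff_eq, hfD b z (by simpa using hz)]
              rw [h2, hfD a z (by simpa using hz)]
        rw [hbot, Subgroup.mem_bot] at h1
        exact mul_inv_eq_one.1 h1
      have hcard := Fintype.card_le_of_injective F hF
      rw [Fintype.card_perm, Fintype.card_subtype (fun z => c z = v)] at hcard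
      have hnt : Nontrivial {x // x ∈ X} := by
        rw [← Fintype.one_lt_card_iff_nontrivial]
        simp only [Fintype.card_coe]
        omega
      have h2 := two_mul_card_alternatingGroup (α := {x // x ∈ X})
      rw [Fintype.card_perm, Fintype.card_coe] at h2
      have h3 : ((Finset.univ.filter fun z => c z = v).card).factorial ≤ (X.card - 1).factorial :=
        Nat.factorial_le (by have := hs v (Finset.mem_insert_self v s); omega)
      have h4 : X.card.factorial = X.card * (X.card - 1).factorial :=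
        (Nat.mul_factorial_pred (by omega)).symm
      have h5 : 0 < (X.card - 1).factorial := Nat.factorial_pos _
      nlinarith
    · exact htop

end Chain

section Core

variable {α : Type*} [Fintype α] [DecidableEq α]

/-- The points which are alone in their class. -/
def sing (c : α → α) : Finset α := Finset.univ.filter fun x => ∀ z, c z = c x → z = x

lemma mem_sing {c : α → α} {x : α} : x ∈ sing c ↔ ∀ z, c z = c x → z = x := by
  simp [sing]

variable (G : Subgroup (Perm α)) (σ : Perm α) (c : α → α)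
  (hc : ∀ y, σ⁻¹ * y ∈ G → ¬ ∀ x, c (y x) = c x)
  (hmin : ∀ c' : α → α, (Finset.univ.image c').card < (Finset.univ.image c).card →
    ∃ y, σ⁻¹ * y ∈ G ∧ ∀ x, c' (y x) = c' x)

include hmin in
lemma merge (p q : α) (hpq : c p ≠ c q) : ∃ y, σ⁻¹ * y ∈ G ∧
    (∀ z, c z ≠ c p → c z ≠ c q → c (y z) = c z) ∧
    (∀ z, (c z = c p ∨ c z = c q) → (c (y z) = c p ∨ c (y z) = c q)) := by
  obtain ⟨y, hy, hyc⟩ := hmin (fun z => if c z = c q then c p else c z) (by
    refine lt_of_le_of_lt (Finset.card_le_card (t := (Finset.univ.image c).erase (c q)) ?_)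
      (Finset.card_erase_lt_of_mem (Finset.mem_image_of_mem _ (Finset.mem_univ _)))
    intro v hv
    rw [Finset.mem_image] at hv
    obtain ⟨z, -, rfl⟩ := hv
    rw [Finset.mem_erase]
    split_ifs with hz
    · exact ⟨hpq, Finset.mem_image_of_mem _ (Finset.mem_univ _)⟩
    · exact ⟨hz, Finset.mem_image_of_mem _ (Finset.mem_univ _)⟩)
  refine ⟨y, hy, fun z h1 h2 => ?_, fun z hz => ?_⟩
  · have h3 := hyc z
    simp only [if_neg h2] at h3
    split_ifs at h3 with h4
    · exact absurd h3.symm h1
    · exact h3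
  · have h3 := hyc z
    have h5 : (if c z = c q then c p else c z) = c p := by
      rcases hz with hz | hz
      · rw [if_neg (by rw [hz]; exact hpq), hz]
      · rw [if_pos hz]
    simp only [h5] at h3
    split_ifs at h3 with h4
    · exact Or.inr h4
    · exact Or.inl h3

include hmin hc in
lemma swapXX {x y : α} (hx : x ∈ sing c) (hy : y ∈ sing c) (hxy : x ≠ y) :
    ∃ h, σ⁻¹ * h ∈ G ∧ h x = y ∧ h y = x ∧ ∀ z, z ≠ x → z ≠ y → c (h z) = c z := by
  rw [mem_sing] at hx hy
  obtain ⟨h, hh, h1, h2⟩ := merge G σ c hmin x y (fun e => hxy (hy x e))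
  have hne : ∀ z, z ≠ x → z ≠ y → c (h z) = c z := fun z hzx hzy =>
    h1 z (fun e => hzx (hx z e)) (fun e => hzy (hy z e))
  have hx' : h x = x ∨ h x = y := by
    rcases h2 x (Or.inl rfl) with e | e
    · exact Or.inl (hx _ e)
    · exact Or.inr (hy _ e)
  have hy' : h y = x ∨ h y = y := by
    rcases h2 y (Or.inr rfl) with e | e
    · exact Or.inl (hx _ e)
    · exact Or.inr (hy _ e)
  have hxx : h x ≠ x := by
    intro e
    have e2 : h y = y := by
      rcases hy' with e2 | e2
      · exact absurd (h.injective (e.trans e2.symm)) hxy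
      · exact e2
    refine hc h hh fun z => ?_
    by_cases hzx : z = x
    · rw [hzx, e]
    · by_cases hzy : z = y
      · rw [hzy, e2]
      · exact hne z hzx hzy
  have e1 : h x = y := hx'.resolve_left hxx
  have e2 : h y = x := by
    rcases hy' with e2 | e2
    · exact e2
    · exact absurd (h.injective (e1.trans e2.symm)) hxy
  exact ⟨h, hh, e1, e2, hne⟩

include hmin hc in
lemma swapXC {x z₀ : α} (hx : x ∈ sing c) (hz₀ : z₀ ∉ sing c) :
    ∃ h, σ⁻¹ * h ∈ G ∧ c (h x) = c z₀ ∧ ∀ z, z ≠ x → c z ≠ c z₀ → c (h z) = c z := by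
  have hx0 := hx
  rw [mem_sing] at hx
  have hne : c x ≠ c z₀ := fun e => hz₀ (by rw [hx z₀ e.symm]; exact hx0)
  obtain ⟨h, hh, h1, h2⟩ := merge G σ c hmin x z₀ hne
  refine ⟨h, hh, ?_, fun z hzx hz => h1 z (fun e => hzx (hx z e)) hz⟩
  rcases h2 x (Or.inl rfl) with e | e
  · exfalso
    have e1 : h x = x := hx _ e
    refine hc h hh fun z => ?_
    by_cases hzx : z = x
    · rw [hzx, e1]
    · by_cases hz : c z = c z₀
      · rcases h2 z (Or.inr hz) with e2 | e2
        · exact absurd (h.injective ((hx _ e2).trans e1.symm)) hzx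
        · rw [e2, hz]
      · exact h1 z (fun e => hzx (hx z e)) hz
  · exact e

include hmin hc in
lemma move {x x' y' z₀ : α} (hx : x ∈ sing c) (hx' : x' ∈ sing c) (hy' : y' ∈ sing c)
    (hz₀ : z₀ ∉ sing c) (h12 : x ≠ x') (h13 : x ≠ y') (h23 : x' ≠ y') :
    ∃ g ∈ G, c (g x) = c z₀ ∧ g x' = y' ∧ g y' = x' ∧
      ∀ z ∈ sing c, z ≠ x → z ≠ x' → z ≠ y' → g z = z := by
  obtain ⟨h, hh, h1, h2⟩ := swapXC G σ c hc hmin hx hz₀
  obtain ⟨h', hh', h3, h4, h5⟩ := swapXX G σ c hc hmin hx' hy' h23
  have hcne : ∀ w ∈ sing c, c w ≠ c z₀ := by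
    intro w hw e
    have := (mem_sing.1 hw) z₀ e.symm
    exact hz₀ (this ▸ hw)
  have hfix : ∀ w ∈ sing c, w ≠ x → h w = w := fun w hw hwx =>
    (mem_sing.1 hw) _ (h2 w hwx (hcne w hw))
  refine ⟨h'⁻¹ * h, ?_, ?_, ?_, ?_, ?_⟩
  · have := G.mul_mem (G.inv_mem hh') hh
    simpa [mul_assoc] using this
  · rw [Perm.mul_apply]
    set v := h'⁻¹ (h x) with hv
    have hv' : h' v = h x := by rw [hv]; simp
    have hvx : v ≠ x' := by
      intro e
      rw [e, h3] at hv'
      rw [← hv'] at h1
      exact hcne y' hy' h1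
    have hvy : v ≠ y' := by
      intro e
      rw [e, h4] at hv'
      rw [← hv'] at h1
      exact hcne x' hx' h1
    rw [← h5 v hvx hvy, hv', h1]
  · rw [Perm.mul_apply, hfix x' hx' h12.symm, Perm.inv_eq_iff_eq, h4]
  · rw [Perm.mul_apply, hfix y' hy' h13.symm, Perm.inv_eq_iff_eq, h3]
  · intro z hz hzx hzx' hzy'
    rw [Perm.mul_apply, hfix z hz hzx, Perm.inv_eq_iff_eq]
    exact ((mem_sing.1 hz) _ (h5 z hzx' hzy')).symm

/-- Counting: there are at least three singleton classes and every other class is smaller than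
the number of these. -/
lemma count (hN : Fintype.card α + 3 ≤ 2 * (Finset.univ.image c).card) :
    3 ≤ (sing c).card ∧ ∀ z ∉ sing c, (Finset.univ.filter fun w => c w = c z).card + 1 ≤
      (sing c).card := by
  classical
  set im := Finset.univ.image c with him
  have hsum : Fintype.card α = ∑ v ∈ im, (Finset.univ.filter fun w => c w = v).card := by
    rw [← Finset.card_univ]
    exact Finset.card_eq_sum_card_image c Finset.univ
  let e : α → ℕ := fun v => if v ∈ (sing c).image c then 1 else 0
  have hlow : ∀ v ∈ im, 2 ≤ (Finset.univ.filter fun w => c w = v).card + e v := by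
    intro v hv
    rw [him, Finset.mem_image] at hv
    obtain ⟨z, -, rfl⟩ := hv
    by_cases hz : c z ∈ (sing c).image c
    · have : 0 < (Finset.univ.filter fun w => c w = c z).card :=
        Finset.card_pos.2 ⟨z, by simp⟩
      simp only [e, if_pos hz]
      omega
    · have hz' : z ∉ sing c := fun h => hz (Finset.mem_image_of_mem _ h)
      rw [mem_sing] at hz'
      rw [not_forall] at hz'
      obtain ⟨w, hw⟩ := hz'
      rw [Classical.not_imp] at hw
      have : 1 < (Finset.univ.filter fun w => c w = c z).card :=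
        Finset.one_lt_card.2 ⟨w, by simp [hw.1], z, by simp, hw.2⟩
      omega
  have hesum : ∀ t : Finset α, ∑ v ∈ t, e v ≤ (sing c).card := by
    intro t
    simp only [e]
    rw [Finset.sum_ite, Finset.sum_const_zero, add_zero, Finset.sum_const, smul_eq_mul, mul_one]
    refine le_trans (Finset.card_le_card ?_) (Finset.card_image_le (s := sing c) (f := c))
    intro v hv
    exact (Finset.mem_filter.1 hv).2
  have h1 : 2 * im.card ≤ Fintype.card α + (sing c).card := by
    have h2 : ∑ v ∈ im, 2 ≤ ∑ v ∈ im, ((Finset.univ.filter fun w => c w = v).card + e v) :=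
      Finset.sum_le_sum hlow
    rw [Finset.sum_add_distrib, ← hsum, Finset.sum_const, smul_eq_mul] at h2
    have := hesum im
    omega
  refine ⟨by omega, fun z hz => ?_⟩
  have hzim : c z ∈ im := Finset.mem_image_of_mem _ (Finset.mem_univ _)
  have h2 : ∑ v ∈ im.erase (c z), 2 ≤
      ∑ v ∈ im.erase (c z), ((Finset.univ.filter fun w => c w = v).card + e v) :=
    Finset.sum_le_sum fun v hv => hlow v (Finset.mem_of_mem_erase hv)
  rw [Finset.sum_add_distrib, Finset.sum_const, smul_eq_mul, Finset.card_erase_of_mem hzim] at h2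
  have h3 := Finset.add_sum_erase im (fun v => (Finset.univ.filter fun w => c w = v).card) hzim
  rw [← hsum] at h3
  have h4 := hesum (im.erase (c z))
  omega

/-- The colouring which forgets the individual singleton classes. -/
def col (c : α → α) (z : α) : Option α := if z ∈ sing c then none else some (c z)

/-- The elements of `G` preserving all the classes but the singleton classes. -/
def HH (G : Subgroup (Perm α)) (c : α → α) : Subgroup (Perm α) where
  carrier := {g | g ∈ G ∧ ∀ z, col c (g z) = col c z}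
  one_mem' := ⟨G.one_mem, fun _ => rfl⟩
  mul_mem' := by
    rintro g h ⟨h1, h2⟩ ⟨h3, h4⟩
    exact ⟨G.mul_mem h1 h3, fun z => by rw [Perm.mul_apply, h2, h4]⟩
  inv_mem' := by
    rintro g ⟨h1, h2⟩
    exact ⟨G.inv_mem h1, fun z => by simpa using (h2 (g⁻¹ z)).symm⟩

lemma mem_sing_of_col {g : Perm α} (hg : ∀ z, col c (g z) = col c z) {z : α} :
    g z ∈ sing c ↔ z ∈ sing c := by
  have := hg z
  unfold col at this
  split_ifs at this with h1 h2
  · exact ⟨fun _ => h2, fun _ => h1⟩
  · exact ⟨fun h => absurd h h1, fun h => absurd h (by assumption)⟩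

lemma c_of_col {g : Perm α} (hg : ∀ z, col c (g z) = col c z) {z : α} (hz : z ∉ sing c) :
    c (g z) = c z := by
  have := hg z
  unfold col at this
  rw [if_neg hz, if_neg (by rw [mem_sing_of_col c hg]; exact hz)] at this
  exact Option.some_injective _ this

include hmin hc in
lemma real_top : Real (HH G c) (sing c) ∅ = ⊤ := by
  rw [eq_top_iff, ← alternatingGroup.closure_isThreeCycles_eq_top, Subgroup.closure_le]
  intro t ht
  have ht' : Perm.IsThreeCycle (t : Perm {x // x ∈ sing c}) := ht
  obtain ⟨a, ha⟩ : (t : Perm {x // x ∈ sing c}).support.Nonempty := by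
    rw [← Finset.card_pos, ht'.card_support]
    norm_num
  have h1 := ht'.eq_swap_mul_swap_iff_mem_support.2 ha
  set b := (t : Perm {x // x ∈ sing c}) a with hb
  set d := (t : Perm {x // x ∈ sing c}) b with hd
  have hnd : [a, b, d].Nodup := ht'.nodup_iff_mem_support.2 ha
  simp only [List.nodup_cons, List.mem_cons, List.not_mem_nil, or_false, not_or,
    List.nodup_nil, and_true, not_false_eq_true] at hnd
  obtain ⟨⟨hab, had⟩, hbd⟩ := hnd
  have hab' : (a : α) ≠ b := fun e => hab (Subtype.ext e)
  have hbd' : (b : α) ≠ d := fun e => hbd (Subtype.ext e)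
  obtain ⟨h, hh, h2, h3, h4⟩ := swapXX G σ c hc hmin a.2 b.2 hab'
  obtain ⟨k, hk, k2, k3, k4⟩ := swapXX G σ c hc hmin b.2 d.2 hbd'
  -- `h` and `k` act on the singleton classes as transpositions
  have hact : ∀ x : {x // x ∈ sing c}, h x = (swap a b x : {x // x ∈ sing c}) := by
    intro x
    by_cases hxa : x = a
    · rw [hxa, h2, swap_apply_left]
    · by_cases hxb : x = b
      · rw [hxb, h3, swap_apply_right]
      · rw [swap_apply_of_ne_of_ne hxa hxb]
        exact (mem_sing.1 x.2) _ (h4 x (fun e => hxa (Subtype.ext e))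
          (fun e => hxb (Subtype.ext e)))
  have kact : ∀ x : {x // x ∈ sing c}, k x = (swap b d x : {x // x ∈ sing c}) := by
    intro x
    by_cases hxa : x = b
    · rw [hxa, k2, swap_apply_left]
    · by_cases hxb : x = d
      · rw [hxb, k3, swap_apply_right]
      · rw [swap_apply_of_ne_of_ne hxa hxb]
        exact (mem_sing.1 x.2) _ (k4 x (fun e => hxa (Subtype.ext e))
          (fun e => hxb (Subtype.ext e)))
  have hcol : ∀ z, col c (h z) = col c z := by
    intro z
    by_cases hz : z ∈ sing c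
    · have := hact ⟨z, hz⟩
      simp only at this
      unfold col
      rw [if_pos hz, this, if_pos (Subtype.prop _)]
    · have hza : z ≠ a := fun e => hz (e ▸ a.2)
      have hzb : z ≠ b := fun e => hz (e ▸ b.2)
      have e1 := h4 z hza hzb
      have e2 : h z ∉ sing c := by
        intro hh'
        have := (mem_sing.1 hh') z e1.symm
        rw [← this] at hh'
        exact hz hh'
      unfold col
      rw [if_neg hz, if_neg e2, e1]
  have kcol : ∀ z, col c (k z) = col c z := by
    intro z
    by_cases hz : z ∈ sing c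
    · have := kact ⟨z, hz⟩
      simp only at this
      unfold col
      rw [if_pos hz, this, if_pos (Subtype.prop _)]
    · have hza : z ≠ b := fun e => hz (e ▸ b.2)
      have hzb : z ≠ d := fun e => hz (e ▸ d.2)
      have e1 := k4 z hza hzb
      have e2 : k z ∉ sing c := by
        intro hh'
        have := (mem_sing.1 hh') z e1.symm
        rw [← this] at hh'
        exact hz hh'
      unfold col
      rw [if_neg hz, if_neg e2, e1]
  refine ⟨h⁻¹ * k, ⟨?_, ?_⟩, ?_, ?_⟩
  · have := G.mul_mem (G.inv_mem hh) hk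
    simpa [mul_assoc] using this
  · intro z
    rw [Perm.mul_apply]
    have := hcol (h⁻¹ (k z))
    rw [show h (h⁻¹ (k z)) = k z by simp] at this
    rw [← this, kcol]
  · intro x
    rw [Perm.mul_apply, Perm.inv_eq_iff_eq, kact, hact, h1]
    simp
  · intro z hz
    simp at hz

omit [Fintype α] in
lemma coe_swap {p : α → Prop} (a b x : {x // p x}) :
    ((swap a b x : {x // p x}) : α) = swap (a : α) b x := by
  rw [swap_apply_def, swap_apply_def]
  simp only [Subtype.ext_iff]
  split_ifs <;> rfl

omit [Fintype α] in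
lemma coe_c3 {p : α → Prop} (a b d x : {x // p x}) :
    ((c3 a b d x : {x // p x}) : α) = c3 (a : α) b d x := by
  unfold c3
  rw [Perm.mul_apply, Perm.mul_apply, coe_swap, coe_swap]

lemma c3_even {a b d : α} (hab : a ≠ b) (hbd : b ≠ d) : c3 a b d ∈ alternatingGroup α := by
  rw [Perm.mem_alternatingGroup, c3, map_mul, Perm.sign_swap hab, Perm.sign_swap hbd]
  rfl

lemma real_c3 {D : Finset α} (hR : Real (HH G c) (sing c) D = ⊤) {a b d : α}
    (ha : a ∈ sing c) (hb : b ∈ sing c) (hd : d ∈ sing c) (hab : a ≠ b) (hbd : b ≠ d) :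
    ∃ h ∈ HH G c, (∀ x ∈ sing c, h x = c3 a b d x) ∧ ∀ z ∈ D, h z = z := by
  have h1 : (⟨c3 (⟨a, ha⟩ : {x // x ∈ sing c}) ⟨b, hb⟩ ⟨d, hd⟩,
      c3_even (fun e => hab (congrArg Subtype.val e)) (fun e => hbd (congrArg Subtype.val e))⟩ :
      alternatingGroup {x // x ∈ sing c}) ∈ Real (HH G c) (sing c) D := by
    rw [hR]; trivial
  obtain ⟨h, hh, h2, h3⟩ := h1
  refine ⟨h, hh, fun x hx => ?_, h3⟩
  rw [h2 ⟨x, hx⟩, coe_c3]

/-- If the even permutations of the singleton points are realised while fixing all the other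
points, they lie in `G`. -/
lemma alt_of_real {D : Finset α} (hD : ∀ z, z ∉ sing c → z ∈ D)
    (hR : Real (HH G c) (sing c) D = ⊤) : AltOn G (sing c) := by
  intro a ha b hb d hd hab hbd had
  obtain ⟨h, hh, h1, h2⟩ := real_c3 G c hR ha hb hd hab hbd
  have : h = c3 a b d := by
    ext x
    by_cases hx : x ∈ sing c
    · exact h1 x hx
    · have n1 : x ≠ a := fun e => hx (e ▸ ha)
      have n2 : x ≠ b := fun e => hx (e ▸ hb)
      have n3 : x ≠ d := fun e => hx (e ▸ hd)
      rw [h2 x (hD x hx), c3, Perm.mul_apply, swap_apply_of_ne_of_ne n2 n3,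
        swap_apply_of_ne_of_ne n1 n2]
  rw [← this]
  exact hh.1

omit [Fintype α] in
lemma c3_pow_three {a b d : α} (hab : a ≠ b) (hbd : b ≠ d) (had : a ≠ d) : c3 a b d ^ 3 = 1 := by
  ext x
  simp only [c3, pow_succ, pow_zero, one_mul, Perm.mul_apply, swap_apply_def, Perm.one_apply]
  grind

omit [Fintype α] in
lemma c3_comm {a b p d : α} (hab : a ≠ b) (hap : a ≠ p) (had : a ≠ d) (hbp : b ≠ p) (hbd : b ≠ d)
    (hpd : p ≠ d) : c3 a b p * c3 a b d * (c3 a b p)⁻¹ * (c3 a b d)⁻¹ = swap a b * swap p d := by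
  rw [conj_c3, c3_inv]
  ext x
  simp only [c3, Perm.mul_apply, swap_apply_def]
  grind

include hmin hc in
lemma dt (hcls : ∀ z ∉ sing c, (Finset.univ.filter fun w => c w = c z).card ≤ 3)
    {a b p d : α} (ha : a ∈ sing c) (hb : b ∈ sing c) (hp : p ∈ sing c) (hd : d ∈ sing c)
    (hab : a ≠ b) (hap : a ≠ p) (had : a ≠ d) (hbp : b ≠ p) (hbd : b ≠ d) (hpd : p ≠ d) :
    swap a b * swap p d ∈ G := by
  have hR := real_top G σ c hc hmin
  obtain ⟨g, hg, g1, -⟩ := real_c3 G c hR ha hb hp hab hbp
  obtain ⟨h, hh, h1, -⟩ := real_c3 G c hR ha hb hd hab hbd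
  have hpow : ∀ (g t : Perm α), (∀ x, g x ∈ sing c ↔ x ∈ sing c) →
      (∀ x ∈ sing c, g x = t x) → ∀ n : ℕ, ∀ x ∈ sing c, (g ^ n) x = (t ^ n) x := by
    intro g t hgs hgt n
    induction n with
    | zero => intro x _; rfl
    | succ n ih =>
      intro x hx
      rw [pow_succ, pow_succ, Perm.mul_apply, Perm.mul_apply, ih _ ((hgs x).2 hx), hgt x hx]
  have hcolpow : ∀ g ∈ HH G c, ∀ n : ℕ, g ^ n ∈ HH G c := fun g hg n => (HH G c).pow_mem hg n
  have g4 : ∀ x ∈ sing c, (g ^ 4) x = c3 a b p x := by
    intro x hx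
    rw [hpow g _ (fun x => mem_sing_of_col c hg.2) g1 4 x hx, pow_succ, c3_pow_three hab hbp hap,
      one_mul]
  have h4 : ∀ x ∈ sing c, (h ^ 4) x = c3 a b d x := by
    intro x hx
    rw [hpow h _ (fun x => mem_sing_of_col c hh.2) h1 4 x hx, pow_succ, c3_pow_three hab hbd had,
      one_mul]
  have hinv : ∀ (k t : Perm α), (∀ x, k x ∈ sing c ↔ x ∈ sing c) → (∀ x, t x ∈ sing c ↔ x ∈ sing c) →
      (∀ x ∈ sing c, k x = t x) → ∀ x ∈ sing c, k⁻¹ x = t⁻¹ x := by
    intro k t hks hts hkt x hx
    rw [Perm.inv_eq_iff_eq, hkt]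
    · simp
    · rw [← hts]
      simpa using hx
  have hc3s : ∀ {u v w : α}, u ∈ sing c → v ∈ sing c → w ∈ sing c →
      ∀ x, c3 u v w x ∈ sing c ↔ x ∈ sing c := by
    intro u v w hu hv hw x
    simp only [c3, Perm.mul_apply, swap_apply_def]
    split_ifs <;> simp_all
  have key : g ^ 4 * h ^ 4 * (g ^ 4)⁻¹ * (h ^ 4)⁻¹ = swap a b * swap p d := by
    rw [← c3_comm hab hap had hbp hbd hpd]
    ext x
    by_cases hx : x ∈ sing c
    · have e1 := hinv _ _ (fun x => mem_sing_of_col c (hcolpow h hh 4).2) (hc3s ha hb hd) h4 x hx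
      have m1 : (c3 a b d)⁻¹ x ∈ sing c := by
        rw [← hc3s ha hb hd]
        simpa using hx
      have e2 := hinv _ _ (fun x => mem_sing_of_col c (hcolpow g hg 4).2) (hc3s ha hb hp) g4 _ m1
      have m2 : (c3 a b p)⁻¹ ((c3 a b d)⁻¹ x) ∈ sing c := by
        rw [← hc3s ha hb hp]
        simpa using m1
      simp only [Perm.mul_apply]
      rw [e1, e2, h4 _ m2, g4 _ ((hc3s ha hb hd _).2 m2)]
    · have hfix : (c3 a b p * c3 a b d * (c3 a b p)⁻¹ * (c3 a b d)⁻¹) x = x := by
        have n1 : x ≠ a := fun e => hx (e ▸ ha)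
        have n2 : x ≠ b := fun e => hx (e ▸ hb)
        have n3 : x ≠ p := fun e => hx (e ▸ hp)
        have n4 : x ≠ d := fun e => hx (e ▸ hd)
        rw [c3_comm hab hap had hbp hbd hpd, Perm.mul_apply, swap_apply_of_ne_of_ne n3 n4,
          swap_apply_of_ne_of_ne n1 n2]
      rw [hfix]
      -- both act on the class of `x`
      have hC : Fintype.card {w // col c w = col c x} ≤ 3 := by
        rw [Fintype.card_subtype]
        refine le_trans (Finset.card_le_card ?_) (hcls x hx)
        intro w hw
        rw [Finset.mem_filter] at hw ⊢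
        refine ⟨Finset.mem_univ _, ?_⟩
        have hw2 := hw.2
        unfold col at hw2
        rw [if_neg hx] at hw2
        split_ifs at hw2
        exact Option.some_injective _ hw2
      have hcomm := pow_four_comm hC (g.subtypePerm fun z => by rw [hg.2 z])
        (h.subtypePerm fun z => by rw [hh.2 z])
      rw [Perm.subtypePerm_pow, Perm.subtypePerm_pow] at hcomm
      have hcomm' : ∀ z, col c z = col c x → (g ^ 4) ((h ^ 4) z) = (h ^ 4) ((g ^ 4) z) := by
        intro z hz
        exact congrArg Subtype.val (Equiv.congr_fun hcomm ⟨z, hz⟩)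
      simp only [Perm.mul_apply]
      have hz1 : col c ((h ^ 4)⁻¹ x) = col c x := (hcolpow h hh 4 |> (HH G c).inv_mem).2 x
      have hz2 : col c ((g ^ 4)⁻¹ ((h ^ 4)⁻¹ x)) = col c x := by
        rw [((HH G c).inv_mem (hcolpow g hg 4)).2, hz1]
      rw [hcomm' _ hz2]
      simp
  rw [← key]
  exact G.mul_mem (G.mul_mem (G.mul_mem (hcolpow g hg 4).1 (hcolpow h hh 4).1)
    (G.inv_mem (hcolpow g hg 4).1)) (G.inv_mem (hcolpow h hh 4).1)

include hmin hc in
/-- The case of four singleton classes. -/
lemma alt_four (hcls : ∀ z ∉ sing c, (Finset.univ.filter fun w => c w = c z).card ≤ 3)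
    (h4 : (sing c).card = 4) {z₀ : α} (hz₀ : z₀ ∉ sing c) : AltOn G (sing c) := by
  intro x hx y hy x' hx' hxy hyx' hxx'
  -- the fourth point
  obtain ⟨z, hz, hzx, hzy, hzx'⟩ : ∃ z ∈ sing c, z ≠ x ∧ z ≠ y ∧ z ≠ x' := by
    have h1 : ((sing c) \ {x, y, x'}).Nonempty := by
      rw [← Finset.card_pos]
      have h2 := Finset.le_card_sdiff ({x, y, x'} : Finset α) (sing c)
      have h3 : ({x, y, x'} : Finset α).card ≤ 3 := Finset.card_le_three
      omega
    obtain ⟨z, hz⟩ := h1
    simp only [Finset.mem_sdiff, Finset.mem_insert, Finset.mem_singleton, not_or] at hz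
    exact ⟨z, hz.1, hz.2.1, hz.2.2.1, hz.2.2.2⟩
  obtain ⟨g, hg, g1, g2, g3, g4⟩ := move G σ c hc hmin hx hx' hy hz₀ hxx' hxy (Ne.symm hyx')
  have hgz : g z = z := g4 z hz hzx hzx' hzy
  set d := g x with hd
  have hds : d ∉ sing c := by
    intro h
    have := (mem_sing.1 h) z₀ g1.symm
    exact hz₀ (this ▸ h)
  have nx : d ≠ x := fun e => hds (e ▸ hx)
  have ny : d ≠ y := fun e => hds (e ▸ hy)
  have nx' : d ≠ x' := fun e => hds (e ▸ hx')
  have nz : d ≠ z := fun e => hds (e ▸ hz)
  have d1 : swap x x' * swap y z ∈ G :=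
    dt G σ c hc hmin hcls hx hx' hy hz hxx' hxy hzx.symm (Ne.symm hyx') hzx'.symm hzy.symm
  have d2 : swap x y * swap x' z ∈ G :=
    dt G σ c hc hmin hcls hx hy hx' hz hxy hxx' hzx.symm hyx' hzy.symm hzx'.symm
  -- conjugating `d1` by `g`
  have d3 : swap d y * swap x' z ∈ G := by
    have := G.mul_mem (G.mul_mem hg d1) (G.inv_mem hg)
    have e : g * (swap x x' * swap y z) * g⁻¹ = swap d y * swap x' z := by
      have e1 := swap_apply_apply g x x'
      have e2 := swap_apply_apply g y z
      rw [g2, ← hd] at e1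
      rw [g3, hgz] at e2
      rw [e1, e2]
      group
    rwa [e] at this
  have t1 : swap x y * swap d y ∈ G := by
    have := G.mul_mem d2 d3
    have e : swap x y * swap x' z * (swap d y * swap x' z) = swap x y * swap d y := by
      ext w
      simp only [Perm.mul_apply, swap_apply_def]
      grind
    rwa [e] at this
  have t2 : swap x' z * swap d z ∈ G := by
    have := G.mul_mem (G.mul_mem d1 t1) (G.inv_mem d1)
    have e : swap x x' * swap y z * (swap x y * swap d y) * (swap x x' * swap y z)⁻¹ =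
        swap x' z * swap d z := by
      rw [mul_inv_rev, swap_inv, swap_inv]
      ext w
      simp only [Perm.mul_apply, swap_apply_def]
      grind
    rwa [e] at this
  have t3 := G.mul_mem (G.mul_mem t2 t1) (G.inv_mem t2)
  have e : swap x' z * swap d z * (swap x y * swap d y) * (swap x' z * swap d z)⁻¹ =
      c3 x y x' := by
    rw [mul_inv_rev, swap_inv, swap_inv]
    ext w
    simp only [c3, Perm.mul_apply, swap_apply_def]
    grind
  rwa [e] at t3

include hmin hc in
lemma alt_sing (hN : Fintype.card α + 3 ≤ 2 * (Finset.univ.image c).card) :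
    AltOn G (sing c) := by
  classical
  obtain ⟨h3, hcls⟩ := count c hN
  have hR := real_top G σ c hc hmin
  by_cases hall : ∀ z, z ∈ sing c
  · exact alt_of_real G c (D := ∅) (fun z hz => absurd (hall z) hz) hR
  rw [not_forall] at hall
  obtain ⟨z₀, hz₀⟩ := hall
  by_cases h4 : (sing c).card = 4
  · exact alt_four G σ c hc hmin (fun z hz => by have := hcls z hz; omega) h4 hz₀
  have hsimple : IsSimpleGroup (alternatingGroup {x // x ∈ sing c}) := by
    by_cases h5 : 5 ≤ (sing c).card
    · exact alternatingGroup.isSimpleGroup (by simpa using h5)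
    · have h3' : (sing c).card = 3 := by omega
      have hnt : Nontrivial {x // x ∈ sing c} := by
        rw [← Fintype.one_lt_card_iff_nontrivial]
        simp only [Fintype.card_coe]
        omega
      have : Fact (Nat.Prime 3) := ⟨Nat.prime_three⟩
      refine isSimpleGroup_of_prime_card (p := 3) ?_
      have h2 := two_mul_nat_card_alternatingGroup (α := {x // x ∈ sing c})
      rw [Nat.card_perm, show Nat.card {x // x ∈ sing c} = 3 by simpa using h3'] at h2
      have : Nat.factorial 3 = 6 := rfl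
      omega
  have := chain (HH G c) (sing c) h3 (col c) (fun h hh z => hh.2 z) hR
    ((Finset.univ.filter fun z => z ∉ sing c).image (col c)) (by
      intro v hv
      rw [Finset.mem_image] at hv
      obtain ⟨z, hz, rfl⟩ := hv
      rw [Finset.mem_filter] at hz
      have h5 := hcls z hz.2
      refine lt_of_le_of_lt (Finset.card_le_card ?_) h5
      intro w hw
      rw [Finset.mem_filter] at hw ⊢
      refine ⟨Finset.mem_univ _, ?_⟩
      have hw2 := hw.2
      unfold col at hw2
      rw [if_neg hz.2] at hw2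
      split_ifs at hw2
      exact Option.some_injective _ hw2)
  refine alt_of_real G c (fun z hz => ?_) this
  rw [Finset.mem_filter]
  exact ⟨Finset.mem_univ _, Finset.mem_image_of_mem _ (by simp [hz])⟩

include hmin hc in
/-- The large set on which `G` contains the alternating group. -/
lemma exists_big (hN : Fintype.card α + 3 ≤ 2 * (Finset.univ.image c).card) :
    ∃ B : Finset α, (Finset.univ.image c).card ≤ B.card ∧ AltOn G B ∧
      ∀ g ∈ G, ∀ x ∈ B, g x ∈ B := by
  classical
  obtain ⟨h3, -⟩ := count c hN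
  -- a maximal set
  let S : Finset (Finset α) := Finset.univ.filter fun B => sing c ⊆ B ∧ AltOn G B
  have hS : S.Nonempty := ⟨sing c, by simp [S, alt_sing G σ c hc hmin hN]⟩
  obtain ⟨B, hBS, hBmax⟩ := S.exists_max_image Finset.card hS
  have hB1 : sing c ⊆ B := (Finset.mem_filter.1 hBS).2.1
  have hB2 : AltOn G B := (Finset.mem_filter.1 hBS).2.2
  have hno : ∀ d u v : α, d ∉ B → u ∈ B → v ∈ B → u ≠ v → c3 d u v ∉ G := by
    intro d u v hd hu hv huv h
    have h1 : insert d B ∈ S := by
      simp only [S, Finset.mem_filter, Finset.mem_univ, true_and]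
      exact ⟨hB1.trans (Finset.subset_insert _ _), hB2.extend hd hu hv huv h⟩
    have h2 := hBmax _ h1
    rw [Finset.card_insert_of_notMem hd] at h2
    omega
  have hmeet : ∀ v ∈ Finset.univ.image c, v ∈ B.image c := by
    intro v hv
    rw [Finset.mem_image] at hv
    obtain ⟨z₀, -, rfl⟩ := hv
    by_cases hz₀ : z₀ ∈ sing c
    · exact Finset.mem_image_of_mem _ (hB1 hz₀)
    by_contra hcon
    obtain ⟨x, hx, x', hx', y', hy', h12, h13, h23⟩ := Finset.two_lt_card.1 h3
    obtain ⟨g, hg, g1, g2, g3, -⟩ := move G σ c hc hmin hx hx' hy' hz₀ h12 h13 h23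
    have hgB : g x ∉ B := by
      intro h
      exact hcon (g1 ▸ Finset.mem_image_of_mem _ h)
    refine hno (g x) y' x' hgB (hB1 hy') (hB1 hx') h23.symm ?_
    have := G.mul_mem (G.mul_mem hg (hB2 x (hB1 hx) x' (hB1 hx') y' (hB1 hy') h12 h23 h13))
      (G.inv_mem hg)
    rwa [conj_c3, g2, g3] at this
  have hcard : (Finset.univ.image c).card ≤ B.card :=
    le_trans (Finset.card_le_card hmeet) Finset.card_image_le
  refine ⟨B, hcard, hB2, fun g hg x hx => ?_⟩
  by_contra hgx
  -- the image of `B` meets `B` in at least two points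
  have h1 : (B.image g).card = B.card := Finset.card_image_of_injective _ g.injective
  have h2 : 1 < (B ∩ B.image g).card := by
    have := Finset.card_union_add_card_inter B (B.image g)
    have h3 : (B ∪ B.image g).card ≤ Fintype.card α := Finset.card_le_univ _
    omega
  obtain ⟨u, hu, v, hv, huv⟩ := Finset.one_lt_card.1 h2
  rw [Finset.mem_inter] at hu hv
  have h3 := hB2.conj hg
  have h4 : g x ∈ B.image g := Finset.mem_image_of_mem _ hx
  exact hno (g x) u v hgx hu.1 hv.1 huv (h3 (g x) h4 u hu.2 v hv.2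
    (fun e => hgx (e ▸ hu.1)) huv (fun e => hgx (e ▸ hv.1)))

end Core

/-- **Core theorem.** Let `σ ∉ G` be such that every colouring of the `n < 2 k` points with at most
`k` colours is preserved by an element of `σ G`. Then `G` preserves a set `B` of more than `k`
points and contains all even permutations of `B`. -/
theorem core {α : Type*} [Fintype α] [DecidableEq α] (G : Subgroup (Perm α)) (σ : Perm α)
    (hσ : σ ∉ G) (k : ℕ) (hk : Fintype.card α < 2 * k)
    (h : ∀ c : α → α, (Finset.univ.image c).card ≤ k →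
      ∃ y, σ⁻¹ * y ∈ G ∧ ∀ x, c (y x) = c x) :
    ∃ B : Finset α, k < B.card ∧ AltOn G B ∧ ∀ g ∈ G, ∀ x ∈ B, g x ∈ B := by
  classical
  have hex : ∃ N, ∃ c : α → α, (Finset.univ.image c).card = N ∧
      ∀ y, σ⁻¹ * y ∈ G → ¬ ∀ x, c (y x) = c x := by
    refine ⟨_, id, rfl, fun y hy hid => hσ ?_⟩
    have : y = 1 := by
      ext x
      exact hid x
    rw [this, mul_one] at hy
    simpa using G.inv_mem hy
  obtain ⟨c, hcN, hc⟩ := Nat.find_spec hex
  have hmin : ∀ c' : α → α, (Finset.univ.image c').card < (Finset.univ.image c).card →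
      ∃ y, σ⁻¹ * y ∈ G ∧ ∀ x, c' (y x) = c' x := by
    intro c' hc'
    rw [hcN] at hc'
    have := Nat.find_min hex hc'
    by_contra hcon
    rw [not_exists] at hcon
    exact this ⟨c', rfl, fun y hy hall => hcon y ⟨hy, hall⟩⟩
  have hNk : k < (Finset.univ.image c).card := by
    by_contra hcon
    rw [not_lt] at hcon
    obtain ⟨y, hy, hyc⟩ := h c hcon
    exact hc y hy hyc
  obtain ⟨B, h1, h2, h3⟩ := exists_big G σ c hc hmin (by omega)
  exact ⟨B, by omega, h2, h3⟩

end Pool.Agent.X252.GC
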