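import Pool.Agent.X252.GC
import Pool.Agent.X279.NK.Two

/-!
# Finite groups of units of the ring of noncommutative correspondences
-/

set_option autoImplicit false

open CategoryTheory MonoidalCategory

namespace Pool.Agent.X252.GCN

open Pool.Agent.Y112.SR Pool.Agent.X279.NK Pool.Agent.X252.GC Pool.Agent.X310.Mu

universe v u w

section

variable {C : Type u} [Category.{v} C] [Preadditive C] [MonoidalCategory C] [SymmetricCategory C]
  {K : Type w} [Field K] (R : SuperRealisation C K)

/-- The action of a group of units of `K₀(A^op ⊗ A)` on the realisation. -/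
def gAct {A : C} {G : Type} [Group G] (u : G →* End A) : G →* Module.End K (R.H.obj A) :=
  (actOn R A).toMonoidHom.comp u

/-- The operator on the realisation is algebraic: a positive multiple is the operator of an element
of `K₀(A^op ⊗ A)`. -/
def algOps (A : C) : Set (Module.End K (R.H.obj A)) :=
  {φ | ∃ m : ℕ, m ≠ 0 ∧ ∃ x : End A, actOn R A x = (m : K) • φ}

/-- The even projector of `A` is algebraic. -/
def EvenAlg (A : C) : Prop := evenProj (parity R A) ∈ algOps R A

/-- The even projector of the part of `A` fixed by `H` is algebraic: the product of the sum of the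
elements of `H` and the even projector is an algebraic operator. -/
def FixedEvenAlg {A : C} {G : Type} [Group G] (u : G →* End A) (H : Subgroup G) : Prop :=
  (∑ᶠ h : H, gAct R u h.1) * evenProj (parity R A) ∈ algOps R A

theorem isRatAlg [CharZero K] (A : C) : IsRatAlg (algOps R A) where
  zero := ⟨1, one_ne_zero, 0, by rw [map_zero, smul_zero]⟩
  add := by
    rintro φ ψ ⟨m, hm, x, hx⟩ ⟨n, hn, y, hy⟩
    refine ⟨m * n, mul_ne_zero hm hn, n • x + m • y, ?_⟩
    rw [map_add, map_nsmul, map_nsmul, hx, hy, smul_add, Nat.cast_mul, ← Nat.cast_smul_eq_nsmul K,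
      ← Nat.cast_smul_eq_nsmul K, smul_smul, smul_smul, mul_comm (n : K)]
  smul := by
    rintro q φ ⟨m, hm, x, hx⟩
    refine ⟨m * q.den, mul_ne_zero hm q.den_ne_zero, q.num • x, ?_⟩
    rw [map_zsmul, hx, ← Int.cast_smul_eq_zsmul K, smul_smul, smul_smul]
    congr 1
    have h1 : (q : K) * (q.den : K) = (q.num : K) := by
      have := Rat.mul_den_eq_num q
      exact_mod_cast congrArg (Rat.cast : ℚ → K) this
    push_cast
    rw [← h1]
    ring
  mul := by
    rintro φ ψ ⟨m, hm, x, hx⟩ ⟨n, hn, y, hy⟩
    refine ⟨m * n, mul_ne_zero hm hn, x * y, ?_⟩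
    rw [map_mul, hx, hy, smul_mul_smul_comm, Nat.cast_mul]

theorem gAct_mem {A : C} {G : Type} [Group G] (u : G →* End A) (g : G) :
    gAct R u g ∈ algOps R A :=
  ⟨1, one_ne_zero, u g, by rw [Nat.cast_one, one_smul]; rfl⟩

theorem actOn_comm (A : C) (x : End A) :
    actOn R A x * evenProj (parity R A) = evenProj (parity R A) * actOn R A x := by
  have h := congrArg ModuleCat.Hom.hom (R.par_natural x)
  have h1 : parity R A * actOn R A x = actOn R A x * parity R A := h
  rw [evenProj, mul_smul_comm, smul_mul_assoc, mul_add, add_mul, mul_one, one_mul, h1]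

theorem range_even [CharZero K] (A : C) :
    LinearMap.range (evenProj (parity R A)) = evenPart (parity R A) := by
  ext x
  rw [mem_evenPart]
  have hsq := parity_sq R A
  constructor
  · rintro ⟨y, rfl⟩
    rw [evenProj, LinearMap.smul_apply, map_smul, LinearMap.add_apply, Module.End.one_apply,
      map_add]
    have h1 : parity R A (parity R A y) = y := by
      rw [← Module.End.mul_apply, hsq, Module.End.one_apply]
    rw [h1, add_comm]
  · intro hx
    refine ⟨x, ?_⟩
    rw [evenProj, LinearMap.smul_apply, LinearMap.add_apply, Module.End.one_apply, hx, ← two_smul K,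
      smul_smul, inv_mul_cancel₀ two_ne_zero, one_smul]

theorem ker_even [CharZero K] (A : C) :
    LinearMap.ker (evenProj (parity R A)) = oddPart (parity R A) := by
  ext x
  rw [mem_oddPart, LinearMap.mem_ker, evenProj, LinearMap.smul_apply, LinearMap.add_apply,
    Module.End.one_apply, smul_eq_zero, or_iff_right (inv_ne_zero two_ne_zero)]
  constructor
  · intro h
    exact eq_neg_of_add_eq_zero_right h
  · intro h
    rw [h, add_neg_cancel]

theorem even_idem [CharZero K] (A : C) :
    evenProj (parity R A) * evenProj (parity R A) = evenProj (parity R A) :=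
  evenProj_idem (parity_sq R A)

/-- **Finite groups of units and the even projector.** -/
theorem nc_main [CharZero K] {A : C} {G : Type} [Group G] [Finite G] (u : G →* End A) :
    (NoCommonRep (gAct R u) (evenPart (parity R A)) (oddPart (parity R A)) → EvenAlg R A) ∧
    (∀ (H : Subgroup G) (ι : Type) (D : ι → Subgroup G),
      DominatedRep (gAct R u) (evenPart (parity R A)) (oddPart (parity R A)) H D →
      (∀ j, FixedEvenAlg R u (D j)) → FixedEvenAlg R u H) ∧
    (∀ c : G, c * c = 1 → (EvenAlg R A ↔
      FixedEvenAlg R u (Subgroup.zpowers c) ∧ FixedEvenAlg R u (comms c))) ∧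
    (∀ c : G, InSimple c → c ≠ 1 → c * c = 1 →
      (EvenAlg R A ↔ FixedEvenAlg R u (Subgroup.zpowers c))) ∧
    (∀ (ι : Type) (D : ι → Subgroup G) (S : Subgroup G), Partitions S D →
      (EvenAlg R A ↔ ∀ j, FixedEvenAlg R u (D j))) ∧
    (¬ EvenAlg R A → (∀ P : Subgroup G, (Nat.card P).Prime → FixedEvenAlg R u P) →
      CommonFreeRep (gAct R u) (evenPart (parity R A)) (oddPart (parity R A)) ∧
        CyclicSubgroups G) := by
  have : Fintype G := Fintype.ofFinite G
  have h := GC.main (isRatAlg R A) (fun g => gAct_mem R u g) (act := gAct R u)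
    (π := evenProj (parity R A)) (fun g => actOn_comm R A (u g)) (even_idem R A)
  rw [range_even, ker_even] at h
  exact h

end

end Pool.Agent.X252.GCN
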