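import Pool.Agent.X252.GC

/-!
# Finite groups of operators and a projector commuting with them, with coefficients
-/

set_option autoImplicit false

open Finset Pool.Agent.X328.PB Pool.Agent.X310.Mu

universe v

namespace Pool.Agent.X252.GK

open Pool.Agent.X252.GA Pool.Agent.X252.GC

/-- The only subspaces of the representation `ρ` which are stable under the group are `0` and the
whole space. -/
def IrredK {K : Type v} [Field K] {G : Type} {S : Type v} [Group G] [AddCommGroup S] [Module K S]
    (ρ : G →* Module.End K S) : Prop :=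
  ∀ U : Submodule K S, (∀ g, ∀ u ∈ U, ρ g u ∈ U) → U = ⊥ ∨ U = ⊤

/-- There is a nonzero equivariant linear map from the representation to the subspace `U`. -/
def OccursK {K V : Type v} [Field K] [AddCommGroup V] [Module K V] {G : Type} [Group G]
    (act : G →* Module.End K V) (U : Submodule K V) {S : Type v} [AddCommGroup S] [Module K S]
    (ρ : G →* Module.End K S) : Prop :=
  ∃ f : S →ₗ[K] V, (∀ s, f s ∈ U) ∧ (∀ g s, f (ρ g s) = act g (f s)) ∧ ∃ s, f s ≠ 0

/-- No irreducible `K`-linear representation occurs in both subspaces. -/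
def NoCommonK {K V : Type v} [Field K] [AddCommGroup V] [Module K V] {G : Type} [Group G]
    (act : G →* Module.End K V) (U U' : Submodule K V) : Prop :=
  ∀ (S : Type v) [AddCommGroup S] [Module K S] (ρ : G →* Module.End K S), IrredK ρ →
    OccursK act U ρ → ¬ OccursK act U' ρ

/-- Every irreducible `K`-linear representation which occurs in both subspaces and has a nonzero
vector fixed by `H` has for some `i` a nonzero vector fixed by `D i`. -/
def DominatedK {K V : Type v} [Field K] [AddCommGroup V] [Module K V] {G : Type} [Group G]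
    (act : G →* Module.End K V) (U U' : Submodule K V) {ι : Type} (H : Subgroup G)
    (D : ι → Subgroup G) : Prop :=
  ∀ (S : Type v) [AddCommGroup S] [Module K S] (ρ : G →* Module.End K S), IrredK ρ →
    OccursK act U ρ → OccursK act U' ρ →
    (∃ v : S, v ≠ 0 ∧ ∀ h ∈ H, ρ h v = v) → ∃ i, ∃ v : S, v ≠ 0 ∧ ∀ d ∈ D i, ρ d v = v

/-- Some irreducible nonzero `K`-linear representation occurs in both subspaces, and the elements
of the group different from one fix only `0` in it. -/
def CommonFreeK {K V : Type v} [Field K] [AddCommGroup V] [Module K V] {G : Type} [Group G]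
    (act : G →* Module.End K V) (U U' : Submodule K V) : Prop :=
  ∃ (S : Type v) (_ : AddCommGroup S) (_ : Module K S) (ρ : G →* Module.End K S), IrredK ρ ∧
    OccursK act U ρ ∧ OccursK act U' ρ ∧ (∃ v : S, v ≠ 0) ∧
    ∀ g : G, g ≠ 1 → ∀ v : S, ρ g v = v → v = 0

section
variable {K : Type v} [Field K] [CharZero K] {G : Type} [Group G] [Fintype G]

open Classical in
variable (K) in
/-- The sum of the elements of a subgroup. -/
noncomputable def nK (H : Subgroup G) : MonoidAlgebra K G :=
  ∑ g : G with g ∈ H, MonoidAlgebra.single g (1 : K)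

/-- The representation on a module over the group ring. -/
noncomputable def repK (M : Type v) [AddCommGroup M] [Module (MonoidAlgebra K G) M] [Module K M]
    [IsScalarTower K (MonoidAlgebra K G) M] : G →* Module.End K M where
  toFun g := Algebra.lsmul K K M (MonoidAlgebra.single g (1 : K) : MonoidAlgebra K G)
  map_one' := by
    ext m
    change (MonoidAlgebra.single (1 : G) (1 : K) : MonoidAlgebra K G) • m = m
    rw [← MonoidAlgebra.one_def, one_smul]
  map_mul' g h := by
    ext m
    change (MonoidAlgebra.single (g * h) (1 : K) : MonoidAlgebra K G) • m =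
      (MonoidAlgebra.single g (1 : K) : MonoidAlgebra K G) •
        ((MonoidAlgebra.single h (1 : K) : MonoidAlgebra K G) • m)
    rw [smul_smul, MonoidAlgebra.single_mul_single, one_mul]

section
variable {M : Type v} [AddCommGroup M] [Module (MonoidAlgebra K G) M] [Module K M]
    [IsScalarTower K (MonoidAlgebra K G) M]

lemma repK_apply (g : G) (m : M) :
    repK (K := K) (G := G) M g m = (MonoidAlgebra.single g (1 : K) : MonoidAlgebra K G) • m := rfl

lemma stable_smulK {U : Submodule K M} (hU : ∀ g : G, ∀ u ∈ U, repK (K := K) (G := G) M g u ∈ U)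
    (x : MonoidAlgebra K G) {u : M} (hu : u ∈ U) : x • u ∈ U := by
  induction x using MonoidAlgebra.induction_linear with
  | zero => rw [zero_smul]; exact U.zero_mem
  | add f g hf hg => rw [add_smul]; exact U.add_mem hf hg
  | single g r =>
    have h1 : (MonoidAlgebra.single g r : MonoidAlgebra K G) =
        r • MonoidAlgebra.single g (1 : K) := by
      rw [MonoidAlgebra.smul_single, smul_eq_mul, mul_one]
    rw [h1, smul_assoc]
    exact U.smul_mem r (hU g u hu)

lemma irredK_of_simple [IsSimpleModule (MonoidAlgebra K G) M] :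
    IrredK (repK (K := K) (G := G) M) := by
  intro U hU
  let U' : Submodule (MonoidAlgebra K G) M :=
    { carrier := U
      add_mem' := fun ha hb => U.add_mem ha hb
      zero_mem' := U.zero_mem
      smul_mem' := fun x _ hu => stable_smulK hU x hu }
  rcases eq_bot_or_eq_top U' with h | h
  · left
    rw [Submodule.eq_bot_iff]
    intro x hx
    exact (Submodule.eq_bot_iff U').1 h x hx
  · right
    rw [Submodule.eq_top_iff']
    intro x
    exact (Submodule.eq_top_iff'.1 h x : x ∈ U')

lemma nK_smul_fixed (D : Subgroup G) {m : M} (hv : ∀ d ∈ D, repK (K := K) M d m = m)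
    (h0 : nK K D • m = 0) : m = 0 := by
  classical
  have hv' : ∀ d ∈ D, (MonoidAlgebra.single d (1 : K) : MonoidAlgebra K G) • m = m := hv
  unfold nK at h0
  rw [Finset.sum_smul, Finset.sum_congr rfl (g := fun _ => m) (fun d hd => hv' d (by simpa using hd)),
    Finset.sum_const, ← Nat.cast_smul_eq_nsmul K] at h0
  rcases smul_eq_zero.1 h0 with h | h
  · exfalso
    have h1 : (Finset.univ.filter fun g : G => g ∈ D).card = 0 := by exact_mod_cast h
    rw [Finset.card_eq_zero] at h1
    have h2 : (1 : G) ∈ Finset.univ.filter (fun g : G => g ∈ D) := by simp [D.one_mem]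
    rw [h1] at h2
    simp at h2
  · exact h

end

lemma single_mul_nK {H : Subgroup G} {g : G} (hg : g ∈ H) :
    (MonoidAlgebra.single g (1 : K) : MonoidAlgebra K G) * nK K H = nK K H := by
  classical
  unfold nK
  rw [Finset.mul_sum]
  refine Finset.sum_bij' (fun h _ => g * h) (fun h _ => g⁻¹ * h) ?_ ?_ ?_ ?_ ?_
  · intro h hh
    simp only [Finset.mem_filter, Finset.mem_univ, true_and] at hh ⊢
    exact H.mul_mem hg hh
  · intro h hh
    simp only [Finset.mem_filter, Finset.mem_univ, true_and] at hh ⊢
    exact H.mul_mem (H.inv_mem hg) hh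
  · intro h _; simp
  · intro h _; simp
  · intro h _
    rw [MonoidAlgebra.single_mul_single, one_mul]

lemma nK_bot : nK K (⊥ : Subgroup G) = 1 := by
  classical
  unfold nK
  have : (Finset.univ.filter fun g : G => g ∈ (⊥ : Subgroup G)) = {1} := by
    ext g
    simp [Subgroup.mem_bot]
  rw [this, Finset.sum_singleton, MonoidAlgebra.one_def]

end

/-- A simple submodule on which an element does not vanish. -/
theorem exists_simpleK {A : Type v} [Ring A] [IsSemisimpleRing A] (I : Ideal A) {e : A}
    (hH : e ∉ I) : ∃ S : Submodule A (A ⧸ I), IsSimpleModule A S ∧ ∃ s ∈ S, e • s ≠ 0 := by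
  by_contra hcon
  push Not at hcon
  apply hH
  have htop : (Submodule.Quotient.mk 1 : A ⧸ I) ∈
      sSup {S : Submodule A (A ⧸ I) | IsSimpleModule A S} := by
    rw [IsSemisimpleModule.sSup_simples_eq_top]
    trivial
  have hz : ∀ m ∈ sSup {S : Submodule A (A ⧸ I) | IsSimpleModule A S}, e • m = 0 := by
    intro m hm
    rw [sSup_eq_iSup'] at hm
    refine Submodule.iSup_induction _ (motive := fun m => e • m = 0) hm ?_ ?_ ?_
    · rintro ⟨S, hS⟩ x hx
      exact hcon S hS x hx
    · exact smul_zero _
    · intro x y hx hy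
      rw [smul_add, hx, hy, add_zero]
  have h1 := hz _ htop
  rw [← Submodule.Quotient.mk_smul, smul_eq_mul, mul_one, Submodule.Quotient.mk_eq_zero] at h1
  exact h1

/-- **Simple subquotients and annihilators.** -/
theorem exists_homK {A : Type v} [Ring A] [IsSemisimpleRing A] (I : Ideal A)
    (hI : ∀ x ∈ I, ∀ y, x * y ∈ I) (S : Submodule A (A ⧸ I)) [hS : IsSimpleModule A S]
    {N : Type*} [AddCommGroup N] [Module A N] (U : Set N)
    (hann : ∀ x : A, (∀ n ∈ U, x • n = 0) → x ∈ I) :
    ∃ n ∈ U, ∃ f : S →ₗ[A] N, (∀ s, ∃ x : A, f s = x • n) ∧ ∃ s, f s ≠ 0 := by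
  have hnt := IsSimpleModule.nontrivial A S
  obtain ⟨s0, hs0⟩ := exists_ne (0 : S)
  let φ : A →ₗ[A] S := LinearMap.toSpanSingleton A S s0
  have hφ : Function.Surjective φ := by
    have h1 : LinearMap.range φ = ⊤ := by
      rcases eq_bot_or_eq_top (LinearMap.range φ) with h | h
      · exfalso
        apply hs0
        have h2 : φ 1 ∈ LinearMap.range φ := ⟨1, rfl⟩
        rw [h, Submodule.mem_bot] at h2
        simpa [φ] using h2
      · exact h
    exact LinearMap.range_eq_top.1 h1
  obtain ⟨L, hL⟩ := exists_isCompl (LinearMap.ker φ)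
  have hinj : Function.Injective (φ.domRestrict L) := by
    rw [← LinearMap.ker_eq_bot, LinearMap.ker_eq_bot']
    rintro ⟨l, hl⟩ h
    have h2 : l ∈ LinearMap.ker φ ⊓ L := ⟨h, hl⟩
    rw [hL.inf_eq_bot, Submodule.mem_bot] at h2
    exact Subtype.ext h2
  have hsurj : Function.Surjective (φ.domRestrict L) := by
    intro s
    obtain ⟨x, rfl⟩ := hφ s
    have h2 : x ∈ LinearMap.ker φ ⊔ L := by rw [hL.sup_eq_top]; trivial
    obtain ⟨y, hy, z, hz, rfl⟩ := Submodule.mem_sup.1 h2
    refine ⟨⟨z, hz⟩, ?_⟩
    change φ z = φ (y + z)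
    rw [map_add, LinearMap.mem_ker.1 hy, zero_add]
  let e : L ≃ₗ[A] S := LinearEquiv.ofBijective _ ⟨hinj, hsurj⟩
  have hex : ∃ l ∈ L, ∃ n ∈ U, l • n ≠ 0 := by
    by_contra hcon
    push Not at hcon
    obtain ⟨l, hl⟩ := e.surjective s0
    apply hs0
    rw [← hl]
    change φ l.1 = 0
    obtain ⟨b, hb⟩ := Submodule.Quotient.mk_surjective I s0.1
    apply Subtype.ext
    change l.1 • s0.1 = 0
    rw [← hb, ← Submodule.Quotient.mk_smul, smul_eq_mul, Submodule.Quotient.mk_eq_zero]
    exact hI _ (hann _ (hcon l.1 l.2)) b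
  obtain ⟨l, hl, n, hn, hln⟩ := hex
  refine ⟨n, hn, (LinearMap.toSpanSingleton A N n).comp
    (L.subtype.comp e.symm.toLinearMap), fun s => ⟨(e.symm s).1, rfl⟩, e ⟨l, hl⟩, ?_⟩
  change (e.symm (e ⟨l, hl⟩)).1 • n ≠ 0
  rw [LinearEquiv.symm_apply_apply]
  exact hln

section
variable {K V : Type v} [Field K] [CharZero K] [AddCommGroup V] [Module K V]
variable {Q : Submodule K (Module.End K V)} {G : Type} [Group G] [Fintype G]

/-- The group ring acts. -/
noncomputable def thetaK (act : G →* Module.End K V) : MonoidAlgebra K G →ₐ[K] Module.End K V :=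
  MonoidAlgebra.lift K (Module.End K V) G act

variable {act : G →* Module.End K V} {π : Module.End K V}

lemma thetaK_single (g : G) (q : K) :
    thetaK act (MonoidAlgebra.single g q) = q • act g := MonoidAlgebra.lift_single _ _ _

lemma thetaK_mem (hact : ∀ g, act g ∈ Q) (x : MonoidAlgebra K G) : thetaK act x ∈ Q := by
  induction x using MonoidAlgebra.induction_linear with
  | zero => rw [map_zero]; exact Q.zero_mem
  | add f g hf hg => rw [map_add]; exact Q.add_mem hf hg
  | single g r =>
    rw [thetaK_single]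
    exact Q.smul_mem r (hact g)

lemma thetaK_comm (hπ : ∀ g, act g * π = π * act g) (x : MonoidAlgebra K G) :
    thetaK act x * π = π * thetaK act x := by
  induction x using MonoidAlgebra.induction_linear with
  | zero => rw [map_zero, zero_mul, mul_zero]
  | add f g hf hg => rw [map_add, add_mul, mul_add, hf, hg]
  | single g r => rw [thetaK_single, smul_mul_assoc, mul_smul_comm, hπ]

lemma thetaK_stable (U : Submodule K V) (hU : ∀ g, ∀ u ∈ U, act g u ∈ U)
    (x : MonoidAlgebra K G) {u : V} (hu : u ∈ U) : thetaK act x u ∈ U := by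
  induction x using MonoidAlgebra.induction_linear with
  | zero => rw [map_zero, LinearMap.zero_apply]; exact Submodule.zero_mem _
  | add f g hf hg => rw [map_add, LinearMap.add_apply]; exact Submodule.add_mem _ hf hg
  | single g r =>
    rw [thetaK_single, LinearMap.smul_apply]
    exact Submodule.smul_mem _ _ (hU g u hu)

/-- The elements of the group ring whose product with the projector is in `Q`. -/
noncomputable def idlK (hmul : ∀ x ∈ Q, ∀ y ∈ Q, x * y ∈ Q) (hact : ∀ g, act g ∈ Q)
    (π : Module.End K V) : Ideal (MonoidAlgebra K G) where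
  carrier := {x | thetaK act x * π ∈ Q}
  add_mem' := by
    intro x y hx hy
    rw [Set.mem_ofPred_eq, map_add, add_mul]
    exact Q.add_mem hx hy
  zero_mem' := by
    rw [Set.mem_ofPred_eq, map_zero, zero_mul]
    exact Q.zero_mem
  smul_mem' := by
    intro c x hx
    rw [Set.mem_ofPred_eq, smul_eq_mul, map_mul, mul_assoc]
    exact hmul _ (thetaK_mem hact c) _ hx

lemma mem_idlK (hmul : ∀ x ∈ Q, ∀ y ∈ Q, x * y ∈ Q) (hact : ∀ g, act g ∈ Q)
    {x : MonoidAlgebra K G} : x ∈ idlK hmul hact π ↔ thetaK act x * π ∈ Q := Iff.rfl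

lemma thetaK_nK (H : Subgroup G) : thetaK act (nK K H) = ∑ᶠ h : H, act h.1 := by
  classical
  unfold nK
  rw [map_sum, finsum_eq_sum_of_fintype]
  refine Finset.sum_bij' (fun g hg => ⟨g, by simpa using hg⟩) (fun h _ => h.1)
    ?_ ?_ ?_ ?_ ?_
  · intro g hg; simp
  · intro h _; simp
  · intro g hg; simp
  · intro h _; simp
  · intro g hg
    rw [thetaK_single, one_smul]

lemma occursK_of_ann (U : Submodule K V) (hU : ∀ g, ∀ u ∈ U, act g u ∈ U)
    (I : Ideal (MonoidAlgebra K G)) (hI : ∀ x ∈ I, ∀ y, x * y ∈ I)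
    (hann : ∀ x : MonoidAlgebra K G, (∀ n ∈ U, thetaK act x n = 0) → x ∈ I)
    (S : Submodule (MonoidAlgebra K G) (MonoidAlgebra K G ⧸ I))
    (hS : IsSimpleModule (MonoidAlgebra K G) S) : OccursK act U (repK (K := K) (G := G) S) := by
  have : NeZero (Nat.card G : K) := ⟨by exact_mod_cast Nat.card_pos.ne'⟩
  have hss : IsSemisimpleRing (MonoidAlgebra K G) := inferInstance
  let _ : Module (MonoidAlgebra K G) V := Module.compHom V (thetaK act).toRingHom
  have hsm : ∀ (x : MonoidAlgebra K G) (n : V), x • n = thetaK act x n := fun _ _ => rfl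
  have htow : ∀ (c : K) (s : S), c • s = (MonoidAlgebra.single 1 c : MonoidAlgebra K G) • s := by
    intro c s
    have h1 : (MonoidAlgebra.single 1 c : MonoidAlgebra K G) = c • 1 := by
      rw [MonoidAlgebra.one_def, MonoidAlgebra.smul_single, smul_eq_mul, mul_one]
    rw [h1, smul_assoc, one_smul]
  obtain ⟨n, hn, f, hf, s, hs⟩ := exists_homK I hI S (U : Set V) hann
  refine ⟨{ toFun := f, map_add' := map_add f, map_smul' := fun c s => ?_ }, ?_, ?_, s, hs⟩
  · rw [htow, map_smul, hsm, thetaK_single, map_one, RingHom.id_apply]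
    rfl
  · intro v
    obtain ⟨x, hx⟩ := hf v
    change f v ∈ _
    rw [hx, hsm]
    exact thetaK_stable U hU x hn
  · intro g v
    change f (repK S g v) = act g (f v)
    rw [repK_apply, map_smul, hsm, thetaK_single, one_smul]

/-- **Finite groups of operators and a projector**, with coefficients. -/
theorem mainK (hmul : ∀ x ∈ Q, ∀ y ∈ Q, x * y ∈ Q) (hact : ∀ g, act g ∈ Q)
    (hπ : ∀ g, act g * π = π * act g) (hππ : π * π = π) :
    (NoCommonK act (LinearMap.range π) (LinearMap.ker π) → π ∈ Q) ∧
    (∀ (H : Subgroup G) (ι : Type) (D : ι → Subgroup G),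
      DominatedK act (LinearMap.range π) (LinearMap.ker π) H D →
      (∀ j, (∑ᶠ h : D j, act h.1) * π ∈ Q) → (∑ᶠ h : H, act h.1) * π ∈ Q) ∧
    (π ∉ Q → (∀ P : Subgroup G, (Nat.card P).Prime → (∑ᶠ h : P, act h.1) * π ∈ Q) →
      CommonFreeK act (LinearMap.range π) (LinearMap.ker π)) := by
  have hneZ : NeZero (Nat.card G : K) := ⟨by exact_mod_cast Nat.card_pos.ne'⟩
  have hss : IsSemisimpleRing (MonoidAlgebra K G) := inferInstance
  have hnA : ∀ H : Subgroup G, nK K H ∈ idlK hmul hact π ↔ (∑ᶠ h : H, act h.1) * π ∈ Q := by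
    intro H
    rw [mem_idlK, thetaK_nK]
  have h1 : (1 : MonoidAlgebra K G) ∈ idlK hmul hact π ↔ π ∈ Q := by
    rw [mem_idlK, map_one, one_mul]
  have hr : ∀ x ∈ idlK hmul hact π, ∀ y, x * y ∈ idlK hmul hact π := by
    intro x hx y
    rw [mem_idlK, map_mul, mul_assoc, thetaK_comm hπ, ← mul_assoc]
    exact hmul _ hx _ (thetaK_mem hact y)
  have hdom : ∀ (H : Subgroup G) (ι : Type) (D : ι → Subgroup G),
      DominatedK act (LinearMap.range π) (LinearMap.ker π) H D →
      (∀ j, (∑ᶠ h : D j, act h.1) * π ∈ Q) → nK K H ∈ idlK hmul hact π := by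
    intro H ι D hD h
    by_contra hH
    obtain ⟨S, hS, s, hsS, hs0⟩ := exists_simpleK (idlK hmul hact π) hH
    obtain ⟨i, v, hv0, hv⟩ := hD S (repK (K := K) S) irredK_of_simple
      (occursK_of_ann _ (by
        rintro g _ ⟨u, rfl⟩
        refine ⟨act g u, ?_⟩
        rw [← Module.End.mul_apply, ← hπ]
        rfl) _ hr (by
        intro x hx
        rw [mem_idlK]
        have h0 : thetaK act x * π = 0 := by
          ext v
          exact hx (π v) ⟨v, rfl⟩
        rw [h0]
        exact Q.zero_mem) S hS)
      (occursK_of_ann _ (by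
        intro g u hu
        rw [LinearMap.mem_ker] at hu ⊢
        have h2 : (π * act g) u = (act g * π) u := by rw [hπ]
        rw [Module.End.mul_apply, Module.End.mul_apply, hu, map_zero] at h2
        exact h2) _ hr (by
        intro x hx
        rw [mem_idlK]
        have h0 : thetaK act x * π = thetaK act x := by
          ext v
          have h2 : v - π v ∈ LinearMap.ker π := by
            rw [LinearMap.mem_ker, map_sub]
            have h3 : (π * π) v = π v := by rw [hππ]
            rw [Module.End.mul_apply] at h3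
            rw [h3, sub_self]
          have h3 := hx _ h2
          rw [map_sub, sub_eq_zero] at h3
          rw [Module.End.mul_apply]
          exact h3.symm
        rw [h0]
        exact thetaK_mem hact x) S hS)
      ⟨nK K H • ⟨s, hsS⟩, fun h0 => hs0 (congrArg Subtype.val h0), fun g hg => by
        rw [repK_apply, smul_smul, single_mul_nK hg]⟩
    apply hv0
    apply nK_smul_fixed (D i) hv
    apply Subtype.ext
    obtain ⟨b, hb⟩ := Submodule.Quotient.mk_surjective (idlK hmul hact π) v.1
    change nK K (D i) • v.1 = 0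
    rw [← hb, ← Submodule.Quotient.mk_smul, smul_eq_mul, Submodule.Quotient.mk_eq_zero]
    exact hr _ ((hnA _).2 (h i)) b
  have hdom1 : ∀ (ι : Type) (D : ι → Subgroup G),
      DominatedK act (LinearMap.range π) (LinearMap.ker π) ⊥ D →
      (∀ j, (∑ᶠ h : D j, act h.1) * π ∈ Q) → π ∈ Q := by
    intro ι D hD h
    have h2 := hdom ⊥ ι D hD h
    rwa [nK_bot, h1] at h2
  refine ⟨?_, ?_, ?_⟩
  · intro h
    refine hdom1 Empty (fun e => e.elim) ?_ fun e => e.elim
    intro V _ _ ρ hρ h1 h2 _
    exact absurd h2 (h V ρ hρ h1)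
  · intro H ι D hD h
    rw [← hnA]
    exact hdom H ι D hD h
  · intro h0 hP
    by_contra hcon
    apply h0
    refine hdom1 {P : Subgroup G // (Nat.card P).Prime} (fun P => P.1) ?_ fun P => hP P.1 P.2
    intro V _ _ ρ hρ ho1 ho2 hv
    obtain ⟨v, hv0, -⟩ := hv
    by_contra hno
    push Not at hno
    apply hcon
    refine ⟨V, _, _, ρ, hρ, ho1, ho2, ⟨v, hv0⟩, fun g hg w hw => ?_⟩
    obtain ⟨P, hPp, hPg⟩ := Pool.Agent.X328.PB.card_zpowers_prime hg
    by_contra hw0
    obtain ⟨d, hd, hd'⟩ := hno ⟨P, hPp⟩ w hw0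
    apply hd'
    have hst : ∀ n : ℤ, ρ (g ^ n) w = w := by
      have hn : ∀ n : ℕ, ρ (g ^ n) w = w := by
        intro n
        induction n with
        | zero => rw [pow_zero, map_one, Module.End.one_apply]
        | succ n ih => rw [pow_succ, map_mul, Module.End.mul_apply, hw, ih]
      intro n
      cases n with
      | ofNat n => rw [Int.ofNat_eq_natCast, zpow_natCast]; exact hn n
      | negSucc n =>
        rw [zpow_negSucc]
        have h2 : ρ ((g ^ (n + 1))⁻¹ * g ^ (n + 1)) w = ρ (g ^ (n + 1))⁻¹ (ρ (g ^ (n + 1)) w) := by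
          rw [map_mul]; rfl
        rw [inv_mul_cancel, map_one, Module.End.one_apply, hn] at h2
        exact h2.symm
    obtain ⟨n, rfl⟩ := hPg hd
    exact hst n

end

end Pool.Agent.X252.GK
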