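import Pool.Agent.X252.GKW
import Pool.Agent.TH133.PW.Ev

/-!
# Group actions and the sign conjecture, with coefficients
-/

set_option autoImplicit false

open CategoryTheory AlgebraicGeometry Finset

universe u v

namespace Pool.Agent.X252.GKS

open Pool.Agent.H914 VarClass Obj WeilCohomology Pool.Agent.X252.GA Pool.Agent.X310.Mu
  Pool.Agent.X252.GC Pool.Agent.X252.GK Pool.Agent.X252.GKW Pool.Agent.H447 Pool.Agent.TH133.PW

variable {k : Type u} [Field k] {𝒱 : VarClass k} {ops : CycleOps 𝒱}

/-- The sign conjecture for the quotient `X/H`, with coefficients: a combination of algebraic classes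
acts on the even cohomology as the sum of the pull-backs by the elements of `H`, and as zero on the
odd cohomology. -/
def EvenQuotient (W : WeilCohomology.{u, v} ops) {X : 𝒱.Obj} {G : Type} [Group G]
    (a : G →* Aut X) (H : Subgroup G) : Prop :=
  ∃ c ∈ algClassSpan W X, ∀ j, ∀ x ∈ W.gr X j,
    clAct W c x = if Even j then ∑ᶠ h : H, gPull W a h.1 x else 0

/-- The even cohomology. -/
noncomputable def evenDegrees (W : WeilCohomology.{u, v} ops) (X : 𝒱.Obj) :
    Submodule W.K (W.H X) :=
  ⨆ j : {j : ℕ // Even j}, W.gr X j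

/-- The odd cohomology. -/
noncomputable def oddDegrees (W : WeilCohomology.{u, v} ops) (X : 𝒱.Obj) :
    Submodule W.K (W.H X) :=
  ⨆ j : {j : ℕ // ¬ Even j}, W.gr X j

/-- The representation is irreducible and occurs in the even and in the odd cohomology. -/
def IsCommonEO (W : WeilCohomology.{u, v} ops) {X : 𝒱.Obj} {G : Type} [Group G]
    (a : G →* Aut X) {S : Type v} [AddCommGroup S] [Module W.K S]
    (ρ : Representation W.K G S) : Prop :=
  IrredRep ρ ∧ OccursAt W a (evenDegrees W X) ρ ∧ OccursAt W a (oddDegrees W X) ρ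

/-- There is no such representation. -/
def NoCommonEO (W : WeilCohomology.{u, v} ops) {X : 𝒱.Obj} {G : Type} [Group G]
    (a : G →* Aut X) : Prop :=
  ∀ (S : Type v) [AddCommGroup S] [Module W.K S] (ρ : Representation W.K G S),
    ¬ IsCommonEO W a ρ

/-- Every such representation which has a nonzero vector fixed by `H` has for some `j` a nonzero
vector fixed by `D j`. -/
def DominatedEO (W : WeilCohomology.{u, v} ops) {X : 𝒱.Obj} {G : Type} [Group G]
    (a : G →* Aut X) {ι : Type} (H : Subgroup G) (D : ι → Subgroup G) : Prop :=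
  ∀ (S : Type v) [AddCommGroup S] [Module W.K S] (ρ : Representation W.K G S),
    IsCommonEO W a ρ → HasFixed ρ H → ∃ j, HasFixed ρ (D j)

/-- In some such nonzero representation the elements of `G` different from one fix only `0`. -/
def CommonFreeEO (W : WeilCohomology.{u, v} ops) {X : 𝒱.Obj} {G : Type} [Group G]
    (a : G →* Aut X) : Prop :=
  ∃ (S : Type v) (_ : AddCommGroup S) (_ : Module W.K S) (ρ : Representation W.K G S),
    IsCommonEO W a ρ ∧ FreeRep ρ

section
variable {W : WeilCohomology.{u, v} ops} {X : 𝒱.Obj}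

variable (W X) in
/-- The projector onto the even cohomology. -/
noncomputable def pE : Module.End W.K (W.H X) :=
  scal (W.isInternal X) (fun j => if Even j then 1 else 0)

lemma pE_even {j : ℕ} (hj : Even j) {x : W.H X} (hx : x ∈ W.gr X j) : pE W X x = x := by
  rw [pE, scal_apply _ _ hx, if_pos hj, one_smul]

lemma pE_odd {j : ℕ} (hj : ¬ Even j) {x : W.H X} (hx : x ∈ W.gr X j) : pE W X x = 0 := by
  rw [pE, scal_apply _ _ hx, if_neg hj, zero_smul]

lemma pE_idem : pE W X * pE W X = pE W X := by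
  apply gr_ext (W.isInternal X)
  intro j x hx
  rw [Module.End.mul_apply]
  by_cases hj : Even j
  · rw [pE_even hj hx, pE_even hj hx]
  · rw [pE_odd hj hx, map_zero]

lemma pE_mem (y : W.H X) : pE W X y ∈ evenDegrees W X ∧ y - pE W X y ∈ oddDegrees W X := by
  refine gr_induction (W.isInternal X)
    (p := fun y => pE W X y ∈ evenDegrees W X ∧ y - pE W X y ∈ oddDegrees W X) ?_ ?_ y
  · intro j y hy
    by_cases h : Even j
    · rw [pE_even h hy, sub_self]
      exact ⟨Submodule.mem_iSup_of_mem (⟨j, h⟩ : {j : ℕ // Even j}) hy, Submodule.zero_mem _⟩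
    · rw [pE_odd h hy, sub_zero]
      exact ⟨Submodule.zero_mem _, Submodule.mem_iSup_of_mem (⟨j, h⟩ : {j : ℕ // ¬ Even j}) hy⟩
  · intro y y' hy hy'
    rw [map_add, add_sub_add_comm]
    exact ⟨Submodule.add_mem _ hy.1 hy'.1, Submodule.add_mem _ hy.2 hy'.2⟩

lemma range_pE : LinearMap.range (pE W X) = evenDegrees W X := by
  apply le_antisymm
  · rintro _ ⟨y, rfl⟩
    exact (pE_mem y).1
  · unfold evenDegrees
    rw [iSup_le_iff]
    rintro ⟨j, hj⟩ x hx
    exact ⟨x, pE_even hj hx⟩

lemma ker_pE : LinearMap.ker (pE W X) = oddDegrees W X := by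
  apply le_antisymm
  · intro x hx
    rw [LinearMap.mem_ker] at hx
    have h2 := (pE_mem (W := W) x).2
    rwa [hx, sub_zero] at h2
  · unfold oddDegrees
    rw [iSup_le_iff]
    rintro ⟨j, hj⟩ x hx
    rw [LinearMap.mem_ker]
    exact pE_odd hj hx

lemma signStd_iff : pE W X ∈ algSpan W X ↔ SignStd W X := by
  have h1 : pE W X ∈ algSpan W X ↔
      EvenProjInSpan (W.gr X) (cycleOperators W X X.dim) := by
    constructor
    · intro h
      refine ⟨pE W X, h, fun j x hx => ?_⟩
      split_ifs with hj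
      · exact pE_even hj hx
      · exact pE_odd hj hx
    · rintro ⟨P, hP, h⟩
      have h2 : pE W X = P := by
        apply gr_ext (W.isInternal X)
        intro j x hx
        rw [h j x hx]
        split_ifs with hj
        · exact pE_even hj hx
        · exact pE_odd hj hx
      rw [h2]
      exact hP
  rw [h1]
  exact ((sign_tfae W X).out 0 1).symm

variable {G : Type} [Group G] (a : G →* Aut X)

lemma hAct_pE (g : G) : hAct W a g * pE W X = pE W X * hAct W a g := by
  apply gr_ext (W.isInternal X)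
  intro j x hx
  change (W.map (a g⁻¹).hom) (pE W X x) = pE W X ((W.map (a g⁻¹).hom) x)
  by_cases h : Even j
  · rw [pE_even h hx, pE_even h (W.map_mem _ hx)]
  · rw [pE_odd h hx, pE_odd h (W.map_mem _ hx), map_zero]

variable [Finite G]

lemma evenQuotient_iff (H : Subgroup G) :
    (∑ᶠ h : H, hAct W a h.1) * pE W X ∈ algSpan W X ↔ EvenQuotient W a H := by
  have key : ∀ j, ∀ x ∈ W.gr X j, ((∑ᶠ h : H, hAct W a h.1) * pE W X) x =
      if Even j then ∑ᶠ h : H, gPull W a h.1 x else 0 := by
    intro j x hx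
    rw [Module.End.mul_apply]
    split_ifs with hj
    · rw [pE_even hj hx, sum_hAct]
    · rw [pE_odd hj hx, map_zero]
  rw [algSpan_eq, Submodule.mem_map]
  constructor
  · rintro ⟨c, hc, h⟩
    refine ⟨c, hc, fun j x hx => ?_⟩
    rw [← key j x hx, ← h]
    rfl
  · rintro ⟨c, hc, h⟩
    refine ⟨c, hc, ?_⟩
    apply gr_ext (W.isInternal X)
    intro j x hx
    rw [key j x hx, ← h j x hx]
    rfl

/-- **Group actions and the sign conjecture, with coefficients.** -/
theorem main_sign :
    (NoCommonEO W a → SignStd W X) ∧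
    (∀ (H : Subgroup G) (ι : Type) (D : ι → Subgroup G), DominatedEO W a H D →
      (∀ j, EvenQuotient W a (D j)) → EvenQuotient W a H) ∧
    (∀ c : G, c * c = 1 → (SignStd W X ↔
      EvenQuotient W a (Subgroup.zpowers c) ∧ EvenQuotient W a (comms c))) ∧
    (∀ c : G, InSimple c → c ≠ 1 → c * c = 1 →
      (SignStd W X ↔ EvenQuotient W a (Subgroup.zpowers c))) ∧
    (∀ (ι : Type) (D : ι → Subgroup G) (S : Subgroup G), Partitions S D →
      (SignStd W X ↔ ∀ j, EvenQuotient W a (D j))) ∧
    (¬ SignStd W X → (∀ P : Subgroup G, (Nat.card P).Prime → EvenQuotient W a P) →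
      CommonFreeEO W a ∧ CyclicSubgroups G) := by
  have : Fintype G := Fintype.ofFinite G
  obtain ⟨-, -, h3, h4, h5, h6⟩ := GC.main (ratAlg_span (W := W) (X := X)) (act := hAct W a)
    (fun g => hAct_mem a g) (π := pE W X) (fun g => hAct_pE a g) pE_idem
  obtain ⟨g1, g2, g3⟩ := GK.mainK (Q := algSpan W X) algSpan_mul (act := hAct W a)
    (fun g => hAct_mem a g) (π := pE W X) (fun g => hAct_pE a g) pE_idem
  rw [range_pE, ker_pE] at g1 g3
  simp only [SetLike.mem_coe, evenQuotient_iff, signStd_iff] at h3 h4 h5 h6 g1 g3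
  refine ⟨fun hN => g1 ?_, fun H ι D hD h => ?_, h3, h4, h5,
    fun h0 hP => ⟨?_, (h6 h0 hP).2⟩⟩
  · intro S _ _ ρ hρ h1 h2
    exact hN S ρ ⟨hρ, (occursAt_iff a _ ρ).1 h1, (occursAt_iff a _ ρ).1 h2⟩
  · have g2' := g2 H ι D
    rw [range_pE, ker_pE, evenQuotient_iff] at g2'
    refine g2' ?_ fun j => (evenQuotient_iff a (D j)).2 (h j)
    intro S _ _ ρ hρ h1 h2 hv
    exact hD S ρ ⟨hρ, (occursAt_iff a _ ρ).1 h1, (occursAt_iff a _ ρ).1 h2⟩ hv
  · obtain ⟨S, i1, i2, ρ, hρ, h1, h2, h3'⟩ := g3 h0 hP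
    exact ⟨S, i1, i2, ρ, ⟨hρ, (occursAt_iff a _ ρ).1 h1, (occursAt_iff a _ ρ).1 h2⟩, h3'⟩

end

end Pool.Agent.X252.GKS
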