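import Pool.Agent.X252.GA
import Pool.Agent.H914R2.HodgeDefs
import Pool.Agent.H914R2.Cyc

/-!
# Group actions and algebraic Künneth components
-/

set_option autoImplicit false

open CategoryTheory AlgebraicGeometry Finset

universe u v

namespace Pool.Agent.X252.SCK

open Pool.Agent.H914 VarClass Obj WeilCohomology Pool.Agent.X252.GA Pool.Agent.X310.Mu

variable {k : Type u} [Field k] {𝒱 : VarClass k} {ops : CycleOps 𝒱}

/-- The `i`-th Künneth component of the quotient `X/H` is algebraic: some cycle on `X × X` acts on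
`H^i(X)` as the sum of the pull-backs by the elements of `H`, and as zero on the other degrees. -/
def QuotientKunneth (W : WeilCohomology.{u, v} ops) {X : 𝒱.Obj} {G : Type} [Group G]
    (a : G →* Aut X) (H : Subgroup G) (i : ℕ) : Prop :=
  ∃ P, (X.prod X).IsCyc X.dim P ∧ ∀ j, ∀ x ∈ W.gr X j,
    W.corr (W.cl (X.prod X) P) x = if j = i then ∑ᶠ h : H, W.map (a h.1).hom x else 0

/-- The `i`-th Künneth component of the diagonal of `X` is algebraic. -/
def KunnethAlg (W : WeilCohomology.{u, v} ops) (X : 𝒱.Obj) (i : ℕ) : Prop :=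
  ∃ P, (X.prod X).IsCyc X.dim P ∧ InducesProjector W X i P

/-- The operator is given by an algebraic correspondence. -/
def IsAlg (W : WeilCohomology.{u, v} ops) (X : 𝒱.Obj) (φ : Module.End W.K (W.H X)) : Prop :=
  ∃ z, (X.prod X).IsCyc X.dim z ∧ W.corr (W.cl (X.prod X) z) = φ

section
variable {W : WeilCohomology.{u, v} ops} {X : 𝒱.Obj}

lemma IsAlg.add {φ ψ : Module.End W.K (W.H X)} (h : IsAlg W X φ) (h' : IsAlg W X ψ) :
    IsAlg W X (φ + ψ) := by
  obtain ⟨z, hz, rfl⟩ := h
  obtain ⟨w, hw, rfl⟩ := h'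
  exact ⟨z + w, hz.add hw, by rw [map_add, corr_add]⟩

lemma IsAlg.zero : IsAlg W X 0 :=
  ⟨0, SmVar.IsCyc.zero _ _, by rw [map_zero, corr_zero]⟩

lemma IsAlg.smul (q : ℚ) {φ : Module.End W.K (W.H X)} (h : IsAlg W X φ) :
    IsAlg W X ((q : W.K) • φ) := by
  obtain ⟨z, hz, rfl⟩ := h
  exact ⟨q • z, hz.smul q, by rw [cl_smul, corr_smul]⟩

lemma IsAlg.mul {φ ψ : Module.End W.K (W.H X)} (h : IsAlg W X φ) (h' : IsAlg W X ψ) :
    IsAlg W X (φ * ψ) := by
  obtain ⟨z, hz, rfl⟩ := h
  obtain ⟨w, hw, rfl⟩ := h'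
  exact ⟨compCyc ops w z, compCyc_mem hw hz rfl, by rw [corr_compCyc W hz]; rfl⟩

/-- The transposed graph of a morphism. -/
lemma IsAlg.map (f : X ⟶ X) : IsAlg W X (W.map f).toLinearMap := by
  refine ⟨ops.push (Obj.lift f (𝟙 X)) X.V.fundCycle,
    ops.push_mem _ X.V.fundCycle_mem (by simp only [dim_prod]; omega), ?_⟩
  ext x
  rw [W.cl_push, W.cl_fund, corr_apply, ← W.push_mul, ← W.push_comp, ← W.map_comp]
  have e1 : Obj.lift f (𝟙 X) ≫ snd X X = 𝟙 X := Obj.lift_snd _ _
  have e2 : Obj.lift f (𝟙 X) ≫ fst X X = f := Obj.lift_fst _ _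
  rw [e1, e2, W.push_id, one_mul]
  rfl

variable {G : Type} [Group G] [Fintype G] (a : G →* Aut X)

variable (W) in
/-- The group acts on the cohomology. -/
noncomputable def act : G →* Module.End W.K (W.H X) where
  toFun g := (W.map (a g⁻¹).hom).toLinearMap
  map_one' := by
    rw [inv_one, map_one]
    ext x
    exact W.map_id X x
  map_mul' g h := by
    rw [mul_inv_rev, map_mul]
    ext x
    exact W.map_comp (a g⁻¹).hom (a h⁻¹).hom x

variable (W) in
/-- The group ring acts on the cohomology. -/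
noncomputable def theta : MonoidAlgebra ℚ G →+* Module.End W.K (W.H X) :=
  (MonoidAlgebra.lift W.K (Module.End W.K (W.H X)) G (act W a)).toRingHom.comp
    (MonoidAlgebra.mapRingHom G (algebraMap ℚ W.K))

omit [Fintype G] in
lemma theta_single (g : G) (q : ℚ) :
    theta W a (MonoidAlgebra.single g q) = (q : W.K) • (W.map (a g⁻¹).hom).toLinearMap := by
  unfold theta
  rw [RingHom.comp_apply, MonoidAlgebra.mapRingHom_single]
  exact MonoidAlgebra.lift_single _ _ _

lemma isAlg_theta (x : MonoidAlgebra ℚ G) : IsAlg W X (theta W a x) := by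
  induction x using MonoidAlgebra.induction_linear with
  | zero => rw [map_zero]; exact IsAlg.zero
  | add f g hf hg => rw [map_add]; exact hf.add hg
  | single g r =>
    rw [theta_single]
    exact (IsAlg.map _).smul r

lemma theta_proj (x : MonoidAlgebra ℚ G) (i : ℕ) :
    theta W a x * proj (W.isInternal X) i = proj (W.isInternal X) i * theta W a x := by
  induction x using MonoidAlgebra.induction_linear with
  | zero => rw [map_zero, zero_mul, mul_zero]
  | add f g hf hg => rw [map_add, add_mul, mul_add, hf, hg]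
  | single g r =>
    rw [theta_single, smul_mul_assoc, mul_smul_comm]
    congr 1
    apply gr_ext (W.isInternal X)
    intro j x hx
    change (W.map (a g⁻¹).hom) (proj (W.isInternal X) i x) =
      proj (W.isInternal X) i ((W.map (a g⁻¹).hom) x)
    by_cases h : j = i
    · subst h
      rw [proj_same _ hx, proj_same _ (W.map_mem _ hx)]
    · rw [proj_ne _ hx h, proj_ne _ (W.map_mem _ hx) h, map_zero]

variable (W) in
/-- The elements of the group ring whose product with a projector is algebraic. -/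
noncomputable def idl (i : ℕ) : Ideal (MonoidAlgebra ℚ G) where
  carrier := {x | IsAlg W X (theta W a x * proj (W.isInternal X) i)}
  add_mem' := by
    intro x y hx hy
    rw [Set.mem_ofPred_eq, map_add, add_mul]
    exact hx.add hy
  zero_mem' := by
    rw [Set.mem_ofPred_eq, map_zero, zero_mul]
    exact IsAlg.zero
  smul_mem' := by
    intro c x hx
    rw [Set.mem_ofPred_eq, smul_eq_mul, map_mul, mul_assoc]
    exact (isAlg_theta a c).mul hx

lemma mem_idl {i : ℕ} {x : MonoidAlgebra ℚ G} :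
    x ∈ idl W a i ↔ IsAlg W X (theta W a x * proj (W.isInternal X) i) := Iff.rfl

lemma idl_right (i : ℕ) (x : MonoidAlgebra ℚ G) (hx : x ∈ idl W a i) (y : MonoidAlgebra ℚ G) :
    x * y ∈ idl W a i := by
  rw [mem_idl, map_mul, mul_assoc, theta_proj, ← mul_assoc]
  exact IsAlg.mul hx (isAlg_theta a y)

lemma one_mem_idl {i : ℕ} : (1 : MonoidAlgebra ℚ G) ∈ idl W a i ↔ KunnethAlg W X i := by
  rw [mem_idl, map_one, one_mul]
  constructor
  · rintro ⟨z, hz, h⟩
    refine ⟨z, hz, fun j x hx => ?_⟩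
    rw [h]
    split_ifs with hj
    · rw [← hj, proj_same _ hx]
    · rw [proj_ne _ hx hj]
  · rintro ⟨z, hz, h⟩
    refine ⟨z, hz, ?_⟩
    apply gr_ext (W.isInternal X)
    intro j x hx
    rw [h j x hx]
    split_ifs with hj
    · rw [← hj, proj_same _ hx]
    · rw [proj_ne _ hx hj]

lemma theta_nA (H : Subgroup G) (x : W.H X) :
    theta W a (nA H) x = ∑ᶠ h : H, W.map (a h.1).hom x := by
  classical
  unfold nA
  rw [map_sum, LinearMap.sum_apply, finsum_eq_sum_of_fintype]
  refine Finset.sum_bij' (fun g hg => ⟨g⁻¹, H.inv_mem (by simpa using hg)⟩) (fun h _ => h.1⁻¹)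
    ?_ ?_ ?_ ?_ ?_
  · intro g hg; simp
  · intro h _; simp
  · intro g hg; simp
  · intro h _; simp
  · intro g hg
    rw [theta_single]
    simp

lemma nA_mem_idl {i : ℕ} {H : Subgroup G} : nA H ∈ idl W a i ↔ QuotientKunneth W a H i := by
  rw [mem_idl]
  have key : ∀ j, ∀ x ∈ W.gr X j, (theta W a (nA H) * proj (W.isInternal X) i) x =
      if j = i then ∑ᶠ h : H, W.map (a h.1).hom x else 0 := by
    intro j x hx
    rw [Module.End.mul_apply]
    split_ifs with hj
    · rw [← hj, proj_same _ hx, theta_nA]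
    · rw [proj_ne _ hx hj, map_zero]
  constructor
  · rintro ⟨z, hz, h⟩
    exact ⟨z, hz, fun j x hx => by rw [h, key j x hx]⟩
  · rintro ⟨z, hz, h⟩
    refine ⟨z, hz, ?_⟩
    apply gr_ext (W.isInternal X)
    intro j x hx
    rw [h j x hx, key j x hx]

omit [Fintype G] in
lemma theta_sub_eq_zero {g h : G} {i : ℕ}
    (hgh : ∀ x ∈ W.gr X i, W.map (a g).hom x = W.map (a h).hom x) :
    theta W a (MonoidAlgebra.single g⁻¹ 1 - MonoidAlgebra.single h⁻¹ 1) *
      proj (W.isInternal X) i = 0 := by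
  apply gr_ext (W.isInternal X)
  intro j x hx
  rw [map_sub, theta_single, theta_single, Module.End.mul_apply, LinearMap.sub_apply]
  simp only [Rat.cast_one, one_smul, inv_inv, AlgHom.toLinearMap_apply, LinearMap.zero_apply]
  by_cases hj : j = i
  · subst hj
    rw [proj_same _ hx, hgh x hx, sub_self]
  · rw [proj_ne _ hx hj, map_zero, map_zero, sub_self]

end

/-- **Group actions and algebraic Künneth components.** -/
theorem main (W : WeilCohomology.{u, v} ops) (X : 𝒱.Obj) {G : Type} [Group G] [Finite G]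
    (a : G →* Aut X) (i : ℕ) :
    (∀ (H : Subgroup G) (ι : Type) (D : ι → Subgroup G), Dominated H D →
      (∀ j, QuotientKunneth W a (D j) i) → QuotientKunneth W a H i) ∧
    (∀ c : G, c * c = 1 → (KunnethAlg W X i ↔
      QuotientKunneth W a (Subgroup.zpowers c) i ∧ QuotientKunneth W a (comms c) i)) ∧
    (∀ (S : Subgroup G) [IsSimpleGroup S], (∃ x y : S, x * y ≠ y * x) →
      ∀ c ∈ S, c ≠ 1 → c * c = 1 →
        (KunnethAlg W X i ↔ QuotientKunneth W a (Subgroup.zpowers c) i)) ∧
    (∀ (ι : Type) [Finite ι] (D : ι → Subgroup G) (K : Subgroup G), 2 ≤ Nat.card ι →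
      (∀ j, D j ≤ K) → (∀ g ∈ K, g ≠ 1 → ∃! j, g ∈ D j) →
        (KunnethAlg W X i ↔ ∀ j, QuotientKunneth W a (D j) i)) ∧
    (¬ KunnethAlg W X i → (∀ P : Subgroup G, (Nat.card P).Prime → QuotientKunneth W a P i) →
      FixedPointFree G ∧
      (∀ g h : G, (∀ x ∈ W.gr X i, W.map (a g).hom x = W.map (a h).hom x) → g = h) ∧
      (∀ (K : Subgroup G) (p q : ℕ), p.Prime → q.Prime → Nat.card K = p * q → IsCyclic K) ∧
      (∀ K : Subgroup G, (∀ x ∈ K, ∀ y ∈ K, x * y = y * x) → IsCyclic K) ∧
      ∀ σ τ : G, orderOf σ = 2 → orderOf τ = 2 → σ = τ) := by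
  have : Fintype G := Fintype.ofFinite G
  have hup : ∀ H : Subgroup G, KunnethAlg W X i → QuotientKunneth W a H i := by
    intro H h
    rw [← nA_mem_idl a]
    have h1 := (idl W a i).mul_mem_left (nA H) ((one_mem_idl a).2 h)
    rwa [mul_one] at h1
  have hdown : ∀ (ι : Type) (D : ι → Subgroup G), Dominated (⊥ : Subgroup G) D →
      (∀ j, QuotientKunneth W a (D j) i) → KunnethAlg W X i := by
    intro ι D hD h
    rw [← one_mem_idl a]
    exact one_mem_of_dominated hD _ (idl_right a i) fun j => (nA_mem_idl a).2 (h j)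
  refine ⟨?_, ?_, ?_, ?_, ?_⟩
  · intro H ι D hD h
    rw [← nA_mem_idl a]
    exact mem_of_dominated hD _ (idl_right a i) fun j => (nA_mem_idl a).2 (h j)
  · intro c hc
    refine ⟨fun h => ⟨hup _ h, hup _ h⟩, fun h => hdown _ _ (dominated_two hc ⊥) ?_⟩
    intro b
    cases b
    · exact h.2
    · exact h.1
  · intro S _ hS c hcS hc1 hc
    exact ⟨hup _, fun h => hdown _ _ (dominated_comms hc (comms_of_simple S hS hcS hc1) ⊥)
      fun _ => h⟩
  · intro ι _ D K hι hle hpart
    exact ⟨fun h j => hup _ h, hdown _ _ (dominated_partition D K hι hle hpart ⊥)⟩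
  · intro h0 hP
    obtain ⟨k1, k2, k3⟩ := structure_of_ideal (idl W a i) (idl_right a i)
      (fun h => h0 ((one_mem_idl a).1 h)) fun P hPp => (nA_mem_idl a).2 (hP P hPp)
    refine ⟨k1, fun g h hgh => ?_, k3⟩
    have h1 := k2 g⁻¹ h⁻¹ (by
      rw [mem_idl, theta_sub_eq_zero a hgh]
      exact IsAlg.zero)
    exact inv_injective h1

end Pool.Agent.X252.SCK
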