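import Pool.Agent.X252.GK
import Pool.Agent.X252.SCK

/-!
# Group actions and Künneth components which are combinations of algebraic classes
-/

set_option autoImplicit false

open CategoryTheory AlgebraicGeometry Finset

universe u v

namespace Pool.Agent.X252.GKW

open Pool.Agent.H914 VarClass Obj WeilCohomology Pool.Agent.X252.GA Pool.Agent.X310.Mu
  Pool.Agent.X252.GC Pool.Agent.X252.GK

variable {k : Type u} [Field k] {𝒱 : VarClass k} {ops : CycleOps 𝒱}

/-- The operators on the cohomology of `X` which are `K`-linear combinations of operators given by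
cycles of codimension `dim X` on `X × X`. -/
noncomputable def algSpan (W : WeilCohomology.{u, v} ops) (X : 𝒱.Obj) :
    Submodule W.K (Module.End W.K (W.H X)) :=
  Submodule.span W.K {φ | ∃ z, (X.prod X).IsCyc X.dim z ∧ W.corr (W.cl (X.prod X) z) = φ}

/-- The pull-back by an element of the group. -/
noncomputable def gPull (W : WeilCohomology.{u, v} ops) {X : 𝒱.Obj} {G : Type} [Group G]
    (a : G →* Aut X) (g : G) (x : W.H X) : W.H X :=
  W.map (a g).hom x

/-- The `K`-span of the classes of the cycles of codimension `dim X` on `X × X`. -/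
noncomputable def algClassSpan (W : WeilCohomology.{u, v} ops) (X : 𝒱.Obj) :
    Submodule W.K (W.H (X.prod X)) :=
  Submodule.span W.K {c | ∃ z, (X.prod X).IsCyc X.dim z ∧ W.cl (X.prod X) z = c}

/-- The action of a class on `X × X` on the cohomology of `X`. -/
noncomputable def clAct (W : WeilCohomology.{u, v} ops) {X : 𝒱.Obj} (c : W.H (X.prod X))
    (x : W.H X) : W.H X :=
  W.corr c x

/-- The `i`-th Künneth component of the diagonal of `X` is a combination of algebraic classes. -/
def KunnethSpan (W : WeilCohomology.{u, v} ops) (X : 𝒱.Obj) (i : ℕ) : Prop :=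
  ∃ c ∈ algClassSpan W X, ∀ j, ∀ x ∈ W.gr X j, clAct W c x = if j = i then x else 0

/-- The same for the quotient `X/H`: a combination of algebraic classes acts on `H^i(X)` as the sum
of the pull-backs by the elements of `H`, and as zero on the other degrees. -/
def QuotientSpan (W : WeilCohomology.{u, v} ops) {X : 𝒱.Obj} {G : Type} [Group G]
    (a : G →* Aut X) (H : Subgroup G) (i : ℕ) : Prop :=
  ∃ c ∈ algClassSpan W X, ∀ j, ∀ x ∈ W.gr X j,
    clAct W c x = if j = i then ∑ᶠ h : H, gPull W a h.1 x else 0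

/-- The sum of the `H^j(X)` for `j ≠ i`. -/
noncomputable def otherDegrees (W : WeilCohomology.{u, v} ops) (X : 𝒱.Obj) (i : ℕ) : Submodule W.K (W.H X) :=
  ⨆ j : {j : ℕ // j ≠ i}, W.gr X j

/-- The action of the group on the cohomology, `g` acts as the pull-back by `g⁻¹`. -/
noncomputable def hAct (W : WeilCohomology.{u, v} ops) {X : 𝒱.Obj} {G : Type} [Group G]
    (a : G →* Aut X) : G →* Module.End W.K (W.H X) where
  toFun g := (W.map (a g⁻¹).hom).toLinearMap
  map_one' := by
    rw [inv_one, map_one]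
    ext x
    exact W.map_id X x
  map_mul' g h := by
    rw [mul_inv_rev, map_mul]
    ext x
    exact W.map_comp (a g⁻¹).hom (a h⁻¹).hom x

section
variable {K : Type v} [Field K] {G : Type} {S : Type v} [Group G] [AddCommGroup S] [Module K S]

/-- The representation has no stable subspaces except `0` and the whole space. -/
def IrredRep (ρ : Representation K G S) : Prop :=
  ∀ U : Submodule K S, (∀ g, ∀ u ∈ U, ρ g u ∈ U) → U = ⊥ ∨ U = ⊤

/-- The subgroup `H` fixes a nonzero vector of the representation. -/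
def HasFixed (ρ : Representation K G S) (H : Subgroup G) : Prop :=
  ∃ v : S, v ≠ 0 ∧ ∀ h ∈ H, ρ h v = v

/-- The representation is not zero and the elements of `G` different from one fix only `0`. -/
def FreeRep (ρ : Representation K G S) : Prop :=
  (∃ v : S, v ≠ 0) ∧ ∀ g : G, g ≠ 1 → ∀ v : S, ρ g v = v → v = 0

/-- The map is linear, and maps `g s` to `b g` applied to the image of `s`. -/
def IsEquivariant {T : Type v} [AddCommGroup T] [Module K T] (ρ : Representation K G S)
    (b : G → T → T) (f : S → T) : Prop :=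
  (∀ s t, f (s + t) = f s + f t) ∧ (∀ (c : K) s, f (c • s) = c • f s) ∧
    ∀ g s, f (ρ g s) = b g (f s)

end

/-- There is a nonzero equivariant linear map from the representation to the subspace `U` of the
cohomology of `X`; an element `g` of the group acts on the cohomology as the pull-back by `g⁻¹`. -/
def OccursAt (W : WeilCohomology.{u, v} ops) {X : 𝒱.Obj} {G : Type} [Group G]
    (a : G →* Aut X) (U : Submodule W.K (W.H X)) {S : Type v} [AddCommGroup S] [Module W.K S]
    (ρ : Representation W.K G S) : Prop :=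
  ∃ f : S → W.H X, IsEquivariant ρ (fun g => gPull W a g⁻¹) f ∧ (∀ s, f s ∈ U) ∧ ∃ s, f s ≠ 0

/-- The representation is irreducible and occurs in `H^i(X)` and in the sum of the `H^j(X)`,
`j ≠ i`. -/
def IsCommon (W : WeilCohomology.{u, v} ops) {X : 𝒱.Obj} {G : Type} [Group G]
    (a : G →* Aut X) (i : ℕ) {S : Type v} [AddCommGroup S] [Module W.K S]
    (ρ : Representation W.K G S) : Prop :=
  IrredRep ρ ∧ OccursAt W a (W.gr X i) ρ ∧ OccursAt W a (otherDegrees W X i) ρ

/-- There is no such representation. -/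
def NoCommonAt (W : WeilCohomology.{u, v} ops) {X : 𝒱.Obj} {G : Type} [Group G]
    (a : G →* Aut X) (i : ℕ) : Prop :=
  ∀ (S : Type v) [AddCommGroup S] [Module W.K S] (ρ : Representation W.K G S),
    ¬ IsCommon W a i ρ

/-- Every such representation which has a nonzero vector fixed by `H` has for some `j` a nonzero
vector fixed by `D j`. -/
def DominatedAt (W : WeilCohomology.{u, v} ops) {X : 𝒱.Obj} {G : Type} [Group G]
    (a : G →* Aut X) (i : ℕ) {ι : Type} (H : Subgroup G) (D : ι → Subgroup G) : Prop :=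
  ∀ (S : Type v) [AddCommGroup S] [Module W.K S] (ρ : Representation W.K G S),
    IsCommon W a i ρ → HasFixed ρ H → ∃ j, HasFixed ρ (D j)

/-- In some such nonzero representation the elements of `G` different from one fix only `0`. -/
def CommonFreeAt (W : WeilCohomology.{u, v} ops) {X : 𝒱.Obj} {G : Type} [Group G]
    (a : G →* Aut X) (i : ℕ) : Prop :=
  ∃ (S : Type v) (_ : AddCommGroup S) (_ : Module W.K S) (ρ : Representation W.K G S),
    IsCommon W a i ρ ∧ FreeRep ρ

section
variable {W : WeilCohomology.{u, v} ops} {X : 𝒱.Obj}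

/-- The action of classes as a linear map. -/
noncomputable def corrL (W : WeilCohomology.{u, v} ops) (X : 𝒱.Obj) :
    W.H (X.prod X) →ₗ[W.K] Module.End W.K (W.H X) where
  toFun c := W.corr c
  map_add' c d := corr_add W c d
  map_smul' q c := corr_smul W q c

lemma algSpan_eq : algSpan W X = (algClassSpan W X).map (corrL W X) := by
  rw [algSpan, algClassSpan, Submodule.map_span]
  congr 1
  ext φ
  constructor
  · rintro ⟨z, hz, rfl⟩
    exact ⟨_, ⟨z, hz, rfl⟩, rfl⟩
  · rintro ⟨_, ⟨z, hz, rfl⟩, rfl⟩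
    exact ⟨z, hz, rfl⟩

lemma algSpan_mul : ∀ x ∈ algSpan W X, ∀ y ∈ algSpan W X, x * y ∈ algSpan W X := by
  intro x hx y hy
  induction hx using Submodule.span_induction with
  | mem x hx =>
    induction hy using Submodule.span_induction with
    | mem y hy =>
      obtain ⟨z, hz, rfl⟩ := hx
      obtain ⟨w, hw, rfl⟩ := hy
      refine Submodule.subset_span ⟨compCyc ops w z, compCyc_mem hw hz rfl, ?_⟩
      rw [corr_compCyc W hz]
      rfl
    | zero => rw [mul_zero]; exact Submodule.zero_mem _
    | add y y' _ _ h h' => rw [mul_add]; exact Submodule.add_mem _ h h'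
    | smul c y _ h => rw [mul_smul_comm]; exact Submodule.smul_mem _ _ h
  | zero => rw [zero_mul]; exact Submodule.zero_mem _
  | add x x' _ _ h h' => rw [add_mul]; exact Submodule.add_mem _ h h'
  | smul c x _ h => rw [smul_mul_assoc]; exact Submodule.smul_mem _ _ h

lemma ratAlg_span : IsRatAlg (algSpan W X : Set (Module.End W.K (W.H X))) where
  zero := Submodule.zero_mem _
  add := fun hx hy => Submodule.add_mem _ hx hy
  smul := fun _ _ hx => Submodule.smul_mem _ _ hx
  mul := fun hx hy => algSpan_mul _ hx _ hy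

variable {G : Type} [Group G] (a : G →* Aut X)

lemma hAct_mem (g : G) : hAct W a g ∈ algSpan W X := by
  obtain ⟨z, hz, h⟩ := SCK.IsAlg.map (W := W) (a g⁻¹).hom
  exact Submodule.subset_span ⟨z, hz, h⟩

lemma hAct_proj (g : G) (i : ℕ) : hAct W a g * proj (W.isInternal X) i =
    proj (W.isInternal X) i * hAct W a g := by
  apply gr_ext (W.isInternal X)
  intro j x hx
  change (W.map (a g⁻¹).hom) (proj (W.isInternal X) i x) =
    proj (W.isInternal X) i ((W.map (a g⁻¹).hom) x)
  by_cases h : j = i
  · subst h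
    rw [proj_same _ hx, proj_same _ (W.map_mem _ hx)]
  · rw [proj_ne _ hx h, proj_ne _ (W.map_mem _ hx) h, map_zero]

lemma ker_proj (i : ℕ) : LinearMap.ker (proj (W.isInternal X) i) = otherDegrees W X i := by
  apply le_antisymm
  · intro x hx
    rw [LinearMap.mem_ker] at hx
    have h1 : ∀ y : W.H X, y - proj (W.isInternal X) i y ∈ otherDegrees W X i := by
      intro y
      refine gr_induction (W.isInternal X)
        (p := fun y => y - proj (W.isInternal X) i y ∈ otherDegrees W X i) ?_ ?_ y
      · intro j y hy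
        by_cases h : j = i
        · subst h
          rw [proj_same _ hy, sub_self]
          exact Submodule.zero_mem _
        · rw [proj_ne _ hy h, sub_zero]
          exact Submodule.mem_iSup_of_mem (⟨j, h⟩ : {j : ℕ // j ≠ i}) hy
      · intro y y' hy hy'
        rw [map_add, add_sub_add_comm]
        exact Submodule.add_mem _ hy hy'
    have h2 := h1 x
    rwa [hx, sub_zero] at h2
  · unfold otherDegrees
    rw [iSup_le_iff]
    rintro ⟨j, hj⟩ x hx
    rw [LinearMap.mem_ker]
    exact proj_ne _ hx hj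

variable [Finite G]

lemma sum_hAct (H : Subgroup G) (x : W.H X) :
    (∑ᶠ h : H, hAct W a h.1) x = ∑ᶠ h : H, gPull W a h.1 x := by
  classical
  have : Fintype G := Fintype.ofFinite G
  rw [finsum_eq_sum_of_fintype, finsum_eq_sum_of_fintype, LinearMap.sum_apply]
  refine Fintype.sum_equiv (Equiv.inv H) _ _ fun h => ?_
  rfl

lemma quotientSpan_iff (H : Subgroup G) (i : ℕ) :
    (∑ᶠ h : H, hAct W a h.1) * proj (W.isInternal X) i ∈ algSpan W X ↔ QuotientSpan W a H i := by
  have key : ∀ j, ∀ x ∈ W.gr X j, ((∑ᶠ h : H, hAct W a h.1) * proj (W.isInternal X) i) x =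
      if j = i then ∑ᶠ h : H, gPull W a h.1 x else 0 := by
    intro j x hx
    rw [Module.End.mul_apply]
    split_ifs with hj
    · rw [← hj, proj_same _ hx, sum_hAct]
    · rw [proj_ne _ hx hj, map_zero]
  rw [algSpan_eq, Submodule.mem_map]
  constructor
  · rintro ⟨c, hc, h⟩
    refine ⟨c, hc, fun j x hx => ?_⟩
    rw [← key j x hx, ← h]
    rfl
  · rintro ⟨c, hc, h⟩
    refine ⟨c, hc, ?_⟩
    apply gr_ext (W.isInternal X)
    intro j x hx
    rw [key j x hx, ← h j x hx]
    rfl

omit [Finite G] in
lemma kunnethSpan_iff (i : ℕ) :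
    proj (W.isInternal X) i ∈ algSpan W X ↔ KunnethSpan W X i := by
  have key : ∀ j, ∀ x ∈ W.gr X j, proj (W.isInternal X) i x = if j = i then x else 0 := by
    intro j x hx
    split_ifs with hj
    · rw [← hj, proj_same _ hx]
    · rw [proj_ne _ hx hj]
  rw [algSpan_eq, Submodule.mem_map]
  constructor
  · rintro ⟨c, hc, h⟩
    refine ⟨c, hc, fun j x hx => ?_⟩
    rw [← key j x hx, ← h]
    rfl
  · rintro ⟨c, hc, h⟩
    refine ⟨c, hc, ?_⟩
    apply gr_ext (W.isInternal X)
    intro j x hx
    rw [key j x hx, ← h j x hx]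
    rfl

omit [Finite G] in
lemma occursAt_iff (U : Submodule W.K (W.H X)) {S : Type v} [AddCommGroup S] [Module W.K S]
    (ρ : Representation W.K G S) : OccursK (hAct W a) U ρ ↔ OccursAt W a U ρ := by
  constructor
  · rintro ⟨f, h1, h2, h3⟩
    exact ⟨f, ⟨map_add f, map_smul f, fun g s => h2 g s⟩, h1, h3⟩
  · rintro ⟨f, ⟨h1, h2, h3⟩, h4, h5⟩
    exact ⟨{ toFun := f, map_add' := h1, map_smul' := h2 }, h4, fun g s => h3 g s, h5⟩

/-- **Group actions and Künneth components which are combinations of algebraic classes.** -/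
theorem main_span (i : ℕ) :
    (NoCommonAt W a i → KunnethSpan W X i) ∧
    (∀ (H : Subgroup G) (ι : Type) (D : ι → Subgroup G), DominatedAt W a i H D →
      (∀ j, QuotientSpan W a (D j) i) → QuotientSpan W a H i) ∧
    (∀ c : G, c * c = 1 → (KunnethSpan W X i ↔
      QuotientSpan W a (Subgroup.zpowers c) i ∧ QuotientSpan W a (comms c) i)) ∧
    (∀ c : G, InSimple c → c ≠ 1 → c * c = 1 →
      (KunnethSpan W X i ↔ QuotientSpan W a (Subgroup.zpowers c) i)) ∧
    (∀ (ι : Type) (D : ι → Subgroup G) (S : Subgroup G), Partitions S D →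
      (KunnethSpan W X i ↔ ∀ j, QuotientSpan W a (D j) i)) ∧
    (¬ KunnethSpan W X i → (∀ P : Subgroup G, (Nat.card P).Prime → QuotientSpan W a P i) →
      CommonFreeAt W a i ∧ CyclicSubgroups G) := by
  have : Fintype G := Fintype.ofFinite G
  obtain ⟨-, -, h3, h4, h5, h6⟩ := GC.main (ratAlg_span (W := W) (X := X)) (act := hAct W a)
    (fun g => hAct_mem a g) (π := proj (W.isInternal X) i) (fun g => hAct_proj a g i)
    (proj_mul_proj _ i)
  obtain ⟨g1, g2, g3⟩ := GK.mainK (Q := algSpan W X) algSpan_mul (act := hAct W a)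
    (fun g => hAct_mem a g) (π := proj (W.isInternal X) i) (fun g => hAct_proj a g i)
    (proj_mul_proj _ i)
  rw [range_proj, ker_proj] at g1 g3
  simp only [SetLike.mem_coe, quotientSpan_iff, kunnethSpan_iff] at h3 h4 h5 h6 g1 g3
  refine ⟨fun hN => g1 ?_, fun H ι D hD h => ?_, h3, h4, h5,
    fun h0 hP => ⟨?_, (h6 h0 hP).2⟩⟩
  · intro S _ _ ρ hρ h1 h2
    exact hN S ρ ⟨hρ, (occursAt_iff a _ ρ).1 h1, (occursAt_iff a _ ρ).1 h2⟩
  · have g2' := g2 H ι D
    rw [range_proj, ker_proj, quotientSpan_iff] at g2'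
    refine g2' ?_ fun j => (quotientSpan_iff a (D j) i).2 (h j)
    intro S _ _ ρ hρ h1 h2 hv
    exact hD S ρ ⟨hρ, (occursAt_iff a _ ρ).1 h1, (occursAt_iff a _ ρ).1 h2⟩ hv
  · obtain ⟨S, i1, i2, ρ, hρ, h1, h2, h3'⟩ := g3 h0 hP
    exact ⟨S, i1, i2, ρ, ⟨hρ, (occursAt_iff a _ ρ).1 h1, (occursAt_iff a _ ρ).1 h2⟩, h3'⟩

end

end Pool.Agent.X252.GKW
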