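import Pool.Agent.Y477.IW.KRing
import Pool.Agent.Y75.MQ.Stm

/-!
The functor `G ↦ ℚ ⊗ K₁(R[G])`, `R` an arbitrary ring, has transfers along cocycles of finite
support.
-/

namespace Pool.Agent.X252.KMQ

open Pool.Agent.Y483 Pool.Agent.Y110.KW Pool.Agent.Y75.MQ Pool.Agent.Y477.IW CategoryTheory
  TensorProduct

/-- The map `ℚ ⊗ A → ℚ ⊗ B` induced by a homomorphism `A → B` of abelian groups. -/
noncomputable def bc {A B : Type} [AddCommGroup A] [AddCommGroup B] (f : A →+ B) :
    ℚ ⊗[ℤ] A →ₗ[ℚ] ℚ ⊗[ℤ] B := f.toIntLinearMap.baseChange ℚ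

theorem bc_tmul {A B : Type} [AddCommGroup A] [AddCommGroup B] (f : A →+ B) (q : ℚ) (a : A) :
    bc f (q ⊗ₜ[ℤ] a) = q ⊗ₜ[ℤ] f a := rfl

theorem bc_inj {A B : Type} [AddCommGroup A] [AddCommGroup B] (f : A →+ B)
    (hf : Function.Injective f) : Function.Injective (bc f) :=
  Module.Flat.lTensor_preserves_injective_linearMap (M := ℚ) f.toIntLinearMap hf

theorem bc_comp {A B C : Type} [AddCommGroup A] [AddCommGroup B] [AddCommGroup C] (g : B →+ C)
    (f : A →+ B) (x : ℚ ⊗[ℤ] A) : bc (g.comp f) x = bc g (bc f x) := by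
  induction x using TensorProduct.induction_on with
  | zero => simp
  | tmul q a => rfl
  | add x y hx hy => rw [map_add, map_add, map_add, hx, hy]

theorem bc_id {A : Type} [AddCommGroup A] (x : ℚ ⊗[ℤ] A) : bc (AddMonoidHom.id A) x = x := by
  induction x using TensorProduct.induction_on with
  | zero => simp
  | tmul q a => rfl
  | add x y hx hy => rw [map_add, hx, hy]

/-- The functor `G ↦ ℚ ⊗ K₁(R[G])`. -/
noncomputable def kq (R : Type) [Ring R] : GrpCat.{0} ⥤ ModuleCat.{0} ℚ where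
  obj G := ModuleCat.of ℚ (ℚ ⊗[ℤ] (KG R G))
  map f := ModuleCat.ofHom (bc (kf R f.hom))
  map_id G := by
    apply ModuleCat.hom_ext
    apply LinearMap.ext
    intro x
    have h : kf R (𝟙 G : G ⟶ G).hom = AddMonoidHom.id (KG R G) := by
      ext x
      exact kf_id x
    change bc (kf R (𝟙 G : G ⟶ G).hom) x = x
    rw [h, bc_id]
  map_comp f g := by
    apply ModuleCat.hom_ext
    apply LinearMap.ext
    intro x
    have h : kf R (f ≫ g).hom = (kf R g.hom).comp (kf R f.hom) := by
      ext x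
      exact (kf_comp g.hom f.hom x).symm
    change bc (kf R (f ≫ g).hom) x = bc (kf R g.hom) (bc (kf R f.hom) x)
    rw [h, bc_comp]

section

variable {R : Type} [Ring R] {G A K G₀ : Type} [Group G] [MulAction G A] [Group K] [Group G₀]

/-- The map `K₁(R[G]) → K₁(R')`, `R'` the ring of pairs of operators with difference of finite
rank. -/
noncomputable def tr (R : Type) [Ring R] (κ : FinCocycle G A K) :
    KG R G →+ kFun.obj (DD (MonoidAlgebra (Sw R) K) A) :=
  (kFun.map (pHom (Sw R) (ipair κ)) - kFun.map (pHom (Sw R) (ipair (coc0 G A K)))).comp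
    (km (swI R) (MonoidHom.id G))

/-- The corner embedding. -/
noncomputable def cn (R : Type) [Ring R] (K : Type) [Group K] {A : Type} (a : A) :
    KG R K →+ kFun.obj (DD (MonoidAlgebra (Sw R) K) A) :=
  (kFun.map (corner (MonoidAlgebra (Sw R) K) A a)).comp (km (swI R) (MonoidHom.id K))

theorem cn_inj (a : A) : Function.Injective (cn R K a) :=
  (kFun.corner_inj (MonoidAlgebra (Sw R) K) A a).comp (km_inj K)

theorem tr_eq (κ : FinCocycle G A K) (j : G₀ →* G) (hj : ∀ g (a : A), j g • a = a) (Y : Finset A)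
    (hY : ∀ a ∉ Y, ∀ g, κ.c (j g) a = 1) (a₀ : A) (x : KG R G₀) :
    tr R κ (kf R j x) = cn R K a₀ (∑ a ∈ Y, (kf R (κ.label j hj a) x - kf R (1 : G₀ →* K) x)) := by
  have h1 := map_decomp (R := Sw R) kFun κ j hj Y hY (km (swI R) (MonoidHom.id G₀) x)
  have h2 := map_decomp (R := Sw R) kFun (coc0 G A K) j hj Y (fun _ _ _ => rfl)
    (km (swI R) (MonoidHom.id G₀) x)
  have h5 : ∀ a, (coc0 G A K).label j hj a = (1 : G₀ →* K) := fun a => rfl
  change kFun.map (pHom (Sw R) (ipair κ)) (km (swI R) (MonoidHom.id G)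
      (km (NonUnitalRingHom.id R) j x)) -
    kFun.map (pHom (Sw R) (ipair (coc0 G A K))) (km (swI R) (MonoidHom.id G)
      (km (NonUnitalRingHom.id R) j x)) = _
  rw [km_nat, h1, h2, add_sub_add_right_eq_sub]
  rw [map_sum, ← Finset.sum_sub_distrib]
  apply Finset.sum_congr rfl
  intro a _
  rw [map_sub]
  have e1 : ∀ f : G₀ →* K, cn R K a₀ (kf R f x) =
      kFun.map (corner (MonoidAlgebra (Sw R) K) A a)
        (kFun.gmap (Sw R) f (km (swI R) (MonoidHom.id G₀) x)) := by
    intro f
    change kFun.map (corner (MonoidAlgebra (Sw R) K) A a₀) (km (swI R) (MonoidHom.id K)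
      (km (NonUnitalRingHom.id R) f x)) = _
    rw [km_nat, kFun.map_corner a₀ a]
  rw [e1, e1, h5]

end

theorem hasTransfers_kq (R : Type) [Ring R] : HasTransfers (kq R) := by
  classical
  intro G A K _ _ _ κ
  by_cases hA : Nonempty A
  · obtain ⟨a₀⟩ := hA
    obtain ⟨r, hr⟩ := (bc (cn R K a₀)).exists_leftInverse_of_injective
      (LinearMap.ker_eq_bot.mpr (bc_inj _ (cn_inj a₀)))
    refine ⟨r ∘ₗ bc (tr R κ), ?_⟩
    intro G₀ _ j hj Y hY x
    have key : ∀ x : ℚ ⊗[ℤ] KG R G₀, bc (tr R κ) (bc (kf R j) x) = bc (cn R K a₀)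
        (∑ a ∈ Y, (bc (kf R (κ.label j hj a)) x - bc (kf R (1 : G₀ →* K)) x)) := by
      intro x
      induction x using TensorProduct.induction_on with
      | zero => simp only [map_zero, sub_zero, Finset.sum_const_zero]
      | tmul q y =>
        simp only [bc_tmul, ← TensorProduct.tmul_sub]
        rw [← TensorProduct.tmul_sum, bc_tmul, tr_eq κ j hj Y hY a₀ y]
      | add x y hx hy =>
        simp only [map_add]
        rw [hx, hy, ← map_add, ← Finset.sum_add_distrib]
        congr 1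
        apply Finset.sum_congr rfl
        intro a _
        abel
    have h2 : ∀ y, r (bc (cn R K a₀) y) = y := fun y => LinearMap.congr_fun hr y
    exact (congrArg r (key x)).trans (h2 _)
  · refine ⟨0, ?_⟩
    intro G₀ _ j hj Y hY x
    have hY0 : Y = ∅ := by
      ext a
      exact absurd ⟨a⟩ hA
    rw [hY0, Finset.sum_empty]
    rfl

end Pool.Agent.X252.KMQ
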