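import Pool.Agent.X252.KMQ
import Pool.Agent.Y483.PI.Tr
import Pool.Agent.Y483.PI.Main
import Pool.Agent.Y483.PW.Int

/-!
The functors `G ↦ K₁(R[G])` and `G ↦ ℚ ⊗ K₁(R[G])`, `R` an arbitrary ring, have transfers along
pairs of cocycles which agree outside finite sets.
-/

namespace Pool.Agent.X252.KMQ

open Pool.Agent.Y483 Pool.Agent.Y110.KW Pool.Agent.Y75.MQ Pool.Agent.Y477.IW Pool.Agent.Y483.PI
  CategoryTheory TensorProduct

section

variable {R : Type} [Ring R] {G A K G₀ : Type} [Group G] [Group K] [Group G₀]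

/-- The difference of the two maps defined by a pair of cocycles. -/
noncomputable def trP (R : Type) [Ring R] (κ : FinPair G A K) :
    KG R G →+ kFun.obj (DD (MonoidAlgebra (Sw R) K) A) :=
  (kFun.map (pHom (Sw R) κ) - kFun.map (pHom (Sw R) (PI.pD κ))).comp
    (km (swI R) (MonoidHom.id G))

theorem trP_eq (κ : FinPair G A K) (a₀ : A) (j : G₀ →* G) (Y : Finset A)
    (lc ld : A → (G₀ →* K))
    (hY1 : ∀ a ∈ Y, ∀ g, κ.σ (j g) a = a ∧ lc a g = κ.c (j g) a ∧ ld a g = κ.d (j g) a)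
    (hY2 : ∀ a ∉ Y, ∀ g, κ.c (j g) a = κ.d (j g) a) (x : KG R G₀) :
    trP R κ (kf R j x) = cn R K a₀ (∑ a ∈ Y, (kf R (lc a) x - kf R (ld a) x)) := by
  have h1 := PI.pre kFun (Sw R) κ a₀ j Y lc ld hY1 hY2 (km (swI R) (MonoidHom.id G₀) x)
  have e1 : ∀ f : G₀ →* K, cn R K a₀ (kf R f x) =
      kFun.map (corner (MonoidAlgebra (Sw R) K) A a₀)
        (kFun.gmap (Sw R) f (km (swI R) (MonoidHom.id G₀) x)) := by
    intro f
    change kFun.map (corner (MonoidAlgebra (Sw R) K) A a₀) (km (swI R) (MonoidHom.id K)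
      (km (NonUnitalRingHom.id R) f x)) = _
    rw [km_nat]
  have e2 : trP R κ (kf R j x) = kFun.map (pHom (Sw R) κ)
        (kFun.gmap (Sw R) j (km (swI R) (MonoidHom.id G₀) x)) -
      kFun.map (pHom (Sw R) (PI.pD κ))
        (kFun.gmap (Sw R) j (km (swI R) (MonoidHom.id G₀) x)) := by
    change kFun.map (pHom (Sw R) κ) (km (swI R) (MonoidHom.id G)
        (km (NonUnitalRingHom.id R) j x)) -
      kFun.map (pHom (Sw R) (PI.pD κ)) (km (swI R) (MonoidHom.id G)
        (km (NonUnitalRingHom.id R) j x)) = _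
    rw [km_nat]
  rw [e2, map_sum]
  refine h1.trans ?_
  rw [map_sum]
  apply Finset.sum_congr rfl
  intro a _
  rw [map_sub, map_sub, e1, e1]

end

theorem hasPTI_kgr (R : Type) [Ring R] : HasPTI (kgr R) := by
  classical
  intro G A K _ _ κ
  by_cases hA : Nonempty A
  · obtain ⟨a₀⟩ := hA
    refine ⟨kFun.obj (DD (MonoidAlgebra (Sw R) K) A), inferInstance, trP R κ, cn R K a₀,
      cn_inj a₀, ?_⟩
    intro G₀ _ j Y lc ld hY1 hY2 x
    exact trP_eq κ a₀ j Y lc ld hY1 hY2 x
  · refine ⟨(kgr R).obj (GrpCat.of K), inferInstance, 0, AddMonoidHom.id _,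
      Function.injective_id, ?_⟩
    intro G₀ _ j Y lc ld hY1 hY2 x
    have : Y = ∅ := by
      rw [Finset.eq_empty_iff_forall_notMem]
      intro a _
      exact hA ⟨a⟩
    rw [this, Finset.sum_empty, map_zero]
    rfl

theorem hasPT_kq (R : Type) [Ring R] : Pool.Agent.Y483.PW.HasPT (kq R) := by
  classical
  intro G A K _ _ κ
  by_cases hA : Nonempty A
  · obtain ⟨a₀⟩ := hA
    obtain ⟨r, hr⟩ := (bc (cn R K a₀)).exists_leftInverse_of_injective
      (LinearMap.ker_eq_bot.mpr (bc_inj _ (cn_inj a₀)))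
    refine ⟨r ∘ₗ bc (trP R κ), ?_⟩
    intro G₀ _ j Y lc ld hY1 hY2 x
    have key : ∀ x : ℚ ⊗[ℤ] KG R G₀, bc (trP R κ) (bc (kf R j) x) = bc (cn R K a₀)
        (∑ a ∈ Y, (bc (kf R (lc a)) x - bc (kf R (ld a)) x)) := by
      intro x
      induction x using TensorProduct.induction_on with
      | zero => simp only [map_zero, sub_zero, Finset.sum_const_zero]
      | tmul q y =>
        simp only [bc_tmul, ← TensorProduct.tmul_sub]
        rw [← TensorProduct.tmul_sum, bc_tmul, trP_eq κ a₀ j Y lc ld hY1 hY2 y]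
      | add x y hx hy =>
        simp only [map_add]
        rw [hx, hy, ← map_add, ← Finset.sum_add_distrib]
        congr 1
        apply Finset.sum_congr rfl
        intro a _
        abel
    have h2 : ∀ y, r (bc (cn R K a₀) y) = y := fun y => LinearMap.congr_fun hr y
    exact (congrArg r (key x)).trans (h2 _)
  · refine ⟨0, ?_⟩
    intro G₀ _ j Y lc ld hY1 hY2 x
    have hY0 : Y = ∅ := by
      ext a
      exact absurd ⟨a⟩ hA
    rw [hY0, Finset.sum_empty]
    rfl

end Pool.Agent.X252.KMQ
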