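import Pool.Agent.Y477.IW.IFun
import Pool.Agent.Y483.LInj
import Pool.Agent.Y75.MQ.Stm

/-!
The functor `G ↦ L₀(A[G]; ε) ⊗ ℚ`, `A` an arbitrary ring with involution, has transfers along
cocycles of finite support.
-/

namespace Pool.Agent.X252.LMQ

open Pool.Agent.Y483 Pool.Agent.Y110.KW Pool.Agent.Y75.MQ Pool.Agent.Y477.IW CategoryTheory

/-- The rationalised quadratic L-group, as a functor with values in abelian groups. -/
noncomputable def iL (ε : ℤˣ) : IFunctor.{0} where
  obj R _ _ := LQ R ε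
  grp R _ _ := inferInstance
  map f := (LQ.map ε f).toAddMonoidHom
  map_id R _ _ z := LQ.map_id' ε R z
  map_comp g f z := LQ.map_comp' ε g f z
  map_add f g h h1 h2 z := LQ.map_add' ε f g h h1 h2 z
  map_conj f g u h1 h2 h3 z := LQ.map_conj' ε f g u h1 h2 h3 z
  corner_inj S _ _ A a := LQ.corner_inj ε S A a

/-- The functor `G ↦ L₀(A[G]; ε) ⊗ ℚ`. -/
noncomputable def lqa (A : Type) [Ring A] [StarRing A] (ε : ℤˣ) :
    GrpCat.{0} ⥤ ModuleCat.{0} ℚ where
  obj G := ModuleCat.of ℚ (LQ (MonoidAlgebra A G) ε)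
  map f := ModuleCat.ofHom (LQ.map ε (grMap A f.hom))
  map_id G := by
    apply ModuleCat.hom_ext
    apply LinearMap.ext
    intro x
    exact (iL ε).gmap_id A x
  map_comp f g := by
    apply ModuleCat.hom_ext
    apply LinearMap.ext
    intro x
    exact (iL ε).gmap_comp A g.hom f.hom x

theorem lqa_key {G A K G₀ : Type} [Group G] [MulAction G A] [Group K] [Group G₀] (E : IFunctor.{0})
    (R : Type) [Ring R] [StarRing R] (κ : FinCocycle G A K) (a₀ : A) (j : G₀ →* G)
    (hj : ∀ g (a : A), j g • a = a) (Y : Finset A) (hY : ∀ a ∉ Y, ∀ g, κ.c (j g) a = 1)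
    (x : E.gobj R G₀) :
    E.map (pHom R (ipair κ)) (E.gmap R j x) - E.map (pHom R (ipair (coc0 G A K))) (E.gmap R j x) =
      E.map (corner (MonoidAlgebra R K) A a₀)
        (∑ a ∈ Y, (E.gmap R (κ.label j hj a) x - E.gmap R (1 : G₀ →* K) x)) := by
  have h1 := map_decomp (R := R) E κ j hj Y hY x
  have h2 := map_decomp (R := R) E (coc0 G A K) j hj Y (fun _ _ _ => rfl) x
  have h5 : ∀ a, (coc0 G A K).label j hj a = (1 : G₀ →* K) := fun a => rfl
  rw [h1, h2, add_sub_add_right_eq_sub, map_sum, ← Finset.sum_sub_distrib]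
  apply Finset.sum_congr rfl
  intro a _
  rw [map_sub, h5, E.map_corner a a₀, E.map_corner a a₀]

theorem hasTransfers_lqa (R : Type) [Ring R] [StarRing R] (ε : ℤˣ) : HasTransfers (lqa R ε) := by
  classical
  intro G A K _ _ _ κ
  by_cases hA : Nonempty A
  · obtain ⟨a₀⟩ := hA
    obtain ⟨r, hr⟩ := (LQ.map ε (corner (MonoidAlgebra R K) A a₀)).exists_leftInverse_of_injective
      (LinearMap.ker_eq_bot.mpr (LQ.corner_inj ε (MonoidAlgebra R K) A a₀))
    refine ⟨r ∘ₗ (LQ.map ε (pHom R (ipair κ)) - LQ.map ε (pHom R (ipair (coc0 G A K)))), ?_⟩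
    intro G₀ _ j hj Y hY x
    have key := lqa_key (iL ε) R κ a₀ j hj Y hY x
    have h6 : ∀ y, r (LQ.map ε (corner (MonoidAlgebra R K) A a₀) y) = y :=
      fun y => LinearMap.congr_fun hr y
    exact (congrArg r key).trans (h6 _)
  · refine ⟨0, ?_⟩
    intro G₀ _ j hj Y hY x
    have hY0 : Y = ∅ := by
      ext a
      exact absurd ⟨a⟩ hA
    rw [hY0, Finset.sum_empty]
    rfl

end Pool.Agent.X252.LMQ
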