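import Mathlib

/-!
Powers of the augmentation ideal of a group ring: functoriality, multiplication by elements whose
augmentation is a unit, and the decomposition according to the subsets of a set of components.
-/

set_option autoImplicit false

namespace Pool.Agent.X252.MT

open Finset

section basic

variable {A : Type} [CommRing A] {G H K : Type} [CommGroup G] [CommGroup H] [CommGroup K]

/-- the augmentation ideal of the group ring `A[G]` -/
noncomputable def Aug (A G : Type) [CommRing A] [CommGroup G] : Ideal (MonoidAlgebra A G) :=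
  Ideal.span (Set.range fun g : G => MonoidAlgebra.of A G g - 1)

/-- the map of group rings given by a homomorphism of groups -/
noncomputable def mp (A : Type) [CommRing A] {G H : Type} [CommGroup G] [CommGroup H]
    (φ : G →* H) : MonoidAlgebra A G →ₐ[A] MonoidAlgebra A H :=
  MonoidAlgebra.mapDomainAlgHom A A φ

lemma mp_of (φ : G →* H) (g : G) :
    mp A φ (MonoidAlgebra.of A G g) = MonoidAlgebra.of A H (φ g) := by
  simp [mp]

lemma mp_mp (φ : G →* H) (ψ : H →* K) (z : MonoidAlgebra A G) :
    mp A ψ (mp A φ z) = mp A (ψ.comp φ) z := by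
  unfold mp
  rw [MonoidAlgebra.mapDomainAlgHom_comp]
  rfl

lemma sub_mem_aug (g : G) : MonoidAlgebra.of A G g - 1 ∈ Aug A G :=
  Ideal.subset_span ⟨g, rfl⟩

lemma mp_mem_aug (φ : G →* H) {z : MonoidAlgebra A G} (hz : z ∈ Aug A G) : mp A φ z ∈ Aug A H := by
  have h1 : Aug A G ≤ (Aug A H).comap (mp A φ) := by
    unfold Aug
    rw [Ideal.span_le]
    rintro _ ⟨g, rfl⟩
    show mp A φ _ ∈ Ideal.span (Set.range fun g : H => MonoidAlgebra.of A H g - 1)
    rw [map_sub, map_one, mp_of]
    exact Ideal.subset_span ⟨φ g, rfl⟩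
  exact h1 hz

lemma mp_mem (φ : G →* H) {k : ℕ} {z : MonoidAlgebra A G} (hz : z ∈ Aug A G ^ k) :
    mp A φ z ∈ Aug A H ^ k := by
  have h1 : Aug A G ≤ (Aug A H).comap (mp A φ) := fun z hz => mp_mem_aug φ hz
  have h2 : Aug A G ^ k ≤ (Aug A H ^ k).comap (mp A φ) :=
    (Ideal.pow_right_mono h1 k).trans (Ideal.le_comap_pow (mp A φ) k)
  exact h2 hz

/-- the augmentation -/
noncomputable def eps (A G : Type) [CommRing A] [CommGroup G] : MonoidAlgebra A G →ₐ[A] A :=
  MonoidAlgebra.lift A A G 1

lemma eps_of (g : G) : eps A G (MonoidAlgebra.of A G g) = 1 := by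
  unfold eps
  rw [MonoidAlgebra.lift_of]
  rfl

lemma sub_eps_mem (z : MonoidAlgebra A G) : z - algebraMap A _ (eps A G z) ∈ Aug A G := by
  induction z using MonoidAlgebra.induction_on with
  | of g =>
    rw [eps_of, map_one]
    exact sub_mem_aug g
  | add x y hx hy =>
    rw [map_add, map_add]
    have := (Aug A G).add_mem hx hy
    convert this using 1
    ring
  | smul r x hx =>
    rw [map_smul, smul_eq_mul, map_mul, Algebra.smul_def, ← mul_sub]
    exact (Aug A G).mul_mem_left _ hx

lemma eps_mem {z : MonoidAlgebra A G} (hz : z ∈ Aug A G) : eps A G z = 0 := by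
  have h1 : Aug A G ≤ RingHom.ker (eps A G) := by
    unfold Aug
    rw [Ideal.span_le]
    rintro _ ⟨g, rfl⟩
    show eps A G _ = 0
    rw [map_sub, map_one, eps_of, sub_self]
  exact h1 hz

lemma mem_aug_iff (z : MonoidAlgebra A G) : z ∈ Aug A G ↔ eps A G z = 0 := by
  refine ⟨eps_mem, fun h => ?_⟩
  have := sub_eps_mem z
  rwa [h, map_zero, sub_zero] at this

/-- multiplication by an element whose augmentation is a unit -/
lemma mem_of_mul_mem {u z : MonoidAlgebra A G} {a : A} (ha : IsUnit a)
    (hu : u - algebraMap A _ a ∈ Aug A G) : ∀ {k : ℕ}, u * z ∈ Aug A G ^ k → z ∈ Aug A G ^ k := by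
  intro k
  induction k with
  | zero => intro _; simp
  | succ k ih =>
    intro h
    have h1 : z ∈ Aug A G ^ k := ih (Ideal.pow_le_pow_right (Nat.le_succ k) h)
    have h2 : (u - algebraMap A _ a) * z ∈ Aug A G ^ (k + 1) := by
      rw [pow_succ']
      exact Ideal.mul_mem_mul hu h1
    obtain ⟨b, hb⟩ := ha.exists_right_inv
    have h3 : z = algebraMap A (MonoidAlgebra A G) b * (u * z - (u - algebraMap A _ a) * z) := by
      have h4 : algebraMap A (MonoidAlgebra A G) b * algebraMap A (MonoidAlgebra A G) a = 1 := by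
        rw [← map_mul, mul_comm, hb, map_one]
      calc z = (algebraMap A (MonoidAlgebra A G) b * algebraMap A (MonoidAlgebra A G) a) * z := by
            rw [h4, one_mul]
        _ = _ := by ring
    rw [h3]
    exact Ideal.mul_mem_left _ _ (Ideal.sub_mem _ h h2)

lemma prod_sub_mem {ι : Type} (T : Finset ι) (V : ι → MonoidAlgebra A G) (a : ι → A)
    (h : ∀ i ∈ T, V i - algebraMap A _ (a i) ∈ Aug A G) :
    ∏ i ∈ T, V i - algebraMap A _ (∏ i ∈ T, a i) ∈ Aug A G := by
  classical
  rw [mem_aug_iff, map_sub, map_prod, sub_eq_zero]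
  have h1 : ∀ b : A, eps A G (algebraMap A _ b) = b := fun b => by
    rw [AlgHom.commutes]
    rfl
  rw [h1]
  refine Finset.prod_congr rfl fun i hi => ?_
  have h2 := (mem_aug_iff _).1 (h i hi)
  rw [map_sub, h1, sub_eq_zero] at h2
  exact h2

end basic

section subsets

variable {A : Type} [CommRing A] {G : Type} [CommGroup G] {ι : Type} [DecidableEq ι]

/-- the endomorphism of the group ring given by a set of components -/
noncomputable def ET (A : Type) [CommRing A] (e : ι → (G →* G)) (T : Finset ι) :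
    MonoidAlgebra A G →ₐ[A] MonoidAlgebra A G :=
  mp A (∏ q ∈ T, e q)

/-- the alternating sum -/
noncomputable def DT (A : Type) [CommRing A] (e : ι → (G →* G)) (T : Finset ι) :
    MonoidAlgebra A G →ₗ[A] MonoidAlgebra A G :=
  ∑ t ∈ T.powerset, ((-1 : A) ^ (T \ t).card) • (ET A e t).toLinearMap

omit [DecidableEq ι] in
lemma ET_of (e : ι → (G →* G)) (T : Finset ι) (g : G) :
    ET A e T (MonoidAlgebra.of A G g) = ∏ q ∈ T, MonoidAlgebra.of A G (e q g) := by
  unfold ET
  rw [mp_of, MonoidHom.finsetProd_apply, map_prod]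

lemma DT_of (e : ι → (G →* G)) (T : Finset ι) (g : G) :
    DT A e T (MonoidAlgebra.of A G g) = ∏ q ∈ T, (MonoidAlgebra.of A G (e q g) - 1) := by
  have h1 : ∏ q ∈ T, (MonoidAlgebra.of A G (e q g) - 1) =
      ∏ q ∈ T, (MonoidAlgebra.of A G (e q g) + (-1)) := by
    refine Finset.prod_congr rfl fun q _ => ?_
    rw [sub_eq_add_neg]
  rw [h1, Finset.prod_add]
  unfold DT
  rw [LinearMap.sum_apply]
  refine Finset.sum_congr rfl fun t _ => ?_
  rw [LinearMap.smul_apply, AlgHom.toLinearMap_apply, ET_of, Finset.prod_const, Algebra.smul_def,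
    map_pow, map_neg, map_one, mul_comm]

lemma DT_mem (e : ι → (G →* G)) (T : Finset ι) (z : MonoidAlgebra A G) :
    DT A e T z ∈ Aug A G ^ T.card := by
  induction z using MonoidAlgebra.induction_on with
  | of g =>
    rw [DT_of]
    have : ∏ q ∈ T, (MonoidAlgebra.of A G (e q g) - 1) ∈ ∏ q ∈ T, Aug A G :=
      Ideal.prod_mem_prod fun q _ => sub_mem_aug _
    rwa [Finset.prod_const] at this
  | add x y hx hy =>
    rw [map_add]
    exact Ideal.add_mem _ hx hy
  | smul r x hx =>
    rw [map_smul, Algebra.smul_def]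
    exact Ideal.mul_mem_left _ _ hx

lemma sum_DT (e : ι → (G →* G)) (T : Finset ι) (he : ∀ g, ∏ q ∈ T, e q g = g)
    (z : MonoidAlgebra A G) : ∑ t ∈ T.powerset, DT A e t z = z := by
  induction z using MonoidAlgebra.induction_on with
  | of g =>
    have h1 : MonoidAlgebra.of A G g =
        ∏ q ∈ T, ((MonoidAlgebra.of A G (e q g) - 1) + 1) := by
      simp only [sub_add_cancel]
      rw [← map_prod, he]
    conv_rhs => rw [h1, Finset.prod_add]
    refine Finset.sum_congr rfl fun t _ => ?_
    rw [DT_of, Finset.prod_const_one, mul_one]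
  | add x y hx hy =>
    simp only [map_add, Finset.sum_add_distrib]
    rw [hx, hy]
  | smul r x hx =>
    simp only [map_smul]
    rw [← Finset.smul_sum, hx]

/-- **the subsets with fewer than `k` elements detect the `k`-th power** -/
theorem subsets (e : ι → (G →* G)) (T : Finset ι) (he : ∀ g, ∏ q ∈ T, e q g = g) (k : ℕ)
    (z : MonoidAlgebra A G)
    (hz : ∀ t ⊆ T, t.card < k → ET A e t z ∈ Aug A G ^ k) : z ∈ Aug A G ^ k := by
  rw [← sum_DT e T he z]
  refine Ideal.sum_mem _ fun t ht => ?_
  rw [Finset.mem_powerset] at ht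
  by_cases h : t.card < k
  · unfold DT
    rw [LinearMap.sum_apply]
    refine Ideal.sum_mem _ fun s hs => ?_
    rw [Finset.mem_powerset] at hs
    rw [LinearMap.smul_apply, AlgHom.toLinearMap_apply, Algebra.smul_def]
    exact Ideal.mul_mem_left _ _ (hz s (hs.trans ht) (lt_of_le_of_lt (Finset.card_le_card hs) h))
  · exact Ideal.pow_le_pow_right (not_lt.1 h) (DT_mem e t z)

end subsets

end Pool.Agent.X252.MT
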