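import Pool.Agent.X252.MTA

/-!
Powers of the augmentation ideal and polynomials in the elements `g - 1`.
-/

set_option autoImplicit false

namespace Pool.Agent.X252.MT

open Finset

section poly

variable {A : Type} [CommRing A] {G C : Type} [CommGroup G] [CommGroup C]

/-- the element `g - 1` -/
noncomputable def tt (A : Type) [CommRing A] {G : Type} [CommGroup G] (g : G) :
    MonoidAlgebra A G := MonoidAlgebra.of A G g - 1

lemma tt_mem (g : G) : tt A g ∈ Aug A G := sub_mem_aug g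

lemma mp_tt (φ : G →* C) (g : G) : mp A φ (tt A g) = tt A (φ g) := by
  unfold tt
  rw [map_sub, map_one, mp_of]

lemma tt_one : tt A (1 : G) = 0 := by
  unfold tt
  rw [map_one, sub_self]

lemma tt_mul (g h : G) : tt A (g * h) - (tt A g + tt A h) ∈ Aug A G ^ 2 := by
  have h1 : tt A (g * h) - (tt A g + tt A h) = tt A g * tt A h := by
    unfold tt
    rw [map_mul]
    ring
  rw [h1, pow_two]
  exact Ideal.mul_mem_mul (tt_mem g) (tt_mem h)

lemma tt_pow (g : G) (n : ℕ) : tt A (g ^ n) - (n : MonoidAlgebra A G) * tt A g ∈ Aug A G ^ 2 := by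
  induction n with
  | zero => simp [tt_one]
  | succ n ih =>
    have h1 := tt_mul (A := A) (g ^ n) g
    rw [← pow_succ] at h1
    have h2 := Ideal.add_mem _ h1 ih
    push_cast
    convert h2 using 1
    ring

lemma tt_prod {ι : Type} (T : Finset ι) (g : ι → G) (a : ι → ℕ) :
    tt A (∏ i ∈ T, g i ^ a i) - ∑ i ∈ T, (a i : MonoidAlgebra A G) * tt A (g i) ∈ Aug A G ^ 2 := by
  classical
  induction T using Finset.induction_on with
  | empty => simp [tt_one]
  | insert i T hi ih =>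
    rw [Finset.prod_insert hi, Finset.sum_insert hi]
    have h1 := tt_mul (A := A) (g i ^ a i) (∏ i ∈ T, g i ^ a i)
    have h2 := Ideal.add_mem _ (Ideal.add_mem _ h1 ih) (tt_pow (A := A) (g i) (a i))
    convert h2 using 1
    ring

lemma nat_mul_tt {g : G} {N : ℕ} (hg : g ^ N = 1) :
    (N : MonoidAlgebra A G) * tt A g ∈ Aug A G ^ 2 := by
  have h1 := tt_pow (A := A) g N
  rw [hg, tt_one, zero_sub] at h1
  exact (Ideal.neg_mem_iff _).1 h1

lemma nat_mul_mem {N : ℕ} (hG : ∀ g : G, g ^ N = 1) {k : ℕ} (hk : 1 ≤ k) {z : MonoidAlgebra A G}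
    (hz : z ∈ Aug A G ^ k) : (N : MonoidAlgebra A G) * z ∈ Aug A G ^ (k + 1) := by
  have h1 : ∀ z ∈ Aug A G, (N : MonoidAlgebra A G) * z ∈ Aug A G ^ 2 := by
    intro z hz
    have h2 : Aug A G ≤ Submodule.comap (LinearMap.mulLeft (MonoidAlgebra A G)
        (N : MonoidAlgebra A G)) (Aug A G ^ 2) := by
      unfold Aug
      rw [Ideal.span_le]
      rintro _ ⟨g, rfl⟩
      exact nat_mul_tt (A := A) (hG g)
    exact h2 hz
  obtain ⟨k, rfl⟩ : ∃ m, k = m + 1 := ⟨k - 1, by omega⟩
  have h3 : Aug A G ^ (k + 1) ≤ Submodule.comap (LinearMap.mulLeft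
      (MonoidAlgebra A G) (N : MonoidAlgebra A G)) (Aug A G ^ (k + 1 + 1)) := by
    rw [pow_succ]
    rw [Ideal.mul_le]
    intro x hx y hy
    show (N : MonoidAlgebra A G) * (x * y) ∈ Aug A G ^ (k + 1 + 1)
    have h4 := Ideal.mul_mem_mul hx (h1 y hy)
    rw [← pow_add] at h4
    rw [show k + 1 + 1 = k + 2 by ring]
    convert h4 using 1
    ring
  exact h3 hz

/-- the value of an integral polynomial -/
noncomputable def pev {R ι : Type} [CommRing R] (x : ι → R) (P : MvPolynomial ι ℤ) : R :=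
  MvPolynomial.eval₂ (Int.castRingHom R) x P

/-! ### congruences between products -/

lemma prod_cong {R ι : Type} [CommRing R] (I : Ideal R) (T : Finset ι) (u v : ι → R) (m : ι → ℕ)
    (hu : ∀ i ∈ T, u i ∈ I ^ m i) (hv : ∀ i ∈ T, v i ∈ I ^ m i)
    (h : ∀ i ∈ T, u i - v i ∈ I ^ (m i + 1)) :
    ∏ i ∈ T, u i - ∏ i ∈ T, v i ∈ I ^ (∑ i ∈ T, m i + 1) ∧ ∏ i ∈ T, u i ∈ I ^ ∑ i ∈ T, m i ∧
      ∏ i ∈ T, v i ∈ I ^ ∑ i ∈ T, m i := by
  classical
  induction T using Finset.induction_on with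
  | empty => simp
  | insert i T hi ih =>
    obtain ⟨h1, h2, h3⟩ := ih (fun j hj => hu j (Finset.mem_insert_of_mem hj))
      (fun j hj => hv j (Finset.mem_insert_of_mem hj))
      (fun j hj => h j (Finset.mem_insert_of_mem hj))
    have hi' := Finset.mem_insert_self i T
    rw [Finset.prod_insert hi, Finset.prod_insert hi, Finset.sum_insert hi]
    refine ⟨?_, ?_, ?_⟩
    · have e : u i * ∏ j ∈ T, u j - v i * ∏ j ∈ T, v j =
          (u i - v i) * ∏ j ∈ T, u j + v i * (∏ j ∈ T, u j - ∏ j ∈ T, v j) := by ring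
      rw [e]
      refine Ideal.add_mem _ ?_ ?_
      · have := Ideal.mul_mem_mul (h i hi') h2
        rw [← pow_add] at this
        convert this using 2
        ring
      · have := Ideal.mul_mem_mul (hv i hi') h1
        rw [← pow_add] at this
        convert this using 2
        ring
    · rw [pow_add]
      exact Ideal.mul_mem_mul (hu i hi') h2
    · rw [pow_add]
      exact Ideal.mul_mem_mul (hv i hi') h3

lemma pow_cong {R : Type} [CommRing R] (I : Ideal R) {x y : R} (hx : x ∈ I) (hy : y ∈ I)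
    (h : x - y ∈ I ^ 2) (n : ℕ) : x ^ n - y ^ n ∈ I ^ (n + 1) := by
  have h1 := (prod_cong I (Finset.range n) (fun _ => x) (fun _ => y) (fun _ => 1)
    (fun i _ => by rwa [pow_one]) (fun i _ => by rwa [pow_one]) (fun i _ => h)).1
  simpa using h1

lemma pev_add {R ι : Type} [CommRing R] (x : ι → R) (P Q : MvPolynomial ι ℤ) :
    pev x (P + Q) = pev x P + pev x Q := MvPolynomial.eval₂_add _ _

lemma pev_mul {R ι : Type} [CommRing R] (x : ι → R) (P Q : MvPolynomial ι ℤ) :
    pev x (P * Q) = pev x P * pev x Q := MvPolynomial.eval₂_mul _ _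

lemma pev_C {R ι : Type} [CommRing R] (x : ι → R) (n : ℤ) :
    pev x (MvPolynomial.C n) = (n : R) := MvPolynomial.eval₂_C _ _ _

lemma pev_X {R ι : Type} [CommRing R] (x : ι → R) (i : ι) :
    pev x (MvPolynomial.X i) = x i := MvPolynomial.eval₂_X _ _ _

lemma pev_zero {R ι : Type} [CommRing R] (x : ι → R) : pev x 0 = 0 := MvPolynomial.eval₂_zero _ _

lemma pev_sum {R ι κ : Type} [CommRing R] (x : ι → R) (T : Finset κ) (P : κ → MvPolynomial ι ℤ) :
    pev x (∑ i ∈ T, P i) = ∑ i ∈ T, pev x (P i) :=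
  map_sum (MvPolynomial.eval₂Hom (Int.castRingHom R) x) _ _

lemma map_pev {R S ι : Type} [CommRing R] [CommRing S] (f : R →+* S) (x : ι → R)
    (P : MvPolynomial ι ℤ) : f (pev x P) = pev (fun i => f (x i)) P := by
  unfold pev
  rw [MvPolynomial.hom_eval₂]
  congr 1
  exact RingHom.ext_int _ _

lemma aeval_cong {R ι : Type} [CommRing R] [Fintype ι] (I : Ideal R) (x y : ι → R)
    (hx : ∀ i, x i ∈ I) (hy : ∀ i, y i ∈ I) (h : ∀ i, x i - y i ∈ I ^ 2) {P : MvPolynomial ι ℤ}
    {k : ℕ} (hP : P.IsHomogeneous k) :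
    pev x P - pev y P ∈ I ^ (k + 1) := by
  rw [pev, pev, MvPolynomial.eval₂_eq', MvPolynomial.eval₂_eq',
    ← Finset.sum_sub_distrib]
  refine Ideal.sum_mem _ fun d hd => ?_
  rw [← mul_sub]
  refine Ideal.mul_mem_left _ _ ?_
  have h1 := (prod_cong I Finset.univ (fun i => x i ^ d i) (fun i => y i ^ d i) (fun i => d i)
    (fun i _ => Ideal.pow_mem_pow (hx i) _) (fun i _ => Ideal.pow_mem_pow (hy i) _)
    (fun i _ => pow_cong I (hx i) (hy i) (h i) _)).1
  have h2 : ∑ i, d i = k := by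
    have h3 := hP (MvPolynomial.mem_support_iff.1 hd)
    rw [← h3, Finsupp.weight_apply, Finsupp.sum_fintype _ _ (fun i => by simp)]
    simp
  rwa [h2] at h1

lemma aeval_mem {R ι : Type} [CommRing R] [Fintype ι] (I : Ideal R) (x : ι → R)
    (hx : ∀ i, x i ∈ I) {P : MvPolynomial ι ℤ} {k : ℕ} (hP : P.IsHomogeneous k) :
    pev x P ∈ I ^ k := by
  rw [pev, MvPolynomial.eval₂_eq']
  refine Ideal.sum_mem _ fun d hd => ?_
  refine Ideal.mul_mem_left _ _ ?_
  have h2 : ∑ i, d i = k := by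
    have h3 := hP (MvPolynomial.mem_support_iff.1 hd)
    rw [← h3, Finsupp.weight_apply, Finsupp.sum_fintype _ _ (fun i => by simp)]
    simp
  have h1 : ∏ i, x i ^ d i ∈ ∏ i, I ^ d i :=
    Ideal.prod_mem_prod fun i _ => Ideal.pow_mem_pow (hx i) _
  rwa [Finset.prod_pow_eq_pow_sum, h2] at h1

/-- polynomials at multiples of one element -/
lemma aeval_mul {R ι : Type} [CommRing R] [Fintype ι] (a : ι → ℤ) (t : R)
    {P : MvPolynomial ι ℤ} {k : ℕ} (hP : P.IsHomogeneous k) :
    pev (fun i => (a i : R) * t) P = (MvPolynomial.eval a P : R) * t ^ k := by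
  rw [pev, MvPolynomial.eval₂_eq', MvPolynomial.eval_eq', Int.cast_sum,
    Finset.sum_mul]
  refine Finset.sum_congr rfl fun d hd => ?_
  have h2 : ∑ i, d i = k := by
    have h3 := hP (MvPolynomial.mem_support_iff.1 hd)
    rw [← h3, Finsupp.weight_apply, Finsupp.sum_fintype _ _ (fun i => by simp)]
    simp
  simp only [mul_pow]
  rw [Finset.prod_mul_distrib, Finset.prod_pow_eq_pow_sum, h2]
  push_cast
  simp only [eq_intCast]
  ring

/-! ### the leading polynomial -/

/-- `g` is a finite family of generators -/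
def Gens {ι : Type} [Fintype ι] (g : ι → G) : Prop := ∀ x : G, ∃ a : ι → ℕ, x = ∏ i, g i ^ a i

lemma lead1 {ι : Type} [Fintype ι] {g : ι → G} (hg : Gens g) {N : ℕ} (hG : ∀ x : G, x ^ N = 1)
    (hA : ∀ a : A, ∃ (n : ℤ) (b : A), a = n + (N : A) * b) {z : MonoidAlgebra A G}
    (hz : z ∈ Aug A G) : ∃ P : MvPolynomial ι ℤ, P.IsHomogeneous 1 ∧
      z - pev (fun i => tt A (g i)) P ∈ Aug A G ^ 2 := by
  unfold Aug at hz
  induction hz using Submodule.span_induction with
  | mem x hx =>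
    obtain ⟨y, rfl⟩ := hx
    obtain ⟨a, ha⟩ := hg y
    refine ⟨∑ i, MvPolynomial.C (a i : ℤ) * MvPolynomial.X i, ?_, ?_⟩
    · refine MvPolynomial.IsHomogeneous.sum _ _ _ fun i _ => ?_
      have h1 := (MvPolynomial.isHomogeneous_C ι (a i : ℤ)).mul (MvPolynomial.isHomogeneous_X ℤ i)
      simpa using h1
    · have h1 := tt_prod (A := A) Finset.univ g a
      rw [← ha] at h1
      rw [pev_sum]
      simp only [pev_mul, pev_C, pev_X, Int.cast_natCast]
      exact h1
  | zero => exact ⟨0, MvPolynomial.isHomogeneous_zero _ _ _, by simp [pev_zero]⟩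
  | add x y _ _ hx hy =>
    obtain ⟨P, h1, h2⟩ := hx
    obtain ⟨Q, h3, h4⟩ := hy
    refine ⟨P + Q, h1.add h3, ?_⟩
    have h5 := Ideal.add_mem _ h2 h4
    rw [pev_add]
    convert h5 using 1
    ring
  | smul c x hx' hx =>
    obtain ⟨P, h1, h2⟩ := hx
    obtain ⟨n, b, hn⟩ := hA (eps A G c)
    refine ⟨MvPolynomial.C n * P, ?_, ?_⟩
    · have := (MvPolynomial.isHomogeneous_C ι n).mul h1
      simpa using this
    · have h3 : (c - algebraMap A _ (eps A G c)) * x ∈ Aug A G ^ 2 := by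
        rw [pow_two]
        exact Ideal.mul_mem_mul (sub_eps_mem c) hx'
      have h4 : (N : MonoidAlgebra A G) * x ∈ Aug A G ^ 2 :=
        nat_mul_mem hG (k := 1) le_rfl (by rw [pow_one]; exact hx')
      have h5 : c • x - pev (fun i => tt A (g i)) (MvPolynomial.C n * P) =
          (c - algebraMap A _ (eps A G c)) * x + algebraMap A _ b * ((N : MonoidAlgebra A G) * x) +
          (n : MonoidAlgebra A G) *
            (x - pev (fun i => tt A (g i)) P) := by
        rw [pev_mul, pev_C, hn, smul_eq_mul]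
        simp only [map_add, map_mul, map_intCast, map_natCast]
        ring
      rw [h5]
      exact Ideal.add_mem _ (Ideal.add_mem _ h3 (Ideal.mul_mem_left _ _ h4))
        (Ideal.mul_mem_left _ _ h2)

lemma lead {ι : Type} [Fintype ι] {g : ι → G} (hg : Gens g) {N : ℕ} (hG : ∀ x : G, x ^ N = 1)
    (hA : ∀ a : A, ∃ (n : ℤ) (b : A), a = n + (N : A) * b) : ∀ {k : ℕ}, 1 ≤ k →
    ∀ {z : MonoidAlgebra A G}, z ∈ Aug A G ^ k → ∃ P : MvPolynomial ι ℤ, P.IsHomogeneous k ∧
      z - pev (fun i => tt A (g i)) P ∈ Aug A G ^ (k + 1) := by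
  intro k hk
  induction k, hk using Nat.le_induction with
  | base =>
    intro z hz
    rw [pow_one] at hz
    exact lead1 hg hG hA hz
  | succ k hk ih =>
    intro z hz
    rw [pow_succ] at hz
    induction hz using Submodule.mul_induction_on' with
    | mem_mul_mem x hx y hy =>
      obtain ⟨P, h1, h2⟩ := ih hx
      obtain ⟨Q, h3, h4⟩ := lead1 hg hG hA hy
      refine ⟨P * Q, h1.mul h3, ?_⟩
      rw [pev_mul]
      have h5 : x * y - pev (fun i => tt A (g i)) P *
          pev (fun i => tt A (g i)) Q =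
          (x - pev (fun i => tt A (g i)) P) * y +
          pev (fun i => tt A (g i)) P *
            (y - pev (fun i => tt A (g i)) Q) := by ring
      rw [h5]
      refine Ideal.add_mem _ ?_ ?_
      · rw [pow_succ]
        exact Ideal.mul_mem_mul h2 hy
      · have h6 := Ideal.mul_mem_mul (aeval_mem (Aug A G) (fun i => tt A (g i))
          (fun i => tt_mem _) h1) h4
        rw [← pow_add] at h6
        rwa [show k + 1 + 1 = k + 2 by ring]
    | add x _ y _ hx hy =>
      obtain ⟨P, h1, h2⟩ := hx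
      obtain ⟨Q, h3, h4⟩ := hy
      refine ⟨P + Q, h1.add h3, ?_⟩
      have h5 := Ideal.add_mem _ h2 h4
      rw [pev_add]
      convert h5 using 1
      ring

/-- evaluation of the leading polynomial on a cyclic group -/
lemma lead_eval {ι : Type} [Fintype ι] {g : ι → G} {γ : C} (φ : G →* C) (a : ι → ℕ)
    (hφ : ∀ i, φ (g i) = γ ^ a i) {P : MvPolynomial ι ℤ} {k : ℕ} (hP : P.IsHomogeneous k)
    {z : MonoidAlgebra A G}
    (hz : z - pev (fun i => tt A (g i)) P ∈ Aug A G ^ (k + 1))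
    (h : mp A φ z ∈ Aug A C ^ (k + 1)) :
    ((MvPolynomial.eval (fun i => (a i : ℤ)) P : ℤ) : MonoidAlgebra A C) * tt A γ ^ k ∈
      Aug A C ^ (k + 1) := by
  have h1 := mp_mem (A := A) φ hz
  rw [map_sub] at h1
  have h2 : mp A φ (pev (fun i => tt A (g i)) P) = pev (fun i => tt A (φ (g i))) P := by
    have h3 := map_pev (mp A φ : MonoidAlgebra A G →+* MonoidAlgebra A C) (fun i => tt A (g i)) P
    simp only [AlgHom.coe_toRingHom, RingHom.coe_coe] at h3
    rw [h3]
    simp only [mp_tt]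
  rw [h2] at h1
  have h3 := aeval_cong (Aug A C) (fun i => tt A (φ (g i)))
    (fun i => ((a i : ℤ) : MonoidAlgebra A C) * tt A γ) (fun i => tt_mem _)
    (fun i => Ideal.mul_mem_left _ _ (tt_mem _)) (fun i => by
      rw [hφ i]
      have := tt_pow (A := A) γ (a i)
      push_cast
      exact this) hP
  rw [aeval_mul (fun i => (a i : ℤ)) (tt A γ) hP] at h3
  have h4 := Ideal.sub_mem _ h (Ideal.add_mem _ h1 h3)
  convert h4 using 1
  ring

end poly

end Pool.Agent.X252.MT
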