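import Pool.Agent.X252.MTB

/-!
Powers of the augmentation ideal of the group ring of a finite abelian `p`-group: the `k`-th power,
`k ≤ p`, is detected by the cyclic quotients.
-/

set_option autoImplicit false

namespace Pool.Agent.X252.MT

open Finset

/-! ### homomorphisms from cyclic groups -/

/-- the homomorphism of a cyclic group with the given value at the generator -/
noncomputable def zh {B : Type} [Monoid B] {N : ℕ} (u : Bˣ) (hu : u ^ N = 1) :
    Multiplicative (ZMod N) →* Bˣ :=
  AddMonoidHom.toMultiplicativeLeft (ZMod.lift N ⟨zmultiplesHom (Additive Bˣ) (Additive.ofMul u), by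
    rw [zmultiplesHom_apply, natCast_zsmul, ← ofMul_pow, hu, ofMul_one]⟩)

lemma zh_one {B : Type} [Monoid B] {N : ℕ} (u : Bˣ) (hu : u ^ N = 1) :
    zh u hu (Multiplicative.ofAdd 1) = u := by
  have h1 := ZMod.lift_coe N ⟨zmultiplesHom (Additive Bˣ) (Additive.ofMul u), by
    rw [zmultiplesHom_apply, natCast_zsmul, ← ofMul_pow, hu, ofMul_one]⟩ 1
  rw [Int.cast_one] at h1
  show Additive.toMul _ = _
  show Additive.toMul (ZMod.lift N _ (1 : ZMod N)) = u
  rw [h1]
  simp

lemma gen_pow {N : ℕ} [NeZero N] (c : Multiplicative (ZMod N)) :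
    ∃ m : ℕ, c = Multiplicative.ofAdd 1 ^ m := by
  refine ⟨(Multiplicative.toAdd c).val, ?_⟩
  rw [← ofAdd_nsmul]
  simp

/-! ### the powers of the augmentation ideal of the group ring of a cyclic group -/

section cyc

variable {A : Type} [CommRing A]

/-- the truncated polynomial ring -/
abbrev BB (A : Type) [CommRing A] (p f j : ℕ) : Type :=
  Polynomial (A ⧸ Ideal.span {(p : A) ^ f}) ⧸
    Ideal.span {(Polynomial.X : Polynomial (A ⧸ Ideal.span {(p : A) ^ f})) ^ (j + 1)}

lemma choose_dvd {p : ℕ} (hp : p.Prime) (f : ℕ) {i : ℕ} (hi : 0 < i) (hip : i < p) :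
    p ^ f ∣ (p ^ f).choose i := by
  obtain ⟨i, rfl⟩ : ∃ m, i = m + 1 := ⟨i - 1, by omega⟩
  obtain ⟨n, hn⟩ : ∃ m, p ^ f = m + 1 := ⟨p ^ f - 1, by
    have := pow_pos hp.pos f
    omega⟩
  have h1 := Nat.add_one_mul_choose_eq n i
  rw [← hn] at h1
  have h2 : p ^ f ∣ (p ^ f).choose (i + 1) * (i + 1) := ⟨_, h1.symm⟩
  refine Nat.Coprime.dvd_of_dvd_mul_right ?_ h2
  refine Nat.Coprime.pow_left _ ?_
  exact (Nat.Prime.coprime_iff_not_dvd hp).2 (Nat.not_dvd_of_pos_of_lt hi hip)

lemma unit_eq {p f j : ℕ} (hp : p.Prime) (hj : j < p) :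
    (Ideal.Quotient.mk (Ideal.span {(Polynomial.X : Polynomial (A ⧸ Ideal.span {(p : A) ^ f})) ^
      (j + 1)}) (Polynomial.X + 1)) ^ (p ^ f) = 1 := by
  rw [← map_pow, ← sub_eq_zero, ← map_one (Ideal.Quotient.mk _), ← map_sub,
    Ideal.Quotient.eq_zero_iff_mem, Ideal.mem_span_singleton, Polynomial.X_pow_dvd_iff]
  intro d hd
  rw [Polynomial.coeff_sub, Polynomial.coeff_X_add_one_pow, Polynomial.coeff_one]
  rcases Nat.eq_zero_or_pos d with h0 | h0
  · subst h0
    simp
  · rw [if_neg (by omega), sub_zero]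
    obtain ⟨c, hc⟩ := choose_dvd hp f h0 (by omega : d < p)
    rw [hc, Nat.cast_mul]
    have : ((p ^ f : ℕ) : A ⧸ Ideal.span {(p : A) ^ f}) = 0 := by
      have h1 : ((p ^ f : ℕ) : A ⧸ Ideal.span {(p : A) ^ f}) =
          Ideal.Quotient.mk (Ideal.span {(p : A) ^ f}) ((p : A) ^ f) := by
        rw [map_pow, map_natCast, Nat.cast_pow]
      rw [h1, Ideal.Quotient.eq_zero_iff_mem]
      exact Ideal.mem_span_singleton_self _
    rw [this, zero_mul]

lemma aug_map {B : Type} [CommRing B] [Algebra A B] {N : ℕ} [NeZero N] (x : B) (u : Bˣ)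
    (hu : (u : B) = x + 1) (huN : u ^ N = 1) {k : ℕ} {z : MonoidAlgebra A (Multiplicative (ZMod N))}
    (h : z ∈ Aug A (Multiplicative (ZMod N)) ^ k) :
    MonoidAlgebra.lift A B _ ((Units.coeHom _).comp (zh u huN)) z ∈ Ideal.span {x ^ k} := by
  let F : MonoidAlgebra A (Multiplicative (ZMod N)) →ₐ[A] B :=
    MonoidAlgebra.lift A _ _ ((Units.coeHom _).comp (zh u huN))
  have hF : ∀ c, F (MonoidAlgebra.of A _ c) = (zh u huN c : B) := fun c =>
    MonoidAlgebra.lift_of _ _
  have h1 : Aug A (Multiplicative (ZMod N)) ≤ (Ideal.span {x}).comap F := by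
    unfold Aug
    rw [Ideal.span_le]
    rintro _ ⟨c, rfl⟩
    show F (MonoidAlgebra.of A _ c - 1) ∈ Ideal.span {x}
    rw [map_sub, map_one, hF]
    obtain ⟨m, rfl⟩ := gen_pow c
    rw [map_pow, zh_one, Units.val_pow_eq_pow_val, Ideal.mem_span_singleton, hu]
    have h2 := sub_one_dvd_pow_sub_one (x + 1) m
    simpa using h2
  have h2 := ((Ideal.pow_right_mono h1 k).trans (Ideal.le_comap_pow F k)) h
  rw [Ideal.mem_comap, Ideal.span_singleton_pow] at h2
  exact h2

lemma gr_abs {B : Type} [CommRing B] [Algebra A B] {N : ℕ} [NeZero N] (x : B) (u : Bˣ)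
    (hu : (u : B) = x + 1) (huN : u ^ N = 1) (j : ℕ) (n : ℤ)
    (h : (n : MonoidAlgebra A (Multiplicative (ZMod N))) *
      tt A (Multiplicative.ofAdd (1 : ZMod N)) ^ j ∈
        Aug A (Multiplicative (ZMod N)) ^ (j + 1)) :
    (n : B) * x ^ j ∈ Ideal.span {x ^ (j + 1)} := by
  have h1 := aug_map x u hu huN h
  have h2 : MonoidAlgebra.lift A B _ ((Units.coeHom _).comp (zh u huN))
      (tt A (Multiplicative.ofAdd (1 : ZMod N))) = x := by
    unfold tt
    rw [map_sub, MonoidAlgebra.lift_of, MonoidHom.comp_apply, zh_one, Units.coeHom_apply, hu]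
    simp
  rw [map_mul, map_pow, map_intCast, h2] at h1
  exact h1

/-- **the graded pieces in degrees less than `p`** -/
theorem gr_cyc {p f j : ℕ} (hp : p.Prime) (hj : j < p) (n : ℤ)
    (h : (n : MonoidAlgebra A (Multiplicative (ZMod (p ^ f)))) *
      tt A (Multiplicative.ofAdd (1 : ZMod (p ^ f))) ^ j ∈
        Aug A (Multiplicative (ZMod (p ^ f))) ^ (j + 1)) :
    ∃ b : A, (n : A) = (p : A) ^ f * b := by
  have hN : NeZero (p ^ f) := ⟨(pow_pos hp.pos f).ne'⟩
  have h1 := gr_abs (B := BB A p f j) (Ideal.Quotient.mk _ Polynomial.X)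
    (Units.ofPowEqOne (Ideal.Quotient.mk _ (Polynomial.X + 1)) (p ^ f) (unit_eq hp hj) hN.ne)
    (by rw [Units.val_ofPowEqOne, map_add, map_one]) (Units.pow_ofPowEqOne _ _) j n h
  have h3 : (Ideal.Quotient.mk (Ideal.span {(Polynomial.X : Polynomial (A ⧸ Ideal.span
      {(p : A) ^ f})) ^ (j + 1)}) Polynomial.X) ^ (j + 1) = 0 := by
    rw [← map_pow, Ideal.Quotient.eq_zero_iff_mem]
    exact Ideal.mem_span_singleton_self _
  have h2 : (n : BB A p f j) * (Ideal.Quotient.mk (Ideal.span {(Polynomial.X : Polynomial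
      (A ⧸ Ideal.span {(p : A) ^ f})) ^ (j + 1)}) Polynomial.X) ^ j = 0 := by
    obtain ⟨c, hc⟩ := Ideal.mem_span_singleton'.1 h1
    rw [← hc]
    exact (congrArg (fun y => c * y) h3).trans (mul_zero c)
  have h5 : Ideal.Quotient.mk (Ideal.span {(Polynomial.X : Polynomial
      (A ⧸ Ideal.span {(p : A) ^ f})) ^ (j + 1)}) ((n : Polynomial (A ⧸ Ideal.span {(p : A) ^ f})) *
        Polynomial.X ^ j) = 0 := by
    rw [map_mul, map_pow, map_intCast]
    exact h2
  rw [Ideal.Quotient.eq_zero_iff_mem, Ideal.mem_span_singleton, Polynomial.X_pow_dvd_iff] at h5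
  have h4 := h5 j (Nat.lt_succ_self j)
  rw [Polynomial.coeff_intCast_mul, Polynomial.coeff_X_pow, if_pos rfl, mul_one] at h4
  have h6 : Ideal.Quotient.mk (Ideal.span {(p : A) ^ f}) (n : A) = 0 := by
    rw [map_intCast]
    exact h4
  rw [Ideal.Quotient.eq_zero_iff_mem, Ideal.mem_span_singleton] at h6
  obtain ⟨b, hb⟩ := h6
  exact ⟨b, hb⟩

end cyc

/-! ### integral polynomials with values divisible by a power of `p` -/

section ip

variable {ι : Type} [Fintype ι]

omit [Fintype ι] in
lemma pev_int (a : ι → ℤ) (Q : MvPolynomial ι ℤ) : pev a Q = MvPolynomial.eval a Q := by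
  unfold pev
  rw [RingHom.ext_int (Int.castRingHom ℤ) (RingHom.id ℤ)]
  rfl

lemma coeff_dvd {p : ℕ} (hp : p.Prime) : ∀ (f : ℕ) (Q : MvPolynomial ι ℤ),
    (∀ d ∈ Q.support, ∀ i, d i < p) →
    (∀ a : ι → ℕ, ((p : ℤ) ^ f) ∣ MvPolynomial.eval (fun i => (a i : ℤ)) Q) →
    ∀ d, ((p : ℤ) ^ f) ∣ Q.coeff d := by
  intro f
  induction f with
  | zero => intro Q _ _ d; simp
  | succ f ih =>
    intro Q hQ h d
    have hF : Fact p.Prime := ⟨hp⟩
    have h0 : MvPolynomial.map (Int.castRingHom (ZMod p)) Q = 0 := by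
      refine MvPolynomial.eq_zero_of_eval_eq_zero _ _ _ (fun v => ?_) ?_
      · have h1 := (dvd_pow_self (p : ℤ) (Nat.succ_ne_zero f)).trans (h fun i => (v i).val)
        rw [← ZMod.intCast_zmod_eq_zero_iff_dvd _ p] at h1
        rw [← pev_int] at h1
        have h2 := map_pev (Int.castRingHom (ZMod p)) (fun i => (((v i).val : ℕ) : ℤ)) Q
        rw [eq_intCast, h1] at h2
        rw [MvPolynomial.eval_map]
        have h3 : (fun i => (Int.castRingHom (ZMod p)) (((v i).val : ℕ) : ℤ)) = v := by
          funext i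
          simp
        rw [h3] at h2
        exact h2.symm
      · rw [MvPolynomial.mem_restrictDegree]
        intro s hs i
        have h1 := hQ s (MvPolynomial.support_map_subset _ _ hs) i
        rw [ZMod.card]
        omega
    have h1 : MvPolynomial.C (p : ℤ) ∣ Q := by
      rw [MvPolynomial.C_dvd_iff_dvd_coeff]
      intro i
      rw [← ZMod.intCast_zmod_eq_zero_iff_dvd _ p]
      have h2 := congrArg (MvPolynomial.coeff i) h0
      rw [MvPolynomial.coeff_map, MvPolynomial.coeff_zero] at h2
      exact h2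
    obtain ⟨Q', hQ'⟩ := h1
    have hp0 : (p : ℤ) ≠ 0 := by exact_mod_cast hp.ne_zero
    have h2 := ih Q' (fun d hd i => hQ d (by
      rw [MvPolynomial.mem_support_iff] at hd ⊢
      rw [hQ', MvPolynomial.coeff_C_mul]
      exact mul_ne_zero hp0 hd) i) (fun a => by
        have h3 := h a
        rw [hQ', map_mul, MvPolynomial.eval_C, pow_succ'] at h3
        exact (mul_dvd_mul_iff_left hp0).1 h3) d
    rw [hQ', MvPolynomial.coeff_C_mul, pow_succ']
    exact mul_dvd_mul_left _ h2

lemma coeff_dvd' {p : ℕ} (hp : p.Prime) (f : ℕ) (Q : MvPolynomial ι ℤ)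
    (hQ : ∀ d ∈ Q.support, ∀ i, d i < p) (S : ι → Prop)
    (h : ∀ a : ι → ℕ, (∀ i, ¬ S i → a i = 0) →
      ((p : ℤ) ^ f) ∣ MvPolynomial.eval (fun i => (a i : ℤ)) Q)
    (d : ι →₀ ℕ) (hd : ∀ i, ¬ S i → d i = 0) : ((p : ℤ) ^ f) ∣ Q.coeff d := by
  classical
  let Q' : MvPolynomial ι ℤ := ∑ c ∈ Q.support.filter (fun c => ∀ i, ¬ S i → c i = 0),
    MvPolynomial.monomial c (Q.coeff c)
  have hcoe : ∀ c, Q'.coeff c = if (∀ i, ¬ S i → c i = 0) then Q.coeff c else 0 := by
    intro c
    simp only [Q', MvPolynomial.coeff_sum, MvPolynomial.coeff_monomial]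
    rw [Finset.sum_ite_eq' (Q.support.filter (fun c => ∀ i, ¬ S i → c i = 0)) c
      (fun c => Q.coeff c)]
    by_cases h1 : ∀ i, ¬ S i → c i = 0
    · rw [if_pos h1]
      by_cases h2 : c ∈ Q.support
      · rw [if_pos (Finset.mem_filter.2 ⟨h2, h1⟩)]
      · rw [if_neg (fun h3 => h2 (Finset.mem_filter.1 h3).1)]
        exact (MvPolynomial.notMem_support_iff.1 h2).symm
    · rw [if_neg h1, if_neg (fun h3 => h1 (Finset.mem_filter.1 h3).2)]
  have h2 := coeff_dvd hp f Q' (fun c hc i => by
    refine hQ c ?_ i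
    rw [MvPolynomial.mem_support_iff, hcoe] at hc
    rw [MvPolynomial.mem_support_iff]
    intro h3
    rw [h3, ite_self] at hc
    exact hc rfl) (fun a => by
      have h3 := h (fun i => if S i then a i else 0) (fun i hi => if_neg hi)
      have h4 : MvPolynomial.eval (fun i => (a i : ℤ)) Q' =
          MvPolynomial.eval (fun i => (((if S i then a i else 0 : ℕ)) : ℤ)) Q := by
        simp only [Q', map_sum, MvPolynomial.eval_monomial]
        rw [MvPolynomial.eval_eq', Finset.sum_filter]
        refine Finset.sum_congr rfl fun c _ => ?_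
        rw [Finsupp.prod_fintype _ _ (fun i => by simp)]
        split_ifs with h5
        · congr 1
          refine Finset.prod_congr rfl fun i _ => ?_
          by_cases h6 : S i
          · rw [if_pos h6]
          · rw [h5 i h6, pow_zero, pow_zero]
        · push Not at h5
          obtain ⟨i, h6, h7⟩ := h5
          rw [Finset.prod_eq_zero (Finset.mem_univ i), mul_zero]
          rw [if_neg h6, Nat.cast_zero, zero_pow h7]
      rw [h4]
      exact h3) d
  rw [hcoe, if_pos hd] at h2
  exact h2

end ip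

/-! ### detection -/

lemma eps_mp {A G H : Type} [CommRing A] [CommGroup G] [CommGroup H] (φ : G →* H)
    (z : MonoidAlgebra A G) : eps A H (mp A φ z) = eps A G z := by
  induction z using MonoidAlgebra.induction_on with
  | of g => rw [mp_of, eps_of, eps_of]
  | add x y hx hy => rw [map_add, map_add, map_add, hx, hy]
  | smul r x hx => rw [map_smul, map_smul, map_smul, hx]

/-- the generators of a product of cyclic groups -/
def gs {ι : Type} [DecidableEq ι] (N : ι → ℕ) (i : ι) : (i : ι) → Multiplicative (ZMod (N i)) :=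
  Pi.mulSingle i (Multiplicative.ofAdd 1)

section det

variable {A : Type} [CommRing A]

/-- the properties of the coefficient ring that are used -/
structure Good (A : Type) [CommRing A] (p : ℕ) : Prop where
  app : ∀ (e : ℕ) (a : A), ∃ (n : ℤ) (b : A), a = n + ((p ^ e : ℕ) : A) * b
  dvd : ∀ (f : ℕ) (n : ℤ), (∃ b : A, (n : A) = (p : A) ^ f * b) → ((p : ℤ) ^ f) ∣ n

theorem detect_pi {ι : Type} [Fintype ι] {p : ℕ} (hp : p.Prime) (hA : Good A p) (e : ι → ℕ)
    (E : ℕ) (heE : ∀ i, e i ≤ E)
    {k : ℕ} (hk : k ≤ p) (z : MonoidAlgebra A ((i : ι) → Multiplicative (ZMod (p ^ e i))))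
    (h : ∀ f ≤ E, ∀ (φ : ((i : ι) → Multiplicative (ZMod (p ^ e i))) →*
      Multiplicative (ZMod (p ^ f))), mp A φ z ∈ Aug A _ ^ k) : z ∈ Aug A _ ^ k := by
  classical
  induction k with
  | zero => simp
  | succ k ih =>
    have hz : z ∈ Aug A ((i : ι) → Multiplicative (ZMod (p ^ e i))) ^ k :=
      ih (by omega) fun f hf φ => Ideal.pow_le_pow_right (Nat.le_succ k) (h f hf φ)
    rcases Nat.eq_zero_or_pos k with hk0 | hk0
    · subst hk0
      rw [zero_add, pow_one]
      have h1 := h 0 (Nat.zero_le E) 1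
      rw [zero_add, pow_one, mem_aug_iff] at h1
      rw [mem_aug_iff, ← h1]
      exact (eps_mp _ z).symm
    · have hne : ∀ m : ℕ, NeZero (p ^ m) := fun m => ⟨(pow_pos hp.pos m).ne'⟩
      let g : ι → ((i : ι) → Multiplicative (ZMod (p ^ e i))) := gs fun i => p ^ e i
      have hg : Gens g := by
        intro x
        refine ⟨fun i => (Multiplicative.toAdd (x i)).val, ?_⟩
        have h1 : ∀ i, g i ^ (Multiplicative.toAdd (x i)).val = Pi.mulSingle i (x i) := by
          intro i
          show gs (fun i => p ^ e i) i ^ _ = _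
          rw [gs, ← Pi.mulSingle_pow, ← ofAdd_nsmul]
          simp
        simp only [h1]
        exact (Finset.univ_prod_mulSingle x).symm
      have hE : ∀ x : (i : ι) → Multiplicative (ZMod (p ^ e i)), x ^ (p ^ ∑ i, e i) = 1 := by
        intro x
        funext i
        obtain ⟨c, hc⟩ := pow_dvd_pow p (Finset.single_le_sum (fun i _ => Nat.zero_le (e i))
          (Finset.mem_univ i))
        rw [Pi.pow_apply, hc, pow_mul]
        have h1 : x i ^ (p ^ e i) = 1 := by
          rw [← toAdd_eq_zero, toAdd_pow]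
          simp
        rw [h1, one_pow]
        rfl
      obtain ⟨P, hP, hPz⟩ := lead hg hE (hA.app _) hk0 hz
      have hdeg : ∀ d ∈ P.support, ∑ i, d i = k := by
        intro d hd
        have h3 := hP (MvPolynomial.mem_support_iff.1 hd)
        rw [← h3, Finsupp.weight_apply, Finsupp.sum_fintype _ _ (fun i => by simp)]
        simp
      -- the divisibility of the values
      have key : ∀ f ≤ E, ∀ (a : ι → ℕ), (∀ i, ¬ f ≤ e i → a i = 0) →
          ((p : ℤ) ^ f) ∣ MvPolynomial.eval (fun i => (a i : ℤ)) P := by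
        intro f hf a ha
        let red : (i : ι) → (Multiplicative (ZMod (p ^ e i)) →* Multiplicative (ZMod (p ^ f))) :=
          fun i => if h : f ≤ e i then
            AddMonoidHom.toMultiplicative
              (ZMod.castHom (pow_dvd_pow p h) (ZMod (p ^ f))).toAddMonoidHom else 1
        let φ : ((i : ι) → Multiplicative (ZMod (p ^ e i))) →* Multiplicative (ZMod (p ^ f)) :=
          ∏ i, ((red i).comp (Pi.evalMonoidHom _ i)) ^ a i
        have hφ : ∀ j, φ (g j) = (Multiplicative.ofAdd 1) ^ a j := by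
          intro j
          show (∏ i, ((red i).comp (Pi.evalMonoidHom _ i)) ^ a i) (g j) = _
          rw [MonoidHom.finsetProd_apply, Finset.prod_eq_single j]
          · show (red j (gs (fun i => p ^ e i) j j)) ^ a j = _
            rw [gs, Pi.mulSingle_eq_same]
            by_cases hj : f ≤ e j
            · have h5 : red j (Multiplicative.ofAdd 1) = Multiplicative.ofAdd 1 := by
                simp only [red, dif_pos hj]
                show Multiplicative.ofAdd ((ZMod.castHom (pow_dvd_pow p hj) (ZMod (p ^ f))) 1) = _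
                rw [map_one]
              rw [h5]
            · rw [ha j hj, pow_zero, pow_zero]
          · intro i _ hij
            show (red i (gs (fun i => p ^ e i) j i)) ^ a i = 1
            rw [gs, Pi.mulSingle_eq_of_ne hij, map_one, one_pow]
          · intro h5
            exact absurd (Finset.mem_univ j) h5
        have h6 := lead_eval φ a hφ hP hPz (h f hf φ)
        exact hA.dvd f _ (gr_cyc hp (by omega) _ h6)
      -- the terms of the leading polynomial
      have hterm : pev (fun i => tt A (g i)) P ∈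
          Aug A ((i : ι) → Multiplicative (ZMod (p ^ e i))) ^ (k + 1) := by
        rw [pev, MvPolynomial.eval₂_eq']
        refine Ideal.sum_mem _ fun d hd => ?_
        have hsum := hdeg d hd
        have hne' : (Finset.univ.filter fun i => d i ≠ 0).Nonempty := by
          by_contra hcon
          rw [Finset.not_nonempty_iff_eq_empty] at hcon
          have : ∑ i, d i = 0 := by
            refine Finset.sum_eq_zero fun i _ => ?_
            by_contra h7
            have h8 : i ∈ (Finset.univ.filter fun i => d i ≠ 0) :=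
              Finset.mem_filter.2 ⟨Finset.mem_univ _, h7⟩
            rw [hcon] at h8
            exact absurd h8 (Finset.notMem_empty _)
          omega
        obtain ⟨i0, hi0, hmin⟩ := Finset.exists_min_image _ e hne'
        have hi0' : d i0 ≠ 0 := (Finset.mem_filter.1 hi0).2
        obtain ⟨c, hc⟩ := coeff_dvd' hp (e i0) P (fun d' hd' i => by
          have h8 := hdeg d' hd'
          have h9 : d' i ≤ ∑ i, d' i :=
            Finset.single_le_sum (fun i _ => Nat.zero_le (d' i)) (Finset.mem_univ i)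
          omega) (fun i => e i0 ≤ e i) (fun a ha => key (e i0) (heE i0) a ha) d (fun i hi => by
            by_contra h7
            exact hi (hmin i (Finset.mem_filter.2 ⟨Finset.mem_univ _, h7⟩)))
        have h9 : ∏ i, tt A (g i) ^ d i = tt A (g i0) *
            (tt A (g i0) ^ (d i0 - 1) * ∏ i ∈ Finset.univ.erase i0, tt A (g i) ^ d i) := by
          rw [← Finset.mul_prod_erase Finset.univ _ (Finset.mem_univ i0), ← mul_assoc]
          congr 1
          rw [← pow_succ', Nat.sub_add_cancel (Nat.pos_of_ne_zero hi0')]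
        have h10 : tt A (g i0) ^ (d i0 - 1) * ∏ i ∈ Finset.univ.erase i0, tt A (g i) ^ d i ∈
            Aug A ((i : ι) → Multiplicative (ZMod (p ^ e i))) ^ (k - 1) := by
          have h11 : ∏ i ∈ Finset.univ.erase i0, tt A (g i) ^ d i ∈
              ∏ i ∈ Finset.univ.erase i0,
                Aug A ((i : ι) → Multiplicative (ZMod (p ^ e i))) ^ d i :=
            Ideal.prod_mem_prod fun i _ => Ideal.pow_mem_pow (tt_mem _) _
          rw [Finset.prod_pow_eq_pow_sum] at h11
          have h12 := Ideal.mul_mem_mul (Ideal.pow_mem_pow (tt_mem (A := A) (g i0)) (d i0 - 1)) h11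
          rw [← pow_add] at h12
          have h13 : d i0 - 1 + ∑ i ∈ Finset.univ.erase i0, d i = k - 1 := by
            have h14 : d i0 + ∑ i ∈ Finset.univ.erase i0, d i = ∑ i, d i :=
              Finset.add_sum_erase Finset.univ (fun i => d i) (Finset.mem_univ i0)
            omega
          rwa [h13] at h12
        have h15 : ((p ^ e i0 : ℕ) : MonoidAlgebra A _) * tt A (g i0) ∈
            Aug A ((i : ι) → Multiplicative (ZMod (p ^ e i))) ^ 2 := by
          refine nat_mul_tt ?_
          show gs (fun i => p ^ e i) i0 ^ _ = _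
          rw [gs, ← Pi.mulSingle_pow, ← ofAdd_nsmul]
          simp
        have h16 := Ideal.mul_mem_mul h15 h10
        rw [← pow_add, show 2 + (k - 1) = k + 1 by omega] at h16
        rw [hc, h9]
        have h17 := Ideal.mul_mem_left _ (c : MonoidAlgebra A
          ((i : ι) → Multiplicative (ZMod (p ^ e i)))) h16
        have h18 : (Int.castRingHom (MonoidAlgebra A ((i : ι) → Multiplicative (ZMod (p ^ e i)))))
            ((p : ℤ) ^ e i0 * c) = (c : MonoidAlgebra A
              ((i : ι) → Multiplicative (ZMod (p ^ e i)))) * ((p ^ e i0 : ℕ) :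
                MonoidAlgebra A ((i : ι) → Multiplicative (ZMod (p ^ e i)))) := by
          rw [map_mul, map_pow, map_natCast, Nat.cast_pow, eq_intCast, mul_comm]
        rw [h18]
        convert h17 using 1
        ring
      have h18 := Ideal.add_mem _ hPz hterm
      convert h18 using 1
      ring

end det

end Pool.Agent.X252.MT
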