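import Pool.Agent.X252.MTC

/-!
Detection of the powers of the augmentation ideal of `A[Hom(X, ℂˣ)]` on the cyclic subgroups of `X`.
-/

set_option autoImplicit false

namespace Pool.Agent.X252.MT

open Finset

section det

variable {A : Type} [CommRing A]

theorem detect {G : Type} [CommGroup G] [Finite G] {p : ℕ} (hp : p.Prime) (hA : Good A p)
    (E : ℕ) (hG : ∀ g : G, g ^ p ^ E = 1) {k : ℕ} (hk : k ≤ p) (z : MonoidAlgebra A G)
    (h : ∀ f ≤ E, ∀ (φ : G →* Multiplicative (ZMod (p ^ f))), mp A φ z ∈ Aug A _ ^ k) :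
    z ∈ Aug A G ^ k := by
  classical
  obtain ⟨ι, hι, n, hn, ⟨D⟩⟩ := CommGroup.equiv_prod_multiplicative_zmod_of_finite G
  have h1 : ∀ i, ∃ e, e ≤ E ∧ n i = p ^ e := by
    intro i
    have hm := hG (D.symm (gs n i))
    have h2 : gs n i ^ p ^ E = 1 := by
      have h3 := congrArg D hm
      rwa [map_pow, MulEquiv.apply_symm_apply, map_one] at h3
    have h4 := congrFun h2 i
    rw [Pi.pow_apply, gs, Pi.mulSingle_eq_same, Pi.one_apply, ← toAdd_eq_zero, toAdd_pow,
      toAdd_ofAdd, nsmul_eq_mul, mul_one, ZMod.natCast_eq_zero_iff] at h4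
    obtain ⟨e, he', he⟩ := (Nat.dvd_prime_pow hp).1 h4
    exact ⟨e, he', he⟩
  choose e heE he using h1
  obtain rfl : n = fun i => p ^ e i := funext he
  have h5 : mp A D.toMonoidHom z ∈ Aug A ((i : ι) → Multiplicative (ZMod (p ^ e i))) ^ k := by
    refine detect_pi hp hA e E heE hk _ fun f hf φ => ?_
    rw [mp_mp]
    exact h f hf _
  have h6 := mp_mem (A := A) D.symm.toMonoidHom h5
  rw [mp_mp] at h6
  have h7 : D.symm.toMonoidHom.comp D.toMonoidHom = MonoidHom.id G := by
    ext g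
    simp
  rw [h7] at h6
  have h8 : mp A (MonoidHom.id G) z = z := by
    unfold mp
    rw [MonoidAlgebra.mapDomainAlgHom_id]
    rfl
  rwa [h8] at h6

/-- restriction of characters -/
def res {C X : Type} [CommGroup C] [CommGroup X] (i : C →* X) : (X →* ℂˣ) →* (C →* ℂˣ) :=
  MonoidHom.compHom' i

lemma res_surj {C X : Type} [CommGroup C] [CommGroup X] [Finite X] (i : C →* X)
    (hi : Function.Injective i) : Function.Surjective (res i) := by
  intro σ
  have hne : NeZero (Monoid.exponent X) := ⟨Monoid.exponent_ne_zero_of_finite⟩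
  obtain ⟨τ, hτ⟩ := MonoidHom.domRestrict_surjective (G := X) ℂ i.range
    (σ.comp (MonoidHom.ofInjective hi).symm.toMonoidHom)
  refine ⟨τ, ?_⟩
  ext c
  have h1 := DFunLike.congr_fun hτ (MonoidHom.ofInjective hi c)
  simp only [MonoidHom.domRestrictHom_apply, MonoidHom.domRestrict_apply,
    MonoidHom.comp_apply, MulEquiv.coe_toMonoidHom, MulEquiv.symm_apply_apply,
    MonoidHom.ofInjective_apply] at h1
  show ((τ (i c) : ℂˣ) : ℂ) = _
  rw [h1]

/-- an embedding of a cyclic group into the roots of unity -/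
noncomputable def emb (N : ℕ) [NeZero N] : Multiplicative (ZMod N) →* ℂˣ :=
  (AddChar.toMonoidHom (ZMod.stdAddChar (N := N))).toHomUnits

lemma emb_inj (N : ℕ) [NeZero N] : Function.Injective (emb N) := by
  intro a b h
  have h1 : ((emb N a : ℂˣ) : ℂ) = emb N b := congrArg Units.val h
  have h2 : ZMod.stdAddChar (N := N) (Multiplicative.toAdd a) =
      ZMod.stdAddChar (N := N) (Multiplicative.toAdd b) := h1
  exact Multiplicative.toAdd.injective (ZMod.injective_stdAddChar h2)

lemma fin_dual (X : Type) [CommGroup X] [Finite X] : Finite (X →* ℂˣ) := by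
  have hne : NeZero (Monoid.exponent X) := ⟨Monoid.exponent_ne_zero_of_finite⟩
  obtain ⟨E⟩ := CommGroup.monoidHom_mulEquiv_of_hasEnoughRootsOfUnity X ℂ
  exact Finite.of_equiv X E.symm.toEquiv

/-- **detection on the cyclic subgroups of `X`** -/
theorem detectX {X : Type} [CommGroup X] [Finite X] {p : ℕ} (hp : p.Prime) (hA : Good A p)
    (hX : ∀ x : X, ∃ n, x ^ p ^ n = 1) {k : ℕ} (hk : k ≤ p) (z : MonoidAlgebra A (X →* ℂˣ))
    (h : ∀ χ : X, ∃ (C : Type) (_ : CommGroup C) (i : C →* X), Function.Injective i ∧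
      χ ∈ i.range ∧ mp A (res i) z ∈ Aug A _ ^ k) : z ∈ Aug A (X →* ℂˣ) ^ k := by
  have hfin := fin_dual X
  have hne : NeZero (Monoid.exponent X) := ⟨Monoid.exponent_ne_zero_of_finite⟩
  have : ∃ n, ∀ x : X, x ^ p ^ n = 1 := by
    have hF := Fintype.ofFinite X
    choose n hn using hX
    refine ⟨∑ x, n x, fun x => ?_⟩
    obtain ⟨c, hc⟩ := pow_dvd_pow p (Finset.single_le_sum (fun i _ => Nat.zero_le (n i))
        (Finset.mem_univ x))
    rw [hc, pow_mul, hn, one_pow]
  obtain ⟨n, hn⟩ := this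
  refine detect hp hA n (fun σ => ?_) hk z fun f _ φ => ?_
  · ext x
    rw [MonoidHom.pow_apply, ← map_pow, hn, map_one]
    rfl
  · have hN : NeZero (p ^ f) := ⟨(pow_pos hp.pos f).ne'⟩
    obtain ⟨C, hC, i, hi, ⟨c, hc⟩, hm⟩ :=
      h (CommGroup.monoidHomMonoidHomEquiv X ℂ ((emb (p ^ f)).comp φ))
    have hs := res_surj i hi
    have hker : (res i).ker ≤ φ.ker := by
      intro σ hσ
      rw [MonoidHom.mem_ker] at hσ ⊢
      apply emb_inj (p ^ f)
      rw [map_one]
      have h1 := CommGroup.apply_monoidHomMonoidHomEquiv (G := X) ℂ σ ((emb (p ^ f)).comp φ)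
      rw [MonoidHom.comp_apply] at h1
      rw [← h1, ← hc]
      have h2 := DFunLike.congr_fun hσ c
      exact h2
    let φ' := (res i).liftOfRightInverse (Function.surjInv hs)
      (Function.rightInverse_surjInv hs) ⟨φ, hker⟩
    have h3 : φ'.comp (res i) = φ :=
      MonoidHom.ext fun σ => MonoidHom.liftOfRightInverse_comp_apply (res i) (Function.surjInv hs)
        (Function.rightInverse_surjInv hs) ⟨φ, hker⟩ σ
    rw [← h3, ← mp_mp]
    exact mp_mem _ hm

end det

end Pool.Agent.X252.MT
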