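import Pool.Agent.X252.MTD

/-!
Powers of the augmentation ideal of the group ring of an elementary abelian `p`-group: every power is
detected by the cyclic quotients.
-/

set_option autoImplicit false

namespace Pool.Agent.X252.MT

open Finset Polynomial

section ring

variable (A : Type) [CommRing A] [IsDomain A] (p : ℕ)

/-- the ring generated by a root of unity of order `p` -/
abbrev RR : Type := AdjoinRoot (cyclotomic p A)

/-- the root of unity -/
noncomputable def zt : RR A p := AdjoinRoot.root (cyclotomic p A)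

/-- the uniformiser -/
noncomputable def pi' : RR A p := zt A p - 1

variable {A p}

omit [IsDomain A] in
lemma zt_pow (_hp : p.Prime) : zt A p ^ p = 1 := by
  have h1 : (cyclotomic p A) ∣ X ^ p - 1 := cyclotomic.dvd_X_pow_sub_one p A
  have h2 : AdjoinRoot.mk (cyclotomic p A) (X ^ p - 1) = 0 := AdjoinRoot.mk_eq_zero.2 h1
  rw [map_sub, map_pow, AdjoinRoot.mk_X, map_one, sub_eq_zero] at h2
  exact h2

omit [IsDomain A] in
/-- the reduction of `R` modulo the uniformiser -/
lemma exists_red (hp : p.Prime) : ∃ ρ : RR A p →+* A ⧸ Ideal.span {(p : A)},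
    ρ (pi' A p) = 0 ∧ ∀ a : A, ρ (algebraMap A _ a) = Ideal.Quotient.mk _ a := by
  have hF : Fact p.Prime := ⟨hp⟩
  have h1 : (cyclotomic p A).eval₂ (Ideal.Quotient.mk (Ideal.span {(p : A)})) 1 = 0 := by
    have h2 : (1 : A ⧸ Ideal.span {(p : A)}) = Ideal.Quotient.mk (Ideal.span {(p : A)}) 1 :=
      (map_one _).symm
    rw [h2, Polynomial.eval₂_at_apply, eval_one_cyclotomic_prime, Ideal.Quotient.eq_zero_iff_mem]
    exact Ideal.mem_span_singleton_self _
  refine ⟨AdjoinRoot.lift (Ideal.Quotient.mk _) 1 h1, ?_, fun a => ?_⟩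
  · unfold pi' zt
    rw [map_sub, AdjoinRoot.lift_root, map_one, sub_self]
  · exact AdjoinRoot.lift_of _

omit [IsDomain A] in
lemma red_pi (hp : p.Prime) {a : A} {y : RR A p} (h : algebraMap A (RR A p) a = pi' A p * y) :
    ∃ b : A, a = p * b := by
  obtain ⟨ρ, h1, h2⟩ := exists_red (A := A) hp
  have h3 := congrArg ρ h
  rw [h2, map_mul, h1, zero_mul, Ideal.Quotient.eq_zero_iff_mem, Ideal.mem_span_singleton] at h3
  obtain ⟨b, hb⟩ := h3
  exact ⟨b, hb⟩

lemma pi_cancel (hp : p.Prime) (hp0 : (p : A) ≠ 0) {y : RR A p} (h : pi' A p * y = 0) :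
    y = 0 := by
  have hF : Fact p.Prime := ⟨hp⟩
  induction y using AdjoinRoot.induction_on with
  | ih f =>
    have h1 : pi' A p = AdjoinRoot.mk (cyclotomic p A) (X - C 1) := by
      unfold pi' zt
      rw [map_sub, AdjoinRoot.mk_X, map_one, map_one]
    rw [h1, ← map_mul, AdjoinRoot.mk_eq_zero] at h
    obtain ⟨q, hq⟩ := h
    have h2 : (X - C (1 : A)) ∣ cyclotomic p A * q := ⟨f, hq.symm⟩
    rcases (prime_X_sub_C (1 : A)).dvd_or_dvd h2 with h3 | h3
    · exfalso
      rw [dvd_iff_isRoot, IsRoot.def, eval_one_cyclotomic_prime] at h3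
      exact hp0 h3
    · obtain ⟨q', hq'⟩ := h3
      rw [AdjoinRoot.mk_eq_zero]
      refine ⟨q', ?_⟩
      rw [hq', ← mul_assoc, mul_comm (cyclotomic p A), mul_assoc] at hq
      exact mul_left_cancel₀ (prime_X_sub_C (1 : A)).ne_zero hq

lemma pi_cancel_pow (hp : p.Prime) (hp0 : (p : A) ≠ 0) : ∀ (n : ℕ) {y : RR A p},
    pi' A p ^ n * y = 0 → y = 0 := by
  intro n
  induction n with
  | zero => intro y h; simpa using h
  | succ n ih =>
    intro y h
    rw [pow_succ', mul_assoc] at h
    exact ih (pi_cancel hp hp0 h)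

omit [IsDomain A] in
lemma sum_choose {R : Type} [CommRing R] (hp : p.Prime) (x : R) (h : (1 + x) ^ p = 1) :
    ∃ y : R, x ^ p = (p : R) * (x * (y * x - 1)) := by
  have hp1 : 1 ≤ p := hp.one_lt.le
  have hp2 := hp.two_le
  have h1 : (x + 1) ^ p = ∑ m ∈ range (p + 1), x ^ m * (p.choose m : R) := by
    rw [add_pow]
    refine Finset.sum_congr rfl fun m _ => ?_
    rw [one_pow, mul_one]
  rw [Finset.sum_range_succ, Nat.choose_self, Nat.cast_one, mul_one] at h1
  obtain ⟨q, rfl⟩ : ∃ q, p = q + 2 := ⟨p - 2, by omega⟩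
  rw [Finset.sum_range_succ', Finset.sum_range_succ'] at h1
  have h2 : ∀ m ∈ range q, ∃ c : ℕ, ((q + 2).choose (m + 1 + 1)) = (q + 2) * c := fun m hm =>
    hp.dvd_choose_self (by omega) (by rw [Finset.mem_range] at hm; omega)
  choose! c hc using h2
  have h3 : ∑ m ∈ range q, x ^ (m + 1 + 1) * (((q + 2).choose (m + 1 + 1) : ℕ) : R) =
      ((q + 2 : ℕ) : R) * (x * ((∑ m ∈ range q, x ^ m * (c m : R)) * x)) := by
    rw [Finset.sum_mul, Finset.mul_sum, Finset.mul_sum]
    refine Finset.sum_congr rfl fun m hm => ?_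
    rw [hc m hm, Nat.cast_mul]
    ring
  rw [h3] at h1
  refine ⟨-(∑ m ∈ range q, x ^ m * (c m : R)), ?_⟩
  have h4 : (x + 1) ^ (q + 2) = 1 := by rw [add_comm]; exact h
  rw [h4] at h1
  simp only [Nat.choose_zero_right, zero_add, pow_zero, pow_one, Nat.choose_one_right,
    Nat.cast_one, mul_one] at h1
  linear_combination -h1

lemma pi_pow (hp : p.Prime) (hp0 : (p : A) ≠ 0) : ∃ v : RR A p, pi' A p ^ (p - 1) = p * v := by
  have h1 : (1 + pi' A p) ^ p = 1 := by
    unfold pi'
    rw [add_sub_cancel]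
    exact zt_pow hp
  obtain ⟨y, hy⟩ := sum_choose hp _ h1
  refine ⟨y * pi' A p - 1, ?_⟩
  have h2 : pi' A p * (pi' A p ^ (p - 1) - p * (y * pi' A p - 1)) = 0 := by
    have h3 : pi' A p * pi' A p ^ (p - 1) = pi' A p ^ p := by
      rw [← pow_succ', Nat.sub_add_cancel hp.one_lt.le]
    rw [mul_sub, h3, hy]
    ring
  exact sub_eq_zero.1 (pi_cancel hp hp0 h2)

lemma p_cancel (hp : p.Prime) (hp0 : (p : A) ≠ 0) {y : RR A p} (h : (p : RR A p) * y = 0) :
    y = 0 := by
  obtain ⟨v, hv⟩ := pi_pow (A := A) hp hp0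
  apply pi_cancel_pow hp hp0 (p - 1)
  rw [hv, mul_assoc, mul_comm v y, ← mul_assoc, h, zero_mul]

omit [IsDomain A] in
lemma p_mem (hp : p.Prime) : ∃ y : RR A p, (p : RR A p) = pi' A p * y := by
  have hF : Fact p.Prime := ⟨hp⟩
  have h1 : (X - C (1 : A)) ∣ cyclotomic p A - C ((p : A)) := by
    rw [dvd_iff_isRoot, IsRoot.def, eval_sub, eval_one_cyclotomic_prime, eval_C, sub_self]
  obtain ⟨q, hq⟩ := h1
  refine ⟨- AdjoinRoot.mk _ q, ?_⟩
  have h2 := congrArg (AdjoinRoot.mk (cyclotomic p A)) hq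
  rw [map_sub, AdjoinRoot.mk_self, map_mul, map_sub, AdjoinRoot.mk_X, map_one, map_one,
    map_natCast, map_natCast, zero_sub] at h2
  have h3 : pi' A p * -(AdjoinRoot.mk (cyclotomic p A) q) =
      -((AdjoinRoot.root (cyclotomic p A) - 1) * AdjoinRoot.mk (cyclotomic p A) q) := by
    unfold pi' zt
    ring
  rw [h3, ← h2, neg_neg]

omit [IsDomain A] in
/-- every element is an integer modulo the uniformiser -/
lemma int_mod (hp : p.Prime) (hA : Good A p) (x : RR A p) :
    ∃ (n : ℤ) (y : RR A p), x = n + pi' A p * y := by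
  have hF : Fact p.Prime := ⟨hp⟩
  induction x using AdjoinRoot.induction_on with
  | ih f =>
    obtain ⟨n, b, hn⟩ := hA.app 1 (f.eval 1)
    obtain ⟨y, hy⟩ := p_mem (A := A) hp
    have h1 : (X - C (1 : A)) ∣ f - C (f.eval 1) := by
      rw [dvd_iff_isRoot, IsRoot.def, eval_sub, eval_C, sub_self]
    obtain ⟨q, hq⟩ := h1
    have h2 := congrArg (AdjoinRoot.mk (cyclotomic p A)) hq
    rw [map_sub, map_mul, map_sub, AdjoinRoot.mk_X, map_one, map_one, hn] at h2
    refine ⟨n, y * AdjoinRoot.mk _ (C b) + AdjoinRoot.mk _ q, ?_⟩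
    have h3 : AdjoinRoot.mk (cyclotomic p A) (C ((n : A) + ((p ^ 1 : ℕ) : A) * b)) =
        (n : RR A p) + (p : RR A p) * AdjoinRoot.mk _ (C b) := by
      simp only [map_add, map_mul, map_intCast, map_natCast, pow_one]
    rw [h3, sub_eq_iff_eq_add] at h2
    rw [h2, hy]
    unfold pi' zt
    ring

omit [IsDomain A] in
lemma int_of_pi (hp : p.Prime) (hA : Good A p) {n : ℤ} {y : RR A p}
    (h : (n : RR A p) = pi' A p * y) : (p : ℤ) ∣ n := by
  have h1 : algebraMap A (RR A p) (n : A) = pi' A p * y := by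
    rw [map_intCast, h]
  obtain ⟨b, hb⟩ := red_pi hp h1
  have := hA.dvd 1 n ⟨b, by rw [pow_one]; exact hb⟩
  simpa using this

omit [IsDomain A] in
lemma p_ne (hp : p.Prime) (hA : Good A p) : (p : A) ≠ 0 := by
  intro h
  have h1 := hA.dvd 2 (p : ℤ) ⟨0, by simp [h]⟩
  have h2 : p ^ 2 ∣ p := by exact_mod_cast h1
  have h3 := Nat.le_of_dvd hp.pos h2
  have h4 := hp.two_le
  nlinarith

omit [IsDomain A] in
/-- the residue ring is a domain -/
lemma dom (hp : p.Prime) (hA : Good A p) : IsDomain (RR A p ⧸ Ideal.span {pi' A p}) := by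
  rw [Ideal.Quotient.isDomain_iff_prime, Ideal.isPrime_iff]
  constructor
  · intro h
    have h1 : (1 : RR A p) ∈ Ideal.span {pi' A p} := by rw [h]; trivial
    obtain ⟨y, hy⟩ := Ideal.mem_span_singleton.1 h1
    have h2 := int_of_pi (A := A) (n := 1) hp hA (by rw [Int.cast_one]; exact hy)
    have h3 : p ∣ 1 := by exact_mod_cast h2
    exact hp.one_lt.ne' (Nat.dvd_one.1 h3)
  · intro x y hxy
    obtain ⟨n, u, rfl⟩ := int_mod hp hA x
    obtain ⟨m, v, rfl⟩ := int_mod hp hA y
    obtain ⟨w, hw⟩ := Ideal.mem_span_singleton.1 hxy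
    have h1 : ((n * m : ℤ) : RR A p) = pi' A p * (w - u * m - v * n - pi' A p * u * v) := by
      push_cast
      linear_combination hw
    have h2 := int_of_pi hp hA h1
    obtain ⟨q, hq⟩ := p_mem (A := A) hp
    have key : ∀ (k : ℤ) (t : RR A p), (p : ℤ) ∣ k → (k : RR A p) + pi' A p * t ∈
        Ideal.span {pi' A p} := by
      rintro k t ⟨j, rfl⟩
      rw [Ideal.mem_span_singleton]
      refine ⟨q * j + t, ?_⟩
      rw [Int.cast_mul, Int.cast_natCast, hq]
      ring
    rcases (Nat.prime_iff_prime_int.1 hp).dvd_or_dvd h2 with h3 | h3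
    · exact Or.inl (key n u h3)
    · exact Or.inr (key m v h3)

/-- the multiples of the uniformiser -/
noncomputable def br (A : Type) [CommRing A] (p a : ℕ) : RR A p := ∑ j ∈ range a, zt A p ^ j

omit [IsDomain A] in
lemma br_mul (a : ℕ) : zt A p ^ a - 1 = pi' A p * br A p a := by
  unfold br pi'
  rw [mul_comm, geom_sum_mul]

omit [IsDomain A] in
lemma br_mod (a : ℕ) : ∃ y, br A p a = (a : RR A p) + pi' A p * y := by
  have h1 : ∀ j : ℕ, ∃ y, zt A p ^ j = 1 + pi' A p * y := fun j =>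
    ⟨br A p j, by rw [← br_mul]; ring⟩
  choose y hy using h1
  refine ⟨∑ j ∈ range a, y j, ?_⟩
  unfold br
  simp only [hy, Finset.sum_add_distrib, Finset.mul_sum, Finset.sum_const, Finset.card_range,
    nsmul_eq_mul, mul_one]

/-- **polynomials with small degrees and divisible values** -/
lemma coeff_pi {ι : Type} [Fintype ι] (hp : p.Prime) (hA : Good A p) : ∀ (k : ℕ)
    (Q : MvPolynomial ι (RR A p)), (∀ d ∈ Q.support, ∀ i, d i < p) →
    (∀ a : ι → ℕ, ∃ y, MvPolynomial.eval (fun i => br A p (a i)) Q = pi' A p ^ k * y) →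
    ∀ d, ∃ y, Q.coeff d = pi' A p ^ k * y := by
  classical
  have hp0 := p_ne hp hA
  intro k
  induction k with
  | zero => intro Q _ _ d; exact ⟨_, by rw [pow_zero, one_mul]⟩
  | succ k ih =>
    intro Q hQ h d
    have hdom := dom hp hA
    let K := RR A p ⧸ Ideal.span {pi' A p}
    let ρ : RR A p →+* K := Ideal.Quotient.mk _
    have hρ : ∀ x, ρ x = 0 ↔ ∃ y, x = pi' A p * y := fun x => by
      show Ideal.Quotient.mk _ x = 0 ↔ _
      rw [Ideal.Quotient.eq_zero_iff_mem, Ideal.mem_span_singleton]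
      rfl
    have hbr : ∀ a : ℕ, ρ (br A p a) = (a : K) := by
      intro a
      obtain ⟨y, hy⟩ := br_mod (A := A) (p := p) a
      rw [hy, map_add, map_natCast, add_eq_left]
      exact (hρ _).2 ⟨y, rfl⟩
    have h0 : MvPolynomial.map ρ Q = 0 := by
      refine MvPolynomial.eq_zero_of_eval_zero_at_prod_finset _
        (fun _ => (range p).image fun a : ℕ => (a : K)) (fun i => ?_) (fun x hx => ?_)
      · rw [Finset.card_image_of_injOn, Finset.card_range]
        · rw [MvPolynomial.degreeOf_lt_iff hp.pos]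
          intro m hm
          exact hQ m (MvPolynomial.support_map_subset _ _ hm) i
        · intro a ha b hb hab
          simp only [Finset.coe_range, Set.mem_Iio] at ha hb
          have h1 : ρ (((a : ℤ) - (b : ℤ) : ℤ) : RR A p) = 0 := by
            rw [map_intCast]
            push_cast
            exact sub_eq_zero.2 hab
          obtain ⟨y, hy⟩ := (hρ _).1 h1
          have h2 := int_of_pi hp hA hy
          have h3 := Int.eq_zero_of_abs_lt_dvd h2 (by
            rw [abs_lt]
            constructor <;> omega)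
          omega
      · have h1 : ∀ i, ∃ a : ℕ, (a : K) = x i := by
          intro i
          obtain ⟨a, -, ha⟩ := Finset.mem_image.1 (hx i)
          exact ⟨a, ha⟩
        choose a ha using h1
        obtain ⟨y, hy⟩ := h a
        have h2 : MvPolynomial.eval x (MvPolynomial.map ρ Q) =
            ρ (MvPolynomial.eval (fun i => br A p (a i)) Q) := by
          rw [MvPolynomial.eval_map, ← MvPolynomial.eval₂_id, MvPolynomial.hom_eval₂]
          congr 1
          funext i
          rw [← ha i, ← hbr]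
        rw [h2, hρ]
        exact ⟨pi' A p ^ k * y, by rw [hy, pow_succ']; ring⟩
    have h1 : MvPolynomial.C (pi' A p) ∣ Q := by
      rw [MvPolynomial.C_dvd_iff_dvd_coeff]
      intro i
      have h2 := congrArg (MvPolynomial.coeff i) h0
      rw [MvPolynomial.coeff_map, MvPolynomial.coeff_zero] at h2
      exact (hρ _).1 h2
    obtain ⟨Q', hQ'⟩ := h1
    obtain ⟨y, hy⟩ := ih Q' (fun d hd i => hQ d (by
      rw [MvPolynomial.mem_support_iff] at hd ⊢
      rw [hQ', MvPolynomial.coeff_C_mul]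
      intro h3
      exact hd (pi_cancel hp hp0 h3)) i) (fun a => by
        obtain ⟨y, hy⟩ := h a
        refine ⟨y, ?_⟩
        rw [hQ', map_mul, MvPolynomial.eval_C, pow_succ', mul_assoc] at hy
        have h3 : pi' A p * (MvPolynomial.eval (fun i => br A p (a i)) Q' - pi' A p ^ k * y) = 0 := by
          rw [mul_sub, hy, sub_self]
        exact sub_eq_zero.1 (pi_cancel hp hp0 h3)) d
    refine ⟨y, ?_⟩
    rw [hQ', MvPolynomial.coeff_C_mul, hy, pow_succ', mul_assoc]

end ring

end Pool.Agent.X252.MT
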