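import Pool.Agent.X252.MTE

/-!
Powers of the augmentation ideal of the group ring of an elementary abelian `p`-group: every power is
detected by the cyclic quotients (conclusion).
-/

set_option autoImplicit false

namespace Pool.Agent.X252.MT

open Finset

section grp

variable {A : Type} [CommRing A] {p : ℕ} {G : Type} [CommGroup G]

lemma p_mul_aug (hp : p.Prime) (hG : ∀ g : G, g ^ p = 1) {z : MonoidAlgebra A G}
    (hz : z ∈ Aug A G) : (p : MonoidAlgebra A G) * z ∈ Aug A G ^ p := by
  have h2 : Aug A G ≤ Submodule.comap (LinearMap.mulLeft (MonoidAlgebra A G)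
      (p : MonoidAlgebra A G)) (Aug A G ^ p) := by
    unfold Aug
    rw [Ideal.span_le]
    rintro _ ⟨g, rfl⟩
    show (p : MonoidAlgebra A G) * tt A g ∈ Aug A G ^ p
    have h3 : (1 + tt A g) ^ p = 1 := by
      unfold tt
      rw [add_sub_cancel, ← map_pow, hG, map_one]
    obtain ⟨y, hy⟩ := sum_choose hp _ h3
    have h4 : (1 - y * tt A g) * ((p : MonoidAlgebra A G) * tt A g) ∈ Aug A G ^ p := by
      have h5 : (1 - y * tt A g) * ((p : MonoidAlgebra A G) * tt A g) = - tt A g ^ p := by
        rw [hy]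
        ring
      rw [h5]
      exact (Ideal.neg_mem_iff _).2 (Ideal.pow_mem_pow (tt_mem g) p)
    refine mem_of_mul_mem (a := (1 : A)) isUnit_one ?_ h4
    rw [map_one]
    have h6 : (1 - y * tt A g) - 1 = -y * tt A g := by ring
    rw [h6]
    exact Ideal.mul_mem_left _ _ (tt_mem g)
  exact h2 hz

lemma p_mul_pow (hp : p.Prime) (hG : ∀ g : G, g ^ p = 1) {m : ℕ} (hm : 1 ≤ m)
    {z : MonoidAlgebra A G} (hz : z ∈ Aug A G ^ m) :
    (p : MonoidAlgebra A G) * z ∈ Aug A G ^ (m + (p - 1)) := by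
  obtain ⟨m, rfl⟩ : ∃ k, m = k + 1 := ⟨m - 1, by omega⟩
  have hp1 := hp.one_lt
  have h3 : Aug A G ^ (m + 1) ≤ Submodule.comap (LinearMap.mulLeft
      (MonoidAlgebra A G) (p : MonoidAlgebra A G)) (Aug A G ^ (m + 1 + (p - 1))) := by
    rw [pow_succ, Ideal.mul_le]
    intro x hx y hy
    show (p : MonoidAlgebra A G) * (x * y) ∈ Aug A G ^ (m + 1 + (p - 1))
    have h4 := Ideal.mul_mem_mul hx (p_mul_aug hp hG hy)
    rw [← pow_add] at h4
    rw [show m + 1 + (p - 1) = m + p by omega]
    convert h4 using 1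
    ring
  exact h3 hz

lemma smul_pi [IsDomain A] (hp : p.Prime) (hA : Good A p) (hG : ∀ g : G, g ^ p = 1) : ∀ (s : ℕ)
    (a : A), (∃ y, algebraMap A (RR A p) a = pi' A p ^ s * y) → ∀ {m : ℕ}, 1 ≤ m →
    ∀ {z : MonoidAlgebra A G}, z ∈ Aug A G ^ m → algebraMap A _ a * z ∈ Aug A G ^ (m + s) := by
  intro s
  induction s using Nat.strong_induction_on with
  | _ s ih =>
    intro a ha m hm z hz
    rcases Nat.eq_zero_or_pos s with h0 | h0
    · subst h0
      exact Ideal.mul_mem_left _ _ hz
    · obtain ⟨y, hy⟩ := ha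
      obtain ⟨b, hb⟩ := red_pi (A := A) (a := a) (y := pi' A p ^ (s - 1) * y) hp (by
        rw [hy, ← mul_assoc, ← pow_succ', Nat.sub_add_cancel h0])
      have h1 := p_mul_pow hp hG hm hz
      have h2 : algebraMap A (MonoidAlgebra A G) a * z =
          algebraMap A (MonoidAlgebra A G) b * ((p : MonoidAlgebra A G) * z) := by
        rw [hb, map_mul, map_natCast]
        ring
      rw [h2]
      by_cases h3 : s ≤ p - 1
      · exact Ideal.pow_le_pow_right (by omega) (Ideal.mul_mem_left _ _ h1)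
      · have hp2 := hp.two_le
        obtain ⟨v, hv⟩ := pi_pow (A := A) hp (p_ne hp hA)
        have h4 := @ih (s - (p - 1)) (by omega) b ⟨v * y, by
          apply sub_eq_zero.1
          apply p_cancel hp (p_ne hp hA)
          have h5 : (p : RR A p) * algebraMap A (RR A p) b = pi' A p ^ s * y := by
            rw [← hy, hb, map_mul, map_natCast]
          have h6 : pi' A p ^ s = pi' A p ^ (p - 1) * pi' A p ^ (s - (p - 1)) := by
            rw [← pow_add]
            congr 1
            omega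
          rw [mul_sub, h5, h6, hv]
          ring⟩ (m + (p - 1)) (by omega) _ h1
        rwa [show m + (p - 1) + (s - (p - 1)) = m + s by omega] at h4

/-- the expansion in monomials -/
lemma expand {ι : Type} [Fintype ι] [DecidableEq ι] {g : ι → G} (hg : Gens g) (hp : p.Prime)
    (hG : ∀ x : G, x ^ p = 1) (z : MonoidAlgebra A G) :
    ∃ c : (ι → Fin p) → A, z = ∑ b, algebraMap A _ (c b) * ∏ i, tt A (g i) ^ (b i : ℕ) := by
  classical
  induction z using MonoidAlgebra.induction_on with
  | of x =>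
    obtain ⟨a, ha⟩ := hg x
    have h1 : x = ∏ i, g i ^ (a i % p) := by
      rw [ha]
      refine Finset.prod_congr rfl fun i _ => ?_
      conv_lhs => rw [← Nat.mod_add_div (a i) p, pow_add, pow_mul, hG, one_pow, mul_one]
    refine ⟨fun b => ∏ i, ((a i % p).choose (b i : ℕ) : A), ?_⟩
    have h2 : ∀ i, MonoidAlgebra.of A G (g i ^ (a i % p)) =
        ∑ b : Fin p, algebraMap A _ (((a i % p).choose (b : ℕ) : ℕ) : A) * tt A (g i) ^ (b : ℕ) := by
      intro i
      have h3 : MonoidAlgebra.of A G (g i ^ (a i % p)) = (tt A (g i) + 1) ^ (a i % p) := by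
        unfold tt
        rw [sub_add_cancel, map_pow]
      rw [h3, add_pow]
      have h4 : a i % p + 1 ≤ p := Nat.mod_lt _ hp.pos
      rw [Fin.sum_univ_eq_sum_range (fun b => algebraMap A (MonoidAlgebra A G)
        (((a i % p).choose b : ℕ) : A) * tt A (g i) ^ b) p]
      rw [← Finset.sum_subset (Finset.range_mono h4)]
      · refine Finset.sum_congr rfl fun b _ => ?_
        rw [one_pow, mul_one, map_natCast, mul_comm]
      · intro b _ hb
        rw [Finset.mem_range, not_lt] at hb
        rw [Nat.choose_eq_zero_of_lt (by omega), Nat.cast_zero, map_zero, zero_mul]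
    rw [h1, map_prod]
    simp only [h2]
    rw [Finset.prod_univ_sum, Fintype.piFinset_univ]
    refine Finset.sum_congr rfl fun b _ => ?_
    rw [Finset.prod_mul_distrib, map_prod]
  | add x y hx hy =>
    obtain ⟨c, hc⟩ := hx
    obtain ⟨d, hd⟩ := hy
    refine ⟨fun b => c b + d b, ?_⟩
    simp only [map_add, add_mul, Finset.sum_add_distrib]
    rw [← hc, ← hd]
  | smul r x hx =>
    obtain ⟨c, hc⟩ := hx
    refine ⟨fun b => r * c b, ?_⟩
    simp only [map_mul, mul_assoc]
    rw [← Finset.mul_sum, ← hc, Algebra.smul_def]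

/-- the unit given by the root of unity -/
noncomputable def uz (A : Type) [CommRing A] (hp : p.Prime) : (RR A p)ˣ :=
  Units.ofPowEqOne (zt A p) p (zt_pow hp) hp.ne_zero

lemma uz_pow (hp : p.Prime) : uz A hp ^ p = 1 := Units.pow_ofPowEqOne _ _

/-- evaluation at the root of unity -/
noncomputable def zev (A : Type) [CommRing A] (hp : p.Prime) (φ : G →* Multiplicative (ZMod p)) :
    MonoidAlgebra A G →ₐ[A] RR A p :=
  MonoidAlgebra.lift A (RR A p) _ ((Units.coeHom _).comp ((zh (uz A hp) (uz_pow hp)).comp φ))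

lemma zev_of (hp : p.Prime) (φ : G →* Multiplicative (ZMod p)) (g : G) :
    zev A hp φ (MonoidAlgebra.of A G g) = (zh (uz A hp) (uz_pow hp) (φ g) : (RR A p)ˣ) := by
  unfold zev
  rw [MonoidAlgebra.lift_of]
  rfl

lemma uz_val (hp : p.Prime) : (uz A hp : RR A p) = zt A p := by
  unfold uz
  rw [Units.val_ofPowEqOne]

lemma zev_tt (hp : p.Prime) (φ : G →* Multiplicative (ZMod p)) {g : G} {a : ℕ}
    (h : φ g = Multiplicative.ofAdd 1 ^ a) : zev A hp φ (tt A g) = pi' A p * br A p a := by
  unfold tt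
  rw [map_sub, map_one, zev_of, h, map_pow, zh_one, Units.val_pow_eq_pow_val, uz_val, br_mul]

theorem detect_p_abs [IsDomain A] (hp : p.Prime) (hA : Good A p) {ι : Type} [Fintype ι]
    {g : ι → G} (hg : Gens g) (hG : ∀ x : G, x ^ p = 1)
    (hfree : ∀ a : ι → ℕ, ∃ φ : G →* Multiplicative (ZMod p),
      ∀ i, φ (g i) = Multiplicative.ofAdd 1 ^ a i) {k : ℕ} (z : MonoidAlgebra A G)
    (h0 : 1 ≤ k → eps A G z = 0)
    (h : ∀ φ : G →* Multiplicative (ZMod p), ∃ y, zev A hp φ z = pi' A p ^ k * y) :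
    z ∈ Aug A G ^ k := by
  classical
  rcases Nat.eq_zero_or_pos k with hk | hk
  · subst hk; simp
  obtain ⟨c, hc⟩ := expand (A := A) hg hp hG z
  have hp0 := p_ne hp hA
  let fs : (ι → Fin p) → (ι →₀ ℕ) := fun b => Finsupp.equivFunOnFinite.symm fun i => (b i : ℕ)
  have hfs : ∀ b i, fs b i = b i := fun b i => rfl
  have hinj : Function.Injective fs := by
    intro b b' hb
    funext i
    have := DFunLike.congr_fun hb i
    exact Fin.ext this
  let Q : MvPolynomial ι (RR A p) := ∑ b, MvPolynomial.monomial (fs b)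
    (algebraMap A _ (c b) * pi' A p ^ ∑ i, (b i : ℕ))
  have hcoe : ∀ b, Q.coeff (fs b) = algebraMap A _ (c b) * pi' A p ^ ∑ i, (b i : ℕ) := by
    intro b
    simp only [Q, MvPolynomial.coeff_sum, MvPolynomial.coeff_monomial]
    rw [Finset.sum_eq_single b]
    · rw [if_pos rfl]
    · intro b' _ hb'
      rw [if_neg fun h1 => hb' (hinj h1)]
    · intro h1
      exact absurd (Finset.mem_univ b) h1
  have hsup : ∀ d ∈ Q.support, ∀ i, d i < p := by
    intro d hd i
    rw [MvPolynomial.mem_support_iff] at hd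
    simp only [Q, MvPolynomial.coeff_sum, MvPolynomial.coeff_monomial] at hd
    obtain ⟨b, -, hb⟩ := Finset.exists_ne_zero_of_sum_ne_zero hd
    have h1 : fs b = d := by
      by_contra h2
      rw [if_neg h2] at hb
      exact hb rfl
    rw [← h1, hfs]
    exact (b i).2
  have hval : ∀ a : ι → ℕ, ∃ y, MvPolynomial.eval (fun i => br A p (a i)) Q = pi' A p ^ k * y := by
    intro a
    obtain ⟨φ, hφ⟩ := hfree a
    obtain ⟨y, hy⟩ := h φ
    refine ⟨y, ?_⟩
    rw [← hy]
    conv_rhs => rw [hc]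
    rw [map_sum, map_sum]
    simp only [MvPolynomial.eval_monomial]
    refine Finset.sum_congr rfl fun b _ => ?_
    rw [map_mul, map_prod, Finsupp.prod_fintype _ _ (fun i => by simp), AlgHom.commutes, mul_assoc]
    congr 1
    rw [← Finset.prod_pow_eq_pow_sum, ← Finset.prod_mul_distrib]
    refine Finset.prod_congr rfl fun i _ => ?_
    rw [map_pow, hfs, ← mul_pow, zev_tt hp φ (hφ i)]
  rw [hc]
  refine Ideal.sum_mem _ fun b _ => ?_
  obtain ⟨y, hy⟩ := coeff_pi hp hA k Q hsup hval (fs b)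
  rw [hcoe] at hy
  have hT : ∏ i, tt A (g i) ^ (b i : ℕ) ∈ Aug A G ^ ∑ i, (b i : ℕ) := by
    have h1 : ∏ i, tt A (g i) ^ (b i : ℕ) ∈ ∏ i, Aug A G ^ (b i : ℕ) :=
      Ideal.prod_mem_prod fun i _ => Ideal.pow_mem_pow (tt_mem _) _
    rwa [Finset.prod_pow_eq_pow_sum] at h1
  rcases Nat.eq_zero_or_pos (∑ i, (b i : ℕ)) with h1 | h1
  · -- the constant term
    have hb : ∀ i, (b i : ℕ) = 0 := fun i => by
      have := (Finset.sum_eq_zero_iff_of_nonneg (fun i _ => Nat.zero_le _)).1 h1 i
        (Finset.mem_univ i)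
      exact this
    have h2 : c b = 0 := by
      rw [← h0 hk]
      conv_rhs => rw [hc]
      rw [map_sum, Finset.sum_eq_single b]
      · rw [map_mul, AlgHom.commutes]
        have h3 : ∏ i, tt A (g i) ^ (b i : ℕ) = 1 :=
          Finset.prod_eq_one fun i _ => by rw [hb i, pow_zero]
        rw [h3, map_one, mul_one]
        rfl
      · intro b' _ hb'
        have h3 : ∃ i, (b' i : ℕ) ≠ 0 := by
          by_contra hcon
          push Not at hcon
          exact hb' (funext fun i => Fin.ext (by rw [hcon i, hb i]))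
        obtain ⟨i, hi⟩ := h3
        have h4 : eps A G (∏ i, tt A (g i) ^ (b' i : ℕ)) = 0 := by
          rw [map_prod, Finset.prod_eq_zero (Finset.mem_univ i)]
          rw [map_pow, eps_mem (tt_mem _), zero_pow hi]
        rw [map_mul, h4, mul_zero]
      · intro h3
        exact absurd (Finset.mem_univ b) h3
    rw [h2, map_zero, zero_mul]
    exact Ideal.zero_mem _
  · by_cases h2 : k ≤ ∑ i, (b i : ℕ)
    · exact Ideal.mul_mem_left _ _ (Ideal.pow_le_pow_right h2 hT)
    · have h3 := smul_pi hp hA hG (k - ∑ i, (b i : ℕ)) (c b) ⟨y, by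
        apply sub_eq_zero.1
        apply pi_cancel_pow hp hp0 (∑ i, (b i : ℕ))
        rw [mul_sub, mul_comm _ (algebraMap A (RR A p) (c b)), hy, ← mul_assoc, ← pow_add,
          Nat.add_sub_cancel' (by omega), sub_self]⟩ h1 hT
      rwa [Nat.add_sub_cancel' (by omega)] at h3

/-- membership in a power of the augmentation ideal and divisibility by a power of the
uniformiser -/
lemma div_of_mem (hp : p.Prime) {k : ℕ} {z : MonoidAlgebra A G} (φ : G →* Multiplicative (ZMod p))
    (h : mp A φ z ∈ Aug A _ ^ k) :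
    ∃ y, zev A hp φ z = pi' A p ^ k * y := by
  have hN : NeZero p := ⟨hp.ne_zero⟩
  have h1 := aug_map (A := A) (B := RR A p) (pi' A p) (uz A hp) (by
    rw [uz_val]
    unfold pi'
    rw [sub_add_cancel]) (uz_pow hp) h
  obtain ⟨y, hy⟩ := Ideal.mem_span_singleton.1 h1
  refine ⟨y, ?_⟩
  rw [← hy]
  clear hy h1 h
  induction z using MonoidAlgebra.induction_on with
  | of g =>
    rw [mp_of, zev_of, MonoidAlgebra.lift_of]
    rfl
  | add x y hx hy => rw [map_add, map_add, map_add, hx, hy]
  | smul r x hx => rw [map_smul, map_smul, map_smul, hx]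

end grp

end Pool.Agent.X252.MT
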