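import Pool.Agent.X252.MTF

/-!
Detection of the powers of the augmentation ideal of `A[Hom(X, ℂˣ)]`, `X` elementary abelian, on the
cyclic subgroups of `X`.
-/

set_option autoImplicit false

namespace Pool.Agent.X252.MT

open Finset

section det

variable {A : Type} [CommRing A]

theorem detect_p [IsDomain A] {G : Type} [CommGroup G] [Finite G] {p : ℕ} (hp : p.Prime)
    (hA : Good A p) (hG : ∀ g : G, g ^ p = 1) {k : ℕ} (z : MonoidAlgebra A G)
    (h0 : 1 ≤ k → eps A G z = 0)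
    (h : ∀ φ : G →* Multiplicative (ZMod p), ∃ y, zev A hp φ z = pi' A p ^ k * y) :
    z ∈ Aug A G ^ k := by
  classical
  obtain ⟨ι, hι, n, hn, ⟨E⟩⟩ := CommGroup.equiv_prod_multiplicative_zmod_of_finite G
  have h1 : ∀ i, n i = p := by
    intro i
    have h2 : gs n i ^ p = 1 := by
      have h3 := congrArg E (hG (E.symm (gs n i)))
      rwa [map_pow, MulEquiv.apply_symm_apply, map_one] at h3
    have h4 := congrFun h2 i
    rw [Pi.pow_apply, gs, Pi.mulSingle_eq_same, Pi.one_apply, ← toAdd_eq_zero, toAdd_pow,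
      toAdd_ofAdd, nsmul_eq_mul, mul_one, ZMod.natCast_eq_zero_iff] at h4
    rcases (Nat.dvd_prime hp).1 h4 with h5 | h5
    · have := hn i
      omega
    · exact h5
  obtain rfl : n = fun _ => p := funext h1
  have hne : NeZero p := ⟨hp.ne_zero⟩
  refine detect_p_abs hp hA (g := fun i => E.symm (gs (fun _ => p) i)) (fun x => ?_) hG
    (fun a => ?_) z h0 h
  · refine ⟨fun i => (Multiplicative.toAdd (E x i)).val, ?_⟩
    have h1 : ∀ i, E.symm (gs (fun _ => p) i) ^ (Multiplicative.toAdd (E x i)).val =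
        E.symm (Pi.mulSingle i (E x i)) := by
      intro i
      rw [← map_pow, gs, ← Pi.mulSingle_pow, ← ofAdd_nsmul]
      simp
    simp only [h1]
    rw [← map_prod, Finset.univ_prod_mulSingle, MulEquiv.symm_apply_apply]
  · refine ⟨(∏ i, (Pi.evalMonoidHom (fun _ => Multiplicative (ZMod p)) i) ^ a i).comp
      E.toMonoidHom, fun j => ?_⟩
    show (∏ i, (Pi.evalMonoidHom (fun _ => Multiplicative (ZMod p)) i) ^ a i)
      (E (E.symm (gs (fun _ => p) j))) = _
    rw [MulEquiv.apply_symm_apply, MonoidHom.finsetProd_apply, Finset.prod_eq_single j]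
    · show (gs (fun _ => p) j j) ^ a j = _
      rw [gs, Pi.mulSingle_eq_same]
    · intro i _ hij
      show (gs (fun _ => p) j i) ^ a i = 1
      rw [gs, Pi.mulSingle_eq_of_ne hij, one_pow]
    · intro h5
      exact absurd (Finset.mem_univ j) h5

/-- homomorphisms to cyclic groups factor through the restriction to a cyclic subgroup -/
lemma factor {X : Type} [CommGroup X] [Finite X] {N : ℕ} [NeZero N]
    (φ : (X →* ℂˣ) →* Multiplicative (ZMod N)) : ∃ χ : X, ∀ (C : Type) [CommGroup C] (i : C →* X),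
      Function.Injective i → χ ∈ i.range → ∃ φ' : (C →* ℂˣ) →* Multiplicative (ZMod N),
        φ'.comp (res i) = φ := by
  have hne : NeZero (Monoid.exponent X) := ⟨Monoid.exponent_ne_zero_of_finite⟩
  refine ⟨CommGroup.monoidHomMonoidHomEquiv X ℂ ((emb N).comp φ), fun C _ i hi hc => ?_⟩
  obtain ⟨c, hc⟩ := hc
  have hs := res_surj i hi
  have hker : (res i).ker ≤ φ.ker := by
    intro σ hσ
    rw [MonoidHom.mem_ker] at hσ ⊢
    apply emb_inj N
    rw [map_one]
    have h1 := CommGroup.apply_monoidHomMonoidHomEquiv (G := X) ℂ σ ((emb N).comp φ)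
    rw [MonoidHom.comp_apply] at h1
    rw [← h1, ← hc]
    have h2 := DFunLike.congr_fun hσ c
    exact h2
  refine ⟨(res i).liftOfRightInverse (Function.surjInv hs)
    (Function.rightInverse_surjInv hs) ⟨φ, hker⟩, ?_⟩
  exact MonoidHom.ext fun σ => MonoidHom.liftOfRightInverse_comp_apply (res i)
    (Function.surjInv hs) (Function.rightInverse_surjInv hs) ⟨φ, hker⟩ σ

/-- **detection on the cyclic subgroups of `X`**, `X` of exponent `p` -/
theorem detectX_p [IsDomain A] {X : Type} [CommGroup X] [Finite X] {p : ℕ} (hp : p.Prime)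
    (hA : Good A p) (hX : ∀ x : X, x ^ p = 1) {k : ℕ} (z : MonoidAlgebra A (X →* ℂˣ))
    (h : ∀ χ : X, ∃ (C : Type) (_ : CommGroup C) (i : C →* X), Function.Injective i ∧
      χ ∈ i.range ∧ mp A (res i) z ∈ Aug A _ ^ k) : z ∈ Aug A (X →* ℂˣ) ^ k := by
  have hfin := fin_dual X
  have hne : NeZero p := ⟨hp.ne_zero⟩
  refine detect_p hp hA (fun σ => ?_) z (fun hk => ?_) fun φ => ?_
  · ext x
    rw [MonoidHom.pow_apply, ← map_pow, hX, map_one]
    rfl
  · obtain ⟨C, hC, i, hi, _, hm⟩ := h 1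
    have h1 := eps_mem (Ideal.pow_le_self (by omega) hm)
    rwa [eps_mp] at h1
  · obtain ⟨χ, hχ⟩ := factor φ
    obtain ⟨C, hC, i, hi, hc, hm⟩ := h χ
    obtain ⟨φ', rfl⟩ := hχ C i hi hc
    refine div_of_mem hp _ ?_
    rw [← mp_mp]
    exact mp_mem _ hm

/-- **detection on the cyclic subgroups of `X`** -/
theorem detectX' [IsDomain A] {X : Type} [CommGroup X] [Finite X] {p : ℕ} (hp : p.Prime)
    (hA : Good A p) (hX : ∀ x : X, ∃ n, x ^ p ^ n = 1) {k : ℕ}
    (hk : k ≤ p ∨ ∀ x : X, x ^ p = 1) (z : MonoidAlgebra A (X →* ℂˣ))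
    (h : ∀ χ : X, ∃ (C : Type) (_ : CommGroup C) (i : C →* X), Function.Injective i ∧
      χ ∈ i.range ∧ mp A (res i) z ∈ Aug A _ ^ k) : z ∈ Aug A (X →* ℂˣ) ^ k := by
  rcases hk with hk | hk
  · exact detectX hp hA hX hk z h
  · exact detectX_p hp hA hk z h

end det

/-! ### the coefficients -/

/-- the rational numbers with denominator prime to `p`, inside the complex numbers -/
def Zp (p : ℕ) (hp : p.Prime) : Subring ℂ where
  carrier := {z | ∃ a b : ℤ, ¬ (p : ℤ) ∣ b ∧ (b : ℂ) * z = a}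
  mul_mem' := by
    rintro x y ⟨a, b, hb, h⟩ ⟨c, d, hd, h'⟩
    refine ⟨a * c, b * d, fun h1 => ?_, ?_⟩
    · rcases (Nat.prime_iff_prime_int.1 hp).dvd_or_dvd h1 with h2 | h2
      · exact hb h2
      · exact hd h2
    · push_cast
      rw [← h, ← h']
      ring
  one_mem' := ⟨1, 1, fun h1 => by
    have : p ∣ 1 := by exact_mod_cast h1
    exact hp.one_lt.ne' (Nat.dvd_one.1 this), by simp⟩
  add_mem' := by
    rintro x y ⟨a, b, hb, h⟩ ⟨c, d, hd, h'⟩
    refine ⟨a * d + c * b, b * d, fun h1 => ?_, ?_⟩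
    · rcases (Nat.prime_iff_prime_int.1 hp).dvd_or_dvd h1 with h2 | h2
      · exact hb h2
      · exact hd h2
    · push_cast
      rw [← h, ← h']
      ring
  zero_mem' := ⟨0, 1, fun h1 => by
    have : p ∣ 1 := by exact_mod_cast h1
    exact hp.one_lt.ne' (Nat.dvd_one.1 this), by simp⟩
  neg_mem' := by
    rintro x ⟨a, b, hb, h⟩
    exact ⟨-a, b, hb, by push_cast; rw [← h]; ring⟩

lemma zp_unit {p : ℕ} (hp : p.Prime) {n : ℤ} (hn : ¬ (p : ℤ) ∣ n) : IsUnit ((n : Zp p hp)) := by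
  have h0 : (n : ℂ) ≠ 0 := by
    intro h
    have : n = 0 := by exact_mod_cast h
    exact hn (this ▸ dvd_zero _)
  refine IsUnit.of_mul_eq_one ⟨(n : ℂ)⁻¹, 1, n, hn, by rw [mul_inv_cancel₀ h0]; simp⟩ ?_
  apply Subtype.ext
  show ((n : Zp p hp) : ℂ) * (n : ℂ)⁻¹ = 1
  rw [SubringClass.coe_intCast, mul_inv_cancel₀ h0]

lemma zp_good {p : ℕ} (hp : p.Prime) : Good (Zp p hp) p where
  app := by
    rintro e ⟨z, a, b, hb, h⟩
    have h1 : IsCoprime b ((p : ℤ) ^ e) :=
      (((Prime.coprime_iff_not_dvd (Nat.prime_iff_prime_int.1 hp)).2 hb).symm).pow_right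
    obtain ⟨u, v, huv⟩ := h1
    have hb0 : (b : ℂ) ≠ 0 := by
      intro h2
      have : b = 0 := by exact_mod_cast h2
      exact hb (this ▸ dvd_zero _)
    obtain ⟨c, hc⟩ := (zp_unit hp hb).exists_right_inv
    have hc' : (b : ℂ) * (c : ℂ) = 1 := by
      have := congrArg (Subtype.val) hc
      simpa using this
    refine ⟨a * u, (a * v : ℤ) * c, ?_⟩
    apply Subtype.ext
    have h3 : ((u : ℂ) * b + v * (p : ℂ) ^ e) = 1 := by exact_mod_cast huv
    have h4 : z = ((a * u : ℤ) : ℂ) + ((p ^ e : ℕ) : ℂ) * (((a * v : ℤ) : ℂ) * (c : ℂ)) := by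
      apply mul_left_cancel₀ hb0
      rw [h]
      push_cast
      linear_combination (-(a : ℂ)) * h3 - (p : ℂ) ^ e * (a * v) * hc'
    simpa using h4
  dvd := by
    rintro f n ⟨⟨z, a, b, hb, h⟩, hn⟩
    have h1 : (n : ℂ) = (p : ℂ) ^ f * z := by
      have := congrArg (Subtype.val) hn
      simpa using this
    have h2 : b * n = (p : ℤ) ^ f * a := by
      have : ((b * n : ℤ) : ℂ) = (((p : ℤ) ^ f * a : ℤ) : ℂ) := by
        push_cast
        rw [h1, ← h]
        ring
      exact_mod_cast this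
    have h3 : IsCoprime ((p : ℤ) ^ f) b :=
      ((Prime.coprime_iff_not_dvd (Nat.prime_iff_prime_int.1 hp)).2 hb).pow_left
    exact h3.dvd_of_dvd_mul_left ⟨a, h2⟩

end Pool.Agent.X252.MT
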