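import Pool.Agent.X252.MTG

/-!
Mazur-Tate elements: real abelian fields of `p`-power degree and squarefree conductor given by their
groups of characters, Gauss sums, `L`-values and the elements interpolating them.
-/

set_option autoImplicit false

namespace Pool.Agent.X252.MT

open Finset Topology

/-- the group of the homomorphisms to the nonzero complex numbers -/
def Du (X : Type) [CommGroup X] : Type := X →* ℂˣ

noncomputable instance (X : Type) [CommGroup X] : CommGroup (Du X) :=
  inferInstanceAs (CommGroup (X →* ℂˣ))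

instance (X : Type) [CommGroup X] : FunLike (Du X) X ℂˣ :=
  inferInstanceAs (FunLike (X →* ℂˣ) X ℂˣ)

instance (X : Type) [CommGroup X] : MonoidHomClass (Du X) X ℂˣ :=
  inferInstanceAs (MonoidHomClass (X →* ℂˣ) X ℂˣ)

lemma du_one {X : Type} [CommGroup X] (χ : X) : (1 : Du X) χ = 1 := rfl

lemma du_mul {X : Type} [CommGroup X] (σ τ : Du X) (χ : X) : (σ * τ) χ = σ χ * τ χ := rfl

lemma du_inv {X : Type} [CommGroup X] (σ : Du X) (χ : X) : σ⁻¹ χ = (σ χ)⁻¹ := rfl

@[ext]
lemma du_ext {X : Type} [CommGroup X] {σ τ : Du X} (h : ∀ χ, σ χ = τ χ) : σ = τ :=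
  MonoidHom.ext h

/-- evaluation of the characters of `X` -/
noncomputable def dev {X : Type} [CommGroup X] (χ : X) : Du X →* ℂˣ where
  toFun σ := σ χ
  map_one' := rfl
  map_mul' _ _ := rfl

/-- a family of characters of the unit groups modulo all natural numbers `q`: for families with
finitely many nontrivial members, all at primes, this is a Dirichlet character of squarefree
conductor -/
def Fam : Type := (q : ℕ) → Du (ZMod q)ˣ

noncomputable instance : CommGroup Fam :=
  inferInstanceAs (CommGroup ((q : ℕ) → Du (ZMod q)ˣ))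

lemma fam_mul (c d : Fam) (q : ℕ) : (c * d) q = c q * d q := rfl

lemma fam_one (q : ℕ) : (1 : Fam) q = 1 := rfl

lemma fam_inv (c : Fam) (q : ℕ) : c⁻¹ q = (c q)⁻¹ := rfl

lemma fam_pow (c : Fam) (n : ℕ) (q : ℕ) : (c ^ n) q = c q ^ n := rfl

@[ext]
lemma fam_ext {c d : Fam} (h : ∀ q, c q = d q) : c = d := funext h

/-- the class of `n` in the unit group modulo `q` (`1` if `n` is not prime to `q`) -/
noncomputable def un (q n : ℕ) : (ZMod q)ˣ :=
  if h : n.Coprime q then ZMod.unitOfCoprime n h else 1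

/-- the value at `n` of the character with the components indexed by `T` -/
noncomputable def val (T : Finset ℕ) (n : ℕ) : Fam →* ℂˣ where
  toFun c := ∏ q ∈ T, c q (un q n)
  map_one' := Finset.prod_eq_one fun _ _ => rfl
  map_mul' c d := by
    rw [← Finset.prod_mul_distrib]
    rfl

/-- the number of points of the reduction of `W` modulo `l`, the point at infinity included -/
noncomputable def cnt (W : WeierstrassCurve ℤ) (l : ℕ) : ℕ :=
  1 + Nat.card {P : ZMod l × ZMod l //
    (W.map (Int.castRingHom (ZMod l))).toAffine.Equation P.1 P.2}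

/-- `a_l = l + 1 - #E(𝔽_l)` -/
noncomputable def al (W : WeierstrassCurve ℤ) (l : ℕ) : ℤ := l + 1 - cnt W l

/-- the group of characters of a real abelian field of `p`-power degree, ramified exactly at the
primes in `T`, where `W` has good reduction at the primes of `T` and `p` does not divide the number of
points of the reduction -/
structure Fld (W : WeierstrassCurve ℤ) (p : ℕ) where
  X : Subgroup Fam
  T : Finset ℕ
  fin : Finite X
  ram : ∀ q, q ∈ T ↔ ∃ c ∈ X, c q ≠ 1
  adm : ∀ q ∈ T, q.Prime ∧ ¬ (q : ℤ) ∣ W.Δ ∧ ¬ p ∣ cnt W q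
  pow : ∀ c ∈ X, ∃ n : ℕ, c ^ p ^ n = 1

/-- `L` is the analytic continuation of the `L`-function of the twist of `W` by `c` without the
Euler factors at the primes of `T` and at the bad primes -/
structure IsL (W : WeierstrassCurve ℤ) (T : Finset ℕ) (c : Fam) (L : ℂ → ℂ) : Prop where
  entire : Differentiable ℂ L
  prod : ∀ s : ℂ, 3 / 2 < s.re → HasProd (fun l : Nat.Primes =>
    if (l : ℕ) ∈ T ∨ ((l : ℕ) : ℤ) ∣ W.Δ then 1 else
      (1 - (val T l c : ℂ) * ((l : ℂ) + 1 - cnt W l) * (l : ℂ) ^ (-s) +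
        (val T l c : ℂ) ^ 2 * (l : ℂ) ^ (1 - 2 * s))⁻¹) (L s)

/-- the Gauss sum modulo the product of the primes of `T` -/
noncomputable def tau (T : Finset ℕ) (c : Fam) : ℂ :=
  ∑ a ∈ (range (∏ q ∈ T, q)).filter (fun a => a.Coprime (∏ q ∈ T, q)),
    (val T a c : ℂ) * Complex.exp (2 * Real.pi * Complex.I * a / (∏ q ∈ T, q : ℕ))

/-- restriction of characters -/
noncomputable def rs {C X : Type} [CommGroup C] [CommGroup X] (i : C →* X) : Du X →* Du C := res i

lemma rs_apply {C X : Type} [CommGroup C] [CommGroup X] (i : C →* X) (σ : Du X) (c : C) :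
    rs i σ c = σ (i c) := rfl

/-- **detection on the cyclic subgroups** -/
theorem detectD {A : Type} [CommRing A] [IsDomain A] {X : Type} [CommGroup X] [Finite X] {p : ℕ}
    (hp : p.Prime) (hA : Good A p) (hX : ∀ x : X, ∃ n, x ^ p ^ n = 1) {k : ℕ}
    (hk : k ≤ p ∨ ∀ x : X, x ^ p = 1) (z : MonoidAlgebra A (Du X))
    (h : ∀ χ : X, ∃ (C : Type) (_ : CommGroup C) (i : C →* X), Function.Injective i ∧
      χ ∈ i.range ∧ mp A (rs i) z ∈ Aug A _ ^ k) : z ∈ Aug A (Du X) ^ k :=
  detectX' hp hA hX hk z h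

/-- evaluation of a group ring element at a character -/
noncomputable def chi {A : Subring ℂ} {X : Type} [CommGroup X] (χ : X) :
    MonoidAlgebra A (Du X) →ₐ[A] ℂ :=
  MonoidAlgebra.lift A ℂ (Du X) ((Units.coeHom ℂ).comp (dev χ))

lemma chi_eq {A : Subring ℂ} {X : Type} [CommGroup X] (χ : X) (z : MonoidAlgebra A (Du X)) :
    chi χ z = z.coeff.sum fun σ a => (a : ℂ) * (σ χ : ℂ) :=
  MonoidAlgebra.lift_apply' _ _

lemma chi_of {A : Subring ℂ} {X : Type} [CommGroup X] (χ : X) (σ : Du X) :
    chi (A := A) χ (MonoidAlgebra.of A _ σ) = (σ χ : ℂ) := by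
  unfold chi
  rw [MonoidAlgebra.lift_of]
  rfl

/-! ### separation by the characters -/

lemma chi_sep {A : Subring ℂ} {X : Type} [CommGroup X] {z : MonoidAlgebra A (Du X)}
    (h : ∀ χ : X, chi χ z = 0) : z = 0 := by
  classical
  have h1 : LinearIndependent ℂ (fun σ : Du X => fun χ : X => (σ χ : ℂ)) := by
    have h2 := linearIndependent_monoidHom X ℂ
    have h3 : Function.Injective (fun σ : Du X => (Units.coeHom ℂ).comp (σ : X →* ℂˣ)) := by
      intro σ τ hστ
      ext χ
      exact DFunLike.congr_fun hστ χ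
    exact h2.comp _ h3
  rw [linearIndependent_iff] at h1
  have h4 := h1 (z.coeff.mapRange (fun a : A => (a : ℂ)) rfl) (by
    funext χ
    rw [Finsupp.linearCombination_apply, Finsupp.sum_mapRange_index (fun i => by simp)]
    have h5 := h χ
    unfold chi at h5
    rw [MonoidAlgebra.lift_apply'] at h5
    rw [Finsupp.sum, Finset.sum_apply]
    rw [Finsupp.sum] at h5
    exact h5)
  have h6 : z.coeff = 0 := by
    ext σ
    have h7 := DFunLike.congr_fun h4 σ
    rw [Finsupp.mapRange_apply] at h7
    rw [h7]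
    rfl
  ext σ
  rw [h6]
  rfl

/-! ### the values of the characters -/

lemma un_coe {q n : ℕ} (h : n.Coprime q) : ((un q n : (ZMod q)ˣ) : ZMod q) = n := by
  unfold un
  rw [dif_pos h, ZMod.coe_unitOfCoprime]

lemma un_mod {q n n' : ℕ} (h : n ≡ n' [MOD q]) : un q n = un q n' := by
  by_cases h1 : n.Coprime q
  · have h2 : n'.Coprime q := by
      unfold Nat.Coprime at h1 ⊢
      rw [← h1]
      exact (h.gcd_eq).symm
    ext
    rw [un_coe h1, un_coe h2, ZMod.natCast_eq_natCast_iff]
    exact h
  · have h2 : ¬ n'.Coprime q := by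
      intro h3
      apply h1
      unfold Nat.Coprime at h3 ⊢
      rw [← h3]
      exact h.gcd_eq
    unfold un
    rw [dif_neg h1, dif_neg h2]

lemma un_mul {q n m : ℕ} (h : n.Coprime q) (h' : m.Coprime q) : un q (n * m) = un q n * un q m := by
  ext
  rw [Units.val_mul, un_coe h, un_coe h', un_coe (Nat.Coprime.mul_left h h'), Nat.cast_mul]

lemma val_mod {T : Finset ℕ} {n n' : ℕ} (h : n ≡ n' [MOD ∏ q ∈ T, q]) : val T n = val T n' := by
  ext c
  show ((∏ q ∈ T, c q (un q n) : ℂˣ) : ℂ) = ((∏ q ∈ T, c q (un q n') : ℂˣ) : ℂ)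
  congr 1
  refine Finset.prod_congr rfl fun q hq => ?_
  rw [un_mod (h.of_dvd (Finset.dvd_prod_of_mem _ hq))]

lemma val_mul {T : Finset ℕ} {n m : ℕ} (h : n.Coprime (∏ q ∈ T, q)) (h' : m.Coprime (∏ q ∈ T, q)) :
    val T (n * m) = val T n * val T m := by
  ext c
  show ((∏ q ∈ T, c q (un q (n * m)) : ℂˣ) : ℂ) =
    (((∏ q ∈ T, c q (un q n)) * (∏ q ∈ T, c q (un q m)) : ℂˣ) : ℂ)
  congr 1
  rw [← Finset.prod_mul_distrib]
  refine Finset.prod_congr rfl fun q hq => ?_
  rw [un_mul (h.coprime_dvd_right (Finset.dvd_prod_of_mem _ hq))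
    (h'.coprime_dvd_right (Finset.dvd_prod_of_mem _ hq)), map_mul]

lemma val_sub {T T' : Finset ℕ} (hT : T' ⊆ T) {c : Fam} (hc : ∀ q ∈ T, q ∉ T' → c q = 1) (n : ℕ) :
    val T n c = val T' n c := by
  show ∏ q ∈ T, c q (un q n) = ∏ q ∈ T', c q (un q n)
  refine (Finset.prod_subset hT fun q hq hq' => ?_).symm
  rw [hc q hq hq']
  rfl

/-! ### Gauss sums -/

lemma exp_add' (m : ℕ) (hm : m ≠ 0) (l : ℕ) (hl : l ≠ 0) (b t : ℕ) :
    Complex.exp (2 * Real.pi * Complex.I * (b + m * t : ℕ) / (m * l : ℕ)) =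
      Complex.exp (2 * Real.pi * Complex.I * b / (m * l : ℕ)) *
        Complex.exp (2 * Real.pi * Complex.I * (t / l)) := by
  rw [← Complex.exp_add]
  congr 1
  have h1 : (m : ℂ) ≠ 0 := by exact_mod_cast hm
  have h2 : (l : ℂ) ≠ 0 := by exact_mod_cast hl
  push_cast
  field_simp

lemma geom_zero {l : ℕ} (hl : 1 < l) :
    ∑ t ∈ range l, Complex.exp (2 * Real.pi * Complex.I * ((t : ℕ) / l : ℂ)) = 0 := by
  have h1 := (Complex.isPrimitiveRoot_exp l (by omega)).geom_sum_eq_zero hl
  rw [← h1]
  refine Finset.sum_congr rfl fun t _ => ?_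
  rw [← Complex.exp_nat_mul]
  congr 1
  ring

lemma sum_split {M : Type} [AddCommMonoid M] {m l : ℕ} (hm : 0 < m) (f : ℕ → M) :
    ∑ a ∈ range (m * l), f a = ∑ b ∈ range m, ∑ t ∈ range l, f (b + m * t) := by
  rw [← Finset.sum_product']
  refine Finset.sum_nbij' (fun a => (a % m, a / m)) (fun x => x.1 + m * x.2) ?_ ?_ ?_ ?_ ?_
  · intro a ha
    rw [Finset.mem_range] at ha
    rw [Finset.mem_product, Finset.mem_range, Finset.mem_range]
    exact ⟨Nat.mod_lt _ hm, Nat.div_lt_of_lt_mul ha⟩
  · rintro ⟨b, t⟩ hx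
    rw [Finset.mem_product, Finset.mem_range, Finset.mem_range] at hx
    rw [Finset.mem_range]
    obtain ⟨h1, h2⟩ := hx
    simp only at h1 h2
    calc b + m * t < m + m * t := by omega
      _ = m * (t + 1) := by ring
      _ ≤ m * l := Nat.mul_le_mul_left m h2
  · intro a _
    exact Nat.mod_add_div a m
  · rintro ⟨b, t⟩ hx
    rw [Finset.mem_product, Finset.mem_range, Finset.mem_range] at hx
    obtain ⟨h1, h2⟩ := hx
    simp only at h1 h2
    simp only [Nat.add_mul_mod_self_left, Prod.mk.injEq]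
    refine ⟨Nat.mod_eq_of_lt h1, ?_⟩
    rw [Nat.add_mul_div_left _ _ hm, Nat.div_eq_of_lt h1, zero_add]
  · intro a _
    simp only
    rw [Nat.mod_add_div]

lemma tau_insert {T : Finset ℕ} (hT : ∀ q ∈ T, q.Prime) {l : ℕ} (hl : l.Prime) (hlT : l ∉ T)
    {c : Fam} (hc : c l = 1) : tau (insert l T) c = -(val T l c : ℂ) * tau T c := by
  classical
  set m := ∏ q ∈ T, q with hm
  have hm0 : 0 < m := Finset.prod_pos fun q hq => (hT q hq).pos
  have hml : m.Coprime l := by
    rw [hm, Nat.coprime_prod_left_iff]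
    intro q hq
    exact (Nat.coprime_primes (hT q hq) hl).2 (fun h => hlT (h ▸ hq))
  have hprod : ∏ q ∈ insert l T, q = m * l := by
    rw [Finset.prod_insert hlT, mul_comm]
  have hval : ∀ a, val (insert l T) a c = val T a c := fun a =>
    val_sub (Finset.subset_insert l T) (fun q hq hq' => by
      rcases Finset.mem_insert.1 hq with h | h
      · rw [h]; exact hc
      · exact absurd h hq') a
  -- the sum over all classes prime to `m` vanishes
  have h1 : ∑ a ∈ range (m * l), (if a.Coprime m then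
      (val T a c : ℂ) * Complex.exp (2 * Real.pi * Complex.I * a / (m * l : ℕ)) else 0) = 0 := by
    rw [sum_split hm0]
    refine Finset.sum_eq_zero fun b _ => ?_
    by_cases hb : b.Coprime m
    · have h2 : ∀ t ∈ range l, (if (b + m * t).Coprime m then (val T (b + m * t) c : ℂ) *
          Complex.exp (2 * Real.pi * Complex.I * (b + m * t : ℕ) / (m * l : ℕ)) else 0) =
          ((val T b c : ℂ) * Complex.exp (2 * Real.pi * Complex.I * b / (m * l : ℕ))) *
            Complex.exp (2 * Real.pi * Complex.I * ((t : ℕ) / l : ℂ)) := by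
        intro t _
        rw [if_pos ((Nat.coprime_add_mul_left_left b m t).2 hb), exp_add' m hm0.ne' l hl.ne_zero,
          val_mod (n := b + m * t) (n' := b) (by
            rw [← hm]
            show (b + m * t) % m = b % m
            exact Nat.add_mul_mod_self_left b m t)]
        ring
      rw [Finset.sum_congr rfl h2, ← Finset.mul_sum, geom_zero hl.one_lt, mul_zero]
    · refine Finset.sum_eq_zero fun t _ => ?_
      rw [if_neg fun h => hb ((Nat.coprime_add_mul_left_left b m t).1 h)]
  -- the classes divisible by `l`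
  have h2 : ∑ a ∈ range (m * l), (if a.Coprime m ∧ l ∣ a then
      (val T a c : ℂ) * Complex.exp (2 * Real.pi * Complex.I * a / (m * l : ℕ)) else 0) =
      (val T l c : ℂ) * tau T c := by
    unfold tau
    rw [← hm, Finset.mul_sum, ← Finset.sum_filter]
    refine Finset.sum_nbij' (fun a => a / l) (fun b => l * b) ?_ ?_ ?_ ?_ ?_
    · intro a ha
      rw [Finset.mem_filter, Finset.mem_range] at ha ⊢
      obtain ⟨h3, h4, b, rfl⟩ := ha
      rw [Nat.mul_div_cancel_left _ hl.pos]
      refine ⟨?_, Nat.Coprime.coprime_mul_left h4⟩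
      rw [mul_comm m l] at h3
      exact Nat.lt_of_mul_lt_mul_left h3
    · intro b hb
      rw [Finset.mem_filter, Finset.mem_range] at hb ⊢
      refine ⟨?_, Nat.Coprime.mul_left hml.symm hb.2, dvd_mul_right _ _⟩
      rw [mul_comm m l]
      exact Nat.mul_lt_mul_of_pos_left hb.1 hl.pos
    · intro a ha
      rw [Finset.mem_filter] at ha
      exact Nat.mul_div_cancel' ha.2.2
    · intro b _
      exact Nat.mul_div_cancel_left _ hl.pos
    · intro a ha
      rw [Finset.mem_filter, Finset.mem_range] at ha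
      obtain ⟨h3, h4, b, rfl⟩ := ha
      have h5 : b.Coprime m := Nat.Coprime.coprime_mul_left h4
      rw [Nat.mul_div_cancel_left _ hl.pos, val_mul (T := T) hml.symm h5, MonoidHom.mul_apply,
        Units.val_mul, mul_assoc]
      congr 2
      have h6 : (l : ℂ) ≠ 0 := by exact_mod_cast hl.ne_zero
      have h7 : (m : ℂ) ≠ 0 := by exact_mod_cast hm0.ne'
      congr 1
      push_cast
      field_simp
  have h3 : tau (insert l T) c = ∑ a ∈ range (m * l), (if a.Coprime m then
      (val T a c : ℂ) * Complex.exp (2 * Real.pi * Complex.I * a / (m * l : ℕ)) else 0) -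
      ∑ a ∈ range (m * l), (if a.Coprime m ∧ l ∣ a then
      (val T a c : ℂ) * Complex.exp (2 * Real.pi * Complex.I * a / (m * l : ℕ)) else 0) := by
    unfold tau
    rw [hprod, Finset.sum_filter, ← Finset.sum_sub_distrib]
    refine Finset.sum_congr rfl fun a _ => ?_
    rw [hval]
    by_cases h4 : a.Coprime m
    · by_cases h5 : l ∣ a
      · rw [if_neg, if_pos h4, if_pos ⟨h4, h5⟩, sub_self]
        intro h6
        have h7 := Nat.Coprime.coprime_mul_left_right h6
        rw [Nat.coprime_comm, Nat.Prime.coprime_iff_not_dvd hl] at h7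
        exact h7 h5
      · rw [if_pos, if_pos h4, if_neg (fun h => h5 h.2), sub_zero]
        exact Nat.Coprime.mul_right h4
          ((Nat.coprime_comm.1 ((Nat.Prime.coprime_iff_not_dvd hl).2 h5)))
    · rw [if_neg, if_neg h4, if_neg (fun h => h4 h.1), sub_zero]
      intro h6
      exact h4 (Nat.Coprime.coprime_mul_right_right h6)
  rw [h3, h1, h2]
  ring

lemma tau_sub {T T' : Finset ℕ} (hT : ∀ q ∈ T, q.Prime) (hTT : T' ⊆ T) {c : Fam}
    (hc : ∀ q ∈ T, q ∉ T' → c q = 1) :
    tau T c = (∏ l ∈ T \ T', -(val T' l c : ℂ)) * tau T' c := by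
  classical
  have key : ∀ S : Finset ℕ, Disjoint S T' → S ⊆ T →
      tau (T' ∪ S) c = (∏ l ∈ S, -(val T' l c : ℂ)) * tau T' c := by
    intro S
    induction S using Finset.induction_on with
    | empty => intro _ _; simp
    | insert l S hl ih =>
      intro hd hS
      rw [Finset.disjoint_insert_left] at hd
      rw [Finset.union_insert, tau_insert (l := l), ih hd.2
        ((Finset.subset_insert l S).trans hS), Finset.prod_insert hl]
      · rw [val_sub (T := T' ∪ S) (T' := T') Finset.subset_union_left (fun q hq hq' => by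
          rcases Finset.mem_union.1 hq with h | h
          · exact absurd h hq'
          · exact hc q (hS (Finset.mem_insert_of_mem h)) hq')]
        ring
      · intro q hq
        rcases Finset.mem_union.1 hq with h | h
        · exact hT q (hTT h)
        · exact hT q (hS (Finset.mem_insert_of_mem h))
      · exact hT l (hS (Finset.mem_insert_self l S))
      · rw [Finset.mem_union, not_or]
        exact ⟨hd.1, hl⟩
      · exact hc l (hS (Finset.mem_insert_self l S)) hd.1
  have h1 := key (T \ T') Finset.sdiff_disjoint Finset.sdiff_subset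
  rwa [Finset.union_sdiff_of_subset hTT] at h1

end Pool.Agent.X252.MT
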