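import Pool.Agent.X252.MTH

/-!
The restriction relation between the Mazur-Tate elements of two fields.
-/

set_option autoImplicit false

namespace Pool.Agent.X252.MT

open Finset Topology

variable {W : WeierstrassCurve ℤ} {p : ℕ}

/-! ### Euler factors -/

/-- the inverse of the Euler factor at `l` of the twist by `c` -/
noncomputable def ef (W : WeierstrassCurve ℤ) (T : Finset ℕ) (c : Fam) (s : ℂ) (l : ℕ) : ℂ :=
  1 - (val T l c : ℂ) * ((l : ℂ) + 1 - cnt W l) * (l : ℂ) ^ (-s) +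
    (val T l c : ℂ) ^ 2 * (l : ℂ) ^ (1 - 2 * s)

lemma al_cast (W : WeierstrassCurve ℤ) (l : ℕ) : ((al W l : ℤ) : ℂ) = (l : ℂ) + 1 - cnt W l := by
  unfold al
  push_cast
  ring

lemma al_bound (W : WeierstrassCurve ℤ) {l : ℕ} (hl : 0 < l) : ‖((al W l : ℤ) : ℂ)‖ ≤ (l : ℝ) ^ 2 := by
  have hne : NeZero l := ⟨hl.ne'⟩
  rw [Complex.norm_intCast]
  have h1 : Nat.card {P : ZMod l × ZMod l //
      (W.map (Int.castRingHom (ZMod l))).toAffine.Equation P.1 P.2} ≤ l ^ 2 := by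
    refine (Nat.card_le_card_of_injective _ Subtype.val_injective).trans ?_
    rw [Nat.card_prod, Nat.card_zmod, pow_two]
  have h2 : |al W l| ≤ (l : ℤ) ^ 2 := by
    unfold al cnt
    have h3 : ((Nat.card {P : ZMod l × ZMod l //
      (W.map (Int.castRingHom (ZMod l))).toAffine.Equation P.1 P.2} : ℕ) : ℤ) ≤ (l : ℤ) ^ 2 := by
      exact_mod_cast h1
    have h4 : (1 : ℤ) ≤ l := by exact_mod_cast hl
    rw [abs_le]
    push_cast
    constructor <;> nlinarith [Int.natCast_nonneg (Nat.card {P : ZMod l × ZMod l //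
      (W.map (Int.castRingHom (ZMod l))).toAffine.Equation P.1 P.2})]
  exact_mod_cast h2

lemma val_norm {T : Finset ℕ} {l : ℕ} {c : Fam} {n : ℕ} (hn : n ≠ 0) (hc : c ^ n = 1) :
    ‖(val T l c : ℂ)‖ = 1 := by
  refine Complex.norm_eq_one_of_pow_eq_one (n := n) ?_ hn
  rw [← Units.val_pow_eq_pow_val, ← map_pow, hc, map_one, Units.val_one]

lemma ef_ne {T : Finset ℕ} {c : Fam} {n : ℕ} (hn : n ≠ 0) (hc : c ^ n = 1) {l : ℕ} (hl : 2 ≤ l)
    {s : ℂ} (hs : 4 < s.re) : ef W T c s l ≠ 0 := by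
  intro h
  have hl0 : 0 < l := by omega
  have hl1 : (1 : ℝ) < l := by exact_mod_cast (by omega : 1 < l)
  have hl2 : (2 : ℝ) ≤ l := by exact_mod_cast hl
  have h1 : (val T l c : ℂ) * al W l * (l : ℂ) ^ (-s) -
      (val T l c : ℂ) ^ 2 * (l : ℂ) ^ (1 - 2 * s) = 1 := by
    unfold ef at h
    rw [al_cast]
    linear_combination -h
  have h2 : ‖(val T l c : ℂ) * al W l * (l : ℂ) ^ (-s)‖ ≤ 1 / 4 := by
    rw [norm_mul, norm_mul, val_norm hn hc, one_mul, Complex.norm_natCast_cpow_of_pos hl0]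
    have h3 : (l : ℝ) ^ (-s).re ≤ (l : ℝ) ^ (-4 : ℝ) := by
      apply Real.rpow_le_rpow_of_exponent_le hl1.le
      rw [Complex.neg_re]
      linarith
    have h4 : (l : ℝ) ^ (-4 : ℝ) = ((l : ℝ) ^ 4)⁻¹ := by
      rw [Real.rpow_neg (by linarith)]
      norm_cast
    calc ‖((al W l : ℤ) : ℂ)‖ * (l : ℝ) ^ (-s).re ≤ (l : ℝ) ^ 2 * ((l : ℝ) ^ 4)⁻¹ := by
          rw [← h4]
          exact mul_le_mul (al_bound W hl0) h3 (by positivity) (by positivity)
      _ = ((l : ℝ) ^ 2)⁻¹ := by field_simp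
      _ ≤ 1 / 4 := by
        rw [one_div]
        apply inv_anti₀ (by norm_num)
        nlinarith
  have h5 : ‖(val T l c : ℂ) ^ 2 * (l : ℂ) ^ (1 - 2 * s)‖ ≤ 1 / 2 := by
    rw [norm_mul, norm_pow, val_norm hn hc, one_pow, one_mul, Complex.norm_natCast_cpow_of_pos hl0]
    have h3 : (l : ℝ) ^ (1 - 2 * s).re ≤ (l : ℝ) ^ (-1 : ℝ) := by
      apply Real.rpow_le_rpow_of_exponent_le hl1.le
      simp only [Complex.sub_re, Complex.one_re, Complex.mul_re, Complex.re_ofNat,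
        Complex.im_ofNat, zero_mul, sub_zero]
      linarith
    refine h3.trans ?_
    rw [Real.rpow_neg_one, one_div]
    exact inv_anti₀ (by norm_num) hl2
  have h6 := norm_sub_le ((val T l c : ℂ) * al W l * (l : ℂ) ^ (-s))
    ((val T l c : ℂ) ^ 2 * (l : ℂ) ^ (1 - 2 * s))
  rw [h1, norm_one] at h6
  linarith

lemma ef_sub {T T' : Finset ℕ} (hTT : T' ⊆ T) {c : Fam} (hc : ∀ q ∈ T, q ∉ T' → c q = 1) (s : ℂ)
    (l : ℕ) : ef W T c s l = ef W T' c s l := by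
  unfold ef
  rw [val_sub hTT hc]

lemma lval {T T' : Finset ℕ} (hTT : T' ⊆ T) {c : Fam} (hc : ∀ q ∈ T, q ∉ T' → c q = 1) {n : ℕ}
    (hn : n ≠ 0) (hcn : c ^ n = 1) (hT : ∀ q ∈ T, q.Prime ∧ ¬ (q : ℤ) ∣ W.Δ) {L L' : ℂ → ℂ}
    (h : IsL W T c L) (h' : IsL W T' c L') :
    L 1 = L' 1 * ∏ l ∈ T \ T', ef W T' c 1 l := by
  classical
  have h1 : ∀ s : ℂ, 3 / 2 < s.re → L' s = L s * ∏ l ∈ T \ T', (ef W T' c s l)⁻¹ := by
    intro s hs
    have h2 := h.prod s hs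
    have h3 := h'.prod s hs
    have h4 : HasProd (fun l : Nat.Primes => if (l : ℕ) ∈ T \ T' then (ef W T' c s l)⁻¹ else 1)
        (∏ l ∈ T \ T', (ef W T' c s l)⁻¹) := by
      have h5 : HasProd (fun l : Nat.Primes => if (l : ℕ) ∈ T \ T' then (ef W T' c s l)⁻¹ else 1)
          (∏ l ∈ Finset.subtype Nat.Prime (T \ T'),
            (if (l : ℕ) ∈ T \ T' then (ef W T' c s l)⁻¹ else 1)) :=
        hasProd_prod_of_ne_finset_one (fun l hl => by
          rw [if_neg]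
          intro h6
          exact hl (Finset.mem_subtype.2 h6))
      have h6 : ∏ l ∈ Finset.subtype Nat.Prime (T \ T'),
          (if (l : ℕ) ∈ T \ T' then (ef W T' c s l)⁻¹ else 1) =
          ∏ l ∈ T \ T', (ef W T' c s l)⁻¹ := by
        rw [Finset.prod_subtype_of_mem (fun l : ℕ =>
          if l ∈ T \ T' then (ef W T' c s l)⁻¹ else 1)
          (fun l hl => (hT l (Finset.mem_sdiff.1 hl).1).1)]
        refine Finset.prod_congr rfl fun l hl => ?_
        rw [if_pos hl]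
      rw [h6] at h5
      exact h5
    have h7 := h2.mul h4
    refine h3.unique ((congrArg (fun g => HasProd g _) (funext fun l : Nat.Primes => ?_)).mp h7)
    show (if (l : ℕ) ∈ T ∨ ((l : ℕ) : ℤ) ∣ W.Δ then 1 else (ef W T c s l)⁻¹) *
      (if (l : ℕ) ∈ T \ T' then (ef W T' c s l)⁻¹ else 1) =
      if (l : ℕ) ∈ T' ∨ ((l : ℕ) : ℤ) ∣ W.Δ then 1 else (ef W T' c s l)⁻¹
    by_cases h8 : (l : ℕ) ∈ T'
    · rw [if_pos (Or.inl (hTT h8)), if_neg (fun h9 => (Finset.mem_sdiff.1 h9).2 h8),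
        if_pos (Or.inl h8), mul_one]
    · by_cases h9 : (l : ℕ) ∈ T
      · have h10 : (l : ℕ) ∈ T \ T' := Finset.mem_sdiff.2 ⟨h9, h8⟩
        rw [if_pos (Or.inl h9), if_pos h10, if_neg (by
          rintro (h11 | h11)
          · exact h8 h11
          · exact (hT l h9).2 h11), one_mul]
      · rw [if_neg (fun h10 => h9 (Finset.mem_sdiff.1 h10).1), mul_one, ef_sub hTT hc]
        by_cases h11 : ((l : ℕ) : ℤ) ∣ W.Δ
        · rw [if_pos (Or.inr h11), if_pos (Or.inr h11)]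
        · rw [if_neg, if_neg]
          · rintro (h12 | h12)
            · exact h8 h12
            · exact h11 h12
          · rintro (h12 | h12)
            · exact h9 h12
            · exact h11 h12
  have h2 : ∀ s : ℂ, 4 < s.re → L s = L' s * ∏ l ∈ T \ T', ef W T' c s l := by
    intro s hs
    rw [h1 s (by linarith), mul_assoc, ← Finset.prod_mul_distrib]
    rw [Finset.prod_congr rfl (fun l hl => inv_mul_cancel₀ (ef_ne (W := W) (T := T') hn hcn
      (hT l (Finset.mem_sdiff.1 hl).1).1.two_le hs)), Finset.prod_const_one, mul_one]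
  have hd : Differentiable ℂ (fun s => L' s * ∏ l ∈ T \ T', ef W T' c s l) := by
    refine h'.entire.mul ?_
    refine Differentiable.fun_finsetProd fun l hl => ?_
    have hl0 : (l : ℂ) ≠ 0 := by
      exact_mod_cast (hT l (Finset.mem_sdiff.1 hl).1).1.ne_zero
    unfold ef
    intro s
    have h3 : DifferentiableAt ℂ (fun s : ℂ => (l : ℂ) ^ (-s)) s :=
      (differentiableAt_id.neg).const_cpow (Or.inl hl0)
    have h4 : DifferentiableAt ℂ (fun s : ℂ => (l : ℂ) ^ (1 - 2 * s)) s :=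
      (((differentiableAt_const _).sub (differentiableAt_id.const_mul 2))).const_cpow (Or.inl hl0)
    exact ((differentiableAt_const _).sub (h3.const_mul _)).add (h4.const_mul _)
  have hA : AnalyticOnNhd ℂ L Set.univ := fun s _ => h.entire.analyticAt s
  have hB : AnalyticOnNhd ℂ (fun s => L' s * ∏ l ∈ T \ T', ef W T' c s l) Set.univ :=
    fun s _ => hd.analyticAt s
  have hev : L =ᶠ[𝓝 (5 : ℂ)] (fun s => L' s * ∏ l ∈ T \ T', ef W T' c s l) := by
    have hopen : IsOpen {s : ℂ | (4 : ℝ) < s.re} :=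
      isOpen_lt continuous_const Complex.continuous_re
    filter_upwards [hopen.mem_nhds (show (5 : ℂ) ∈ {s : ℂ | (4 : ℝ) < s.re} by
      show (4 : ℝ) < (5 : ℂ).re
      norm_num)] with s hs
    exact h2 s hs
  exact congrFun (hA.eq_of_eventuallyEq hB hev) 1

/-! ### the elements -/

/-- the element interpolates the `L`-values -/
def IsTheta {A : Subring ℂ} (F : Fld W p) (Ω : ℂ) (θ : MonoidAlgebra A (Du F.X)) : Prop :=
  ∀ χ : F.X, ∃ L : ℂ → ℂ, IsL W F.T (χ⁻¹ : F.X) L ∧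
    (θ.coeff.sum fun σ a => (a : ℂ) * (σ χ : ℂ)) * Ω = tau F.T χ * L 1

/-- the Frobenius of `l` -/
noncomputable def frob (F : Fld W p) (l : ℕ) : Du F.X :=
  ((val F.T l).comp F.X.subtype : F.X →* ℂˣ)

/-- the Euler factor -/
noncomputable def VV (A : Subring ℂ) (F : Fld W p) (l : ℕ) : MonoidAlgebra A (Du F.X) :=
  (al W l : MonoidAlgebra A (Du F.X)) - (l : MonoidAlgebra A (Du F.X)) *
    MonoidAlgebra.of A _ (frob F l) - MonoidAlgebra.of A _ (frob F l)⁻¹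

/-- the element times the conductor -/
noncomputable def mt {A : Subring ℂ} (F : Fld W p) (θ : MonoidAlgebra A (Du F.X)) :
    MonoidAlgebra A (Du F.X) := ((∏ q ∈ F.T, q : ℕ) : MonoidAlgebra A (Du F.X)) * θ

lemma chi_mp {A : Subring ℂ} {C X : Type} [CommGroup C] [CommGroup X] (i : C →* X) (χ : C)
    (z : MonoidAlgebra A (Du X)) : chi χ (mp A (rs i) z) = chi (i χ) z := by
  induction z using MonoidAlgebra.induction_on with
  | of σ =>
    rw [mp_of, chi_of, chi_of]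
    rfl
  | add x y hx hy => rw [map_add, map_add, map_add, hx, hy]
  | smul r x hx => rw [map_smul, map_smul, map_smul, hx]

lemma chi_prod {A : Subring ℂ} {X : Type} [CommGroup X] (χ : X) (T : Finset ℕ)
    (a : ℕ → MonoidAlgebra A (Du X)) : chi χ (∏ l ∈ T, a l) = ∏ l ∈ T, chi χ (a l) :=
  map_prod _ _ _

lemma T_sub {F F' : Fld W p} (hle : F'.X ≤ F.X) : F'.T ⊆ F.T := by
  intro q hq
  obtain ⟨c, hc, h⟩ := (F'.ram q).1 hq
  exact (F.ram q).2 ⟨c, hle hc, h⟩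

lemma triv (F : Fld W p) {c : Fam} (hc : c ∈ F.X) {q : ℕ} (hq : q ∉ F.T) : c q = 1 := by
  by_contra h
  exact hq ((F.ram q).2 ⟨c, hc, h⟩)

/-- restriction of characters between subgroups -/
noncomputable def rr {Y X : Subgroup Fam} (h : Y ≤ X) : Du X →* Du Y :=
  rs (C := Y) (X := X) (Subgroup.inclusion h)

/-- **the restriction relation** -/
theorem res_mt {A : Subring ℂ} (hp : p.Prime) {F F' : Fld W p} (hle : F'.X ≤ F.X) {Ω : ℂ}
    (hΩ : Ω ≠ 0) {θ : MonoidAlgebra A (Du F.X)} {θ' : MonoidAlgebra A (Du F'.X)}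
    (h : IsTheta F Ω θ) (h' : IsTheta F' Ω θ') :
    mp A (rr hle) (mt F θ) = (∏ l ∈ F.T \ F'.T, VV A F' l) * mt F' θ' := by
  rw [← sub_eq_zero]
  refine chi_sep (X := F'.X) fun χ => ?_
  rw [map_sub, sub_eq_zero]
  have hL0 : chi χ (mp A (rr hle) (mt F θ)) = chi (Subgroup.inclusion hle χ) (mt F θ) :=
    chi_mp _ _ _
  have hR0 : chi χ ((∏ l ∈ F.T \ F'.T, VV A F' l) * mt F' θ') =
      (∏ l ∈ F.T \ F'.T, chi χ (VV A F' l)) * chi χ (mt F' θ') := by
    rw [map_mul, map_prod]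
  rw [hL0, hR0]
  unfold mt
  rw [map_mul, map_mul, map_natCast, map_natCast]
  obtain ⟨L, hL, h1⟩ := h (Subgroup.inclusion hle χ)
  obtain ⟨L', hL', h2⟩ := h' χ
  rw [← chi_eq] at h1 h2
  have hco : (((Subgroup.inclusion hle χ)⁻¹ : F.X) : Fam) = (χ⁻¹ : F'.X) := rfl
  have hco2 : ((Subgroup.inclusion hle χ : F.X) : Fam) = χ := rfl
  rw [hco] at hL
  rw [hco2] at h1
  obtain ⟨n, hn⟩ := F'.pow _ (χ⁻¹).2
  have hn0 : p ^ n ≠ 0 := (pow_pos hp.pos n).ne'
  have htriv : ∀ q ∈ F.T, q ∉ F'.T → (χ : Fam) q = 1 := fun q _ hq => triv F' χ.2 hq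
  have htriv' : ∀ q ∈ F.T, q ∉ F'.T → ((χ⁻¹ : F'.X) : Fam) q = 1 := fun q _ hq' =>
    triv F' (χ⁻¹).2 hq'
  have h3 := lval (T_sub hle) htriv' hn0 hn
    (fun q hq => ⟨(F.adm q hq).1, (F.adm q hq).2.1⟩) hL hL'
  have h4 := tau_sub (fun q hq => (F.adm q hq).1) (T_sub hle) htriv
  apply mul_right_cancel₀ hΩ
  have hinv : ∀ l : ℕ, (val F'.T l ((χ⁻¹ : F'.X) : Fam) : ℂ) = (val F'.T l (χ : Fam) : ℂ)⁻¹ := by
    intro l
    rw [← Units.val_inv_eq_inv_val]
    congr 1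
    exact map_inv (frob F' l) χ
  have h5 : ∀ l ∈ F.T \ F'.T, chi χ (VV A F' l) =
      (l : ℂ) * (-(val F'.T l (χ : Fam) : ℂ) * ef W F'.T ((χ⁻¹ : F'.X) : Fam) 1 l) := by
    intro l hl
    have hl0 : (l : ℂ) ≠ 0 := by
      exact_mod_cast (F.adm l (Finset.mem_sdiff.1 hl).1).1.ne_zero
    have hv0 : (val F'.T l (χ : Fam) : ℂ) ≠ 0 := Units.ne_zero _
    unfold VV
    rw [map_sub, map_sub, map_mul, map_intCast, map_natCast, chi_of, chi_of, al_cast]
    have h6 : ((frob F' l χ : ℂˣ) : ℂ) = (val F'.T l (χ : Fam) : ℂ) := rfl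
    have h7 : (((frob F' l)⁻¹ χ : ℂˣ) : ℂ) = (val F'.T l (χ : Fam) : ℂ)⁻¹ := by
      rw [du_inv, Units.val_inv_eq_inv_val]
      rfl
    rw [h6, h7]
    unfold ef
    rw [hinv, Complex.cpow_neg_one]
    have h8 : (l : ℂ) ^ ((1 : ℂ) - 2 * 1) = (l : ℂ)⁻¹ := by
      rw [show (1 : ℂ) - 2 * 1 = -1 by norm_num, Complex.cpow_neg_one]
    rw [h8]
    field_simp
    ring
  rw [Finset.prod_congr rfl h5, Finset.prod_mul_distrib, Finset.prod_mul_distrib,
    ← Finset.prod_sdiff (T_sub hle)]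
  rw [mul_assoc, h1, h3, h4]
  push_cast
  linear_combination (-(∏ x ∈ F.T \ F'.T, (x : ℂ)) *
    ((∏ x ∈ F.T \ F'.T, -(val F'.T x (χ : Fam) : ℂ)) *
      ∏ x ∈ F.T \ F'.T, ef W F'.T ((χ⁻¹ : F'.X) : Fam) 1 x) *
      (∏ x ∈ F'.T, (x : ℂ))) * h2

end Pool.Agent.X252.MT
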