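import Pool.Agent.X252.MTI

/-!
Systems of group ring elements compatible under restriction: reduction to the fields with few
ramified primes, and to cyclic fields.
-/

set_option autoImplicit false

namespace Pool.Agent.X252.MT

open Finset Topology

variable {W : WeierstrassCurve ℤ} {p : ℕ}

/-! ### restricting a family to a set of indices -/

open Classical in
/-- the components in `S` -/
noncomputable def cut (S : Finset ℕ) : Fam →* Fam where
  toFun c := fun q => if q ∈ S then c q else 1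
  map_one' := by
    refine fam_ext fun q => ?_
    show (if q ∈ S then (1 : Fam) q else 1) = (1 : Fam) q
    rw [fam_one, ite_self]
  map_mul' c d := by
    refine fam_ext fun q => ?_
    show (if q ∈ S then (c * d) q else 1) = (if q ∈ S then c q else 1) * (if q ∈ S then d q else 1)
    split_ifs
    · rfl
    · rw [one_mul]

lemma cut_of {S : Finset ℕ} {q : ℕ} (h : q ∈ S) (c : Fam) : cut S c q = c q := if_pos h

lemma cut_not {S : Finset ℕ} {q : ℕ} (h : q ∉ S) (c : Fam) : cut S c q = 1 := if_neg h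

/-- evaluation at an index -/
noncomputable def evq (q : ℕ) : Fam →* Du (ZMod q)ˣ where
  toFun c := c q
  map_one' := rfl
  map_mul' _ _ := rfl

lemma prod_cut (S : Finset ℕ) (c : Fam) : ∏ q ∈ S, cut {q} c = cut S c := by
  classical
  refine fam_ext fun q => ?_
  have h1 : (∏ q ∈ S, cut {q} c) q = ∏ q' ∈ S, (cut {q'} c) q :=
    map_prod (evq q) _ _
  rw [h1]
  by_cases hq : q ∈ S
  · rw [cut_of hq, Finset.prod_eq_single q]
    · exact cut_of (Finset.mem_singleton_self q) c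
    · intro q' _ hne
      exact cut_not (fun h => hne (Finset.mem_singleton.1 h).symm) c
    · intro h
      exact absurd hq h
  · rw [cut_not hq]
    refine Finset.prod_eq_one fun q' hq' => cut_not (fun h => ?_) c
    rw [Finset.mem_singleton] at h
    exact hq (h ▸ hq')

/-! ### the box of a field -/

/-- the families with components in the set of the components of the elements of `F.X` -/
def boxX (F : Fld W p) (t : Finset ℕ) : Subgroup Fam where
  carrier := {c | (∀ q ∈ t, ∃ d ∈ F.X, c q = d q) ∧ ∀ q ∉ t, c q = 1}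
  mul_mem' := by
    rintro a b ⟨h1, h2⟩ ⟨h3, h4⟩
    refine ⟨fun q hq => ?_, fun q hq => ?_⟩
    · obtain ⟨d, hd, h5⟩ := h1 q hq
      obtain ⟨d', hd', h6⟩ := h3 q hq
      exact ⟨d * d', F.X.mul_mem hd hd', by rw [fam_mul, fam_mul, h5, h6]⟩
    · rw [fam_mul, h2 q hq, h4 q hq, one_mul]
  one_mem' := ⟨fun q _ => ⟨1, F.X.one_mem, rfl⟩, fun q _ => rfl⟩
  inv_mem' := by
    rintro a ⟨h1, h2⟩
    refine ⟨fun q hq => ?_, fun q hq => ?_⟩
    · obtain ⟨d, hd, h5⟩ := h1 q hq
      refine ⟨d⁻¹, F.X.inv_mem hd, ?_⟩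
      show (a q)⁻¹ = (d q)⁻¹
      rw [h5]
    · rw [fam_inv, h2 q hq, inv_one]

lemma cut_mem {F : Fld W p} {t s : Finset ℕ} {c : Fam} (hc : c ∈ boxX F t) (hs : s ⊆ t) :
    cut s c ∈ boxX F s := by
  refine ⟨fun q hq => ?_, fun q hq => cut_not hq c⟩
  rw [cut_of hq]
  exact hc.1 q (hs hq)

lemma boxX_mono {F : Fld W p} {t s : Finset ℕ} (hs : s ⊆ t) : boxX F s ≤ boxX F t := by
  rintro c ⟨h1, h2⟩
  refine ⟨fun q hq => ?_, fun q hq => h2 q fun h => hq (hs h)⟩
  by_cases h : q ∈ s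
  · exact h1 q h
  · exact ⟨1, F.X.one_mem, h2 q h⟩

lemma boxX_fin (F : Fld W p) (t : Finset ℕ) : Finite (boxX F t) := by
  classical
  have hF := F.fin
  let g : (t → F.X) → Fam := fun f q => if h : q ∈ t then (f ⟨q, h⟩ : Fam) q else 1
  have h1 : (Set.range g).Finite := Set.finite_range g
  refine (h1.subset ?_).to_subtype
  rintro c ⟨h2, h3⟩
  choose! d hd hcd using h2
  refine ⟨fun q => ⟨d q, hd q q.2⟩, ?_⟩
  refine fam_ext fun q => ?_
  by_cases hq : q ∈ t
  · show (if h : q ∈ t then d q q else 1) = c q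
    rw [dif_pos hq, hcd q hq]
  · show (if h : q ∈ t then d q q else 1) = c q
    rw [dif_neg hq, h3 q hq]

/-- the field of the box -/
noncomputable def box (F : Fld W p) (t : Finset ℕ) (ht : t ⊆ F.T) : Fld W p where
  X := boxX F t
  T := t
  fin := boxX_fin F t
  ram := by
    classical
    intro q
    constructor
    · intro hq
      obtain ⟨d, hd, h1⟩ := (F.ram q).1 (ht hq)
      refine ⟨cut {q} d, ⟨fun q' _ => ?_, fun q' hq' => ?_⟩, ?_⟩
      · by_cases h2 : q' ∈ ({q} : Finset ℕ)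
        · exact ⟨d, hd, cut_of h2 d⟩
        · exact ⟨1, F.X.one_mem, cut_not h2 d⟩
      · refine cut_not (fun h2 => hq' ?_) d
        rw [Finset.mem_singleton] at h2
        rwa [h2]
      · rw [cut_of (Finset.mem_singleton_self q)]
        exact h1
    · rintro ⟨c, ⟨-, h2⟩, h3⟩
      by_contra h4
      exact h3 (h2 q h4)
  adm := fun q hq => F.adm q (ht hq)
  pow := by
    rintro c ⟨h1, h2⟩
    choose! d hd hcd using h1
    have h3 : ∀ q ∈ t, ∃ n, d q ^ p ^ n = 1 := fun q hq => F.pow _ (hd q hq)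
    choose! n hn using h3
    refine ⟨∑ q ∈ t, n q, ?_⟩
    refine fam_ext fun q => ?_
    rw [fam_pow, fam_one]
    by_cases hq : q ∈ t
    · obtain ⟨e, he⟩ := pow_dvd_pow p (Finset.single_le_sum (fun i _ => Nat.zero_le (n i)) hq)
      rw [he, pow_mul, hcd q hq, ← fam_pow, hn q hq, fam_one, one_pow]
    · rw [h2 q hq, one_pow]

lemma le_box (F : Fld W p) : F.X ≤ (box F F.T (Finset.Subset.refl _)).X := fun c hc =>
  ⟨fun _ _ => ⟨c, hc, rfl⟩, fun _ hq => triv F hc hq⟩

lemma box_le (F : Fld W p) {t : Finset ℕ} (ht : t ⊆ F.T) :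
    (box F t ht).X ≤ (box F F.T (Finset.Subset.refl _)).X := boxX_mono ht

lemma box_exp {F : Fld W p} {t : Finset ℕ} (ht : t ⊆ F.T) (h : ∀ c ∈ F.X, c ^ p = 1) :
    ∀ c ∈ (box F t ht).X, c ^ p = 1 := by
  rintro c ⟨h1, h2⟩
  refine fam_ext fun q => ?_
  rw [fam_pow, fam_one]
  by_cases hq : q ∈ t
  · obtain ⟨d, hd, h3⟩ := h1 q hq
    rw [h3, ← fam_pow, h d hd, fam_one]
  · rw [h2 q hq, one_pow]

/-! ### cyclic subfields -/

open Classical in
/-- the field of a character -/
noncomputable def cyc (F : Fld W p) (χ : Fam) (hχ : χ ∈ F.X) : Fld W p where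
  X := Subgroup.zpowers χ
  T := F.T.filter fun q => χ q ≠ 1
  fin := by
    have hF := F.fin
    exact Finite.of_injective (Subgroup.inclusion (show Subgroup.zpowers χ ≤ F.X from by
      rw [Subgroup.zpowers_le]; exact hχ)) (Subgroup.inclusion_injective _)
  ram := by
    intro q
    rw [Finset.mem_filter]
    constructor
    · rintro ⟨-, h⟩
      exact ⟨χ, Subgroup.mem_zpowers χ, h⟩
    · rintro ⟨c, ⟨n, rfl⟩, h⟩
      refine ⟨(F.ram q).2 ⟨_, F.X.zpow_mem hχ n, h⟩, fun h1 => h ?_⟩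
      have h2 : (χ ^ n) q = (χ q) ^ n := map_zpow (evq q) χ n
      show (χ ^ n) q = 1
      rw [h2, h1, one_zpow]
  adm := fun q hq => F.adm q (Finset.mem_filter.1 hq).1
  pow := fun c hc => F.pow c ((show Subgroup.zpowers χ ≤ F.X from by
      rw [Subgroup.zpowers_le]; exact hχ) hc)

lemma cyc_le (F : Fld W p) {χ : Fam} (hχ : χ ∈ F.X) : (cyc F χ hχ).X ≤ F.X := by
  show Subgroup.zpowers χ ≤ F.X
  rw [Subgroup.zpowers_le]
  exact hχ

/-! ### systems -/

/-- the elements `z F` are compatible under restriction, modulo the `k`-th powers of the augmentation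
ideals and up to factors with invertible augmentation -/
def Sys {A : Type} [CommRing A] (k : ℕ) (z : (F : Fld W p) → MonoidAlgebra A (Du F.X)) : Prop :=
  ∀ (F F' : Fld W p) (hle : F'.X ≤ F.X), ∃ (u : MonoidAlgebra A (Du F'.X)) (a : A), IsUnit a ∧
    u - algebraMap A _ a ∈ Aug A (Du F'.X) ∧ mp A (rr hle) (z F) - u * z F' ∈ Aug A (Du F'.X) ^ k

section sys

variable {A : Type} [CommRing A] {k : ℕ} {z : (F : Fld W p) → MonoidAlgebra A (Du F.X)}

lemma Sys.res (hz : Sys k z) {F F' : Fld W p} (hle : F'.X ≤ F.X)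
    (h : z F' ∈ Aug A (Du F'.X) ^ k) : mp A (rr hle) (z F) ∈ Aug A (Du F'.X) ^ k := by
  obtain ⟨u, a, -, -, h1⟩ := hz F F' hle
  have h2 := Ideal.add_mem _ h1 (Ideal.mul_mem_left _ u h)
  rwa [sub_add_cancel] at h2

lemma Sys.of_res (hz : Sys k z) {F F' : Fld W p} (hle : F'.X ≤ F.X)
    (h : mp A (rr hle) (z F) ∈ Aug A (Du F'.X) ^ k) : z F' ∈ Aug A (Du F'.X) ^ k := by
  obtain ⟨u, a, ha, hu, h1⟩ := hz F F' hle
  have h2 := Ideal.sub_mem _ h h1
  rw [sub_sub_cancel] at h2
  exact mem_of_mul_mem ha hu h2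

lemma Sys.down (hz : Sys k z) {F F' : Fld W p} (hle : F'.X ≤ F.X)
    (h : z F ∈ Aug A (Du F.X) ^ k) : z F' ∈ Aug A (Du F'.X) ^ k :=
  hz.of_res hle (mp_mem _ h)

/-- the restriction to the components in `t` -/
noncomputable def prt (F : Fld W p) (t : Finset ℕ) (ht : t ⊆ F.T) :
    (box F F.T (Finset.Subset.refl _)).X →* (box F t ht).X where
  toFun c := ⟨cut t c, cut_mem c.2 ht⟩
  map_one' := Subtype.ext (map_one (cut t))
  map_mul' c d := Subtype.ext (map_mul (cut t) (c : Fam) (d : Fam))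

/-- the restriction to one component -/
noncomputable def cq (F : Fld W p) (q : ℕ) :
    (box F F.T (Finset.Subset.refl _)).X →* (box F F.T (Finset.Subset.refl _)).X where
  toFun c := ⟨cut {q} c, by
    refine ⟨fun q' hq' => ?_, fun q' hq' => ?_⟩
    · by_cases h : q' ∈ ({q} : Finset ℕ)
      · obtain ⟨d, hd, h1⟩ := c.2.1 q' hq'
        exact ⟨d, hd, by rw [cut_of h, h1]⟩
      · exact ⟨1, F.X.one_mem, cut_not h _⟩
    · by_cases h : q' ∈ ({q} : Finset ℕ)
      · rw [cut_of h]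
        exact c.2.2 q' hq'
      · exact cut_not h _⟩
  map_one' := Subtype.ext (map_one (cut {q}))
  map_mul' c d := Subtype.ext (map_mul (cut {q}) (c : Fam) (d : Fam))

lemma prod_cq (F : Fld W p) (t : Finset ℕ) (c : (box F F.T (Finset.Subset.refl _)).X) :
    ((∏ q ∈ t, cq F q c : (box F F.T (Finset.Subset.refl _)).X) : Fam) = cut t c := by
  rw [← prod_cut]
  exact map_prod (Subgroup.subtype _) _ _

lemma du_prod {X : Type} [CommGroup X] (e : ℕ → (Du X →* Du X)) (t : Finset ℕ) (σ : Du X) (χ : X) :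
    ((∏ q ∈ t, e q) σ) χ = ∏ q ∈ t, (e q σ) χ := by
  rw [MonoidHom.finsetProd_apply]
  exact map_prod (dev χ) _ _

/-- **fields with fewer than `k` ramified primes suffice** -/
theorem Sys.primes (hz : Sys k z) (F : Fld W p)
    (h : ∀ (t : Finset ℕ) (ht : t ⊆ F.T), t.card < k → z (box F t ht) ∈ Aug A _ ^ k) :
    z F ∈ Aug A (Du F.X) ^ k := by
  classical
  refine hz.down (le_box F) ?_
  refine subsets (fun q => rs (cq F q)) F.T (fun σ => ?_) k _ fun t ht hc => ?_
  · ext χ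
    have h1 : (∏ q ∈ F.T, rs (cq F q) σ) χ = ∏ q ∈ F.T, (rs (cq F q) σ) χ :=
      map_prod (dev χ) _ _
    rw [h1]
    have h2 : ∏ q ∈ F.T, (rs (cq F q) σ) χ = σ (∏ q ∈ F.T, cq F q χ) :=
      (map_prod σ _ _).symm
    rw [h2]
    congr 2
    apply Subtype.ext
    rw [prod_cq]
    refine fam_ext fun q => ?_
    by_cases hq : q ∈ F.T
    · exact cut_of hq _
    · rw [cut_not hq]
      exact (χ.2.2 q hq).symm
  · have h1 : ET A (fun q => rs (cq F q)) t (z (box F F.T (Finset.Subset.refl _))) =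
        mp A (rs (prt F t ht)) (mp A (rr (box_le F ht))
          (z (box F F.T (Finset.Subset.refl _)))) := by
      unfold ET
      rw [mp_mp]
      refine congrArg (fun φ => mp A φ (z (box F F.T (Finset.Subset.refl _)))) ?_
      refine MonoidHom.ext fun σ => ?_
      ext χ
      rw [du_prod]
      have h2 : ∏ q ∈ t, (rs (cq F q) σ) χ = σ (∏ q ∈ t, cq F q χ) :=
        (map_prod σ _ _).symm
      rw [h2]
      have h3 : (∏ q ∈ t, cq F q χ) = Subgroup.inclusion (box_le F ht) (prt F t ht χ) := by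
        apply Subtype.ext
        rw [prod_cq]
        rfl
      rw [h3]
      rfl
    rw [h1]
    exact mp_mem _ (hz.res (F' := box F t ht) (box_le F ht) (h t ht hc))

/-- **cyclic fields suffice** -/
theorem Sys.cyclic [IsDomain A] (hz : Sys k z) (hp : p.Prime) (hA : Good A p) (F : Fld W p)
    (hk : k ≤ p ∨ ∀ c ∈ F.X, c ^ p = 1)
    (h : ∀ χ (hχ : χ ∈ F.X), z (cyc F χ hχ) ∈ Aug A _ ^ k) : z F ∈ Aug A (Du F.X) ^ k := by
  have hfin := F.fin
  refine detectD hp hA (fun x => ?_) ?_ (z F) fun χ => ?_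
  · obtain ⟨n, hn⟩ := F.pow x x.2
    exact ⟨n, Subtype.ext hn⟩
  · rcases hk with hk | hk
    · exact Or.inl hk
    · exact Or.inr fun x => Subtype.ext (hk x x.2)
  · refine ⟨(cyc F χ χ.2).X, inferInstance, Subgroup.inclusion (cyc_le F χ.2),
      Subgroup.inclusion_injective _, ⟨⟨χ, Subgroup.mem_zpowers _⟩, rfl⟩, ?_⟩
    exact hz.res (cyc_le F χ.2) (h χ χ.2)

/-- the reduction statements for a property of fields -/
structure Reduces (P : Fld W p → Prop) (k : ℕ) : Prop where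
  down : ∀ F F' : Fld W p, F'.X ≤ F.X → P F → P F'
  primes : (∀ F : Fld W p, F.T.card < k → P F) → ∀ F : Fld W p, P F
  cyclic : k ≤ p → (∀ F : Fld W p, IsCyclic F.X → F.T.card < k → P F) → ∀ F : Fld W p, P F
  prime : (∀ F : Fld W p, IsCyclic F.X → (∀ c ∈ F.X, c ^ p = 1) → F.T.card < k → P F) →
    ∀ F : Fld W p, (∀ c ∈ F.X, c ^ p = 1) → P F

lemma cyc_cyclic (F : Fld W p) {χ : Fam} (hχ : χ ∈ F.X) : IsCyclic (cyc F χ hχ).X :=
  ⟨⟨χ, Subgroup.mem_zpowers χ⟩, fun x => by
    obtain ⟨n, hn⟩ := Subgroup.mem_zpowers_iff.1 x.2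
    exact ⟨n, Subtype.ext hn⟩⟩

lemma cyc_card (F : Fld W p) {χ : Fam} (hχ : χ ∈ F.X) : (cyc F χ hχ).T.card ≤ F.T.card := by
  classical
  exact Finset.card_filter_le _ _

theorem Sys.reduces [IsDomain A] (hz : Sys k z) (hp : p.Prime) (hA : Good A p) :
    Reduces (fun F : Fld W p => z F ∈ Aug A (Du F.X) ^ k) k where
  down := fun _ _ hle h => hz.down hle h
  primes := fun h F => hz.primes F fun _ _ hc => h _ hc
  cyclic := fun hk h F => hz.primes F fun _ _ hc =>
    hz.cyclic hp hA _ (Or.inl hk) fun _ hχ => h _ (cyc_cyclic _ hχ)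
      (lt_of_le_of_lt (cyc_card _ hχ) hc)
  prime := fun h F hF => hz.primes F fun _ ht hc =>
    hz.cyclic hp hA _ (Or.inr (box_exp ht hF)) fun _ hχ => h _ (cyc_cyclic _ hχ)
      (fun c hc => box_exp ht hF c (cyc_le _ hχ hc)) (lt_of_le_of_lt (cyc_card _ hχ) hc)

end sys

end Pool.Agent.X252.MT
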