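import Pool.Agent.X252.MTJ

/-!
The Mazur-Tate elements and the defects of the leading term formula form compatible systems.
-/

set_option autoImplicit false

namespace Pool.Agent.X252.MT

open Finset Topology

variable {W : WeierstrassCurve ℤ} {p : ℕ}

/-- the determinant of the matrix with the entries `h i j - 1` -/
noncomputable def rdet (A : Type) {G : Type} [CommRing A] [CommGroup G] {r : ℕ}
    (h : Fin r → Fin r → G) : MonoidAlgebra A G :=
  Matrix.det (Matrix.of fun i j => MonoidAlgebra.of A G (h i j) - 1)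

/-- membership in the `k`-th power of the augmentation ideal -/
def InPow {A G : Type} [CommRing A] [CommGroup G] (k : ℕ) (z : MonoidAlgebra A G) : Prop :=
  z ∈ Aug A G ^ k

/-- the difference of `m z` and `c` times the determinant of the matrix with the entries
`h i j - 1` -/
noncomputable def frm {A G : Type} [CommRing A] [CommGroup G] {r : ℕ} (m : ℕ) (c : A)
    (h : Fin r → Fin r → G) (z : MonoidAlgebra A G) : MonoidAlgebra A G :=
  (m : MonoidAlgebra A G) * z - algebraMap A (MonoidAlgebra A G) c * rdet A h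

section
variable (hp : p.Prime)

/-- the sign times `c` times the product of the numbers of points -/
noncomputable def lc (F : Fld W p) (c : Zp p hp) : Zp p hp :=
  (-1) ^ F.T.card * c * ∏ q ∈ F.T, (cnt W q : Zp p hp)

/-- the leading term formula, multiplied by the conductor -/
def LT (F : Fld W p) {r : ℕ} (h : Fin r → Fin r → Du F.X) (c : Zp p hp)
    (θ : MonoidAlgebra (Zp p hp) (Du F.X)) : Prop :=
  InPow (r + 1) (frm (∏ q ∈ F.T, q) (lc hp F c) h θ)

/-- the elements are compatible under restriction -/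
def Compat (W : WeierstrassCurve ℤ) (p : ℕ) {r : ℕ} (h : (F : Fld W p) → Fin r → Fin r → Du F.X) :
    Prop :=
  ∀ (F F' : Fld W p) (hle : F'.X ≤ F.X) (i j : Fin r) (χ : F'.X), h F' i j χ = h F i j ⟨χ, hle χ.2⟩

lemma VV_mem (F : Fld W p) (l : ℕ) : VV (Zp p hp) F l -
    algebraMap (Zp p hp) _ (((-(cnt W l : ℤ) : ℤ)) : Zp p hp) ∈ Aug (Zp p hp) (Du F.X) := by
  rw [mem_aug_iff]
  unfold VV
  rw [map_sub, map_sub, map_sub, map_mul, map_intCast, map_natCast, eps_of, eps_of, AlgHom.commutes]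
  have h1 : algebraMap (Zp p hp) (Zp p hp) ((-(cnt W l : ℤ) : ℤ) : Zp p hp) =
    ((-(cnt W l : ℤ) : ℤ) : Zp p hp) := rfl
  rw [h1]
  unfold al
  push_cast
  ring

lemma prod_unit {F F' : Fld W p} :
    IsUnit (∏ l ∈ F.T \ F'.T, (((-(cnt W l : ℤ) : ℤ)) : Zp p hp)) := by
  rw [IsUnit.prod_iff]
  intro l hl
  refine zp_unit hp fun h => ?_
  rw [dvd_neg] at h
  exact (F.adm l (Finset.mem_sdiff.1 hl).1).2.2 (by exact_mod_cast h)

/-- the elements form a compatible system -/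
theorem sys_theta {Ω : ℂ} (hΩ : Ω ≠ 0) {θ : (F : Fld W p) → MonoidAlgebra (Zp p hp) (Du F.X)}
    (hθ : ∀ F, IsTheta F Ω (θ F)) (k : ℕ) : Sys k fun F => mt F (θ F) := by
  intro F F' hle
  refine ⟨∏ l ∈ F.T \ F'.T, VV (Zp p hp) F' l, ∏ l ∈ F.T \ F'.T, (((-(cnt W l : ℤ) : ℤ)) : Zp p hp),
    prod_unit hp, prod_sub_mem _ _ _ fun l _ => VV_mem hp F' l, ?_⟩
  rw [res_mt hp hle hΩ (hθ F) (hθ F'), sub_self]
  exact Ideal.zero_mem _

lemma det_mem {A G : Type} [CommRing A] [CommGroup G] {r : ℕ} (h : Fin r → Fin r → G) :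
    rdet A h ∈ Aug A G ^ r := by
  unfold rdet
  rw [Matrix.det_apply]
  refine Ideal.sum_mem _ fun σ _ => ?_
  have h1 : ∏ i, (Matrix.of fun i j => MonoidAlgebra.of A G (h i j) - 1) (σ i) i ∈
      ∏ _i : Fin r, Aug A G := Ideal.prod_mem_prod fun i _ => sub_mem_aug _
  rw [Finset.prod_const, Finset.card_univ, Fintype.card_fin] at h1
  exact Submodule.smul_of_tower_mem _ _ h1

lemma mp_det {A G H : Type} [CommRing A] [CommGroup G] [CommGroup H] (φ : G →* H) {r : ℕ}
    (h : Fin r → Fin r → G) :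
    mp A φ (rdet A h) = rdet A fun i j => φ (h i j) := by
  unfold rdet
  have h1 := AlgHom.map_det (mp A φ) (Matrix.of fun i j => MonoidAlgebra.of A G (h i j) - 1)
  rw [h1]
  congr 1
  ext i j
  simp only [AlgHom.mapMatrix_apply, Matrix.map_apply, Matrix.of_apply, map_sub, map_one, mp_of]

/-- the defects form a compatible system -/
theorem sys_dfct {Ω : ℂ} (hΩ : Ω ≠ 0) {θ : (F : Fld W p) → MonoidAlgebra (Zp p hp) (Du F.X)}
    (hθ : ∀ F, IsTheta F Ω (θ F)) {r : ℕ} (h : (F : Fld W p) → Fin r → Fin r → Du F.X)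
    (hh : Compat W p h) (c : Zp p hp) :
    Sys (r + 1) fun F => frm (∏ q ∈ F.T, q) (lc hp F c) (h F) (θ F) := by
  intro F F' hle
  set D := F.T \ F'.T with hD
  set u := ∏ l ∈ D, VV (Zp p hp) F' l with hu
  set a := ∏ l ∈ D, (((-(cnt W l : ℤ) : ℤ)) : Zp p hp) with ha
  have hua : u - algebraMap _ _ a ∈ Aug (Zp p hp) (Du F'.X) :=
    prod_sub_mem _ _ _ fun l _ => VV_mem hp F' l
  refine ⟨u, a, prod_unit hp, hua, ?_⟩
  have h1 : mp (Zp p hp) (rr hle) (mt F (θ F)) = u * mt F' (θ F') :=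
    res_mt hp hle hΩ (hθ F) (hθ F')
  have h2 : ∀ i j, rr hle (h F i j) = h F' i j := by
    intro i j
    ext χ
    rw [hh F F' hle i j χ]
    rfl
  show mp (Zp p hp) (rr hle) (mt F (θ F) - algebraMap _ _ (lc hp F c) * rdet (Zp p hp) (h F)) -
    u * (mt F' (θ F') - algebraMap _ _ (lc hp F' c) * rdet (Zp p hp) (h F')) ∈ _
  rw [map_sub, map_mul (mp (Zp p hp) (rr hle)) (algebraMap _ _ _), h1, mp_det, AlgHom.commutes]
  simp only [h2]
  set R := rdet (Zp p hp) (fun i j => h F' i j) with hR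
  have hRm : R ∈ Aug (Zp p hp) (Du F'.X) ^ r := det_mem _
  have h3 : lc hp F c = a * lc hp F' c := by
    unfold lc
    rw [← Finset.prod_sdiff (T_sub hle)]
    have h4 : a = (-1) ^ D.card * ∏ l ∈ D, (cnt W l : Zp p hp) := by
      rw [ha, ← Finset.prod_const, ← Finset.prod_mul_distrib]
      refine Finset.prod_congr rfl fun l _ => ?_
      push_cast
      ring
    have h5 : F.T.card = D.card + F'.T.card := (Finset.card_sdiff_add_card_eq_card (T_sub hle)).symm
    rw [h4, h5, pow_add]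
    ring
  rw [h3, map_mul]
  have h6 : (u - algebraMap _ _ a) * (algebraMap (Zp p hp) _ (lc hp F' c) * R) ∈
      Aug (Zp p hp) (Du F'.X) ^ (r + 1) := by
    rw [pow_succ']
    exact Ideal.mul_mem_mul hua (Ideal.mul_mem_left _ _ hRm)
  convert h6 using 1
  ring

/-! ### the conductor is prime to `p` -/

include hp in
lemma ne_p (F : Fld W p) {q : ℕ} (hq : q ∈ F.T) : q ≠ p := by
  rintro rfl
  obtain ⟨c, hc, h⟩ := (F.ram q).1 hq
  obtain ⟨n, hn⟩ := F.pow c hc
  have hF : Fact q.Prime := ⟨hp⟩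
  apply h
  ext u
  have h1 : (c q u) ^ q ^ n = 1 := by
    have h2 : (c q) ^ q ^ n = 1 := by
      rw [← fam_pow, hn, fam_one]
    have h3 := DFunLike.congr_fun h2 u
    exact h3
  have h4 : (c q u) ^ (q - 1) = 1 := by
    have h5 : u ^ (q - 1) = 1 := by
      rw [← Nat.totient_prime hp]
      exact ZMod.pow_totient u
    rw [← map_pow, h5, map_one]
  have h6 := pow_gcd_eq_one.2 ⟨h1, h4⟩
  have h7 : (q ^ n).gcd (q - 1) = 1 := by
    apply Nat.Coprime.pow_left
    have h8 : q - 1 + 1 = q := Nat.sub_add_cancel hp.one_lt.le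
    have h9 : Nat.Coprime (q - 1 + 1) (q - 1) := by simp
    rwa [h8] at h9
  rw [h7, pow_one] at h6
  rw [h6]
  rfl

lemma mt_mem_iff (F : Fld W p) (θ : MonoidAlgebra (Zp p hp) (Du F.X)) (k : ℕ) :
    mt F θ ∈ Aug (Zp p hp) (Du F.X) ^ k ↔ θ ∈ Aug (Zp p hp) (Du F.X) ^ k := by
  refine ⟨fun h => ?_, fun h => Ideal.mul_mem_left _ _ h⟩
  have h1 : IsUnit (((∏ q ∈ F.T, q : ℕ) : ℤ) : Zp p hp) := by
    refine zp_unit hp fun h2 => ?_
    have h3 : p ∣ ∏ q ∈ F.T, q := by exact_mod_cast h2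
    obtain ⟨q, hq, h4⟩ := (Prime.dvd_finsetProd_iff hp.prime _).1 h3
    have h5 := (Nat.prime_dvd_prime_iff_eq hp (F.adm q hq).1).1 h4
    exact ne_p hp F hq h5.symm
  refine mem_of_mul_mem (u := ((∏ q ∈ F.T, q : ℕ) : MonoidAlgebra (Zp p hp) (Du F.X))) h1 ?_ h
  rw [map_intCast, Int.cast_natCast, sub_self]
  exact Ideal.zero_mem _

/-- **the reduction theorem** -/
theorem reduction {Ω : ℂ} (hΩ : Ω ≠ 0) {θ : (F : Fld W p) → MonoidAlgebra (Zp p hp) (Du F.X)}
    (hθ : ∀ F, IsTheta F Ω (θ F)) :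
    (∀ k, Reduces (fun F : Fld W p => InPow k (θ F)) k) ∧
    ∀ (r : ℕ) (h : (F : Fld W p) → Fin r → Fin r → Du F.X), Compat W p h →
      ∀ c : Zp p hp, Reduces (fun F : Fld W p => LT hp F (h F) c (θ F)) (r + 1) := by
  refine ⟨fun k => ?_, fun r h hh c => (sys_dfct hp hΩ hθ h hh c).reduces hp (zp_good hp)⟩
  have h1 := (sys_theta hp hΩ hθ k).reduces hp (zp_good hp)
  have h2 : (fun F : Fld W p => mt F (θ F) ∈ Aug (Zp p hp) (Du F.X) ^ k) =
      fun F : Fld W p => InPow k (θ F) :=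
    funext fun F => propext (mt_mem_iff hp F (θ F) k)
  rwa [h2] at h1

end

end Pool.Agent.X252.MT
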