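import Pool.Agent.X252.RM

/-!
The Reed-Muller bound for functions with values in a group of exponent `l`.
-/

set_option autoImplicit false

namespace Pool.Agent.X252.RB

section red

variable {Γ : Type} [CommGroup Γ]

lemma DG_hom {M M' : Type} [AddCommGroup M] [AddCommGroup M'] (φ : M →+ M') (L : List Γ)
    (A : Γ → M) (x : Γ) : RM.DG L (fun y => φ (A y)) x = φ (RM.DG L A x) := by
  induction L generalizing x with
  | nil => rfl
  | cons g L ih =>
    show RM.DG L _ x - RM.DG L _ (g * x) = φ (RM.DG L A x - RM.DG L A (g * x))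
    rw [ih, ih, map_sub]

lemma exists_dual0 {l : ℕ} [Fact l.Prime] {T : Type} [AddCommGroup T] [Module (ZMod l) T]
    {t : T} (ht : t ≠ 0) : ∃ φ : T →+ ZMod l, φ t ≠ 0 := by
  by_contra hcon
  push Not at hcon
  have h1 : ∀ φ : T →ₗ[ZMod l] ZMod l, φ t = 0 := fun φ => hcon φ.toAddMonoidHom
  exact ht ((Module.forall_dual_apply_eq_zero_iff (ZMod l) t).1 h1)

set_option linter.style.haveILetI false in
lemma exists_dual {l : ℕ} (hl : l.Prime) {T : Type} [AddCommGroup T] (hT : ∀ x : T, l • x = 0)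
    {t : T} (ht : t ≠ 0) : ∃ φ : T →+ ZMod l, φ t ≠ 0 := by
  have : Fact l.Prime := ⟨hl⟩
  letI : Module (ZMod l) T := AddCommGroup.zmodModule hT
  exact exists_dual0 ht

/-- the Reed-Muller bound for functions with values in a group of exponent `l` -/
theorem bound' [Finite Γ] {l n : ℕ} (hl : l.Prime) (hn : ∀ x : Γ, x ^ l ^ n = 1) {M : Type}
    [AddCommGroup M] (A : Γ → M) (hA : ∀ x, l • A x = 0) (d : ℕ) (hd : RM.Deg d A)
    (hne : ∃ x, A x ≠ 0) (a b : ℕ) (hab : d ≤ a * (l - 1) + b) (hb : b ≤ l - 1) :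
    (l - b) * Nat.card Γ ≤ l ^ (a + 1) * {x | A x ≠ 0}.ncard := by
  classical
  have : Fact l.Prime := ⟨hl⟩
  have : Fintype Γ := Fintype.ofFinite Γ
  let T : AddSubgroup M := (nsmulAddMonoidHom (α := M) l).ker
  have hT : ∀ x : T, l • x = 0 := fun x => Subtype.ext (by
    have := x.2
    rw [AddMonoidHom.mem_ker] at this
    exact this)
  let A' : Γ → T := fun x => ⟨A x, by rw [AddMonoidHom.mem_ker]; exact hA x⟩
  obtain ⟨x1, hx1⟩ := hne
  have h1 : A' x1 ≠ 0 := fun h => hx1 (congrArg Subtype.val h)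
  obtain ⟨φ, hφ⟩ := exists_dual hl hT h1
  have hdeg : RM.Deg d (fun x => φ (A' x)) := by
    intro L hL x
    have h2 := DG_hom φ L A' x
    have h3 : RM.DG L A' x = 0 := by
      apply Subtype.ext
      have h4 := DG_hom T.subtype L A' x
      have h5 : RM.DG L (fun y => T.subtype (A' y)) x = 0 := hd L hL x
      rw [h5] at h4
      exact h4.symm
    rw [h3, map_zero] at h2
    exact h2
  have h2 := RM.bound hn d (fun x => φ (A' x)) ⟨x1, hφ⟩ hdeg a b hab hb
  rw [Nat.card_eq_fintype_card]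
  refine h2.trans (Nat.mul_le_mul_left _ ?_)
  rw [Set.ncard_eq_toFinset_card']
  refine Finset.card_le_card fun x hx => ?_
  rw [Finset.mem_filter] at hx
  rw [Set.mem_toFinset]
  intro h
  apply hx.2
  have h3 : A' x = 0 := Subtype.ext h
  show φ (A' x) = 0
  rw [h3, map_zero]

end red

end Pool.Agent.X252.RB
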