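import Pool.Agent.X252.MTK
import Pool.Agent.X252.RB

/-!
The number of the characters for which an element of `A[Hom(X, ℂˣ)]` lies in a power of the
augmentation ideal.
-/

set_option autoImplicit false

namespace Pool.Agent.X252.MT

open Finset

/-! ### logarithms -/

/-- the identification of the roots of unity with a cyclic group -/
noncomputable def lg (N : ℕ) [NeZero N] : rootsOfUnity N ℂ ≃* Multiplicative (ZMod N) :=
  (MulEquiv.ofBijective ((emb N).codRestrict (rootsOfUnity N ℂ) (fun x => by
    rw [mem_rootsOfUnity, ← map_pow]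
    have h1 : x ^ N = 1 := by
      rw [← toAdd_eq_zero, toAdd_pow]
      simp
    rw [h1, map_one])) (by
      rw [Nat.bijective_iff_injective_and_card]
      constructor
      · intro x y h
        apply emb_inj N
        have := congrArg (Subtype.val) h
        exact this
      · rw [Complex.card_rootsOfUnity]
        exact Nat.card_zmod N)).symm

lemma emb_lg (N : ℕ) [NeZero N] (x : rootsOfUnity N ℂ) : emb N (lg N x) = x := by
  have h := (lg N).symm_apply_apply x
  exact congrArg (Subtype.val) h

lemma lg_eq (N : ℕ) [NeZero N] (x : rootsOfUnity N ℂ) (c : Multiplicative (ZMod N))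
    (h : emb N c = x) : lg N x = c := by
  apply emb_inj N
  rw [emb_lg, h]

section ps

variable {X : Type} [CommGroup X] {N : ℕ} [NeZero N]

omit [NeZero N] in
lemma ps_mem {x : X} (hx : x ^ N = 1) (σ : Du X) : σ x ∈ rootsOfUnity N ℂ := by
  rw [mem_rootsOfUnity, ← map_pow, hx, map_one]

/-- the homomorphism to the cyclic group of order `N` given by an element of `X` -/
noncomputable def ps (x : X) (hx : x ^ N = 1) : Du X →* Multiplicative (ZMod N) where
  toFun σ := lg N ⟨σ x, ps_mem hx σ⟩
  map_one' := by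
    apply lg_eq
    rw [map_one]
    rfl
  map_mul' σ τ := by
    rw [← map_mul]
    rfl

lemma emb_ps (x : X) (hx : x ^ N = 1) (σ : Du X) : emb N (ps x hx σ) = σ x := emb_lg N _

lemma ps_mul (x y : X) (hx : x ^ N = 1) (hy : y ^ N = 1) (hxy : (x * y) ^ N = 1) (σ : Du X) :
    ps (x * y) hxy σ = ps x hx σ * ps y hy σ := by
  apply emb_inj N
  rw [map_mul, emb_ps, emb_ps, emb_ps, map_mul]

lemma ps_rs {C : Type} [CommGroup C] (i : C →* X) (c : C) (hc : c ^ N = 1)
    (hx : (i c) ^ N = 1) : ps (i c) hx = (ps c hc).comp (rs i) := by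
  refine MonoidHom.ext fun σ => ?_
  apply emb_inj N
  rw [emb_ps, MonoidHom.comp_apply, emb_ps]
  rfl

end ps

/-! ### iterated differences -/

lemma DG_add {Γ M : Type} [CommGroup Γ] [AddCommGroup M] (L : List Γ) (B B' : Γ → M) (x : Γ) :
    RM.DG L (fun y => B y + B' y) x = RM.DG L B x + RM.DG L B' x := by
  induction L generalizing x with
  | nil => rfl
  | cons g L ih =>
    show RM.DG L _ x - RM.DG L _ (g * x) =
      (RM.DG L B x - RM.DG L B (g * x)) + (RM.DG L B' x - RM.DG L B' (g * x))
    rw [ih, ih]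
    abel

section deg

variable {A : Type} [CommRing A] {X : Type} [CommGroup X] {N : ℕ} [NeZero N]

lemma DG_of (hX : ∀ x : X, x ^ N = 1) (σ : Du X) (L : List X) (x : X) :
    RM.DG L (fun y => MonoidAlgebra.of A (Multiplicative (ZMod N)) (ps y (hX y) σ)) x =
      MonoidAlgebra.of A (Multiplicative (ZMod N)) (ps x (hX x) σ) *
        (L.map fun g => 1 - MonoidAlgebra.of A (Multiplicative (ZMod N)) (ps g (hX g) σ)).prod := by
  induction L generalizing x with
  | nil =>
    rw [List.map_nil, List.prod_nil, mul_one]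
    rfl
  | cons g L ih =>
    show RM.DG L _ x - RM.DG L _ (g * x) = _
    rw [ih, ih, ps_mul g x (hX g) (hX x) (hX _), map_mul, List.map_cons, List.prod_cons]
    ring

lemma DG_mem (hX : ∀ x : X, x ^ N = 1) (z : MonoidAlgebra A (Du X)) (L : List X) (x : X) :
    RM.DG L (fun y => mp A (ps y (hX y)) z) x ∈
      Aug A (Multiplicative (ZMod N)) ^ L.length := by
  induction z using MonoidAlgebra.induction_on with
  | of σ =>
    have h1 : (fun y => mp A (ps y (hX y)) (MonoidAlgebra.of A (Du X) σ)) =
        fun y => MonoidAlgebra.of A (Multiplicative (ZMod N)) (ps y (hX y) σ) :=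
      funext fun y => mp_of _ _
    rw [h1, DG_of]
    refine Ideal.mul_mem_left _ _ ?_
    clear h1
    induction L with
    | nil => simp
    | cons g L ih =>
      rw [List.map_cons, List.prod_cons, List.length_cons, pow_succ']
      refine Ideal.mul_mem_mul ?_ ih
      rw [← neg_sub]
      exact (Ideal.neg_mem_iff _).2 (sub_mem_aug _)
  | add z w hz hw =>
    have h1 : (fun y => mp A (ps y (hX y)) (z + w)) =
        fun y => mp A (ps y (hX y)) z + mp A (ps y (hX y)) w :=
      funext fun y => map_add _ _ _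
    rw [h1, DG_add]
    exact Ideal.add_mem _ hz hw
  | smul r z hz =>
    have h1 : (fun y => mp A (ps y (hX y)) (r • z)) =
        fun y => (AddMonoidHom.mulLeft (algebraMap A (MonoidAlgebra A
          (Multiplicative (ZMod N))) r)) (mp A (ps y (hX y)) z) :=
      funext fun y => by
        rw [map_smul, Algebra.smul_def]
        rfl
    rw [h1, RB.DG_hom]
    exact Ideal.mul_mem_left _ _ hz

end deg

/-! ### the count -/

section count

variable {A : Type} [CommRing A] {X : Type} [CommGroup X]

theorem count [Finite X] {p e : ℕ} (hp : p.Prime) [NeZero (p ^ e)] (hX : ∀ x : X, x ^ p ^ e = 1)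
    (z : MonoidAlgebra A (Du X)) (r : ℕ)
    (h0 : ∃ x, mp A (ps x (hX x)) z ∉ Aug A (Multiplicative (ZMod (p ^ e))) ^ (r + 1)) (a b : ℕ)
    (hab : r ≤ a * (p - 1) + b) (hb : b ≤ p - 1) :
    (p - b) * Nat.card X ≤ p ^ (a + 1) *
      {x : X | mp A (ps x (hX x)) z ∉ Aug A (Multiplicative (ZMod (p ^ e))) ^ (r + 1)}.ncard := by
  classical
  set f : X → MonoidAlgebra A (Multiplicative (ZMod (p ^ e))) := fun x => mp A (ps x (hX x)) z
    with hf
  set I := Aug A (Multiplicative (ZMod (p ^ e))) with hI
  -- the largest power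
  have h1 : ∃ j, j ≤ r ∧ (∀ x, f x ∈ I ^ j) ∧ ∃ x, f x ∉ I ^ (j + 1) := by
    by_contra hcon
    push Not at hcon
    have h2 : ∀ j, j ≤ r + 1 → ∀ x, f x ∈ I ^ j := by
      intro j
      induction j with
      | zero => intro _ x; simp
      | succ j ih =>
        intro hj
        exact hcon j (by omega) (ih (by omega))
    obtain ⟨x, hx⟩ := h0
    exact hx (h2 (r + 1) le_rfl x)
  obtain ⟨j, hjr, hj1, hj2⟩ := h1
  have hle : I ^ (r + 1) ≤ I ^ (j + 1) := Ideal.pow_le_pow_right (by omega)
  rcases Nat.eq_zero_or_pos j with hj0 | hj0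
  · -- the augmentation is not zero
    subst hj0
    obtain ⟨x1, hx1⟩ := hj2
    rw [zero_add, pow_one, hI, mem_aug_iff] at hx1
    have h2 : ∀ x, f x ∉ I ^ (r + 1) := by
      intro x hx
      have h3 := hle hx
      rw [zero_add, pow_one, hI, mem_aug_iff] at h3
      apply hx1
      rw [← h3]
      show eps A _ (mp A _ z) = eps A _ (mp A _ z)
      rw [eps_mp, eps_mp]
    have h3 : {x : X | f x ∉ I ^ (r + 1)} = Set.univ := by
      ext x
      simp only [Set.mem_ofPred_eq, Set.mem_univ, iff_true]
      exact h2 x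
    rw [h3, Set.ncard_univ]
    refine Nat.mul_le_mul_right _ ?_
    calc p - b ≤ p := Nat.sub_le _ _
      _ = p ^ 1 := (pow_one p).symm
      _ ≤ p ^ (a + 1) := Nat.pow_le_pow_right hp.pos (by omega)
  · have hCe : ∀ c : Multiplicative (ZMod (p ^ e)), c ^ p ^ e = 1 := by
      intro c
      rw [← toAdd_eq_zero, toAdd_pow]
      simp
    have hpe : ∀ x, ((p ^ e : ℕ) : MonoidAlgebra A (Multiplicative (ZMod (p ^ e)))) * f x ∈
        I ^ (j + 1) := fun x => nat_mul_mem hCe hj0 (hj1 x)
    have h2 : ∃ t, (∀ x, ((p ^ (t + 1) : ℕ) : MonoidAlgebra A (Multiplicative (ZMod (p ^ e)))) *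
        f x ∈ I ^ (j + 1)) ∧ ∃ x, ((p ^ t : ℕ) : MonoidAlgebra A (Multiplicative (ZMod (p ^ e)))) *
        f x ∉ I ^ (j + 1) := by
      by_contra hcon
      push Not at hcon
      have h3 : ∀ i, i ≤ e → ∀ x, ((p ^ (e - i) : ℕ) :
          MonoidAlgebra A (Multiplicative (ZMod (p ^ e)))) * f x ∈ I ^ (j + 1) := by
        intro i
        induction i with
        | zero => intro _; exact hpe
        | succ i ih =>
          intro hi
          exact hcon (e - (i + 1)) (by
            have h4 := ih (by omega)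
            rwa [show e - (i + 1) + 1 = e - i by omega])
      obtain ⟨x, hx⟩ := hj2
      apply hx
      have h4 := h3 e le_rfl x
      rw [Nat.sub_self, pow_zero, Nat.cast_one, one_mul] at h4
      exact h4
    obtain ⟨t, ht1, x1, hx1⟩ := h2
    let B : X → MonoidAlgebra A (Multiplicative (ZMod (p ^ e))) ⧸ I ^ (j + 1) := fun x =>
      Ideal.Quotient.mk _ (((p ^ t : ℕ) : MonoidAlgebra A (Multiplicative (ZMod (p ^ e)))) * f x)
    have hB : ∀ x, B x = 0 ↔ ((p ^ t : ℕ) : MonoidAlgebra A (Multiplicative (ZMod (p ^ e)))) * f x ∈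
        I ^ (j + 1) := fun x => Ideal.Quotient.eq_zero_iff_mem
    have h3 := RB.bound' hp hX B (fun x => by
        rw [nsmul_eq_mul]
        show ((p : ℕ) : MonoidAlgebra A (Multiplicative (ZMod (p ^ e))) ⧸ I ^ (j + 1)) *
          Ideal.Quotient.mk _ _ = 0
        rw [← map_natCast (Ideal.Quotient.mk (I ^ (j + 1))), ← map_mul,
          Ideal.Quotient.eq_zero_iff_mem, ← mul_assoc, ← Nat.cast_mul, ← pow_succ']
        exact ht1 x) j (fun L hL x => by
        have h4 : (fun y => B y) = fun y => (((Ideal.Quotient.mk (I ^ (j + 1))).toAddMonoidHom.comp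
            (AddMonoidHom.mulLeft ((p ^ t : ℕ) :
              MonoidAlgebra A (Multiplicative (ZMod (p ^ e)))))) (f y)) := rfl
        have h5 := RB.DG_hom ((Ideal.Quotient.mk (I ^ (j + 1))).toAddMonoidHom.comp
            (AddMonoidHom.mulLeft ((p ^ t : ℕ) :
              MonoidAlgebra A (Multiplicative (ZMod (p ^ e)))))) L f x
        have h6 : RM.DG L B x = _ := h5
        rw [h6]
        show Ideal.Quotient.mk (I ^ (j + 1)) (((p ^ t : ℕ) :
              MonoidAlgebra A (Multiplicative (ZMod (p ^ e)))) * RM.DG L f x) = 0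
        rw [Ideal.Quotient.eq_zero_iff_mem]
        exact Ideal.mul_mem_left _ _ (Ideal.pow_le_pow_right hL (DG_mem hX z L x)))
        ⟨x1, fun h => hx1 ((hB x1).1 h)⟩ a b (by omega) hb
    refine h3.trans (Nat.mul_le_mul_left _ ?_)
    refine Set.ncard_le_ncard (fun x hx => ?_) (Set.toFinite _)
    intro h4
    exact hx ((hB x).2 (Ideal.mul_mem_left _ _ (hle h4)))

end count

end Pool.Agent.X252.MT
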