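import Pool.Agent.X252.MTL

/-!
Compatible systems: a property which fails for one field fails for most cyclic fields.
-/

set_option autoImplicit false

namespace Pool.Agent.X252.MT

open Finset Topology

variable {W : WeierstrassCurve ℤ} {p : ℕ}

lemma T_eq {F F' : Fld W p} (h : F.X = F'.X) : F.T = F'.T := by
  ext q
  rw [F.ram, F'.ram, h]

lemma fld_ext {F F' : Fld W p} (h : F.X = F'.X) : F = F' := by
  have hT := T_eq h
  obtain ⟨X, T, _, _, _, _⟩ := F
  obtain ⟨X', T', _, _, _, _⟩ := F'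
  simp only at h hT
  subst h
  subst hT
  rfl

open Classical in
/-- the subfield belonging to the characters killed by `p ^ e` -/
noncomputable def tor (F : Fld W p) (e : ℕ) : Fld W p where
  X := F.X ⊓ (powMonoidHom (p ^ e) : Fam →* Fam).ker
  T := F.T.filter fun q => ∃ c ∈ F.X ⊓ (powMonoidHom (p ^ e) : Fam →* Fam).ker, c q ≠ 1
  fin := by
    have hF := F.fin
    exact Finite.of_injective (Subgroup.inclusion (inf_le_left :
      F.X ⊓ (powMonoidHom (p ^ e) : Fam →* Fam).ker ≤ F.X)) (Subgroup.inclusion_injective _)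
  ram := by
    intro q
    rw [Finset.mem_filter]
    constructor
    · rintro ⟨-, h⟩
      exact h
    · rintro ⟨c, hc, h⟩
      exact ⟨(F.ram q).2 ⟨c, hc.1, h⟩, c, hc, h⟩
  adm := fun q hq => F.adm q (Finset.mem_filter.1 hq).1
  pow := fun c hc => F.pow c hc.1

lemma mem_tor (F : Fld W p) (e : ℕ) (c : Fam) : c ∈ (tor F e).X ↔ c ∈ F.X ∧ c ^ p ^ e = 1 := by
  show c ∈ F.X ⊓ (powMonoidHom (p ^ e) : Fam →* Fam).ker ↔ _
  rw [Subgroup.mem_inf, MonoidHom.mem_ker]
  rfl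

section sys

variable {A : Type} [CommRing A] {k : ℕ} {z : (F : Fld W p) → MonoidAlgebra A (Du F.X)}

/-- the image in the group ring of a cyclic group depends only on the field of the character -/
lemma Sys.ps_iff (hz : Sys k z) {N : ℕ} [NeZero N] {F Z : Fld W p} (hle : Z.X ≤ F.X) (χ : Z.X)
    (hχ : χ ^ N = 1) (hχ' : (Subgroup.inclusion hle χ) ^ N = 1) :
    mp A (ps (Subgroup.inclusion hle χ) hχ') (z F) ∈ Aug A (Multiplicative (ZMod N)) ^ k ↔
      mp A (ps χ hχ) (z Z) ∈ Aug A (Multiplicative (ZMod N)) ^ k := by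
  obtain ⟨u, a, ha, hu, h1⟩ := hz F Z hle
  have h2 : mp A (ps (Subgroup.inclusion hle χ) hχ') (z F) =
      mp A (ps χ hχ) (mp A (rr hle) (z F)) := by
    rw [mp_mp, ps_rs (Subgroup.inclusion hle) χ hχ hχ']
    rfl
  rw [h2]
  have h3 := mp_mem (A := A) (ps χ hχ) h1
  rw [map_sub, map_mul] at h3
  have h4 : mp A (ps χ hχ) u - algebraMap A _ a ∈ Aug A (Multiplicative (ZMod N)) := by
    have h5 := mp_mem_aug (A := A) (ps χ hχ) hu
    rwa [map_sub, AlgHom.commutes] at h5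
  constructor
  · intro h
    have h5 := Ideal.sub_mem _ h h3
    rw [sub_sub_cancel] at h5
    exact mem_of_mul_mem ha h4 h5
  · intro h
    have h5 := Ideal.add_mem _ h3 (Ideal.mul_mem_left _ (mp A (ps χ hχ) u) h)
    rwa [sub_add_cancel] at h5

/-- homomorphisms to cyclic groups come from elements of `X` -/
lemma exists_ps {X : Type} [CommGroup X] [Finite X] {N : ℕ} [NeZero N]
    (φ : Du X →* Multiplicative (ZMod N)) : ∃ (χ : X) (hχ : χ ^ N = 1), ps χ hχ = φ := by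
  have hne : NeZero (Monoid.exponent X) := ⟨Monoid.exponent_ne_zero_of_finite⟩
  let φ0 : (X →* ℂˣ) →* ℂˣ := (emb N).comp φ
  have h1 : ∀ σ : Du X, σ (CommGroup.monoidHomMonoidHomEquiv X ℂ φ0) = emb N (φ σ) := fun σ =>
    CommGroup.apply_monoidHomMonoidHomEquiv (G := X) ℂ σ φ0
  have hχ : (CommGroup.monoidHomMonoidHomEquiv X ℂ φ0) ^ N = 1 := by
    have h2 : ∀ σ : Du X, σ ((CommGroup.monoidHomMonoidHomEquiv X ℂ φ0) ^ N) = 1 := by
      intro σ
      rw [map_pow, h1, ← map_pow]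
      have h3 : (φ σ) ^ N = 1 := by
        rw [← toAdd_eq_zero, toAdd_pow]
        simp
      rw [h3, map_one]
    exact (CommGroup.forall_apply_eq_apply_iff (G := X) (M := ℂ)).1 fun σ =>
      (h2 σ).trans (map_one σ).symm
  refine ⟨_, hχ, ?_⟩
  refine MonoidHom.ext fun σ => ?_
  apply emb_inj N
  rw [emb_ps, h1]

/-- a homomorphism to a cyclic group detecting the failure -/
lemma exists_fail [IsDomain A] (hp : p.Prime) (hA : Good A p) {X : Type} [CommGroup X] [Finite X]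
    {E : ℕ} (hE : 1 ≤ E) (hX : ∀ x : X, x ^ p ^ E = 1) {r : ℕ} (hr : r < p ∨ E = 1)
    {w : MonoidAlgebra A (Du X)} (hw : w ∉ Aug A (Du X) ^ (r + 1)) :
    ∃ e, 1 ≤ e ∧ e ≤ E ∧ ∃ φ : Du X →* Multiplicative (ZMod (p ^ e)),
      mp A φ w ∉ Aug A (Multiplicative (ZMod (p ^ e))) ^ (r + 1) := by
  have hfin : Finite (Du X) := fin_dual X
  -- elements with nonzero augmentation
  by_cases h0 : eps A (Du X) w = 0
  swap
  · refine ⟨1, le_rfl, hE, 1, fun h => h0 ?_⟩
    have h1 := eps_mem (Ideal.pow_le_self (Nat.succ_ne_zero r) h)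
    rwa [eps_mp] at h1
  by_contra hcon
  push Not at hcon
  apply hw
  have hD : ∀ (e : ℕ) (_ : ∀ x : X, x ^ p ^ e = 1) (σ : Du X), σ ^ p ^ e = 1 := by
    intro e he σ
    ext x
    have h1 : (σ ^ p ^ e) x = (σ x) ^ p ^ e := map_pow (dev x) σ _
    rw [h1, ← map_pow, he, map_one]
    rfl
  rcases hr with hr | hr
  · refine detect hp hA E (hD E hX) (by omega) w fun e he φ => ?_
    rcases Nat.eq_zero_or_pos e with h1 | h1
    · subst h1
      have h2 : mp A φ w = 0 := by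
        have h3 : mp A φ w = algebraMap A _ (eps A (Du X) w) := by
          have hsub : Subsingleton (Multiplicative (ZMod (p ^ 0))) := by
            rw [pow_zero]
            infer_instance
          clear hcon hw h0
          induction w using MonoidAlgebra.induction_on with
          | of g => rw [mp_of, eps_of, map_one, Subsingleton.elim (φ g) 1, map_one]
          | add x y hx hy => rw [map_add, map_add, map_add, hx, hy]
          | smul r x hx => rw [map_smul, map_smul, hx, smul_eq_mul, map_mul, Algebra.smul_def]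
        rw [h3, h0, map_zero]
      rw [h2]
      exact Ideal.zero_mem _
    · exact hcon e h1 he φ
  · subst hr
    rw [pow_one] at hX
    have hN : ∀ N : ℕ, N = p → (∀ φ : Du X →* Multiplicative (ZMod N),
        mp A φ w ∈ Aug A (Multiplicative (ZMod N)) ^ (r + 1)) →
        ∀ φ : Du X →* Multiplicative (ZMod p),
        mp A φ w ∈ Aug A (Multiplicative (ZMod p)) ^ (r + 1) := by
      rintro N rfl
      exact id
    have h1 := hN (p ^ 1) (pow_one p) (hcon 1 le_rfl le_rfl)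
    refine detect_p hp hA (fun σ => ?_) w (fun _ => h0) fun φ => div_of_mem hp φ (h1 φ)
    have := hD 1 (by rw [pow_one]; exact hX) σ
    rwa [pow_one] at this

/-- failure for one field implies failure for most cyclic fields -/
def Generic (P : Fld W p → Prop) (r : ℕ) : Prop :=
  ∀ (F0 : Fld W p) (E : ℕ), 1 ≤ E → (∀ c ∈ F0.X, c ^ p ^ E = 1) → (r < p ∨ E = 1) → ¬ P F0 →
    ∃ e, 1 ≤ e ∧ e ≤ E ∧ ∀ F : Fld W p, F0.X ≤ F.X → ∀ a b : ℕ, r ≤ a * (p - 1) + b → b ≤ p - 1 →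
      (p - b) * {χ : Fam | χ ∈ F.X ∧ χ ^ p ^ e = 1}.ncard ≤ p ^ (a + 1) *
        {χ : Fam | (χ ∈ F.X ∧ χ ^ p ^ e = 1) ∧
          ∀ F' : Fld W p, F'.X = Subgroup.zpowers χ → ¬ P F'}.ncard

theorem Sys.generic [IsDomain A] {r : ℕ} (hz : Sys (r + 1) z) (hp : p.Prime) (hA : Good A p) :
    Generic (fun F : Fld W p => z F ∈ Aug A (Du F.X) ^ (r + 1)) r := by
  intro F0 E hE hF0 hr hfail
  have hfin0 := F0.fin
  obtain ⟨e, he1, he2, φ, hφ⟩ := exists_fail hp hA hE (X := F0.X)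
    (fun x => Subtype.ext (hF0 x x.2)) hr hfail
  have hne : NeZero (p ^ e) := ⟨(pow_pos hp.pos e).ne'⟩
  obtain ⟨χ0, hχ0, rfl⟩ := exists_ps φ
  refine ⟨e, he1, he2, fun F hF a b hab hb => ?_⟩
  have hχ0F : (χ0 : Fam) ^ p ^ e = 1 := congrArg Subtype.val hχ0
  -- the field of `χ0`
  let Z := cyc F0 (χ0 : Fam) χ0.2
  let ξ : Z.X := ⟨χ0, Subgroup.mem_zpowers _⟩
  have hξ : ξ ^ p ^ e = 1 := Subtype.ext hχ0F
  have h1 : mp A (ps ξ hξ) (z Z) ∉ Aug A (Multiplicative (ZMod (p ^ e))) ^ (r + 1) := fun h =>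
    hφ ((hz.ps_iff (cyc_le F0 χ0.2) ξ hξ hχ0).2 h)
  -- the torsion field
  let G := tor F e
  have hGfin := G.fin
  have hG : ∀ x : G.X, x ^ p ^ e = 1 := fun x => Subtype.ext ((mem_tor F e _).1 x.2).2
  have hZG : Z.X ≤ G.X := by
    show Subgroup.zpowers (χ0 : Fam) ≤ G.X
    rw [Subgroup.zpowers_le]
    exact (mem_tor F e _).2 ⟨hF χ0.2, hχ0F⟩
  have h2 : mp A (ps (Subgroup.inclusion hZG ξ) (hG _)) (z G) ∉
      Aug A (Multiplicative (ZMod (p ^ e))) ^ (r + 1) := fun h =>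
    h1 ((hz.ps_iff hZG ξ hξ (hG _)).1 h)
  have h3 := count hp hG (z G) r ⟨_, h2⟩ a b hab hb
  have h4 : Nat.card G.X = {χ : Fam | χ ∈ F.X ∧ χ ^ p ^ e = 1}.ncard := by
    have h5 : {χ : Fam | χ ∈ F.X ∧ χ ^ p ^ e = 1} = (G.X : Set Fam) := by
      ext χ
      exact (mem_tor F e χ).symm
    rw [h5]
    rfl
  rw [← h4]
  refine h3.trans (Nat.mul_le_mul_left _ ?_)
  rw [← Set.ncard_image_of_injective _ Subtype.val_injective]
  refine Set.ncard_le_ncard ?_ ?_
  · rintro _ ⟨x, hx, rfl⟩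
    refine ⟨(mem_tor F e _).1 x.2, fun F' hF' h => hx ?_⟩
    have hle : F'.X ≤ G.X := by
      rw [hF', Subgroup.zpowers_le]
      exact x.2
    have hxF' : (x : Fam) ∈ F'.X := by
      rw [hF']
      exact Subgroup.mem_zpowers _
    have h6 : (⟨x, hxF'⟩ : F'.X) ^ p ^ e = 1 :=
      Subtype.ext ((mem_tor F e _).1 x.2).2
    exact (hz.ps_iff hle ⟨x, hxF'⟩ h6 (hG _)).2 (mp_mem _ h)
  · have h7 : {χ : Fam | (χ ∈ F.X ∧ χ ^ p ^ e = 1) ∧
        ∀ F' : Fld W p, F'.X = Subgroup.zpowers χ → ¬ z F' ∈ Aug A (Du F'.X) ^ (r + 1)} ⊆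
        (G.X : Set Fam) := fun χ hχ => (mem_tor F e χ).2 hχ.1
    exact Set.Finite.subset (Set.toFinite _) h7

end sys

end Pool.Agent.X252.MT
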