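import Pool.Agent.X252.MTM

/-!
The order of vanishing and the leading term formula of the Mazur-Tate elements: failure is generic.
-/

set_option autoImplicit false

namespace Pool.Agent.X252.MT

open Finset Topology

variable {W : WeierstrassCurve ℤ} {p : ℕ}

theorem genericity (hp : p.Prime) {Ω : ℂ} (hΩ : Ω ≠ 0)
    {θ : (F : Fld W p) → MonoidAlgebra (Zp p hp) (Du F.X)} (hθ : ∀ F, IsTheta F Ω (θ F)) :
    (∀ r, Generic (fun F : Fld W p => InPow (r + 1) (θ F)) r) ∧
    ∀ (r : ℕ) (h : (F : Fld W p) → Fin r → Fin r → Du F.X), Compat W p h →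
      ∀ c : Zp p hp, Generic (fun F : Fld W p => LT hp F (h F) c (θ F)) r := by
  refine ⟨fun r => ?_, fun r h hh c => (sys_dfct hp hΩ hθ h hh c).generic hp (zp_good hp)⟩
  have h1 := (sys_theta hp hΩ hθ (r + 1)).generic hp (zp_good hp)
  have h2 : (fun F : Fld W p => mt F (θ F) ∈ Aug (Zp p hp) (Du F.X) ^ (r + 1)) =
      fun F : Fld W p => InPow (r + 1) (θ F) :=
    funext fun F => propext (mt_mem_iff hp F (θ F) (r + 1))
  rwa [h2] at h1

end Pool.Agent.X252.MT
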