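import Pool.Agent.X252.MTK

/-!
The constant in the leading term formula for the Mazur-Tate elements.
-/

set_option autoImplicit false

namespace Pool.Agent.X252.MT

open Finset Topology

variable {W : WeierstrassCurve ℤ} {p : ℕ} (hp : p.Prime)

lemma lc_mul (F : Fld W p) (a d : Zp p hp) : lc hp F (a * d) = a * lc hp F d := by
  unfold lc
  ring

lemma lc_add (F : Fld W p) (a d : Zp p hp) : lc hp F (a + d) = lc hp F a + lc hp F d := by
  unfold lc
  ring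

/-- `d` times the determinant vanishes modulo the next power of the augmentation ideal -/
def Dz {r : ℕ} (F : Fld W p) (h : Fin r → Fin r → Du F.X) (d : Zp p hp) : Prop :=
  InPow (r + 1) (algebraMap (Zp p hp) (MonoidAlgebra (Zp p hp) (Du F.X)) (lc hp F d) *
    rdet (Zp p hp) h)

section
variable {r : ℕ} {F : Fld W p} {h : Fin r → Fin r → Du F.X}

lemma Dz.mul {d : Zp p hp} (hd : Dz hp F h d) (a : Zp p hp) : Dz hp F h (a * d) := by
  unfold Dz InPow at *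
  rw [lc_mul, map_mul, mul_assoc]
  exact Ideal.mul_mem_left _ _ hd

lemma Dz.add {d e : Zp p hp} (hd : Dz hp F h d) (he : Dz hp F h e) : Dz hp F h (d + e) := by
  unfold Dz InPow at *
  rw [lc_add, map_add, add_mul]
  exact Ideal.add_mem _ hd he

lemma LT.diff {c d : Zp p hp} {θ : MonoidAlgebra (Zp p hp) (Du F.X)} (h1 : LT hp F h c θ)
    (h2 : LT hp F h d θ) : Dz hp F h (c - d) := by
  unfold Dz InPow
  unfold LT InPow frm at h1 h2
  have h3 := Ideal.sub_mem _ h2 h1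
  have h4 : lc hp F (c - d) = lc hp F c - lc hp F d := by
    unfold lc
    ring
  rw [h4, map_sub]
  convert h3 using 1
  ring

lemma LT.shift {c d : Zp p hp} {θ : MonoidAlgebra (Zp p hp) (Du F.X)} (h1 : LT hp F h c θ)
    (h2 : Dz hp F h (c - d)) : LT hp F h d θ := by
  unfold Dz InPow at h2
  unfold LT InPow frm at *
  have h3 := Ideal.add_mem _ h1 h2
  have h4 : lc hp F (c - d) = lc hp F c - lc hp F d := by
    unfold lc
    ring
  rw [h4, map_sub] at h3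
  convert h3 using 1
  ring

lemma fld_pow {N : ℕ} (hF : ∀ c ∈ F.X, c ^ N = 1) (σ : Du F.X) : σ ^ N = 1 := by
  have h0 : ∀ χ : F.X, χ ^ N = 1 := fun χ => Subtype.ext (hF χ χ.2)
  ext χ
  have h1 : (σ ^ N) χ = (σ χ) ^ N := map_pow (dev χ) σ N
  rw [h1, ← map_pow, h0, map_one]
  rfl

lemma Dz.pow {N : ℕ} (hF : ∀ c ∈ F.X, c ^ N = 1) (hr : 1 ≤ r) :
    Dz hp F h ((N : ℕ) : Zp p hp) := by
  unfold Dz InPow
  have h1 := nat_mul_mem (A := Zp p hp) (fld_pow (p := p) (W := W) (F := F) hF) hr (det_mem h)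
  have h2 : lc hp F ((N : ℕ) : Zp p hp) = (N : Zp p hp) * lc hp F 1 := by
    rw [← lc_mul, mul_one]
  rw [h2, map_mul, map_natCast]
  have h3 := Ideal.mul_mem_left _ (algebraMap (Zp p hp) (MonoidAlgebra (Zp p hp) (Du F.X))
    (lc hp F 1)) h1
  convert h3 using 1
  ring

/-- integral representatives of the constants -/
lemma LT.int {n : ℕ} (hF : ∀ c ∈ F.X, c ^ p ^ n = 1) (hr : 1 ≤ r) {c : Zp p hp} (c' : ℤ)
    (b : Zp p hp) (hc : c = c' + ((p ^ n : ℕ) : Zp p hp) * b)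
    {θ : MonoidAlgebra (Zp p hp) (Du F.X)} : LT hp F h c θ ↔ LT hp F h (c' : Zp p hp) θ := by
  have h1 : Dz hp F h (((p ^ n : ℕ) : Zp p hp)) := Dz.pow hp hF hr
  constructor
  · intro h2
    refine h2.shift hp ?_
    rw [hc, add_sub_cancel_left, mul_comm]
    exact h1.mul hp b
  · intro h2
    refine h2.shift hp ?_
    rw [hc, sub_add_cancel_left, mul_comm, ← neg_mul]
    exact h1.mul hp _

/-- the least exponent with `Dz` -/
lemma exists_v {n : ℕ} (hF : ∀ c ∈ F.X, c ^ p ^ n = 1) (hr : 1 ≤ r) :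
    ∃ v ≤ n, Dz hp F h ((p ^ v : ℕ) : Zp p hp) ∧
      ∀ d : ℤ, Dz hp F h (d : Zp p hp) → ((p : ℤ) ^ v) ∣ d := by
  classical
  have hex : ∃ v : ℕ, Dz hp F h ((p ^ v : ℕ) : Zp p hp) := ⟨n, Dz.pow hp hF hr⟩
  refine ⟨Nat.find hex, Nat.find_min' hex (Dz.pow hp hF hr), Nat.find_spec hex, fun d hd => ?_⟩
  set v := Nat.find hex with hv
  -- the greatest common divisor of `d` and `p ^ v`
  have h1 : Dz hp F h ((Int.gcd d ((p : ℤ) ^ v) : ℕ) : Zp p hp) := by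
    have h2 := Int.gcd_eq_gcd_ab d ((p : ℤ) ^ v)
    have h3 : ((Int.gcd d ((p : ℤ) ^ v) : ℕ) : Zp p hp) =
        ((Int.gcdA d ((p : ℤ) ^ v) : ℤ) : Zp p hp) * (d : Zp p hp) +
          ((Int.gcdB d ((p : ℤ) ^ v) : ℤ) : Zp p hp) * ((p ^ v : ℕ) : Zp p hp) := by
      have h4 := congrArg (fun z : ℤ => (z : Zp p hp)) h2
      simp only [Int.cast_natCast, Int.cast_add, Int.cast_mul, Int.cast_pow] at h4
      rw [h4]
      push_cast
      ring
    rw [h3]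
    exact (hd.mul hp _).add hp ((Nat.find_spec hex).mul hp _)
  have h2 : (Int.gcd d ((p : ℤ) ^ v) : ℕ) ∣ p ^ v := by
    have h3 := Int.gcd_dvd_right d ((p : ℤ) ^ v)
    exact_mod_cast h3
  obtain ⟨b, hb, hb2⟩ := (Nat.dvd_prime_pow hp).1 h2
  rw [hb2] at h1
  have h3 : v ≤ b := Nat.find_min' hex h1
  have h4 : b = v := le_antisymm hb h3
  have h5 := Int.gcd_dvd_left d ((p : ℤ) ^ v)
  rw [hb2, h4] at h5
  exact_mod_cast h5

end

/-- **pairwise common constants give a common constant** -/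
theorem helly {r : ℕ} (hr : 1 ≤ r) (h : (F : Fld W p) → Fin r → Fin r → Du F.X)
    (θ : (F : Fld W p) → MonoidAlgebra (Zp p hp) (Du F.X)) (n : ℕ) (Φ : Fld W p → Prop)
    (hΦ : ∀ F, Φ F → ∀ c ∈ F.X, c ^ p ^ n = 1)
    (hpair : ∀ F F', Φ F → Φ F' → ∃ c : Zp p hp, LT hp F (h F) c (θ F) ∧
      LT hp F' (h F') c (θ F')) :
    ∃ c : ℤ, ∀ F, Φ F → LT hp F (h F) (c : Zp p hp) (θ F) := by
  classical
  by_cases hne : ∃ F, Φ F
  · have hv : ∀ F, Φ F → ∃ v ≤ n, Dz hp F (h F) ((p ^ v : ℕ) : Zp p hp) ∧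
        ∀ d : ℤ, Dz hp F (h F) (d : Zp p hp) → ((p : ℤ) ^ v) ∣ d :=
      fun F hF => exists_v hp (hΦ F hF) hr
    choose! v hv1 hv2 hv3 using hv
    -- a field with the largest `v`
    obtain ⟨G, hG, hmax⟩ : ∃ G, Φ G ∧ ∀ F, Φ F → v F ≤ v G := by
      by_contra hcon
      push Not at hcon
      obtain ⟨F0, hF0⟩ := hne
      have h1 : ∀ k : ℕ, ∃ F, Φ F ∧ k ≤ v F := by
        intro k
        induction k with
        | zero => exact ⟨F0, hF0, Nat.zero_le _⟩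
        | succ k ih =>
          obtain ⟨F, hF, hk⟩ := ih
          obtain ⟨F', hF', hlt⟩ := hcon F hF
          exact ⟨F', hF', lt_of_le_of_lt hk hlt⟩
      obtain ⟨F, hF, hk⟩ := h1 (n + 1)
      have := hv1 F hF
      omega
    have hint : ∀ F F', Φ F → Φ F' → ∃ c : ℤ, LT hp F (h F) (c : Zp p hp) (θ F) ∧
        LT hp F' (h F') (c : Zp p hp) (θ F') := by
      intro F F' hF hF'
      obtain ⟨c, h1, h2⟩ := hpair F F' hF hF'
      obtain ⟨c', b, hc⟩ := (zp_good hp).app n c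
      exact ⟨c', (LT.int hp (hΦ F hF) hr c' b hc).1 h1, (LT.int hp (hΦ F' hF') hr c' b hc).1 h2⟩
    obtain ⟨c0, hc0, -⟩ := hint G G hG hG
    refine ⟨c0, fun F hF => ?_⟩
    obtain ⟨c, h1, h2⟩ := hint F G hF hG
    refine h1.shift hp ?_
    have h3 : Dz hp G (h G) ((c - c0 : ℤ) : Zp p hp) := by
      rw [Int.cast_sub]
      exact h2.diff hp hc0
    obtain ⟨e, he⟩ := hv3 G hG _ h3
    have h4 : ((c : Zp p hp) - (c0 : Zp p hp)) = ((p ^ (v G - v F) : ℕ) * e : Zp p hp) *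
        ((p ^ v F : ℕ) : Zp p hp) := by
      have h5 : ((c - c0 : ℤ) : Zp p hp) = (((p : ℤ) ^ v G * e : ℤ) : Zp p hp) := by rw [he]
      rw [Int.cast_sub] at h5
      rw [h5]
      push_cast
      have h6 : (p : Zp p hp) ^ v G = (p : Zp p hp) ^ (v G - v F) * (p : Zp p hp) ^ v F := by
        rw [← pow_add, Nat.sub_add_cancel (hmax F hF)]
      rw [h6]
      ring
    rw [h4]
    exact (hv2 F hF).mul hp _
  · exact ⟨0, fun F hF => absurd ⟨F, hF⟩ hne⟩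


/-! ### the exponent -/

section expo

lemma exists_expo (F : Fld W p) : ∃ n : ℕ, ∀ c ∈ F.X, c ^ p ^ n = 1 := by
  classical
  have hF := F.fin
  have : Fintype F.X := Fintype.ofFinite _
  have h1 : ∀ c : F.X, ∃ n : ℕ, (c : Fam) ^ p ^ n = 1 := fun c => F.pow c c.2
  choose n hn using h1
  refine ⟨∑ c : F.X, n c, fun c hc => ?_⟩
  obtain ⟨e, he⟩ := pow_dvd_pow p (Finset.single_le_sum (fun i _ => Nat.zero_le (n i))
    (Finset.mem_univ (⟨c, hc⟩ : F.X)))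
  rw [he, pow_mul, hn ⟨c, hc⟩, one_pow]

lemma expo_mono {F : Fld W p} {m n : ℕ} (hmn : m ≤ n) (h : ∀ c ∈ F.X, c ^ p ^ m = 1) :
    ∀ c ∈ F.X, c ^ p ^ n = 1 := by
  intro c hc
  obtain ⟨e, he⟩ := pow_dvd_pow p hmn
  rw [he, pow_mul, h c hc, one_pow]

lemma box_exp' {F : Fld W p} {t : Finset ℕ} (ht : t ⊆ F.T) {N : ℕ} (h : ∀ c ∈ F.X, c ^ N = 1) :
    ∀ c ∈ (box F t ht).X, c ^ N = 1 := by
  rintro c ⟨h1, h2⟩
  refine fam_ext fun q => ?_
  rw [fam_pow, fam_one]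
  by_cases hq : q ∈ t
  · obtain ⟨d, hd, h3⟩ := h1 q hq
    rw [h3, ← fam_pow, h d hd, fam_one]
  · rw [h2 q hq, one_pow]

/-- the compositum -/
noncomputable def cmp (F F' : Fld W p) : Fld W p where
  X := F.X ⊔ F'.X
  T := F.T ∪ F'.T
  fin := by
    have h1 := F.fin
    have h2 := F'.fin
    have h3 : (Set.range fun x : F.X × F'.X => (x.1 : Fam) * x.2).Finite := Set.finite_range _
    refine (h3.subset ?_).to_subtype
    intro c hc
    obtain ⟨a, ha, b, hb, rfl⟩ := Subgroup.mem_sup.1 hc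
    exact ⟨(⟨a, ha⟩, ⟨b, hb⟩), rfl⟩
  ram := by
    intro q
    rw [Finset.mem_union]
    constructor
    · rintro (h | h)
      · obtain ⟨c, hc, h1⟩ := (F.ram q).1 h
        exact ⟨c, Subgroup.mem_sup_left hc, h1⟩
      · obtain ⟨c, hc, h1⟩ := (F'.ram q).1 h
        exact ⟨c, Subgroup.mem_sup_right hc, h1⟩
    · rintro ⟨c, hc, h1⟩
      obtain ⟨a, ha, b, hb, rfl⟩ := Subgroup.mem_sup.1 hc
      by_contra hcon
      push Not at hcon
      apply h1
      rw [fam_mul, triv F ha hcon.1, triv F' hb hcon.2, one_mul]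
  adm := by
    intro q hq
    rcases Finset.mem_union.1 hq with h | h
    · exact F.adm q h
    · exact F'.adm q h
  pow := by
    intro c hc
    obtain ⟨a, ha, b, hb, rfl⟩ := Subgroup.mem_sup.1 hc
    obtain ⟨m, hm⟩ := F.pow a ha
    obtain ⟨n, hn⟩ := F'.pow b hb
    refine ⟨m + n, ?_⟩
    rw [mul_pow, pow_add, pow_mul a, hm, one_pow, one_mul, mul_comm, pow_mul b, hn, one_pow]

end expo

section main
variable {Ω : ℂ} {θ : (F : Fld W p) → MonoidAlgebra (Zp p hp) (Du F.X)} {r : ℕ}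
  {h : (F : Fld W p) → Fin r → Fin r → Du F.X}

/-- fields with at most `r` ramified primes suffice, for a fixed exponent -/
theorem red_primes (hΩ : Ω ≠ 0) (hθ : ∀ F, IsTheta F Ω (θ F)) (hh : Compat W p h) (n : ℕ)
    (c : Zp p hp) (H : ∀ F : Fld W p, (∀ χ ∈ F.X, χ ^ p ^ n = 1) → F.T.card ≤ r →
      LT hp F (h F) c (θ F)) (F : Fld W p) (hF : ∀ χ ∈ F.X, χ ^ p ^ n = 1) :
    LT hp F (h F) c (θ F) :=
  (sys_dfct hp hΩ hθ h hh c).primes F fun t ht hc => H (box F t ht) (box_exp' ht hF)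
    (Nat.lt_succ_iff.1 hc)

/-- cyclic fields with at most `r` ramified primes suffice, for a fixed exponent -/
theorem red_cyclic (hΩ : Ω ≠ 0) (hθ : ∀ F, IsTheta F Ω (θ F)) (hh : Compat W p h) (n : ℕ)
    (hrn : r < p ∨ n = 1)
    (c : Zp p hp) (H : ∀ F : Fld W p, (∀ χ ∈ F.X, χ ^ p ^ n = 1) → F.T.card ≤ r → IsCyclic F.X →
      LT hp F (h F) c (θ F)) (F : Fld W p) (hF : ∀ χ ∈ F.X, χ ^ p ^ n = 1) :
    LT hp F (h F) c (θ F) := by
  have hz := sys_dfct hp hΩ hθ h hh c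
  refine red_primes hp hΩ hθ hh n c (fun F hF hc => ?_) F hF
  refine hz.cyclic hp (zp_good hp) F ?_ fun χ hχ => H _ (fun x hx => hF x (cyc_le F hχ hx))
    ((cyc_card F hχ).trans hc) (cyc_cyclic F hχ)
  rcases hrn with h1 | h1
  · exact Or.inl h1
  · right
    subst h1
    intro x hx
    have := hF x hx
    rwa [pow_one] at this

/-- one constant for all fields: the integers `c n` define a `p`-adic integer, and the formula holds
for the fields of exponent dividing `p ^ n` with the constant `c n` -/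
def Universal (hp : p.Prime) (h : (F : Fld W p) → Fin r → Fin r → Du F.X)
    (θ : (F : Fld W p) → MonoidAlgebra (Zp p hp) (Du F.X)) : Prop :=
  ∃ c : ℕ → ℤ, ∀ n, ((p : ℤ) ^ n ∣ c (n + 1) - c n) ∧
    ∀ F : Fld W p, (∀ χ ∈ F.X, χ ^ p ^ n = 1) → LT hp F (h F) (c n : Zp p hp) (θ F)

/-- the limit of the constants -/
theorem limit (hr : 1 ≤ r) (H : ∀ n : ℕ, ∃ c : ℤ, ∀ F : Fld W p, (∀ χ ∈ F.X, χ ^ p ^ n = 1) →
    LT hp F (h F) (c : Zp p hp) (θ F)) : Universal hp h θ := by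
  have : Fact p.Prime := ⟨hp⟩
  choose c hc using H
  obtain ⟨a, φ, hφ, hlim⟩ := CompactSpace.tendsto_subseq (fun n => ((c n : ℤ) : ℤ_[p]))
  have happ : ∀ n : ℕ, ‖((((a.appr n : ℕ) : ℤ) : ℤ_[p]) - a)‖ ≤ (p : ℝ) ^ (-(n : ℤ)) := by
    intro n
    have h1 := PadicInt.appr_spec n a
    rw [← PadicInt.norm_le_pow_iff_mem_span_pow] at h1
    rw [norm_sub_rev, Int.cast_natCast]
    exact h1
  refine ⟨fun n => ((a.appr n : ℕ) : ℤ), fun n => ⟨?_, fun F hF => ?_⟩⟩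
  · have h1 : ‖(((((a.appr (n + 1) : ℕ) : ℤ) - ((a.appr n : ℕ) : ℤ) : ℤ)) : ℤ_[p])‖ ≤
        (p : ℝ) ^ (-(n : ℤ)) := by
      have h2 : (((((a.appr (n + 1) : ℕ) : ℤ) - ((a.appr n : ℕ) : ℤ) : ℤ)) : ℤ_[p]) =
          ((((a.appr (n + 1) : ℕ) : ℤ) : ℤ_[p]) - a) - ((((a.appr n : ℕ) : ℤ) : ℤ_[p]) - a) := by
        push_cast
        ring
      rw [h2, sub_eq_add_neg]
      refine (PadicInt.nonarchimedean _ _).trans (max_le ?_ ?_)
      · refine (happ (n + 1)).trans ?_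
        refine zpow_le_zpow_right₀ ?_ ?_
        · exact_mod_cast hp.one_lt.le
        · push_cast
          linarith
      · rw [norm_neg]
        exact happ n
    exact PadicInt.norm_int_le_pow_iff_dvd.1 h1
  · have hpos : (0 : ℝ) < (p : ℝ) ^ (-(n : ℤ)) := by
      have : (0 : ℝ) < p := by exact_mod_cast hp.pos
      positivity
    have h1 := (Metric.tendsto_atTop.1 hlim _ hpos)
    obtain ⟨K, hK⟩ := h1
    set k := max K n with hk
    have h2 := hK k (le_max_left _ _)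
    have h3 : n ≤ φ k := (le_max_right K n).trans (hφ.id_le k)
    have h4 := hc (φ k) F (expo_mono h3 hF)
    have h5 : ‖((c (φ k) - ((a.appr n : ℕ) : ℤ) : ℤ) : ℤ_[p])‖ ≤ (p : ℝ) ^ (-(n : ℤ)) := by
      have h6 : ((c (φ k) - ((a.appr n : ℕ) : ℤ) : ℤ) : ℤ_[p]) =
          (((c (φ k) : ℤ) : ℤ_[p]) - a) - ((((a.appr n : ℕ) : ℤ) : ℤ_[p]) - a) := by
        push_cast
        ring
      rw [h6, sub_eq_add_neg]
      refine (PadicInt.nonarchimedean _ _).trans (max_le ?_ ?_)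
      · rw [← dist_eq_norm]
        exact h2.le
      · rw [norm_neg]
        exact happ n
    obtain ⟨e, he⟩ := PadicInt.norm_int_le_pow_iff_dvd.1 h5
    refine (LT.int hp (c := ((c (φ k) : ℤ) : Zp p hp)) hF hr _ (e : Zp p hp) ?_).1 h4
    have h7 : c (φ k) = ((a.appr n : ℕ) : ℤ) + (p : ℤ) ^ n * e := by
      rw [← he]
      ring
    rw [h7]
    push_cast
    ring

lemma lc_unit (F : Fld W p) : IsUnit (lc hp F 1) := by
  unfold lc
  rw [mul_one]
  refine IsUnit.mul ?_ ?_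
  · exact (isUnit_one.neg).pow _
  · rw [IsUnit.prod_iff]
    intro l hl
    have h1 := zp_unit hp (n := (cnt W l : ℤ)) fun h => (F.adm l hl).2.2 (by exact_mod_cast h)
    rwa [Int.cast_natCast] at h1

lemma Dz.inpow {F : Fld W p} {k : Fin r → Fin r → Du F.X} {N : ℕ}
    (H : Dz hp F k (N : Zp p hp)) :
    InPow (r + 1) ((N : MonoidAlgebra (Zp p hp) (Du F.X)) * rdet (Zp p hp) k) := by
  obtain ⟨u, hu⟩ := (lc_unit hp F).exists_right_inv
  unfold Dz InPow at *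
  have h1 := Ideal.mul_mem_left _ (algebraMap (Zp p hp) (MonoidAlgebra (Zp p hp) (Du F.X)) u) H
  have h2 : lc hp F (N : Zp p hp) = N * lc hp F 1 := by rw [← lc_mul, mul_one]
  have h3 : algebraMap (Zp p hp) (MonoidAlgebra (Zp p hp) (Du F.X)) u *
      (algebraMap (Zp p hp) (MonoidAlgebra (Zp p hp) (Du F.X)) (lc hp F (N : Zp p hp)) *
        rdet (Zp p hp) k) = (N : MonoidAlgebra (Zp p hp) (Du F.X)) * rdet (Zp p hp) k := by
    rw [← mul_assoc, ← map_mul, h2]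
    have h4 : u * ((N : Zp p hp) * lc hp F 1) = (N : Zp p hp) := by
      calc u * ((N : Zp p hp) * lc hp F 1) = N * (lc hp F 1 * u) := by ring
        _ = N := by rw [hu, mul_one]
    rw [h4, map_natCast]
  rwa [h3] at h1

/-- **the constant is determined by nondegenerate fields** -/
theorem determined (hr : 1 ≤ r) (H : Universal hp h θ) (c₀ : Zp p hp)
    (H' : ∀ n : ℕ, ∃ F : Fld W p, LT hp F (h F) c₀ (θ F) ∧
      ¬ InPow (r + 1) (((p ^ n : ℕ) : MonoidAlgebra (Zp p hp) (Du F.X)) * rdet (Zp p hp) (h F)))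
    (F : Fld W p) : LT hp F (h F) c₀ (θ F) := by
  obtain ⟨c, hc⟩ := H
  obtain ⟨n, hn⟩ := exists_expo F
  obtain ⟨F', h1, h2⟩ := H' n
  obtain ⟨n', hn'⟩ := exists_expo F'
  set N := max n n' with hN
  have hFN := expo_mono (le_max_left n n') hn
  have hFN' := expo_mono (le_max_right n n') hn'
  have h3 := (hc N).2 F hFN
  have h4 := (hc N).2 F' hFN'
  obtain ⟨c₁, b, hb⟩ := (zp_good hp).app N c₀
  have h5 : LT hp F' (h F') (c₁ : Zp p hp) (θ F') := (LT.int hp hFN' hr c₁ b hb).1 h1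
  have h6 : Dz hp F' (h F') ((c N - c₁ : ℤ) : Zp p hp) := by
    rw [Int.cast_sub]
    exact h4.diff hp h5
  obtain ⟨v, hv1, hv2, hv3⟩ := exists_v hp (h := h F') hFN' hr
  have h7 : n ≤ v := by
    by_contra hcon
    push Not at hcon
    apply h2
    apply Dz.inpow
    have h8 : ((p ^ n : ℕ) : Zp p hp) = ((p ^ (n - v) : ℕ) : Zp p hp) * ((p ^ v : ℕ) : Zp p hp) := by
      rw [← Nat.cast_mul, ← pow_add, Nat.sub_add_cancel hcon.le]
    rw [h8]
    exact hv2.mul hp _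
  have h8 : (p : ℤ) ^ n ∣ c N - c₁ := (pow_dvd_pow _ h7).trans (hv3 _ h6)
  obtain ⟨e, he⟩ := h8
  have h9 : LT hp F (h F) (c₁ : Zp p hp) (θ F) := by
    refine (LT.int hp (c := ((c N : ℤ) : Zp p hp)) hn hr c₁ (e : Zp p hp) ?_).1 h3
    have h10 : c N = c₁ + (p : ℤ) ^ n * e := by
      rw [← he]
      ring
    rw [h10]
    push_cast
    ring
  exact (LT.int hp hFN hr c₁ b hb).2 h9

/-- **the constants** -/
theorem constants (hΩ : Ω ≠ 0) (hθ : ∀ F, IsTheta F Ω (θ F)) (hh : Compat W p h) (hr : 1 ≤ r) :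
    ((∀ F : Fld W p, F.T.card ≤ 2 * r → ∃ c : Zp p hp, LT hp F (h F) c (θ F)) ↔
      Universal hp h θ) ∧
    (r < p → ((∀ F F' : Fld W p, IsCyclic F.X → IsCyclic F'.X → F.T.card ≤ r → F'.T.card ≤ r →
      ∃ c : Zp p hp, LT hp F (h F) c (θ F) ∧ LT hp F' (h F') c (θ F')) ↔ Universal hp h θ)) ∧
    ((∀ F F' : Fld W p, IsCyclic F.X → IsCyclic F'.X → F.T.card ≤ r → F'.T.card ≤ r →
      (∀ χ ∈ F.X, χ ^ p = 1) → (∀ χ ∈ F'.X, χ ^ p = 1) →
      ∃ c : Zp p hp, LT hp F (h F) c (θ F) ∧ LT hp F' (h F') c (θ F')) ↔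
      ∃ c : ℤ, ∀ F : Fld W p, (∀ χ ∈ F.X, χ ^ p = 1) → LT hp F (h F) (c : Zp p hp) (θ F)) ∧
    (Universal hp h θ → ∀ c : Zp p hp, (∀ n : ℕ, ∃ F : Fld W p, LT hp F (h F) c (θ F) ∧
      ¬ InPow (r + 1) (((p ^ n : ℕ) : MonoidAlgebra (Zp p hp) (Du F.X)) *
        rdet (Zp p hp) (h F))) → ∀ F : Fld W p, LT hp F (h F) c (θ F)) := by
  have hdown : ∀ (c : Zp p hp) (F F' : Fld W p), F'.X ≤ F.X → LT hp F (h F) c (θ F) →
      LT hp F' (h F') c (θ F') := fun c F F' hle H => (sys_dfct hp hΩ hθ h hh c).down hle H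
  have huni : Universal hp h θ → ∀ F F' : Fld W p, ∃ c : Zp p hp, LT hp F (h F) c (θ F) ∧
      LT hp F' (h F') c (θ F') := by
    rintro ⟨c, hc⟩ F F'
    obtain ⟨n, hn⟩ := exists_expo F
    obtain ⟨n', hn'⟩ := exists_expo F'
    exact ⟨_, (hc (max n n')).2 F (expo_mono (le_max_left _ _) hn),
      (hc (max n n')).2 F' (expo_mono (le_max_right _ _) hn')⟩
  refine ⟨⟨fun H => ?_, fun H F _ => ?_⟩, fun hrp => ⟨fun H => ?_, fun H F F' _ _ _ _ => huni H F F'⟩,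
    ⟨fun H => ?_, ?_⟩, fun H c H' F => determined hp hr H c H' F⟩
  · refine limit hp hr fun n => ?_
    obtain ⟨c, hc⟩ := helly hp hr h θ n (fun F => (∀ χ ∈ F.X, χ ^ p ^ n = 1) ∧ F.T.card ≤ r)
      (fun F hF => hF.1) (fun F F' hF hF' => by
        obtain ⟨c, hc⟩ := H (cmp F F') (by
          refine (Finset.card_union_le _ _).trans ?_
          have := hF.2
          have := hF'.2
          omega)
        exact ⟨c, hdown c _ _ le_sup_left hc, hdown c _ _ le_sup_right hc⟩)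
    exact ⟨c, fun F hF => red_primes hp hΩ hθ hh n c (fun F h1 h2 => hc F ⟨h1, h2⟩) F hF⟩
  · obtain ⟨c, hc, -⟩ := huni H F F
    exact ⟨c, hc⟩
  · refine limit hp hr fun n => ?_
    obtain ⟨c, hc⟩ := helly hp hr h θ n (fun F => (∀ χ ∈ F.X, χ ^ p ^ n = 1) ∧ F.T.card ≤ r ∧
      IsCyclic F.X) (fun F hF => hF.1) (fun F F' hF hF' =>
        H F F' hF.2.2 hF'.2.2 hF.2.1 hF'.2.1)
    exact ⟨c, fun F hF => red_cyclic hp hΩ hθ hh n (Or.inl hrp) c
      (fun F h1 h2 h3 => hc F ⟨h1, h2, h3⟩) F hF⟩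
  · obtain ⟨c, hc⟩ := helly hp hr h θ 1 (fun F => (∀ χ ∈ F.X, χ ^ p ^ 1 = 1) ∧ F.T.card ≤ r ∧
      IsCyclic F.X) (fun F hF => hF.1) (fun F F' hF hF' =>
        H F F' hF.2.2 hF'.2.2 hF.2.1 hF'.2.1 (by simpa using hF.1) (by simpa using hF'.1))
    exact ⟨c, fun F hF => red_cyclic hp hΩ hθ hh 1 (Or.inr rfl) c
      (fun F h1 h2 h3 => hc F ⟨h1, h2, h3⟩) F (by simpa using hF)⟩
  · rintro ⟨c, hc⟩ F F' _ _ _ _ h1 h2
    exact ⟨_, hc F h1, hc F' h2⟩

end main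

end Pool.Agent.X252.MT
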