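import Mathlib

/-!
# Permutation modules of `p`-groups in characteristic `p`

If a module has two bases permuted by a group acting through a `p`-group, then the two bases have
the same number of fixed elements. We use the version in which one of the bases is replaced by the
orbit sums of a normal subgroup `U` on a permuted basis of a larger module.
-/

open scoped Classical

noncomputable section

namespace Pool.Agent.X252.NI

section sums

variable {Γ : Type} [Group Γ] [Finite Γ] {F : Type} [Field F] {p : ℕ} [Fact p.Prime] [CharP F p]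

/-- an invariant function vanishing on the fixed points has sum `0` -/
theorem sum_zero {Y : Type} [Fintype Y] [MulAction Γ Y] {U : Subgroup Γ} [U.Normal]
    (hU : IsPGroup p (Γ ⧸ U)) (hUY : ∀ u ∈ U, ∀ y : Y, u • y = y) (f : Y → F)
    (hf : ∀ (γ : Γ) (y : Y), f (γ • y) = f y) (h0 : ∀ y : Y, (∀ γ : Γ, γ • y = y) → f y = 0) :
    ∑ y, f y = 0 := by
  rw [Finset.sum_partition (MulAction.orbitRel Γ Y)]
  refine Finset.sum_eq_zero fun q _ => ?_
  obtain ⟨y0, rfl⟩ := Quotient.exists_rep q
  have h1 : ∀ y ∈ Finset.univ.filter (fun y : Y =>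
      (Quotient.mk (MulAction.orbitRel Γ Y) y) = Quotient.mk (MulAction.orbitRel Γ Y) y0),
      f y = f y0 := by
    intro y hy
    rw [Finset.mem_filter] at hy
    obtain ⟨γ, hγ⟩ := MulAction.orbitRel_apply.1 (Quotient.exact hy.2)
    rw [← hγ]
    exact hf γ y0
  rw [Finset.sum_congr rfl h1, Finset.sum_const]
  by_cases hfix : ∀ γ : Γ, γ • y0 = y0
  · rw [h0 y0 hfix, smul_zero]
  · have h2 : (Finset.univ.filter (fun y : Y =>
        (Quotient.mk (MulAction.orbitRel Γ Y) y) = Quotient.mk (MulAction.orbitRel Γ Y) y0)).card =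
        (MulAction.stabilizer Γ y0).index := by
      rw [MulAction.index_stabilizer, Set.ncard_eq_toFinset_card']
      congr 1
      ext y
      rw [Finset.mem_filter, Set.mem_toFinset, ← MulAction.orbitRel_apply, Quotient.eq]
      exact ⟨fun h => h.2, fun h => ⟨Finset.mem_univ _, h⟩⟩
    have h3 : U ≤ MulAction.stabilizer Γ y0 := fun u hu => hUY u hu y0
    obtain ⟨k, hk⟩ := IsPGroup.iff_card.1 hU
    have h4 : (MulAction.stabilizer Γ y0).index ∣ p ^ k := by
      rw [← hk]
      exact Subgroup.index_dvd_of_le h3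
    obtain ⟨j, _, hj⟩ := (Nat.dvd_prime_pow (Fact.out : p.Prime)).1 h4
    have h5 : j ≠ 0 := by
      rintro rfl
      rw [pow_zero, Subgroup.index_eq_one] at hj
      apply hfix
      intro γ
      have : γ ∈ MulAction.stabilizer Γ y0 := by rw [hj]; trivial
      exact this
    rw [h2, hj, nsmul_eq_mul, Nat.cast_pow, CharP.cast_eq_zero, zero_pow h5, zero_mul]

end sums

section perm

variable {Γ : Type} [Group Γ] {F E : Type} [Field F] [AddCommGroup E] [Module F E]

/-- the invariants of `V` -/
def invs (ρ : Γ → E →ₗ[F] E) (V : Submodule F E) : Submodule F E where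
  carrier := {v | v ∈ V ∧ ∀ γ, ρ γ v = v}
  add_mem' := by
    rintro a b ⟨ha, ha'⟩ ⟨hb, hb'⟩
    exact ⟨V.add_mem ha hb, fun γ => by rw [map_add, ha', hb']⟩
  zero_mem' := ⟨V.zero_mem, fun γ => map_zero _⟩
  smul_mem' := by
    rintro c a ⟨ha, ha'⟩
    exact ⟨V.smul_mem c ha, fun γ => by rw [map_smul, ha']⟩

/-- the invariants of `V` killed by all invariant functionals on `V` -/
def radi (ρ : Γ → E →ₗ[F] E) (V : Submodule F E) : Submodule F E where
  carrier := {v | v ∈ invs ρ V ∧ ∀ l : E →ₗ[F] F, (∀ γ, ∀ w ∈ V, l (ρ γ w) = l w) → l v = 0}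
  add_mem' := by
    rintro a b ⟨ha, ha'⟩ ⟨hb, hb'⟩
    exact ⟨Submodule.add_mem _ ha hb, fun l hl => by rw [map_add, ha' l hl, hb' l hl, add_zero]⟩
  zero_mem' := ⟨Submodule.zero_mem _, fun l _ => map_zero _⟩
  smul_mem' := by
    rintro c a ⟨ha, ha'⟩
    exact ⟨Submodule.smul_mem _ c ha, fun l hl => by rw [map_smul, ha' l hl, smul_zero]⟩

/-- coordinates with respect to a linearly independent family -/
theorem coords {I : Type} [Finite I] {b : I → E} (hb : LinearIndependent F b) :
    ∃ g : E →ₗ[F] (I → F), ∀ i, g (b i) = Pi.single i 1 := by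
  have : Fintype I := Fintype.ofFinite I
  obtain ⟨g, hg⟩ := LinearMap.exists_extend
    ((Finsupp.linearEquivFunOnFinite F F I).toLinearMap ∘ₗ hb.repr)
  refine ⟨g, fun i => ?_⟩
  have h1 := LinearMap.congr_fun hg ⟨b i, Submodule.subset_span ⟨i, rfl⟩⟩
  change g (b i) = _ at h1
  rw [h1, LinearMap.comp_apply, hb.repr_eq_single i _ rfl]
  funext j
  rw [LinearEquiv.coe_coe, Finsupp.linearEquivFunOnFinite_single]

theorem expand {I : Type} [Fintype I] {b : I → E} {g : E →ₗ[F] (I → F)}
    (hg : ∀ i, g (b i) = Pi.single i 1) {v : E} (hv : v ∈ Submodule.span F (Set.range b)) :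
    v = ∑ i, g v i • b i := by
  obtain ⟨a, rfl⟩ := (Submodule.mem_span_range_iff_exists_fun F).1 hv
  refine Finset.sum_congr rfl fun i _ => ?_
  congr 1
  rw [map_sum, Finset.sum_apply]
  rw [Finset.sum_eq_single i]
  · rw [map_smul, hg, Pi.smul_apply, Pi.single_eq_same, smul_eq_mul, mul_one]
  · intro j _ hj
    rw [map_smul, hg, Pi.smul_apply, Pi.single_eq_of_ne hj.symm, smul_zero]
  · intro h
    exact absurd (Finset.mem_univ i) h

variable [Finite Γ] {p : ℕ} [Fact p.Prime] [CharP F p] [FiniteDimensional F E]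

/-- fixed elements of a permutation basis -/
theorem fix_count (ρ : Γ → E →ₗ[F] E) {U : Subgroup Γ} [U.Normal] (hU : IsPGroup p (Γ ⧸ U))
    {I : Type} [Finite I] [MulAction Γ I] (hUI : ∀ u ∈ U, ∀ i : I, u • i = i) {b : I → E}
    (hb : LinearIndependent F b) (hρ : ∀ (γ : Γ) (i : I), ρ γ (b i) = b (γ • i))
    {V : Submodule F E} (hV : V = Submodule.span F (Set.range b)) :
    Module.finrank F (invs ρ V) =
      Module.finrank F (radi ρ V) + Nat.card {i : I // ∀ γ : Γ, γ • i = i} := by
  have : Fintype I := Fintype.ofFinite I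
  obtain ⟨g, hg⟩ := coords hb
  let K := {i : I // ∀ γ : Γ, γ • i = i}
  have : Fintype K := Fintype.ofFinite K
  let Φ : invs ρ V →ₗ[F] (K → F) :=
    (LinearMap.funLeft F F (Subtype.val : K → I)) ∘ₗ g ∘ₗ (invs ρ V).subtype
  have hΦ : ∀ (v : invs ρ V) (k : K), Φ v k = g v.1 k.1 := fun v k => rfl
  have hsurj : Function.Surjective Φ := by
    intro a
    refine ⟨⟨∑ k : K, a k • b k.1, ?_, fun γ => ?_⟩, ?_⟩
    · rw [hV]
      exact Submodule.sum_mem _ fun k _ => Submodule.smul_mem _ _
        (Submodule.subset_span ⟨k.1, rfl⟩)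
    · rw [map_sum]
      refine Finset.sum_congr rfl fun k _ => ?_
      rw [map_smul, hρ, k.2 γ]
    · funext k
      rw [hΦ]
      rw [map_sum, Finset.sum_apply, Finset.sum_eq_single k]
      · rw [map_smul, hg, Pi.smul_apply, Pi.single_eq_same, smul_eq_mul, mul_one]
      · intro j _ hj
        rw [map_smul, hg, Pi.smul_apply, Pi.single_eq_of_ne, smul_zero]
        intro h
        exact hj (Subtype.ext h.symm)
      · intro h
        exact absurd (Finset.mem_univ k) h
  have hker : LinearMap.ker Φ = (radi ρ V).comap (invs ρ V).subtype := by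
    ext v
    rw [LinearMap.mem_ker, Submodule.mem_comap]
    change Φ v = 0 ↔ (v.1 ∈ invs ρ V ∧ _)
    constructor
    · intro h
      refine ⟨v.2, fun l hl => ?_⟩
      have hvV : v.1 ∈ Submodule.span F (Set.range b) := by
        rw [← hV]
        exact v.2.1
      have h1 := expand hg hvV
      have hinv : ∀ (γ : Γ) (i : I), g v.1 (γ • i) = g v.1 i := by
        intro γ i
        have h2 : g (ρ γ v.1) (γ • i) = g v.1 i := by
          rw [h1, map_sum, map_sum, Finset.sum_apply, Finset.sum_eq_single i]
          · rw [map_smul, map_smul, hρ, hg, Pi.smul_apply, Pi.single_eq_same, smul_eq_mul,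
              mul_one, ← h1]
          · intro j _ hj
            rw [map_smul, map_smul, hρ, hg, Pi.smul_apply, Pi.single_eq_of_ne, smul_zero]
            intro h
            exact hj (MulAction.injective γ h.symm)
          · intro h
            exact absurd (Finset.mem_univ i) h
        rw [← h2, v.2.2 γ]
      change l v.1 = 0
      rw [h1, map_sum]
      have h3 : ∀ i : I, l (g v.1 i • b i) = g v.1 i * l (b i) := fun i => by
        rw [map_smul, smul_eq_mul]
      rw [Finset.sum_congr rfl fun i _ => h3 i]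
      refine sum_zero hU hUI _ (fun γ i => ?_) fun i hi => ?_
      · rw [hinv, ← hρ, hl γ (b i)]
        rw [hV]
        exact Submodule.subset_span ⟨i, rfl⟩
      · have h4 := congrFun h ⟨i, hi⟩
        rw [hΦ] at h4
        change g v.1 i = 0 at h4
        rw [h4, zero_mul]
    · rintro ⟨_, h⟩
      funext k
      rw [hΦ]
      refine h ((LinearMap.proj k.1) ∘ₗ g) fun γ w hw => ?_
      rw [hV] at hw
      induction hw using Submodule.span_induction with
      | mem x hx =>
        obtain ⟨i, rfl⟩ := hx
        rw [hρ, LinearMap.comp_apply, LinearMap.comp_apply, hg, hg, LinearMap.proj_apply,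
          LinearMap.proj_apply, Pi.single_apply, Pi.single_apply]
        refine if_congr ?_ rfl rfl
        constructor
        · intro h5
          have h6 : γ • k.1 = γ • i := (k.2 γ).trans h5
          exact MulAction.injective γ h6
        · intro h5
          rw [← h5, k.2 γ]
      | zero => rw [map_zero]
      | add x y _ _ hx hy => rw [map_add, map_add, map_add, hx, hy]
      | smul a x _ hx => rw [map_smul, map_smul, map_smul, hx]
  have h1 := LinearMap.finrank_range_add_finrank_ker Φ
  rw [LinearMap.range_eq_top.2 hsurj, finrank_top, Module.finrank_fintype_fun_eq_card, hker] at h1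
  have hle : radi ρ V ≤ invs ρ V := fun v hv => hv.1
  rw [(Submodule.comapSubtypeEquivOfLe hle).finrank_eq] at h1
  rw [← h1, Nat.card_eq_fintype_card, add_comm]

end perm

end Pool.Agent.X252.NI
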