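import Pool.Agent.X252.NIA

/-!
# Orbit sums of a normal subgroup
-/

set_option linter.unusedSectionVars false

open scoped Classical

noncomputable section

namespace Pool.Agent.X252.NI

section orb

variable {Γ : Type} [Group Γ] {J : Type} [MulAction Γ J]

/-- the orbits of `U` -/
@[reducible] def uset (U : Subgroup Γ) (J : Type) [MulAction Γ J] : Setoid J where
  r i j := ∃ u ∈ U, u • i = j
  iseqv :=
    { refl := fun i => ⟨1, U.one_mem, one_smul _ _⟩
      symm := by
        rintro i j ⟨u, hu, rfl⟩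
        exact ⟨u⁻¹, U.inv_mem hu, inv_smul_smul _ _⟩
      trans := by
        rintro i j k ⟨u, hu, rfl⟩ ⟨w, hw, rfl⟩
        exact ⟨w * u, U.mul_mem hw hu, mul_smul _ _ _⟩ }

/-- the set of orbits of `U` -/
def Orb (U : Subgroup Γ) (J : Type) [MulAction Γ J] : Type := Quotient (uset U J)

/-- the orbit of an element -/
def Orb.mk (U : Subgroup Γ) (j : J) : Orb U J := Quotient.mk (uset U J) j

lemma orb_eq (U : Subgroup Γ) {i j : J} : Orb.mk U i = Orb.mk U j ↔ ∃ u ∈ U, u • i = j :=
  ⟨fun h => Quotient.exact h, fun h => Quotient.sound h⟩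

lemma orb_surj (U : Subgroup Γ) (y : Orb U J) : ∃ j, Orb.mk U j = y := Quotient.exists_rep y

instance orbAct (U : Subgroup Γ) [hU : U.Normal] : MulAction Γ (Orb U J) where
  smul γ := Quotient.map (fun j => γ • j) (by
    rintro i j ⟨u, hu, rfl⟩
    refine ⟨γ * u * γ⁻¹, hU.conj_mem u hu γ, ?_⟩
    rw [mul_smul, mul_smul, inv_smul_smul])
  one_smul y := by
    obtain ⟨j, rfl⟩ := orb_surj U y
    exact congrArg (Orb.mk U) (one_smul Γ j)
  mul_smul γ δ y := by
    obtain ⟨j, rfl⟩ := orb_surj U y
    exact congrArg (Orb.mk U) (mul_smul γ δ j)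

lemma smul_mk (U : Subgroup Γ) [U.Normal] (γ : Γ) (j : J) :
    γ • Orb.mk U j = Orb.mk U (γ • j) := rfl

lemma orb_triv (U : Subgroup Γ) [U.Normal] (u : Γ) (hu : u ∈ U) (y : Orb U J) : u • y = y := by
  obtain ⟨j, rfl⟩ := orb_surj U y
  rw [smul_mk, orb_eq]
  exact ⟨u⁻¹, U.inv_mem hu, inv_smul_smul _ _⟩

lemma fix_iff (U : Subgroup Γ) [U.Normal] (j : J) :
    (∀ γ : Γ, γ • Orb.mk U j = Orb.mk U j) ↔ U ⊔ MulAction.stabilizer Γ j = ⊤ := by
  constructor
  · intro h
    rw [eq_top_iff]
    intro γ _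
    obtain ⟨u, hu, h1⟩ := (orb_eq U).1 (h γ)
    have h2 : u * γ ∈ MulAction.stabilizer Γ j := by
      rw [MulAction.mem_stabilizer_iff, mul_smul]
      exact h1
    have h3 : γ = u⁻¹ * (u * γ) := by group
    rw [h3]
    exact Subgroup.mul_mem_sup (U.inv_mem hu) h2
  · intro h γ
    have h1 : γ ∈ U ⊔ MulAction.stabilizer Γ j := by rw [h]; trivial
    rw [Subgroup.mem_sup_of_normal_left] at h1
    obtain ⟨u, hu, s, hs, rfl⟩ := h1
    rw [smul_mk, mul_smul, MulAction.mem_stabilizer_iff.1 hs, orb_eq]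
    exact ⟨u⁻¹, U.inv_mem hu, inv_smul_smul _ _⟩

instance orbFin (U : Subgroup Γ) [Finite J] : Finite (Orb U J) :=
  Finite.of_surjective (Orb.mk U) (orb_surj U)

/-- counting the fixed orbits -/
theorem count_fixed [Finite Γ] [Fintype J] (U : Subgroup Γ) [U.Normal] :
    Nat.card Γ * Nat.card {y : Orb U J // ∀ γ : Γ, γ • y = y} =
      ∑ j : J, if U ⊔ MulAction.stabilizer Γ j = ⊤ then
        Nat.card (MulAction.stabilizer Γ j) else 0 := by
  have : Fintype (Orb U J) := Fintype.ofFinite _
  rw [← Finset.sum_fiberwise Finset.univ (Orb.mk U)]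
  have h1 : ∀ y : Orb U J, (∑ j ∈ Finset.univ.filter (fun j : J => Orb.mk U j = y),
      if U ⊔ MulAction.stabilizer Γ j = ⊤ then Nat.card (MulAction.stabilizer Γ j) else 0) =
      if ∀ γ : Γ, γ • y = y then Nat.card Γ else 0 := by
    intro y
    by_cases hy : ∀ γ : Γ, γ • y = y
    · rw [if_pos hy]
      obtain ⟨j0, rfl⟩ := orb_surj U y
      have h2 : ∀ j ∈ Finset.univ.filter (fun j : J => Orb.mk U j = Orb.mk U j0),
          (if U ⊔ MulAction.stabilizer Γ j = ⊤ then Nat.card (MulAction.stabilizer Γ j) else 0) =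
            Nat.card (MulAction.stabilizer Γ j0) := by
        intro j hj
        rw [Finset.mem_filter] at hj
        have h3 : U ⊔ MulAction.stabilizer Γ j = ⊤ := by
          rw [← fix_iff, hj.2]
          exact hy
        rw [if_pos h3]
        obtain ⟨u, _, rfl⟩ := (orb_eq U).1 hj.2
        exact Nat.card_congr (MulAction.stabilizerEquivStabilizer (g := u) (a := j)
          (b := u • j) rfl).toEquiv
      rw [Finset.sum_congr rfl h2, Finset.sum_const, smul_eq_mul]
      have h3 : (Finset.univ.filter (fun j : J => Orb.mk U j = Orb.mk U j0)).card =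
          (MulAction.stabilizer Γ j0).index := by
        rw [MulAction.index_stabilizer, Set.ncard_eq_toFinset_card']
        congr 1
        ext j
        rw [Finset.mem_filter, Set.mem_toFinset]
        constructor
        · rintro ⟨_, h⟩
          obtain ⟨u, _, h4⟩ := (orb_eq U).1 h
          exact ⟨u⁻¹, by rw [← h4]; exact inv_smul_smul _ _⟩
        · rintro ⟨γ, rfl⟩
          exact ⟨Finset.mem_univ _, hy γ⟩
      rw [h3]
      exact Subgroup.index_mul_card _
    · rw [if_neg hy]
      refine Finset.sum_eq_zero fun j hj => ?_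
      rw [Finset.mem_filter] at hj
      rw [if_neg]
      intro h
      apply hy
      rw [← hj.2, fix_iff]
      exact h
  rw [Finset.sum_congr rfl fun y _ => h1 y, ← Finset.sum_filter, Finset.sum_const, smul_eq_mul,
    ← Fintype.card_subtype, ← Nat.card_eq_fintype_card, mul_comm]

variable {F E : Type} [Field F] [AddCommGroup E] [Module F E]

/-- the sum over an orbit of `U` -/
def osum [Fintype J] (U : Subgroup Γ) (b : J → E) (y : Orb U J) : E :=
  ∑ j : J, if Orb.mk U j = y then b j else 0

lemma sum_osum [Fintype J] (U : Subgroup Γ) [Fintype (Orb U J)] (b : J → E) (c : Orb U J → F) :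
    ∑ y, c y • osum U b y = ∑ j, c (Orb.mk U j) • b j := by
  have h1 : ∀ y, c y • osum U b y = ∑ j : J, if Orb.mk U j = y then c y • b j else 0 := by
    intro y
    unfold osum
    rw [Finset.smul_sum]
    refine Finset.sum_congr rfl fun j _ => ?_
    by_cases h : Orb.mk U j = y
    · rw [if_pos h, if_pos h]
    · rw [if_neg h, if_neg h, smul_zero]
  rw [Finset.sum_congr rfl fun y _ => h1 y, Finset.sum_comm]
  refine Finset.sum_congr rfl fun j _ => ?_
  rw [Finset.sum_ite_eq Finset.univ (Orb.mk U j) (fun y => c y • b j), if_pos (Finset.mem_univ _)]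

theorem osum_indep [Fintype J] (U : Subgroup Γ) {b : J → E} (hb : LinearIndependent F b) :
    LinearIndependent F (osum U b) := by
  have : Fintype (Orb U J) := Fintype.ofFinite _
  rw [Fintype.linearIndependent_iff]
  intro c hc y
  rw [sum_osum] at hc
  obtain ⟨j, rfl⟩ := orb_surj U y
  exact Fintype.linearIndependent_iff.1 hb _ hc j

theorem osum_act [Fintype J] (U : Subgroup Γ) [U.Normal] {b : J → E} (ρ : Γ → E →ₗ[F] E)
    (hρ : ∀ (γ : Γ) (j : J), ρ γ (b j) = b (γ • j)) (γ : Γ) (y : Orb U J) :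
    ρ γ (osum U b y) = osum U b (γ • y) := by
  unfold osum
  rw [map_sum]
  refine Finset.sum_equiv (MulAction.toPerm γ) (fun _ => by simp) fun j _ => ?_
  rw [MulAction.toPerm_apply, ← smul_mk]
  by_cases h : Orb.mk U j = y
  · rw [if_pos h, if_pos (by rw [h]), hρ]
  · rw [if_neg h, if_neg, map_zero]
    intro h1
    exact h (MulAction.injective γ h1)

theorem osum_span [Fintype J] (U : Subgroup Γ) [U.Normal] {b : J → E}
    (hb : LinearIndependent F b) (ρ : Γ → E →ₗ[F] E)
    (hρ : ∀ (γ : Γ) (j : J), ρ γ (b j) = b (γ • j)) (v : E) :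
    v ∈ Submodule.span F (Set.range (osum U b)) ↔
      v ∈ Submodule.span F (Set.range b) ∧ ∀ u ∈ U, ρ u v = v := by
  have : Fintype (Orb U J) := Fintype.ofFinite _
  obtain ⟨g, hg⟩ := coords hb
  constructor
  · intro hv
    induction hv using Submodule.span_induction with
    | mem x hx =>
      obtain ⟨y, rfl⟩ := hx
      refine ⟨Submodule.sum_mem _ fun j _ => ?_, fun u hu => ?_⟩
      · by_cases h : Orb.mk U j = y
        · rw [if_pos h]
          exact Submodule.subset_span ⟨j, rfl⟩
        · rw [if_neg h]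
          exact Submodule.zero_mem _
      · rw [osum_act U ρ hρ, orb_triv U u hu]
    | zero => exact ⟨Submodule.zero_mem _, fun u _ => map_zero _⟩
    | add x y _ _ hx hy =>
      exact ⟨Submodule.add_mem _ hx.1 hy.1, fun u hu => by rw [map_add, hx.2 u hu, hy.2 u hu]⟩
    | smul a x _ hx =>
      exact ⟨Submodule.smul_mem _ a hx.1, fun u hu => by rw [map_smul, hx.2 u hu]⟩
  · rintro ⟨hv, hinv⟩
    have h1 := expand hg hv
    have h2 : ∀ u ∈ U, ∀ j : J, g v (u • j) = g v j := by
      intro u hu j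
      have h3 : g (ρ u v) (u • j) = g v j := by
        rw [h1, map_sum, map_sum, Finset.sum_apply, Finset.sum_eq_single j]
        · rw [map_smul, map_smul, hρ, hg, Pi.smul_apply, Pi.single_eq_same, smul_eq_mul,
            mul_one, ← h1]
        · intro i _ hi
          rw [map_smul, map_smul, hρ, hg, Pi.smul_apply, Pi.single_eq_of_ne, smul_zero]
          intro h
          exact hi (MulAction.injective u h.symm)
        · intro h
          exact absurd (Finset.mem_univ j) h
      rw [← h3, hinv u hu]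
    let c : Orb U J → F := Quotient.lift (g v) (by
      rintro i j ⟨u, hu, rfl⟩
      exact (h2 u hu i).symm)
    have h3 : v = ∑ y, c y • osum U b y := by
      rw [sum_osum]
      exact h1
    rw [h3]
    exact Submodule.sum_mem _ fun y _ => Submodule.smul_mem _ _ (Submodule.subset_span ⟨y, rfl⟩)

/-- **Two permuted bases.** -/
theorem perm_main {p : ℕ} [Fact p.Prime] [CharP F p] [Finite Γ] [FiniteDimensional F E]
    (ρ : Γ → E →ₗ[F] E) {U : Subgroup Γ} [U.Normal] (hU : IsPGroup p (Γ ⧸ U))
    {I : Type} [Finite I] [MulAction Γ I] (hUI : ∀ u ∈ U, ∀ i : I, u • i = i) {b : I → E}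
    (hb : LinearIndependent F b) (hρ : ∀ (γ : Γ) (i : I), ρ γ (b i) = b (γ • i))
    [Fintype J] {b' : J → E} (hb' : LinearIndependent F b')
    (hρ' : ∀ (γ : Γ) (j : J), ρ γ (b' j) = b' (γ • j))
    (hV : ∀ v, v ∈ Submodule.span F (Set.range b) ↔
      v ∈ Submodule.span F (Set.range b') ∧ ∀ u ∈ U, ρ u v = v) :
    Nat.card Γ * Nat.card {i : I // ∀ γ : Γ, γ • i = i} =
      ∑ j : J, if U ⊔ MulAction.stabilizer Γ j = ⊤ then
        Nat.card (MulAction.stabilizer Γ j) else 0 := by
  have h1 := fix_count ρ hU hUI hb hρ rfl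
  have h2 : Submodule.span F (Set.range b) = Submodule.span F (Set.range (osum U b')) := by
    ext v
    rw [hV, osum_span U hb' ρ hρ']
  have h3 := fix_count ρ hU (orb_triv U) (osum_indep U hb') (osum_act U ρ hρ') h2
  rw [← count_fixed U]
  congr 1
  omega

end orb

end Pool.Agent.X252.NI
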