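import Pool.Agent.X252.NVM

/-!
# Irreducible traces of `p`-group extensions as an average

The theorem `orbits'` is the theorem `orbits` of `Pool/Agent/Y63/NV/Pell77.lean`, with the index `p`
replaced by a power of `p` (same proof).
-/

set_option linter.unusedSectionVars false

open scoped Classical

noncomputable section

namespace Pool.Agent.X252.NVM

open Pool.Agent.Y63.NV Pool.Agent.Y63.NV.B77 Pool.Agent.Y77.NV

variable {F : Type} [Field F]

section main

variable {p : ℕ} [Fact p.Prime] [CharP F p] [IsAlgClosed F] {Γ : Type} [Group Γ] [Finite Γ]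

/-- the orbits on the irreducible traces -/
theorem orbits' (h1 : S_IRR) (h2 : S_PPT) (h3 : S_SPAN) (h4 : S_SCHUR)
    (G : Subgroup Γ) [G.Normal] (z : Γ → F) (c : F) (hz : InZ G z)
    (hpG : IsPGroup p (Γ ⧸ G)) :
    letI := actX G z c hz
    Lnum (⊤ : Subgroup Γ) ⊤ z c = Nat.card (Quotient (MulAction.orbitRel Γ (XX G z c))) := by
  let _ := actX G z c hz
  have hET : Ext p (⊤ : Subgroup Γ) ⊤ z :=
    ⟨le_rfl, fun _ _ _ _ => trivial, fun _ _ => ⟨0, trivial⟩, fun h _ x => hz.conj h x,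
      fun x hx => absurd trivial hx⟩
  have hEG : Ext p G G z :=
    ⟨le_rfl, fun _ hh _ hn => G.mul_mem (G.mul_mem hh hn) (G.inv_mem hh),
      fun h hh => ⟨0, by rwa [pow_zero, pow_one]⟩, fun h _ x => hz.conj h x, hz.supp⟩
  have hS : S0 p (⊤ : Subgroup Γ) ⊤ = S0 p G G := by
    ext x
    constructor
    · rintro ⟨_, hx, _⟩
      exact ⟨Pool.Agent.X252.NVF.reg_mem Fact.out hpG hx, hx, fun h hh => ⟨h, hh, rfl⟩⟩
    · rintro ⟨_, hx, _⟩
      exact ⟨trivial, hx, fun h _ => ⟨h, trivial, rfl⟩⟩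
  rw [brq h1 h2 h3 h4 p F Γ ⊤ ⊤ z hET c, hS]
  have : Finite (Irr F G) := irr_fin h1
  have : Fintype (Irr F G) := Fintype.ofFinite _
  have hsup : ∀ h ∈ G, ∃ n ∈ G, ∃ r ∈ (⊥ : Subgroup Γ), h = n * r := fun h hh =>
    ⟨h, hh, 1, Subgroup.one_mem _, by rw [mul_one]⟩
  have hbot : IsPGroup p (⊥ : Subgroup Γ) := IsPGroup.of_bot
  have hinv : ∀ φ : Irr F G, IsInvUnder G φ.1 := by
    intro φ h hh x y hxy
    have h5 : y = ⟨h, hh⟩ * x * (⟨h, hh⟩ : G)⁻¹ := Subtype.ext hxy
    rw [h5, irr_conj φ.2]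
  have hli : LinearIndependent F (fun φ : Irr F G => res p G G φ.1) :=
    (claimC hEG h1 h2 h3 bot_le hbot hsup).comp (fun φ : Irr F G => ⟨φ, hinv φ⟩)
      (fun a b h => congrArg Subtype.val h)
  have hsp : VS (F := F) (S0 p G G) G =
      Submodule.span F (Set.range (fun φ : Irr F G => res p G G φ.1)) := by
    apply le_antisymm
    · intro θ hθ
      refine Submodule.span_mono ?_ (claimD hEG h1 h3 bot_le hbot hsup θ hθ)
      rintro _ ⟨φ, rfl⟩
      exact ⟨φ.1, rfl⟩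
    · rw [Submodule.span_le]
      rintro _ ⟨φ, rfl⟩
      exact res_mem hEG (hinv φ)
  have hzc : IsClassFun (fun g : G => z g) := fun g x => hz.conj g x
  have h5 : ∀ φ : Irr F G, ∃ l : F, ∀ x : G, ∑ᶠ g : G, z g * φ.1 (g * x) = l * φ.1 x := by
    intro φ
    obtain ⟨_, B, _, hB⟩ := h4 F G φ.1 φ.2
    exact ⟨B (fun g : G => z g), hB _ hzc⟩
  choose lam hlam using h5
  have hne : ∀ φ : Irr F G, ∃ x, φ.1 x ≠ 0 := fun φ => (h4 F G φ.1 φ.2).1
  have hlamc : ∀ φ : Irr F G, lam φ = c ↔ ∀ x : G, ∑ᶠ g : G, z g * φ.1 (g * x) = c * φ.1 x := by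
    intro φ
    constructor
    · intro h x
      rw [hlam, h]
    · intro h
      obtain ⟨x, hx⟩ := hne φ
      exact mul_right_cancel₀ hx ((hlam φ x).symm.trans (h x))
  set T := Top p z (S0 p G G) with hT
  have hTb : ∀ φ : Irr F G, T (res p G G φ.1) = lam φ • res p G G φ.1 := by
    intro φ
    funext x
    change Tfun p z (S0 p G G) (res p G G φ.1) x = lam φ * res p G G φ.1 x
    by_cases hx : x ∈ S0 p G G
    · rw [Tfun, if_pos hx, claimB hEG h2 φ (hinv φ) hx, hlam, res, dif_pos hx]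
    · rw [Tfun, if_neg hx, res, dif_neg hx, mul_zero]
  have hpow : ∀ (k : ℕ) (φ : Irr F G), ((T - c • (1 : Module.End F (Γ → F))) ^ k)
      (res p G G φ.1) = (lam φ - c) ^ k • res p G G φ.1 := by
    intro k
    induction k with
    | zero => intro i; simp
    | succ k ih =>
      intro i
      rw [pow_succ', Module.End.mul_apply, ih i, map_smul, LinearMap.sub_apply, hTb i,
        LinearMap.smul_apply, Module.End.one_apply, ← sub_smul, smul_smul, pow_succ]
  let cjL : Γ → (Γ → F) →ₗ[F] (Γ → F) := fun γ => LinearMap.funLeft F F (fun x => γ⁻¹ * x * γ)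
  have hcj : ∀ γ θ x, cjL γ θ x = θ (γ⁻¹ * x * γ) := fun _ _ _ => rfl
  have hS0c : ∀ (γ x : Γ), γ⁻¹ * x * γ ∈ S0 p G G ↔ x ∈ S0 p G G := by
    intro γ x
    rw [← hS]
    constructor
    · intro hx
      have h6 := S0_conj hET hx (h := γ) trivial
      have h7 : γ * (γ⁻¹ * x * γ) * γ⁻¹ = x := by group
      rwa [h7] at h6
    · intro hx
      have h6 := S0_conj hET hx (h := γ⁻¹) trivial
      rwa [inv_inv] at h6
  have hres : ∀ (γ : Γ) (φ : XX G z c), cjL γ (res p G G φ.1.1) =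
      res p G G (γ • φ).1.1 := by
    intro γ φ
    funext x
    rw [hcj]
    by_cases hx : x ∈ S0 p G G
    · have hx' := (hS0c γ x).2 hx
      rw [res, dif_pos hx', res, dif_pos hx]
      change _ = φ.1.1 ((MulAut.conjNormal γ).symm ⟨x, hx.1⟩)
      refine congrArg φ.1.1 (Subtype.ext ?_)
      rw [MulAut.conjNormal_symm_apply]
    · have hx' : ¬ γ⁻¹ * x * γ ∈ S0 p G G := fun h => hx ((hS0c γ x).1 h)
      rw [res, dif_neg hx', res, dif_neg hx]
  refine orb (Γ := Γ) (ι := XX G z c) cjL _ (fun φ => res p G G φ.1.1)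
    (hli.comp _ (Subtype.val_injective (p := fun φ : Irr F G =>
      ∀ x : G, ∑ᶠ g : G, z g * φ.1 (g * x) = c * φ.1 x))) hres ?_
  intro v
  constructor
  · rintro ⟨hv1, hv2⟩
    have hv3 : ∀ γ, cjL γ v = v := by
      intro γ
      funext x
      rw [hcj]
      have h6 := hv1.2 γ⁻¹ trivial x
      rwa [inv_inv] at h6
    refine ⟨?_, hv3⟩
    have hv4 : v ∈ VS (F := F) (S0 p G G) G := ⟨hv1.1, fun j _ x => hv1.2 j trivial x⟩
    rw [hsp] at hv4
    obtain ⟨a, rfl⟩ := (Submodule.mem_span_range_iff_exists_fun F).1 hv4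
    obtain ⟨k, hk⟩ := (Module.End.mem_maxGenEigenspace T c _).1 hv2
    rw [map_sum] at hk
    simp only [map_smul, hpow, smul_smul] at hk
    have h0 := Fintype.linearIndependent_iff.1 hli _ hk
    refine Submodule.sum_mem _ fun i _ => ?_
    by_cases hi : lam i = c
    · exact Submodule.smul_mem _ _ (Submodule.subset_span ⟨⟨i, (hlamc i).1 hi⟩, rfl⟩)
    · have h1 : a i = 0 := by
        rcases mul_eq_zero.1 (h0 i) with h | h
        · exact h
        · exact absurd (sub_eq_zero.1 (eq_zero_of_pow_eq_zero h)) hi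
      rw [h1, zero_smul]
      exact Submodule.zero_mem _
  · rintro ⟨hv1, hv2⟩
    have hv3 : v ∈ VS (F := F) (S0 p G G) G ⊓ T.maxGenEigenspace c := by
      refine (Submodule.span_le.2 ?_) hv1
      rintro _ ⟨φ, rfl⟩
      refine ⟨res_mem hEG (hinv φ.1), ?_⟩
      refine (Module.End.mem_maxGenEigenspace T c _).2 ⟨1, ?_⟩
      rw [hpow, (hlamc φ.1).2 φ.2, sub_self, pow_one, zero_smul]
    refine ⟨⟨hv3.1.1, fun j _ x => ?_⟩, hv3.2⟩
    have h6 := congrFun (hv2 j⁻¹) x
    rw [hcj, inv_inv] at h6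
    exact h6


theorem lnum_sub {G D : Subgroup Γ} [G.Normal] (hGD : G ≤ D) (z : Γ → F) (c : F) :
    Lnum (G.subgroupOf D) ⊤ (fun x : D => z x) c = Lnum G D z c := by
  let e : ↥(G.subgroupOf D) ≃* ↥G := Subgroup.subgroupOfEquivOfLe hGD
  refine Pool.Agent.Y210.NV2.lnum_congr _ _ _ _ _ _ c e (fun _ => rfl) fun φ => ⟨?_, ?_⟩
  · intro h g _ x y hxy
    exact h g.1 g.2 (e x) (e y) (congrArg Subtype.val hxy)
  · intro h g hg x y hxy
    have := h ⟨g, hg⟩ trivial (e.symm x) (e.symm y) (Subtype.ext hxy)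
    simpa only [e.apply_symm_apply] using this

/-- the invariant traces as fixed points -/
theorem lnum_fixed (G : Subgroup Γ) [G.Normal] (z : Γ → F) (c : F) (hz : InZ G z) (γ : Γ) :
    letI := actX G z c hz
    Lnum G (G ⊔ Subgroup.zpowers γ) z c = Nat.card (MulAction.fixedBy (XX G z c) γ) := by
  let _ := actX G z c hz
  refine Nat.card_congr
    { toFun := fun φ => ⟨⟨⟨φ.1, φ.2.1⟩, φ.2.2.2⟩, ?_⟩
      invFun := fun φ => ⟨φ.1.1.1, φ.1.1.2, ?_, φ.1.2⟩
      left_inv := fun φ => rfl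
      right_inv := fun φ => rfl }
  · refine Subtype.ext (Subtype.ext (funext fun x => ?_))
    change φ.1 ((MulAut.conjNormal γ).symm x) = φ.1 x
    refine (φ.2.2.1 γ (le_sup_right (a := G) (Subgroup.mem_zpowers γ)) _ _ ?_).symm
    rw [MulAut.conjNormal_symm_apply]
    group
  · have hst : G ⊔ Subgroup.zpowers γ ≤ MulAction.stabilizer Γ φ.1 := by
      refine sup_le ?_ ?_
      · intro g hg
        rw [MulAction.mem_stabilizer_iff]
        refine Subtype.ext (Subtype.ext (funext fun x => ?_))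
        change φ.1.1.1 ((MulAut.conjNormal g).symm x) = φ.1.1.1 x
        have h5 : (MulAut.conjNormal g).symm x = (⟨g, hg⟩ : G)⁻¹ * x * (⟨g, hg⟩ : G)⁻¹⁻¹ := by
          refine Subtype.ext ?_
          rw [MulAut.conjNormal_symm_apply, inv_inv]
          rfl
        rw [h5, irr_conj φ.1.1.2]
      · rw [Subgroup.zpowers_le]
        exact φ.2
    intro g hg x y hxy
    have h5 := congrArg (fun ψ : XX G z c => ψ.1.1 y) (hst hg)
    change φ.1.1.1 ((MulAut.conjNormal g).symm y) = φ.1.1.1 y at h5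
    rw [← h5]
    refine congrArg φ.1.1.1 (Subtype.ext ?_)
    rw [MulAut.conjNormal_symm_apply, hxy]
    group

/-- **The traces.** -/
theorem mean_L (G : Subgroup Γ) [G.Normal] (hpG : IsPGroup p (Γ ⧸ G)) {z : Γ → F}
    (hz : InZ G z) (c : F) [Fintype Γ] :
    Nat.card Γ * Lnum (⊤ : Subgroup Γ) ⊤ z c = ∑ γ : Γ,
      Lnum (G.subgroupOf (G ⊔ Subgroup.zpowers γ)) ⊤
        (fun x : ↥(G ⊔ Subgroup.zpowers γ) => z x) c := by
  let _ := actX G z c hz
  have h1 : S_IRR := Pool.Agent.Y914.NV.irr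
  have hfi : Finite (Irr F G) := irr_fin h1
  have : Fintype (XX G z c) := Fintype.ofFinite _
  have : Fintype (Quotient (MulAction.orbitRel Γ (XX G z c))) := Fintype.ofFinite _
  rw [orbits' h1 Pool.Agent.Y705.NV.ppt span' schur' G z c hz hpG]
  have h := MulAction.sum_card_fixedBy_eq_card_orbits_mul_card_group Γ (XX G z c)
  rw [mul_comm, Nat.card_eq_fintype_card, Nat.card_eq_fintype_card, ← h]
  refine Finset.sum_congr rfl fun γ _ => ?_
  rw [lnum_sub le_sup_left, lnum_fixed G z c hz γ, Nat.card_eq_fintype_card]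

/-- the subgroups of a finite group -/
local instance fsub' {Γ : Type} [Group Γ] [Finite Γ] : Fintype (Subgroup Γ) := Fintype.ofFinite _

/-- the sum over the classes of weights -/
def wcl (p : ℕ) (red : integralClosure ℤ ℂ →+* F) {H : Type} [Group H] (K : Subgroup H)
    (z : H → F) (c : F) : ℕ :=
  ∑ᶠ d : Quotient (Pool.Agent.Y63.AWC.pSubgroupSetoid p H),
    if K ⊔ d.out.1 = ⊤ then
      Nw p red (d.out.1.subgroupOf (Subgroup.normalizer (d.out.1 : Set H))) (fun x => z x) c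
    else 0

/-- **The weights.** -/
theorem mean_W (red : integralClosure ℤ ℂ →+* F) (G : Subgroup Γ) [G.Normal]
    (hpG : IsPGroup p (Γ ⧸ G)) {z : Γ → F} (hz : InZ G z) (c : F) [Fintype Γ] :
    (Nat.card Γ : ℤ) * wcl p red (⊤ : Subgroup Γ) z c = ∑ γ : Γ,
      (wcl p red (G.subgroupOf (G ⊔ Subgroup.zpowers γ))
        (fun x : ↥(G ⊔ Subgroup.zpowers γ) => z x) c : ℤ) := by
  have hpos : (Nat.card Γ : ℤ) ≠ 0 := by exact_mod_cast Nat.card_pos.ne'
  refine mul_left_cancel₀ hpos ?_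
  have e1 : ∀ γ : Γ, (Nat.card Γ : ℤ) * (wcl p red (G.subgroupOf (G ⊔ Subgroup.zpowers γ))
        (fun x : ↥(G ⊔ Subgroup.zpowers γ) => z x) c : ℤ) =
      ((∑ Q : Subgroup Γ, if IsPGroup p Q then
        kap G (G ⊔ Subgroup.zpowers γ) Q * Pool.Agent.Y487.NV.wl p red z c Q else 0 : ℕ) : ℤ) := by
    intro γ
    rw [heart red (Nat.card Γ) Γ G (G ⊔ Subgroup.zpowers γ) z c le_rfl hpG le_sup_left hz,
      Pool.Agent.X252.NVC.wsum_classes (p := p) red
        (G.subgroupOf (G ⊔ Subgroup.zpowers γ)) (z := fun x : ↥(G ⊔ Subgroup.zpowers γ) => z x)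
        (fun g x => hz.conj g x) c, ← mul_assoc]
    have h2 : ((G ⊔ Subgroup.zpowers γ).index : ℤ) * Nat.card ↥(G ⊔ Subgroup.zpowers γ) =
        Nat.card Γ := by exact_mod_cast Subgroup.index_mul_card _
    rw [h2]
    rfl
  have e2 : (Nat.card Γ : ℤ) * (wcl p red (⊤ : Subgroup Γ) z c : ℤ) =
      ((∑ Q : Subgroup Γ, if IsPGroup p Q then Pool.Agent.Y487.NV.wl p red z c Q else 0 : ℕ) : ℤ) := by
    have h2 := Pool.Agent.X252.NVC.wsum_classes (p := p) red (⊤ : Subgroup Γ) hz.conj c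
    have h3 := Pool.Agent.Y487.NV.wsum_eq (p := p) red (⊤ : Subgroup Γ) z c
    rw [h2] at h3
    refine h3.trans ?_
    congr 1
    refine Finset.sum_congr rfl fun Q _ => ?_
    simp only [top_sup_eq, and_true]
  rw [e2, Finset.mul_sum, Finset.sum_congr rfl fun γ _ => e1 γ, ← Nat.cast_sum,
    Finset.sum_comm, ← Nat.cast_mul, Finset.mul_sum]
  congr 1
  refine Finset.sum_congr rfl fun Q _ => ?_
  by_cases hQ : IsPGroup p Q
  · simp only [if_pos hQ]
    rw [← Finset.sum_mul]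
    congr 1
    have e3 : ∀ γ : Γ, kap G (G ⊔ Subgroup.zpowers γ) Q =
        if γ ∈ G ⊔ Q then (G ⊔ Q).index else 0 := by
      intro γ
      unfold kap
      refine if_congr ?_ rfl rfl
      rw [sup_le_iff, Subgroup.zpowers_le]
      exact ⟨fun h => h.2, fun h => ⟨le_sup_left, h⟩⟩
    rw [Finset.sum_congr rfl fun γ _ => e3 γ, ← Finset.sum_filter, Finset.sum_const,
      smul_eq_mul, ← Fintype.card_subtype, ← Nat.card_eq_fintype_card]
    exact (Subgroup.card_mul_index (G ⊔ Q)).symm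
  · simp only [if_neg hQ]
    rw [Finset.sum_const_zero, mul_zero]

end main

end Pool.Agent.X252.NVM
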