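import Pool.Agent.X252.NIB
import Pool.Agent.X252.NVL

/-!
# Invariant irreducible traces of an intermediate normal subgroup
-/

set_option linter.unusedSectionVars false

open scoped Classical

noncomputable section

namespace Pool.Agent.X252.NI

open Pool.Agent.Y63.NV Pool.Agent.Y63.NV.B77 Pool.Agent.Y77.NV

variable {F : Type} [Field F] {Γ : Type} [Group Γ] [Finite Γ]

/-- conjugation of functions -/
def cjl (γ : Γ) : (Γ → F) →ₗ[F] (Γ → F) := LinearMap.funLeft F F (fun x => γ⁻¹ * x * γ)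

lemma cjl_apply (γ : Γ) (θ : Γ → F) (x : Γ) : cjl γ θ x = θ (γ⁻¹ * x * γ) := rfl

lemma mem_S0 {p : ℕ} {N : Subgroup Γ} {x : Γ} : x ∈ S0 p N N ↔ x ∈ N ∧ ¬ p ∣ orderOf x :=
  ⟨fun h => ⟨h.1, h.2.1⟩, fun h => ⟨h.1, h.2, fun y hy => ⟨y, hy, rfl⟩⟩⟩

lemma S0_conj_iff {p : ℕ} {N : Subgroup Γ} [hN : N.Normal] (γ x : Γ) :
    γ⁻¹ * x * γ ∈ S0 p N N ↔ x ∈ S0 p N N := by
  have h1 : orderOf (γ⁻¹ * x * γ) = orderOf x := by
    have h2 := orderOf_injective (MulAut.conj γ⁻¹).toMonoidHom (MulAut.conj γ⁻¹).injective x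
    simpa using h2
  rw [mem_S0, mem_S0, h1]
  refine and_congr_left fun _ => ⟨fun h => ?_, fun h => ?_⟩
  · have h3 := hN.conj_mem _ h γ
    have h4 : γ * (γ⁻¹ * x * γ) * γ⁻¹ = x := by group
    rwa [h4] at h3
  · have h3 := hN.conj_mem _ h γ⁻¹
    rwa [inv_inv] at h3

variable {p : ℕ} [Fact p.Prime] [CharP F p] [IsAlgClosed F]

/-- the irreducible traces of `N` with value `c` at `z`, as a permuted basis -/
theorem spanXX (N : Subgroup Γ) [N.Normal] (z : Γ → F) (c : F) (hz : InZ N z) :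
    letI := actX N z c hz
    LinearIndependent F (fun φ : XX N z c => res p N N φ.1.1) ∧
    (∀ (γ : Γ) (φ : XX N z c), cjl γ (res p N N φ.1.1) = res p N N (γ • φ).1.1) ∧
    ∀ v : Γ → F, v ∈ Submodule.span F (Set.range (fun φ : XX N z c => res p N N φ.1.1)) ↔
      v ∈ VS (F := F) (S0 p N N) N ∧ v ∈ (Top p z (S0 p N N)).maxGenEigenspace c := by
  let _ := actX N z c hz
  have h1 : S_IRR := Pool.Agent.Y914.NV.irr
  have h2 : S_PPT := Pool.Agent.Y705.NV.ppt
  have h3 : S_SPAN := span'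
  have h4 : S_SCHUR := schur'
  have hEG : Ext p N N z :=
    ⟨le_rfl, fun _ hh _ hn => N.mul_mem (N.mul_mem hh hn) (N.inv_mem hh),
      fun h hh => ⟨0, by rwa [pow_zero, pow_one]⟩, fun h _ x => hz.conj h x, hz.supp⟩
  have : Finite (Irr F N) := irr_fin h1
  have : Fintype (Irr F N) := Fintype.ofFinite _
  have hsup : ∀ h ∈ N, ∃ n ∈ N, ∃ r ∈ (⊥ : Subgroup Γ), h = n * r := fun h hh =>
    ⟨h, hh, 1, Subgroup.one_mem _, by rw [mul_one]⟩
  have hbot : IsPGroup p (⊥ : Subgroup Γ) := IsPGroup.of_bot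
  have hinv : ∀ φ : Irr F N, IsInvUnder N φ.1 := by
    intro φ h hh x y hxy
    have h5 : y = ⟨h, hh⟩ * x * (⟨h, hh⟩ : N)⁻¹ := Subtype.ext hxy
    rw [h5, irr_conj φ.2]
  have hli : LinearIndependent F (fun φ : Irr F N => res p N N φ.1) :=
    (claimC hEG h1 h2 h3 bot_le hbot hsup).comp (fun φ : Irr F N => ⟨φ, hinv φ⟩)
      (fun a b h => congrArg Subtype.val h)
  have hsp : VS (F := F) (S0 p N N) N =
      Submodule.span F (Set.range (fun φ : Irr F N => res p N N φ.1)) := by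
    apply le_antisymm
    · intro θ hθ
      refine Submodule.span_mono ?_ (claimD hEG h1 h3 bot_le hbot hsup θ hθ)
      rintro _ ⟨φ, rfl⟩
      exact ⟨φ.1, rfl⟩
    · rw [Submodule.span_le]
      rintro _ ⟨φ, rfl⟩
      exact res_mem hEG (hinv φ)
  have hzc : IsClassFun (fun g : N => z g) := fun g x => hz.conj g x
  have h5 : ∀ φ : Irr F N, ∃ l : F, ∀ x : N, ∑ᶠ g : N, z g * φ.1 (g * x) = l * φ.1 x := by
    intro φ
    obtain ⟨_, B, _, hB⟩ := h4 F N φ.1 φ.2
    exact ⟨B (fun g : N => z g), hB _ hzc⟩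
  choose lam hlam using h5
  have hne : ∀ φ : Irr F N, ∃ x, φ.1 x ≠ 0 := fun φ => (h4 F N φ.1 φ.2).1
  have hlamc : ∀ φ : Irr F N, lam φ = c ↔ ∀ x : N, ∑ᶠ g : N, z g * φ.1 (g * x) = c * φ.1 x := by
    intro φ
    constructor
    · intro h x
      rw [hlam, h]
    · intro h
      obtain ⟨x, hx⟩ := hne φ
      exact mul_right_cancel₀ hx ((hlam φ x).symm.trans (h x))
  set T := Top p z (S0 p N N) with hT
  have hTb : ∀ φ : Irr F N, T (res p N N φ.1) = lam φ • res p N N φ.1 := by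
    intro φ
    funext x
    change Tfun p z (S0 p N N) (res p N N φ.1) x = lam φ * res p N N φ.1 x
    by_cases hx : x ∈ S0 p N N
    · rw [Tfun, if_pos hx, claimB hEG h2 φ (hinv φ) hx, hlam, res, dif_pos hx]
    · rw [Tfun, if_neg hx, res, dif_neg hx, mul_zero]
  have hpow : ∀ (k : ℕ) (φ : Irr F N), ((T - c • (1 : Module.End F (Γ → F))) ^ k)
      (res p N N φ.1) = (lam φ - c) ^ k • res p N N φ.1 := by
    intro k
    induction k with
    | zero => intro i; simp
    | succ k ih =>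
      intro i
      rw [pow_succ', Module.End.mul_apply, ih i, map_smul, LinearMap.sub_apply, hTb i,
        LinearMap.smul_apply, Module.End.one_apply, ← sub_smul, smul_smul, pow_succ]
  refine ⟨hli.comp _ (Subtype.val_injective (p := fun φ : Irr F N =>
      ∀ x : N, ∑ᶠ g : N, z g * φ.1 (g * x) = c * φ.1 x)), fun γ φ => ?_, fun v => ?_⟩
  · funext x
    rw [cjl_apply]
    by_cases hx : x ∈ S0 p N N
    · have hx' := (S0_conj_iff γ x).2 hx
      rw [res, dif_pos hx', res, dif_pos hx]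
      change _ = φ.1.1 ((MulAut.conjNormal γ).symm ⟨x, hx.1⟩)
      refine congrArg φ.1.1 (Subtype.ext ?_)
      rw [MulAut.conjNormal_symm_apply]
    · have hx' : ¬ γ⁻¹ * x * γ ∈ S0 p N N := fun h => hx ((S0_conj_iff γ x).1 h)
      rw [res, dif_neg hx', res, dif_neg hx]
  · constructor
    · intro hv1
      refine (Submodule.span_le (p := VS (F := F) (S0 p N N) N ⊓ T.maxGenEigenspace c)).2 ?_ hv1
      rintro _ ⟨φ, rfl⟩
      refine ⟨res_mem hEG (hinv φ.1), ?_⟩
      refine (Module.End.mem_maxGenEigenspace T c _).2 ⟨1, ?_⟩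
      rw [hpow, (hlamc φ.1).2 φ.2, sub_self, pow_one, zero_smul]
    · rintro ⟨hv4, hv2⟩
      rw [hsp] at hv4
      obtain ⟨a, rfl⟩ := (Submodule.mem_span_range_iff_exists_fun F).1 hv4
      obtain ⟨k, hk⟩ := (Module.End.mem_maxGenEigenspace T c _).1 hv2
      rw [map_sum] at hk
      simp only [map_smul, hpow, smul_smul] at hk
      have h0 := Fintype.linearIndependent_iff.1 hli _ hk
      refine Submodule.sum_mem _ fun i _ => ?_
      by_cases hi : lam i = c
      · exact Submodule.smul_mem _ _ (Submodule.subset_span ⟨⟨i, (hlamc i).1 hi⟩, rfl⟩)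
      · have h1 : a i = 0 := by
          rcases mul_eq_zero.1 (h0 i) with h | h
          · exact h
          · exact absurd (sub_eq_zero.1 (eq_zero_of_pow_eq_zero h)) hi
        rw [h1, zero_smul]
        exact Submodule.zero_mem _

/-- the group `N` acts trivially on its irreducible traces -/
theorem triv_act (N : Subgroup Γ) [N.Normal] (z : Γ → F) (c : F) (hz : InZ N z) :
    letI := actX N z c hz
    ∀ u ∈ N, ∀ φ : XX N z c, u • φ = φ := by
  intro u hu φ
  refine Subtype.ext (Subtype.ext (funext fun x => ?_))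
  change φ.1.1 ((MulAut.conjNormal u).symm x) = φ.1.1 x
  have h5 : (MulAut.conjNormal u).symm x = (⟨u, hu⟩ : N)⁻¹ * x * (⟨u, hu⟩ : N)⁻¹⁻¹ := by
    refine Subtype.ext ?_
    rw [MulAut.conjNormal_symm_apply, inv_inv]
    rfl
  rw [h5, irr_conj φ.1.2]

/-- invariance under a subgroup `K` -/
theorem inv_iff (N K : Subgroup Γ) [N.Normal] (z : Γ → F) (c : F) (hz : InZ N z) (φ : XX N z c) :
    letI := actX N z c hz
    IsInvUnder K φ.1.1 ↔ K ≤ MulAction.stabilizer Γ φ := by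
  let _ := actX N z c hz
  constructor
  · intro h k hk
    rw [MulAction.mem_stabilizer_iff]
    refine Subtype.ext (Subtype.ext (funext fun x => ?_))
    change φ.1.1 ((MulAut.conjNormal k).symm x) = φ.1.1 x
    refine (h k hk _ _ ?_).symm
    rw [MulAut.conjNormal_symm_apply]
    group
  · intro hst g hg x y hxy
    have h5 := congrArg (fun ψ : XX N z c => ψ.1.1 y) (hst hg)
    change φ.1.1 ((MulAut.conjNormal g).symm y) = φ.1.1 y at h5
    rw [← h5]
    refine congrArg φ.1.1 (Subtype.ext ?_)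
    rw [MulAut.conjNormal_symm_apply, hxy]
    group

/-- counting invariant traces -/
theorem lnum_card (N K : Subgroup Γ) [N.Normal] (z : Γ → F) (c : F) (hz : InZ N z) :
    letI := actX N z c hz
    Lnum N K z c = Nat.card {φ : XX N z c // K ≤ MulAction.stabilizer Γ φ} := by
  let _ := actX N z c hz
  refine Nat.card_congr
    { toFun := fun φ => ⟨⟨⟨φ.1, φ.2.1⟩, φ.2.2.2⟩, (inv_iff N K z c hz ⟨⟨φ.1, φ.2.1⟩, φ.2.2.2⟩).1
        φ.2.2.1⟩
      invFun := fun φ => ⟨φ.1.1.1, φ.1.1.2, (inv_iff N K z c hz φ.1).2 φ.2, φ.1.2⟩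
      left_inv := fun φ => rfl
      right_inv := fun φ => rfl }

theorem finXX (N : Subgroup Γ) (z : Γ → F) (c : F) : Finite (XX N z c) := by
  have : Finite (Irr F N) := irr_fin (Pool.Agent.Y914.NV.irr)
  infer_instance

/-- **The invariant traces of `U` in terms of the traces of `G`.** -/
theorem lnum_mid {G U : Subgroup Γ} [G.Normal] [U.Normal] (hGU : G ≤ U)
    (hp : IsPGroup p (Γ ⧸ G)) {z : Γ → F} (hz : InZ G z) (c : F) [Fintype (XX G z c)] :
    letI := actX G z c hz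
    Nat.card Γ * Lnum U ⊤ z c = ∑ φ : XX G z c, if U ⊔ MulAction.stabilizer Γ φ = ⊤ then
      Nat.card (MulAction.stabilizer Γ φ) else 0 := by
  have hzU : InZ U z := Pool.Agent.X252.NVU.InZ.mono hGU hz
  let i1 := actX G z c hz
  let i2 := actX U z c hzU
  have hfU : Finite (XX U z c) := finXX U z c
  have hpU : IsPGroup p (Γ ⧸ U) := by
    intro x
    obtain ⟨g, rfl⟩ := QuotientGroup.mk_surjective x
    obtain ⟨k, hk⟩ := hp ((g : Γ) : Γ ⧸ G)
    refine ⟨k, ?_⟩
    rw [← QuotientGroup.mk_pow, QuotientGroup.eq_one_iff] at hk ⊢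
    exact hGU hk
  obtain ⟨hb, hρ, hs⟩ := spanXX (p := p) U z c hzU
  obtain ⟨hb', hρ', hs'⟩ := spanXX (p := p) G z c hz
  have hS : S0 p U U = S0 p G G := by
    ext x
    rw [mem_S0, mem_S0]
    exact ⟨fun h => ⟨Pool.Agent.X252.NVF.reg_mem Fact.out hp h.2, h.2⟩, fun h => ⟨hGU h.1, h.2⟩⟩
  have hmain := perm_main (I := XX U z c) (J := XX G z c) (fun γ : Γ => cjl (F := F) γ) hpU
    (triv_act U z c hzU) hb hρ hb' hρ' (fun v => by
      rw [hs, hs', hS]
      constructor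
      · rintro ⟨h1, h2⟩
        refine ⟨⟨⟨h1.1, fun h hh x => h1.2 h (hGU hh) x⟩, h2⟩, fun u hu => ?_⟩
        funext x
        rw [cjl_apply]
        have h3 := h1.2 u⁻¹ (U.inv_mem hu) x
        rwa [inv_inv] at h3
      · rintro ⟨⟨h1, h2⟩, h3⟩
        refine ⟨⟨h1.1, fun h hh x => ?_⟩, h2⟩
        have h4 := congrFun (h3 h⁻¹ (U.inv_mem hh)) x
        rw [cjl_apply, inv_inv] at h4
        exact h4)
  rw [← hmain, lnum_card U ⊤ z c hzU]
  congr 1
  refine Nat.card_congr (Equiv.subtypeEquivRight fun φ => ?_)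
  constructor
  · intro h γ
    exact h (Subgroup.mem_top γ)
  · intro h γ _
    exact h γ

end Pool.Agent.X252.NI
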