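import Pool.Agent.X252.NVY

/-!
# Final statements
-/

set_option linter.unusedSectionVars false

open scoped Classical

noncomputable section

namespace Pool.Agent.X252.NVF

open Pool.Agent.Y63.NV Pool.Agent.Y286.NV Pool.Agent.Y405.NV Pool.Agent.X252.NVU
open Pool.Agent.X252.NVC Pool.Agent.X252.NVX
open Pool.Agent.Y63.AWC (IsIrreducibleCharacter pSubgroupSetoid numWeights numRegularClasses)

/-- The difference of the two sides of Navarro's equality for the block `B` of `G ⊴ Γ`:
`|IBr_Γ(B)|` minus the sum of `|dz(N_Γ(Q)/Q | B)|` over representatives `Q` of the `Γ`-classes of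
`Θ_B`, that is, of the `p`-subgroups `Q` with `GQ = Γ` and `Q ∩ G` contained in a defect group of
`B`. -/
def thetaDefect (p : ℕ) {F Γ : Type} [Field F] [Group Γ] (red : integralClosure ℤ ℂ →+* F)
    (G : Subgroup Γ) (B : (G → F) → F) : ℤ :=
  (numIBr G B : ℤ) - ((∑ᶠ c : Quotient (pSubgroupSetoid p Γ),
    if G ⊔ c.out.1 = ⊤ ∧ InDefect p G B c.out.1 then numDz p red G c.out.1 B else 0 : ℕ) : ℤ)

section fin

variable {F : Type} [Field F] [IsAlgClosed F] {Γ : Type} [Group Γ] [Finite Γ] {p : ℕ}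
  [Fact p.Prime] [CharP F p]

theorem theta_eq (red : integralClosure ℤ ℂ →+* F) {G : Subgroup Γ} [G.Normal]
    {B : (G → F) → F} (hB : IsBlock B) (hI : IsInvBlock G B) :
    thetaDefect p red G B = navarroDefect p red G B := by
  unfold thetaDefect navarroDefect
  congr 2
  refine finsum_congr fun c => ?_
  by_cases h1 : G ⊔ c.out.1 = ⊤
  · by_cases h2 : InDefect p G B c.out.1
    · rw [if_pos ⟨h1, h2⟩, if_pos h1]
    · rw [if_neg (fun h => h2 h.2), if_pos h1]
      by_contra h3
      exact h2 (wdef' p F red Γ G B hB hI c.out.1 c.out.2 (fun h => h3 h.symm))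
  · rw [if_neg (fun h => h1 h.1), if_neg h1]

lemma blockIn_inv {G V : Subgroup Γ} [G.Normal] (hGV : G ≤ V) {B : (G → F) → F}
    (hI : IsInvBlock G B) : IsInvBlock (G.subgroupOf V) (blockIn G V B) := by
  intro g f f' hf hff'
  rw [blockIn_eq hGV, blockIn_eq hGV]
  refine hI g (fun x => f ((eV hGV).symm x)) (fun x => f' ((eV hGV).symm x)) (fun h x => ?_)
    fun x y hxy => ?_
  · change f ((eV hGV).symm (h * x * h⁻¹)) = f ((eV hGV).symm x)
    rw [map_mul, map_mul, map_inv]
    exact hf _ _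
  · exact hff' _ _ (Subtype.ext hxy)

/-- the group `Γ` itself -/
theorem nd_top (red : integralClosure ℤ ℂ →+* F) {G : Subgroup Γ} [G.Normal] {z : Γ → F}
    (hz : IsClassFun z) (c : F) : nd p red (G.subgroupOf ⊤) (fun x : (⊤ : Subgroup Γ) => z x) c =
      nd p red G z c :=
  nd_iso red (Subgroup.topEquiv (G := Γ)) hz c (G.subgroupOf ⊤) G (by
    ext x
    constructor
    · rintro ⟨y, hy, rfl⟩
      exact hy
    · intro hx
      exact ⟨⟨x, trivial⟩, hx, rfl⟩)

theorem navarro_top (red : integralClosure ℤ ℂ →+* F) {G : Subgroup Γ} [G.Normal]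
    (hp : IsPGroup p (Γ ⧸ G)) {B : (G → F) → F} (hB : IsBlock B) (hBi : IsInvBlock G B) :
    navarroDefect p red (G.subgroupOf ⊤) (blockIn G ⊤ B) = navarroDefect p red G B := by
  have : Infinite F := inferInstance
  obtain ⟨z0, hz0⟩ := sep (F := F) G (resU (G := G) hB)
  rw [← nd_blockIn red le_top hB hBi hz0, ← nd_eq red hp hB hBi hz0]
  exact nd_top red z0.2.conj _

/-- **Cyclic quotients.** -/
theorem cyclic_quotients (red : integralClosure ℤ ℂ →+* F) {G : Subgroup Γ} [G.Normal]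
    (hp : IsPGroup p (Γ ⧸ G)) {B : (G → F) → F} (hB : IsBlock B) (hBi : IsInvBlock G B) :
    ∃ C : ∀ V : Subgroup Γ, (V → F) → F,
      (∀ V, G ≤ V → IsBlock (C V) ∧ Covers G V (C V) B ∧
        ∀ D : (V → F) → F, IsBlock D → Covers G V D B → ∀ f, IsClassFun f → D f = C V f) ∧
      (∀ γ : Γ, G ⊔ Subgroup.zpowers γ = ⊤ → ((p : ℤ) - 1) * thetaDefect p red G B =
        p * weightDefect p red (C ⊤) - weightDefect p red (C (G ⊔ Subgroup.zpowers (γ ^ p)))) ∧
      (∀ γ : Γ, ((p : ℤ) - 1) * thetaDefect p red (G.subgroupOf (G ⊔ Subgroup.zpowers γ))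
          (blockIn G (G ⊔ Subgroup.zpowers γ) B) =
        p * weightDefect p red (C (G ⊔ Subgroup.zpowers γ)) -
          weightDefect p red (C (G ⊔ Subgroup.zpowers (γ ^ p)))) ∧
      (∀ V, G ≤ V → (Nat.card V : ℤ) * weightDefect p red (C V) =
        ∑ᶠ v : V, thetaDefect p red (G.subgroupOf (G ⊔ Subgroup.zpowers (v : Γ)))
          (blockIn G (G ⊔ Subgroup.zpowers (v : Γ)) B)) ∧
      ((∀ γ : Γ, thetaDefect p red (G.subgroupOf (G ⊔ Subgroup.zpowers γ))
          (blockIn G (G ⊔ Subgroup.zpowers γ) B) = 0) ↔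
        ∀ V, G ≤ V → weightDefect p red (C V) = 0) := by
  have hex : ∀ V : Subgroup Γ, ∃ C : (V → F) → F, G ≤ V → IsBlock C ∧ Covers G V C B := by
    intro V
    by_cases hV : G ≤ V
    · obtain ⟨C, h1, h2⟩ := exists_covers hV hB
      exact ⟨C, fun _ => ⟨h1, h2⟩⟩
    · exact ⟨fun _ => 0, fun h => absurd h hV⟩
  choose C hC using hex
  obtain ⟨h1, h2⟩ := main red hp hB hBi hC
  have ht : ∀ V : Subgroup Γ, G ≤ V → thetaDefect p red (G.subgroupOf V) (blockIn G V B) =
      navarroDefect p red (G.subgroupOf V) (blockIn G V B) :=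
    fun V hV => theta_eq red (blockIn_block hV hB) (blockIn_inv hV hBi)
  have hp1 : ((p : ℤ) - 1) ≠ 0 := by
    have := (Fact.out : p.Prime).two_le
    have h3 : (2 : ℤ) ≤ p := by exact_mod_cast this
    omega
  have h3 : ∀ γ : Γ, ((p : ℤ) - 1) * thetaDefect p red (G.subgroupOf (G ⊔ Subgroup.zpowers γ))
          (blockIn G (G ⊔ Subgroup.zpowers γ) B) =
        p * weightDefect p red (C (G ⊔ Subgroup.zpowers γ)) -
          weightDefect p red (C (G ⊔ Subgroup.zpowers (γ ^ p))) := by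
    intro γ
    rw [ht _ le_sup_left]
    exact h1 γ
  have h4 : ∀ V, G ≤ V → (Nat.card V : ℤ) * weightDefect p red (C V) =
        ∑ᶠ v : V, thetaDefect p red (G.subgroupOf (G ⊔ Subgroup.zpowers (v : Γ)))
          (blockIn G (G ⊔ Subgroup.zpowers (v : Γ)) B) := by
    intro V hV
    rw [h2 V hV]
    exact finsum_congr fun v => (ht _ le_sup_left).symm
  refine ⟨C, fun V hV => ⟨(hC V hV).1, (hC V hV).2, fun D hD hDB =>
    unique_covers hV hp (hC V hV).1 hD (hC V hV).2 hDB⟩, fun γ hγ => ?_, h3, h4, fun h => ?_,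
    fun h γ => ?_⟩
  · have h5 := h1 γ
    rw [hγ, navarro_top red hp hB hBi, ← theta_eq red hB hBi] at h5
    exact h5
  · intro V hV
    have h5 := h4 V hV
    rw [finsum_congr fun v : V => h (v : Γ), finsum_zero] at h5
    have hpos : (Nat.card V : ℤ) ≠ 0 := by exact_mod_cast Nat.card_pos.ne'
    exact (mul_eq_zero.1 h5).resolve_left hpos
  · have h5 := h3 γ
    rw [h _ le_sup_left, h _ le_sup_left, mul_zero, sub_zero] at h5
    exact (mul_eq_zero.1 h5).resolve_left hp1

/-- **The weight conjecture.** -/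
theorem weights_blocks (red : integralClosure ℤ ℂ →+* F) {G : Subgroup Γ} [G.Normal]
    (hp : IsPGroup p (Γ ⧸ G)) {B : (G → F) → F} (hB : IsBlock B) (hBi : IsInvBlock G B)
    {C : ∀ V : Subgroup Γ, (V → F) → F}
    (hC : ∀ V, G ≤ V → IsBlock (C V) ∧ Covers G V (C V) B) :
    (∀ V, G ≤ V → ((p : ℤ) - 1) * Nat.card V * weightDefect p red (C V) =
      ∑ᶠ v : V, (p * weightDefect p red (C (G ⊔ Subgroup.zpowers (v : Γ))) -
        weightDefect p red (C (G ⊔ Subgroup.zpowers ((v : Γ) ^ p))))) := by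
  obtain ⟨h1, h2⟩ := main red hp hB hBi hC
  intro V hV
  have : Fintype V := Fintype.ofFinite V
  rw [mul_assoc, h2 V hV, finsum_eq_sum_of_fintype, finsum_eq_sum_of_fintype, Finset.mul_sum]
  exact Finset.sum_congr rfl fun v _ => h1 v

/-- the difference of the numbers of `p`-regular classes and of weights -/
def classDefect (p : ℕ) (H : Type) [Group H] : ℤ :=
  (numRegularClasses p H : ℤ) - numWeights p H

theorem wd_unit (red : integralClosure ℤ ℂ →+* F) (H : Type) [Group H] [Finite H]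
    (i : DecidableEq H) :
    wd p red (@Pi.single H (fun _ => F) _ i 1 1) 1 = classDefect p H := by
  obtain rfl : i = fun a b => Classical.propDecidable (a = b) := Subsingleton.elim _ _
  have hz : IsClassFun (Pi.single 1 1 : H → F) := Pool.Agent.Y63.NV.B286.single_class
  have h1 := wd_sums (p := p) red hz 1
  have h2 : Lsum (⊤ : Subgroup H) ⊤ (Pi.single 1 1 : H → F) 1 =
      (Nat.card H : ℤ) * numRegularClasses p H := by
    rw [lsum_eq', lreg' p F H ⊤ (pgroup_top p H), invReg_top]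
  have h3 : Wsum p red (⊤ : Subgroup H) ⊤ (Pi.single 1 1 : H → F) 1 =
      (Nat.card H : ℤ) * numWeights p H := by
    have e : (∑ᶠ c : Quotient (pSubgroupSetoid p H),
        if (⊤ : Subgroup H) ⊔ c.out.1 = ⊤ then locz p c.out.1 else 0) = numWeights p H := by
      unfold numWeights
      refine finsum_congr fun c => ?_
      rw [if_pos (top_sup_eq _)]
      rfl
    rw [wcov' p F red H ⊤, covW_eq, e]
    push_cast
    rfl
  rw [h2, h3, ← mul_sub] at h1
  have hpos : (Nat.card H : ℤ) ≠ 0 := by exact_mod_cast Nat.card_pos.ne'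
  exact mul_left_cancel₀ hpos h1

end fin

/-- the block-free formula -/
theorem weights_free {Γ : Type} [Group Γ] [Finite Γ] {p : ℕ} [Fact p.Prime] {G : Subgroup Γ}
    [G.Normal] (hp : IsPGroup p (Γ ⧸ G)) : ∀ V, G ≤ V →
      ((p : ℤ) - 1) * Nat.card V * classDefect p V =
      ∑ᶠ v : V, (p * classDefect p ↥(G ⊔ Subgroup.zpowers (v : Γ)) -
        classDefect p ↥(G ⊔ Subgroup.zpowers ((v : Γ) ^ p))) := by
  intro V hV
  set F := AlgebraicClosure (ZMod p) with hF
  obtain ⟨red⟩ := exists_red p F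
  have : Fintype V := Fintype.ofFinite V
  have hz : InZ G (Pi.single 1 1 : Γ → F) := single_inZ G
  have hw : ∀ W : Subgroup Γ, wd p red (fun x : W => (Pi.single 1 1 : Γ → F) x) 1 =
      classDefect p W := by
    intro W
    rw [res_single W (fun a b => Classical.propDecidable (a = b))]
    exact wd_unit red W _
  have h1 := avg_zc red hV hp hz 1
  rw [hw V] at h1
  rw [mul_assoc, h1, finsum_eq_sum_of_fintype, Finset.mul_sum]
  refine Finset.sum_congr rfl fun v _ => ?_
  by_cases hγ : (v : Γ) ∈ G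
  · have e1 : G ⊔ Subgroup.zpowers (v : Γ) = G := by
      rw [sup_eq_left, Subgroup.zpowers_le]
      exact hγ
    have e2 : G ⊔ Subgroup.zpowers ((v : Γ) ^ p) = G := by
      rw [sup_eq_left, Subgroup.zpowers_le]
      exact G.pow_mem hγ p
    have e3 : G.subgroupOf (G ⊔ Subgroup.zpowers (v : Γ)) = ⊤ := by
      rw [Subgroup.subgroupOf_eq_top, e1]
    rw [e3, e2, e1]
    change ((p : ℤ) - 1) * wd p red (fun x : G => (Pi.single 1 1 : Γ → F) x) 1 = _
    rw [hw G]
    ring
  · have h2 := cyc_zc (p := p) red hp hz 1 hγ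
    rw [hw, hw] at h2
    rw [h2]
    ring

end Pool.Agent.X252.NVF
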