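import Pool.Agent.X252.NIC
import Pool.Agent.X252.NVZ

/-!
# The defects of Navarro's equality between `G` and `Γ`
-/

set_option linter.unusedSectionVars false

open scoped Classical

noncomputable section

namespace Pool.Agent.X252.NI

open Pool.Agent.Y63.NV Pool.Agent.Y63.NV.B77 Pool.Agent.X252.NVF
open Pool.Agent.X252.NVM (heart kap wcl lnum_sub)

variable {F : Type} [Field F] {Γ : Type} [Group Γ] [Finite Γ]

local instance fsub2 {Γ : Type} [Group Γ] [Finite Γ] : Fintype (Subgroup Γ) := Fintype.ofFinite _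

variable {p : ℕ} [Fact p.Prime] [CharP F p] [IsAlgClosed F]

/-- the number of traces with stabiliser `L` -/
def lC (G : Subgroup Γ) [G.Normal] (z : Γ → F) (c : F) (hz : InZ G z) (L : Subgroup Γ) : ℕ :=
  letI := actX G z c hz
  Nat.card {φ : XX G z c // MulAction.stabilizer Γ φ = L}

/-- the weights of the subgroups `Q` with `GQ = L` -/
def wC (p : ℕ) (red : integralClosure ℤ ℂ →+* F) (G : Subgroup Γ) (z : Γ → F) (c : F)
    (L : Subgroup Γ) : ℕ :=
  ∑ Q : Subgroup Γ, if IsPGroup p Q ∧ G ⊔ Q = L then Pool.Agent.Y487.NV.wl p red z c Q else 0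

theorem fiber (G : Subgroup Γ) [G.Normal] (z : Γ → F) (c : F) (hz : InZ G z)
    [Fintype (XX G z c)] (f : Subgroup Γ → ℕ) :
    letI := actX G z c hz
    ∑ φ : XX G z c, f (MulAction.stabilizer Γ φ) = ∑ L : Subgroup Γ, f L * lC G z c hz L := by
  let _ := actX G z c hz
  rw [← Finset.sum_fiberwise Finset.univ (fun φ : XX G z c => MulAction.stabilizer Γ φ)]
  refine Finset.sum_congr rfl fun L _ => ?_
  have h1 : ∀ φ ∈ Finset.univ.filter (fun φ : XX G z c => MulAction.stabilizer Γ φ = L),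
      f (MulAction.stabilizer Γ φ) = f L := by
    intro φ hφ
    rw [(Finset.mem_filter.1 hφ).2]
  rw [Finset.sum_congr rfl h1, Finset.sum_const, smul_eq_mul, mul_comm]
  congr 1
  unfold lC
  rw [Nat.card_eq_fintype_card, Fintype.card_subtype]

theorem lnum_low {G K : Subgroup Γ} [G.Normal] (hGK : G ≤ K) {z : Γ → F} (hz : InZ G z) (c : F) :
    Lnum (G.subgroupOf K) ⊤ (fun x : K => z x) c =
      ∑ L : Subgroup Γ, if K ≤ L then lC G z c hz L else 0 := by
  let _ := actX G z c hz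
  have : Finite (XX G z c) := finXX G z c
  have : Fintype (XX G z c) := Fintype.ofFinite _
  rw [lnum_sub hGK, lnum_card G K z c hz]
  have h1 := fiber G z c hz (fun L => if K ≤ L then 1 else 0)
  have h2 : Nat.card {φ : XX G z c // K ≤ MulAction.stabilizer Γ φ} =
      ∑ φ : XX G z c, if K ≤ MulAction.stabilizer Γ φ then 1 else 0 := by
    rw [Nat.card_eq_fintype_card, Fintype.card_subtype, Finset.card_filter]
  rw [h2, h1]
  refine Finset.sum_congr rfl fun L _ => ?_
  by_cases h : K ≤ L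
  · rw [if_pos h, if_pos h, one_mul]
  · rw [if_neg h, if_neg h, zero_mul]

theorem lnum_up {G U : Subgroup Γ} [G.Normal] [U.Normal] (hGU : G ≤ U)
    (hp : IsPGroup p (Γ ⧸ G)) {z : Γ → F} (hz : InZ G z) (c : F) :
    Nat.card Γ * Lnum U ⊤ z c =
      ∑ L : Subgroup Γ, if U ⊔ L = ⊤ then Nat.card L * lC G z c hz L else 0 := by
  let _ := actX G z c hz
  have : Finite (XX G z c) := finXX G z c
  have : Fintype (XX G z c) := Fintype.ofFinite _
  rw [lnum_mid hGU hp hz c]
  have h1 := fiber G z c hz (fun L => if U ⊔ L = ⊤ then Nat.card L else 0)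
  refine h1.trans (Finset.sum_congr rfl fun L _ => ?_)
  by_cases h : U ⊔ L = ⊤
  · rw [if_pos h, if_pos h]
  · rw [if_neg h, if_neg h, zero_mul]

theorem wcl_low (red : integralClosure ℤ ℂ →+* F) {G K : Subgroup Γ} [G.Normal]
    (hp : IsPGroup p (Γ ⧸ G)) (hGK : G ≤ K) {z : Γ → F} (hz : InZ G z) (c : F) :
    Nat.card Γ * wcl p red (G.subgroupOf K) (fun x : K => z x) c =
      ∑ L : Subgroup Γ, if K ≤ L then L.index * wC p red G z c L else 0 := by
  have e1 : (Nat.card Γ : ℤ) * (wcl p red (G.subgroupOf K) (fun x : K => z x) c : ℤ) =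
      ((∑ Q : Subgroup Γ, if IsPGroup p Q then
        kap G K Q * Pool.Agent.Y487.NV.wl p red z c Q else 0 : ℕ) : ℤ) := by
    rw [heart red (Nat.card Γ) Γ G K z c le_rfl hp hGK hz,
      Pool.Agent.X252.NVC.wsum_classes (p := p) red (G.subgroupOf K) (z := fun x : K => z x)
        (fun g x => hz.conj g x) c, ← mul_assoc]
    have h2 : (K.index : ℤ) * Nat.card K = Nat.card Γ := by exact_mod_cast Subgroup.index_mul_card _
    rw [h2]
    rfl
  have e2 : Nat.card Γ * wcl p red (G.subgroupOf K) (fun x : K => z x) c =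
      ∑ Q : Subgroup Γ, if IsPGroup p Q then
        kap G K Q * Pool.Agent.Y487.NV.wl p red z c Q else 0 := by exact_mod_cast e1
  rw [e2]
  have e3 : ∀ L : Subgroup Γ, (if K ≤ L then L.index * wC p red G z c L else 0) =
      ∑ Q : Subgroup Γ, if G ⊔ Q = L then (if IsPGroup p Q then
        kap G K Q * Pool.Agent.Y487.NV.wl p red z c Q else 0) else 0 := by
    intro L
    by_cases h : K ≤ L
    · rw [if_pos h]
      unfold wC
      rw [Finset.mul_sum]
      refine Finset.sum_congr rfl fun Q _ => ?_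
      by_cases h1 : G ⊔ Q = L
      · by_cases h2 : IsPGroup p Q
        · rw [if_pos ⟨h2, h1⟩, if_pos h1, if_pos h2]
          unfold kap
          rw [h1, if_pos h]
        · rw [if_neg (fun h3 => h2 h3.1), if_pos h1, if_neg h2, mul_zero]
      · rw [if_neg (fun h3 => h1 h3.2), if_neg h1, mul_zero]
    · rw [if_neg h]
      symm
      refine Finset.sum_eq_zero fun Q _ => ?_
      by_cases h1 : G ⊔ Q = L
      · rw [if_pos h1]
        by_cases h2 : IsPGroup p Q
        · rw [if_pos h2]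
          unfold kap
          rw [h1, if_neg h, zero_mul]
        · rw [if_neg h2]
      · rw [if_neg h1]
  rw [Finset.sum_congr rfl fun L _ => e3 L, Finset.sum_comm]
  refine Finset.sum_congr rfl fun Q _ => ?_
  rw [Finset.sum_ite_eq Finset.univ (G ⊔ Q), if_pos (Finset.mem_univ _)]

theorem wcl_up (red : integralClosure ℤ ℂ →+* F) {G U : Subgroup Γ} [U.Normal] (hGU : G ≤ U)
    {z : Γ → F} (hz : IsClassFun z) (c : F) :
    Nat.card Γ * wcl p red U z c =
      ∑ L : Subgroup Γ, if U ⊔ L = ⊤ then wC p red G z c L else 0 := by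
  have h2 := Pool.Agent.X252.NVC.wsum_classes (p := p) red U hz c
  have h3 := Pool.Agent.Y487.NV.wsum_eq (p := p) red U z c
  rw [h2] at h3
  have h4 : Nat.card Γ * wcl p red U z c = ∑ Q : Subgroup Γ,
      if IsPGroup p Q ∧ U ⊔ Q = ⊤ then Pool.Agent.Y487.NV.wl p red z c Q else 0 := by
    exact_mod_cast h3
  rw [h4]
  have e3 : ∀ L : Subgroup Γ, (if U ⊔ L = ⊤ then wC p red G z c L else 0) =
      ∑ Q : Subgroup Γ, if G ⊔ Q = L then (if IsPGroup p Q ∧ U ⊔ Q = ⊤ then
        Pool.Agent.Y487.NV.wl p red z c Q else 0) else 0 := by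
    intro L
    have h5 : ∀ Q : Subgroup Γ, G ⊔ Q = L → (U ⊔ Q = ⊤ ↔ U ⊔ L = ⊤) := by
      rintro Q rfl
      rw [← sup_assoc, sup_eq_left.2 hGU]
    by_cases h : U ⊔ L = ⊤
    · rw [if_pos h]
      unfold wC
      refine Finset.sum_congr rfl fun Q _ => ?_
      by_cases h1 : G ⊔ Q = L
      · by_cases h6 : IsPGroup p Q
        · rw [if_pos ⟨h6, h1⟩, if_pos h1, if_pos ⟨h6, (h5 Q h1).2 h⟩]
        · rw [if_neg (fun h3 => h6 h3.1), if_pos h1, if_neg (fun h3 => h6 h3.1)]
      · rw [if_neg (fun h3 => h1 h3.2), if_neg h1]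
    · rw [if_neg h]
      symm
      refine Finset.sum_eq_zero fun Q _ => ?_
      by_cases h1 : G ⊔ Q = L
      · rw [if_pos h1, if_neg]
        rintro ⟨_, h6⟩
        exact h ((h5 Q h1).1 h6)
      · rw [if_neg h1]
  rw [Finset.sum_congr rfl fun L _ => e3 L, Finset.sum_comm]
  refine Finset.sum_congr rfl fun Q _ => ?_
  rw [Finset.sum_ite_eq Finset.univ (G ⊔ Q), if_pos (Finset.mem_univ _)]

/-- the Möbius transform of the defects -/
def aL (p : ℕ) (red : integralClosure ℤ ℂ →+* F) (G : Subgroup Γ) [G.Normal] (z : Γ → F) (c : F)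
    (hz : InZ G z) (L : Subgroup Γ) : ℚ :=
  (lC G z c hz L : ℚ) - (wC p red G z c L : ℚ) / Nat.card L

theorem nd_cast (red : integralClosure ℤ ℂ →+* F) {H : Type} [Group H] (K : Subgroup H)
    (z : H → F) (c : F) : (nd p red K z c : ℚ) = (Lnum K ⊤ z c : ℚ) - (wcl p red K z c : ℚ) := by
  have h : nd p red K z c = (Lnum K ⊤ z c : ℤ) - (wcl p red K z c : ℤ) := rfl
  rw [h]
  push_cast
  rfl

theorem nd_low (red : integralClosure ℤ ℂ →+* F) {G K : Subgroup Γ} [G.Normal]
    (hp : IsPGroup p (Γ ⧸ G)) (hGK : G ≤ K) {z : Γ → F} (hz : InZ G z) (c : F) :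
    (nd p red (G.subgroupOf K) (fun x : K => z x) c : ℚ) =
      ∑ L : Subgroup Γ, if K ≤ L then aL p red G z c hz L else 0 := by
  have hpos : (Nat.card Γ : ℚ) ≠ 0 := by exact_mod_cast Nat.card_pos.ne'
  have h2 : (Nat.card Γ : ℚ) * (wcl p red (G.subgroupOf K) (fun x : K => z x) c : ℚ) =
      ∑ L : Subgroup Γ, if K ≤ L then (L.index : ℚ) * wC p red G z c L else 0 := by
    have h3 := wcl_low (p := p) red hp hGK hz c
    have h4 := congrArg (fun n : ℕ => (n : ℚ)) h3
    simp only [Nat.cast_mul, Nat.cast_sum, Nat.cast_ite, Nat.cast_zero] at h4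
    exact h4
  have h5 : (wcl p red (G.subgroupOf K) (fun x : K => z x) c : ℚ) =
      ∑ L : Subgroup Γ, if K ≤ L then (wC p red G z c L : ℚ) / Nat.card L else 0 := by
    refine mul_left_cancel₀ hpos ?_
    rw [h2, Finset.mul_sum]
    refine Finset.sum_congr rfl fun L _ => ?_
    by_cases h : K ≤ L
    · rw [if_pos h, if_pos h]
      have h6 : (Nat.card Γ : ℚ) = (L.index : ℚ) * Nat.card L := by
        exact_mod_cast (Subgroup.index_mul_card L).symm
      have h7 : (Nat.card L : ℚ) ≠ 0 := by exact_mod_cast Nat.card_pos.ne'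
      rw [h6]
      field_simp
    · rw [if_neg h, if_neg h, mul_zero]
  rw [nd_cast, h5, lnum_low hGK hz c]
  push_cast
  rw [← Finset.sum_sub_distrib]
  refine Finset.sum_congr rfl fun L _ => ?_
  by_cases h : K ≤ L
  · rw [if_pos h, if_pos h, if_pos h]
    rfl
  · rw [if_neg h, if_neg h, if_neg h, sub_zero]

theorem nd_up' (red : integralClosure ℤ ℂ →+* F) {G U : Subgroup Γ} [G.Normal] [U.Normal]
    (hGU : G ≤ U) (hp : IsPGroup p (Γ ⧸ G)) {z : Γ → F} (hz : InZ G z) (c : F) :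
    (Nat.card Γ : ℚ) * nd p red U z c =
      ∑ L : Subgroup Γ, if U ⊔ L = ⊤ then (Nat.card L : ℚ) * aL p red G z c hz L else 0 := by
  have h1 : (Nat.card Γ : ℚ) * (wcl p red U z c : ℚ) =
      ∑ L : Subgroup Γ, if U ⊔ L = ⊤ then (wC p red G z c L : ℚ) else 0 := by
    have h3 := wcl_up (p := p) red hGU hz.conj c
    have h4 := congrArg (fun n : ℕ => (n : ℚ)) h3
    simp only [Nat.cast_mul, Nat.cast_sum, Nat.cast_ite, Nat.cast_zero] at h4
    exact h4
  have h2 : (Nat.card Γ : ℚ) * (Lnum U ⊤ z c : ℚ) =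
      ∑ L : Subgroup Γ, if U ⊔ L = ⊤ then (Nat.card L : ℚ) * lC G z c hz L else 0 := by
    have h3 := lnum_up (p := p) hGU hp hz c
    have h4 := congrArg (fun n : ℕ => (n : ℚ)) h3
    simp only [Nat.cast_mul, Nat.cast_sum, Nat.cast_ite, Nat.cast_zero] at h4
    exact h4
  rw [nd_cast, mul_sub, h1, h2, ← Finset.sum_sub_distrib]
  refine Finset.sum_congr rfl fun L _ => ?_
  by_cases h : U ⊔ L = ⊤
  · rw [if_pos h, if_pos h, if_pos h]
    unfold aL
    have h7 : (Nat.card L : ℚ) ≠ 0 := by exact_mod_cast Nat.card_pos.ne'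
    field_simp
  · rw [if_neg h, if_neg h, if_neg h, sub_zero]

end Pool.Agent.X252.NI
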