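import Pool.Agent.X252.NID

/-!
# Navarro's equality for the subgroups between `G` and `Γ`: final statements
-/

set_option linter.unusedSectionVars false

open scoped Classical

noncomputable section

namespace Pool.Agent.X252.NI

open Pool.Agent.Y63.NV Pool.Agent.Y63.NV.B77 Pool.Agent.X252.NVF Pool.Agent.Y286.NV
open Pool.Agent.X252.NVU Pool.Agent.X252.NVC
open Pool.Agent.X252.NVM (heart kap wcl lnum_sub)

variable {F : Type} [Field F] [IsAlgClosed F] {Γ : Type} [Group Γ] [Finite Γ] {p : ℕ}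
  [Fact p.Prime] [CharP F p]

local instance fsub3 {Γ : Type} [Group Γ] [Finite Γ] : Fintype (Subgroup Γ) := Fintype.ofFinite _

/-- the defect for the block of `U` at a separating element supported on `G` -/
theorem nd_eqU (red : integralClosure ℤ ℂ →+* F) {G U : Subgroup Γ} [G.Normal] [U.Normal]
    (hGU : G ≤ U) (hp : IsPGroup p (Γ ⧸ G)) {B : (G → F) → F} (hB : IsBlock B)
    (hBi : IsInvBlock G B) {z0 : ZG F G}
    (hsep : ∀ L : ZG F G →ₗ[F] F, IsMult L → L z0 = resU hB z0 → L = resU (G := G) hB)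
    {C : (U → F) → F} (hC : IsBlock C) (hCB : Covers G U C B) :
    nd p red U z0.1 (resU hB z0) = thetaDefect p red U C := by
  have : Infinite F := inferInstance
  have hCi := inv_of_covers hGU hp hBi hC hCB
  have hCB' : ∀ z : Γ → F, InZ G z → C (fun x => z x) = B (fun x => z x) :=
    fun z hz => hCB z (fun u _ x => hz.conj u x) hz.supp
  have hres : resU (G := G) hC = resU hB := LinearMap.ext fun z => hCB' z.1 z.2
  rw [theta_eq red hC hCi]
  unfold nd navarroDefect
  have h2 := count_inv hGU hp hC hCi (z0 := z0) (by rw [hres]; exact hsep)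
  rw [hres] at h2
  rw [h2]
  congr 2
  refine finsum_congr fun d => ?_
  by_cases h : U ⊔ d.out.1 = ⊤
  · rw [if_pos h, if_pos h]
    unfold Nw numDz
    refine Nat.card_congr (Equiv.subtypeEquivRight fun χ => ?_)
    constructor
    · rintro ⟨hw, hv⟩
      refine ⟨hw, ?_⟩
      have hbl := wblk' p F red Γ d.out.1 χ d.out.2 hw
      have h5 := hsep (resT (G := G) hbl) (resT_mult hbl) hv
      exact uniq p hGU hp (isMF_block hbl U) (isMF_res le_rfl hC) fun z hz => by
        rw [hCB' z hz]
        exact LinearMap.congr_fun h5 (⟨z, hz⟩ : ZG F G)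
    · rintro ⟨hw, hv⟩
      exact ⟨hw, (hv z0.1 (InZ.mono hGU z0.2)).trans (hCB' z0.1 z0.2)⟩
  · rw [if_neg h, if_neg h]

theorem aL_zero (red : integralClosure ℤ ℂ →+* F) {G : Subgroup Γ} [G.Normal] {z : Γ → F}
    (c : F) (hz : InZ G z) {L : Subgroup Γ} (hL : ¬ G ≤ L) : aL p red G z c hz L = 0 := by
  let _ := actX G z c hz
  have h1 : lC G z c hz L = 0 := by
    unfold lC
    have : IsEmpty {φ : XX G z c // MulAction.stabilizer Γ φ = L} := by
      refine ⟨fun φ => hL ?_⟩
      rw [← φ.2]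
      intro g hg
      exact triv_act G z c hz g hg φ.1
    exact Nat.card_of_isEmpty
  have h2 : wC p red G z c L = 0 := by
    unfold wC
    refine Finset.sum_eq_zero fun Q _ => ?_
    rw [if_neg]
    rintro ⟨_, h⟩
    apply hL
    rw [← h]
    exact le_sup_left
  unfold aL
  rw [h1, h2]
  simp

/-- **One function for all pairs.** -/
theorem master (red : integralClosure ℤ ℂ →+* F) {G : Subgroup Γ} [G.Normal]
    (hp : IsPGroup p (Γ ⧸ G)) {B : (G → F) → F} (hB : IsBlock B) (hBi : IsInvBlock G B) :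
    ∃ a : Subgroup Γ → ℚ, (∀ L, ¬ G ≤ L → a L = 0) ∧
      (∀ K, G ≤ K → (thetaDefect p red (G.subgroupOf K) (blockIn G K B) : ℚ) =
        ∑ L : Subgroup Γ, if K ≤ L then a L else 0) ∧
      ∀ (U : Subgroup Γ) [U.Normal], G ≤ U → ∀ C : (U → F) → F, IsBlock C → Covers G U C B →
        (Nat.card Γ : ℚ) * thetaDefect p red U C =
          ∑ L : Subgroup Γ, if U ⊔ L = ⊤ then (Nat.card L : ℚ) * a L else 0 := by
  have : Infinite F := inferInstance
  obtain ⟨z0, hz0⟩ := sep (F := F) G (resU (G := G) hB)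
  refine ⟨aL p red G z0.1 (resU hB z0) z0.2, fun L hL => aL_zero red _ z0.2 hL,
    fun K hGK => ?_, fun U _ hGU C hC hCB => ?_⟩
  · rw [theta_eq red (blockIn_block hGK hB) (blockIn_inv hGK hBi), ← nd_blockIn red hGK hB hBi hz0]
    exact nd_low red hp hGK z0.2 _
  · rw [← nd_eqU red hGU hp hB hBi hz0 hC hCB]
    exact nd_up' red hGU hp z0.2 _

/-- Möbius inversion on the subgroups `L` with `U L = Γ` -/
theorem mob {U : Subgroup Γ} {a n : Subgroup Γ → ℚ} {G : Subgroup Γ}
    (h0 : ∀ L, ¬ G ≤ L → a L = 0)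
    (hn : ∀ K, G ≤ K → n K = ∑ L : Subgroup Γ, if K ≤ L then a L else 0)
    (h : ∀ K, G ≤ K → U ⊔ K = ⊤ → n K = 0) : ∀ L, U ⊔ L = ⊤ → a L = 0 := by
  have key : ∀ (m : ℕ) (L : Subgroup Γ), Nat.card Γ - Nat.card L ≤ m → U ⊔ L = ⊤ → a L = 0 := by
    intro m
    induction m with
    | zero =>
      intro L hm hL
      by_cases hGL : G ≤ L
      · have h1 : L = ⊤ := by
          have h2 : Nat.card Γ ≤ Nat.card L := Nat.le_of_sub_eq_zero (Nat.le_zero.1 hm)
          exact Subgroup.eq_top_of_le_card L h2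
        have h3 := hn L hGL
        rw [h L hGL hL, Finset.sum_eq_single L] at h3
        · rw [if_pos le_rfl] at h3
          exact h3.symm
        · intro M _ hM
          rw [if_neg]
          intro h4
          rw [h1, top_le_iff] at h4
          exact hM (h4.trans h1.symm)
        · intro h4
          exact absurd (Finset.mem_univ L) h4
      · exact h0 L hGL
    | succ m ih =>
      intro L hm hL
      by_cases hGL : G ≤ L
      · have h3 := hn L hGL
        rw [h L hGL hL, Finset.sum_eq_single L] at h3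
        · rw [if_pos le_rfl] at h3
          exact h3.symm
        · intro M _ hM
          by_cases h4 : L ≤ M
          · rw [if_pos h4]
            have h5 : Nat.card L < Nat.card M := by
              have hlt : L < M := lt_of_le_of_ne h4 (Ne.symm hM)
              exact Set.ncard_lt_ncard (s := (L : Set Γ)) (t := (M : Set Γ)) hlt (Set.toFinite _)
            refine ih M (by omega) ?_
            rw [eq_top_iff, ← hL]
            exact sup_le_sup_left h4 U
          · rw [if_neg h4]
        · intro h4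
          exact absurd (Finset.mem_univ L) h4
      · exact h0 L hGL
  exact fun L hL => key _ L le_rfl hL

/-- counting the elements of the coset `t U` in `L` -/
theorem coset_count {U : Subgroup Γ} [U.Normal] {t : Γ} (ht : U ⊔ Subgroup.zpowers t = ⊤)
    (L : Subgroup Γ) [Fintype U] :
    Nat.card Γ * (Finset.univ.filter (fun u : U => t * (u : Γ) ∈ L)).card =
      if U ⊔ L = ⊤ then Nat.card U * Nat.card L else 0 := by
  by_cases h : U ⊔ L = ⊤
  · rw [if_pos h]
    have h1 : t ∈ U ⊔ L := by rw [h]; trivial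
    rw [Subgroup.mem_sup_of_normal_left] at h1
    obtain ⟨u0, hu0, l0, hl0, rfl⟩ := h1
    have h2 : (Finset.univ.filter (fun u : U => u0 * l0 * (u : Γ) ∈ L)).card =
        Nat.card ↥(U ⊓ L : Subgroup Γ) := by
      rw [← Fintype.card_subtype, ← Nat.card_eq_fintype_card]
      have hn : ∀ x ∈ U, l0⁻¹ * x * l0 ∈ U := fun x hx => by
        have := (inferInstance : U.Normal).conj_mem x hx l0⁻¹
        rwa [inv_inv] at this
      refine Nat.card_congr
        { toFun := fun u => ⟨(l0⁻¹ * u0 * l0) * u.1.1, U.mul_mem (hn u0 hu0) u.1.2, ?_⟩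
          invFun := fun x => ⟨⟨(l0⁻¹ * u0 * l0)⁻¹ * x.1, U.mul_mem (U.inv_mem (hn u0 hu0)) x.2.1⟩, ?_⟩
          left_inv := fun u => Subtype.ext (Subtype.ext (by
            change (l0⁻¹ * u0 * l0)⁻¹ * ((l0⁻¹ * u0 * l0) * u.1.1) = u.1.1
            group))
          right_inv := fun x => Subtype.ext (by
            change (l0⁻¹ * u0 * l0) * ((l0⁻¹ * u0 * l0)⁻¹ * x.1) = x.1
            group) }
      · have h3 := L.mul_mem (L.inv_mem hl0) u.2
        have e : l0⁻¹ * (u0 * l0 * (u.1 : Γ)) = (l0⁻¹ * u0 * l0) * u.1.1 := by group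
        rwa [e] at h3
      · have h3 := L.mul_mem hl0 x.2.2
        have e : u0 * l0 * ((l0⁻¹ * u0 * l0)⁻¹ * x.1) = l0 * x.1 := by group
        change u0 * l0 * ((l0⁻¹ * u0 * l0)⁻¹ * x.1) ∈ L
        rw [e]
        exact h3
    rw [h2]
    have h3 : Nat.card ↥(U ⊔ L : Subgroup Γ) = Nat.card U * U.relIndex L := by
      have h4 := Subgroup.card_mul_index (U.subgroupOf (U ⊔ L))
      have h5 : (U.subgroupOf (U ⊔ L)).index = U.relIndex L := by
        have h7 : U.relIndex (U ⊔ L) = U.relIndex L := by rw [Subgroup.relIndex_sup_left]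
        exact h7
      have h6 : Nat.card ↥(U.subgroupOf (U ⊔ L)) = Nat.card U :=
        Nat.card_congr (Subgroup.subgroupOfEquivOfLe (le_sup_left : U ≤ U ⊔ L)).toEquiv
      rw [h5, h6] at h4
      exact h4.symm
    have h4 : Nat.card L = Nat.card ↥(U ⊓ L : Subgroup Γ) * U.relIndex L := by
      have h5 := Subgroup.card_mul_index (U.subgroupOf L)
      have h6 : Nat.card ↥(U.subgroupOf L) = Nat.card ↥(U ⊓ L : Subgroup Γ) := by
        rw [← Subgroup.subgroupOf_map_subtype]
        exact (Subgroup.card_map_of_injective L.subtype_injective).symm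
      rw [h6] at h5
      exact h5.symm
    rw [h, Subgroup.card_top] at h3
    rw [h3, h4]
    ring
  · rw [if_neg h]
    have h2 : Finset.univ.filter (fun u : U => t * (u : Γ) ∈ L) = ∅ := by
      rw [Finset.filter_eq_empty_iff]
      intro u _ hu
      apply h
      rw [eq_top_iff, ← ht]
      refine sup_le le_sup_left ?_
      rw [Subgroup.zpowers_le]
      have h3 : t = (t * u) * (u : Γ)⁻¹ := by group
      rw [h3]
      exact (U ⊔ L).mul_mem (le_sup_right (a := U) hu) (le_sup_left (a := U) (U.inv_mem u.2))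
    rw [h2, Finset.card_empty, mul_zero]

/-- **Final form.** -/
theorem final (red : integralClosure ℤ ℂ →+* F) {G : Subgroup Γ} [G.Normal]
    (hp : IsPGroup p (Γ ⧸ G)) {B : (G → F) → F} (hB : IsBlock B) (hBi : IsInvBlock G B) :
    (∃ a : Subgroup Γ → ℚ, (∀ L, ¬ G ≤ L → a L = 0) ∧
      (∀ K, G ≤ K → (thetaDefect p red (G.subgroupOf K) (blockIn G K B) : ℚ) =
        ∑ᶠ L : Subgroup Γ, if K ≤ L then a L else 0) ∧
      ∀ (U : Subgroup Γ) [U.Normal], G ≤ U → ∀ C : (U → F) → F, IsBlock C → Covers G U C B →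
        (Nat.card Γ : ℚ) * thetaDefect p red U C =
          ∑ᶠ L : Subgroup Γ, if U ⊔ L = ⊤ then (Nat.card L : ℚ) * a L else 0) ∧
    ∀ (U : Subgroup Γ) [U.Normal], G ≤ U → ∀ C : (U → F) → F, IsBlock C → Covers G U C B →
      (∀ t : Γ, U ⊔ Subgroup.zpowers t = ⊤ → (Nat.card U : ℤ) * thetaDefect p red U C =
        ∑ᶠ u : U, thetaDefect p red (G.subgroupOf (G ⊔ Subgroup.zpowers (t * (u : Γ))))
          (blockIn G (G ⊔ Subgroup.zpowers (t * (u : Γ))) B)) ∧
      ((∀ K, G ≤ K → U ⊔ K = ⊤ → thetaDefect p red (G.subgroupOf K) (blockIn G K B) = 0) →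
        thetaDefect p red U C = 0) := by
  obtain ⟨a, h0, h1, h2⟩ := master red hp hB hBi
  have hpos : (Nat.card Γ : ℚ) ≠ 0 := by exact_mod_cast Nat.card_pos.ne'
  refine ⟨⟨a, h0, fun K hK => ?_, fun U _ hGU C hC hCB => ?_⟩, fun U _ hGU C hC hCB =>
    ⟨fun t ht => ?_, fun h => ?_⟩⟩
  · rw [h1 K hK, finsum_eq_sum_of_fintype]
  · rw [h2 U hGU C hC hCB, finsum_eq_sum_of_fintype]
  · have : Fintype U := Fintype.ofFinite U
    rw [finsum_eq_sum_of_fintype]
    have h3 : ((∑ u : U, thetaDefect p red (G.subgroupOf (G ⊔ Subgroup.zpowers (t * (u : Γ))))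
        (blockIn G (G ⊔ Subgroup.zpowers (t * (u : Γ))) B) : ℤ) : ℚ) =
        ∑ L : Subgroup Γ, ((Finset.univ.filter (fun u : U => t * (u : Γ) ∈ L)).card : ℚ) * a L := by
      push_cast
      rw [Finset.sum_congr rfl fun u _ => h1 _ le_sup_left, Finset.sum_comm]
      refine Finset.sum_congr rfl fun L _ => ?_
      by_cases hL : G ≤ L
      · have h4 : ∀ u : U, (if G ⊔ Subgroup.zpowers (t * (u : Γ)) ≤ L then a L else 0) =
            if t * (u : Γ) ∈ L then a L else 0 := by
          intro u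
          refine if_congr ?_ rfl rfl
          rw [sup_le_iff, Subgroup.zpowers_le]
          exact ⟨fun h => h.2, fun h => ⟨hL, h⟩⟩
        rw [Finset.sum_congr rfl fun u _ => h4 u, ← Finset.sum_filter, Finset.sum_const,
          nsmul_eq_mul]
      · rw [h0 L hL, mul_zero]
        refine Finset.sum_eq_zero fun u _ => ?_
        rw [ite_self]
    have h4 : (Nat.card Γ : ℚ) * ((∑ u : U, thetaDefect p red
        (G.subgroupOf (G ⊔ Subgroup.zpowers (t * (u : Γ))))
        (blockIn G (G ⊔ Subgroup.zpowers (t * (u : Γ))) B) : ℤ) : ℚ) =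
        (Nat.card Γ : ℚ) * (((Nat.card U : ℤ) * thetaDefect p red U C : ℤ) : ℚ) := by
      rw [h3, Finset.mul_sum]
      push_cast
      rw [mul_left_comm, h2 U hGU C hC hCB, Finset.mul_sum]
      refine Finset.sum_congr rfl fun L _ => ?_
      have h5 := coset_count ht L
      have h6 : (Nat.card Γ : ℚ) * ((Finset.univ.filter (fun u : U => t * (u : Γ) ∈ L)).card : ℚ) =
          if U ⊔ L = ⊤ then (Nat.card U : ℚ) * Nat.card L else 0 := by
        have := congrArg (fun n : ℕ => (n : ℚ)) h5
        simp only [Nat.cast_mul, Nat.cast_ite, Nat.cast_zero] at this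
        exact this
      rw [← mul_assoc, h6]
      by_cases h7 : U ⊔ L = ⊤
      · rw [if_pos h7, if_pos h7]
        ring
      · rw [if_neg h7, if_neg h7, zero_mul, mul_zero]
    have h5 := mul_left_cancel₀ hpos h4
    exact_mod_cast h5.symm
  · have h3 := mob (n := fun K => (thetaDefect p red (G.subgroupOf K) (blockIn G K B) : ℚ)) h0 h1
      (U := U) (fun K hK hUK => by
        rw [h K hK hUK]
        rfl)
    have h4 := h2 U hGU C hC hCB
    rw [Finset.sum_eq_zero] at h4
    · have h5 := (mul_eq_zero.1 h4).resolve_left hpos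
      exact_mod_cast h5
    · intro L _
      by_cases h5 : U ⊔ L = ⊤
      · rw [if_pos h5, h3 L h5, mul_zero]
      · rw [if_neg h5]

end Pool.Agent.X252.NI
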