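import Pool.Agent.X252.NIE

/-!
# Both sides of Navarro's equality for the subgroups between `G` and `Γ`
-/

set_option linter.unusedSectionVars false

open scoped Classical

noncomputable section

namespace Pool.Agent.X252.NI

open Pool.Agent.Y63.NV Pool.Agent.Y63.NV.B77 Pool.Agent.X252.NVF Pool.Agent.Y286.NV
open Pool.Agent.X252.NVU Pool.Agent.X252.NVC
open Pool.Agent.X252.NVM (heart kap wcl lnum_sub)
open Pool.Agent.Y63.AWC (pSubgroupSetoid)

/-- The right side of Navarro's equality for the block `B` of `G ⊴ Γ`: the sum of the numbers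
`|dz(N_Γ(Q)/Q | B)|` over representatives `Q` of the `Γ`-classes of `Θ_B`, that is, of the
`p`-subgroups `Q` with `GQ = Γ` and `Q ∩ G` contained in a defect group of `B`. -/
def thetaSum (p : ℕ) {F Γ : Type} [Field F] [Group Γ] (red : integralClosure ℤ ℂ →+* F)
    (G : Subgroup Γ) (B : (G → F) → F) : ℕ :=
  ∑ᶠ c : Quotient (pSubgroupSetoid p Γ),
    if G ⊔ c.out.1 = ⊤ ∧ InDefect p G B c.out.1 then numDz p red G c.out.1 B else 0

variable {F : Type} [Field F] [IsAlgClosed F] {Γ : Type} [Group Γ] [Finite Γ] {p : ℕ}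
  [Fact p.Prime] [CharP F p]

local instance fsub4 {Γ : Type} [Group Γ] [Finite Γ] : Fintype (Subgroup Γ) := Fintype.ofFinite _

theorem lnum_blockIn {G V : Subgroup Γ} [G.Normal]
    (hGV : G ≤ V) {B : (G → F) → F} (hB : IsBlock B)
    (hBi : IsInvBlock G B) {z0 : ZG F G} (hsep : ∀ L : ZG F G →ₗ[F] F, IsMult L →
      L z0 = resU hB z0 → L = resU (G := G) hB) :
    Lnum (G.subgroupOf V) ⊤ (fun x : V => z0.1 x) (resU hB z0) =
      numIBr (G.subgroupOf V) (blockIn G V B) := by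
  have hval : blockIn G V B (fun x => z0.1 ((x : V) : Γ)) = resU hB z0 := by
    rw [blockIn_eq hGV]
    rfl
  unfold Lnum numIBr
  refine Nat.card_congr (Equiv.subtypeEquivRight fun φ => ?_)
  constructor
  · rintro ⟨hφ, hinv, hzφ⟩
    refine ⟨hφ, hinv, ?_⟩
    obtain ⟨⟨y, hy⟩, Bφ, hBφ, hact⟩ := schur' F (G.subgroupOf V) φ hφ
    have h4 : Bφ (fun x => z0.1 ((x : V) : Γ)) = resU hB z0 := by
      have h5 := hact (fun x => z0.1 ((x : V) : Γ)) (fun g x => z0.2.conj _ _) y
      exact mul_right_cancel₀ hy (h5.symm.trans (hzφ y))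
    have h5 := low_eq hGV hB hBi hsep hBφ h4
    intro f hf x
    rw [← h5 f hf]
    exact hact f hf x
  · rintro ⟨hφ, hinv, hzφ⟩
    refine ⟨hφ, hinv, fun x => ?_⟩
    rw [← hval]
    exact hzφ _ (fun g x => z0.2.conj _ _) x

/-- the two sides at a separating element, for subgroups -/
theorem sides_low (red : integralClosure ℤ ℂ →+* F) {G V : Subgroup Γ} [G.Normal]
    (hGV : G ≤ V) {B : (G → F) → F} (hB : IsBlock B)
    (hBi : IsInvBlock G B) {z0 : ZG F G} (hsep : ∀ L : ZG F G →ₗ[F] F, IsMult L →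
      L z0 = resU hB z0 → L = resU (G := G) hB) :
    wcl p red (G.subgroupOf V) (fun x : V => z0.1 x) (resU hB z0) =
      thetaSum p red (G.subgroupOf V) (blockIn G V B) := by
  have h1 := nd_blockIn (p := p) red hGV hB hBi hsep
  rw [← theta_eq red (blockIn_block hGV hB) (blockIn_inv hGV hBi)] at h1
  have h2 := lnum_blockIn hGV hB hBi hsep
  have h3 : nd p red (G.subgroupOf V) (fun x : V => z0.1 x) (resU hB z0) =
      (Lnum (G.subgroupOf V) ⊤ (fun x : V => z0.1 x) (resU hB z0) : ℤ) -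
      (wcl p red (G.subgroupOf V) (fun x : V => z0.1 x) (resU hB z0) : ℤ) := rfl
  have h4 : thetaDefect p red (G.subgroupOf V) (blockIn G V B) =
      (numIBr (G.subgroupOf V) (blockIn G V B) : ℤ) -
      (thetaSum p red (G.subgroupOf V) (blockIn G V B) : ℤ) := rfl
  rw [h3, h4, h2] at h1
  omega

theorem sides_up (red : integralClosure ℤ ℂ →+* F) {G U : Subgroup Γ} [G.Normal] [U.Normal]
    (hGU : G ≤ U) (hp : IsPGroup p (Γ ⧸ G)) {B : (G → F) → F} (hB : IsBlock B)
    (hBi : IsInvBlock G B) {z0 : ZG F G}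
    (hsep : ∀ L : ZG F G →ₗ[F] F, IsMult L → L z0 = resU hB z0 → L = resU (G := G) hB)
    {C : (U → F) → F} (hC : IsBlock C) (hCB : Covers G U C B) :
    Lnum U ⊤ z0.1 (resU hB z0) = numIBr U C ∧
      wcl p red U z0.1 (resU hB z0) = thetaSum p red U C := by
  have : Infinite F := inferInstance
  have hCi := inv_of_covers hGU hp hBi hC hCB
  have hCB' : ∀ z : Γ → F, InZ G z → C (fun x => z x) = B (fun x => z x) :=
    fun z hz => hCB z (fun u _ x => hz.conj u x) hz.supp
  have hres : resU (G := G) hC = resU hB := LinearMap.ext fun z => hCB' z.1 z.2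
  have h2 := count_inv hGU hp hC hCi (z0 := z0) (by rw [hres]; exact hsep)
  rw [hres] at h2
  refine ⟨h2, ?_⟩
  have h1 := nd_eqU (p := p) red hGU hp hB hBi hsep hC hCB
  have h3 : nd p red U z0.1 (resU hB z0) =
      (Lnum U ⊤ z0.1 (resU hB z0) : ℤ) - (wcl p red U z0.1 (resU hB z0) : ℤ) := rfl
  have h4 : thetaDefect p red U C = (numIBr U C : ℤ) - (thetaSum p red U C : ℤ) := rfl
  rw [h3, h4, h2] at h1
  omega

/-- the relation between a function `n` on the subgroups between `G` and `Γ`, its Möbius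
transform `a` and a function `m` on the normal ones -/
structure Rel (G : Subgroup Γ) (a : Subgroup Γ → ℚ) (n : Subgroup Γ → ℕ) : Prop where
  off : ∀ L, ¬ G ≤ L → a L = 0
  low : ∀ K, G ≤ K → (n K : ℚ) = ∑ L : Subgroup Γ, if K ≤ L then a L else 0

theorem rel_coset {G U : Subgroup Γ} [U.Normal] {a : Subgroup Γ → ℚ}
    {n : Subgroup Γ → ℕ} (h : Rel G a n) {m : ℕ} (hm : (Nat.card Γ : ℚ) * m =
      ∑ L : Subgroup Γ, if U ⊔ L = ⊤ then (Nat.card L : ℚ) * a L else 0) {t : Γ}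
    (ht : U ⊔ Subgroup.zpowers t = ⊤) :
    Nat.card U * m = ∑ᶠ u : U, n (G ⊔ Subgroup.zpowers (t * (u : Γ))) := by
  have hpos : (Nat.card Γ : ℚ) ≠ 0 := by exact_mod_cast Nat.card_pos.ne'
  have : Fintype U := Fintype.ofFinite U
  rw [finsum_eq_sum_of_fintype]
  have h3 : ((∑ u : U, n (G ⊔ Subgroup.zpowers (t * (u : Γ))) : ℕ) : ℚ) =
      ∑ L : Subgroup Γ, ((Finset.univ.filter (fun u : U => t * (u : Γ) ∈ L)).card : ℚ) * a L := by
    push_cast
    rw [Finset.sum_congr rfl fun u _ => h.low _ le_sup_left, Finset.sum_comm]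
    refine Finset.sum_congr rfl fun L _ => ?_
    by_cases hL : G ≤ L
    · have h4 : ∀ u : U, (if G ⊔ Subgroup.zpowers (t * (u : Γ)) ≤ L then a L else 0) =
          if t * (u : Γ) ∈ L then a L else 0 := by
        intro u
        refine if_congr ?_ rfl rfl
        rw [sup_le_iff, Subgroup.zpowers_le]
        exact ⟨fun h => h.2, fun h => ⟨hL, h⟩⟩
      rw [Finset.sum_congr rfl fun u _ => h4 u, ← Finset.sum_filter, Finset.sum_const,
        nsmul_eq_mul]
    · rw [h.off L hL, mul_zero]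
      refine Finset.sum_eq_zero fun u _ => ?_
      rw [ite_self]
  have h4 : (Nat.card Γ : ℚ) * ((∑ u : U, n (G ⊔ Subgroup.zpowers (t * (u : Γ))) : ℕ) : ℚ) =
      (Nat.card Γ : ℚ) * ((Nat.card U * m : ℕ) : ℚ) := by
    rw [h3, Finset.mul_sum]
    push_cast
    rw [mul_left_comm, hm, Finset.mul_sum]
    refine Finset.sum_congr rfl fun L _ => ?_
    have h5 := coset_count ht L
    have h6 : (Nat.card Γ : ℚ) * ((Finset.univ.filter (fun u : U => t * (u : Γ) ∈ L)).card : ℚ) =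
        if U ⊔ L = ⊤ then (Nat.card U : ℚ) * Nat.card L else 0 := by
      have := congrArg (fun n : ℕ => (n : ℚ)) h5
      simp only [Nat.cast_mul, Nat.cast_ite, Nat.cast_zero] at this
      exact this
    rw [← mul_assoc, h6]
    by_cases h7 : U ⊔ L = ⊤
    · rw [if_pos h7, if_pos h7]
      ring
    · rw [if_neg h7, if_neg h7, zero_mul, mul_zero]
  have h5 := mul_left_cancel₀ hpos h4
  exact_mod_cast h5.symm

/-- Möbius inversion on the subgroups `L` with `U L = Γ`, for two functions -/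
theorem mob2 {U G : Subgroup Γ} {a b : Subgroup Γ → ℚ} {n m : Subgroup Γ → ℕ}
    (ha : Rel G a n) (hb : Rel G b m) (h : ∀ K, G ≤ K → U ⊔ K = ⊤ → n K = m K) :
    ∀ L, U ⊔ L = ⊤ → a L = b L := by
  have h1 := mob (U := U) (a := fun L => a L - b L) (n := fun K => (n K : ℚ) - m K) (G := G)
    (fun L hL => by
      rw [ha.off L hL, hb.off L hL, sub_zero])
    (fun K hK => by
      rw [ha.low K hK, hb.low K hK, ← Finset.sum_sub_distrib]
      refine Finset.sum_congr rfl fun L _ => ?_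
      by_cases h2 : K ≤ L
      · rw [if_pos h2, if_pos h2, if_pos h2]
      · rw [if_neg h2, if_neg h2, if_neg h2, sub_zero])
    (fun K hK hUK => by
      rw [h K hK hUK, sub_self])
  intro L hL
  exact sub_eq_zero.1 (h1 L hL)

/-- **One function for each side.** -/
theorem master2 (red : integralClosure ℤ ℂ →+* F) {G : Subgroup Γ} [G.Normal]
    (hp : IsPGroup p (Γ ⧸ G)) {B : (G → F) → F} (hB : IsBlock B) (hBi : IsInvBlock G B) :
    ∃ a b : Subgroup Γ → ℚ, (∀ L, 0 ≤ a L ∧ 0 ≤ b L) ∧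
      Rel G a (fun K => numIBr (G.subgroupOf K) (blockIn G K B)) ∧
      Rel G b (fun K => thetaSum p red (G.subgroupOf K) (blockIn G K B)) ∧
      ∀ (U : Subgroup Γ) [U.Normal], G ≤ U → ∀ C : (U → F) → F, IsBlock C → Covers G U C B →
        (Nat.card Γ : ℚ) * numIBr U C =
          (∑ L : Subgroup Γ, if U ⊔ L = ⊤ then (Nat.card L : ℚ) * a L else 0) ∧
        (Nat.card Γ : ℚ) * thetaSum p red U C =
          ∑ L : Subgroup Γ, if U ⊔ L = ⊤ then (Nat.card L : ℚ) * b L else 0 := by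
  have : Infinite F := inferInstance
  have hpos : (Nat.card Γ : ℚ) ≠ 0 := by exact_mod_cast Nat.card_pos.ne'
  obtain ⟨z0, hz0⟩ := sep (F := F) G (resU (G := G) hB)
  set c := resU (G := G) hB z0 with hc
  let _ := actX G z0.1 c z0.2
  refine ⟨fun L => lC G z0.1 c z0.2 L, fun L => (wC p red G z0.1 c L : ℚ) / Nat.card L,
    fun L => ⟨Nat.cast_nonneg _, div_nonneg (Nat.cast_nonneg _) (Nat.cast_nonneg _)⟩,
    ⟨fun L hL => ?_, fun K hK => ?_⟩, ⟨fun L hL => ?_, fun K hK => ?_⟩,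
    fun U _ hGU C hC hCB => ⟨?_, ?_⟩⟩
  · have : IsEmpty {φ : XX G z0.1 c // MulAction.stabilizer Γ φ = L} := by
      refine ⟨fun φ => hL ?_⟩
      rw [← φ.2]
      intro g hg
      exact triv_act G z0.1 c z0.2 g hg φ.1
    have h1 : lC G z0.1 c z0.2 L = 0 := Nat.card_of_isEmpty
    change ((lC G z0.1 c z0.2 L : ℕ) : ℚ) = 0
    rw [h1, Nat.cast_zero]
  · have _hh := trivial
    rw [← lnum_blockIn hK hB hBi hz0, ← hc, lnum_low hK z0.2 c]
    push_cast
    rfl
  · have h1 : wC p red G z0.1 c L = 0 := by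
      unfold wC
      refine Finset.sum_eq_zero fun Q _ => ?_
      rw [if_neg]
      rintro ⟨_, h⟩
      apply hL
      rw [← h]
      exact le_sup_left
    change ((wC p red G z0.1 c L : ℕ) : ℚ) / Nat.card L = 0
    rw [h1, Nat.cast_zero, zero_div]
  · have _hh := trivial
    rw [← sides_low (p := p) red hK hB hBi hz0, ← hc]
    have h2 : (Nat.card Γ : ℚ) * (wcl p red (G.subgroupOf K) (fun x : K => z0.1 x) c : ℚ) =
        ∑ L : Subgroup Γ, if K ≤ L then (L.index : ℚ) * wC p red G z0.1 c L else 0 := by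
      have h3 := wcl_low (p := p) red hp hK z0.2 c
      have h4 := congrArg (fun n : ℕ => (n : ℚ)) h3
      simp only [Nat.cast_mul, Nat.cast_sum, Nat.cast_ite, Nat.cast_zero] at h4
      exact h4
    refine mul_left_cancel₀ hpos ?_
    rw [h2, Finset.mul_sum]
    refine Finset.sum_congr rfl fun L _ => ?_
    by_cases h : K ≤ L
    · rw [if_pos h, if_pos h]
      have h6 : (Nat.card Γ : ℚ) = (L.index : ℚ) * Nat.card L := by
        exact_mod_cast (Subgroup.index_mul_card L).symm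
      have h7 : (Nat.card L : ℚ) ≠ 0 := by exact_mod_cast Nat.card_pos.ne'
      rw [h6]
      field_simp
    · rw [if_neg h, if_neg h, mul_zero]
  · rw [← (sides_up (p := p) red hGU hp hB hBi hz0 hC hCB).1, ← hc]
    have h3 := lnum_up (p := p) hGU hp z0.2 c
    have h4 := congrArg (fun n : ℕ => (n : ℚ)) h3
    simp only [Nat.cast_mul, Nat.cast_sum, Nat.cast_ite, Nat.cast_zero] at h4
    exact h4
  · rw [← (sides_up (p := p) red hGU hp hB hBi hz0 hC hCB).2, ← hc]
    have h3 := wcl_up (p := p) red hGU z0.2.conj c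
    have h4 := congrArg (fun n : ℕ => (n : ℚ)) h3
    simp only [Nat.cast_mul, Nat.cast_sum, Nat.cast_ite, Nat.cast_zero] at h4
    rw [h4]
    refine Finset.sum_congr rfl fun L _ => ?_
    by_cases h : U ⊔ L = ⊤
    · rw [if_pos h, if_pos h]
      have h7 : (Nat.card L : ℚ) ≠ 0 := by exact_mod_cast Nat.card_pos.ne'
      field_simp
    · rw [if_neg h, if_neg h]

/-- **Final form.** -/
theorem final2 (red : integralClosure ℤ ℂ →+* F) {G : Subgroup Γ} [G.Normal]
    (hp : IsPGroup p (Γ ⧸ G)) {B : (G → F) → F} (hB : IsBlock B) (hBi : IsInvBlock G B) :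
    (∃ a b : Subgroup Γ → ℚ,
      (∀ K, G ≤ K → (numIBr (G.subgroupOf K) (blockIn G K B) : ℚ) =
          (∑ᶠ L : Subgroup Γ, if K ≤ L then a L else 0) ∧
        (thetaSum p red (G.subgroupOf K) (blockIn G K B) : ℚ) =
          ∑ᶠ L : Subgroup Γ, if K ≤ L then b L else 0) ∧
      (∀ L, 0 ≤ a L ∧ 0 ≤ b L ∧ (¬ G ≤ L → a L = 0 ∧ b L = 0)) ∧
      ∀ (U : Subgroup Γ) [U.Normal], G ≤ U → ∀ C : (U → F) → F, IsBlock C → Covers G U C B →
        (Nat.card Γ : ℚ) * numIBr U C =
          (∑ᶠ L : Subgroup Γ, if U ⊔ L = ⊤ then (Nat.card L : ℚ) * a L else 0) ∧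
        (Nat.card Γ : ℚ) * thetaSum p red U C =
          ∑ᶠ L : Subgroup Γ, if U ⊔ L = ⊤ then (Nat.card L : ℚ) * b L else 0) ∧
    ∀ (U : Subgroup Γ) [U.Normal], G ≤ U → ∀ C : (U → F) → F, IsBlock C → Covers G U C B →
      (∀ t : Γ, U ⊔ Subgroup.zpowers t = ⊤ →
        Nat.card U * numIBr U C =
          (∑ᶠ u : U, numIBr (G.subgroupOf (G ⊔ Subgroup.zpowers (t * (u : Γ))))
            (blockIn G (G ⊔ Subgroup.zpowers (t * (u : Γ))) B)) ∧
        Nat.card U * thetaSum p red U C =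
          ∑ᶠ u : U, thetaSum p red (G.subgroupOf (G ⊔ Subgroup.zpowers (t * (u : Γ))))
            (blockIn G (G ⊔ Subgroup.zpowers (t * (u : Γ))) B)) ∧
      ((∀ K, G ≤ K → U ⊔ K = ⊤ → numIBr (G.subgroupOf K) (blockIn G K B) =
          thetaSum p red (G.subgroupOf K) (blockIn G K B)) →
        numIBr U C = thetaSum p red U C) := by
  obtain ⟨a, b, hab, ha, hb, hU⟩ := master2 (p := p) red hp hB hBi
  have hpos : (Nat.card Γ : ℚ) ≠ 0 := by exact_mod_cast Nat.card_pos.ne'
  refine ⟨⟨a, b, fun K hK => ⟨?_, ?_⟩, fun L => ⟨(hab L).1, (hab L).2, fun hL =>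
    ⟨ha.off L hL, hb.off L hL⟩⟩, fun U _ hGU C hC hCB => ⟨?_, ?_⟩⟩, fun U _ hGU C hC hCB =>
    ⟨fun t ht => ⟨?_, ?_⟩, fun h => ?_⟩⟩
  · rw [finsum_eq_sum_of_fintype]
    exact ha.low K hK
  · rw [finsum_eq_sum_of_fintype]
    exact hb.low K hK
  · rw [finsum_eq_sum_of_fintype]
    exact (hU U hGU C hC hCB).1
  · rw [finsum_eq_sum_of_fintype]
    exact (hU U hGU C hC hCB).2
  · exact rel_coset ha (hU U hGU C hC hCB).1 ht
  · exact rel_coset hb (hU U hGU C hC hCB).2 ht
  · have h1 := mob2 ha hb h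
    obtain ⟨h2, h3⟩ := hU U hGU C hC hCB
    have h4 : (Nat.card Γ : ℚ) * numIBr U C = (Nat.card Γ : ℚ) * thetaSum p red U C := by
      rw [h2, h3]
      refine Finset.sum_congr rfl fun L _ => ?_
      by_cases h5 : U ⊔ L = ⊤
      · rw [if_pos h5, if_pos h5, h1 L h5]
      · rw [if_neg h5, if_neg h5]
    exact_mod_cast mul_left_cancel₀ hpos h4

end Pool.Agent.X252.NI
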