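import Pool.Agent.X252.NVL

/-!
# The weight conjecture for a block of `Γ` as an average of Navarro's equalities
-/

set_option linter.unusedSectionVars false

open scoped Classical

noncomputable section

namespace Pool.Agent.X252.NVF

open Pool.Agent.Y63.NV Pool.Agent.Y286.NV Pool.Agent.X252.NVU Pool.Agent.X252.NVC
open Pool.Agent.Y63.AWC (IsIrreducibleCharacter pSubgroupSetoid)

/-- The block `B` of `G`, as a block of the subgroup `G` of the group `V`, for `G ≤ V ≤ Γ`. -/
def blockIn {F Γ : Type} [Field F] [Group Γ] (G V : Subgroup Γ) (B : (G → F) → F) :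
    (G.subgroupOf V → F) → F :=
  fun f => B (fun x : G => if h : (x : Γ) ∈ V then f ⟨⟨x, h⟩, x.2⟩ else 0)

section blk

variable {F : Type} [Field F] {Γ : Type} [Group Γ] [Finite Γ]

lemma block_comp {A K : Type} [Group A] [Group K] (e : A ≃* K) {D : (A → F) → F}
    (hD : IsBlock D) : IsBlock (fun f : K → F => D (fun a => f (e a))) := by
  have hcl : ∀ f : K → F, IsClassFun f → IsClassFun (fun a => f (e a)) := by
    intro f hf g x
    change f (e (g * x * g⁻¹)) = f (e x)
    rw [map_mul, map_mul, map_inv]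
    exact hf _ _
  refine ⟨fun f g hf hg => hD.add _ _ (hcl f hf) (hcl g hg), fun a f hf => hD.smul a _ (hcl f hf),
    ?_, fun f g hf hg => ?_⟩
  · refine Eq.trans (congrArg D ?_) hD.one
    funext a
    by_cases ha : a = 1
    · subst ha
      rw [map_one, Pi.single_eq_same]
      exact (Pi.single_eq_same (M := fun _ : A => F) 1 1).symm
    · rw [Pi.single_eq_of_ne (fun h => ha (by rwa [EmbeddingLike.map_eq_one_iff] at h))]
      exact (Pi.single_eq_of_ne (M := fun _ : A => F) ha 1).symm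
  · refine Eq.trans (congrArg D ?_) (hD.mul _ _ (hcl f hf) (hcl g hg))
    funext a
    unfold conv
    rw [← finsum_comp_equiv e.toEquiv]
    refine finsum_congr fun y => ?_
    change f (e y) * g ((e y)⁻¹ * e a) = f (e y) * g (e (y⁻¹ * a))
    rw [map_mul, map_inv]

variable {p : ℕ} [Fact p.Prime] [IsAlgClosed F] [CharP F p]

/-- the isomorphism of `G`, as a subgroup of `V`, with `G` -/
abbrev eV {G V : Subgroup Γ} (hGV : G ≤ V) : ↥(G.subgroupOf V) ≃* ↥G :=
  Subgroup.subgroupOfEquivOfLe hGV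

lemma blockIn_eq {G V : Subgroup Γ} (hGV : G ≤ V) (B : (G → F) → F) (f : G.subgroupOf V → F) :
    blockIn G V B f = B (fun x => f ((eV hGV).symm x)) := by
  unfold blockIn
  refine congrArg B (funext fun x => ?_)
  rw [dif_pos (hGV x.2)]
  rfl

/-- a block of `G` inside `V` which agrees with `B` at a separating element is `B` -/
theorem low_eq {G V : Subgroup Γ} [G.Normal] (hGV : G ≤ V) {B : (G → F) → F} (hB : IsBlock B)
    (hBi : IsInvBlock G B) {z0 : ZG F G} (hsep : ∀ L : ZG F G →ₗ[F] F, IsMult L →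
      L z0 = resU hB z0 → L = resU (G := G) hB) {D : (G.subgroupOf V → F) → F} (hD : IsBlock D)
    (h : D (fun x => z0.1 ((x : V) : Γ)) = resU hB z0) :
    ∀ f : G.subgroupOf V → F, IsClassFun f → D f = blockIn G V B f := by
  have : Infinite F := inferInstance
  have hD' := block_comp (eV hGV) hD
  have h1 : resU (G := G) hD' = resU hB := hsep _ (resU_mult le_rfl hD') h
  have h2 := star hB hBi hD' fun z hz => LinearMap.congr_fun h1 (⟨z, hz⟩ : ZG F G)
  intro f hf
  rw [blockIn_eq hGV]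
  have h3 := h2 (fun x => f ((eV hGV).symm x)) (fun g x => by
    change f ((eV hGV).symm (g * x * g⁻¹)) = _
    rw [map_mul, map_mul, map_inv]
    exact hf _ _)
  rw [← h3]
  refine congrArg D (funext fun a => ?_)
  rw [MulEquiv.symm_apply_apply]

theorem nd_blockIn (red : integralClosure ℤ ℂ →+* F) {G V : Subgroup Γ} [G.Normal]
    (hGV : G ≤ V) {B : (G → F) → F} (hB : IsBlock B)
    (hBi : IsInvBlock G B) {z0 : ZG F G} (hsep : ∀ L : ZG F G →ₗ[F] F, IsMult L →
      L z0 = resU hB z0 → L = resU (G := G) hB) :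
    nd p red (G.subgroupOf V) (fun x : V => z0.1 x) (resU hB z0) =
      navarroDefect p red (G.subgroupOf V) (blockIn G V B) := by
  have hzV : InZ (G.subgroupOf V) (fun x : V => z0.1 x) :=
    ⟨fun g x => z0.2.conj g x, fun x hx => z0.2.supp _ hx⟩
  have hval : blockIn G V B (fun x => z0.1 ((x : V) : Γ)) = resU hB z0 := by
    rw [blockIn_eq hGV]
    rfl
  unfold nd navarroDefect
  have e1 : Lnum (G.subgroupOf V) ⊤ (fun x : V => z0.1 x) (resU hB z0) =
      numIBr (G.subgroupOf V) (blockIn G V B) := by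
    unfold Lnum numIBr
    refine Nat.card_congr (Equiv.subtypeEquivRight fun φ => ?_)
    constructor
    · rintro ⟨hφ, hinv, hzφ⟩
      refine ⟨hφ, hinv, ?_⟩
      obtain ⟨⟨y, hy⟩, Bφ, hBφ, hact⟩ := schur' F (G.subgroupOf V) φ hφ
      have h4 : Bφ (fun x => z0.1 ((x : V) : Γ)) = resU hB z0 := by
        have h5 := hact (fun x => z0.1 ((x : V) : Γ)) (fun g x => z0.2.conj _ _) y
        exact mul_right_cancel₀ hy (h5.symm.trans (hzφ y))
      have h5 := low_eq hGV hB hBi hsep hBφ h4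
      intro f hf x
      rw [← h5 f hf]
      exact hact f hf x
    · rintro ⟨hφ, hinv, hzφ⟩
      refine ⟨hφ, hinv, fun x => ?_⟩
      rw [← hval]
      exact hzφ _ (fun g x => z0.2.conj _ _) x
  rw [e1]
  congr 2
  refine finsum_congr fun d => ?_
  by_cases h : G.subgroupOf V ⊔ d.out.1 = ⊤
  · rw [if_pos h, if_pos h]
    unfold Nw numDz
    refine Nat.card_congr (Equiv.subtypeEquivRight fun χ => ?_)
    constructor
    · rintro ⟨hw, hv⟩
      refine ⟨hw, ?_⟩
      obtain ⟨D, hD, -, hDz⟩ := Pool.Agent.Y918.NV.winv p F red V (G.subgroupOf V) d.out.1 χ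
        d.out.2 h hw
      have h4 : D (fun x => z0.1 ((x : V) : Γ)) = resU hB z0 := by
        rw [← hv]
        exact (hDz _ hzV).symm
      have h5 := low_eq hGV hB hBi hsep hD h4
      intro z hz
      rw [hDz z hz]
      exact h5 _ (fun g x => hz.conj _ _)
    · rintro ⟨hw, hv⟩
      exact ⟨hw, (hv _ hzV).trans hval⟩
  · rw [if_neg h, if_neg h]

/-- **The average formula.** -/
theorem average_formula (red : integralClosure ℤ ℂ →+* F) {G : Subgroup Γ} [G.Normal]
    (hp : IsPGroup p (Γ ⧸ G)) {B : (G → F) → F} (hB : IsBlock B)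
    (hBi : IsInvBlock G B) {B' : (Γ → F) → F} (hB' : IsBlock B')
    (hB'B : ∀ z : Γ → F, InZ G z → B' z = B (fun x => z x)) [Fintype Γ] :
    (Nat.card Γ : ℤ) * weightDefect p red B' =
      ∑ γ : Γ, navarroDefect p red (G.subgroupOf (G ⊔ Subgroup.zpowers γ))
        (blockIn G (G ⊔ Subgroup.zpowers γ) B) := by
  have : Infinite F := inferInstance
  obtain ⟨z0, hz0⟩ := sep (F := F) G (resU (G := G) hB)
  have e1 : (resU hB z0 : F) = B' z0.1 := (hB'B z0.1 z0.2).symm
  have h2 : wd p red z0.1 (resU hB z0) = weightDefect p red B' := by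
    rw [e1]
    refine wd_eq red z0.2.conj fun D' hD' h => ?_
    have h3 : resT (G := G) hD' = resU hB := hz0 _ (resT_mult hD') (by
      change D' z0.1 = _
      rw [h, e1])
    intro f hf
    exact uniq p (U := ⊤) le_top hp (isMF_block hD' ⊤) (isMF_block hB' ⊤) (fun z hz => by
      rw [hB'B z hz]
      exact LinearMap.congr_fun h3 (⟨z, hz⟩ : ZG F G)) f
      ⟨hf, fun x hx => absurd (Subgroup.mem_top x) hx⟩
  have h3 := Pool.Agent.X252.NVM.mean_L G hp z0.2 (resU (G := G) hB z0)
  have h4 := Pool.Agent.X252.NVM.mean_W (p := p) red G hp z0.2 (resU (G := G) hB z0)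
  have h5 : (Nat.card Γ : ℤ) * wd p red z0.1 (resU hB z0) =
      ∑ γ : Γ, nd p red (G.subgroupOf (G ⊔ Subgroup.zpowers γ))
        (fun x : ↥(G ⊔ Subgroup.zpowers γ) => z0.1 x) (resU hB z0) := by
    have h6 : (Nat.card Γ : ℤ) * (Lnum (⊤ : Subgroup Γ) ⊤ z0.1 (resU (G := G) hB z0) : ℤ) =
        ∑ γ : Γ, (Lnum (G.subgroupOf (G ⊔ Subgroup.zpowers γ)) ⊤
          (fun x : ↥(G ⊔ Subgroup.zpowers γ) => z0.1 x) (resU (G := G) hB z0) : ℤ) := by
      exact_mod_cast h3
    have h7 : ∀ γ : Γ, nd p red (G.subgroupOf (G ⊔ Subgroup.zpowers γ))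
        (fun x : ↥(G ⊔ Subgroup.zpowers γ) => z0.1 x) (resU hB z0) =
        (Lnum (G.subgroupOf (G ⊔ Subgroup.zpowers γ)) ⊤
          (fun x : ↥(G ⊔ Subgroup.zpowers γ) => z0.1 x) (resU (G := G) hB z0) : ℤ) -
        (Pool.Agent.X252.NVM.wcl p red (G.subgroupOf (G ⊔ Subgroup.zpowers γ))
        (fun x : ↥(G ⊔ Subgroup.zpowers γ) => z0.1 x) (resU (G := G) hB z0) : ℤ) :=
      fun γ => rfl
    rw [Finset.sum_congr rfl fun γ _ => h7 γ, Finset.sum_sub_distrib, ← h6, ← h4, ← mul_sub]
    rfl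
  rw [← h2, h5]
  refine Finset.sum_congr rfl fun γ _ => ?_
  exact nd_blockIn red le_sup_left hB hBi hz0

end blk

end Pool.Agent.X252.NVF
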