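import Pool.Agent.X252.NVU

/-!
# Separation of multiplicative functionals, and counting in a block
-/

set_option linter.unusedSectionVars false

open scoped Classical

noncomputable section

namespace Pool.Agent.X252.NVC

open Pool.Agent.Y63.NV Pool.Agent.Y286.NV Pool.Agent.X252.NVU
open Pool.Agent.Y63.AWC (IsIrreducibleCharacter pSubgroupSetoid)

section sep

variable {F : Type} [Field F] {Γ : Type} [Group Γ]

lemma conv_one_left [Finite Γ] (f : Γ → F) : conv (Pi.single 1 1) f = f := by
  funext x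
  unfold conv
  rw [finsum_eq_single _ (1 : Γ)]
  · rw [Pi.single_eq_same, one_mul, inv_one, one_mul]
  · intro y hy
    rw [Pi.single_eq_of_ne hy, zero_mul]

lemma conv_one_right [Finite Γ] (f : Γ → F) : conv f (Pi.single 1 1) = f := by
  funext x
  unfold conv
  rw [finsum_eq_single _ x]
  · rw [inv_mul_cancel, Pi.single_eq_same, mul_one]
  · intro y hy
    rw [Pi.single_eq_of_ne, mul_zero]
    intro h
    exact hy (inv_mul_eq_one.1 h)

/-- the multiplication of the central elements -/
@[reducible] def mulZ [Finite Γ] (G : Subgroup Γ) : MulOneClass (ZG F G) where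
  mul a b := ⟨conv a.1 b.1, conv_inZ a.2 b.2⟩
  one := ⟨Pi.single 1 1, single_inZ G⟩
  one_mul a := Subtype.ext (conv_one_left a.1)
  mul_one a := Subtype.ext (conv_one_right a.1)

/-- multiplicative linear functionals -/
structure IsMult [Finite Γ] {G : Subgroup Γ} (L : ZG F G →ₗ[F] F) : Prop where
  one : L ⟨Pi.single 1 1, single_inZ G⟩ = 1
  mul : ∀ a b : ZG F G, L ⟨conv a.1 b.1, conv_inZ a.2 b.2⟩ = L a * L b

theorem finite_mult [Finite Γ] (G : Subgroup Γ) : Finite {L : ZG F G →ₗ[F] F // IsMult L} := by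
  let _ := mulZ (F := F) G
  let Φ : {L : ZG F G →ₗ[F] F // IsMult L} → (ZG F G →* F) := fun L =>
    { toFun := fun a => L.1 a
      map_one' := L.2.one
      map_mul' := fun a b => L.2.mul a b }
  have hΦ : Function.Injective Φ := by
    intro L L' h
    refine Subtype.ext (LinearMap.ext fun a => ?_)
    exact congrArg (fun m : ZG F G →* F => m a) h
  have h1 := (linearIndependent_monoidHom (ZG F G) F).comp Φ hΦ
  have h2 : LinearIndependent F (fun L : {L : ZG F G →ₗ[F] F // IsMult L} => L.1) := by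
    let ev : (ZG F G →ₗ[F] F) →ₗ[F] (ZG F G → F) :=
      { toFun := fun L a => L a
        map_add' := fun _ _ => rfl
        map_smul' := fun _ _ => rfl }
    exact LinearIndependent.of_comp ev h1
  exact h2.finite

/-- **Separation.** -/
theorem sep [Finite Γ] [Infinite F] (G : Subgroup Γ) (β : ZG F G →ₗ[F] F) :
    ∃ z : ZG F G, ∀ L : ZG F G →ₗ[F] F, IsMult L → L z = β z → L = β := by
  have := finite_mult (F := F) G
  obtain ⟨z, hz⟩ := exists_sep (fun L : {L : ZG F G →ₗ[F] F // IsMult L} => L.1) β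
  exact ⟨z, fun L hL h => hz ⟨L, hL⟩ h⟩

lemma res_conv [Finite Γ] (U : Subgroup Γ) {f g : Γ → F} (hf : ∀ x, x ∉ U → f x = 0) :
    (fun x : U => conv f g x) = conv (fun x : U => f x) (fun x : U => g x) := by
  funext x
  unfold conv
  rw [Pool.Agent.Y824.NV.finsum_supp U (fun y => f y * g (y⁻¹ * x)) (fun y hy => by
    rw [hf y hy, zero_mul])]
  rfl

lemma res_single (U : Subgroup Γ) (i : DecidableEq U) :
    (fun x : U => (Pi.single 1 1 : Γ → F) x) = @Pi.single U (fun _ => F) _ i 1 1 := by
  funext x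
  by_cases hx : x = 1
  · subst hx
    rw [Pi.single_eq_same]
    exact Pi.single_eq_same (M := fun _ : Γ => F) 1 1
  · rw [Pi.single_eq_of_ne hx, Pi.single_eq_of_ne]
    intro h
    exact hx (Subtype.ext h)

/-- the restriction of a block of `U` to the central elements supported on `G` -/
def resU {G U : Subgroup Γ} {D : (U → F) → F} (hD : IsBlock D) : ZG F G →ₗ[F] F where
  toFun z := D (fun x : U => z.1 x)
  map_add' a b := hD.add _ _ (res_classFun a.2 U) (res_classFun b.2 U)
  map_smul' c a := hD.smul c _ (res_classFun a.2 U)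

lemma resU_mult [Finite Γ] {G U : Subgroup Γ} (hGU : G ≤ U) {D : (U → F) → F}
    (hD : IsBlock D) : IsMult (resU (G := G) hD) where
  one := by
    exact (congrArg D (res_single U _)).trans hD.one
  mul a b := by
    change D (fun x : U => conv a.1 b.1 x) = _
    rw [res_conv U (fun x hx => a.2.supp x fun h => hx (hGU h))]
    exact hD.mul _ _ (res_classFun a.2 U) (res_classFun b.2 U)

/-- the restriction of a block of `Γ` -/
def resT {G : Subgroup Γ} {D : (Γ → F) → F} (hD : IsBlock D) : ZG F G →ₗ[F] F where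
  toFun z := D z.1
  map_add' a b := hD.add _ _ a.2.conj b.2.conj
  map_smul' c a := hD.smul c _ a.2.conj

lemma resT_mult [Finite Γ] {G : Subgroup Γ} {D : (Γ → F) → F} (hD : IsBlock D) :
    IsMult (resT (G := G) hD) where
  one := hD.one
  mul a b := hD.mul _ _ a.2.conj b.2.conj

end sep

section count

variable {F : Type} [Field F] [IsAlgClosed F] {H : Type} [Group H] [Finite H]

/-- `up` of a function functional, and the trace condition -/
lemma flat_up {D : (H → F) → F} (f : H → F) : up D (fun x : (⊤ : Subgroup H) => f x) = D f := rfl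

/-- counting the irreducible traces of `H` in a block -/
theorem count_L {D : (H → F) → F} {z : H → F} (hz : IsClassFun z)
    (hsep : ∀ D' : (H → F) → F, IsBlock D' → D' z = D z → ∀ f, IsClassFun f → D' f = D f) :
    Lnum (⊤ : Subgroup H) ⊤ z (D z) = numIrrBlock D := by
  have h0 : numIBr (⊤ : Subgroup H) (up D) = numIrrBlock D := numIBr_eq (up D)
  rw [← h0]
  unfold Lnum numIBr
  refine Nat.card_congr (Equiv.subtypeEquivRight fun φ => ?_)
  constructor
  · rintro ⟨hφ, hinv, hzφ⟩
    refine ⟨hφ, hinv, ?_⟩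
    obtain ⟨⟨y, hy⟩, Bφ, hBφ, hact⟩ := schur' F (⊤ : Subgroup H) φ hφ
    have h4 : Bφ (fun x : (⊤ : Subgroup H) => z x) = D z := by
      have h5 := hact (fun x : (⊤ : Subgroup H) => z x) (fun g x => hz g x) y
      exact mul_right_cancel₀ hy (h5.symm.trans (hzφ y))
    have h6 := hsep _ (Pool.Agent.Y63.NV.B286.flat_block hBφ) h4
    intro f hf x
    have h7 : Bφ f = up D f :=
      h6 (fun x : H => f ⟨x, trivial⟩) (fun g x => hf ⟨g, trivial⟩ ⟨x, trivial⟩)
    rw [← h7]
    exact hact f hf x
  · rintro ⟨hφ, hinv, hzφ⟩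
    exact ⟨hφ, hinv, fun x => hzφ _ (fun g x => hz g x) x⟩

/-- counting the weights of `H` in a block -/
theorem count_W {p : ℕ} [Fact p.Prime] [CharP F p] (red : integralClosure ℤ ℂ →+* F)
    {D : (H → F) → F} {z : H → F} (hz : IsClassFun z)
    (hsep : ∀ D' : (H → F) → F, IsBlock D' → D' z = D z → ∀ f, IsClassFun f → D' f = D f)
    {Q : Subgroup H} (hQ : IsPGroup p Q) :
    Nw p red (Q.subgroupOf (Subgroup.normalizer (Q : Set H))) (fun x => z x) (D z) =
      numWtBlock p red Q D := by
  unfold Nw numWtBlock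
  refine Nat.card_congr (Equiv.subtypeEquivRight fun χ => ?_)
  constructor
  · rintro ⟨hw, hv⟩
    exact ⟨hw, hsep _ (wblk' p F red H Q χ hQ hw) hv⟩
  · rintro ⟨hw, hv⟩
    exact ⟨hw, hv z hz⟩

/-- the sums over all `p`-subgroups as sums over the classes -/
theorem wsum_classes {p : ℕ} (red : integralClosure ℤ ℂ →+* F) (K : Subgroup H) [K.Normal]
    {z : H → F} (hz : IsClassFun z) (c : F) :
    Wsum p red K ⊤ z c = (Nat.card H : ℤ) * ((∑ᶠ d : Quotient (pSubgroupSetoid p H),
      if K ⊔ d.out.1 = ⊤ then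
        Nw p red (d.out.1.subgroupOf (Subgroup.normalizer (d.out.1 : Set H))) (fun x => z x) c
      else 0 : ℕ) : ℤ) := by
  set f : Subgroup H → ℕ := fun Q => if K ⊔ Q = ⊤ then
    Nw p red (Q.subgroupOf (Subgroup.normalizer (Q : Set H))) (fun x => z x) c else 0 with hf
  have hfc : ∀ (g : H) (Q : Subgroup H), f (Q.map (MulAut.conj g).toMonoidHom) = f Q := by
    intro g Q
    simp only [hf]
    rw [← Pool.Agent.Y63.NV.B48B.nw_conj p red hz c g Q, propext (sup_conj K g Q)]
  rw [← Nat.cast_mul, orbit_weights p f hfc]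
  have : Fintype {Q : Subgroup H // IsPGroup p Q} := Fintype.ofFinite _
  have : Fintype (Subgroup H) := Fintype.ofFinite _
  unfold Wsum
  rw [finsum_eq_sum_of_fintype, finsum_eq_sum_of_fintype, Nat.cast_sum]
  have h5 : ∀ Q : Subgroup H, (if IsPGroup p Q ∧ Q ≤ (⊤ : Subgroup H) ∧ K ⊔ Q = ⊤ then
      (Nat.card ↥((⊤ : Subgroup H) ⊓ Subgroup.normalizer (Q : Set H)) : ℤ) *
      Nw p red (Q.subgroupOf (⊤ ⊓ Subgroup.normalizer (Q : Set H))) (fun x => z x) c else 0)
      = if IsPGroup p Q then ((Nat.card (Subgroup.normalizer (Q : Set H)) * f Q : ℕ) : ℤ)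
        else 0 := by
    intro Q
    rw [top_inf_eq]
    by_cases hQ : IsPGroup p Q
    · by_cases hGQ : K ⊔ Q = ⊤
      · rw [if_pos ⟨hQ, le_top, hGQ⟩, if_pos hQ]
        simp only [hf]
        rw [if_pos hGQ, Nat.cast_mul]
      · rw [if_neg (fun h => hGQ h.2.2), if_pos hQ]
        simp only [hf]
        rw [if_neg hGQ, mul_zero, Nat.cast_zero]
    · rw [if_neg (fun h => hQ h.1), if_neg hQ]
  rw [Finset.sum_congr rfl fun Q _ => h5 Q, ← Finset.sum_filter]
  exact Finset.sum_subtype (p := fun Q : Subgroup H => IsPGroup p Q)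
    (Finset.univ.filter fun Q : Subgroup H => IsPGroup p Q) (by simp)
    (fun Q => ((Nat.card (Subgroup.normalizer (Q : Set H)) * f Q : ℕ) : ℤ))

theorem lsum_eq' (K : Subgroup H) (z : H → F) (c : F) :
    Lsum K ⊤ z c = (Nat.card H : ℤ) * Lnum K ⊤ z c := by
  unfold Lsum
  rw [if_pos (sup_top_eq K), inf_top_eq, Subgroup.card_top]

end count

end Pool.Agent.X252.NVC
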