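import Pool.Agent.X252.NVC

/-!
# Navarro's equality and the Frattini subgroup of `Γ/G`; cyclic quotients
-/

set_option linter.unusedSectionVars false

open scoped Classical

noncomputable section

namespace Pool.Agent.X252.NVF

open Pool.Agent.Y63.NV Pool.Agent.Y286.NV Pool.Agent.X252.NVU Pool.Agent.X252.NVC
open Pool.Agent.Y63.AWC (IsIrreducibleCharacter pSubgroupSetoid)

/-- The block `C` of the subgroup `U` covers the `U`-invariant block `B` of the subgroup `G` of
`U`: the central characters agree at the central elements of `F[U]` supported on `G`. -/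
def Covers {F Γ : Type} [Field F] [Group Γ] (G U : Subgroup Γ) (C : (U → F) → F)
    (B : (G → F) → F) : Prop :=
  ∀ z : Γ → F, (∀ u ∈ U, ∀ x : Γ, z (u * x * u⁻¹) = z x) → (∀ x : Γ, x ∉ G → z x = 0) →
    C (fun x => z x) = B (fun x => z x)

/-- The difference of the two sides of Navarro's equality for the block `B` of `G ⊴ Γ`:
`|IBr_Γ(B)|` minus the sum of `|dz(N_Γ(Q)/Q | B)|` over representatives of the `Γ`-classes of
`p`-subgroups `Q` with `GQ = Γ`. -/
def navarroDefect (p : ℕ) {F Γ : Type} [Field F] [Group Γ] (red : integralClosure ℤ ℂ →+* F)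
    (G : Subgroup Γ) (B : (G → F) → F) : ℤ :=
  (numIBr G B : ℤ) - ((∑ᶠ c : Quotient (pSubgroupSetoid p Γ),
    if G ⊔ c.out.1 = ⊤ then numDz p red G c.out.1 B else 0 : ℕ) : ℤ)

/-- The difference of the two sides of the blockwise Alperin weight conjecture for the block `B` of
`H`: `l(B)` minus the number of classes of weights of `B`. -/
def weightDefect (p : ℕ) {F H : Type} [Field F] [Group H] (red : integralClosure ℤ ℂ →+* F)
    (B : (H → F) → F) : ℤ :=
  (numIrrBlock B : ℤ) - ((∑ᶠ c : Quotient (pSubgroupSetoid p H),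
    numWtBlock p red c.out.1 B : ℕ) : ℤ)

section frat

variable {F : Type} [Field F] {Γ : Type} [Group Γ] [Finite Γ]

lemma isMF_res {G U : Subgroup Γ} (hGU : G ≤ U) {D : (U → F) → F} (hD : IsBlock D) :
    IsMF G (fun z : Γ → F => D (fun x => z x)) where
  zero := by
    have := hD.smul 0 (0 : U → F) (fun _ _ => rfl)
    rw [zero_smul, zero_mul] at this
    exact this
  add f g hf hg := hD.add _ _ (res_classFun hf U) (res_classFun hg U)
  one := (congrArg D (res_single U _)).trans hD.one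
  mul f g hf hg := by
    rw [res_conv U (fun x hx => hf.supp x fun h => hx (hGU h))]
    exact hD.mul _ _ (res_classFun hf U) (res_classFun hg U)

lemma single_comp {H : Type} [Group H] (e : H ≃* H) (i j : DecidableEq H) :
    (fun x => @Pi.single H (fun _ => F) _ i 1 1 (e x)) = @Pi.single H (fun _ => F) _ j 1 1 := by
  obtain rfl : i = j := Subsingleton.elim _ _
  funext x
  by_cases hx : x = 1
  · subst hx
    rw [map_one, Pi.single_eq_same]
  · rw [Pi.single_eq_of_ne hx, Pi.single_eq_of_ne]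
    intro h
    exact hx (by rwa [EmbeddingLike.map_eq_one_iff] at h)

lemma reg_mem {p : ℕ} (hpr : p.Prime) {G : Subgroup Γ} [G.Normal] (hp : IsPGroup p (Γ ⧸ G))
    {x : Γ} (hx : ¬ p ∣ orderOf x) : x ∈ G := by
  obtain ⟨k, hk⟩ := hp (x : Γ ⧸ G)
  have h1 : orderOf (x : Γ ⧸ G) ∣ p ^ k := orderOf_dvd_of_pow_eq_one hk
  have h2 : orderOf (x : Γ ⧸ G) ∣ orderOf x := orderOf_map_dvd (QuotientGroup.mk' G) x
  obtain ⟨j, hj, h3⟩ := (Nat.dvd_prime_pow hpr).1 h1
  rcases Nat.eq_zero_or_pos j with h0 | h0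
  · rw [h0, pow_zero] at h3
    exact (QuotientGroup.eq_one_iff x).1 (orderOf_eq_one_iff.1 h3)
  · exfalso
    apply hx
    rw [h3] at h2
    exact (dvd_pow_self p h0.ne').trans h2

lemma s0_eq {p : ℕ} (hpr : p.Prime) {G U : Subgroup Γ} [hG : G.Normal] (hGU : G ≤ U)
    (hp : IsPGroup p (Γ ⧸ G)) (hΦ : ∀ H : Subgroup Γ, U ⊔ H = ⊤ → G ⊔ H = ⊤) :
    S0 p G ⊤ = S0 p U ⊤ := by
  ext x
  constructor
  · rintro ⟨h1, h2, h3⟩
    refine ⟨hGU h1, h2, fun h hh => ?_⟩
    obtain ⟨n, hn, h4⟩ := h3 h hh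
    exact ⟨n, hGU hn, h4⟩
  · rintro ⟨_, h2, h3⟩
    refine ⟨reg_mem hpr hp h2, h2, fun h _ => ?_⟩
    have h5 : U ⊔ Subgroup.centralizer {x} = ⊤ := by
      rw [eq_top_iff]
      intro g _
      obtain ⟨u, hu, h6⟩ := h3 g trivial
      have h7 : u⁻¹ * g ∈ Subgroup.centralizer {x} := by
        rw [Subgroup.mem_centralizer_singleton_iff]
        have h8 : u⁻¹ * (g * x * g⁻¹) * g = x * (u⁻¹ * g) := by
          rw [h6]
          group
        rw [← h8]
        group
      have h8 : g = u * (u⁻¹ * g) := by group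
      rw [h8]
      exact Subgroup.mul_mem_sup hu h7
    have h6 := hΦ _ h5
    have h7 : h ∈ G ⊔ Subgroup.centralizer {x} := by rw [h6]; trivial
    rw [Subgroup.mem_sup_of_normal_left] at h7
    obtain ⟨g, hg, c, hc, rfl⟩ := h7
    rw [Subgroup.mem_centralizer_singleton_iff] at hc
    refine ⟨g, hg, ?_⟩
    have h9 : c * x * c⁻¹ = x := by rw [hc]; group
    calc g * c * x * (g * c)⁻¹ = g * (c * x * c⁻¹) * g⁻¹ := by group
      _ = g * x * g⁻¹ := by rw [h9]

lemma ext_of {p : ℕ} {G N : Subgroup Γ} [hN : N.Normal] [G.Normal] (hGN : G ≤ N)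
    (hp : IsPGroup p (Γ ⧸ G)) {z : Γ → F} (hz : InZ G z) : Ext p N ⊤ z where
  le := le_top
  norm h _ n hn := hN.conj_mem n hn h
  pq h _ := by
    obtain ⟨k, hk⟩ := hp (h : Γ ⧸ G)
    refine ⟨k, hGN ?_⟩
    rwa [← QuotientGroup.mk_pow, QuotientGroup.eq_one_iff] at hk
  inv h _ x := hz.conj h x
  supp x hx := hz.supp x fun h => hx (hGN h)

variable {p : ℕ} [Fact p.Prime] [IsAlgClosed F] [CharP F p]

theorem lnum_eq {G U : Subgroup Γ} [G.Normal] [U.Normal] (hGU : G ≤ U)
    (hp : IsPGroup p (Γ ⧸ G)) (hΦ : ∀ H : Subgroup Γ, U ⊔ H = ⊤ → G ⊔ H = ⊤) {z : Γ → F}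
    (hz : InZ G z) (c : F) : Lnum G ⊤ z c = Lnum U ⊤ z c := by
  rw [brq' p F Γ G ⊤ z (ext_of le_rfl hp hz) c, brq' p F Γ U ⊤ z (ext_of hGU hp hz) c,
    s0_eq Fact.out hGU hp hΦ]

/-- counting the invariant irreducible traces of `N` in an invariant block, by an element
supported on `G` -/
theorem count_inv {G N : Subgroup Γ} [G.Normal] [N.Normal] (hGN : G ≤ N)
    (hp : IsPGroup p (Γ ⧸ G)) {D : (N → F) → F} (hD : IsBlock D) (hDi : IsInvBlock N D)
    {z0 : ZG F G} (hsep : ∀ L : ZG F G →ₗ[F] F, IsMult L → L z0 = resU hD z0 →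
      L = resU (G := G) hD) :
    Lnum N ⊤ z0.1 (resU hD z0) = numIBr N D := by
  have : Infinite F := inferInstance
  unfold Lnum numIBr
  refine Nat.card_congr (Equiv.subtypeEquivRight fun φ => ?_)
  constructor
  · rintro ⟨hφ, hinv, hzφ⟩
    refine ⟨hφ, hinv, ?_⟩
    obtain ⟨⟨y, hy⟩, Bφ, hBφ, hact⟩ := schur' F N φ hφ
    have h4 : Bφ (fun x : N => z0.1 x) = resU hD z0 := by
      have h5 := hact (fun x : N => z0.1 x) (res_classFun z0.2 N) y
      exact mul_right_cancel₀ hy (h5.symm.trans (hzφ y))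
    have h5 : resU (G := G) hBφ = resU hD := hsep _ (resU_mult hGN hBφ) h4
    have h6 : ∀ z : Γ → F, InZ N z → Bφ (fun x => z x) = D (fun x => z x) :=
      uniq p hGN hp (isMF_res le_rfl hBφ) (isMF_res le_rfl hD) fun z hz =>
        LinearMap.congr_fun h5 (⟨z, hz⟩ : ZG F G)
    have h7 := star hD hDi hBφ h6
    intro f hf x
    rw [← h7 f hf]
    exact hact f hf x
  · rintro ⟨hφ, hinv, hzφ⟩
    exact ⟨hφ, hinv, fun x => hzφ _ (res_classFun z0.2 N) x⟩

theorem dz_eq {G U : Subgroup Γ} [G.Normal] [U.Normal] (hGU : G ≤ U)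
    (hp : IsPGroup p (Γ ⧸ G)) (red : integralClosure ℤ ℂ →+* F) {B : (G → F) → F}
    {C : (U → F) → F} (hC : IsBlock C)
    (hCB : ∀ z : Γ → F, InZ G z → C (fun x => z x) = B (fun x => z x)) {Q : Subgroup Γ}
    (hQ : IsPGroup p Q) : numDz p red G Q B = numDz p red U Q C := by
  unfold numDz
  refine Nat.card_congr (Equiv.subtypeEquivRight fun χ => ?_)
  constructor
  · rintro ⟨h1, h2⟩
    refine ⟨h1, ?_⟩
    have h3 := wblk' p F red Γ Q χ hQ h1
    exact uniq p hGU hp (isMF_block h3 U) (isMF_res le_rfl hC) fun z hz => by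
      rw [hCB z hz]
      exact h2 z hz
  · rintro ⟨h1, h2⟩
    exact ⟨h1, fun z hz => (h2 z (InZ.mono hGU hz)).trans (hCB z hz)⟩

/-- an extension by zero -/
def ext0 {U : Subgroup Γ} (w : U → F) : Γ → F := fun x => if h : x ∈ U then w ⟨x, h⟩ else 0

/-- a block of `U` covering an invariant block of `G` is invariant -/
theorem inv_of_covers {G U : Subgroup Γ} [hGn : G.Normal] [hUn : U.Normal] (hGU : G ≤ U)
    (hp : IsPGroup p (Γ ⧸ G)) {B : (G → F) → F} {C : (U → F) → F}
    (hBi : IsInvBlock G B) (hC : IsBlock C) (hCB : Covers G U C B) : IsInvBlock U C := by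
  have hp' : IsPGroup p (U ⧸ G.subgroupOf U) := by
    intro x
    obtain ⟨g, rfl⟩ := QuotientGroup.mk_surjective x
    obtain ⟨k, hk⟩ := hp ((g : Γ) : Γ ⧸ G)
    refine ⟨k, ?_⟩
    rw [← QuotientGroup.mk_pow, QuotientGroup.eq_one_iff] at hk ⊢
    exact hk
  intro γ f f' hf hff'
  have hf' : f' = cf γ f := by
    funext y
    have h1 := hff' ((MulAut.conjNormal (H := U) γ).symm y) y (by
      rw [MulAut.conjNormal_symm_apply]
      group)
    exact h1
  rw [hf']
  -- the conjugate block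
  have hCγ : IsMF (⊤ : Subgroup U) (fun w : U → F => C (cf γ w)) := by
    refine ⟨?_, fun a b ha hb => ?_, ?_, fun a b ha hb => ?_⟩
    · exact (isMF_block hC ⊤).zero
    · exact hC.add _ _ (cf_class γ ha.conj) (cf_class γ hb.conj)
    · exact (congrArg C (single_comp (MulAut.conjNormal (H := U) γ).symm _ _)).trans hC.one
    · refine Eq.trans (congrArg C ?_) (hC.mul _ _ (cf_class γ ha.conj) (cf_class γ hb.conj))
      funext x
      unfold cf conv
      rw [← finsum_comp_equiv (MulAut.conjNormal (H := U) γ).symm.toEquiv]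
      refine finsum_congr fun y => ?_
      change a _ * b _ = a _ * b _
      rw [map_mul, map_inv]
      rfl
  have key : ∀ w : U → F, InZ (G.subgroupOf U) w → C (cf γ w) = C w := by
    intro w hw
    set z : Γ → F := ext0 w with hz
    have hzw : ∀ x : U, z x = w x := fun x => dif_pos x.2
    have hz0 : ∀ x : Γ, x ∉ U → z x = 0 := fun x hx => dif_neg hx
    have hzU : ∀ u ∈ U, ∀ x : Γ, z (u * x * u⁻¹) = z x := by
      intro u hu x
      by_cases hx : x ∈ U
      · have h1 := hw.conj ⟨u, hu⟩ ⟨x, hx⟩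
        have h2 := hzw (⟨u, hu⟩ * ⟨x, hx⟩ * (⟨u, hu⟩ : U)⁻¹)
        have h3 := hzw ⟨x, hx⟩
        rw [h1, ← h3] at h2
        exact h2
      · rw [hz0 x hx, hz0]
        intro h
        apply hx
        have := U.mul_mem (U.mul_mem (U.inv_mem hu) h) hu
        have e : u⁻¹ * (u * x * u⁻¹) * u = x := by group
        rwa [e] at this
    have hzG : ∀ x : Γ, x ∉ G → z x = 0 := by
      intro x hx
      by_cases hxU : x ∈ U
      · have h1 := hzw ⟨x, hxU⟩
        simp only at h1
        rw [h1]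
        exact hw.supp _ hx
      · exact hz0 x hxU
    have e1 : C w = B (fun x => z x) := by
      rw [← hCB z hzU hzG]
      exact congrArg C (funext fun x => (hzw x).symm)
    have hU' : ∀ u ∈ U, ∀ x : Γ, (fun x => z (γ⁻¹ * x * γ)) (u * x * u⁻¹) =
        (fun x => z (γ⁻¹ * x * γ)) x := by
      intro u hu x
      have hu' : γ⁻¹ * u * γ ∈ U := by
        have := hUn.conj_mem u hu γ⁻¹
        rwa [inv_inv] at this
      have h1 := hzU _ hu' (γ⁻¹ * x * γ)
      have e : γ⁻¹ * u * γ * (γ⁻¹ * x * γ) * (γ⁻¹ * u * γ)⁻¹ = γ⁻¹ * (u * x * u⁻¹) * γ := by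
        group
      rw [e] at h1
      exact h1
    have hG' : ∀ x : Γ, x ∉ G → (fun x => z (γ⁻¹ * x * γ)) x = 0 := by
      intro x hx
      refine hzG _ fun h => hx ?_
      have := hGn.conj_mem _ h γ
      have e : γ * (γ⁻¹ * x * γ) * γ⁻¹ = x := by group
      rwa [e] at this
    have e2 := hCB (fun x => z (γ⁻¹ * x * γ)) hU' hG'
    have e3 : C (cf γ w) = C (fun x : U => z (γ⁻¹ * x * γ)) := by
      refine congrArg C (funext fun x => ?_)
      unfold cf
      have h1 := hzw ((MulAut.conjNormal (H := U) γ).symm x)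
      rw [MulAut.conjNormal_symm_apply] at h1
      exact h1.symm
    have e4 : B (fun x : G => z (γ⁻¹ * x * γ)) = B (fun x : G => z x) := by
      refine hBi γ _ _ (fun g x => hzU g (hGU g.2) x) fun x y hxy => ?_
      rw [hxy]
      congr 1
      group
    rw [e3, e1, ← e4]
    exact e2
  exact uniq p (G := G.subgroupOf U) (U := ⊤) le_top hp' hCγ (isMF_block hC ⊤) key f
    ⟨hf, fun x hx => absurd (Subgroup.mem_top x) hx⟩

/-- **The Frattini reduction.** -/
theorem frattini_blocks {G U : Subgroup Γ} [G.Normal] [U.Normal] (hGU : G ≤ U)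
    (hp : IsPGroup p (Γ ⧸ G)) (hΦ : ∀ H : Subgroup Γ, U ⊔ H = ⊤ → G ⊔ H = ⊤)
    (red : integralClosure ℤ ℂ →+* F) {B : (G → F) → F} (hB : IsBlock B) (hBi : IsInvBlock G B)
    {C : (U → F) → F} (hC : IsBlock C) (hCB : Covers G U C B) :
    numIBr G B = numIBr U C ∧
      (∀ Q : Subgroup Γ, IsPGroup p Q → numDz p red G Q B = numDz p red U Q C) ∧
      navarroDefect p red G B = navarroDefect p red U C := by
  have : Infinite F := inferInstance
  have hCi := inv_of_covers hGU hp hBi hC hCB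
  have hCB' : ∀ z : Γ → F, InZ G z → C (fun x => z x) = B (fun x => z x) :=
    fun z hz => hCB z (fun u _ x => hz.conj u x) hz.supp
  obtain ⟨z0, hz0⟩ := sep (F := F) G (resU (G := G) hB)
  have hres : resU (G := G) hC = resU hB := LinearMap.ext fun z => hCB' z.1 z.2
  have h1 := count_inv le_rfl hp hB hBi hz0
  have h2 := count_inv hGU hp hC hCi (z0 := z0) (by rw [hres]; exact hz0)
  have h3 : numIBr G B = numIBr U C := by
    rw [← h1, ← h2, hres]
    exact lnum_eq hGU hp hΦ z0.2 _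
  have h4 : ∀ Q : Subgroup Γ, IsPGroup p Q → numDz p red G Q B = numDz p red U Q C :=
    fun Q hQ => dz_eq hGU hp red hC hCB' hQ
  refine ⟨h3, h4, ?_⟩
  unfold navarroDefect
  rw [h3]
  congr 2
  refine finsum_congr fun c => ?_
  by_cases h5 : G ⊔ c.out.1 = ⊤
  · have h6 : U ⊔ c.out.1 = ⊤ := by
      rw [eq_top_iff, ← h5]
      exact sup_le_sup_right hGU _
    rw [if_pos h5, if_pos h6, h4 _ c.out.2]
  · rw [if_neg h5, if_neg fun h => h5 (hΦ _ h)]

end frat

end Pool.Agent.X252.NVF
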