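import Pool.Agent.X252.NVC

/-!
# Existence of covering blocks
-/

set_option linter.unusedSectionVars false

open scoped Classical

noncomputable section

namespace Pool.Agent.X252.NVX

open Pool.Agent.Y63.NV Pool.Agent.Y286.NV Pool.Agent.Y405.NV Pool.Agent.X252.NVU
open Pool.Agent.X252.NVC

/-- extension of algebra homomorphisms to a finite-dimensional commutative algebra -/
theorem extend_hom {F Z : Type} [Field F] [IsAlgClosed F] [CommRing Z] [Algebra F Z]
    [Module.Finite F Z] (E : Subalgebra F Z) (b : E →ₐ[F] F) :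
    ∃ g : Z →ₐ[F] F, ∀ z : E, g z = b z := by
  have hint : Algebra.IsIntegral F Z := inferInstance
  have hint' : Algebra.IsIntegral E Z := Algebra.IsIntegral.tower_top F
  have hsurj : Function.Surjective b.toRingHom := fun c => ⟨algebraMap F _ c, b.commutes c⟩
  have hmax : (RingHom.ker b.toRingHom).IsMaximal :=
    RingHom.ker_isMaximal_of_surjective _ hsurj
  obtain ⟨Q, hQ, hQc⟩ := Ideal.exists_ideal_over_maximal_of_isIntegral (S := Z)
    (RingHom.ker b.toRingHom) (by
      intro x hx
      have h1 : x = 0 := by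
        apply Subtype.ext
        exact hx
      rw [h1]
      exact Ideal.zero_mem _)
  let _ : Field (Z ⧸ Q) := Ideal.Quotient.field Q
  have hint2 : Algebra.IsIntegral F (Z ⧸ Q) := inferInstance
  have hbij : Function.Bijective (algebraMap F (Z ⧸ Q)) :=
    IsAlgClosed.algebraMap_bijective_of_isIntegral
  let e : F ≃ₐ[F] (Z ⧸ Q) := AlgEquiv.ofBijective (Algebra.ofId F (Z ⧸ Q)) hbij
  refine ⟨(e.symm : (Z ⧸ Q) →ₐ[F] F).comp (Ideal.Quotient.mkₐ F Q), fun z => ?_⟩
  have h1 : z - algebraMap F E (b z) ∈ RingHom.ker b.toRingHom := by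
    rw [RingHom.mem_ker]
    change b (z - algebraMap F _ (b z)) = 0
    rw [map_sub, AlgHom.commutes]
    exact sub_self _
  rw [← hQc, Ideal.mem_comap, map_sub] at h1
  have h2 : (Ideal.Quotient.mkₐ F Q) z.1 = algebraMap F (Z ⧸ Q) (b z) := by
    have h3 := (Ideal.Quotient.mk_eq_mk_iff_sub_mem (I := Q) z.1
      (algebraMap F Z (b z))).2 h1
    exact h3
  change e.symm ((Ideal.Quotient.mkₐ F Q) z.1) = b z
  rw [h2]
  exact (AlgEquiv.symm_apply_eq _).2 rfl

section

variable {F : Type} [Field F] {Γ : Type} [Group Γ] [Finite Γ]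

/-- the centre of the group algebra -/
abbrev ZA (F Γ : Type) [Field F] [Group Γ] : Subalgebra F (MonoidAlgebra F Γ) :=
  Subalgebra.center F (MonoidAlgebra F Γ)

lemma za_class (z : ZA F Γ) : IsClassFun (fun x => z.1.coeff x) := (class_iff z.1).1 z.2

/-- the central elements supported on `G` -/
def EZ (G : Subgroup Γ) : Subalgebra F (ZA F Γ) where
  carrier := {z | ∀ x, x ∉ G → z.1.coeff x = 0}
  mul_mem' := by
    intro a b ha hb x hx
    have h1 := conv_inZ (U := G) (f := fun x => a.1.coeff x) (g := fun x => b.1.coeff x)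
      ⟨za_class a, ha⟩ ⟨za_class b, hb⟩
    have h2 := h1.supp x hx
    rw [← coeff_mul_eq] at h2
    exact h2
  add_mem' := by
    intro a b ha hb x hx
    change (a.1 + b.1).coeff x = 0
    rw [MonoidAlgebra.coeff_add, Finsupp.add_apply, ha x hx, hb x hx, add_zero]
  algebraMap_mem' := by
    intro r x hx
    change (algebraMap F (MonoidAlgebra F Γ) r).coeff x = 0
    rw [MonoidAlgebra.coe_algebraMap]
    simp only [Function.comp_apply, MonoidAlgebra.coeff_single]
    rw [Finsupp.single_eq_of_ne]
    rintro rfl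
    exact hx G.one_mem

lemma ez_inZ {G : Subgroup Γ} (z : EZ (F := F) G) : InZ G (fun x => z.1.1.coeff x) :=
  ⟨za_class z.1, z.2⟩

lemma coeff_one_eq : (fun x => (1 : MonoidAlgebra F Γ).coeff x) = (Pi.single 1 1 : Γ → F) := by
  funext x
  rw [MonoidAlgebra.one_def, MonoidAlgebra.coeff_single, Finsupp.single_apply,
    Pi.single_apply]
  by_cases hx : x = 1
  · rw [if_pos hx, if_pos hx.symm]
  · rw [if_neg hx, if_neg (fun h => hx h.symm)]

/-- a block of `G` as an algebra homomorphism on the central elements supported on `G` -/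
def beta {G : Subgroup Γ} {B : (G → F) → F} (hB : IsBlock B) : EZ (F := F) G →ₐ[F] F :=
  AlgHom.ofLinearMap
    { toFun := fun z => B (fun x : G => z.1.1.coeff x)
      map_add' := fun a b => hB.add _ _ (res_classFun (ez_inZ a) G) (res_classFun (ez_inZ b) G)
      map_smul' := fun c a => hB.smul c _ (res_classFun (ez_inZ a) G) }
    (by
      change B (fun x : G => (1 : MonoidAlgebra F Γ).coeff x) = 1
      refine Eq.trans (congrArg B ?_) hB.one
      have h := coeff_one_eq (F := F) (Γ := Γ)
      funext x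
      have h1 := congrFun h (x : Γ)
      exact h1.trans (congrFun (res_single (F := F) G _) x))
    (fun a b => by
      change B (fun x : G => (a.1.1 * b.1.1).coeff x) = _
      have h := coeff_mul_eq a.1.1 b.1.1
      have h1 : (fun x : G => (a.1.1 * b.1.1).coeff x) =
          conv (fun x : G => a.1.1.coeff x) (fun x : G => b.1.1.coeff x) := by
        rw [← res_conv G (fun x hx => (ez_inZ a).supp x hx)]
        funext x
        exact congrFun h (x : Γ)
      rw [h1]
      exact hB.mul _ _ (res_classFun (ez_inZ a) G) (res_classFun (ez_inZ b) G))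

lemma beta_apply {G : Subgroup Γ} {B : (G → F) → F} (hB : IsBlock B) (z : EZ (F := F) G) :
    beta hB z = B (fun x : G => z.1.1.coeff x) := rfl

/-- **Covering blocks exist.** -/
theorem exists_cover [IsAlgClosed F] (G : Subgroup Γ) {B : (G → F) → F} (hB : IsBlock B) :
    ∃ B' : (Γ → F) → F, IsBlock B' ∧ ∀ z : Γ → F, InZ G z → B' z = B (fun x => z x) := by
  have hfin : Module.Finite F (ZA F Γ) := inferInstance
  obtain ⟨g, hg⟩ := extend_hom (EZ (F := F) G) (beta hB)
  let toZ : ∀ f : Γ → F, IsClassFun f → ZA F Γ := fun f hf => ⟨ofF f, (class_iff _).2 hf⟩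
  let B' : (Γ → F) → F := fun f => if hf : IsClassFun f then g (toZ f hf) else 0
  have hB' : ∀ (f : Γ → F) (hf : IsClassFun f), B' f = g (toZ f hf) := fun f hf => dif_pos hf
  have hof : ∀ (f : Γ → F) (a : MonoidAlgebra F Γ), (∀ x, a.coeff x = f x) → ofF f = a := by
    intro f a h
    ext x
    exact (h x).symm
  refine ⟨B', ⟨fun a b ha hb => ?_, fun c a ha => ?_, ?_, fun a b ha hb => ?_⟩, fun z hz => ?_⟩
  · have hab : IsClassFun (a + b) := fun y x => by
      rw [Pi.add_apply, Pi.add_apply, ha, hb]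
    rw [hB' _ hab, hB' _ ha, hB' _ hb, ← map_add]
    refine congrArg g (Subtype.ext (hof _ _ fun x => ?_))
    rfl
  · have hca : IsClassFun (c • a) := fun y x => by rw [Pi.smul_apply, Pi.smul_apply, ha]
    rw [hB' _ hca, hB' _ ha, ← smul_eq_mul, ← map_smul]
    refine congrArg g (Subtype.ext (hof _ _ fun x => ?_))
    rfl
  · rw [hB' _ Pool.Agent.Y63.NV.B286.single_class]
    refine Eq.trans (congrArg g (Subtype.ext (hof _ (1 : ZA F Γ).1 fun x => ?_))) (map_one g)
    exact congrFun coeff_one_eq x
  · have hab : IsClassFun (conv a b) := Pool.Agent.Y63.NV.B286.conv_class ha hb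
    rw [hB' _ hab, hB' _ ha, hB' _ hb, ← map_mul]
    refine congrArg g (Subtype.ext (hof _ _ fun x => ?_))
    exact congrFun (coeff_mul_eq (ofF a) (ofF b)) x
  · rw [hB' _ hz.conj]
    have h1 : toZ z hz.conj ∈ EZ (F := F) G := fun x hx => hz.supp x hx
    exact hg ⟨toZ z hz.conj, h1⟩

end

end Pool.Agent.X252.NVX
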