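import Pool.Agent.X252.NVF
import Pool.Agent.X252.NVX

/-!
# Navarro's equality for cyclic quotients and the blockwise weight conjecture
-/

set_option linter.unusedSectionVars false

open scoped Classical

noncomputable section

namespace Pool.Agent.X252.NVF

open Pool.Agent.Y63.NV Pool.Agent.Y286.NV Pool.Agent.X252.NVU Pool.Agent.X252.NVC
open Pool.Agent.Y63.AWC (IsIrreducibleCharacter pSubgroupSetoid)

section cyc

variable {F : Type} [Field F] {Γ : Type} [Group Γ] [Finite Γ] {p : ℕ} [Fact p.Prime]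
  [IsAlgClosed F] [CharP F p]

/-- the defect of `Γ` at a central element -/
def wd (p : ℕ) (red : integralClosure ℤ ℂ →+* F) {H : Type} [Group H] (z : H → F) (c : F) : ℤ :=
  (Lnum (⊤ : Subgroup H) ⊤ z c : ℤ) - ((∑ᶠ d : Quotient (pSubgroupSetoid p H),
    if (⊤ : Subgroup H) ⊔ d.out.1 = ⊤ then
      Nw p red (d.out.1.subgroupOf (Subgroup.normalizer (d.out.1 : Set H))) (fun x => z x) c
    else 0 : ℕ) : ℤ)

theorem wd_eq (red : integralClosure ℤ ℂ →+* F) {H : Type} [Group H] [Finite H]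
    {D : (H → F) → F} {z : H → F} (hz : IsClassFun z)
    (hsep : ∀ D' : (H → F) → F, IsBlock D' → D' z = D z → ∀ f, IsClassFun f → D' f = D f) :
    wd p red z (D z) = weightDefect p red D := by
  unfold wd weightDefect
  rw [count_L hz hsep]
  congr 2
  refine finsum_congr fun d => ?_
  rw [if_pos (top_sup_eq _), count_W red hz hsep d.out.2]

theorem wd_sums (red : integralClosure ℤ ℂ →+* F) {H : Type} [Group H] [Finite H]
    {z : H → F} (hz : IsClassFun z) (c : F) :
    (Nat.card H : ℤ) * wd p red z c =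
      Lsum (⊤ : Subgroup H) ⊤ z c - Wsum p red (⊤ : Subgroup H) ⊤ z c := by
  rw [wsum_classes red ⊤ hz c, lsum_eq']
  unfold wd
  ring

/-- the defect of `(G, Γ)` at a central element -/
def nd (p : ℕ) (red : integralClosure ℤ ℂ →+* F) {H : Type} [Group H] (K : Subgroup H)
    (z : H → F) (c : F) : ℤ :=
  (Lnum K ⊤ z c : ℤ) - ((∑ᶠ d : Quotient (pSubgroupSetoid p H),
    if K ⊔ d.out.1 = ⊤ then
      Nw p red (d.out.1.subgroupOf (Subgroup.normalizer (d.out.1 : Set H))) (fun x => z x) c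
    else 0 : ℕ) : ℤ)

theorem nd_sums (red : integralClosure ℤ ℂ →+* F) {H : Type} [Group H] [Finite H]
    (K : Subgroup H) [K.Normal] {z : H → F} (hz : IsClassFun z) (c : F) :
    (Nat.card H : ℤ) * nd p red K z c = Lsum K ⊤ z c - Wsum p red K ⊤ z c := by
  rw [wsum_classes red K hz c, lsum_eq']
  unfold nd
  ring

/-- the index `p` formula at a central element -/
theorem index_formula (red : integralClosure ℤ ℂ →+* F) {U : Subgroup Γ} [U.Normal]
    (hU : Nat.card (Γ ⧸ U) = p) {z : Γ → F} (hz : InZ U z) (c : F) :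
    (p : ℤ) * wd p red z c = wd p red (fun x : U => z x) c + (p - 1) * nd p red U z c := by
  have h1 := pell' p F Γ U z c hU hz
  have h2 := pewL' p F red Γ U z c hU hz
  have h3 := wd_sums (p := p) red hz.conj c
  have h4 := wd_sums (p := p) red (res_classFun hz U) c
  have h5 := nd_sums (p := p) red U hz.conj c
  have hc : (Nat.card Γ : ℤ) = p * Nat.card U := by
    have : Nat.card Γ = p * Nat.card U := by
      rw [← hU]
      exact Subgroup.card_eq_card_quotient_mul_card_subgroup U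
    exact_mod_cast this
  have hU0 : (Nat.card U : ℤ) ≠ 0 := by exact_mod_cast Nat.card_pos.ne'
  have hp0 : (p : ℤ) ≠ 0 := by exact_mod_cast (Fact.out : p.Prime).ne_zero
  rw [hc] at h3 h5
  refine mul_left_cancel₀ (mul_ne_zero hp0 hU0) ?_
  have e1 : (p : ℤ) * Nat.card U * (p * wd p red z c) =
      p * (Lsum (⊤ : Subgroup Γ) ⊤ z c - Wsum p red (⊤ : Subgroup Γ) ⊤ z c) := by
    rw [← h3]; ring
  rw [e1, mul_sub, h1, h2]
  linear_combination (-(p : ℤ)) * h4 - ((p : ℤ) - 1) * h5

/-- Weights at a central element supported on `G`, for `U/G` in the Frattini subgroup. -/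
theorem nd_frattini (red : integralClosure ℤ ℂ →+* F) {G U : Subgroup Γ} [G.Normal] [U.Normal]
    (hGU : G ≤ U) (hp : IsPGroup p (Γ ⧸ G)) (hΦ : ∀ H : Subgroup Γ, U ⊔ H = ⊤ → G ⊔ H = ⊤)
    {z : Γ → F} (hz : InZ G z) (c : F) : nd p red G z c = nd p red U z c := by
  unfold nd
  rw [lnum_eq hGU hp hΦ hz c]
  congr 2
  refine finsum_congr fun d => if_congr ⟨fun h => ?_, hΦ _⟩ rfl rfl
  rw [eq_top_iff, ← h]
  exact sup_le_sup_right hGU _

theorem nd_eq (red : integralClosure ℤ ℂ →+* F) {G : Subgroup Γ} [G.Normal]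
    (hp : IsPGroup p (Γ ⧸ G)) {B : (G → F) → F} (hB : IsBlock B) (hBi : IsInvBlock G B)
    {z0 : ZG F G} (hsep : ∀ L : ZG F G →ₗ[F] F, IsMult L → L z0 = resU hB z0 →
      L = resU (G := G) hB) :
    nd p red G z0.1 (resU hB z0) = navarroDefect p red G B := by
  unfold nd navarroDefect
  rw [count_inv le_rfl hp hB hBi hsep]
  congr 2
  refine finsum_congr fun d => ?_
  by_cases h : G ⊔ d.out.1 = ⊤
  · rw [if_pos h, if_pos h]
    unfold Nw numDz
    refine Nat.card_congr (Equiv.subtypeEquivRight fun χ => ?_)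
    constructor
    · rintro ⟨hw, hv⟩
      refine ⟨hw, ?_⟩
      have hbl := wblk' p F red Γ d.out.1 χ d.out.2 hw
      have h5 := hsep (resT (G := G) hbl) (resT_mult hbl) hv
      exact fun z hz => LinearMap.congr_fun h5 (⟨z, hz⟩ : ZG F G)
    · rintro ⟨hw, hv⟩
      exact ⟨hw, hv z0.1 z0.2⟩
  · rw [if_neg h, if_neg h]

/-- **The formula for cyclic quotients.** -/
theorem cyclic_formula (red : integralClosure ℤ ℂ →+* F) {G U : Subgroup Γ} [G.Normal]
    [U.Normal] (hGU : G ≤ U) (hp : IsPGroup p (Γ ⧸ G)) (hU : Nat.card (Γ ⧸ U) = p)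
    (hΦ : ∀ H : Subgroup Γ, U ⊔ H = ⊤ → G ⊔ H = ⊤) {B : (G → F) → F} (hB : IsBlock B)
    (hBi : IsInvBlock G B) {C : (U → F) → F} (hC : IsBlock C) (hCB : Covers G U C B)
    {B' : (Γ → F) → F} (hB' : IsBlock B') (hB'B : ∀ z : Γ → F, InZ G z → B' z = B (fun x => z x)) :
    (p : ℤ) * weightDefect p red B' =
      weightDefect p red C + (p - 1) * navarroDefect p red G B := by
  have : Infinite F := inferInstance
  have hCi := inv_of_covers hGU hp hBi hC hCB
  have hCB' : ∀ z : Γ → F, InZ G z → C (fun x => z x) = B (fun x => z x) :=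
    fun z hz => hCB z (fun u _ x => hz.conj u x) hz.supp
  obtain ⟨z0, hz0⟩ := sep (F := F) G (resU (G := G) hB)
  have h1 := index_formula (p := p) red hU (z := z0.1) (InZ.mono hGU z0.2) (resU hB z0)
  rw [← nd_frattini red hGU hp hΦ z0.2, nd_eq red hp hB hBi hz0] at h1
  have e1 : (resU hB z0 : F) = B' z0.1 := (hB'B z0.1 z0.2).symm
  have e2 : (resU hB z0 : F) = C (fun x : U => z0.1 x) := (hCB' z0.1 z0.2).symm
  have h2 : wd p red z0.1 (resU hB z0) = weightDefect p red B' := by
    rw [e1]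
    refine wd_eq red z0.2.conj fun D' hD' h => ?_
    have h3 : resT (G := G) hD' = resU hB := hz0 _ (resT_mult hD') (by
      change D' z0.1 = _
      rw [h, e1])
    intro f hf
    exact uniq p (U := ⊤) le_top hp (isMF_block hD' ⊤) (isMF_block hB' ⊤) (fun z hz => by
      rw [hB'B z hz]
      exact LinearMap.congr_fun h3 (⟨z, hz⟩ : ZG F G)) f
      ⟨hf, fun x hx => absurd (Subgroup.mem_top x) hx⟩
  have h3 : wd p red (fun x : U => z0.1 x) (resU hB z0) = weightDefect p red C := by
    rw [e2]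
    refine wd_eq red (res_classFun z0.2 U) fun D' hD' h => ?_
    have h4 : resU (G := G) hD' = resU hB := hz0 _ (resU_mult hGU hD') (by
      change D' (fun x : U => z0.1 x) = _
      rw [h, e2])
    refine star hC hCi hD' ?_
    exact uniq p hGU hp (isMF_res le_rfl hD') (isMF_res le_rfl hC) fun z hz => by
      rw [hCB' z hz]
      exact LinearMap.congr_fun h4 (⟨z, hz⟩ : ZG F G)
  rw [h2, h3] at h1
  exact h1

end cyc

end Pool.Agent.X252.NVF
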