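import Pool.Agent.X252.NVG

/-!
# Weights of `p`-group extensions as an average: the weighted sums
-/

set_option linter.unusedSectionVars false

open scoped Classical

noncomputable section

namespace Pool.Agent.X252.NVM

open Pool.Agent.Y63.NV Pool.Agent.Y286.NV Pool.Agent.X252.NVU Pool.Agent.X252.NVC
open Pool.Agent.Y63.AWC (IsIrreducibleCharacter pSubgroupSetoid normalizer_map)
open Pool.Agent.Y487.NV (wl local_eqL sup_eq_top relIndex_eq)

/-- the subgroups of a finite group -/
local instance fsub {Γ : Type} [Group Γ] [Finite Γ] : Fintype (Subgroup Γ) := Fintype.ofFinite _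

section wsum

variable {F Γ : Type} [Field F] [Group Γ] [Finite Γ] {p : ℕ}

/-- the weighted version of the comparison of the weights of `Γ` and of a normal subgroup of index
`p` -/
theorem weighted [Fact p.Prime] [CharP F p] (red : integralClosure ℤ ℂ →+* F) {H : Subgroup Γ}
    [H.Normal] (hH : Nat.card (Γ ⧸ H) = p) {z : Γ → F} (hz : InZ H z) (c : F)
    (κ : Subgroup H → ℕ) :
    (∑ Q : Subgroup Γ, if IsPGroup p Q then
      (if Q ≤ H then p else 1) * (κ (Q.subgroupOf H) * wl p red z c Q) else 0) =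
    p * ∑ Q₁ : Subgroup H, if IsPGroup p Q₁ then κ Q₁ * wl p red (fun x : H => z x) c Q₁ else 0 := by
  have hp : p.Prime := Fact.out
  have hHtop : H ≠ ⊤ := by
    intro h
    have h3 : H.index = p := hH
    rw [h, Subgroup.index_top] at h3
    exact hp.one_lt.ne h3
  obtain ⟨cov, e3⟩ : ∃ cov : ℕ, cov = ∑ Q : Subgroup Γ,
      if IsPGroup p Q ∧ H ⊔ Q = ⊤ then κ (Q.subgroupOf H) * wl p red z c Q else 0 := ⟨_, rfl⟩
  -- splitting
  have e4 : (∑ Q : Subgroup Γ, if IsPGroup p Q then
      (if Q ≤ H then p else 1) * (κ (Q.subgroupOf H) * wl p red z c Q) else 0) = cov +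
      ∑ Q : Subgroup Γ, if IsPGroup p Q ∧ Q ≤ H then
        p * (κ (Q.subgroupOf H) * wl p red z c Q) else 0 := by
    rw [e3, ← Finset.sum_add_distrib]
    refine Finset.sum_congr rfl fun Q _ => ?_
    by_cases hQ : IsPGroup p Q
    · by_cases hQG : Q ≤ H
      · have h3 : ¬ H ⊔ Q = ⊤ := by
          rw [sup_eq_left.2 hQG]
          exact hHtop
        rw [if_pos hQ, if_pos hQG, if_neg (fun h : IsPGroup p Q ∧ H ⊔ Q = ⊤ => h3 h.2),
          if_pos (show IsPGroup p Q ∧ Q ≤ H from ⟨hQ, hQG⟩), zero_add]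
      · rw [if_pos hQ, if_neg hQG, one_mul,
          if_pos (show IsPGroup p Q ∧ H ⊔ Q = ⊤ from ⟨hQ, sup_eq_top H hp hH Q hQG⟩),
          if_neg (fun h : IsPGroup p Q ∧ Q ≤ H => hQG h.2), add_zero]
    · rw [if_neg hQ, if_neg fun h => hQ h.1, if_neg fun h => hQ h.1]
  have e5 : (∑ Q : Subgroup Γ, if IsPGroup p Q ∧ Q ≤ H then
        p * (κ (Q.subgroupOf H) * wl p red z c Q) else 0) =
      ∑ Q₁ : Subgroup H, if IsPGroup p Q₁ then
        p * (κ Q₁ * wl p red z c (Q₁.map H.subtype)) else 0 := by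
    rw [← Finset.sum_filter, ← Finset.sum_filter]
    refine Finset.sum_nbij' (fun Q => Q.subgroupOf H) (fun Q₁ => Q₁.map H.subtype) ?_ ?_ ?_ ?_ ?_
    · intro Q hQ
      rw [Finset.mem_filter] at hQ ⊢
      exact ⟨Finset.mem_univ _, IsPGroup.comap_subtype hQ.2.1⟩
    · intro Q₁ hQ₁
      rw [Finset.mem_filter] at hQ₁ ⊢
      exact ⟨Finset.mem_univ _, hQ₁.2.map _, Subgroup.map_subtype_le Q₁⟩
    · intro Q hQ
      rw [Finset.mem_filter] at hQ
      rw [Subgroup.subgroupOf_map_subtype, inf_eq_left]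
      exact hQ.2.2
    · intro Q₁ _
      exact Subgroup.comap_map_eq_self_of_injective (Subgroup.subtype_injective H) Q₁
    · intro Q hQ
      rw [Finset.mem_filter] at hQ
      have h3 : (Q.subgroupOf H).map H.subtype = Q := by
        rw [Subgroup.subgroupOf_map_subtype, inf_eq_left]
        exact hQ.2.2
      rw [h3]
  have e6 : cov = ∑ Q₁ : Subgroup H, if IsPGroup p Q₁ then κ Q₁ * (∑ R : Subgroup Γ,
      if IsPGroup p R ∧ H ⊔ R = ⊤ ∧ R.subgroupOf H = Q₁ then wl p red z c R else 0) else 0 := by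
    rw [e3, ← Finset.sum_filter, ← Finset.sum_filter]
    rw [← Finset.sum_fiberwise_of_maps_to (s := Finset.univ.filter fun Q : Subgroup Γ =>
      IsPGroup p Q ∧ H ⊔ Q = ⊤) (t := Finset.univ.filter fun Q₁ : Subgroup H => IsPGroup p Q₁)
      (g := fun R => R.subgroupOf H) (by
        intro R hR
        rw [Finset.mem_filter] at hR ⊢
        exact ⟨Finset.mem_univ _, IsPGroup.comap_subtype hR.2.1⟩)]
    refine Finset.sum_congr rfl fun Q₁ _ => ?_
    rw [Finset.filter_filter, ← Finset.sum_filter, Finset.mul_sum]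
    refine Finset.sum_congr ?_ fun R hR => ?_
    · ext R
      simp only [Finset.mem_filter, Finset.mem_univ, true_and]
      tauto
    · rw [Finset.mem_filter] at hR
      rw [hR.2.2.2]
  have e7 : (∑ Q₁ : Subgroup H, if IsPGroup p Q₁ then
        p * (κ Q₁ * wl p red z c (Q₁.map H.subtype)) else 0) + cov = p * ∑ Q₁ : Subgroup H,
        if IsPGroup p Q₁ then κ Q₁ * wl p red (fun x : H => z x) c Q₁ else 0 := by
    rw [e6, Finset.mul_sum, ← Finset.sum_add_distrib]
    refine Finset.sum_congr rfl fun Q₁ _ => ?_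
    by_cases hQ₁ : IsPGroup p Q₁
    · rw [if_pos hQ₁, if_pos hQ₁, if_pos hQ₁]
      have h3 := local_eqL dgnL' Pool.Agent.Y809.NV.clifL red H z c hz hH Q₁ hQ₁
      calc p * (κ Q₁ * wl p red z c (Q₁.map H.subtype)) + κ Q₁ * (∑ R : Subgroup Γ,
          if IsPGroup p R ∧ H ⊔ R = ⊤ ∧ R.subgroupOf H = Q₁ then wl p red z c R else 0)
          = κ Q₁ * (p * wl p red z c (Q₁.map H.subtype) + (∑ R : Subgroup Γ,
            if IsPGroup p R ∧ H ⊔ R = ⊤ ∧ R.subgroupOf H = Q₁ then wl p red z c R else 0)) := by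
            ring
        _ = κ Q₁ * (p * wl p red (fun x : H => z x) c Q₁) := by rw [h3]
        _ = _ := by ring
    · rw [if_neg hQ₁, if_neg hQ₁, if_neg hQ₁, mul_zero, add_zero]
  rw [e4, e5, add_comm, e7]

/-- the weight of a subgroup -/
def kap (G D Q : Subgroup Γ) : ℕ := if D ≤ G ⊔ Q then (G ⊔ Q).index else 0

lemma mem_sup_sub {G H Q : Subgroup Γ} [G.Normal] (hGH : G ≤ H) (x : H) :
    x ∈ G.subgroupOf H ⊔ Q.subgroupOf H ↔ (x : Γ) ∈ G ⊔ Q := by
  rw [Subgroup.mem_sup_of_normal_left, Subgroup.mem_sup_of_normal_left]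
  constructor
  · rintro ⟨y, hy, w, hw, hyw⟩
    exact ⟨y, hy, w, hw, congrArg Subtype.val hyw⟩
  · rintro ⟨y, hy, w, hw, hyw⟩
    have hwH : w ∈ H := by
      have : w = y⁻¹ * x := by rw [← hyw]; group
      rw [this]
      exact H.mul_mem (H.inv_mem (hGH hy)) x.2
    exact ⟨⟨y, hGH hy⟩, hy, ⟨w, hwH⟩, hw, Subtype.ext hyw⟩

lemma sup_sub {G H Q : Subgroup Γ} [G.Normal] (hGH : G ≤ H) :
    G.subgroupOf H ⊔ Q.subgroupOf H = (G ⊔ Q).subgroupOf H := by
  ext x
  rw [mem_sup_sub hGH, Subgroup.mem_subgroupOf]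

lemma index_big [Fact p.Prime] {H K : Subgroup Γ} [H.Normal] (hH : Nat.card (Γ ⧸ H) = p)
    (hK : ¬ K ≤ H) : (K.subgroupOf H).index = K.index := by
  have hp : p.Prime := Fact.out
  have h1 : Nat.card (H.subgroupOf K) * (H.subgroupOf K).index = Nat.card K :=
    Subgroup.card_mul_index _
  have h2 : Nat.card (K.subgroupOf H) * (K.subgroupOf H).index = Nat.card H :=
    Subgroup.card_mul_index _
  have h3 : (H.subgroupOf K).index = p := relIndex_eq H hp hH K hK
  have h4 : Nat.card (H.subgroupOf K) = Nat.card (K.subgroupOf H) :=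
    Nat.card_congr
      { toFun := fun x => ⟨⟨x.1.1, x.2⟩, x.1.2⟩
        invFun := fun x => ⟨⟨x.1.1, x.2⟩, x.1.2⟩
        left_inv := fun _ => rfl
        right_inv := fun _ => rfl }
  have h5 : Nat.card K * K.index = Nat.card Γ := Subgroup.card_mul_index _
  have h6 : Nat.card Γ = p * Nat.card H := by
    rw [← hH]
    exact Subgroup.card_eq_card_quotient_mul_card_subgroup H
  have h7 : 0 < Nat.card (K.subgroupOf H) := Nat.card_pos
  rw [h3, h4] at h1
  rw [← h1, h6, ← h2] at h5
  refine Nat.eq_of_mul_eq_mul_left (Nat.mul_pos h7 hp.pos) ?_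
  rw [h5]
  ring

lemma kap_step [Fact p.Prime] {G D H Q : Subgroup Γ} [G.Normal] [H.Normal] (hGD : G ≤ D)
    (hDH : D ≤ H) (hH : Nat.card (Γ ⧸ H) = p) :
    kap G D Q = (if Q ≤ H then p else 1) *
      kap (G.subgroupOf H) (D.subgroupOf H) (Q.subgroupOf H) := by
  have hGH := hGD.trans hDH
  unfold kap
  rw [sup_sub hGH]
  have h1 : D ≤ G ⊔ Q ↔ D.subgroupOf H ≤ (G ⊔ Q).subgroupOf H := by
    constructor
    · intro h x hx
      exact h hx
    · intro h x hx
      exact h (show (⟨x, hDH hx⟩ : H) ∈ D.subgroupOf H from hx)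
  by_cases h2 : D ≤ G ⊔ Q
  · rw [if_pos h2, if_pos (h1.1 h2)]
    by_cases h3 : Q ≤ H
    · rw [if_pos h3]
      have h4 : G ⊔ Q ≤ H := sup_le hGH h3
      have h5 := Subgroup.relIndex_mul_index h4
      have h6 : H.index = p := hH
      rw [← h5, h6, mul_comm]
      rfl
    · rw [if_neg h3, one_mul, index_big hH fun h => h3 (le_sup_right.trans h)]
  · rw [if_neg h2, if_neg fun h => h2 (h1.2 h), mul_zero]

/-- normal subgroups of index `p` -/
lemma exists_max [Fact p.Prime] {G D : Subgroup Γ} [G.Normal] (hp : IsPGroup p (Γ ⧸ G))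
    (hGD : G ≤ D) (hD : D ≠ ⊤) : ∃ H : Subgroup Γ, H.Normal ∧ Nat.card (Γ ⧸ H) = p ∧ D ≤ H := by
  have hpr : p.Prime := Fact.out
  obtain ⟨k, hk⟩ := IsPGroup.iff_card.1 hp
  set P := D.map (QuotientGroup.mk' G) with hP
  obtain ⟨j, hj⟩ := IsPGroup.iff_card.1 (hp.to_subgroup P)
  have hPD : P.comap (QuotientGroup.mk' G) = D := by
    rw [hP, Subgroup.comap_map_eq, QuotientGroup.ker_mk', sup_eq_left]
    exact hGD
  have hPtop : P ≠ ⊤ := by
    intro h
    apply hD
    rw [← hPD, h, Subgroup.comap_top]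
  have hjk : j < k := by
    have h1 : Nat.card P ≠ Nat.card (Γ ⧸ G) := fun h =>
      hPtop ((Subgroup.card_eq_iff_eq_top P).1 h)
    have h2 := Subgroup.card_le_card_group P
    rw [hj, hk] at h1 h2
    have h3 : p ^ j < p ^ k := lt_of_le_of_ne h2 h1
    exact (Nat.pow_lt_pow_iff_right hpr.one_lt).1 h3
  obtain ⟨K, hK, hPK⟩ := Sylow.exists_subgroup_card_pow_prime_le (G := Γ ⧸ G) p (m := k - 1)
    (by rw [hk]; exact pow_dvd_pow p (Nat.sub_le k 1)) P hj (by omega)
  have hi : K.index = p := by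
    have e1 := K.card_mul_index
    rw [hK, hk] at e1
    have e2 : p ^ k = p ^ (k - 1) * p := by
      rw [← pow_succ]
      congr 1
      omega
    rw [e2] at e1
    exact Nat.eq_of_mul_eq_mul_left (pow_pos hpr.pos _) e1
  have hKn : K.Normal := Subgroup.normal_of_index_eq_minFac_card (by
    rw [hi, hk, hpr.pow_minFac (by omega)])
  refine ⟨K.comap (QuotientGroup.mk' G), hKn.comap _, ?_, ?_⟩
  · change (K.comap (QuotientGroup.mk' G)).index = p
    rw [Subgroup.index_comap_of_surjective _ (QuotientGroup.mk'_surjective G), hi]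
  · rw [← hPD]
    exact Subgroup.comap_mono hPK

/-- isomorphisms and weighted sums -/
theorem wl_iso (red : integralClosure ℤ ℂ →+* F) {A : Type} [Group A] [Finite A] (e : A ≃* Γ)
    {z : Γ → F} (hz : IsClassFun z) (c : F) (Q : Subgroup A) :
    wl p red (fun a => z (e a)) c Q = wl p red z c (Q.map e.toMonoidHom) := by
  let e1 : Subgroup.normalizer (Q : Set A) ≃*
      Subgroup.normalizer ((Q.map e.toMonoidHom : Subgroup Γ) : Set Γ) :=
    (e.subgroupMap (Subgroup.normalizer (Q : Set A))).trans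
      (MulEquiv.subgroupCongr (normalizer_map e Q))
  have h1 : ∀ x, ((e1 x : Subgroup.normalizer ((Q.map e.toMonoidHom : Subgroup Γ) : Set Γ)) : Γ) =
      e x := fun x => rfl
  unfold wl
  rw [Nat.card_congr e1.toEquiv]
  congr 1
  refine Pool.Agent.Y624.NV.nw_congr p red e1 (fun x => ?_) (fun x => ?_) (fun g x => ?_) c
  · rw [Subgroup.mem_subgroupOf, Subgroup.mem_subgroupOf, h1]
    constructor
    · rintro ⟨y, hy, hyx⟩
      have : y = x := e.injective hyx
      rwa [← this]
    · intro hx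
      exact ⟨x, hx, rfl⟩
  · rw [h1]
  · exact hz g x

theorem wsum_iso (red : integralClosure ℤ ℂ →+* F) {A : Type} [Group A] [Finite A] (e : A ≃* Γ)
    {z : Γ → F} (hz : IsClassFun z) (c : F) (K : Subgroup A) (L : Subgroup Γ)
    (hKL : K.map e.toMonoidHom = L) :
    Wsum p red K ⊤ (fun a => z (e a)) c = Wsum p red L ⊤ z c := by
  rw [Pool.Agent.Y487.NV.wsum_eq, Pool.Agent.Y487.NV.wsum_eq, ← hKL]
  congr 1
  refine Finset.sum_bij (fun Q _ => Q.map e.toMonoidHom) (fun _ _ => Finset.mem_univ _) ?_ ?_ ?_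
  · intro a _ b _ h
    exact Subgroup.map_injective e.injective h
  · intro b _
    exact ⟨b.comap e.toMonoidHom, Finset.mem_univ _,
      Subgroup.map_comap_eq_self_of_surjective e.surjective b⟩
  · intro Q _
    rw [wl_iso red e hz c Q]
    refine if_congr (and_congr ?_ ?_) rfl rfl
    · constructor
      · intro h
        exact h.map _
      · intro h
        refine h.of_injective ((e.toMonoidHom.comp Q.subtype).codRestrict (Q.map e.toMonoidHom)
          fun x => ⟨x.1, x.2, rfl⟩) fun x y hxy => ?_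
        exact Subtype.ext (e.injective (congrArg Subtype.val hxy))
    · rw [← Subgroup.map_sup]
      constructor
      · intro h
        rw [h]
        exact Subgroup.map_top_of_surjective _ e.surjective
      · intro h
        have h2 := congrArg (Subgroup.comap e.toMonoidHom) h
        rwa [Subgroup.comap_map_eq_self_of_injective e.injective, Subgroup.comap_top] at h2

end wsum

/-- the weights whose `p`-subgroup covers `D/G` -/
theorem heart {F : Type} [Field F] {p : ℕ} [Fact p.Prime] [CharP F p]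
    (red : integralClosure ℤ ℂ →+* F) : ∀ (n : ℕ) (Γ : Type) [Group Γ] [Finite Γ]
    (G D : Subgroup Γ) [G.Normal] (z : Γ → F) (c : F), Nat.card Γ ≤ n → IsPGroup p (Γ ⧸ G) →
    G ≤ D → InZ G z →
    ((∑ Q : Subgroup Γ, if IsPGroup p Q then kap G D Q * wl p red z c Q else 0 : ℕ) : ℤ) =
      (D.index : ℤ) * Wsum p red (G.subgroupOf D) ⊤ (fun x => z x) c := by
  intro n
  induction n with
  | zero =>
    intro Γ _ _ G D _ z c hn
    have := Nat.card_pos (α := Γ)
    omega
  | succ n ih =>
    intro Γ _ _ G D hG z c hn hp hGD hz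
    by_cases hD : D = ⊤
    · subst hD
      rw [Subgroup.index_top, Nat.cast_one, one_mul,
        ← Pool.Agent.Y624.NV.trn p F red Γ G ⊤ z c (sup_top_eq G) (fun h _ x => hz.conj h x),
        Pool.Agent.Y487.NV.wsum_eq]
      congr 1
      refine Finset.sum_congr rfl fun Q _ => ?_
      unfold kap
      by_cases hQ : IsPGroup p Q
      · by_cases h : G ⊔ Q = ⊤
        · rw [if_pos hQ, if_pos (top_le_iff.2 h), if_pos ⟨hQ, h⟩, h, Subgroup.index_top, one_mul]
        · rw [if_pos hQ, if_neg (fun h' => h (top_le_iff.1 h')), if_neg (fun h' => h h'.2),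
            zero_mul]
      · rw [if_neg hQ, if_neg fun h => hQ h.1]
    · obtain ⟨H, hHn, hH, hDH⟩ := exists_max hp hGD hD
      have hGH := hGD.trans hDH
      have hpr : p.Prime := Fact.out
      have hcard : Nat.card Γ = p * Nat.card H := by
        rw [← hH]
        exact Subgroup.card_eq_card_quotient_mul_card_subgroup H
      have hlt : Nat.card H ≤ n := by
        have h1 : 0 < Nat.card H := Nat.card_pos
        have h2 := hpr.two_le
        nlinarith
      have hp' : IsPGroup p (H ⧸ G.subgroupOf H) := by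
        intro x
        obtain ⟨g, rfl⟩ := QuotientGroup.mk_surjective x
        obtain ⟨k, hk⟩ := hp ((g : Γ) : Γ ⧸ G)
        refine ⟨k, ?_⟩
        rw [← QuotientGroup.mk_pow, QuotientGroup.eq_one_iff] at hk ⊢
        exact hk
      have hz' : InZ (G.subgroupOf H) (fun x : H => z x) :=
        ⟨fun g x => hz.conj g x, fun x hx => hz.supp _ hx⟩
      have h1 := ih H (G.subgroupOf H) (D.subgroupOf H) (fun x : H => z x) c hlt hp'
        (fun x hx => hGD hx) hz'
      have h2 := weighted (p := p) red hH (InZ.mono hGH hz) c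
        (fun Q₁ => kap (G.subgroupOf H) (D.subgroupOf H) Q₁)
      have h3 : (∑ Q : Subgroup Γ, if IsPGroup p Q then kap G D Q * wl p red z c Q else 0) =
          ∑ Q : Subgroup Γ, if IsPGroup p Q then (if Q ≤ H then p else 1) *
            (kap (G.subgroupOf H) (D.subgroupOf H) (Q.subgroupOf H) * wl p red z c Q) else 0 := by
        refine Finset.sum_congr rfl fun Q _ => ?_
        rw [kap_step hGD hDH hH, mul_assoc]
      rw [h3, h2, Nat.cast_mul, h1]
      have h4 : (D.index : ℤ) = p * (D.subgroupOf H).index := by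
        have h5 := Subgroup.relIndex_mul_index hDH
        have h6 : H.index = p := hH
        rw [h6] at h5
        rw [← h5]
        push_cast
        rw [mul_comm]
        rfl
      rw [h4, mul_assoc]
      congr 2
      let e : ↥(D.subgroupOf H) ≃* ↥D := Subgroup.subgroupOfEquivOfLe hDH
      exact wsum_iso red e (z := fun x : D => z x) (fun g x => hz.conj g x) c
        ((G.subgroupOf H).subgroupOf (D.subgroupOf H)) (G.subgroupOf D) (by
          ext x
          constructor
          · rintro ⟨y, hy, rfl⟩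
            exact hy
          · intro hx
            exact ⟨e.symm x, hx, e.apply_symm_apply x⟩)

end Pool.Agent.X252.NVM
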