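import Pool.Agent.X252.NVB

/-!
# The formulas for all subgroups between `G` and `Γ`
-/

set_option linter.unusedSectionVars false

open scoped Classical

noncomputable section

namespace Pool.Agent.X252.NVF

open Pool.Agent.Y63.NV Pool.Agent.Y286.NV Pool.Agent.X252.NVU Pool.Agent.X252.NVC
open Pool.Agent.Y63.AWC (IsIrreducibleCharacter pSubgroupSetoid)
open Pool.Agent.X252.NVM (wsum_iso exists_max mean_L mean_W wcl)

section tr

variable {F : Type} [Field F] [IsAlgClosed F] {Γ : Type} [Group Γ] [Finite Γ] {p : ℕ}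
  [Fact p.Prime] [CharP F p]

theorem lsum_iso {A : Type} [Group A] [Finite A] (e : A ≃* Γ) {z : Γ → F} (c : F)
    (K : Subgroup A) (L : Subgroup Γ) (hKL : K.map e.toMonoidHom = L) :
    Lsum K ⊤ (fun a => z (e a)) c = Lsum L ⊤ z c := by
  rw [lsum_eq', lsum_eq', Nat.card_congr e.toEquiv]
  congr 2
  let e1 : K ≃* L := (e.subgroupMap K).trans (MulEquiv.subgroupCongr hKL)
  have he1 : ∀ x : K, ((e1 x : L) : Γ) = e x := fun x => rfl
  refine Pool.Agent.Y210.NV2.lnum_congr _ _ _ _ _ _ c e1 (fun x => by rw [he1]) fun φ => ⟨?_, ?_⟩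
  · intro h g _ x y hxy
    refine h (e g) trivial (e1 x) (e1 y) ?_
    rw [he1, he1, hxy, map_mul, map_mul, map_inv]
  · intro h g _ x y hxy
    have h1 := h (e.symm g) trivial (e1.symm x) (e1.symm y) (by
      apply e.injective
      have h2 := he1 (e1.symm x)
      have h3 := he1 (e1.symm y)
      rw [e1.apply_symm_apply] at h2 h3
      rw [map_mul, map_mul, map_inv, e.apply_symm_apply, ← h2, ← h3, hxy])
    simpa only [e1.apply_symm_apply] using h1

theorem nd_iso (red : integralClosure ℤ ℂ →+* F) {A : Type} [Group A] [Finite A] (e : A ≃* Γ)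
    {z : Γ → F} (hz : IsClassFun z) (c : F) (K : Subgroup A) (L : Subgroup Γ) [K.Normal]
    [L.Normal] (hKL : K.map e.toMonoidHom = L) :
    nd p red K (fun a => z (e a)) c = nd p red L z c := by
  have h1 := nd_sums (p := p) red K (z := fun a => z (e a)) (fun g x => by
    change z (e (g * x * g⁻¹)) = z (e x)
    rw [map_mul, map_mul, map_inv]
    exact hz _ _) c
  have h2 := nd_sums (p := p) red L hz c
  rw [lsum_iso e c K L hKL, wsum_iso red e hz c K L hKL, ← h2, Nat.card_congr e.toEquiv] at h1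
  have hpos : (Nat.card Γ : ℤ) ≠ 0 := by exact_mod_cast Nat.card_pos.ne'
  exact mul_left_cancel₀ hpos h1

lemma pg_sub {G V : Subgroup Γ} [G.Normal] (hp : IsPGroup p (Γ ⧸ G)) :
    IsPGroup p (V ⧸ G.subgroupOf V) := by
  intro x
  obtain ⟨g, rfl⟩ := QuotientGroup.mk_surjective x
  obtain ⟨k, hk⟩ := hp ((g : Γ) : Γ ⧸ G)
  refine ⟨k, ?_⟩
  rw [← QuotientGroup.mk_pow, QuotientGroup.eq_one_iff] at hk ⊢
  exact hk

lemma inz_sub {G V : Subgroup Γ} {z : Γ → F} (hz : InZ G z) :
    InZ (G.subgroupOf V) (fun x : V => z x) :=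
  ⟨fun g x => hz.conj g x, fun x hx => hz.supp _ hx⟩

/-- the subgroup `W` of `V`, as a subgroup of `Γ` -/
def upE {V : Subgroup Γ} (W : Subgroup V) (W' : Subgroup Γ) (h : W.map V.subtype = W') :
    W ≃* W' :=
  (W.equivMapOfInjective V.subtype V.subtype_injective).trans (MulEquiv.subgroupCongr h)

lemma upE_coe {V : Subgroup Γ} (W : Subgroup V) (W' : Subgroup Γ) (h : W.map V.subtype = W')
    (x : W) : ((upE W W' h x : W') : Γ) = ((x : V) : Γ) := rfl

/-- transport of the defects at a central element -/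
theorem nd_up (red : integralClosure ℤ ℂ →+* F) {G V : Subgroup Γ} [G.Normal] {z : Γ → F}
    (hz : IsClassFun z) (c : F) (W : Subgroup V) (W' : Subgroup Γ) (h : W.map V.subtype = W') :
    nd p red ((G.subgroupOf V).subgroupOf W) (fun x : W => z ((x : V) : Γ)) c =
      nd p red (G.subgroupOf W') (fun x : W' => z x) c := by
  have := nd_iso (p := p) red (upE W W' h) (z := fun x : W' => z x) (fun g x => hz g x) c
    ((G.subgroupOf V).subgroupOf W) (G.subgroupOf W') (by
      ext x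
      constructor
      · rintro ⟨y, hy, rfl⟩
        exact hy
      · intro hx
        exact ⟨(upE W W' h).symm x, by
          have e1 := upE_coe W W' h ((upE W W' h).symm x)
          rw [MulEquiv.apply_symm_apply] at e1
          have : ((((upE W W' h).symm x : W) : V) : Γ) ∈ G := by
            rw [← e1]
            exact hx
          exact this, (upE W W' h).apply_symm_apply x⟩)
  exact this

theorem wd_up (red : integralClosure ℤ ℂ →+* F) {V : Subgroup Γ} {z : Γ → F}
    (hz : IsClassFun z) (c : F) (W : Subgroup V) (W' : Subgroup Γ) (h : W.map V.subtype = W') :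
    wd p red (fun x : W => z ((x : V) : Γ)) c = wd p red (fun x : W' => z x) c :=
  nd_iso (p := p) red (upE W W' h) (z := fun x : W' => z x) (fun g x => hz g x) c ⊤ ⊤
    (Subgroup.map_top_of_surjective _ (upE W W' h).surjective)

lemma sup_up {G V : Subgroup Γ} (hGV : G ≤ V) (v : V) :
    ((G.subgroupOf V) ⊔ Subgroup.zpowers v).map V.subtype = G ⊔ Subgroup.zpowers (v : Γ) := by
  rw [Subgroup.map_sup, Subgroup.subgroupOf_map_subtype, inf_eq_left.2 hGV, MonoidHom.map_zpowers]
  rfl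

end tr

section zc

variable {F : Type} [Field F] [IsAlgClosed F] {Γ : Type} [Group Γ] [Finite Γ] {p : ℕ}
  [Fact p.Prime] [CharP F p]

theorem avg_zc0 (red : integralClosure ℤ ℂ →+* F) {G : Subgroup Γ} [G.Normal]
    (hp : IsPGroup p (Γ ⧸ G)) {z : Γ → F} (hz : InZ G z) (c : F) [Fintype Γ] :
    (Nat.card Γ : ℤ) * wd p red z c =
      ∑ γ : Γ, nd p red (G.subgroupOf (G ⊔ Subgroup.zpowers γ))
        (fun x : ↥(G ⊔ Subgroup.zpowers γ) => z x) c := by
  have h3 := mean_L G hp hz c
  have h4 := mean_W (p := p) red G hp hz c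
  have h6 : (Nat.card Γ : ℤ) * (Lnum (⊤ : Subgroup Γ) ⊤ z c : ℤ) =
      ∑ γ : Γ, (Lnum (G.subgroupOf (G ⊔ Subgroup.zpowers γ)) ⊤
        (fun x : ↥(G ⊔ Subgroup.zpowers γ) => z x) c : ℤ) := by
    exact_mod_cast h3
  have h7 : ∀ γ : Γ, nd p red (G.subgroupOf (G ⊔ Subgroup.zpowers γ))
      (fun x : ↥(G ⊔ Subgroup.zpowers γ) => z x) c =
      (Lnum (G.subgroupOf (G ⊔ Subgroup.zpowers γ)) ⊤
        (fun x : ↥(G ⊔ Subgroup.zpowers γ) => z x) c : ℤ) -
      (wcl p red (G.subgroupOf (G ⊔ Subgroup.zpowers γ))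
      (fun x : ↥(G ⊔ Subgroup.zpowers γ) => z x) c : ℤ) :=
    fun γ => rfl
  rw [Finset.sum_congr rfl fun γ _ => h7 γ, Finset.sum_sub_distrib, ← h6, ← h4, ← mul_sub]
  rfl

/-- the average formula for a subgroup `V` at a central element -/
theorem avg_zc (red : integralClosure ℤ ℂ →+* F) {G V : Subgroup Γ} [G.Normal] (hGV : G ≤ V)
    (hp : IsPGroup p (Γ ⧸ G)) {z : Γ → F} (hz : InZ G z) (c : F) [Fintype V] :
    (Nat.card V : ℤ) * wd p red (fun x : V => z x) c =
      ∑ v : V, nd p red (G.subgroupOf (G ⊔ Subgroup.zpowers (v : Γ)))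
        (fun x : ↥(G ⊔ Subgroup.zpowers (v : Γ)) => z x) c := by
  rw [avg_zc0 (p := p) red (pg_sub hp) (inz_sub hz) c]
  refine Finset.sum_congr rfl fun v _ => ?_
  exact nd_up red hz.conj c _ _ (sup_up hGV v)

/-- the cyclic formula at a central element -/
theorem cyc_zc (red : integralClosure ℤ ℂ →+* F) {G : Subgroup Γ} [hGn : G.Normal]
    (hp : IsPGroup p (Γ ⧸ G)) {z : Γ → F} (hz : InZ G z) (c : F) {γ : Γ} (hγ : γ ∉ G) :
    (p : ℤ) * wd p red (fun x : ↥(G ⊔ Subgroup.zpowers γ) => z x) c =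
      wd p red (fun x : ↥(G ⊔ Subgroup.zpowers (γ ^ p)) => z x) c +
      (p - 1) * nd p red (G.subgroupOf (G ⊔ Subgroup.zpowers γ))
        (fun x : ↥(G ⊔ Subgroup.zpowers γ) => z x) c := by
  have hpr : p.Prime := Fact.out
  set V : Subgroup Γ := G ⊔ Subgroup.zpowers γ with hV
  set V' : Subgroup Γ := G ⊔ Subgroup.zpowers (γ ^ p) with hV'
  have hGV : G ≤ V := le_sup_left
  have hGV' : G ≤ V' := le_sup_left
  have hγV : γ ∈ V := le_sup_right (a := G) (Subgroup.mem_zpowers γ)
  have hγV' : γ ^ p ∈ V' := le_sup_right (a := G) (Subgroup.mem_zpowers (γ ^ p))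
  have hVV : V' ≤ V := by
    refine sup_le hGV ?_
    rw [Subgroup.zpowers_le]
    exact V.pow_mem hγV p
  -- normality
  have hnorm : V ≤ Subgroup.normalizer (V' : Set Γ) := by
    refine sup_le (hGV'.trans Subgroup.le_normalizer) ?_
    rw [Subgroup.zpowers_le, ← Pool.Agent.Y63.KR.conjSub_eq_iff]
    change V'.map (MulAut.conj γ).toMonoidHom = V'
    rw [hV', Subgroup.map_sup, MonoidHom.map_zpowers]
    have e1 : G.map (MulAut.conj γ).toMonoidHom = G := by
      ext x
      constructor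
      · rintro ⟨y, hy, rfl⟩
        exact hGn.conj_mem y hy γ
      · intro hx
        refine ⟨γ⁻¹ * x * γ, ?_, ?_⟩
        · have := hGn.conj_mem x hx γ⁻¹
          rwa [inv_inv] at this
        · show γ * (γ⁻¹ * x * γ) * γ⁻¹ = x
          group
    have e2 : (MulAut.conj γ).toMonoidHom (γ ^ p) = γ ^ p := by
      change γ * γ ^ p * γ⁻¹ = γ ^ p
      rw [← pow_succ', pow_succ, mul_inv_cancel_right]
    rw [e1, e2]
  have hUn : (V'.subgroupOf V).Normal := Subgroup.normal_subgroupOf_of_le_normalizer hnorm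
  have hpV : IsPGroup p (V ⧸ G.subgroupOf V) := pg_sub hp
  -- subgroups of index `p` contain `V'`
  have hM : ∀ M : Subgroup V, M.Normal → Nat.card (V ⧸ M) = p → G.subgroupOf V ≤ M →
      V'.subgroupOf V ≤ M := by
    intro M hMn hMp hGM
    have h1 : V' ≤ M.map V.subtype := by
      refine sup_le ?_ ?_
      · intro x hx
        exact ⟨⟨x, hGV hx⟩, hGM hx, rfl⟩
      · rw [Subgroup.zpowers_le]
        refine ⟨⟨γ ^ p, V.pow_mem hγV p⟩, ?_, rfl⟩
        have h2 : ((⟨γ, hγV⟩ : V) : V ⧸ M) ^ p = 1 := by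
          rw [← hMp]
          exact pow_card_eq_one'
        rw [← QuotientGroup.mk_pow, QuotientGroup.eq_one_iff] at h2
        exact h2
    intro x hx
    obtain ⟨y, hy, hyx⟩ := h1 hx
    have : y = x := Subtype.ext hyx
    rwa [← this]
  have hGt : G.subgroupOf V ≠ ⊤ := by
    intro h
    apply hγ
    have : (⟨γ, hγV⟩ : V) ∈ G.subgroupOf V := by rw [h]; trivial
    exact this
  have hΦ : ∀ H : Subgroup V, V'.subgroupOf V ⊔ H = ⊤ → G.subgroupOf V ⊔ H = ⊤ := by
    intro H hH
    by_contra hne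
    obtain ⟨M, hMn, hMp, hle⟩ := exists_max hpV le_sup_left hne
    have h1 : V'.subgroupOf V ⊔ H ≤ M := sup_le (hM M hMn hMp (le_sup_left.trans hle))
      (le_sup_right.trans hle)
    rw [hH, top_le_iff] at h1
    have h2 : M.index = p := hMp
    rw [h1, Subgroup.index_top] at h2
    exact hpr.one_lt.ne h2
  have hidx : Nat.card (V ⧸ V'.subgroupOf V) = p := by
    obtain ⟨M, hMn, hMp, hle⟩ := exists_max hpV le_rfl hGt
    have h1 := hM M hMn hMp hle
    have hne : Nat.card (V ⧸ V'.subgroupOf V) ≠ 1 := by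
      intro h
      have h2 : V'.subgroupOf V = ⊤ := Subgroup.index_eq_one.1 h
      rw [h2, top_le_iff] at h1
      have h3 : M.index = p := hMp
      rw [h1, Subgroup.index_top] at h3
      exact hpr.one_lt.ne h3
    have hgen : Subgroup.zpowers ((⟨γ, hγV⟩ : V) : V ⧸ V'.subgroupOf V) = ⊤ := by
      rw [eq_top_iff]
      intro q _
      obtain ⟨v, rfl⟩ := QuotientGroup.mk_surjective q
      have hv : (v : Γ) ∈ G ⊔ Subgroup.zpowers γ := v.2
      rw [Subgroup.mem_sup_of_normal_left] at hv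
      obtain ⟨g, hg, w, hw, hgw⟩ := hv
      obtain ⟨n, rfl⟩ := Subgroup.mem_zpowers_iff.1 hw
      refine Subgroup.mem_zpowers_iff.2 ⟨n, ?_⟩
      have h2 : v = ⟨g, hGV hg⟩ * (⟨γ, hγV⟩ : V) ^ n := Subtype.ext (by
        rw [← hgw]
        push_cast
        rfl)
      rw [h2, QuotientGroup.mk_mul, QuotientGroup.mk_zpow,
        (QuotientGroup.eq_one_iff (⟨g, hGV hg⟩ : V)).2 (hGV' hg), one_mul]
    have h2 : orderOf ((⟨γ, hγV⟩ : V) : V ⧸ V'.subgroupOf V) ∣ p := by
      apply orderOf_dvd_of_pow_eq_one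
      rw [← QuotientGroup.mk_pow, QuotientGroup.eq_one_iff]
      exact hγV'
    rw [← Nat.card_zpowers, hgen, Subgroup.card_top] at h2
    rcases (Nat.dvd_prime hpr).1 h2 with h | h
    · exact absurd h hne
    · exact h
  have h1 := index_formula (p := p) red hidx (z := fun x : V => z x)
    (InZ.mono (N := G.subgroupOf V) (fun x hx => hGV' hx) (inz_sub hz)) c
  rw [← nd_frattini red (G := G.subgroupOf V) (fun x hx => hGV' hx) hpV hΦ (inz_sub hz) c,
    wd_up red hz.conj c (V'.subgroupOf V) V' (by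
      rw [Subgroup.subgroupOf_map_subtype, inf_eq_left.2 hVV])] at h1
  exact h1

end zc

end Pool.Agent.X252.NVF
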