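import Pool.Agent.Y63.NV.Bawc
import Pool.Agent.Y63.NV.Nfin2

/-!
# Blocks and elements supported on normal subgroups: uniqueness
-/

set_option linter.unusedSectionVars false

open scoped Classical

noncomputable section

namespace Pool.Agent.X252.NVU

open Pool.Agent.Y63.NV Pool.Agent.Y286.NV Pool.Agent.Y405.NV
open Pool.Agent.Y63.NV.B286 (cp cosf conv_class)

section star

variable {F : Type} [Field F] {Γ : Type} [Group Γ] [Finite Γ] {G : Subgroup Γ} [G.Normal]

/-- conjugation of functions -/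
def cf (γ : Γ) (f : G → F) : G → F := fun x => f ((MulAut.conjNormal (H := G) γ).symm x)

lemma cf_class (γ : Γ) {f : G → F} (hf : IsClassFun f) : IsClassFun (cf γ f) := by
  intro g x
  unfold cf
  rw [map_mul, map_mul, map_inv]
  exact hf _ _

lemma cf_cf (γ δ : Γ) (f : G → F) : cf γ (cf δ f) = cf (γ * δ) f := by
  funext x
  unfold cf
  rw [map_mul]
  rfl

lemma cf_one (f : G → F) : cf (1 : Γ) f = f := by
  funext x
  unfold cf
  rw [map_one]
  rfl

lemma inv_cf {B : (G → F) → F} (hBi : IsInvBlock G B) (γ : Γ) {f : G → F} (hf : IsClassFun f) :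
    B (cf γ f) = B f := by
  refine hBi γ f (cf γ f) hf fun x y hxy => ?_
  unfold cf
  rw [conj_symm_eq G hxy]

lemma rh_sg {D : (G → F) → F} (hD : IsBlock D) (γ : Γ) (f : G → F) (hf : IsClassFun f) :
    toRH hD (sg G γ (ofC f hf)) = D (cf γ f) := by
  rw [toRH_apply]
  refine congrArg D (funext fun x => ?_)
  rw [coeff_sg]
  rfl

/-- the class functions of `G` -/
abbrev CG (F : Type) [Field F] (G : Subgroup Γ) : Submodule F (G → F) := ZG F (⊤ : Subgroup G)

lemma cg_class (f : CG F G) : IsClassFun f.1 := f.2.conj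

lemma cg_mem {f : G → F} (hf : IsClassFun f) : f ∈ CG F G :=
  ⟨hf, fun x hx => absurd (Subgroup.mem_top x) hx⟩

/-- the conjugates of a block as functionals -/
def muD {D : (G → F) → F} (hD : IsBlock D) (γ : Γ) : CG F G →ₗ[F] F where
  toFun f := D (cf γ f.1)
  map_add' a b := hD.add _ _ (cf_class γ (cg_class a)) (cf_class γ (cg_class b))
  map_smul' c a := hD.smul c _ (cf_class γ (cg_class a))

/-- a block of `G` which agrees with an invariant block on the invariant elements is equal to it -/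
theorem star [Infinite F] {B D : (G → F) → F} (hB : IsBlock B) (hBi : IsInvBlock G B)
    (hD : IsBlock D) (h : ∀ z : Γ → F, InZ G z → D (fun x => z x) = B (fun x => z x)) :
    ∀ f : G → F, IsClassFun f → D f = B f := by
  obtain ⟨f, hf⟩ := exists_sep (fun γ : Γ => muD hD γ) (muD hB (1 : Γ))
  let w := nrm G (ofC f.1 (cg_class f)) (B f.1)
  let zz : Γ → F := fun x => if hx : x ∈ G then w.1.coeff ⟨x, hx⟩ else 0
  have hzz : ∀ x : G, zz x = w.1.coeff x := fun x => dif_pos x.2
  have hZ : InZ G zz := by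
    refine ⟨fun g x => ?_, fun x hx => dif_neg hx⟩
    by_cases hx : x ∈ G
    · have hx' : g * x * g⁻¹ ∈ G := (inferInstance : G.Normal).conj_mem x hx g
      have h1 := hzz ⟨x, hx⟩
      have h2 := hzz ⟨g * x * g⁻¹, hx'⟩
      simp only at h1 h2
      rw [h1, h2]
      have h3 : (sg G g w).1.coeff ⟨g * x * g⁻¹, hx'⟩ = w.1.coeff ⟨g * x * g⁻¹, hx'⟩ := by
        rw [sg_nrm]
      rw [← h3, coeff_sg, conj_symm_eq G (x := ⟨x, hx⟩) (y := ⟨g * x * g⁻¹, hx'⟩) rfl]
    · have hx' : g * x * g⁻¹ ∉ G := by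
        intro h
        apply hx
        have := (inferInstance : G.Normal).conj_mem _ h g⁻¹
        simpa [mul_assoc] using this
      show zz (g * x * g⁻¹) = zz x
      rw [show zz (g * x * g⁻¹) = 0 from dif_neg hx', show zz x = 0 from dif_neg hx]
  have h1 := h zz hZ
  have h2 : (fun x : G => zz x) = fun x : G => w.1.coeff x := funext hzz
  rw [h2] at h1
  have h3 : toRH hD w = toRH hB w := h1
  rw [toRH_nrm G hB hBi, toRH_ofC, sub_self, zero_pow Nat.card_pos.ne'] at h3
  let _ := Fintype.ofFinite Γ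
  have h4 : toRH hD w = ∏ γ : Γ, (D (cf γ f.1) - B f.1) := by
    change toRH hD (∏ γ : Γ, (sg G γ (ofC f.1 (cg_class f)) - ofS (B f.1))) = _
    rw [map_prod]
    refine Finset.prod_congr rfl fun γ _ => ?_
    rw [map_sub, rh_sg, toRH_ofS]
  rw [h4] at h3
  obtain ⟨γ, -, hγ⟩ := Finset.prod_eq_zero_iff.1 h3
  have h5 : muD hD γ f = muD hB (1 : Γ) f := by
    change D (cf γ f.1) = B (cf 1 f.1)
    rw [cf_one]
    exact sub_eq_zero.1 hγ
  have h6 := hf γ h5
  intro f' hf'
  have h7 := LinearMap.congr_fun h6 ⟨cf γ⁻¹ f', cg_mem (cf_class γ⁻¹ hf')⟩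
  change D (cf γ (cf γ⁻¹ f')) = B (cf 1 (cf γ⁻¹ f')) at h7
  rw [cf_cf, cf_cf, mul_inv_cancel, cf_one, one_mul, inv_cf hBi γ⁻¹ hf'] at h7
  exact h7

end star

section uniq

variable {F : Type} [Field F] {Γ : Type} [Group Γ]

/-- `L` is additive and multiplicative on the central elements supported on `U` -/
structure IsMF (U : Subgroup Γ) (L : (Γ → F) → F) : Prop where
  zero : L 0 = 0
  add : ∀ f g : Γ → F, InZ U f → InZ U g → L (f + g) = L f + L g
  one : L (Pi.single 1 1) = 1
  mul : ∀ f g : Γ → F, InZ U f → InZ U g → L (conv f g) = L f * L g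

lemma InZ.mono {N M : Subgroup Γ} (h : N ≤ M) {z : Γ → F} (hz : InZ N z) : InZ M z :=
  ⟨hz.conj, fun x hx => hz.supp x fun h' => hx (h h')⟩

lemma IsMF.mono {N M : Subgroup Γ} (h : N ≤ M) {L : (Γ → F) → F} (hL : IsMF M L) : IsMF N L :=
  ⟨hL.zero, fun f g hf hg => hL.add f g (InZ.mono h hf) (InZ.mono h hg), hL.one,
    fun f g hf hg => hL.mul f g (InZ.mono h hf) (InZ.mono h hg)⟩

/-- blocks of `Γ` -/
lemma isMF_block {B : (Γ → F) → F} (hB : IsBlock B) (U : Subgroup Γ) : IsMF U B where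
  zero := by
    have := hB.smul 0 (0 : Γ → F) (fun _ _ => rfl)
    rwa [zero_smul, zero_mul] at this
  add f g hf hg := hB.add f g hf.conj hg.conj
  one := hB.one
  mul f g hf hg := hB.mul f g hf.conj hg.conj

lemma conv_inZ {U : Subgroup Γ} {f g : Γ → F} (hf : InZ U f) (hg : InZ U g) :
    InZ U (conv f g) := by
  refine ⟨conv_class hf.conj hg.conj, fun x hx => ?_⟩
  show ∑ᶠ y : Γ, f y * g (y⁻¹ * x) = 0
  have h0 : ∀ y : Γ, f y * g (y⁻¹ * x) = 0 := by
    intro y
    by_cases h1 : y ∈ U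
    · rw [hg.supp, mul_zero]
      intro h2
      apply hx
      have := U.mul_mem h1 h2
      rwa [mul_inv_cancel_left] at this
    · rw [hf.supp y h1, zero_mul]
  rw [finsum_congr h0, finsum_zero]

lemma single_inZ (U : Subgroup Γ) : InZ U (Pi.single (1 : Γ) (1 : F)) := by
  refine ⟨Pool.Agent.Y63.NV.B286.single_class, fun x hx => ?_⟩
  rw [Pi.single_eq_of_ne]
  rintro rfl
  exact hx U.one_mem

lemma cp_inZ {U : Subgroup Γ} {f : Γ → F} (hf : InZ U f) (n : ℕ) : InZ U (cp f n) := by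
  induction n with
  | zero => exact single_inZ U
  | succ n ih => exact conv_inZ hf ih

lemma mf_cp {U : Subgroup Γ} {L : (Γ → F) → F} (hL : IsMF U L) {f : Γ → F} (hf : InZ U f)
    (n : ℕ) : L (cp f n) = L f ^ n := by
  induction n with
  | zero => rw [pow_zero]; exact hL.one
  | succ n ih =>
    show L (conv f (cp f n)) = _
    rw [hL.mul _ _ hf (cp_inZ hf n), ih, pow_succ, mul_comm]

/-- one central step -/
theorem step [Finite Γ] (p : ℕ) [Fact p.Prime] [CharP F p] {N M : Subgroup Γ} [N.Normal]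
    (hc : ∀ x ∈ M, ∀ g : Γ, ((g * x * g⁻¹ : Γ) : Γ ⧸ N) = x) {k : ℕ}
    (hk : ∀ x ∈ M, x ^ p ^ k ∈ N)
    {L L' : (Γ → F) → F} (hL : IsMF M L)
    (hL' : IsMF M L') (h : ∀ z : Γ → F, InZ N z → L z = L' z) :
    ∀ z : Γ → F, InZ M z → L z = L' z := by
  intro f hf
  have hclass : ∀ q : Γ ⧸ N, InZ M (cosf N f q) := by
    intro q
    refine ⟨fun g x => ?_, fun x hx => ?_⟩
    · unfold cosf
      by_cases hx : x ∈ M
      · rw [hf.conj, hc x hx g]
      · have h1 : f x = 0 := hf.supp x hx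
        rw [hf.conj, h1]
        split_ifs <;> rfl
    · unfold cosf
      rw [hf.supp x hx]
      split_ifs <;> rfl
  have h1 : ∀ q, L (cosf N f q) = L' (cosf N f q) := by
    intro q
    by_cases hq : ∃ x ∈ M, (x : Γ ⧸ N) = q
    · obtain ⟨x, hx, rfl⟩ := hq
      have hi := hclass (x : Γ ⧸ N)
      have hz : InZ N (cp (cosf N f (x : Γ ⧸ N)) (p ^ k)) := by
        refine ⟨(cp_inZ hi _).conj, fun y hy =>
          Pool.Agent.Y63.NV.B286.cp_supp (G := N) (q := (x : Γ ⧸ N)) (fun y hy => if_neg hy)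
            _ y ?_⟩
        intro h2
        apply hy
        have h3 : (x : Γ ⧸ N) ^ p ^ k = 1 := by
          rw [← QuotientGroup.mk_pow, QuotientGroup.eq_one_iff]
          exact hk x hx
        rw [h3] at h2
        exact (QuotientGroup.eq_one_iff y).mp h2
      have h3 := h _ hz
      rw [mf_cp hL hi, mf_cp hL' hi] at h3
      have h4 := sub_pow_char_pow (p := p) (L (cosf N f (x : Γ ⧸ N))) (L' (cosf N f (x : Γ ⧸ N))) k
      rw [h3, sub_self] at h4
      exact sub_eq_zero.mp (pow_eq_zero_iff (pow_ne_zero k (Fact.out : p.Prime).ne_zero) |>.mp h4)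
    · have h2 : cosf N f q = 0 := by
        funext x
        unfold cosf
        by_cases hx : (x : Γ ⧸ N) = q
        · have h3 : x ∉ M := fun h' => hq ⟨x, h', hx⟩
          rw [if_pos hx, hf.supp x h3]
          rfl
        · rw [if_neg hx]
          rfl
      rw [h2, hL.zero, hL'.zero]
  have : Fintype (Γ ⧸ N) := Fintype.ofFinite _
  have h2 : ∀ s : Finset (Γ ⧸ N), InZ M (∑ q ∈ s, cosf N f q) ∧
      L (∑ q ∈ s, cosf N f q) = L' (∑ q ∈ s, cosf N f q) := by
    intro s
    induction s using Finset.induction_on with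
    | empty =>
      rw [Finset.sum_empty, hL.zero, hL'.zero]
      exact ⟨⟨fun _ _ => rfl, fun _ _ => rfl⟩, rfl⟩
    | insert q s hq ih =>
      rw [Finset.sum_insert hq]
      refine ⟨(ZG F M).add_mem (hclass q) ih.1, ?_⟩
      rw [hL.add _ _ (hclass q) ih.1, hL'.add _ _ (hclass q) ih.1, h1, ih.2]
  have h3 : f = ∑ q : Γ ⧸ N, cosf N f q := by
    funext x
    rw [Finset.sum_apply]
    unfold cosf
    rw [Finset.sum_ite_eq Finset.univ (x : Γ ⧸ N), if_pos (Finset.mem_univ _)]
  rw [h3]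
  exact (h2 Finset.univ).2

/-- multiplicative functionals on the central elements supported on `U` are determined by their
values on the elements supported on `G`, if `U/G` is a `p`-group -/
theorem uniq [Finite Γ] (p : ℕ) [Fact p.Prime] [CharP F p] {G U : Subgroup Γ} [hG : G.Normal]
    [hU : U.Normal] (hGU : G ≤ U) (hp : IsPGroup p (Γ ⧸ G)) {L L' : (Γ → F) → F}
    (hL : IsMF U L) (hL' : IsMF U L') (h : ∀ z : Γ → F, InZ G z → L z = L' z) :
    ∀ z : Γ → F, InZ U z → L z = L' z := by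
  have hnil : Group.IsNilpotent (Γ ⧸ G) := hp.isNilpotent
  obtain ⟨n, hn⟩ := Group.IsNilpotent.nilpotent (Γ ⧸ G)
  obtain ⟨k, hk⟩ := IsPGroup.iff_card.1 hp
  have hkk : ∀ x : Γ, x ^ p ^ k ∈ G := by
    intro x
    rw [← QuotientGroup.eq_one_iff, QuotientGroup.mk_pow, ← hk]
    exact pow_card_eq_one'
  let Z : ℕ → Subgroup Γ := fun i =>
    (Subgroup.upperCentralSeries (Γ ⧸ G) i).comap (QuotientGroup.mk' G) ⊓ U
  have hZn : ∀ i, (Z i).Normal := fun i => by
    have : ((Subgroup.upperCentralSeries (Γ ⧸ G) i).comap (QuotientGroup.mk' G)).Normal :=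
      Subgroup.Normal.comap inferInstance _
    infer_instance
  have hGZ : ∀ i, G ≤ Z i := by
    intro i x hx
    refine ⟨?_, hGU hx⟩
    change (QuotientGroup.mk' G) x ∈ Subgroup.upperCentralSeries (Γ ⧸ G) i
    rw [QuotientGroup.mk'_apply, (QuotientGroup.eq_one_iff x).2 hx]
    exact Subgroup.one_mem _
  have key : ∀ i, ∀ z : Γ → F, InZ (Z i) z → L z = L' z := by
    intro i
    induction i with
    | zero =>
      intro z hz
      refine h z (InZ.mono ?_ hz)
      intro x hx
      have h1 : (QuotientGroup.mk' G) x ∈ Subgroup.upperCentralSeries (Γ ⧸ G) 0 := hx.1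
      rw [Subgroup.upperCentralSeries_zero,
        Subgroup.mem_bot, QuotientGroup.mk'_apply, QuotientGroup.eq_one_iff] at h1
      exact h1
    | succ i ih =>
      have := hZn i
      refine step p (N := Z i) (M := Z (i + 1)) ?_ (k := k) (fun x _ => hGZ i (hkk x))
        (hL.mono inf_le_right) (hL'.mono inf_le_right) ih
      intro x hx g
      symm
      rw [QuotientGroup.eq]
      have h1 : (QuotientGroup.mk' G) x⁻¹ ∈ Subgroup.upperCentralSeries (Γ ⧸ G) (i + 1) :=
        ((Subgroup.upperCentralSeries (Γ ⧸ G) (i + 1)).comap (QuotientGroup.mk' G)).inv_mem hx.1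
      rw [Subgroup.mem_upperCentralSeries_succ_iff] at h1
      have h2 := h1 ((QuotientGroup.mk' G) g)
      refine ⟨?_, U.mul_mem (U.inv_mem hx.2) (hU.conj_mem x hx.2 g)⟩
      change (QuotientGroup.mk' G) (x⁻¹ * (g * x * g⁻¹)) ∈ Subgroup.upperCentralSeries (Γ ⧸ G) i
      convert h2 using 1
      rw [commutatorElement_def, ← map_mul, ← map_inv, ← map_mul, ← map_inv, ← map_mul]
      congr 1
      group
  intro z hz
  refine key n z (InZ.mono ?_ hz)
  intro x hx
  refine ⟨?_, hx⟩
  rw [hn]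
  trivial

end uniq

end Pool.Agent.X252.NVU
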