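import Pool.Agent.X252.NVZ

/-!
# The Frattini reduction: all blocks of `U`
-/

set_option linter.unusedSectionVars false

open scoped Classical

noncomputable section

namespace Pool.Agent.X252.NVF

open Pool.Agent.Y63.NV Pool.Agent.Y286.NV Pool.Agent.Y405.NV Pool.Agent.X252.NVU
open Pool.Agent.X252.NVC Pool.Agent.X252.NVX
open Pool.Agent.Y63.AWC (IsIrreducibleCharacter pSubgroupSetoid)

section stargen

variable {F : Type} [Field F] {Γ : Type} [Group Γ] [Finite Γ] {G : Subgroup Γ} [G.Normal]

/-- blocks of `G` which agree on the invariant elements are conjugate -/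
theorem star_gen [Infinite F] {B D : (G → F) → F} (hB : IsBlock B) (hD : IsBlock D)
    (h : ∀ z : Γ → F, InZ G z → D (fun x => z x) = B (fun x => z x)) :
    ∃ γ : Γ, ∀ f : G → F, IsClassFun f → D (cf γ f) = B f := by
  obtain ⟨f, hf⟩ := exists_sep (fun γ : Γ => muD hD γ) (muD hB (1 : Γ))
  let w := nrm G (ofC f.1 (cg_class f)) (B f.1)
  let zz : Γ → F := fun x => if hx : x ∈ G then w.1.coeff ⟨x, hx⟩ else 0
  have hzz : ∀ x : G, zz x = w.1.coeff x := fun x => dif_pos x.2
  have hZ : InZ G zz := by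
    refine ⟨fun g x => ?_, fun x hx => dif_neg hx⟩
    by_cases hx : x ∈ G
    · have hx' : g * x * g⁻¹ ∈ G := (inferInstance : G.Normal).conj_mem x hx g
      have h1 := hzz ⟨x, hx⟩
      have h2 := hzz ⟨g * x * g⁻¹, hx'⟩
      simp only at h1 h2
      rw [h1, h2]
      have h3 : (sg G g w).1.coeff ⟨g * x * g⁻¹, hx'⟩ = w.1.coeff ⟨g * x * g⁻¹, hx'⟩ := by
        rw [sg_nrm]
      rw [← h3, coeff_sg, conj_symm_eq G (x := ⟨x, hx⟩) (y := ⟨g * x * g⁻¹, hx'⟩) rfl]
    · have hx' : g * x * g⁻¹ ∉ G := by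
        intro h
        apply hx
        have := (inferInstance : G.Normal).conj_mem _ h g⁻¹
        simpa [mul_assoc] using this
      show zz (g * x * g⁻¹) = zz x
      rw [show zz (g * x * g⁻¹) = 0 from dif_neg hx', show zz x = 0 from dif_neg hx]
  have h1 := h zz hZ
  have h2 : (fun x : G => zz x) = fun x : G => w.1.coeff x := funext hzz
  rw [h2] at h1
  have h3 : toRH hD w = toRH hB w := h1
  let _ := Fintype.ofFinite Γ
  have h4 : ∀ {E : (G → F) → F} (hE : IsBlock E),
      toRH hE w = ∏ γ : Γ, (E (cf γ f.1) - B f.1) := by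
    intro E hE
    change toRH hE (∏ γ : Γ, (sg G γ (ofC f.1 (cg_class f)) - ofS (B f.1))) = _
    rw [map_prod]
    refine Finset.prod_congr rfl fun γ _ => ?_
    rw [map_sub, rh_sg, toRH_ofS]
  have h0 : ∏ γ : Γ, (B (cf γ f.1) - B f.1) = 0 :=
    Finset.prod_eq_zero (Finset.mem_univ (1 : Γ)) (by rw [cf_one, sub_self])
  rw [h4 hD, h4 hB, h0] at h3
  obtain ⟨γ, -, hγ⟩ := Finset.prod_eq_zero_iff.1 h3
  have h5 : muD hD γ f = muD hB (1 : Γ) f := by
    change D (cf γ f.1) = B (cf 1 f.1)
    rw [cf_one]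
    exact sub_eq_zero.1 hγ
  have h6 := hf γ h5
  refine ⟨γ, fun f' hf' => ?_⟩
  have h7 := LinearMap.congr_fun h6 ⟨f', cg_mem hf'⟩
  change D (cf γ f') = B (cf 1 f') at h7
  rwa [cf_one] at h7

end stargen

section frat2

variable {F : Type} [Field F] [IsAlgClosed F] {Γ : Type} [Group Γ] [Finite Γ]

/-- an invariant block of `U` covers an invariant block of `G`, if `U/G` lies in the Frattini
subgroup -/
theorem exists_inv_below {G U : Subgroup Γ} [hGn : G.Normal] [hUn : U.Normal] (hGU : G ≤ U)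
    (hΦ : ∀ H : Subgroup Γ, U ⊔ H = ⊤ → G ⊔ H = ⊤) {C : (U → F) → F} (hC : IsBlock C)
    (hCi : IsInvBlock U C) : ∃ B : (G → F) → F, IsBlock B ∧ IsInvBlock G B ∧ Covers G U C B := by
  have : Infinite F := inferInstance
  obtain ⟨B₀, hB₀, hCB₀⟩ := exists_below (G := G.subgroupOf U) hC
  let B : (G → F) → F := fun f => B₀ (fun a => f (eV hGU a))
  have hB : IsBlock B := block_comp (eV hGU) hB₀
  have hBB : ∀ w : G.subgroupOf U → F, blockIn G U B w = B₀ w := by
    intro w
    rw [blockIn_eq hGU]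
    refine congrArg B₀ (funext fun a => ?_)
    change w ((eV hGU).symm ((eV hGU) a)) = w a
    rw [MulEquiv.symm_apply_apply]
  have hcov : Covers G U C B := (covers_iff hGU).2 fun w hw => by
    rw [hBB]
    exact hCB₀ w hw
  refine ⟨B, hB, ?_, hcov⟩
  -- the stabiliser
  let T : Subgroup Γ :=
    { carrier := {γ | ∀ f : G → F, IsClassFun f → B (cf γ f) = B f}
      mul_mem' := by
        intro a b ha hb f hf
        rw [← cf_cf, ha _ (cf_class b hf), hb f hf]
      one_mem' := by
        intro f _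
        rw [cf_one]
      inv_mem' := by
        intro a ha f hf
        have h1 := ha (cf a⁻¹ f) (cf_class _ hf)
        rw [cf_cf, mul_inv_cancel, cf_one] at h1
        exact h1.symm }
  have hGT : G ≤ T := by
    intro g hg f hf
    congr 1
    funext x
    unfold cf
    have h1 : (MulAut.conjNormal (H := G) g).symm x = (⟨g, hg⟩ : G)⁻¹ * x * (⟨g, hg⟩ : G)⁻¹⁻¹ := by
      refine Subtype.ext ?_
      rw [MulAut.conjNormal_symm_apply, inv_inv]
      rfl
    rw [h1]
    exact hf _ _
  have hUT : U ⊔ T = ⊤ := by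
    rw [eq_top_iff]
    intro γ _
    -- the conjugate block
    have hBγ : IsBlock (fun f : G → F => B (cf γ f)) := by
      have h := block_comp (MulAut.conjNormal (H := G) γ).symm hB
      exact h
    have h1 : ∀ z : U → F, InZ (G.subgroupOf U) z →
        blockIn G U (fun f : G → F => B (cf γ f)) (fun x => z x) = B₀ (fun x => z x) := by
      intro w hw
      have hzw : (fun x : U => ext0 w (x : Γ)) = w := funext fun x => dif_pos x.2
      have hzU : ∀ u ∈ U, ∀ x : Γ, ext0 w (u * x * u⁻¹) = ext0 w x := by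
        intro u hu x
        by_cases hx : x ∈ U
        · have h1 := hw.conj ⟨u, hu⟩ ⟨x, hx⟩
          have h2 := congrFun hzw (⟨u, hu⟩ * ⟨x, hx⟩ * (⟨u, hu⟩ : U)⁻¹)
          have h3 := congrFun hzw ⟨x, hx⟩
          rw [h1, ← h3] at h2
          exact h2
        · have h2 : u * x * u⁻¹ ∉ U := by
            intro h
            apply hx
            have := U.mul_mem (U.mul_mem (U.inv_mem hu) h) hu
            have e : u⁻¹ * (u * x * u⁻¹) * u = x := by group
            rwa [e] at this
          rw [show ext0 w x = 0 from dif_neg hx, show ext0 w (u * x * u⁻¹) = 0 from dif_neg h2]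
      have hzG : ∀ x : Γ, x ∉ G → ext0 w x = 0 := by
        intro x hx
        by_cases hxV : x ∈ U
        · have h3 := congrFun hzw ⟨x, hxV⟩
          simp only at h3
          rw [h3]
          exact hw.supp _ hx
        · exact dif_neg hxV
      have hU' : ∀ u ∈ U, ∀ x : Γ, (fun x => ext0 w (γ⁻¹ * x * γ)) (u * x * u⁻¹) =
          (fun x => ext0 w (γ⁻¹ * x * γ)) x := by
        intro u hu x
        have hu' : γ⁻¹ * u * γ ∈ U := by
          have := hUn.conj_mem u hu γ⁻¹
          rwa [inv_inv] at this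
        have h1 := hzU _ hu' (γ⁻¹ * x * γ)
        have e : γ⁻¹ * u * γ * (γ⁻¹ * x * γ) * (γ⁻¹ * u * γ)⁻¹ = γ⁻¹ * (u * x * u⁻¹) * γ := by
          group
        rw [e] at h1
        exact h1
      have hG' : ∀ x : Γ, x ∉ G → (fun x => ext0 w (γ⁻¹ * x * γ)) x = 0 := by
        intro x hx
        refine hzG _ fun h => hx ?_
        have := hGn.conj_mem _ h γ
        have e : γ * (γ⁻¹ * x * γ) * γ⁻¹ = x := by group
        rwa [e] at this
      have e1 : blockIn G U (fun f : G → F => B (cf γ f)) (fun x => w x) =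
          B (fun x : G => ext0 w (γ⁻¹ * x * γ)) := by
        rw [blockIn_eq hGU]
        have e0 : cf γ (fun x : G => w (((eV hGU).symm x : G.subgroupOf U) : U)) =
            fun x : G => ext0 w (γ⁻¹ * x * γ) := by
          funext x
          unfold cf
          have h2 := congrFun hzw (((eV hGU).symm ((MulAut.conjNormal (H := G) γ).symm x) :
            G.subgroupOf U) : U)
          refine h2.symm.trans ?_
          change ext0 w (((MulAut.conjNormal (H := G) γ).symm x : G) : Γ) = _
          rw [MulAut.conjNormal_symm_apply]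
        exact congrArg B e0
      have e2 := hcov _ hU' hG'
      have e3 : C (fun x : U => ext0 w (γ⁻¹ * x * γ)) = C w := by
        refine hCi γ w _ hw.conj fun x y hxy => ?_
        have h2 := congrFun hzw x
        rw [← h2, hxy]
        congr 1
        group
      rw [e1, ← hCB₀ w hw, ← e3]
      exact e2.symm
    obtain ⟨u, hu⟩ := star_gen (Γ := U) hB₀ (blockIn_block hGU hBγ) h1
    have h2 : γ * (u : Γ) ∈ T := by
      intro f hf
      have h3 := hu (fun a => f (eV hGU a)) (fun g x => by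
        change f (eV hGU (g * x * g⁻¹)) = f (eV hGU x)
        rw [map_mul, map_mul, map_inv]
        exact hf _ _)
      rw [blockIn_eq hGU] at h3
      change B (cf γ (fun x => cf u (fun a => f (eV hGU a)) ((eV hGU).symm x))) = B f at h3
      rw [← h3, ← cf_cf]
      refine congrArg B (congrArg (cf γ) (funext fun x => ?_))
      unfold cf
      refine congrArg f (Subtype.ext ?_)
      change _ = ((((MulAut.conjNormal (H := G.subgroupOf U) u).symm ((eV hGU).symm x) :
        G.subgroupOf U) : U) : Γ)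
      rw [MulAut.conjNormal_symm_apply, MulAut.conjNormal_symm_apply]
      rfl
    have h4 : γ = (γ * (u : Γ)) * (u : Γ)⁻¹ := by group
    rw [h4]
    exact (U ⊔ T).mul_mem (le_sup_right (a := U) h2)
      ((U ⊔ T).inv_mem (le_sup_left (b := T) u.2))
  have hT : T = ⊤ := by
    have := hΦ T hUT
    rwa [sup_eq_right.2 hGT] at this
  intro γ f f' hf hff'
  have hf' : f' = cf γ f := by
    funext y
    exact hff' ((MulAut.conjNormal (H := G) γ).symm y) y (by
      rw [MulAut.conjNormal_symm_apply]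
      group)
  rw [hf']
  have h1 : γ ∈ T := by rw [hT]; trivial
  exact h1 f hf

variable {p : ℕ} [Fact p.Prime] [CharP F p]

lemma covers_normal {G U : Subgroup Γ} [G.Normal] [U.Normal] {C : (U → F) → F}
    {B : (G → F) → F} (h : Covers G U C B) :
    ∀ z : Γ → F, InZ G z → C (fun x => z x) = B (fun x => z x) :=
  fun z hz => h z (fun u _ x => hz.conj u x) hz.supp

/-- **The Frattini reduction.** -/
theorem frattini_reduction (red : integralClosure ℤ ℂ →+* F) {G U : Subgroup Γ} [G.Normal]
    [U.Normal] (hp : IsPGroup p (Γ ⧸ G)) (hGU : G ≤ U)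
    (hΦ' : U.map (QuotientGroup.mk' G) ≤ frattini (Γ ⧸ G)) :
    (∀ B : (G → F) → F, IsBlock B → IsInvBlock G B → ∃ C : (U → F) → F, IsBlock C ∧
      IsInvBlock U C ∧ Covers G U C B) ∧
    (∀ C : (U → F) → F, IsBlock C → IsInvBlock U C → ∃ B : (G → F) → F, IsBlock B ∧
      IsInvBlock G B ∧ Covers G U C B) ∧
    (∀ (B : (G → F) → F) (C : (U → F) → F), IsBlock B → IsInvBlock G B → IsBlock C →
      Covers G U C B →
      numIBr G B = numIBr U C ∧
      (∀ Q : Subgroup Γ, IsPGroup p Q → ((U ⊔ Q = ⊤ ↔ G ⊔ Q = ⊤) ∧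
        numDz p red G Q B = numDz p red U Q C)) ∧
      thetaDefect p red G B = thetaDefect p red U C) ∧
    (NavarroTheta p red G ↔ NavarroTheta p red U) := by
  have hΦ : ∀ H : Subgroup Γ, U ⊔ H = ⊤ → G ⊔ H = ⊤ := by
    intro H hH
    have h1 : H.map (QuotientGroup.mk' G) ⊔ frattini (Γ ⧸ G) = ⊤ := by
      rw [eq_top_iff]
      have h2 : (U ⊔ H).map (QuotientGroup.mk' G) = ⊤ := by
        rw [hH]
        exact Subgroup.map_top_of_surjective _ (QuotientGroup.mk'_surjective G)
      rw [← h2, Subgroup.map_sup]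
      exact sup_le (hΦ'.trans le_sup_right) le_sup_left
    have h2 := frattini_nongenerating h1
    have h3 : (H.map (QuotientGroup.mk' G)).comap (QuotientGroup.mk' G) = ⊤ := by
      rw [h2, Subgroup.comap_top]
    rw [Subgroup.comap_map_eq, QuotientGroup.ker_mk', sup_comm] at h3
    exact h3
  have key : ∀ (B : (G → F) → F) (C : (U → F) → F), IsBlock B → IsInvBlock G B → IsBlock C →
      Covers G U C B →
      numIBr G B = numIBr U C ∧
      (∀ Q : Subgroup Γ, IsPGroup p Q → ((U ⊔ Q = ⊤ ↔ G ⊔ Q = ⊤) ∧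
        numDz p red G Q B = numDz p red U Q C)) ∧
      thetaDefect p red G B = thetaDefect p red U C := by
    intro B C hB hBi hC hCB
    obtain ⟨h1, h2, h3⟩ := frattini_blocks hGU hp hΦ red hB hBi hC hCB
    refine ⟨h1, fun Q hQ => ⟨⟨hΦ Q, fun h => ?_⟩, h2 Q hQ⟩, ?_⟩
    · rw [eq_top_iff, ← h]
      exact sup_le_sup_right hGU Q
    · rw [theta_eq red hB hBi, theta_eq red hC (inv_of_covers hGU hp hBi hC hCB)]
      exact h3
  have hup : ∀ B : (G → F) → F, IsBlock B → IsInvBlock G B → ∃ C : (U → F) → F, IsBlock C ∧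
      IsInvBlock U C ∧ Covers G U C B := by
    intro B hB hBi
    obtain ⟨C, hC, hCB⟩ := exists_covers hGU hB
    exact ⟨C, hC, inv_of_covers hGU hp hBi hC hCB, hCB⟩
  have hdn : ∀ C : (U → F) → F, IsBlock C → IsInvBlock U C → ∃ B : (G → F) → F, IsBlock B ∧
      IsInvBlock G B ∧ Covers G U C B := fun C hC hCi => exists_inv_below hGU hΦ hC hCi
  have hNT : ∀ K : Subgroup Γ, NavarroTheta p red K ↔
      ∀ B : (K → F) → F, IsBlock B → IsInvBlock K B → thetaDefect p red K B = 0 := by
    intro K
    unfold NavarroTheta thetaDefect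
    refine forall_congr' fun B => forall_congr' fun _ => forall_congr' fun _ => ?_
    rw [sub_eq_zero]
    exact Nat.cast_inj.symm
  refine ⟨hup, hdn, key, ?_⟩
  rw [hNT, hNT]
  constructor
  · intro h C hC hCi
    obtain ⟨B, hB, hBi, hCB⟩ := hdn C hC hCi
    rw [← (key B C hB hBi hC hCB).2.2]
    exact h B hB hBi
  · intro h B hB hBi
    obtain ⟨C, hC, hCi, hCB⟩ := hup B hB hBi
    rw [(key B C hB hBi hC hCB).2.2]
    exact h C hC hCi

end frat2

end Pool.Agent.X252.NVF
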