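import Pool.Agent.X252.NVT

/-!
# Blocks of the subgroups between `G` and `Γ`
-/

set_option linter.unusedSectionVars false

open scoped Classical

noncomputable section

namespace Pool.Agent.X252.NVF

open Pool.Agent.Y63.NV Pool.Agent.Y286.NV Pool.Agent.Y405.NV Pool.Agent.X252.NVU
open Pool.Agent.X252.NVC Pool.Agent.X252.NVX
open Pool.Agent.Y63.AWC (IsIrreducibleCharacter pSubgroupSetoid)

section below

variable {F : Type} [Field F] {Γ : Type} [Group Γ] [Finite Γ]

/-- the block of an algebra homomorphism on the centre -/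
def hb {H : Type} [Group H] [Finite H] (g : ZA F H →ₐ[F] F) : (H → F) → F :=
  fun f => if hf : IsClassFun f then g ⟨ofF f, (class_iff _).2 hf⟩ else 0

lemma hb_of {H : Type} [Group H] [Finite H] (g : ZA F H →ₐ[F] F) {f : H → F}
    (hf : IsClassFun f) : hb g f = g ⟨ofF f, (class_iff _).2 hf⟩ := dif_pos hf

lemma hb_block {H : Type} [Group H] [Finite H] (g : ZA F H →ₐ[F] F) : IsBlock (hb g) := by
  have hof : ∀ (f : H → F) (a : MonoidAlgebra F H), (∀ x, a.coeff x = f x) → ofF f = a := by
    intro f a h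
    ext x
    exact (h x).symm
  refine ⟨fun a b ha hb => ?_, fun c a ha => ?_, ?_, fun a b ha hb => ?_⟩
  · have hab : IsClassFun (a + b) := fun y x => by
      rw [Pi.add_apply, Pi.add_apply, ha, hb]
    rw [hb_of _ hab, hb_of _ ha, hb_of _ hb, ← map_add]
    refine congrArg g (Subtype.ext (hof _ _ fun x => ?_))
    rfl
  · have hca : IsClassFun (c • a) := fun y x => by rw [Pi.smul_apply, Pi.smul_apply, ha]
    rw [hb_of _ hca, hb_of _ ha, ← smul_eq_mul, ← map_smul]
    refine congrArg g (Subtype.ext (hof _ _ fun x => ?_))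
    rfl
  · rw [hb_of _ Pool.Agent.Y63.NV.B286.single_class]
    refine Eq.trans (congrArg g (Subtype.ext (hof _ (1 : ZA F H).1 fun x => ?_))) (map_one g)
    exact congrFun coeff_one_eq x
  · have hab : IsClassFun (conv a b) := Pool.Agent.Y63.NV.B286.conv_class ha hb
    rw [hb_of _ hab, hb_of _ ha, hb_of _ hb, ← map_mul]
    refine congrArg g (Subtype.ext (hof _ _ fun x => ?_))
    exact congrFun (coeff_mul_eq (ofF a) (ofF b)) x

variable {G : Subgroup Γ} [G.Normal]

lemma ext0_res (w : G → F) : (fun x : G => ext0 w (x : Γ)) = w := funext fun x => dif_pos x.2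

lemma ext0_eq {f g : Γ → F} (hf : ∀ x, x ∉ G → f x = 0) (hg : ∀ x, x ∉ G → g x = 0)
    (h : (fun x : G => f x) = fun x : G => g x) : f = g := by
  funext x
  by_cases hx : x ∈ G
  · exact congrFun h ⟨x, hx⟩
  · rw [hf x hx, hg x hx]

lemma ext0_off (w : G → F) : ∀ x : Γ, x ∉ G → ext0 w x = 0 := fun x hx => dif_neg hx

/-- invariant elements of the centre of `F[G]` -/
def InvZ (a : ZA F G) : Prop := InZ G (ext0 (fun x : G => a.1.coeff x) : Γ → F)

lemma ext0_add (a b : ZA F G) : (ext0 (fun x : G => (a + b).1.coeff x) : Γ → F) =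
    ext0 (fun x : G => a.1.coeff x) + ext0 (fun x : G => b.1.coeff x) := by
  refine ext0_eq (G := G) (ext0_off _) (fun x hx => ?_) ?_
  · rw [Pi.add_apply, ext0_off _ x hx, ext0_off _ x hx, add_zero]
  · rw [ext0_res]
    funext x
    have h1 := congrFun (ext0_res (Γ := Γ) (fun x : G => a.1.coeff x)) x
    have h2 := congrFun (ext0_res (Γ := Γ) (fun x : G => b.1.coeff x)) x
    rw [Pi.add_apply, h1, h2]
    rfl

lemma ext0_mul (a b : ZA F G) : (ext0 (fun x : G => (a * b).1.coeff x) : Γ → F) =
    conv (ext0 (fun x : G => a.1.coeff x)) (ext0 (fun x : G => b.1.coeff x)) := by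
  refine ext0_eq (G := G) (ext0_off _) (fun x hx => ?_) ?_
  · unfold conv
    have h0 : ∀ y : Γ, (ext0 (fun x : G => a.1.coeff x) : Γ → F) y *
        (ext0 (fun x : G => b.1.coeff x) : Γ → F) (y⁻¹ * x) = 0 := by
      intro y
      by_cases h1 : y ∈ G
      · rw [ext0_off _ (y⁻¹ * x), mul_zero]
        intro h2
        apply hx
        have := G.mul_mem h1 h2
        rwa [mul_inv_cancel_left] at this
      · rw [ext0_off _ y h1, zero_mul]
    rw [finsum_congr h0, finsum_zero]
  · rw [ext0_res, res_conv G (ext0_off _), ext0_res, ext0_res]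
    exact coeff_mul_eq a.1 b.1

lemma ext0_one : (ext0 (fun x : G => (1 : ZA F G).1.coeff x) : Γ → F) = Pi.single 1 1 := by
  refine ext0_eq (G := G) (ext0_off _) (single_inZ G).supp ?_
  rw [ext0_res, res_single G (fun a b => Classical.propDecidable (a = b))]
  exact coeff_one_eq

/-- the invariant elements of the centre -/
def IZ (F : Type) [Field F] (G : Subgroup Γ) [G.Normal] : Subalgebra F (ZA F G) where
  carrier := {a | InvZ (Γ := Γ) a}
  mul_mem' := by
    intro a b ha hb
    change InZ G _
    rw [ext0_mul]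
    exact conv_inZ ha hb
  add_mem' := by
    intro a b ha hb
    change InZ G _
    rw [ext0_add]
    exact (ZG F G).add_mem ha hb
  algebraMap_mem' := by
    intro r
    change InZ G _
    have h1 : (ext0 (fun x : G => (algebraMap F (ZA F G) r).1.coeff x) : Γ → F) =
        r • (Pi.single 1 1 : Γ → F) := by
      rw [← ext0_one (F := F) (G := G)]
      refine ext0_eq (G := G) (ext0_off _) (fun x hx => ?_) ?_
      · rw [Pi.smul_apply, ext0_off _ x hx, smul_zero]
      · rw [ext0_res]
        funext x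
        have h2 := congrFun (ext0_res (Γ := Γ) (fun x : G => (1 : ZA F G).1.coeff x)) x
        rw [Pi.smul_apply, h2, Algebra.algebraMap_eq_smul_one]
        rfl
    rw [h1]
    exact (ZG F G).smul_mem r (single_inZ G)

/-- the restriction of a block of `Γ` to the invariant elements of the centre of `F[G]` -/
def dn {D : (Γ → F) → F} (hD : IsBlock D) : IZ F G →ₐ[F] F :=
  AlgHom.ofLinearMap
    { toFun := fun a => D (ext0 (fun x : G => a.1.1.coeff x))
      map_add' := fun a b => by
        have h := ext0_add (Γ := Γ) a.1 b.1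
        change D (ext0 (fun x : G => (a.1 + b.1).1.coeff x)) = _
        rw [h]
        exact hD.add _ _ a.2.conj b.2.conj
      map_smul' := fun c a => by
        have h : (ext0 (fun x : G => (c • a.1).1.coeff x) : Γ → F) =
            c • ext0 (fun x : G => a.1.1.coeff x) := by
          refine ext0_eq (G := G) (ext0_off _) (fun x hx => ?_) ?_
          · rw [Pi.smul_apply, ext0_off _ x hx, smul_zero]
          · rw [ext0_res]
            funext x
            have h2 := congrFun (ext0_res (Γ := Γ) (fun x : G => a.1.1.coeff x)) x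
            rw [Pi.smul_apply, h2]
            rfl
        change D (ext0 (fun x : G => (c • a.1).1.coeff x)) = _
        rw [h]
        exact hD.smul c _ a.2.conj }
    (by
      change D (ext0 (fun x : G => (1 : ZA F G).1.coeff x)) = 1
      rw [ext0_one]
      exact hD.one)
    (fun a b => by
      have h := ext0_mul (Γ := Γ) a.1 b.1
      change D (ext0 (fun x : G => (a.1 * b.1).1.coeff x)) = _
      rw [h]
      exact hD.mul _ _ a.2.conj b.2.conj)

/-- every block of `Γ` covers a block of `G` -/
theorem exists_below [IsAlgClosed F] {D : (Γ → F) → F} (hD : IsBlock D) :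
    ∃ B : (G → F) → F, IsBlock B ∧ ∀ z : Γ → F, InZ G z → D z = B (fun x => z x) := by
  have hfin : Module.Finite F (ZA F G) := inferInstance
  obtain ⟨g, hg⟩ := extend_hom (IZ F G) (dn (G := G) hD)
  refine ⟨hb g, hb_block g, fun z hz => ?_⟩
  have hc : IsClassFun (fun x : G => z x) := res_classFun hz G
  rw [hb_of g hc]
  have h1 : (ext0 (fun x : G => z x) : Γ → F) = z :=
    ext0_eq (G := G) (ext0_off _) hz.supp (ext0_res _)
  have h2 : (⟨ofF (fun x : G => z x), (class_iff _).2 hc⟩ : ZA F G) ∈ IZ F G := by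
    change InZ G (ext0 (fun x : G => z x) : Γ → F)
    rw [h1]
    exact hz
  have h3 := hg ⟨_, h2⟩
  rw [h3]
  change D z = D (ext0 (fun x : G => z x))
  rw [h1]

end below

section blocks

variable {F : Type} [Field F] [IsAlgClosed F] {Γ : Type} [Group Γ] [Finite Γ]

lemma blockIn_block {G V : Subgroup Γ} (hGV : G ≤ V) {B : (G → F) → F} (hB : IsBlock B) :
    IsBlock (blockIn G V B) := by
  have h := block_comp (eV hGV).symm hB
  have h1 : blockIn G V B = fun f => B (fun x => f ((eV hGV).symm x)) :=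
    funext fun f => blockIn_eq hGV B f
  rw [h1]
  exact h

lemma covers_iff {G V : Subgroup Γ} [G.Normal] (hGV : G ≤ V) {B : (G → F) → F}
    {C : (V → F) → F} : Covers G V C B ↔
      ∀ w : V → F, InZ (G.subgroupOf V) w → C w = blockIn G V B (fun x => w x) := by
  constructor
  · intro h w hw
    have hzw : (fun x : V => ext0 w (x : Γ)) = w := funext fun x => dif_pos x.2
    have h1 := h (ext0 w) (fun u hu x => by
      by_cases hx : x ∈ V
      · have h1 := hw.conj ⟨u, hu⟩ ⟨x, hx⟩
        have h2 := congrFun hzw (⟨u, hu⟩ * ⟨x, hx⟩ * (⟨u, hu⟩ : V)⁻¹)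
        have h3 := congrFun hzw ⟨x, hx⟩
        rw [h1, ← h3] at h2
        exact h2
      · have h2 : u * x * u⁻¹ ∉ V := by
          intro h
          apply hx
          have := V.mul_mem (V.mul_mem (V.inv_mem hu) h) hu
          have e : u⁻¹ * (u * x * u⁻¹) * u = x := by group
          rwa [e] at this
        rw [show ext0 w x = 0 from dif_neg hx, show ext0 w (u * x * u⁻¹) = 0 from dif_neg h2])
      (fun x hx => by
        by_cases hxV : x ∈ V
        · have h3 := congrFun hzw ⟨x, hxV⟩
          simp only at h3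
          rw [h3]
          exact hw.supp _ hx
        · exact dif_neg hxV)
    rw [hzw] at h1
    exact h1
  · intro h z hz hs
    have h1 := h (fun x : V => z x) ⟨fun g x => hz g g.2 x, fun x hx => hs _ hx⟩
    rw [h1, blockIn_eq hGV]
    rfl

theorem exists_covers {G V : Subgroup Γ} [G.Normal] (hGV : G ≤ V) {B : (G → F) → F}
    (hB : IsBlock B) : ∃ C : (V → F) → F, IsBlock C ∧ Covers G V C B := by
  obtain ⟨C, hC, h⟩ := exists_cover (G.subgroupOf V) (blockIn_block hGV hB)
  exact ⟨C, hC, (covers_iff hGV).2 h⟩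

variable {p : ℕ} [Fact p.Prime] [CharP F p]

theorem unique_covers {G V : Subgroup Γ} [G.Normal] (hGV : G ≤ V) (hp : IsPGroup p (Γ ⧸ G))
    {B : (G → F) → F} {C D : (V → F) → F} (hC : IsBlock C) (hD : IsBlock D)
    (hCB : Covers G V C B) (hDB : Covers G V D B) : ∀ f, IsClassFun f → D f = C f := by
  intro f hf
  rw [covers_iff hGV] at hCB hDB
  exact uniq p (G := G.subgroupOf V) (U := ⊤) le_top (pg_sub hp) (isMF_block hD ⊤)
    (isMF_block hC ⊤) (fun w hw => (hDB w hw).trans (hCB w hw).symm) f
    ⟨hf, fun x hx => absurd (Subgroup.mem_top x) hx⟩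

/-- the defect of the block of `V` covering `B`, at a separating element -/
theorem wd_block (red : integralClosure ℤ ℂ →+* F) {G V : Subgroup Γ} [G.Normal]
    (hGV : G ≤ V) (hp : IsPGroup p (Γ ⧸ G)) {B : (G → F) → F} (hB : IsBlock B)
    (hBi : IsInvBlock G B) {z0 : ZG F G} (hsep : ∀ L : ZG F G →ₗ[F] F, IsMult L →
      L z0 = resU hB z0 → L = resU (G := G) hB) {C : (V → F) → F} (hC : IsBlock C)
    (hCB : Covers G V C B) :
    wd p red (fun x : V => z0.1 x) (resU hB z0) = weightDefect p red C := by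
  have e1 : (resU hB z0 : F) = C (fun x : V => z0.1 x) :=
    (hCB z0.1 (fun u _ x => z0.2.conj u x) z0.2.supp).symm
  rw [e1]
  refine wd_eq red (res_classFun z0.2 V) fun D hD h => ?_
  obtain ⟨B'', hB'', hDB⟩ := exists_below (G := G.subgroupOf V) hD
  have h1 : B'' (fun x => z0.1 ((x : V) : Γ)) = resU hB z0 := by
    rw [e1, ← h]
    exact (hDB _ (inz_sub z0.2)).symm
  have h2 := low_eq hGV hB hBi hsep hB'' h1
  refine unique_covers hGV hp hC hD hCB ((covers_iff hGV).2 fun w hw => ?_)
  rw [hDB w hw]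
  exact h2 _ (fun g x => hw.conj _ _)

/-- **The main theorem.** -/
theorem main (red : integralClosure ℤ ℂ →+* F) {G : Subgroup Γ} [G.Normal]
    (hp : IsPGroup p (Γ ⧸ G)) {B : (G → F) → F} (hB : IsBlock B) (hBi : IsInvBlock G B)
    {C : ∀ V : Subgroup Γ, (V → F) → F}
    (hC : ∀ V, G ≤ V → IsBlock (C V) ∧ Covers G V (C V) B) :
    (∀ γ : Γ, ((p : ℤ) - 1) * navarroDefect p red (G.subgroupOf (G ⊔ Subgroup.zpowers γ))
        (blockIn G (G ⊔ Subgroup.zpowers γ) B) =
      p * weightDefect p red (C (G ⊔ Subgroup.zpowers γ)) -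
        weightDefect p red (C (G ⊔ Subgroup.zpowers (γ ^ p)))) ∧
    (∀ V, G ≤ V → (Nat.card V : ℤ) * weightDefect p red (C V) =
      ∑ᶠ v : V, navarroDefect p red (G.subgroupOf (G ⊔ Subgroup.zpowers (v : Γ)))
        (blockIn G (G ⊔ Subgroup.zpowers (v : Γ)) B)) := by
  have : Infinite F := inferInstance
  obtain ⟨z0, hz0⟩ := sep (F := F) G (resU (G := G) hB)
  have hν : ∀ V, G ≤ V → nd p red (G.subgroupOf V) (fun x : V => z0.1 x) (resU hB z0) =
      navarroDefect p red (G.subgroupOf V) (blockIn G V B) :=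
    fun V hV => nd_blockIn red hV hB hBi hz0
  have hδ : ∀ V, G ≤ V → wd p red (fun x : V => z0.1 x) (resU hB z0) =
      weightDefect p red (C V) :=
    fun V hV => wd_block red hV hp hB hBi hz0 (hC V hV).1 (hC V hV).2
  constructor
  · intro γ
    rw [← hν _ le_sup_left, ← hδ _ le_sup_left, ← hδ _ le_sup_left]
    by_cases hγ : γ ∈ G
    · have e1 : G ⊔ Subgroup.zpowers γ = G := by
        rw [sup_eq_left, Subgroup.zpowers_le]
        exact hγ
      have e2 : G ⊔ Subgroup.zpowers (γ ^ p) = G := by
        rw [sup_eq_left, Subgroup.zpowers_le]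
        exact G.pow_mem hγ p
      have e3 : G.subgroupOf (G ⊔ Subgroup.zpowers γ) = ⊤ := by
        rw [Subgroup.subgroupOf_eq_top, e1]
      rw [e3, e2, e1]
      change ((p : ℤ) - 1) * wd p red (fun x : G => z0.1 x) _ = _
      ring
    · have h1 := cyc_zc (p := p) red hp z0.2 (resU (G := G) hB z0) hγ
      rw [h1]
      ring
  · intro V hV
    have : Fintype V := Fintype.ofFinite V
    rw [← hδ V hV, avg_zc red hV hp z0.2, finsum_eq_sum_of_fintype]
    exact Finset.sum_congr rfl fun v _ => hν _ le_sup_left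

end blocks

end Pool.Agent.X252.NVF
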