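import Pool.Agent.X252.GB
import Pool.Agent.X252.SCK

/-!
# Group actions and algebraic projectors onto sets of degrees
-/

set_option autoImplicit false

open CategoryTheory AlgebraicGeometry Finset

universe u v

namespace Pool.Agent.X252.SCT

open Pool.Agent.H914 VarClass Obj WeilCohomology Pool.Agent.X252.GA Pool.Agent.X310.Mu
  Pool.Agent.X252.SCK

variable {k : Type u} [Field k] {𝒱 : VarClass k} {ops : CycleOps 𝒱}

/-- The action of a cycle on `X × X` on the cohomology of `X`. -/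
noncomputable def cyAct (W : WeilCohomology.{u, v} ops) {X : 𝒱.Obj} (P : (X.prod X).Cycles)
    (x : W.H X) : W.H X :=
  W.corr (W.cl (X.prod X) P) x

/-- The pull-back by an element of the group. -/
noncomputable def gPull (W : WeilCohomology.{u, v} ops) {X : 𝒱.Obj} {G : Type} [Group G]
    (a : G →* Aut X) (g : G) (x : W.H X) : W.H X :=
  W.map (a g).hom x

/-- The projector onto the cohomology of `X` in the degrees in `T` is algebraic. -/
def DegreesAlg (W : WeilCohomology.{u, v} ops) (X : 𝒱.Obj) (T : Set ℕ) : Prop :=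
  ∃ P, (X.prod X).IsCyc X.dim P ∧ ∀ j, ∀ x ∈ W.gr X j,
    (j ∈ T → cyAct W P x = x) ∧ (j ∉ T → cyAct W P x = 0)

/-- The same for the quotient `X/H`: some cycle on `X × X` acts as the sum of the pull-backs by the
elements of `H` in the degrees in `T`, and as zero in the other degrees. -/
def QuotientAlg (W : WeilCohomology.{u, v} ops) {X : 𝒱.Obj} {G : Type} [Group G]
    (a : G →* Aut X) (H : Subgroup G) (T : Set ℕ) : Prop :=
  ∃ P, (X.prod X).IsCyc X.dim P ∧ ∀ j, ∀ x ∈ W.gr X j,
    (j ∈ T → cyAct W P x = ∑ᶠ h : H, gPull W a h.1 x) ∧ (j ∉ T → cyAct W P x = 0)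

/-- The representation `ρ` occurs in `H^j(X)` for some `j` in `T`: there is a nonzero equivariant
homomorphism; `g` acts on `H^j(X)` as the pull-back by `g⁻¹`. -/
def OccursIn (W : WeilCohomology.{u, v} ops) {X : 𝒱.Obj} {G : Type} [Group G]
    (a : G →* Aut X) (T : Set ℕ) {V : Type} [AddCommGroup V] [Module ℚ V]
    (ρ : G →* Module.End ℚ V) : Prop :=
  ∃ j ∈ T, ∃ f : V →+ W.H X, (∀ v, f v ∈ W.gr X j) ∧
    (∀ g v, f (ρ g v) = gPull W a g⁻¹ (f v)) ∧ ∃ v, f v ≠ 0

/-- Every irreducible rational representation of `G` which occurs in the cohomology of `X` both in a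
degree in `T` and in a degree outside `T`, and which has a nonzero vector fixed by `H`, has for some
`i` a nonzero vector fixed by `D i`. -/
def DominatedOn (W : WeilCohomology.{u, v} ops) {X : 𝒱.Obj} {G : Type} [Group G]
    (a : G →* Aut X) (T : Set ℕ) {ι : Type} (H : Subgroup G) (D : ι → Subgroup G) : Prop :=
  ∀ (V : Type) [AddCommGroup V] [Module ℚ V] (ρ : G →* Module.End ℚ V), Irred ρ →
    OccursIn W a T ρ → OccursIn W a Tᶜ ρ →
    (∃ v : V, v ≠ 0 ∧ ∀ h ∈ H, ρ h v = v) → ∃ i, ∃ v : V, v ≠ 0 ∧ ∀ d ∈ D i, ρ d v = v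

section
variable {W : WeilCohomology.{u, v} ops} {X : 𝒱.Obj}
variable {G : Type} [Group G] [Fintype G] (a : G →* Aut X)

open Classical in
variable (W X) in
/-- The projector onto a set of degrees. -/
noncomputable def projT (T : Set ℕ) : Module.End W.K (W.H X) :=
  scal (W.isInternal X) (fun j => if j ∈ T then 1 else 0)

lemma projT_in {T : Set ℕ} {j : ℕ} (hj : j ∈ T) {x : W.H X} (hx : x ∈ W.gr X j) :
    projT W X T x = x := by
  rw [projT, scal_apply _ _ hx, if_pos hj, one_smul]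

lemma projT_out {T : Set ℕ} {j : ℕ} (hj : j ∉ T) {x : W.H X} (hx : x ∈ W.gr X j) :
    projT W X T x = 0 := by
  rw [projT, scal_apply _ _ hx, if_neg hj, zero_smul]

omit [Fintype G] in
lemma theta_mem (x : MonoidAlgebra ℚ G) {j : ℕ} {m : W.H X} (hm : m ∈ W.gr X j) :
    theta W a x m ∈ W.gr X j := by
  induction x using MonoidAlgebra.induction_linear with
  | zero => rw [map_zero, LinearMap.zero_apply]; exact Submodule.zero_mem _
  | add f g hf hg => rw [map_add, LinearMap.add_apply]; exact Submodule.add_mem _ hf hg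
  | single g r =>
    rw [theta_single, LinearMap.smul_apply]
    exact Submodule.smul_mem _ _ (W.map_mem _ hm)

omit [Fintype G] in
lemma theta_projT (x : MonoidAlgebra ℚ G) (T : Set ℕ) :
    theta W a x * projT W X T = projT W X T * theta W a x := by
  apply gr_ext (W.isInternal X)
  intro j m hm
  rw [Module.End.mul_apply, Module.End.mul_apply]
  by_cases h : j ∈ T
  · rw [projT_in h hm, projT_in h (theta_mem a x hm)]
  · rw [projT_out h hm, projT_out h (theta_mem a x hm), map_zero]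

variable (W) in
/-- The elements of the group ring whose product with a projector is algebraic. -/
noncomputable def idT (T : Set ℕ) : Ideal (MonoidAlgebra ℚ G) where
  carrier := {x | IsAlg W X (theta W a x * projT W X T)}
  add_mem' := by
    intro x y hx hy
    rw [Set.mem_ofPred_eq, map_add, add_mul]
    exact hx.add hy
  zero_mem' := by
    rw [Set.mem_ofPred_eq, map_zero, zero_mul]
    exact IsAlg.zero
  smul_mem' := by
    intro c x hx
    rw [Set.mem_ofPred_eq, smul_eq_mul, map_mul, mul_assoc]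
    exact (isAlg_theta a c).mul hx

lemma mem_idT {T : Set ℕ} {x : MonoidAlgebra ℚ G} :
    x ∈ idT W a T ↔ IsAlg W X (theta W a x * projT W X T) := Iff.rfl

lemma idT_right (T : Set ℕ) (x : MonoidAlgebra ℚ G) (hx : x ∈ idT W a T) (y : MonoidAlgebra ℚ G) :
    x * y ∈ idT W a T := by
  rw [mem_idT, map_mul, mul_assoc, theta_projT, ← mul_assoc]
  exact IsAlg.mul hx (isAlg_theta a y)

lemma nA_mem_idT {T : Set ℕ} {H : Subgroup G} : nA H ∈ idT W a T ↔ QuotientAlg W a H T := by
  rw [mem_idT]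
  have key1 : ∀ j, ∀ x ∈ W.gr X j, j ∈ T → (theta W a (nA H) * projT W X T) x =
      ∑ᶠ h : H, gPull W a h.1 x := by
    intro j x hx hj
    rw [Module.End.mul_apply, projT_in hj hx, theta_nA]
    rfl
  have key2 : ∀ j, ∀ x ∈ W.gr X j, j ∉ T → (theta W a (nA H) * projT W X T) x = 0 := by
    intro j x hx hj
    rw [Module.End.mul_apply, projT_out hj hx, map_zero]
  constructor
  · rintro ⟨z, hz, h⟩
    exact ⟨z, hz, fun j x hx => ⟨fun hj => by rw [cyAct, h, key1 j x hx hj],
      fun hj => by rw [cyAct, h, key2 j x hx hj]⟩⟩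
  · rintro ⟨z, hz, h⟩
    refine ⟨z, hz, ?_⟩
    apply gr_ext (W.isInternal X)
    intro j x hx
    change cyAct W z x = _
    by_cases hj : j ∈ T
    · rw [(h j x hx).1 hj, key1 j x hx hj]
    · rw [(h j x hx).2 hj, key2 j x hx hj]

lemma one_mem_idT {T : Set ℕ} : (1 : MonoidAlgebra ℚ G) ∈ idT W a T ↔ DegreesAlg W X T := by
  rw [mem_idT, map_one, one_mul]
  constructor
  · rintro ⟨z, hz, h⟩
    exact ⟨z, hz, fun j x hx => ⟨fun hj => by rw [cyAct, h, projT_in hj hx],
      fun hj => by rw [cyAct, h, projT_out hj hx]⟩⟩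
  · rintro ⟨z, hz, h⟩
    refine ⟨z, hz, ?_⟩
    apply gr_ext (W.isInternal X)
    intro j x hx
    change cyAct W z x = _
    by_cases hj : j ∈ T
    · rw [(h j x hx).1 hj, projT_in hj hx]
    · rw [(h j x hx).2 hj, projT_out hj hx]

/-- The ideal contains the annihilator of the degrees in `T`. -/
lemma ann_in {T : Set ℕ} (x : MonoidAlgebra ℚ G)
    (h : ∀ n, (∃ j ∈ T, n ∈ W.gr X j) → theta W a x n = 0) : x ∈ idT W a T := by
  have h0 : theta W a x * projT W X T = 0 := by
    apply gr_ext (W.isInternal X)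
    intro j m hm
    rw [Module.End.mul_apply]
    by_cases hj : j ∈ T
    · rw [projT_in hj hm, h m ⟨j, hj, hm⟩, LinearMap.zero_apply]
    · rw [projT_out hj hm, map_zero, LinearMap.zero_apply]
  rw [mem_idT, h0]
  exact IsAlg.zero

/-- The ideal contains the annihilator of the degrees outside `T`. -/
lemma ann_out {T : Set ℕ} (x : MonoidAlgebra ℚ G)
    (h : ∀ n, (∃ j ∈ Tᶜ, n ∈ W.gr X j) → theta W a x n = 0) : x ∈ idT W a T := by
  have h0 : theta W a x * projT W X T = theta W a x := by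
    apply gr_ext (W.isInternal X)
    intro j m hm
    rw [Module.End.mul_apply]
    by_cases hj : j ∈ T
    · rw [projT_in hj hm]
    · rw [projT_out hj hm, map_zero, h m ⟨j, hj, hm⟩]
  rw [mem_idT, h0]
  exact isAlg_theta a x

/-- The simple submodules of the quotient occur in the cohomology. -/
lemma occurs_of_ann (T : Set ℕ) (I : Ideal (MonoidAlgebra ℚ G)) (hI : ∀ x ∈ I, ∀ y, x * y ∈ I)
    (hann : ∀ x : MonoidAlgebra ℚ G,
      (∀ n, (∃ j ∈ T, n ∈ W.gr X j) → theta W a x n = 0) → x ∈ I)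
    (S : Submodule (MonoidAlgebra ℚ G) (MonoidAlgebra ℚ G ⧸ I))
    (hS : IsSimpleModule (MonoidAlgebra ℚ G) S) : OccursIn W a T (repOf (G := G) S) := by
  let _ : Module (MonoidAlgebra ℚ G) (W.H X) := Module.compHom (W.H X) (theta W a)
  have hsm : ∀ (x : MonoidAlgebra ℚ G) (n : W.H X), x • n = theta W a x n := fun _ _ => rfl
  obtain ⟨n, ⟨j, hj, hn⟩, f, hf, s, hs⟩ := exists_hom I hI S {n : W.H X | ∃ j ∈ T, n ∈ W.gr X j} hann
  refine ⟨j, hj, f.toAddMonoidHom, ?_, ?_, s, hs⟩
  · intro v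
    obtain ⟨x, hx⟩ := hf v
    change f v ∈ _
    rw [hx, hsm]
    exact theta_mem a x hn
  · intro g v
    change f (repOf S g v) = W.map (a g⁻¹).hom (f v)
    rw [repOf_apply, map_smul, hsm, theta_single, Rat.cast_one, one_smul]
    rfl

end

/-- **Group actions and algebraic projectors.** -/
theorem main (W : WeilCohomology.{u, v} ops) (X : 𝒱.Obj) {G : Type} [Group G] [Finite G]
    (a : G →* Aut X) (T : Set ℕ) :
    ((∀ (V : Type) [AddCommGroup V] [Module ℚ V] (ρ : G →* Module.End ℚ V), Irred ρ →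
      OccursIn W a T ρ → ¬ OccursIn W a Tᶜ ρ) → DegreesAlg W X T) ∧
    (∀ (H : Subgroup G) (ι : Type) (D : ι → Subgroup G), DominatedOn W a T H D →
      (∀ j, QuotientAlg W a (D j) T) → QuotientAlg W a H T) ∧
    (∀ c : G, c * c = 1 → (DegreesAlg W X T ↔
      QuotientAlg W a (Subgroup.zpowers c) T ∧ QuotientAlg W a (comms c) T)) ∧
    (∀ (S : Subgroup G) [IsSimpleGroup S], (∃ x y : S, x * y ≠ y * x) →
      ∀ c ∈ S, c ≠ 1 → c * c = 1 →
        (DegreesAlg W X T ↔ QuotientAlg W a (Subgroup.zpowers c) T)) ∧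
    (∀ (ι : Type) [Finite ι] (D : ι → Subgroup G) (K : Subgroup G), 2 ≤ Nat.card ι →
      (∀ j, D j ≤ K) → (∀ g ∈ K, g ≠ 1 → ∃! j, g ∈ D j) →
        (DegreesAlg W X T ↔ ∀ j, QuotientAlg W a (D j) T)) ∧
    (¬ DegreesAlg W X T → (∀ P : Subgroup G, (Nat.card P).Prime → QuotientAlg W a P T) →
      (∃ (V : Type) (_ : AddCommGroup V) (_ : Module ℚ V) (ρ : G →* Module.End ℚ V), Irred ρ ∧
        OccursIn W a T ρ ∧ OccursIn W a Tᶜ ρ ∧ (∃ v : V, v ≠ 0) ∧
        ∀ g : G, g ≠ 1 → ∀ v : V, ρ g v = v → v = 0) ∧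
      (∀ (K : Subgroup G) (p q : ℕ), p.Prime → q.Prime → Nat.card K = p * q → IsCyclic K) ∧
      (∀ K : Subgroup G, (∀ x ∈ K, ∀ y ∈ K, x * y = y * x) → IsCyclic K) ∧
      ∀ σ τ : G, orderOf σ = 2 → orderOf τ = 2 → σ = τ) := by
  have : Fintype G := Fintype.ofFinite G
  have hup : ∀ H : Subgroup G, DegreesAlg W X T → QuotientAlg W a H T := by
    intro H h
    rw [← nA_mem_idT a]
    have h1 := (idT W a T).mul_mem_left (nA H) ((one_mem_idT a).2 h)
    rwa [mul_one] at h1
  have hdown : ∀ (ι : Type) (D : ι → Subgroup G), Dominated (⊥ : Subgroup G) D →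
      (∀ j, QuotientAlg W a (D j) T) → DegreesAlg W X T := by
    intro ι D hD h
    rw [← one_mem_idT a]
    exact one_mem_of_dominated hD _ (idT_right a T) fun j => (nA_mem_idT a).2 (h j)
  have hdom : ∀ (H : Subgroup G) (ι : Type) (D : ι → Subgroup G), DominatedOn W a T H D →
      (∀ j, QuotientAlg W a (D j) T) → nA H ∈ idT W a T := by
    intro H ι D hD h
    refine mem_of_dominatedOn (H := H) (D := D)
      (fun V _ _ ρ => OccursIn W a T ρ ∧ OccursIn W a Tᶜ ρ) ?_ _ (idT_right a T)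
      (fun j => (nA_mem_idT a).2 (h j)) ?_
    · intro V _ _ ρ hρ hQ hv
      exact hD V ρ hρ hQ.1 hQ.2 hv
    · intro S hS
      exact ⟨occurs_of_ann a T _ (idT_right a T) (fun x hx => ann_in a x hx) S hS,
        occurs_of_ann a Tᶜ _ (idT_right a T) (fun x hx => ann_out a x hx) S hS⟩
  have hdom1 : ∀ (ι : Type) (D : ι → Subgroup G), DominatedOn W a T ⊥ D →
      (∀ j, QuotientAlg W a (D j) T) → DegreesAlg W X T := by
    intro ι D hD h
    have h1 := hdom ⊥ ι D hD h
    rwa [nA_bot, one_mem_idT a] at h1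
  refine ⟨?_, ?_, ?_, ?_, ?_, ?_⟩
  · intro h
    refine hdom1 Empty (fun e => e.elim) ?_ fun e => e.elim
    intro V _ _ ρ hρ h1 h2 _
    exact absurd h2 (h V ρ hρ h1)
  · intro H ι D hD h
    rw [← nA_mem_idT a]
    exact hdom H ι D hD h
  · intro c hc
    refine ⟨fun h => ⟨hup _ h, hup _ h⟩, fun h => hdown _ _ (dominated_two hc ⊥) ?_⟩
    intro b
    cases b
    · exact h.2
    · exact h.1
  · intro S _ hS c hcS hc1 hc
    exact ⟨hup _, fun h => hdown _ _ (dominated_comms hc (comms_of_simple S hS hcS hc1) ⊥)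
      fun _ => h⟩
  · intro ι _ D K hι hle hpart
    exact ⟨fun h j => hup _ h, hdown _ _ (dominated_partition D K hι hle hpart ⊥)⟩
  · intro h0 hP
    obtain ⟨-, -, k3⟩ := structure_of_ideal (idT W a T) (idT_right a T)
      (fun h => h0 ((one_mem_idT a).1 h)) fun P hPp => (nA_mem_idT a).2 (hP P hPp)
    refine ⟨?_, k3⟩
    by_contra hcon
    apply h0
    refine hdom1 {P : Subgroup G // (Nat.card P).Prime} (fun P => P.1) ?_ fun P => hP P.1 P.2
    intro V _ _ ρ hρ ho1 ho2 hv
    obtain ⟨v, hv0, -⟩ := hv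
    by_contra hno
    push Not at hno
    apply hcon
    refine ⟨V, _, _, ρ, hρ, ho1, ho2, ⟨v, hv0⟩, fun g hg w hw => ?_⟩
    obtain ⟨P, hPp, hPg⟩ := Pool.Agent.X328.PB.card_zpowers_prime hg
    by_contra hw0
    obtain ⟨d, hd, hd'⟩ := hno ⟨P, hPp⟩ w hw0
    exact hd' (fixed_zpow ρ hw d (hPg hd))

/-- The even numbers. -/
def evens : Set ℕ := {j | Even j}

/-- No irreducible rational representation of `G` occurs both in a degree in `T` and in a degree
outside `T`. -/
def NoCommon (W : WeilCohomology.{u, v} ops) {X : 𝒱.Obj} {G : Type} [Group G]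
    (a : G →* Aut X) (T : Set ℕ) : Prop :=
  ∀ (V : Type) [AddCommGroup V] [Module ℚ V] (ρ : G →* Module.End ℚ V), Irred ρ →
    OccursIn W a T ρ → ¬ OccursIn W a Tᶜ ρ

/-- Some nonzero irreducible rational representation of `G` occurs both in a degree in `T` and in a
degree outside `T`, and the elements of `G` different from one fix only `0` in it. -/
def CommonFree (W : WeilCohomology.{u, v} ops) {X : 𝒱.Obj} {G : Type} [Group G]
    (a : G →* Aut X) (T : Set ℕ) : Prop :=
  ∃ (V : Type) (_ : AddCommGroup V) (_ : Module ℚ V) (ρ : G →* Module.End ℚ V), Irred ρ ∧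
    OccursIn W a T ρ ∧ OccursIn W a Tᶜ ρ ∧ (∃ v : V, v ≠ 0) ∧
    ∀ g : G, g ≠ 1 → ∀ v : V, ρ g v = v → v = 0

/-- The element is contained in a nonabelian simple subgroup. -/
def InSimple {G : Type} [Group G] (c : G) : Prop :=
  ∃ S : Subgroup G, IsSimpleGroup S ∧ (∃ x y : S, x * y ≠ y * x) ∧ c ∈ S

/-- The subgroups `D j`, finitely many but at least two, are contained in `K` and every element of
`K` different from one is contained in exactly one of them. -/
def Partitions {G ι : Type} [Group G] (K : Subgroup G) (D : ι → Subgroup G) : Prop :=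
  Finite ι ∧ 2 ≤ Nat.card ι ∧ (∀ j, D j ≤ K) ∧ ∀ g ∈ K, g ≠ 1 → ∃! j, g ∈ D j

/-- The subgroups whose order is the product of two prime numbers and the commutative subgroups
are cyclic, and there is at most one element of order two. -/
def CyclicSubgroups (G : Type) [Group G] : Prop :=
  (∀ (K : Subgroup G) (p q : ℕ), p.Prime → q.Prime → Nat.card K = p * q → IsCyclic K) ∧
    (∀ K : Subgroup G, (∀ x ∈ K, ∀ y ∈ K, x * y = y * x) → IsCyclic K) ∧
    ∀ σ τ : G, orderOf σ = 2 → orderOf τ = 2 → σ = τ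

/-- **Group actions and algebraic projectors**, with the names for the conditions. -/
theorem main' (W : WeilCohomology.{u, v} ops) (X : 𝒱.Obj) {G : Type} [Group G] [Finite G]
    (a : G →* Aut X) (T : Set ℕ) :
    (NoCommon W a T → DegreesAlg W X T) ∧
    (∀ (H : Subgroup G) (ι : Type) (D : ι → Subgroup G), DominatedOn W a T H D →
      (∀ j, QuotientAlg W a (D j) T) → QuotientAlg W a H T) ∧
    (∀ c : G, c * c = 1 → (DegreesAlg W X T ↔
      QuotientAlg W a (Subgroup.zpowers c) T ∧ QuotientAlg W a (comms c) T)) ∧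
    (∀ c : G, InSimple c → c ≠ 1 → c * c = 1 →
      (DegreesAlg W X T ↔ QuotientAlg W a (Subgroup.zpowers c) T)) ∧
    (∀ (ι : Type) (D : ι → Subgroup G) (K : Subgroup G), Partitions K D →
      (DegreesAlg W X T ↔ ∀ j, QuotientAlg W a (D j) T)) ∧
    (¬ DegreesAlg W X T → (∀ P : Subgroup G, (Nat.card P).Prime → QuotientAlg W a P T) →
      CommonFree W a T ∧ CyclicSubgroups G) := by
  obtain ⟨h1, h2, h3, h4, h5, h6⟩ := main W X a T
  refine ⟨h1, h2, h3, ?_, ?_, ?_⟩
  · rintro c ⟨S, hS, hn, hc⟩ hc1 hcc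
    exact h4 S hn c hc hc1 hcc
  · rintro ι D K ⟨hf, h, h', h''⟩
    exact h5 ι D K h h' h''
  · intro h0 hP
    exact h6 h0 hP

end Pool.Agent.X252.SCT
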