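import Mathlib
import Pool.Agent.H302R3.HypP

/-!
Permutation characters: Solomon's induction theorem, one prime at a time.
-/

set_option autoImplicit false

namespace Pool.Agent.X252.SL

open MulAction Pool.Agent.H302R3

variable {G : Type} [Group G]

/-- the permutation character of `G` on the cosets of `H` -/
noncomputable def fx (H : Subgroup G) (g : G) : ℕ := Nat.card {x : G ⧸ H // g • x = x}

/-- the span of the permutation characters on the cosets of the `p`-hyperelementary subgroups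
of `H` -/
def RH (p : ℕ) (H : Subgroup G) : AddSubgroup (G → ℤ) :=
  AddSubgroup.closure {φ | ∃ U : Subgroup G, (U ≤ H ∧ HypP p U) ∧ φ = fun g => (fx U g : ℤ)}

/-- the span for all subgroups -/
abbrev RR (G : Type) [Group G] (p : ℕ) : AddSubgroup (G → ℤ) := RH p (⊤ : Subgroup G)

lemma rh_mem {p : ℕ} {U H : Subgroup G} (h : HypP p U) (hU : U ≤ H) :
    (fun g => (fx U g : ℤ)) ∈ RH p H :=
  AddSubgroup.subset_closure ⟨U, ⟨hU, h⟩, rfl⟩

lemma fx_mem {p : ℕ} {U : Subgroup G} (h : HypP p U) : (fun g => (fx U g : ℤ)) ∈ RR G p :=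
  rh_mem h le_top

lemma rh_le {p : ℕ} (H : Subgroup G) : RH p H ≤ RR G p := by
  refine (AddSubgroup.closure_le _).2 ?_
  rintro φ ⟨U, ⟨_, hU⟩, rfl⟩
  exact fx_mem hU

/-- the decomposition into orbits, with chosen points -/
lemma orbits {X : Type} [MulAction G X] [Finite X] (Q : X → Prop) (hQ : ∀ x, ∃ g : G, Q (g • x)) :
    ∃ (n : ℕ) (x : Fin n → X), (∀ i, Q (x i)) ∧ ∀ g : G, Nat.card {x : X // g • x = x} =
      ∑ i, fx (stabilizer G (x i)) g := by
  classical
  have : Fintype X := Fintype.ofFinite X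
  let Ω := Quotient (orbitRel G X)
  have : Fintype Ω := Fintype.ofFinite Ω
  let e := Fintype.equivFin Ω
  have hs : ∀ ω : Ω, ∃ x : X, Q x ∧ (Quotient.mk _ x : Ω) = ω := by
    intro ω
    obtain ⟨g, hg⟩ := hQ ω.out
    refine ⟨g • ω.out, hg, ?_⟩
    have h4 : (Quotient.mk _ (g • ω.out) : Ω) = Quotient.mk _ ω.out :=
      Quotient.sound (orbitRel_apply.mpr ⟨g, rfl⟩)
    rw [h4]
    exact Quotient.out_eq ω
  choose s hsQ hs using hs
  refine ⟨Fintype.card Ω, fun i => s (e.symm i), fun i => hsQ _, fun g => ?_⟩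
  have h1 : ∑ i, fx (stabilizer G (s (e.symm i))) g = ∑ ω : Ω, fx (stabilizer G (s ω)) g :=
    Equiv.sum_comp e.symm (fun ω : Ω => fx (stabilizer G (s ω)) g)
  rw [h1]
  have h2 : Nat.card {x : X // g • x = x} =
      ∑ ω : Ω, Nat.card {x : {x : X // g • x = x} // (Quotient.mk _ x.1 : Ω) = ω} := by
    have : Fintype {x : X // g • x = x} := Fintype.ofFinite _
    rw [← Nat.card_sigma]
    exact Nat.card_congr (Equiv.sigmaFiberEquiv _).symm
  rw [h2]
  refine Finset.sum_congr rfl fun ω _ => ?_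
  unfold fx
  symm
  refine Nat.card_eq_of_bijective (fun y => ⟨⟨ofQuotientStabilizer G (s ω) y.1, ?_⟩, ?_⟩) ⟨?_, ?_⟩
  · rw [← ofQuotientStabilizer_smul, y.2]
  · obtain ⟨y, hy⟩ := y
    induction y using QuotientGroup.induction_on with | _ y => ?_
    have h3 : ofQuotientStabilizer G (s ω) (y : G ⧸ stabilizer G (s ω)) = y • s ω := rfl
    simp only [h3]
    have h4 : (Quotient.mk _ (y • s ω) : Ω) = Quotient.mk _ (s ω) :=
      Quotient.sound (orbitRel_apply.mpr ⟨y, rfl⟩)
    rw [h4]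
    exact hs ω
  · intro y z hyz
    apply Subtype.ext
    apply injective_ofQuotientStabilizer G (s ω)
    exact congrArg (fun t => (t.1.1 : X)) hyz
  · rintro ⟨⟨x, hx⟩, hω⟩
    have h3 : (Quotient.mk _ x : Ω) = Quotient.mk _ (s ω) := by
      rw [hs]
      exact hω
    obtain ⟨h, hh⟩ := orbitRel_apply.mp (Quotient.exact h3)
    have hh' : h • s ω = x := hh
    have h5 : ofQuotientStabilizer G (s ω) (h : G ⧸ stabilizer G (s ω)) = x := hh'
    refine ⟨⟨(h : G ⧸ stabilizer G (s ω)), ?_⟩, ?_⟩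
    · apply injective_ofQuotientStabilizer G (s ω)
      rw [ofQuotientStabilizer_smul, h5, hx]
    · apply Subtype.ext
      apply Subtype.ext
      exact h5

lemma count_mem' {p : ℕ} {H : Subgroup G} {X : Type} [MulAction G X] [Finite X] (Q : X → Prop)
    (hQ : ∀ x, ∃ g : G, Q (g • x)) (h : ∀ x : X, Q x → stabilizer G x ≤ H ∧
      HypP p (stabilizer G x)) :
    (fun g : G => (Nat.card {x : X // g • x = x} : ℤ)) ∈ RH p H := by
  obtain ⟨n, x, hx1, hx⟩ := orbits (G := G) Q hQ
  have h1 : (fun g : G => (Nat.card {x : X // g • x = x} : ℤ)) =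
      ∑ i : Fin n, fun g => (fx (stabilizer G (x i)) g : ℤ) := by
    funext g
    rw [hx, Finset.sum_apply]
    push_cast
    rfl
  rw [h1]
  exact AddSubgroup.sum_mem _ fun i _ => rh_mem (h _ (hx1 i)).2 (h _ (hx1 i)).1

lemma count_mem {p : ℕ} {X : Type} [MulAction G X] [Finite X]
    (h : ∀ x : X, HypP p (stabilizer G x)) :
    (fun g : G => (Nat.card {x : X // g • x = x} : ℤ)) ∈ RR G p :=
  count_mem' (fun _ => True) (fun _ => ⟨1, trivial⟩) fun x _ => ⟨le_top, h x⟩

lemma stab_coset {p : ℕ} {U : Subgroup G} (hU : HypP p U) (q : G ⧸ U) :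
    HypP p (stabilizer G q) := by
  induction q using QuotientGroup.induction_on with | _ x => ?_
  let f : stabilizer G ((x : G) : G ⧸ U) →* U :=
    { toFun := fun y => ⟨x⁻¹ * y * x, by
        have h2 := y.2
        rw [mem_stabilizer_iff] at h2
        have h3 : ((↑((y : G) * x) : G ⧸ U)) = x := h2
        rw [QuotientGroup.eq] at h3
        have h4 := U.inv_mem h3
        have : (((y : G) * x)⁻¹ * x)⁻¹ = x⁻¹ * y * x := by group
        rwa [this] at h4⟩
      map_one' := by apply Subtype.ext; simp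
      map_mul' := by
        intro y z
        apply Subtype.ext
        simp only [Subgroup.coe_mul]
        group }
  refine hU.of_injective f ?_
  intro y z hyz
  apply Subtype.ext
  have h2 := congrArg Subtype.val hyz
  change x⁻¹ * (y : G) * x = x⁻¹ * (z : G) * x at h2
  exact mul_left_cancel (mul_right_cancel h2)

variable [Finite G] {p : ℕ}

lemma fx_mul_mem {U : Subgroup G} (hU : HypP p U) (H : Subgroup G) :
    (fun g => (fx U g : ℤ) * (fx H g : ℤ)) ∈ RH p H := by
  have h1 : (fun g => (fx U g : ℤ) * (fx H g : ℤ)) =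
      fun g : G => (Nat.card {x : (G ⧸ U) × (G ⧸ H) // g • x = x} : ℤ) := by
    funext g
    rw [← Nat.cast_mul]
    congr 1
    unfold fx
    rw [← Nat.card_prod]
    refine Nat.card_congr (Equiv.trans (Equiv.subtypeProdEquivProd).symm
      (Equiv.subtypeEquivRight fun x => ?_))
    rw [Prod.ext_iff]
    rfl
  rw [h1]
  refine count_mem' (fun x => x.2 = ((1 : G) : G ⧸ H)) ?_ ?_
  · rintro ⟨x, y⟩
    induction y using QuotientGroup.induction_on with | _ y => ?_
    refine ⟨y⁻¹, ?_⟩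
    show ((y⁻¹ * y : G) : G ⧸ H) = ((1 : G) : G ⧸ H)
    rw [inv_mul_cancel]
  rintro ⟨x, y⟩ hy
  have hy' : y = ((1 : G) : G ⧸ H) := hy
  subst hy'
  refine ⟨fun g hg => ?_, ?_⟩
  · rw [mem_stabilizer_iff] at hg
    have h2 : g • ((1 : G) : G ⧸ H) = ((1 : G) : G ⧸ H) := congrArg Prod.snd hg
    have h3 : ((g * 1 : G) : G ⧸ H) = ((1 : G) : G ⧸ H) := h2
    rw [QuotientGroup.eq] at h3
    simpa using h3
  have hle : stabilizer G ((x, ((1 : G) : G ⧸ H)) : (G ⧸ U) × (G ⧸ H)) ≤ stabilizer G x := by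
    intro g hg
    rw [mem_stabilizer_iff] at hg ⊢
    exact congrArg Prod.fst hg
  exact HypP.of_injective (Subgroup.inclusion hle) (Subgroup.inclusion_injective hle)
    (stab_coset hU x)

lemma mul_fx_mem {φ : G → ℤ} (hφ : φ ∈ RR G p) (H : Subgroup G) :
    (fun g => φ g * (fx H g : ℤ)) ∈ RH p H := by
  induction hφ using AddSubgroup.closure_induction with
  | mem φ h =>
    obtain ⟨U, ⟨_, hU⟩, rfl⟩ := h
    exact fx_mul_mem hU H
  | zero =>
    have : (fun g => (0 : G → ℤ) g * (fx H g : ℤ)) = 0 := by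
      funext g
      simp
    rw [this]
    exact AddSubgroup.zero_mem _
  | add φ ψ _ _ h1 h2 =>
    have : (fun g => (φ + ψ) g * (fx H g : ℤ)) =
        (fun g => φ g * (fx H g : ℤ)) + fun g => ψ g * (fx H g : ℤ) := by
      funext g
      simp [add_mul]
    rw [this]
    exact AddSubgroup.add_mem _ h1 h2
  | neg φ _ h1 =>
    have : (fun g => (-φ) g * (fx H g : ℤ)) = -(fun g => φ g * (fx H g : ℤ)) := by
      funext g
      simp
    rw [this]
    exact AddSubgroup.neg_mem _ h1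

lemma mul_mem' {φ ψ : G → ℤ} (hφ : φ ∈ RR G p) (hψ : ψ ∈ RR G p) :
    (fun g => φ g * ψ g) ∈ RR G p := by
  induction hψ using AddSubgroup.closure_induction with
  | mem ψ h =>
    obtain ⟨U, hU, rfl⟩ := h
    exact rh_le U (mul_fx_mem hφ U)
  | zero =>
    have : (fun g => φ g * (0 : G → ℤ) g) = 0 := by
      funext g
      simp
    rw [this]
    exact AddSubgroup.zero_mem _
  | add ψ ψ' _ _ h1 h2 =>
    have : (fun g => φ g * (ψ + ψ') g) = (fun g => φ g * ψ g) + fun g => φ g * ψ' g := by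
      funext g
      simp [mul_add]
    rw [this]
    exact AddSubgroup.add_mem _ h1 h2
  | neg ψ _ h1 =>
    have : (fun g => φ g * (-ψ) g) = -(fun g => φ g * ψ g) := by
      funext g
      simp
    rw [this]
    exact AddSubgroup.neg_mem _ h1

lemma zsmul_mem' {φ : G → ℤ} (hφ : φ ∈ RR G p) (m : ℤ) : (fun g => m * φ g) ∈ RR G p := by
  have h : (fun g => m * φ g) = m • φ := by
    funext g
    simp
  rw [h]
  exact AddSubgroup.zsmul_mem _ hφ m

/-- a multiple prime to `p` of the trivial character -/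
theorem const_mem (hp : p.Prime) : ∃ m : ℤ, ¬ (p : ℤ) ∣ m ∧ (fun _ : G => m) ∈ RR G p := by
  classical
  have : Fintype G := Fintype.ofFinite G
  have h1 : ∀ S : Finset G, ∃ m : ℤ, ¬ (p : ℤ) ∣ m ∧ ∃ φ ∈ RR G p, ∀ x ∈ S, φ x = m := by
    intro S
    induction S using Finset.induction_on with
    | empty =>
      refine ⟨1, ?_, 0, AddSubgroup.zero_mem _, fun x hx => absurd hx (Finset.notMem_empty x)⟩
      intro h
      have := Int.natCast_dvd_natCast.1 (show ((p : ℕ) : ℤ) ∣ ((1 : ℕ) : ℤ) by exact_mod_cast h)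
      exact hp.one_lt.ne' (Nat.dvd_one.1 this)
    | insert y S _ ih =>
      obtain ⟨m, hm, φ, hφ, h2⟩ := ih
      obtain ⟨f, hf, hfy⟩ := exists_prime_to (G := G) hp y
      obtain ⟨X, _, _, hX, hfX⟩ := hf
      have h3 : (fun g : G => (f g : ℤ)) ∈ RR G p := by
        have h4 : (fun g : G => (f g : ℤ)) = fun g : G => (Nat.card {x : X // g • x = x} : ℤ) := by
          funext g
          rw [hfX]
        rw [h4]
        exact count_mem hX
      refine ⟨(f y : ℤ) * m, ?_, fun g => m * (f g : ℤ) + (f y : ℤ) * φ g - φ g * (f g : ℤ), ?_, ?_⟩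
      · intro h
        rcases (Nat.prime_iff_prime_int.1 hp).dvd_or_dvd h with h4 | h4
        · exact hfy (Int.natCast_dvd_natCast.1 h4)
        · exact hm h4
      · exact AddSubgroup.sub_mem _ (AddSubgroup.add_mem _ (zsmul_mem' h3 m)
          (zsmul_mem' hφ (f y : ℤ))) (mul_mem' hφ h3)
      · intro x hx
        rcases Finset.mem_insert.1 hx with rfl | hx
        · ring
        · simp only []
          rw [h2 x hx]
          ring
  obtain ⟨m, hm, φ, hφ, h2⟩ := h1 Finset.univ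
  refine ⟨m, hm, ?_⟩
  have h3 : (fun _ : G => m) = φ := by
    funext x
    exact (h2 x (Finset.mem_univ x)).symm
  rw [h3]
  exact hφ

/-- a multiple prime to `p` of the permutation characters -/
theorem mfx_mem (hp : p.Prime) : ∃ m : ℤ, ¬ (p : ℤ) ∣ m ∧
    ∀ H : Subgroup G, (fun g => m * (fx H g : ℤ)) ∈ RH p H := by
  obtain ⟨m, hm, h⟩ := const_mem (G := G) hp
  exact ⟨m, hm, fun H => mul_fx_mem h H⟩

/-- the elements of the span -/
lemma exists_comb {H : Subgroup G} {φ : G → ℤ} (hφ : φ ∈ RH p H) : ∃ l : Subgroup G →₀ ℤ,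
    (∀ U ∈ l.support, U ≤ H ∧ HypP p U) ∧ ∀ g, φ g = l.sum fun U n => n * (fx U g : ℤ) := by
  classical
  induction hφ using AddSubgroup.closure_induction with
  | mem φ h =>
    obtain ⟨U, hU, rfl⟩ := h
    refine ⟨Finsupp.single U 1, fun V hV => ?_, fun g => ?_⟩
    · have h1 := Finsupp.support_single_subset hV
      rw [Finset.mem_singleton] at h1
      rw [h1]
      exact hU
    · rw [Finsupp.sum_single_index (by rw [zero_mul]), one_mul]
  | zero => exact ⟨0, fun V hV => by simp at hV, fun g => by simp⟩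
  | add φ ψ _ _ h1 h2 =>
    obtain ⟨l, h3, h4⟩ := h1
    obtain ⟨l', h5, h6⟩ := h2
    refine ⟨l + l', fun V hV => ?_, fun g => ?_⟩
    · rcases Finset.mem_union.1 (Finsupp.support_add hV) with h | h
      · exact h3 V h
      · exact h5 V h
    · rw [Finsupp.sum_add_index' (fun _ => by rw [zero_mul]) (fun _ _ _ => by rw [add_mul]),
        ← h4, ← h6]
      rfl
  | neg φ _ h1 =>
    obtain ⟨l, h3, h4⟩ := h1
    refine ⟨-l, fun V hV => ?_, fun g => ?_⟩
    · rw [Finsupp.support_neg] at hV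
      exact h3 V hV
    · rw [Finsupp.sum_neg_index (fun _ => by rw [zero_mul])]
      simp only [neg_mul]
      rw [Finsupp.sum_neg, ← h4]
      rfl

/-- a function of subgroups which is trivial on the relations between permutation characters -/
def Resp {C : Type} [CommGroup C] (v : Subgroup G → C) : Prop :=
  ∀ l : Subgroup G →₀ ℤ, (∀ g, (l.sum fun U n => n * (fx U g : ℤ)) = 0) →
    (l.prod fun U n => v U ^ n) = 1

theorem resp_p {C : Type} [CommGroup C] {v : Subgroup G → C} (hv : Resp v) (hp : p.Prime) :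
    ∃ m : ℤ, ¬ (p : ℤ) ∣ m ∧ ∀ H : Subgroup G,
      (∀ U : Subgroup G, U ≤ H → HypP p U → v U = 1) → v H ^ m = 1 := by
  classical
  obtain ⟨m, hm, h1⟩ := mfx_mem (G := G) hp
  refine ⟨m, hm, fun H h => ?_⟩
  obtain ⟨l, h2, h3⟩ := exists_comb (h1 H)
  have h4 := hv (l - Finsupp.single H m) fun g => by
    rw [Finsupp.sum_sub_index (fun _ _ _ => by rw [sub_mul]), ← h3,
      Finsupp.sum_single_index (by rw [zero_mul]), sub_self]
  have h5 : ((l - Finsupp.single H m).prod fun U n => v U ^ n) =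
      (l.prod fun U n => v U ^ n) * ((Finsupp.single H m).prod fun U n => v U ^ n)⁻¹ := by
    rw [sub_eq_add_neg, Finsupp.prod_add_index' (fun _ => zpow_zero _) (fun _ _ _ => zpow_add _ _ _)]
    congr 1
    rw [Finsupp.prod_neg_index (fun _ => zpow_zero _)]
    simp only [zpow_neg]
    exact Finsupp.prod_inv
  rw [h5, Finsupp.prod_single_index (zpow_zero _)] at h4
  have h6 : (l.prod fun U n => v U ^ n) = 1 := by
    refine Finset.prod_eq_one fun U hU => ?_
    show v U ^ (l U) = 1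
    rw [h U (h2 U hU).1 (h2 U hU).2, one_zpow]
  rw [h6, one_mul, inv_eq_one] at h4
  exact h4

theorem eq_one {C : Type} [CommGroup C] {x : C}
    (h : ∀ p : ℕ, p.Prime → ∃ m : ℤ, ¬ (p : ℤ) ∣ m ∧ x ^ m = 1) : x = 1 := by
  by_contra hx
  have h1 : orderOf x ≠ 1 := fun h => hx (orderOf_eq_one_iff.1 h)
  obtain ⟨p, hp, hpx⟩ := Nat.exists_prime_and_dvd h1
  obtain ⟨m, hm, h2⟩ := h p hp
  have h3 := orderOf_dvd_iff_zpow_eq_one.2 h2
  exact hm ((Int.natCast_dvd_natCast.2 hpx).trans h3)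

/-- **all hyperelementary subgroups** -/
theorem resp_all {C : Type} [CommGroup C] {v : Subgroup G → C} (hv : Resp v) (H : Subgroup G)
    (h : ∀ U : Subgroup G, U ≤ H → (∃ p : ℕ, p.Prime ∧ HypP p U) → v U = 1) : v H = 1 :=
  eq_one fun p hp => by
    obtain ⟨m, hm, h1⟩ := resp_p hv hp
    exact ⟨m, hm, h1 H fun U hUH hU => h U hUH ⟨p, hp, hU⟩⟩

/-- for the primes not dividing the order the groups are cyclic -/
lemma HypP.cyclic {U : Type} [Group U] [Finite U] (hp : p.Prime) (hpU : ¬ p ∣ Nat.card U)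
    (h : HypP p U) : IsCyclic U := by
  obtain ⟨c, _, _, h2⟩ := h
  refine ⟨⟨c, fun u => ?_⟩⟩
  obtain ⟨k, hk⟩ := h2 u
  have h3 : (p ^ k).Coprime (orderOf u) := by
    apply Nat.Coprime.pow_left
    rw [Nat.Prime.coprime_iff_not_dvd hp]
    intro h4
    exact hpU (h4.trans (orderOf_dvd_natCard u))
  obtain ⟨j, hj⟩ := exists_pow_eq_self_of_coprime h3
  rw [← hj]
  exact Subgroup.pow_mem _ hk j

/-- **cyclic subgroups**: the exponent is a product of primes dividing the order -/
theorem resp_cyc {C : Type} [CommGroup C] {v : Subgroup G → C} (hv : Resp v) (H : Subgroup G)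
    (h : ∀ U : Subgroup G, U ≤ H → IsCyclic U → v U = 1) :
    orderOf (v H) ≠ 0 ∧ ∀ q : ℕ, q.Prime → q ∣ orderOf (v H) → q ∣ Nat.card H := by
  have h1 : ∀ q : ℕ, q.Prime → ¬ q ∣ Nat.card H → ∃ m : ℤ, ¬ (q : ℤ) ∣ m ∧ v H ^ m = 1 := by
    intro q hq hqG
    obtain ⟨m, hm, h2⟩ := resp_p hv hq
    exact ⟨m, hm, h2 H fun U hUH hU => h U hUH (HypP.cyclic hq (fun h3 =>
      hqG (h3.trans (Subgroup.card_dvd_of_le hUH))) hU)⟩
  refine ⟨?_, fun q hq hqo => ?_⟩
  · obtain ⟨q, hq1, hq2⟩ := Nat.exists_infinite_primes (Nat.card H + 1)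
    obtain ⟨m, hm, h2⟩ := h1 q hq2 fun h3 => by
      have := Nat.le_of_dvd Nat.card_pos h3
      omega
    have h3 := orderOf_dvd_iff_zpow_eq_one.2 h2
    intro h4
    rw [h4] at h3
    have : m = 0 := by
      have h5 : ((0 : ℕ) : ℤ) ∣ m := h3
      rw [Nat.cast_zero, zero_dvd_iff] at h5
      exact h5
    exact hm (this ▸ dvd_zero _)
  · by_contra hqG
    obtain ⟨m, hm, h2⟩ := h1 q hq hqG
    exact hm ((Int.natCast_dvd_natCast.2 hqo).trans (orderOf_dvd_iff_zpow_eq_one.2 h2))

end Pool.Agent.X252.SL
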