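import Pool.Agent.X252.SLA

/-!
Central values of an elliptic curve over the fields of a Galois extension, modulo rational numbers.
-/

set_option autoImplicit false

namespace Pool.Agent.X252.SL

open Pool.Agent.H302R3

/-- `r M` is a nonzero real number for each field `M` between `K` and `L`, and for all integers
`l M` such that the sum of `l M` times the permutation character of the Galois group on the cosets of
`Gal(L/M)` vanishes, the product of the `r M ^ l M` is rational -/
structure CentralValues (K L : Type) [Field K] [Field L] [Algebra K L]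
    (r : IntermediateField K L → ℝ) : Prop where
  ne : ∀ M, r M ≠ 0
  brauer : ∀ l : IntermediateField K L →₀ ℤ,
    (∀ σ : L ≃ₐ[K] L, (l.sum fun M n => n * (fx M.fixingSubgroup σ : ℤ)) = 0) →
    ∃ q : ℚ, (l.prod fun M n => r M ^ n) = q

/-- the rational numbers as units of `ℝ` -/
noncomputable def QR : Subgroup ℝˣ := (Units.map (algebraMap ℚ ℝ).toMonoidHom).range

theorem mem_QR (x : ℝˣ) : x ∈ QR ↔ ∃ q : ℚ, (x : ℝ) = q := by
  constructor
  · rintro ⟨q, rfl⟩
    exact ⟨q, rfl⟩
  · rintro ⟨q, hq⟩
    have h0 : q ≠ 0 := by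
      rintro rfl
      exact x.ne_zero (by simpa using hq)
    refine ⟨Units.mk0 q h0, Units.ext ?_⟩
    rw [hq]
    rfl

section

variable {K L : Type} [Field K] [Field L] [Algebra K L] {r : IntermediateField K L → ℝ}

/-- the class of the value -/
noncomputable def cv (E : CentralValues K L r) (M : IntermediateField K L) : ℝˣ ⧸ QR :=
  QuotientGroup.mk (Units.mk0 (r M) (E.ne M))

lemma cv_pow (E : CentralValues K L r) (M : IntermediateField K L) (m : ℕ) :
    cv E M ^ m = 1 ↔ ∃ q : ℚ, r M ^ m = q := by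
  unfold cv
  rw [← QuotientGroup.mk_pow, QuotientGroup.eq_one_iff, mem_QR]
  simp

lemma cv_one (E : CentralValues K L r) (M : IntermediateField K L) :
    cv E M = 1 ↔ ∃ q : ℚ, r M = q := by
  have h := cv_pow E M 1
  rwa [pow_one, pow_one] at h

variable [FiniteDimensional K L] [IsGalois K L]

theorem resp_cv (E : CentralValues K L r) :
    Resp (fun H : Subgroup (L ≃ₐ[K] L) => cv E (IntermediateField.fixedField H)) := by
  classical
  intro l hl
  have hinj : Function.Injective
      (fun H : Subgroup (L ≃ₐ[K] L) => (IntermediateField.fixedField H : IntermediateField K L)) := by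
    intro H H' h
    have h1 := congrArg IntermediateField.fixingSubgroup h
    simp only [IntermediateField.fixingSubgroup_fixedField] at h1
    exact h1
  obtain ⟨q, hq⟩ := E.brauer (l.mapDomain fun H => IntermediateField.fixedField H) fun σ => by
    rw [Finsupp.sum_mapDomain_index (fun _ => by rw [zero_mul]) (fun _ _ _ => by rw [add_mul])]
    simp only [IntermediateField.fixingSubgroup_fixedField]
    exact hl σ
  have h0 : ((l.mapDomain fun H => (IntermediateField.fixedField H : IntermediateField K L)).prod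
      fun M n => r M ^ n) = l.prod fun H n => r (IntermediateField.fixedField H) ^ n :=
    Finsupp.prod_mapDomain_index_inj hinj
  rw [h0] at hq
  have h1 : (l.prod fun H n => cv E (IntermediateField.fixedField H) ^ n) =
      QuotientGroup.mk (l.prod fun H n =>
        Units.mk0 (r (IntermediateField.fixedField H)) (E.ne _) ^ n) := by
    unfold Finsupp.prod
    rw [QuotientGroup.mk_prod]
    rfl
  show (l.prod fun H n => cv E (IntermediateField.fixedField H) ^ n) = 1
  rw [h1, QuotientGroup.eq_one_iff, mem_QR]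
  refine ⟨q, ?_⟩
  rw [← hq]
  unfold Finsupp.prod
  rw [Units.coe_prod]
  refine Finset.prod_congr rfl fun H _ => ?_
  rw [Units.val_zpow_eq_zpow_val]
  rfl

lemma cv_fixed (E : CentralValues K L r) (M : IntermediateField K L) :
    cv E (IntermediateField.fixedField M.fixingSubgroup) = cv E M := by
  rw [IsGalois.fixedField_fixingSubgroup]

lemma fix_hyp (P : Subgroup (L ≃ₐ[K] L) → Prop) (E : CentralValues K L r)
    (M₀ : IntermediateField K L)
    (h : ∀ M : IntermediateField K L, M₀ ≤ M → P M.fixingSubgroup → ∃ q : ℚ, r M = q)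
    (U : Subgroup (L ≃ₐ[K] L)) (hU0 : U ≤ M₀.fixingSubgroup) (hU : P U) :
    cv E (IntermediateField.fixedField U) = 1 := by
  rw [cv_one]
  refine h _ ?_ ?_
  · rwa [IntermediateField.le_iff_le]
  · rw [IntermediateField.fixingSubgroup_fixedField]
    exact hU

theorem all_hyp (E : CentralValues K L r) (M : IntermediateField K L)
    (h : ∀ M' : IntermediateField K L, M ≤ M' → (∃ p : ℕ, p.Prime ∧ HypP p M'.fixingSubgroup) →
      ∃ q : ℚ, r M' = q) : ∃ q : ℚ, r M = q := by
  rw [← cv_one E, ← cv_fixed E M]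
  exact resp_all (resp_cv E) _ (fix_hyp (fun U => ∃ p : ℕ, p.Prime ∧ HypP p U) E M h)

theorem p_hyp (E : CentralValues K L r) {p : ℕ} (hp : p.Prime) :
    ∃ m : ℕ, ¬ p ∣ m ∧ ∀ M : IntermediateField K L,
      (∀ M' : IntermediateField K L, M ≤ M' → HypP p M'.fixingSubgroup → ∃ q : ℚ, r M' = q) →
      ∃ q : ℚ, r M ^ m = q := by
  obtain ⟨m, hm, h1⟩ := resp_p (resp_cv E) hp
  refine ⟨m.natAbs, fun h2 => hm (Int.natCast_dvd.2 h2), fun M h => ?_⟩
  have h2 := h1 _ (fix_hyp (fun U => HypP p U) E M h)
  have h2' : cv E M ^ m = 1 := by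
    have h5 := cv_fixed E M
    simp only [h5] at h2
    exact h2
  rw [← cv_pow E]
  have h3 : orderOf (cv E M) ∣ m.natAbs := by
    have h4 := orderOf_dvd_iff_zpow_eq_one.2 h2'
    exact Int.natCast_dvd.1 h4
  exact orderOf_dvd_iff_pow_eq_one.1 h3

theorem cyc_hyp (E : CentralValues K L r) (M : IntermediateField K L)
    (h : ∀ M' : IntermediateField K L, M ≤ M' → IsCyclic M'.fixingSubgroup →
      ∃ q : ℚ, r M' = q) : orderOf (cv E M) ≠ 0 ∧ ∀ q : ℕ, q.Prime →
      q ∣ orderOf (cv E M) → q ∣ Module.finrank M L := by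
  have h1 := resp_cyc (resp_cv E) M.fixingSubgroup (fix_hyp (fun U => IsCyclic U) E M h)
  rw [IsGalois.card_fixingSubgroup_eq_finrank] at h1
  have h2 := cv_fixed E M
  simp only [h2] at h1
  exact h1

theorem cyc_pow (E : CentralValues K L r) (M : IntermediateField K L)
    (h : ∀ M' : IntermediateField K L, M ≤ M' → IsCyclic M'.fixingSubgroup → ∃ q : ℚ, r M' = q) :
    ∃ m : ℕ, m ≠ 0 ∧ (∀ q : ℕ, q.Prime → q ∣ m →
      q ∣ Module.finrank M L) ∧ ∃ q : ℚ, r M ^ m = q := by
  obtain ⟨h1, h2⟩ := cyc_hyp E M h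
  exact ⟨_, h1, h2, (cv_pow E M _).1 (pow_orderOf_eq_one _)⟩

end

/-- two extensions of coprime degrees -/
theorem two_ext {K L L' : Type} [Field K] [Field L] [Field L'] [Algebra K L] [Algebra K L']
    [FiniteDimensional K L] [IsGalois K L] [FiniteDimensional K L'] [IsGalois K L']
    {r : IntermediateField K L → ℝ} {r' : IntermediateField K L' → ℝ}
    (E : CentralValues K L r) (E' : CentralValues K L' r') (hrr : r ⊥ = r' ⊥)
    (hco : (Module.finrank K L).Coprime (Module.finrank K L'))
    (h : ∀ M : IntermediateField K L, IsCyclic M.fixingSubgroup → ∃ q : ℚ, r M = q)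
    (h' : ∀ M : IntermediateField K L', IsCyclic M.fixingSubgroup → ∃ q : ℚ, r' M = q) :
    ∃ q : ℚ, r ⊥ = q := by
  have h1 := cyc_hyp E ⊥ fun M _ => h M
  have h2 := cyc_hyp E' ⊥ fun M _ => h' M
  rw [IntermediateField.finrank_bot'] at h1 h2
  have h3 : cv E ⊥ = cv E' ⊥ := by
    unfold cv
    congr 1
    exact Units.ext hrr
  rw [← cv_one E]
  by_contra hne
  have h4 : orderOf (cv E ⊥) ≠ 1 := fun h => hne (orderOf_eq_one_iff.1 h)
  obtain ⟨q, hq, hq2⟩ := Nat.exists_prime_and_dvd h4
  have h5 := h1.2 q hq hq2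
  rw [h3] at hq2
  have h6 := h2.2 q hq hq2
  have h7 := Nat.dvd_gcd h5 h6
  rw [hco] at h7
  exact hq.one_lt.ne' (Nat.dvd_one.1 h7)

end Pool.Agent.X252.SL
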