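import Pool.Agent.X252.SLA

/-!
Integer-valued functions of subgroups which respect the relations between permutation characters:
Artin's induction theorem with denominators, and divisibility.
-/

set_option autoImplicit false

namespace Pool.Agent.X252.SL

open MulAction Pool.Agent.H302R3

variable {G : Type} [Group G]

/-- the span of the permutation characters on the cosets of the subgroups with property `Q` -/
def RQ (Q : Subgroup G → Prop) : AddSubgroup (G → ℤ) :=
  AddSubgroup.closure {φ | ∃ U : Subgroup G, Q U ∧ φ = fun g => (fx U g : ℤ)}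

lemma rq_mono {Q Q' : Subgroup G → Prop} (h : ∀ U, Q U → Q' U) : RQ Q ≤ RQ Q' := by
  refine (AddSubgroup.closure_le _).2 ?_
  rintro φ ⟨U, hU, rfl⟩
  exact AddSubgroup.subset_closure ⟨U, h U hU, rfl⟩

lemma exists_combQ {Q : Subgroup G → Prop} {φ : G → ℤ} (hφ : φ ∈ RQ Q) : ∃ l : Subgroup G →₀ ℤ,
    (∀ U ∈ l.support, Q U) ∧ ∀ g, φ g = l.sum fun U n => n * (fx U g : ℤ) := by
  classical
  induction hφ using AddSubgroup.closure_induction with
  | mem φ h =>
    obtain ⟨U, hU, rfl⟩ := h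
    refine ⟨Finsupp.single U 1, fun V hV => ?_, fun g => ?_⟩
    · have h1 := Finsupp.support_single_subset hV
      rw [Finset.mem_singleton] at h1
      rw [h1]
      exact hU
    · rw [Finsupp.sum_single_index (by rw [zero_mul]), one_mul]
  | zero => exact ⟨0, fun V hV => by simp at hV, fun g => by simp⟩
  | add φ ψ _ _ h1 h2 =>
    obtain ⟨l, h3, h4⟩ := h1
    obtain ⟨l', h5, h6⟩ := h2
    refine ⟨l + l', fun V hV => ?_, fun g => ?_⟩
    · rcases Finset.mem_union.1 (Finsupp.support_add hV) with h | h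
      · exact h3 V h
      · exact h5 V h
    · rw [Finsupp.sum_add_index' (fun _ => by rw [zero_mul]) (fun _ _ _ => by rw [add_mul]),
        ← h4, ← h6]
      rfl
  | neg φ _ h1 =>
    obtain ⟨l, h3, h4⟩ := h1
    refine ⟨-l, fun V hV => ?_, fun g => ?_⟩
    · rw [Finsupp.support_neg] at hV
      exact h3 V hV
    · rw [Finsupp.sum_neg_index (fun _ => by rw [zero_mul])]
      simp only [neg_mul]
      rw [Finsupp.sum_neg, ← h4]
      rfl

/-- a function of subgroups which satisfies the relations between permutation characters -/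
def RespZ (r : Subgroup G → ℤ) : Prop :=
  ∀ l : Subgroup G →₀ ℤ, (∀ g, (l.sum fun U n => n * (fx U g : ℤ)) = 0) →
    (l.sum fun U n => n * r U) = 0

lemma respZ_comb {r : Subgroup G → ℤ} (hr : RespZ r) (H : Subgroup G) (m : ℤ)
    (l : Subgroup G →₀ ℤ) (h : ∀ g, m * (fx H g : ℤ) = l.sum fun U n => n * (fx U g : ℤ)) :
    m * r H = l.sum fun U n => n * r U := by
  classical
  have h4 := hr (l - Finsupp.single H m) fun g => by
    rw [Finsupp.sum_sub_index (fun _ _ _ => by rw [sub_mul]), ← h,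
      Finsupp.sum_single_index (by rw [zero_mul]), sub_self]
  rw [Finsupp.sum_sub_index (fun _ _ _ => by rw [sub_mul]),
    Finsupp.sum_single_index (by rw [zero_mul])] at h4
  linarith

lemma respZ_dvd {r : Subgroup G → ℤ} (hr : RespZ r) {Q : Subgroup G → Prop} (H : Subgroup G)
    (m : ℤ) (h : (fun g => m * (fx H g : ℤ)) ∈ RQ Q) (d : ℤ) (hd : ∀ U, Q U → d ∣ r U) :
    d ∣ m * r H := by
  obtain ⟨l, h1, h2⟩ := exists_combQ h
  rw [respZ_comb hr H m l h2]
  exact Finset.dvd_sum fun U hU => (hd U (h1 U hU)).mul_left _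

/-- the number of conjugators which move `g` to a generator of `C` -/
noncomputable def TT (C : Subgroup G) (g : G) : ℕ :=
  Nat.card {x : G // Subgroup.zpowers (x⁻¹ * g * x) = C}

lemma fixes_iff (H : Subgroup G) (g x : G) :
    g • (x : G ⧸ H) = x ↔ x⁻¹ * g * x ∈ H := by
  have h1 : g • (x : G ⧸ H) = ((g * x : G) : G ⧸ H) := rfl
  rw [h1, eq_comm, QuotientGroup.eq, ← mul_assoc]

lemma card_fx [Finite G] (H : Subgroup G) (g : G) :
    Nat.card H * fx H g = Nat.card {x : G // x⁻¹ * g * x ∈ H} := by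
  classical
  unfold fx
  rw [← Nat.card_prod]
  symm
  let e : G ≃ (G ⧸ H) × H := Subgroup.groupEquivQuotientProdSubgroup
  have he : ∀ x : G, (e x).1 = (x : G ⧸ H) := fun x => rfl
  refine Nat.card_congr ?_
  refine (e.subtypeEquiv (q := fun y => g • y.1 = y.1) fun x => ?_).trans ?_
  · rw [he, fixes_iff]
  · exact {
      toFun := fun y => (y.1.2, ⟨y.1.1, y.2⟩)
      invFun := fun z => ⟨(z.2.1, z.1), z.2.2⟩
      left_inv := fun y => rfl
      right_inv := fun z => rfl }

open scoped Classical in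
lemma sum_TT [Finite G] [Fintype (Subgroup G)] (H : Subgroup G) (g : G) :
    Nat.card {x : G // x⁻¹ * g * x ∈ H} =
      ∑ C ∈ (Finset.univ : Finset (Subgroup G)).filter (· ≤ H), TT C g := by
  classical
  have h1 : Nat.card {x : G // x⁻¹ * g * x ∈ H} =
      ∑ C : {C : Subgroup G // C ≤ H},
        Nat.card {y : {x : G // x⁻¹ * g * x ∈ H} //
          (⟨Subgroup.zpowers (y.1⁻¹ * g * y.1), (Subgroup.zpowers_le).2 y.2⟩ :
            {C : Subgroup G // C ≤ H}) = C} := by
    have : Fintype {x : G // x⁻¹ * g * x ∈ H} := Fintype.ofFinite _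
    rw [← Nat.card_sigma]
    exact Nat.card_congr (Equiv.sigmaFiberEquiv
      fun y : {x : G // x⁻¹ * g * x ∈ H} =>
        (⟨Subgroup.zpowers (y.1⁻¹ * g * y.1), (Subgroup.zpowers_le).2 y.2⟩ :
          {C : Subgroup G // C ≤ H})).symm
  have h2 : ∑ C ∈ (Finset.univ : Finset (Subgroup G)).filter (· ≤ H), TT C g =
      ∑ C : {C : Subgroup G // C ≤ H}, TT C.1 g :=
    Finset.sum_subtype _ (fun C => by simp) _
  rw [h1, h2]
  refine Finset.sum_congr rfl fun C _ => ?_
  unfold TT
  refine Nat.card_congr ?_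
  exact {
    toFun := fun y => ⟨y.1.1, congrArg Subtype.val y.2⟩
    invFun := fun x => ⟨⟨x.1, C.2 (x.2.le (Subgroup.mem_zpowers _))⟩, Subtype.ext x.2⟩
    left_inv := fun y => rfl
    right_inv := fun x => rfl }

lemma TT_eq_zero {C : Subgroup G} (hC : ¬ IsCyclic C) (g : G) : TT C g = 0 := by
  unfold TT
  rw [Nat.card_eq_zero]
  left
  refine ⟨fun x => hC ?_⟩
  rw [← x.2]
  infer_instance

variable [Finite G]

/-- the class functions `TT C` are combinations of permutation characters -/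
lemma TT_mem (C : Subgroup G) : (fun g => (TT C g : ℤ)) ∈ RQ fun U => U ≤ C ∧ IsCyclic U := by
  classical
  have : Fintype (Subgroup G) := Fintype.ofFinite _
  induction C using WellFoundedLT.induction with | _ C ih => ?_
  by_cases hC : IsCyclic C
  · have h1 : (fun g => (TT C g : ℤ)) = (Nat.card C : ℤ) • (fun g => (fx C g : ℤ)) -
        ∑ D ∈ (Finset.univ : Finset (Subgroup G)).filter (· < C), fun g => (TT D g : ℤ) := by
      funext g
      simp only [Pi.sub_apply, Pi.smul_apply, smul_eq_mul, Finset.sum_apply]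
      have h2 := (card_fx C g).trans (sum_TT C g)
      have h3 : (Finset.univ : Finset (Subgroup G)).filter (· ≤ C) =
          insert C ((Finset.univ : Finset (Subgroup G)).filter (· < C)) := by
        ext D
        simp only [Finset.mem_filter, Finset.mem_univ, true_and, Finset.mem_insert]
        exact le_iff_eq_or_lt
      rw [h3, Finset.sum_insert (by simp)] at h2
      have h4 : ((Nat.card C : ℤ)) * (fx C g : ℤ) = (TT C g : ℤ) +
          ∑ D ∈ (Finset.univ : Finset (Subgroup G)).filter (· < C), (TT D g : ℤ) := by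
        exact_mod_cast h2
      rw [h4]
      ring
    rw [h1]
    have h0 : (fun g => (fx C g : ℤ)) ∈ RQ fun U : Subgroup G => U ≤ C ∧ IsCyclic U :=
      AddSubgroup.subset_closure ⟨C, ⟨le_rfl, hC⟩, rfl⟩
    refine AddSubgroup.sub_mem _ (AddSubgroup.zsmul_mem _ h0 _)
      (AddSubgroup.sum_mem _ fun D hD => ?_)
    have hD' : D < C := (Finset.mem_filter.1 hD).2
    exact rq_mono (fun U hU => ⟨hU.1.trans hD'.le, hU.2⟩) (ih D hD')
  · have : (fun g => (TT C g : ℤ)) = 0 := by
      funext g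
      rw [TT_eq_zero hC]
      rfl
    rw [this]
    exact AddSubgroup.zero_mem _

/-- **Artin's theorem with denominators** -/
theorem artin_mem (H : Subgroup G) :
    (fun g => (Nat.card H : ℤ) * (fx H g : ℤ)) ∈ RQ fun U => U ≤ H ∧ IsCyclic U := by
  classical
  have : Fintype (Subgroup G) := Fintype.ofFinite _
  have h1 : (fun g => (Nat.card H : ℤ) * (fx H g : ℤ)) =
      ∑ C ∈ (Finset.univ : Finset (Subgroup G)).filter (· ≤ H), fun g => (TT C g : ℤ) := by
    funext g
    rw [Finset.sum_apply]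
    exact_mod_cast (card_fx H g).trans (sum_TT H g)
  rw [h1]
  refine AddSubgroup.sum_mem _ fun C hC => ?_
  exact rq_mono (fun U hU => ⟨hU.1.trans (Finset.mem_filter.1 hC).2, hU.2⟩) (TT_mem C)

theorem respZ_cyc {r : Subgroup G → ℤ} (hr : RespZ r) (H : Subgroup G) (d : ℤ)
    (h : ∀ U : Subgroup G, U ≤ H → IsCyclic U → d ∣ r U) : d ∣ (Nat.card H : ℤ) * r H :=
  respZ_dvd hr H _ (artin_mem H) d fun U hU => h U hU.1 hU.2

theorem respZ_p {r : Subgroup G → ℤ} (hr : RespZ r) {p : ℕ} (hp : p.Prime) :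
    ∃ m : ℤ, ¬ (p : ℤ) ∣ m ∧ ∀ (H : Subgroup G) (d : ℤ),
      (∀ U : Subgroup G, U ≤ H → HypP p U → d ∣ r U) → d ∣ m * r H := by
  obtain ⟨m, hm, h1⟩ := mfx_mem (G := G) hp
  exact ⟨m, hm, fun H d h => respZ_dvd hr (Q := fun U => U ≤ H ∧ HypP p U) H m (h1 H) d
    fun U hU => h U hU.1 hU.2⟩

/-- a divisibility can be checked with multipliers prime to each prime factor -/
lemma dvd_of_multipliers {m x : ℤ} (hm : m ≠ 0)
    (h : ∀ p : ℕ, p.Prime → (p : ℤ) ∣ m → ∃ k : ℤ, ¬ (p : ℤ) ∣ k ∧ m ∣ k * x) : m ∣ x := by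
  by_contra hx
  obtain ⟨a, ha⟩ : ((Int.gcd m x : ℕ) : ℤ) ∣ m := Int.gcd_dvd_left ..
  have hg : ((Int.gcd m x : ℕ) : ℤ) ≠ 0 := by
    intro h0
    rw [h0, zero_mul] at ha
    exact hm ha
  have key : ∀ k : ℤ, m ∣ k * x → a ∣ k := by
    intro k hk
    have h1 : m ∣ k * (Int.gcd m x : ℤ) := by
      rw [Int.gcd_eq_gcd_ab, mul_add]
      refine dvd_add ?_ ?_
      · exact ⟨k * Int.gcdA m x, by ring⟩
      · rw [← mul_assoc]
        exact hk.mul_right _
    rw [ha, mul_comm k] at h1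
    have h2 : ((Int.gcd m x : ℕ) : ℤ) * a ∣ ((Int.gcd m x : ℕ) : ℤ) * k := by
      convert h1 using 2
      rw [← ha]
    exact (mul_dvd_mul_iff_left hg).1 h2
  have h1 : a.natAbs ≠ 1 := by
    intro h2
    apply hx
    have h3 : a ∣ 1 := by
      rw [← Int.isUnit_iff_natAbs_eq] at h2
      exact h2.dvd
    have h4 : m ∣ ((Int.gcd m x : ℕ) : ℤ) := by
      have := mul_dvd_mul_left ((Int.gcd m x : ℕ) : ℤ) h3
      rwa [← ha, mul_one] at this
    exact h4.trans (Int.gcd_dvd_right ..)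
  obtain ⟨p, hp, hpa⟩ := Nat.exists_prime_and_dvd h1
  have hpa' : (p : ℤ) ∣ a := Int.natCast_dvd.2 hpa
  obtain ⟨k, hk, hkx⟩ := h p hp (hpa'.trans ⟨_, by rw [mul_comm]; exact ha⟩)
  exact hk (hpa'.trans (key k hkx))

/-- **divisibility by `m`: hyperelementary subgroups for the primes dividing `m`** -/
theorem respZ_hyp {r : Subgroup G → ℤ} (hr : RespZ r) {m : ℤ} (hm : m ≠ 0) (H : Subgroup G)
    (h : ∀ U : Subgroup G, U ≤ H → (∃ p : ℕ, p.Prime ∧ (p : ℤ) ∣ m ∧ HypP p U) → m ∣ r U) :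
    m ∣ r H :=
  dvd_of_multipliers hm fun p hp hpm => by
    obtain ⟨k, hk, h1⟩ := respZ_p hr hp
    exact ⟨k, hk, h1 H m fun U hUH hU => h U hUH ⟨p, hp, hpm, hU⟩⟩

end Pool.Agent.X252.SL
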