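import Pool.Agent.X252.SLC

/-!
Integer-valued functions on the fields between `K` and a Galois extension `L` of `K` which satisfy all
Brauer relations.
-/

set_option autoImplicit false

namespace Pool.Agent.X252.SL

open Pool.Agent.H302R3

/-- `r` satisfies all Brauer relations: whenever the sum of `l M` times the permutation character of
the Galois group on the cosets of `Gal(L/M)` vanishes, so does the sum of `l M * r M` -/
def BrauerAdditive (K L : Type) [Field K] [Field L] [Algebra K L]
    (r : IntermediateField K L → ℤ) : Prop :=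
  ∀ l : IntermediateField K L →₀ ℤ,
    (∀ σ : L ≃ₐ[K] L, (l.sum fun M n => n * (fx M.fixingSubgroup σ : ℤ)) = 0) →
    (l.sum fun M n => n * r M) = 0

lemma BrauerAdditive.sub {K L : Type} [Field K] [Field L] [Algebra K L]
    {r s : IntermediateField K L → ℤ} (hr : BrauerAdditive K L r) (hs : BrauerAdditive K L s) :
    BrauerAdditive K L fun M => r M - s M := by
  intro l hl
  have h1 := hr l hl
  have h2 := hs l hl
  have h3 : (l.sum fun M n => n * (r M - s M)) =
      (l.sum fun M n => n * r M) - l.sum fun M n => n * s M := by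
    unfold Finsupp.sum
    rw [← Finset.sum_sub_distrib]
    exact Finset.sum_congr rfl fun M _ => by ring
  rw [h3, h1, h2, sub_zero]

section

variable {K L : Type} [Field K] [Field L] [Algebra K L] {r : IntermediateField K L → ℤ}

variable [FiniteDimensional K L] [IsGalois K L]

lemma BrauerAdditive.respZ (hr : BrauerAdditive K L r) :
    RespZ (fun H : Subgroup (L ≃ₐ[K] L) => r (IntermediateField.fixedField H)) := by
  classical
  intro l hl
  have hinj : Function.Injective
      (fun H : Subgroup (L ≃ₐ[K] L) => (IntermediateField.fixedField H : IntermediateField K L)) := by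
    intro H H' h
    have h1 := congrArg IntermediateField.fixingSubgroup h
    simp only [IntermediateField.fixingSubgroup_fixedField] at h1
    exact h1
  have h1 := hr (l.mapDomain fun H => IntermediateField.fixedField H) fun σ => by
    rw [Finsupp.sum_mapDomain_index (fun _ => by rw [zero_mul]) (fun _ _ _ => by rw [add_mul])]
    simp only [IntermediateField.fixingSubgroup_fixedField]
    exact hl σ
  rw [Finsupp.sum_mapDomain_index (fun _ => by rw [zero_mul]) (fun _ _ _ => by rw [add_mul])] at h1
  exact h1

lemma fix_cond (P : Subgroup (L ≃ₐ[K] L) → Prop) (d : ℤ) (M₀ : IntermediateField K L)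
    (h : ∀ M : IntermediateField K L, M₀ ≤ M → P M.fixingSubgroup → d ∣ r M)
    (U : Subgroup (L ≃ₐ[K] L)) (hU0 : U ≤ M₀.fixingSubgroup) (hU : P U) :
    d ∣ r (IntermediateField.fixedField U) := by
  refine h _ ?_ ?_
  · rwa [IntermediateField.le_iff_le]
  · rw [IntermediateField.fixingSubgroup_fixedField]
    exact hU

/-- **cyclic groups**, with the degree as denominator -/
theorem BrauerAdditive.cyc (hr : BrauerAdditive K L r) (M : IntermediateField K L) (d : ℤ)
    (h : ∀ M' : IntermediateField K L, M ≤ M' → IsCyclic M'.fixingSubgroup → d ∣ r M') :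
    d ∣ (Module.finrank M L : ℤ) * r M := by
  have h1 := respZ_cyc hr.respZ M.fixingSubgroup d
    (fix_cond (fun U => IsCyclic U) d M h)
  rw [IsGalois.card_fixingSubgroup_eq_finrank, IsGalois.fixedField_fixingSubgroup] at h1
  exact h1

theorem BrauerAdditive.cyc_zero (hr : BrauerAdditive K L r) (M : IntermediateField K L)
    (h : ∀ M' : IntermediateField K L, M ≤ M' → IsCyclic M'.fixingSubgroup → r M' = 0) :
    r M = 0 := by
  have h1 := hr.cyc M 0 fun M' h2 h3 => by rw [h M' h2 h3]
  rw [zero_dvd_iff, mul_eq_zero] at h1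
  rcases h1 with h1 | h1
  · exact absurd h1 (by exact_mod_cast Module.finrank_pos.ne')
  · exact h1

/-- **hyperelementary groups**, divisibility by `m` -/
theorem BrauerAdditive.hyp (hr : BrauerAdditive K L r) {m : ℤ} (hm : m ≠ 0)
    (M : IntermediateField K L)
    (h : ∀ M' : IntermediateField K L, M ≤ M' →
      (∃ p : ℕ, p.Prime ∧ (p : ℤ) ∣ m ∧ HypP p M'.fixingSubgroup) → m ∣ r M') : m ∣ r M := by
  have h1 := respZ_hyp hr.respZ hm M.fixingSubgroup
    (fix_cond (fun U => ∃ p : ℕ, p.Prime ∧ (p : ℤ) ∣ m ∧ HypP p U) m M h)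
  rw [IsGalois.fixedField_fixingSubgroup] at h1
  exact h1

end

/-- two extensions of coprime degrees -/
theorem BrauerAdditive.two {K L L' : Type} [Field K] [Field L] [Field L'] [Algebra K L]
    [Algebra K L'] [FiniteDimensional K L] [IsGalois K L] [FiniteDimensional K L'] [IsGalois K L']
    {r : IntermediateField K L → ℤ} {r' : IntermediateField K L' → ℤ}
    (hr : BrauerAdditive K L r) (hr' : BrauerAdditive K L' r') (hrr : r ⊥ = r' ⊥)
    (hco : (Module.finrank K L).Coprime (Module.finrank K L')) (d : ℤ)
    (h : ∀ M : IntermediateField K L, IsCyclic M.fixingSubgroup → d ∣ r M)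
    (h' : ∀ M : IntermediateField K L', IsCyclic M.fixingSubgroup → d ∣ r' M) : d ∣ r ⊥ := by
  have h1 := hr.cyc ⊥ d fun M _ => h M
  have h2 := hr'.cyc ⊥ d fun M _ => h' M
  rw [IntermediateField.finrank_bot'] at h1 h2
  rw [← hrr] at h2
  obtain ⟨a, b, hab⟩ : IsCoprime (Module.finrank K L : ℤ) (Module.finrank K L' : ℤ) :=
    Nat.isCoprime_iff_coprime.2 hco
  have h3 : r ⊥ = a * ((Module.finrank K L : ℤ) * r ⊥) + b * ((Module.finrank K L' : ℤ) * r ⊥) := by
    linear_combination (-r ⊥) * hab
  rw [h3]
  exact dvd_add (h1.mul_left _) (h2.mul_left _)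

end Pool.Agent.X252.SL
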