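import Pool.Agent.X252.SLC

/-!
Functions with values in a commutative group on the fields between `K` and a Galois extension `L` of
`K` which satisfy all Brauer relations; the case of families of complex numbers indexed by the
embeddings of a number field `E`, modulo `E`.
-/

set_option autoImplicit false

namespace Pool.Agent.X252.SL

open Pool.Agent.H302R3

section group

variable {G : Type} [Group G] {C : Type} [CommGroup C] {v : Subgroup G → C}

lemma resp_comb (hv : Resp v) (H : Subgroup G) (m : ℤ)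
    (l : Subgroup G →₀ ℤ) (h : ∀ g, m * (fx H g : ℤ) = l.sum fun U n => n * (fx U g : ℤ)) :
    v H ^ m = l.prod fun U n => v U ^ n := by
  classical
  have h4 := hv (l - Finsupp.single H m) fun g => by
    rw [Finsupp.sum_sub_index (fun _ _ _ => by rw [sub_mul]), ← h,
      Finsupp.sum_single_index (by rw [zero_mul]), sub_self]
  have h5 : ((l - Finsupp.single H m).prod fun U n => v U ^ n) =
      (l.prod fun U n => v U ^ n) * ((Finsupp.single H m).prod fun U n => v U ^ n)⁻¹ := by
    rw [sub_eq_add_neg, Finsupp.prod_add_index' (fun _ => zpow_zero _) (fun _ _ _ => zpow_add _ _ _)]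
    congr 1
    rw [Finsupp.prod_neg_index (fun _ => zpow_zero _)]
    simp only [zpow_neg]
    exact Finsupp.prod_inv
  rw [h5, Finsupp.prod_single_index (zpow_zero _)] at h4
  exact (mul_inv_eq_one.1 h4).symm

lemma resp_Q (hv : Resp v) {Q : Subgroup G → Prop} (H : Subgroup G) (m : ℤ)
    (h : (fun g => m * (fx H g : ℤ)) ∈ RQ Q) (hQ : ∀ U, Q U → v U = 1) : v H ^ m = 1 := by
  obtain ⟨l, h1, h2⟩ := exists_combQ h
  rw [resp_comb hv H m l h2]
  refine Finset.prod_eq_one fun U hU => ?_
  show v U ^ (l U) = 1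
  rw [hQ U (h1 U hU), one_zpow]

/-- **cyclic subgroups**, with the order as exponent -/
theorem resp_cyc_pow [Finite G] (hv : Resp v) (H : Subgroup G)
    (h : ∀ U : Subgroup G, U ≤ H → IsCyclic U → v U = 1) : v H ^ Nat.card H = 1 := by
  have h1 := resp_Q hv (Q := fun U => U ≤ H ∧ IsCyclic U) H _ (artin_mem H)
    fun U hU => h U hU.1 hU.2
  rwa [zpow_natCast] at h1

end group

/-- `v` satisfies all Brauer relations -/
def BrauerMult (K L : Type) [Field K] [Field L] [Algebra K L] {C : Type} [CommGroup C]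
    (v : IntermediateField K L → C) : Prop :=
  ∀ l : IntermediateField K L →₀ ℤ,
    (∀ σ : L ≃ₐ[K] L, (l.sum fun M n => n * (fx M.fixingSubgroup σ : ℤ)) = 0) →
    (l.prod fun M n => v M ^ n) = 1

section

variable {K L : Type} [Field K] [Field L] [Algebra K L] {C : Type} [CommGroup C]
  {v : IntermediateField K L → C}

lemma BrauerMult.resp [FiniteDimensional K L] (hv : BrauerMult K L v) :
    Resp (fun H : Subgroup (L ≃ₐ[K] L) => v (IntermediateField.fixedField H)) := by
  classical
  intro l hl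
  have hinj : Function.Injective
      (fun H : Subgroup (L ≃ₐ[K] L) => (IntermediateField.fixedField H : IntermediateField K L)) := by
    intro H H' h
    have h1 := congrArg IntermediateField.fixingSubgroup h
    simp only [IntermediateField.fixingSubgroup_fixedField] at h1
    exact h1
  have h1 := hv (l.mapDomain fun H => IntermediateField.fixedField H) fun σ => by
    rw [Finsupp.sum_mapDomain_index (fun _ => by rw [zero_mul]) (fun _ _ _ => by rw [add_mul])]
    simp only [IntermediateField.fixingSubgroup_fixedField]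
    exact hl σ
  rw [Finsupp.prod_mapDomain_index_inj hinj] at h1
  exact h1

lemma fix_condM [FiniteDimensional K L] (P : Subgroup (L ≃ₐ[K] L) → Prop)
    (M₀ : IntermediateField K L)
    (h : ∀ M : IntermediateField K L, M₀ ≤ M → P M.fixingSubgroup → v M = 1)
    (U : Subgroup (L ≃ₐ[K] L)) (hU0 : U ≤ M₀.fixingSubgroup) (hU : P U) :
    v (IntermediateField.fixedField U) = 1 := by
  refine h _ ?_ ?_
  · rwa [IntermediateField.le_iff_le]
  · rw [IntermediateField.fixingSubgroup_fixedField]
    exact hU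

variable [FiniteDimensional K L] [IsGalois K L]

theorem BrauerMult.all (hv : BrauerMult K L v) (M : IntermediateField K L)
    (h : ∀ M' : IntermediateField K L, M ≤ M' → (∃ p : ℕ, p.Prime ∧ HypP p M'.fixingSubgroup) →
      v M' = 1) : v M = 1 := by
  have h1 := resp_all hv.resp M.fixingSubgroup
    (fix_condM (fun U => ∃ p : ℕ, p.Prime ∧ HypP p U) M h)
  rw [IsGalois.fixedField_fixingSubgroup] at h1
  exact h1

theorem BrauerMult.p (hv : BrauerMult K L v) {p : ℕ} (hp : p.Prime) :
    ∃ m : ℕ, ¬ p ∣ m ∧ ∀ M : IntermediateField K L,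
      (∀ M' : IntermediateField K L, M ≤ M' → HypP p M'.fixingSubgroup → v M' = 1) →
      v M ^ m = 1 := by
  obtain ⟨m, hm, h1⟩ := resp_p hv.resp hp
  refine ⟨m.natAbs, fun h2 => hm (Int.natCast_dvd.2 h2), fun M h => ?_⟩
  have h2 := h1 _ (fix_condM (fun U => HypP p U) M h)
  simp only [IsGalois.fixedField_fixingSubgroup] at h2
  have h3 : orderOf (v M) ∣ m.natAbs := Int.natCast_dvd.1 (orderOf_dvd_iff_zpow_eq_one.2 h2)
  exact orderOf_dvd_iff_pow_eq_one.1 h3

theorem BrauerMult.cyc (hv : BrauerMult K L v) (M : IntermediateField K L)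
    (h : ∀ M' : IntermediateField K L, M ≤ M' → IsCyclic M'.fixingSubgroup → v M' = 1) :
    v M ^ Module.finrank M L = 1 := by
  have h1 := resp_cyc_pow hv.resp M.fixingSubgroup (fix_condM (fun U => IsCyclic U) M h)
  rw [IsGalois.card_fixingSubgroup_eq_finrank] at h1
  simp only [IsGalois.fixedField_fixingSubgroup] at h1
  exact h1

end

/-- the diagonal image of `E` -/
noncomputable def EE (E : Type) [Field E] : Subgroup ((E →+* ℂ) → ℂˣ) :=
  (MonoidHom.pi fun τ : E →+* ℂ => Units.map τ.toMonoidHom).range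

theorem mem_EE {E : Type} [Field E] [NumberField E] (x : (E →+* ℂ) → ℂˣ) :
    x ∈ EE E ↔ ∃ e : E, ∀ τ, (x τ : ℂ) = τ e := by
  constructor
  · rintro ⟨e, rfl⟩
    exact ⟨e, fun τ => rfl⟩
  · rintro ⟨e, he⟩
    obtain ⟨τ₀⟩ : Nonempty (E →+* ℂ) := inferInstance
    have h0 : e ≠ 0 := by
      rintro rfl
      exact (x τ₀).ne_zero (by rw [he, map_zero])
    refine ⟨Units.mk0 e h0, funext fun τ => Units.ext ?_⟩
    rw [he]
    rfl

/-- the family `t M` of complex numbers indexed by the embeddings of `E` -/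
noncomputable def ev {ι E : Type} [Field E] (t : ι → (E →+* ℂ) → ℂ) (ne : ∀ M τ, t M τ ≠ 0)
    (M : ι) : ((E →+* ℂ) → ℂˣ) ⧸ EE E :=
  QuotientGroup.mk fun τ => Units.mk0 (t M τ) (ne M τ)

theorem ev_pow {ι E : Type} [Field E] [NumberField E] (t : ι → (E →+* ℂ) → ℂ)
    (ne : ∀ M τ, t M τ ≠ 0) (M : ι) (m : ℕ) :
    ev t ne M ^ m = 1 ↔ ∃ e : E, ∀ τ, t M τ ^ m = τ e := by
  unfold ev
  rw [← QuotientGroup.mk_pow, QuotientGroup.eq_one_iff, mem_EE]
  simp

theorem ev_one {ι E : Type} [Field E] [NumberField E] (t : ι → (E →+* ℂ) → ℂ)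
    (ne : ∀ M τ, t M τ ≠ 0) (M : ι) :
    ev t ne M = 1 ↔ ∃ e : E, ∀ τ, t M τ = τ e := by
  have h := ev_pow t ne M 1
  simp only [pow_one] at h
  exact h

theorem ev_prod {ι E : Type} [Field E] [NumberField E] (t : ι → (E →+* ℂ) → ℂ)
    (ne : ∀ M τ, t M τ ≠ 0) (l : ι →₀ ℤ)
    (h : ∃ e : E, ∀ τ, (l.prod fun M n => t M τ ^ n) = τ e) :
    (l.prod fun M n => ev t ne M ^ n) = 1 := by
  have h1 : (l.prod fun M n => ev t ne M ^ n) =
      QuotientGroup.mk (l.prod fun M n => (fun τ => Units.mk0 (t M τ) (ne M τ)) ^ n) := by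
    unfold Finsupp.prod
    rw [QuotientGroup.mk_prod]
    rfl
  rw [h1, QuotientGroup.eq_one_iff, mem_EE]
  obtain ⟨e, he⟩ := h
  refine ⟨e, fun τ => ?_⟩
  rw [← he τ]
  unfold Finsupp.prod
  rw [Finset.prod_apply, Units.coe_prod]
  refine Finset.prod_congr rfl fun M _ => ?_
  show ((Units.mk0 (t M τ) (ne M τ) ^ (l M) : ℂˣ) : ℂ) = t M τ ^ (l M)
  rw [Units.val_zpow_eq_zpow_val]
  rfl

end Pool.Agent.X252.SL
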