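import Pool.Agent.X252.NIC

/-!
# Direct products: irreducible traces
-/

set_option linter.unusedSectionVars false

open scoped Classical

noncomputable section

namespace Pool.Agent.X252.TP

open Pool.Agent.Y63.NV Pool.Agent.Y63.NV.B77 Pool.Agent.Y77.NV Pool.Agent.X252.NI

variable {F : Type} [Field F] [IsAlgClosed F] {p : ℕ} [Fact p.Prime] [CharP F p]

/-- an eigenbasis of the space of class functions on the `p`-regular elements -/
theorem eigbasis {H : Type} [Group H] [Finite H] {z : H → F} (hz : IsClassFun z) :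
    ∃ (I : Type) (_ : Fintype I) (b : I → H → F) (lam : I → F), LinearIndependent F b ∧
      VS (F := F) (S0 p (⊤ : Subgroup H) ⊤) ⊤ = Submodule.span F (Set.range b) ∧
      (∀ i, Top p z (S0 p (⊤ : Subgroup H) ⊤) (b i) = lam i • b i) ∧
      ∀ i, ∃ B : (H → F) → F, IsBlock B ∧ lam i = B z := by
  have h1 : S_IRR := Pool.Agent.Y914.NV.irr
  have h2 : S_PPT := Pool.Agent.Y705.NV.ppt
  have h3 : S_SPAN := span'
  have h4 : S_SCHUR := schur'
  have hEG : Ext p (⊤ : Subgroup H) ⊤ z :=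
    ⟨le_rfl, fun _ _ _ _ => trivial, fun h _ => ⟨0, trivial⟩, fun h _ x => hz h x,
      fun x hx => absurd (Subgroup.mem_top x) hx⟩
  have : Finite (Irr F (⊤ : Subgroup H)) := irr_fin h1
  have hfi : Fintype (Irr F (⊤ : Subgroup H)) := Fintype.ofFinite _
  have hsup : ∀ h ∈ (⊤ : Subgroup H), ∃ n ∈ (⊤ : Subgroup H), ∃ r ∈ (⊥ : Subgroup H),
      h = n * r := fun h hh => ⟨h, hh, 1, Subgroup.one_mem _, by rw [mul_one]⟩
  have hbot : IsPGroup p (⊥ : Subgroup H) := IsPGroup.of_bot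
  have hinv : ∀ φ : Irr F (⊤ : Subgroup H), IsInvUnder ⊤ φ.1 := by
    intro φ h hh x y hxy
    have h5 : y = ⟨h, hh⟩ * x * (⟨h, hh⟩ : (⊤ : Subgroup H))⁻¹ := Subtype.ext hxy
    rw [h5, irr_conj φ.2]
  have hli : LinearIndependent F (fun φ : Irr F (⊤ : Subgroup H) => res p ⊤ ⊤ φ.1) :=
    (claimC hEG h1 h2 h3 bot_le hbot hsup).comp (fun φ : Irr F (⊤ : Subgroup H) => ⟨φ, hinv φ⟩)
      (fun a b h => congrArg Subtype.val h)
  have hsp : VS (F := F) (S0 p (⊤ : Subgroup H) ⊤) ⊤ =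
      Submodule.span F (Set.range (fun φ : Irr F (⊤ : Subgroup H) => res p ⊤ ⊤ φ.1)) := by
    apply le_antisymm
    · intro θ hθ
      refine Submodule.span_mono ?_ (claimD hEG h1 h3 bot_le hbot hsup θ hθ)
      rintro _ ⟨φ, rfl⟩
      exact ⟨φ.1, rfl⟩
    · rw [Submodule.span_le]
      rintro _ ⟨φ, rfl⟩
      exact res_mem hEG (hinv φ)
  have hzc : IsClassFun (fun g : (⊤ : Subgroup H) => z g) := fun g x => hz g x
  have h5 : ∀ φ : Irr F (⊤ : Subgroup H), ∃ B : (H → F) → F, IsBlock B ∧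
      ∀ x : (⊤ : Subgroup H), ∑ᶠ g : (⊤ : Subgroup H), z g * φ.1 (g * x) = B z * φ.1 x := by
    intro φ
    obtain ⟨_, B, hBb, hB⟩ := h4 F (⊤ : Subgroup H) φ.1 φ.2
    exact ⟨_, Pool.Agent.Y63.NV.B286.flat_block hBb, hB _ hzc⟩
  choose Bf hBf hlam using h5
  refine ⟨Irr F (⊤ : Subgroup H), hfi, fun φ => res p ⊤ ⊤ φ.1, fun φ => Bf φ z, hli, hsp,
    fun φ => ?_, fun φ => ⟨Bf φ, hBf φ, rfl⟩⟩
  funext x
  change Tfun p z (S0 p ⊤ ⊤) (res p ⊤ ⊤ φ.1) x = Bf φ z * res p ⊤ ⊤ φ.1 x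
  by_cases hx : x ∈ S0 p (⊤ : Subgroup H) ⊤
  · rw [Tfun, if_pos hx, claimB hEG h2 φ (hinv φ) hx, hlam, res, dif_pos hx]
  · rw [Tfun, if_neg hx, res, dif_neg hx, mul_zero]

variable {H K : Type} [Group H] [Finite H] [Group K] [Finite K]

/-- the product of two functions -/
def tn (f : H → F) (g : K → F) : H × K → F := fun x => f x.1 * g x.2

theorem pp_prod (x : H × K) : pp p x = (pp p x.1, pp p x.2) := by
  have h1 : x.1 ^ pexp p (H × K) = x.1 ^ pexp p H := by
    refine pow_congr (p := p) x.1 _ _ fun e m hd hm => ?_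
    have h1 := pexp_modEq p H e m hd hm
    have h2 := pexp_modEq p (H × K) e m (hd.trans (by
      rw [Nat.card_prod]
      exact dvd_mul_right _ _)) hm
    exact ⟨h2.1.trans h1.1.symm, h2.2.trans h1.2.symm⟩
  have h2 : x.2 ^ pexp p (H × K) = x.2 ^ pexp p K := by
    refine pow_congr (p := p) x.2 _ _ fun e m hd hm => ?_
    have h1 := pexp_modEq p K e m hd hm
    have h2 := pexp_modEq p (H × K) e m (hd.trans (by
      rw [Nat.card_prod]
      exact dvd_mul_left _ _)) hm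
    exact ⟨h2.1.trans h1.1.symm, h2.2.trans h1.2.symm⟩
  refine Prod.ext ?_ ?_
  · exact h1
  · exact h2

theorem S0_prod (x : H × K) : x ∈ S0 p (⊤ : Subgroup (H × K)) ⊤ ↔
    x.1 ∈ S0 p (⊤ : Subgroup H) ⊤ ∧ x.2 ∈ S0 p (⊤ : Subgroup K) ⊤ := by
  rw [mem_S0, mem_S0, mem_S0, Prod.orderOf]
  have h1 : p ∣ (orderOf x.1).lcm (orderOf x.2) ↔ p ∣ orderOf x.1 ∨ p ∣ orderOf x.2 :=
    (Fact.out : p.Prime).dvd_lcm
  rw [h1]
  simp only [Subgroup.mem_top, true_and]
  tauto

theorem T_prod (z : H → F) (z' : K → F) (f : H → F) (g : K → F) :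
    Top p (tn z z') (S0 p (⊤ : Subgroup (H × K)) ⊤) (tn f g) =
      tn (Top p z (S0 p (⊤ : Subgroup H) ⊤) f) (Top p z' (S0 p (⊤ : Subgroup K) ⊤) g) := by
  have : Fintype H := Fintype.ofFinite H
  have : Fintype K := Fintype.ofFinite K
  funext x
  change Tfun p (tn z z') _ (tn f g) x = Tfun p z _ f x.1 * Tfun p z' _ g x.2
  unfold Tfun
  by_cases h1 : x.1 ∈ S0 p (⊤ : Subgroup H) ⊤
  · by_cases h2 : x.2 ∈ S0 p (⊤ : Subgroup K) ⊤
    · rw [if_pos ((S0_prod x).2 ⟨h1, h2⟩), if_pos h1, if_pos h2, finsum_eq_sum_of_fintype,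
        finsum_eq_sum_of_fintype, finsum_eq_sum_of_fintype, Fintype.sum_prod_type,
        Finset.sum_mul_sum]
      refine Finset.sum_congr rfl fun a _ => Finset.sum_congr rfl fun b _ => ?_
      rw [pp_prod]
      unfold tn
      change z a * z' b * (f (pp p (a * x.1)) * g (pp p (b * x.2))) = _
      ring
    · rw [if_neg (fun h => h2 ((S0_prod x).1 h).2), if_neg h2, mul_zero]
  · rw [if_neg (fun h => h1 ((S0_prod x).1 h).1), if_neg h1, zero_mul]

theorem tn_indep {I J : Type} [Fintype I] [Fintype J] {b : I → H → F} {b' : J → K → F}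
    (hb : LinearIndependent F b) (hb' : LinearIndependent F b') :
    LinearIndependent F (fun q : I × J => tn (b q.1) (b' q.2)) := by
  rw [Fintype.linearIndependent_iff]
  intro a ha q
  have h1 : ∀ y : K, ∀ i, ∑ j, a (i, j) * b' j y = 0 := by
    intro y
    refine Fintype.linearIndependent_iff.1 hb _ ?_
    funext x
    have h2 := congrFun ha (x, y)
    rw [Finset.sum_apply, Fintype.sum_prod_type] at h2
    rw [Finset.sum_apply]
    refine Eq.trans ?_ h2
    refine Finset.sum_congr rfl fun i _ => ?_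
    rw [Pi.smul_apply, smul_eq_mul, Finset.sum_mul]
    refine Finset.sum_congr rfl fun j _ => ?_
    change _ = a (i, j) * (b i x * b' j y)
    ring
  have h2 := Fintype.linearIndependent_iff.1 hb' (fun j => a (q.1, j)) (by
    funext y
    rw [Finset.sum_apply]
    exact h1 y q.1) q.2
  exact h2

theorem tn_span {I J : Type} [Fintype I] [Fintype J] {b : I → H → F} {b' : J → K → F}
    (hb : LinearIndependent F b) (hb' : LinearIndependent F b')
    (hV : VS (F := F) (S0 p (⊤ : Subgroup H) ⊤) ⊤ = Submodule.span F (Set.range b))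
    (hV' : VS (F := F) (S0 p (⊤ : Subgroup K) ⊤) ⊤ = Submodule.span F (Set.range b')) :
    VS (F := F) (S0 p (⊤ : Subgroup (H × K)) ⊤) ⊤ =
      Submodule.span F (Set.range (fun q : I × J => tn (b q.1) (b' q.2))) := by
  apply le_antisymm
  · intro θ hθ
    obtain ⟨g, hg⟩ := coords hb
    obtain ⟨g', hg'⟩ := coords hb'
    have h1 : ∀ y : K, (fun x : H => θ (x, y)) ∈ Submodule.span F (Set.range b) := by
      intro y
      rw [← hV]
      refine ⟨fun x hx => hθ.1 _ fun h => hx ((S0_prod _).1 h).1, fun j _ x => ?_⟩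
      have h2 := hθ.2 (j, 1) trivial (x, y)
      have h3 : ((j, 1) : H × K) * (x, y) * (j, 1)⁻¹ = (j * x * j⁻¹, y) :=
        Prod.ext rfl (by change (1 : K) * y * 1⁻¹ = y; group)
      rw [h3] at h2
      exact h2
    have h2 : ∀ i, (fun y : K => g (fun x : H => θ (x, y)) i) ∈
        Submodule.span F (Set.range b') := by
      intro i
      rw [← hV']
      refine ⟨fun y hy => ?_, fun j _ y => ?_⟩
      · have h3 : (fun x : H => θ (x, y)) = 0 := funext fun x =>
          hθ.1 _ fun h => hy ((S0_prod _).1 h).2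
        change g (fun x : H => θ (x, y)) i = 0
        rw [h3, map_zero]
        rfl
      · have h3 : (fun x : H => θ (x, j * y * j⁻¹)) = fun x : H => θ (x, y) := by
          funext x
          have h4 := hθ.2 (1, j) trivial (x, y)
          have h5 : ((1, j) : H × K) * (x, y) * (1, j)⁻¹ = (x, j * y * j⁻¹) :=
            Prod.ext (by change (1 : H) * x * 1⁻¹ = x; group) rfl
          rw [h5] at h4
          exact h4
        change g (fun x : H => θ (x, j * y * j⁻¹)) i = g (fun x : H => θ (x, y)) i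
        rw [h3]
    have h3 : θ = ∑ i, ∑ j, (g' (fun y : K => g (fun x : H => θ (x, y)) i) j) •
        tn (b i) (b' j) := by
      funext q
      obtain ⟨x, y⟩ := q
      have h4 := congrFun (expand hg (h1 y)) x
      have h5 : ∀ i, g (fun x : H => θ (x, y)) i =
          ∑ j, g' (fun y : K => g (fun x : H => θ (x, y)) i) j * b' j y := by
        intro i
        have h6 := congrFun (expand hg' (h2 i)) y
        rw [Finset.sum_apply] at h6
        exact h6
      rw [Finset.sum_apply] at h4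
      rw [Finset.sum_apply]
      refine h4.trans (Finset.sum_congr rfl fun i _ => ?_)
      rw [Pi.smul_apply, smul_eq_mul, h5 i, Finset.sum_apply, Finset.sum_mul]
      refine Finset.sum_congr rfl fun j _ => ?_
      rw [Pi.smul_apply, smul_eq_mul]
      change _ = _ * (b i x * b' j y)
      ring
    rw [h3]
    exact Submodule.sum_mem _ fun i _ => Submodule.sum_mem _ fun j _ =>
      Submodule.smul_mem _ _ (Submodule.subset_span ⟨(i, j), rfl⟩)
  · rw [Submodule.span_le]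
    rintro _ ⟨q, rfl⟩
    have h1 : b q.1 ∈ VS (F := F) (S0 p (⊤ : Subgroup H) ⊤) ⊤ := by
      rw [hV]
      exact Submodule.subset_span ⟨q.1, rfl⟩
    have h2 : b' q.2 ∈ VS (F := F) (S0 p (⊤ : Subgroup K) ⊤) ⊤ := by
      rw [hV']
      exact Submodule.subset_span ⟨q.2, rfl⟩
    refine ⟨fun x hx => ?_, fun j _ x => ?_⟩
    · by_cases h3 : x.1 ∈ S0 p (⊤ : Subgroup H) ⊤
      · have h4 : x.2 ∉ S0 p (⊤ : Subgroup K) ⊤ := fun h => hx ((S0_prod x).2 ⟨h3, h⟩)
        change b q.1 x.1 * b' q.2 x.2 = 0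
        rw [h2.1 _ h4, mul_zero]
      · change b q.1 x.1 * b' q.2 x.2 = 0
        rw [h1.1 _ h3, zero_mul]
    · change b q.1 (j.1 * x.1 * j.1⁻¹) * b' q.2 (j.2 * x.2 * j.2⁻¹) = b q.1 x.1 * b' q.2 x.2
      rw [h1.2 _ trivial, h2.2 _ trivial]

theorem tn_class {z : H → F} {z' : K → F} (hz : IsClassFun z) (hz' : IsClassFun z') :
    IsClassFun (tn z z') := fun g x => by
  change z (g.1 * x.1 * g.1⁻¹) * z' (g.2 * x.2 * g.2⁻¹) = z x.1 * z' x.2
  rw [hz, hz']

lemma ext_top {z : H → F} (hz : IsClassFun z) : Ext p (⊤ : Subgroup H) ⊤ z :=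
  ⟨le_rfl, fun _ _ _ _ => trivial, fun _ _ => ⟨0, trivial⟩, fun h _ x => hz h x,
    fun x hx => absurd (Subgroup.mem_top x) hx⟩

/-- **Irreducible traces of a direct product.** -/
theorem L_prod (p : ℕ) [Fact p.Prime] [CharP F p] {z : H → F} {z' : K → F} (hz : IsClassFun z) (hz' : IsClassFun z')
    (h01 : ∀ B : (H → F) → F, IsBlock B → B z = 0 ∨ B z = 1)
    (h01' : ∀ B : (K → F) → F, IsBlock B → B z' = 0 ∨ B z' = 1) :
    Lnum (⊤ : Subgroup (H × K)) ⊤ (tn z z') 1 =
      Lnum (⊤ : Subgroup H) ⊤ z 1 * Lnum (⊤ : Subgroup K) ⊤ z' 1 := by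
  obtain ⟨I, _, b, lam, hb, hV, hT, hl⟩ := eigbasis (p := p) hz
  obtain ⟨J, _, b', mu, hb', hV', hT', hm⟩ := eigbasis (p := p) hz'
  rw [brq' p F (H × K) ⊤ ⊤ (tn z z') (ext_top (tn_class hz hz')) 1,
    brq' p F H ⊤ ⊤ z (ext_top hz) 1, brq' p F K ⊤ ⊤ z' (ext_top hz') 1]
  unfold gm
  rw [count (Top p z (S0 p ⊤ ⊤)) _ b hb hV lam hT 1,
    count (Top p z' (S0 p ⊤ ⊤)) _ b' hb' hV' mu hT' 1,
    count (Top p (tn z z') (S0 p ⊤ ⊤)) _ _ (tn_indep hb hb') (tn_span hb hb' hV hV')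
      (fun q : I × J => lam q.1 * mu q.2) (fun q => by
        rw [T_prod, hT, hT']
        funext x
        change lam q.1 * b q.1 x.1 * (mu q.2 * b' q.2 x.2) =
          lam q.1 * mu q.2 * (b q.1 x.1 * b' q.2 x.2)
        ring) 1, ← Nat.card_prod]
  refine Nat.card_congr
    { toFun := fun q => (⟨q.1.1, ?_⟩, ⟨q.1.2, ?_⟩)
      invFun := fun q => ⟨(q.1.1, q.2.1), by rw [q.1.2, q.2.2, one_mul]⟩
      left_inv := fun q => rfl
      right_inv := fun q => rfl }
  · obtain ⟨B, hB, h⟩ := hl q.1.1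
    rcases h01 B hB with h1 | h1
    · have h2 := q.2
      rw [h, h1, zero_mul] at h2
      exact absurd h2.symm one_ne_zero
    · rw [h, h1]
  · obtain ⟨B, hB, h⟩ := hm q.1.2
    rcases h01' B hB with h1 | h1
    · have h2 := q.2
      rw [h, h1, mul_zero] at h2
      exact absurd h2.symm one_ne_zero
    · rw [h, h1]

end Pool.Agent.X252.TP
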