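import Pool.Agent.X252.TPA
import Pool.Agent.X27.Chr.Prod

/-!
# Direct products: characters, weights
-/

set_option linter.unusedSectionVars false

open scoped Classical

noncomputable section

namespace Pool.Agent.X252.TP

open Pool.Agent.Y63.NV Pool.Agent.Y930.NV
open Pool.Agent.Y63.AWC (IsIrreducibleCharacter pSubgroupSetoid)

section chars

variable {J₁ J₂ : Type} [Group J₁] [Finite J₁] [Group J₂] [Finite J₂]

/-- the product of two characters -/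
def tc (χ : J₁ → ℂ) (ψ : J₂ → ℂ) : J₁ × J₂ → ℂ := fun x => χ x.1 * ψ x.2

theorem irr_tc {χ : J₁ → ℂ} {ψ : J₂ → ℂ} (h : IsIrreducibleCharacter χ)
    (h' : IsIrreducibleCharacter ψ) : IsIrreducibleCharacter (tc χ ψ) := by
  have : Fintype J₁ := Fintype.ofFinite _
  have : Fintype J₂ := Fintype.ofFinite _
  exact Pool.Agent.X27.Chr.irr_bx h h'

theorem irr_surj {φ : J₁ × J₂ → ℂ} (h : IsIrreducibleCharacter φ) :
    ∃ χ ψ, IsIrreducibleCharacter χ ∧ IsIrreducibleCharacter ψ ∧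
      φ = tc (J₁ := J₁) (J₂ := J₂) χ ψ := by
  have : Fintype J₁ := Fintype.ofFinite _
  have : Fintype J₂ := Fintype.ofFinite _
  exact Pool.Agent.X27.Chr.irr_prod_surj h

theorem tc_inj {χ χ' : J₁ → ℂ} {ψ ψ' : J₂ → ℂ} (h1 : IsIrreducibleCharacter χ)
    (h1' : IsIrreducibleCharacter χ') (h2 : IsIrreducibleCharacter ψ)
    (h2' : IsIrreducibleCharacter ψ') (h : tc χ ψ = tc χ' ψ') : χ = χ' ∧ ψ = ψ' := by
  have : Fintype J₁ := Fintype.ofFinite _
  have : Fintype J₂ := Fintype.ofFinite _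
  exact Pool.Agent.X27.Chr.bx_inj h1 h1' h2 h2' h

theorem irr_cf {χ : J₁ → ℂ} (h : IsIrreducibleCharacter χ) : Cf χ := by
  obtain ⟨V, _, _, _, ρ, _, rfl⟩ := h
  intro g x
  exact ρ.char_conj x g

variable {F : Type} [Field F]

theorem cv_eq (red : integralClosure ℤ ℂ →+* F) [Fintype J₁] [Fintype (ConjClasses J₁)]
    {χ : J₁ → ℂ} (h : IsIrreducibleCharacter χ) (f : J₁ → F) :
    centralValue red χ f = ∑ C : ConjClasses J₁, f C.out * redC red (om χ (ind ℂ C)) := by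
  unfold centralValue
  rw [finsum_eq_sum_of_fintype]
  refine Finset.sum_congr rfl fun C _ => ?_
  rw [om_ind χ (irr_cf h) C]

theorem om_ind_int [Fintype J₁] {χ : J₁ → ℂ} (h : IsIrreducibleCharacter χ)
    (C : ConjClasses J₁) : IsIntegral ℤ (om χ (ind ℂ C)) := by
  have h1 := om_int h (Cf_ind ℤ C)
  have h2 : (fun g => ((ind ℤ C g : ℤ) : ℂ)) = ind ℂ C := by
    funext g
    unfold ind
    by_cases hg : ConjClasses.mk g = C
    · rw [if_pos hg, if_pos hg, Int.cast_one]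
    · rw [if_neg hg, if_neg hg, Int.cast_zero]
  rw [h2] at h1
  exact h1

/-- the conjugacy classes of a direct product -/
def cp (E : ConjClasses (J₁ × J₂)) : ConjClasses J₁ × ConjClasses J₂ :=
  (ConjClasses.map (MonoidHom.fst J₁ J₂) E, ConjClasses.map (MonoidHom.snd J₁ J₂) E)

lemma cp_mk (x : J₁ × J₂) : cp (ConjClasses.mk x) = (ConjClasses.mk x.1, ConjClasses.mk x.2) := rfl

lemma cp_bij : Function.Bijective (cp (J₁ := J₁) (J₂ := J₂)) := by
  constructor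
  · intro E E' h
    obtain ⟨x, rfl⟩ := ConjClasses.mk_surjective E
    obtain ⟨y, rfl⟩ := ConjClasses.mk_surjective E'
    rw [cp_mk, cp_mk, Prod.mk.injEq, ConjClasses.mk_eq_mk_iff_isConj,
      ConjClasses.mk_eq_mk_iff_isConj, isConj_iff, isConj_iff] at h
    obtain ⟨⟨a, ha⟩, b, hb⟩ := h
    rw [ConjClasses.mk_eq_mk_iff_isConj, isConj_iff]
    exact ⟨(a, b), Prod.ext ha hb⟩
  · rintro ⟨C, D⟩
    obtain ⟨x, rfl⟩ := ConjClasses.mk_surjective C
    obtain ⟨y, rfl⟩ := ConjClasses.mk_surjective D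
    exact ⟨ConjClasses.mk (x, y), rfl⟩

theorem ind_prod [Fintype J₁] [Fintype J₂] (x : J₁ × J₂) (a : J₁) (b : J₂) : ind ℂ (ConjClasses.mk x) (a, b) =
    ind ℂ (ConjClasses.mk x.1) a * ind ℂ (ConjClasses.mk x.2) b := by
  unfold ind
  have h4 : ConjClasses.mk (a, b) = ConjClasses.mk x ↔
      ConjClasses.mk a = ConjClasses.mk x.1 ∧ ConjClasses.mk b = ConjClasses.mk x.2 := by
    constructor
    · intro h5
      have h6 := congrArg cp h5
      rw [cp_mk, cp_mk, Prod.mk.injEq] at h6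
      exact h6
    · intro h5
      apply cp_bij.1
      rw [cp_mk, cp_mk, Prod.mk.injEq]
      exact h5
  by_cases h5 : ConjClasses.mk a = ConjClasses.mk x.1
  · by_cases h6 : ConjClasses.mk b = ConjClasses.mk x.2
    · rw [if_pos (h4.2 ⟨h5, h6⟩), if_pos h5, if_pos h6, one_mul]
    · rw [if_neg (fun h7 => h6 (h4.1 h7).2), if_neg h6, mul_zero]
  · rw [if_neg (fun h7 => h5 (h4.1 h7).1), if_neg h5, zero_mul]

theorem om_tc [Fintype J₁] [Fintype J₂] (χ : J₁ → ℂ) (ψ : J₂ → ℂ) (x : J₁ × J₂) :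
    om (tc χ ψ) (ind ℂ (ConjClasses.mk x)) =
      om χ (ind ℂ (ConjClasses.mk x.1)) * om ψ (ind ℂ (ConjClasses.mk x.2)) := by
  have e1 : om (tc χ ψ) (ind ℂ (ConjClasses.mk x)) =
      (∑ y : J₁ × J₂, ind ℂ (ConjClasses.mk x) y * tc χ ψ y) / (χ 1 * ψ 1) := rfl
  have e2 : ∑ y : J₁ × J₂, ind ℂ (ConjClasses.mk x) y * tc χ ψ y =
      ∑ a : J₁, ∑ b : J₂, ind ℂ (ConjClasses.mk x) (a, b) * (χ a * ψ b) :=
    Fintype.sum_prod_type _
  rw [e1, e2]
  unfold om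
  rw [div_mul_div_comm, Finset.sum_mul_sum]
  refine congrArg (fun t => t / (χ 1 * ψ 1)) ?_
  refine Finset.sum_congr rfl fun a _ => Finset.sum_congr rfl fun b _ => ?_
  rw [ind_prod]
  ring

theorem cv_tc (red : integralClosure ℤ ℂ →+* F) {χ : J₁ → ℂ} {ψ : J₂ → ℂ}
    (h : IsIrreducibleCharacter χ) (h' : IsIrreducibleCharacter ψ) {f : J₁ → F} {g : J₂ → F}
    (hf : IsClassFun f) (hg : IsClassFun g) :
    centralValue red (tc χ ψ) (tn f g) = centralValue red χ f * centralValue red ψ g := by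
  have : Fintype J₁ := Fintype.ofFinite _
  have : Fintype J₂ := Fintype.ofFinite _
  have : Fintype (ConjClasses J₁) := Fintype.ofFinite _
  have : Fintype (ConjClasses J₂) := Fintype.ofFinite _
  have : Fintype (ConjClasses (J₁ × J₂)) := Fintype.ofFinite _
  rw [cv_eq red (irr_tc h h'), cv_eq red h, cv_eq red h', Finset.sum_mul_sum,
    ← Fintype.sum_prod_type' (fun (C : ConjClasses J₁) (D : ConjClasses J₂) =>
      f C.out * redC red (om χ (ind ℂ C)) * (g D.out * redC red (om ψ (ind ℂ D))))]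
  refine Fintype.sum_equiv (Equiv.ofBijective cp cp_bij) _ _ fun E => ?_
  obtain ⟨x, rfl⟩ := ConjClasses.mk_surjective E
  rw [Equiv.ofBijective_apply, cp_mk]
  have h1 : tn f g (ConjClasses.mk x).out = f (ConjClasses.mk x.1).out * g (ConjClasses.mk x.2).out := by
    have hcf : Cf (tn f g) := by
      intro y z
      change f (y.1 * z.1 * y.1⁻¹) * g (y.2 * z.2 * y.2⁻¹) = f z.1 * g z.2
      rw [hf, hg]
    have h2 : tn f g (ConjClasses.mk x).out = tn f g x := Cf_out hcf rfl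
    rw [h2, Cf_out hf (x := x.1) rfl, Cf_out hg (x := x.2) rfl]
    rfl
  rw [h1, om_tc χ ψ x, redC_mul red (om_ind_int h _) (om_ind_int h' _)]
  ring

end chars

section wts

variable {p : ℕ} [Fact p.Prime] {J₁ J₂ : Type} [Group J₁] [Finite J₁] [Group J₂] [Finite J₂]

lemma card_prod_sub (Q₁ : Subgroup J₁) (Q₂ : Subgroup J₂) :
    Nat.card (Q₁.prod Q₂) = Nat.card Q₁ * Nat.card Q₂ := by
  rw [← Nat.card_prod]
  exact Nat.card_congr (Subgroup.prodEquiv Q₁ Q₂).toEquiv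

theorem deg_of {χ : J₁ → ℂ} (h : IsIrreducibleCharacter χ) :
    ∃ n : ℕ, 0 < n ∧ χ 1 = (n : ℂ) := by
  have : Fintype J₁ := Fintype.ofFinite _
  exact Pool.Agent.X27.Chr.deg_pos h

theorem deg_le {Q : Subgroup J₁} [Q.Normal] {χ : J₁ → ℂ} (h : IsIrreducibleCharacter χ)
    (hinf : ∀ q ∈ Q, ∀ x : J₁, χ (q * x) = χ x) {n : ℕ} (hn : χ 1 = (n : ℂ)) (hn0 : 0 < n) :
    n.factorization p + (Nat.card Q).factorization p ≤ (Nat.card J₁).factorization p := by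
  obtain ⟨χ', h1, h2⟩ := deflate Q h hinf
  have : Fintype (J₁ ⧸ Q) := Fintype.ofFinite _
  have h3 : n ∣ Nat.card (J₁ ⧸ Q) := Pool.Agent.Y63.AWC.deg_dvd h1 (by rw [← hn, h2 1]; rfl)
  have hcard := Subgroup.card_eq_card_quotient_mul_card_subgroup Q
  have h0 : 0 < Nat.card (J₁ ⧸ Q) := Nat.card_pos
  have h0' : 0 < Nat.card Q := Nat.card_pos
  rw [hcard, Nat.factorization_mul h0.ne' h0'.ne', Finsupp.add_apply]
  have h4 := (Nat.factorization_le_iff_dvd hn0.ne' h0.ne').2 h3 p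
  omega

theorem wt_tc {Q₁ : Subgroup J₁} {Q₂ : Subgroup J₂} {χ : J₁ → ℂ} {ψ : J₂ → ℂ}
    (h1 : IsWt p Q₁ χ) (h2 : IsWt p Q₂ ψ) : IsWt p (Q₁.prod Q₂) (tc χ ψ) := by
  refine ⟨irr_tc h1.irr h2.irr, ?_, ?_⟩
  · rintro q hq x
    obtain ⟨hq1, hq2⟩ := Subgroup.mem_prod.1 hq
    change χ (q.1 * x.1) * ψ (q.2 * x.2) = χ x.1 * ψ x.2
    rw [h1.inflated _ hq1, h2.inflated _ hq2]
  · obtain ⟨n, hn, hn'⟩ := h1.defectZero
    obtain ⟨m, hm, hm'⟩ := h2.defectZero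
    have hn0 : n ≠ 0 := by
      rintro rfl
      exact irr_one_ne' h1.irr (by rw [hn, Nat.cast_zero])
    have hm0 : m ≠ 0 := by
      rintro rfl
      exact irr_one_ne' h2.irr (by rw [hm, Nat.cast_zero])
    refine ⟨n * m, ?_, ?_⟩
    · change χ 1 * ψ 1 = _
      rw [hn, hm, Nat.cast_mul]
    · have c1 : Nat.card J₁ ≠ 0 := Nat.card_pos.ne'
      have c2 : Nat.card J₂ ≠ 0 := Nat.card_pos.ne'
      have c3 : Nat.card Q₁ ≠ 0 := Nat.card_pos.ne'
      have c4 : Nat.card Q₂ ≠ 0 := Nat.card_pos.ne'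
      rw [card_prod_sub, Nat.card_prod, Nat.factorization_mul hn0 hm0, Nat.factorization_mul c3 c4,
        Nat.factorization_mul c1 c2]
      simp only [Finsupp.add_apply]
      omega
where
  irr_one_ne' {J : Type} [Group J] {χ : J → ℂ} (h : IsIrreducibleCharacter χ) : χ 1 ≠ 0 := by
    obtain ⟨V, _, _, _, ρ, hr, rfl⟩ := h
    have hnt := Pool.Agent.Y63.AWC.irr_nontrivial ρ hr
    rw [ρ.char_one]
    exact_mod_cast (Module.finrank_pos (R := ℂ) (M := V)).ne'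

theorem wt_of {Q₁ : Subgroup J₁} {Q₂ : Subgroup J₂} [Q₁.Normal] [Q₂.Normal] {χ : J₁ → ℂ}
    {ψ : J₂ → ℂ} (hχ : IsIrreducibleCharacter χ) (hψ : IsIrreducibleCharacter ψ)
    (h : IsWt p (Q₁.prod Q₂) (tc χ ψ)) : IsWt p Q₁ χ ∧ IsWt p Q₂ ψ := by
  obtain ⟨n, hn0, hn⟩ := deg_of hχ
  obtain ⟨m, hm0, hm⟩ := deg_of hψ
  have hnc : (n : ℂ) ≠ 0 := by exact_mod_cast hn0.ne'
  have hmc : (m : ℂ) ≠ 0 := by exact_mod_cast hm0.ne'
  have h1 : ∀ q ∈ Q₁, ∀ x : J₁, χ (q * x) = χ x := by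
    intro q hq x
    have h3 := h.inflated (q, 1) (Subgroup.mem_prod.2 ⟨hq, Q₂.one_mem⟩) (x, 1)
    change χ (q * x) * ψ (1 * 1) = χ x * ψ 1 at h3
    rw [mul_one, hm] at h3
    exact mul_right_cancel₀ hmc h3
  have h2 : ∀ q ∈ Q₂, ∀ x : J₂, ψ (q * x) = ψ x := by
    intro q hq x
    have h3 := h.inflated (1, q) (Subgroup.mem_prod.2 ⟨Q₁.one_mem, hq⟩) (1, x)
    change χ (1 * 1) * ψ (q * x) = χ 1 * ψ x at h3
    rw [mul_one, hn] at h3
    exact mul_left_cancel₀ hnc h3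
  have h3 := deg_le (p := p) hχ h1 hn hn0
  have h4 := deg_le (p := p) hψ h2 hm hm0
  obtain ⟨k, hk, hk'⟩ := h.defectZero
  have h5 : k = n * m := by
    change χ 1 * ψ 1 = _ at hk
    rw [hn, hm] at hk
    exact_mod_cast hk.symm
  have c1 : Nat.card J₁ ≠ 0 := Nat.card_pos.ne'
  have c2 : Nat.card J₂ ≠ 0 := Nat.card_pos.ne'
  have c3 : Nat.card Q₁ ≠ 0 := Nat.card_pos.ne'
  have c4 : Nat.card Q₂ ≠ 0 := Nat.card_pos.ne'
  rw [h5, card_prod_sub, Nat.card_prod, Nat.factorization_mul hn0.ne' hm0.ne',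
    Nat.factorization_mul c3 c4, Nat.factorization_mul c1 c2] at hk'
  simp only [Finsupp.add_apply] at hk'
  exact ⟨⟨hχ, h1, n, hn, by omega⟩, ⟨hψ, h2, m, hm, by omega⟩⟩

variable {F : Type} [Field F]

/-- **Weights of a direct product, for a normal subgroup `Q₁ × Q₂`.** -/
theorem nw_prod (red : integralClosure ℤ ℂ →+* F) {Q₁ : Subgroup J₁} {Q₂ : Subgroup J₂}
    [Q₁.Normal] [Q₂.Normal] {f : J₁ → F} {g : J₂ → F} (hf : IsClassFun f) (hg : IsClassFun g)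
    (h01 : ∀ χ, IsWt p Q₁ χ → centralValue red χ f = 0 ∨ centralValue red χ f = 1)
    (h01' : ∀ χ, IsWt p Q₂ χ → centralValue red χ g = 0 ∨ centralValue red χ g = 1) :
    Nw p red (Q₁.prod Q₂) (tn f g) 1 = Nw p red Q₁ f 1 * Nw p red Q₂ g 1 := by
  unfold Nw
  rw [← Nat.card_prod]
  symm
  refine Nat.card_congr (Equiv.ofBijective (fun q => ⟨tc q.1.1 q.2.1, wt_tc q.1.2.1 q.2.2.1, ?_⟩)
    ⟨?_, ?_⟩)
  · rw [cv_tc red q.1.2.1.irr q.2.2.1.irr hf hg, q.1.2.2, q.2.2.2, one_mul]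
  · rintro ⟨⟨χ, h1, h2⟩, ⟨ψ, h3, h4⟩⟩ ⟨⟨χ', h1', h2'⟩, ⟨ψ', h3', h4'⟩⟩ h
    obtain ⟨rfl, rfl⟩ := tc_inj h1.irr h1'.irr h3.irr h3'.irr (congrArg Subtype.val h)
    rfl
  · rintro ⟨φ, h1, h2⟩
    obtain ⟨χ, ψ, hχ, hψ, rfl⟩ := irr_surj h1.irr
    obtain ⟨h3, h4⟩ := wt_of hχ hψ h1
    rw [cv_tc red hχ hψ hf hg] at h2
    have h5 : centralValue red χ f = 1 := by
      rcases h01 χ h3 with h | h
      · rw [h, zero_mul] at h2
        exact absurd h2.symm one_ne_zero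
      · exact h
    have h6 : centralValue red ψ g = 1 := by
      rw [h5, one_mul] at h2
      exact h2
    exact ⟨⟨⟨χ, h3, h5⟩, ⟨ψ, h4, h6⟩⟩, rfl⟩

end wts

end Pool.Agent.X252.TP
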