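import Pool.Agent.X252.TPB
import Pool.Agent.X252.NVL

/-!
# Direct products: the number of weights
-/

set_option linter.unusedSectionVars false

open scoped Classical

noncomputable section

namespace Pool.Agent.X252.TP

open Pool.Agent.Y63.NV Pool.Agent.Y930.NV Pool.Agent.Y487.NV Pool.Agent.X252.NVM
open Pool.Agent.Y63.AWC (IsIrreducibleCharacter pSubgroupSetoid)

section grp

variable {H K : Type} [Group H] [Group K]

theorem norm_prod (Q₁ : Subgroup H) (Q₂ : Subgroup K) (x : H × K) :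
    x ∈ Subgroup.normalizer ((Q₁.prod Q₂ : Subgroup (H × K)) : Set (H × K)) ↔
      x.1 ∈ Subgroup.normalizer (Q₁ : Set H) ∧ x.2 ∈ Subgroup.normalizer (Q₂ : Set K) := by
  rw [Subgroup.mem_normalizer_iff, Subgroup.mem_normalizer_iff, Subgroup.mem_normalizer_iff]
  constructor
  · intro h
    constructor
    · intro a
      have h1 := h (a, 1)
      rw [Subgroup.mem_prod, Subgroup.mem_prod] at h1
      change a ∈ Q₁ ∧ (1 : K) ∈ Q₂ ↔ x.1 * a * x.1⁻¹ ∈ Q₁ ∧ x.2 * 1 * x.2⁻¹ ∈ Q₂ at h1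
      rw [mul_one, mul_inv_cancel] at h1
      exact ⟨fun h2 => (h1.1 ⟨h2, Q₂.one_mem⟩).1, fun h2 => (h1.2 ⟨h2, Q₂.one_mem⟩).1⟩
    · intro a
      have h1 := h (1, a)
      rw [Subgroup.mem_prod, Subgroup.mem_prod] at h1
      change (1 : H) ∈ Q₁ ∧ a ∈ Q₂ ↔ x.1 * 1 * x.1⁻¹ ∈ Q₁ ∧ x.2 * a * x.2⁻¹ ∈ Q₂ at h1
      rw [mul_one, mul_inv_cancel] at h1
      exact ⟨fun h2 => (h1.1 ⟨Q₁.one_mem, h2⟩).2, fun h2 => (h1.2 ⟨Q₁.one_mem, h2⟩).2⟩
  · rintro ⟨h1, h2⟩ y
    rw [Subgroup.mem_prod, Subgroup.mem_prod]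
    change y.1 ∈ Q₁ ∧ y.2 ∈ Q₂ ↔ x.1 * y.1 * x.1⁻¹ ∈ Q₁ ∧ x.2 * y.2 * x.2⁻¹ ∈ Q₂
    rw [h1 y.1, h2 y.2]

/-- the normaliser of a product -/
def ne (Q₁ : Subgroup H) (Q₂ : Subgroup K) :
    Subgroup.normalizer ((Q₁.prod Q₂ : Subgroup (H × K)) : Set (H × K)) ≃*
      Subgroup.normalizer (Q₁ : Set H) × Subgroup.normalizer (Q₂ : Set K) where
  toFun x := (⟨x.1.1, ((norm_prod Q₁ Q₂ x.1).1 x.2).1⟩, ⟨x.1.2, ((norm_prod Q₁ Q₂ x.1).1 x.2).2⟩)
  invFun y := ⟨(y.1.1, y.2.1), (norm_prod Q₁ Q₂ _).2 ⟨y.1.2, y.2.2⟩⟩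
  left_inv _ := rfl
  right_inv _ := rfl
  map_mul' _ _ := rfl

end grp

variable {F : Type} [Field F] [IsAlgClosed F] {p : ℕ} [Fact p.Prime] [CharP F p]
  {H K : Type} [Group H] [Finite H] [Group K] [Finite K]

theorem wl_prod (red : integralClosure ℤ ℂ →+* F) {z : H → F} {z' : K → F} (hz : IsClassFun z)
    (hz' : IsClassFun z') (h01 : ∀ B : (H → F) → F, IsBlock B → B z = 0 ∨ B z = 1)
    (h01' : ∀ B : (K → F) → F, IsBlock B → B z' = 0 ∨ B z' = 1) {Q₁ : Subgroup H}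
    {Q₂ : Subgroup K} (h1 : IsPGroup p Q₁) (h2 : IsPGroup p Q₂) :
    wl p red (tn z z') 1 (Q₁.prod Q₂) = wl p red z 1 Q₁ * wl p red z' 1 Q₂ := by
  unfold wl
  have e1 : Nat.card (Subgroup.normalizer ((Q₁.prod Q₂ : Subgroup (H × K)) : Set (H × K))) =
      Nat.card (Subgroup.normalizer (Q₁ : Set H)) * Nat.card (Subgroup.normalizer (Q₂ : Set K)) := by
    rw [← Nat.card_prod]
    exact Nat.card_congr (ne Q₁ Q₂).toEquiv
  have hc : IsClassFun (fun x : Subgroup.normalizer (Q₁ : Set H) => z x) := fun g x => hz g x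
  have hc' : IsClassFun (fun x : Subgroup.normalizer (Q₂ : Set K) => z' x) := fun g x => hz' g x
  have e2 := Pool.Agent.Y624.NV.nw_congr p red (ne Q₁ Q₂)
    (Q := (Q₁.prod Q₂).subgroupOf (Subgroup.normalizer ((Q₁.prod Q₂ : Subgroup (H × K)) :
      Set (H × K))))
    (Q' := (Q₁.subgroupOf (Subgroup.normalizer (Q₁ : Set H))).prod
      (Q₂.subgroupOf (Subgroup.normalizer (Q₂ : Set K))))
    (fun x => by
      rw [Subgroup.mem_prod, Subgroup.mem_subgroupOf, Subgroup.mem_subgroupOf,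
        Subgroup.mem_subgroupOf, Subgroup.mem_prod]
      rfl) (f := fun x => tn z z' x)
    (f' := tn (fun x : Subgroup.normalizer (Q₁ : Set H) => z x)
      (fun x : Subgroup.normalizer (Q₂ : Set K) => z' x)) (fun x => rfl)
    (tn_class hc hc') (1 : F)
  rw [e1, e2, nw_prod red hc hc' (fun χ hχ => h01 _ (wblk' p F red H Q₁ χ h1 hχ))
    (fun χ hχ => h01' _ (wblk' p F red K Q₂ χ h2 hχ))]
  ring

/-- **A radical subgroup of a direct product is a direct product.** -/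
theorem wl_zero (red : integralClosure ℤ ℂ →+* F) (z : H × K → F) (c : F)
    {Q : Subgroup (H × K)} (hQ : IsPGroup p Q)
    (hne : ∀ (Q₁ : Subgroup H) (Q₂ : Subgroup K), IsPGroup p Q₁ → IsPGroup p Q₂ →
      Q₁.prod Q₂ ≠ Q) :
    wl p red z c Q = 0 := by
  set Q₁ := Q.map (MonoidHom.fst H K) with hQ₁
  set Q₂ := Q.map (MonoidHom.snd H K) with hQ₂
  have hp1 : IsPGroup p Q₁ := hQ.map _
  have hp2 : IsPGroup p Q₂ := hQ.map _
  set R := Q₁.prod Q₂ with hR
  have hpR : IsPGroup p R := by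
    obtain ⟨a, ha⟩ := hp1.exists_card_eq
    obtain ⟨b, hb⟩ := hp2.exists_card_eq
    refine IsPGroup.of_card (n := a + b) ?_
    rw [hR, card_prod_sub, ha, hb, pow_add]
  have hQR : Q ≤ R := by
    intro x hx
    exact Subgroup.mem_prod.2 ⟨⟨x, hx, rfl⟩, ⟨x, hx, rfl⟩⟩
  have hlt : Q < R := lt_of_le_of_ne hQR fun h => hne Q₁ Q₂ hp1 hp2 h.symm
  -- the normaliser of `Q` normalises `R`
  have hNR : Subgroup.normalizer (Q : Set (H × K)) ≤ Subgroup.normalizer (R : Set (H × K)) := by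
    intro x hx
    rw [norm_prod]
    rw [Subgroup.mem_normalizer_iff] at hx
    have hx' : ∀ y, y ∈ Q → x⁻¹ * y * x ∈ Q := by
      intro y hy
      rw [hx]
      have : x * (x⁻¹ * y * x) * x⁻¹ = y := by group
      rwa [this]
    constructor
    · rw [Subgroup.mem_normalizer_iff]
      intro a
      constructor
      · rintro ⟨y, hy, rfl⟩
        exact ⟨x * y * x⁻¹, (hx y).1 hy, rfl⟩
      · rintro ⟨y, hy, hya⟩
        refine ⟨x⁻¹ * y * x, hx' y hy, ?_⟩
        change x.1⁻¹ * y.1 * x.1 = a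
        change y.1 = x.1 * a * x.1⁻¹ at hya
        rw [hya]
        group
    · rw [Subgroup.mem_normalizer_iff]
      intro a
      constructor
      · rintro ⟨y, hy, rfl⟩
        exact ⟨x * y * x⁻¹, (hx y).1 hy, rfl⟩
      · rintro ⟨y, hy, hya⟩
        refine ⟨x⁻¹ * y * x, hx' y hy, ?_⟩
        change x.2⁻¹ * y.2 * x.2 = a
        change y.2 = x.2 * a * x.2⁻¹ at hya
        rw [hya]
        group
  -- normalisers grow
  obtain ⟨x, hxR, hxN, hxQ⟩ : ∃ x : H × K, x ∈ R ∧ x ∈ Subgroup.normalizer (Q : Set (H × K)) ∧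
      x ∉ Q := by
    have hnil : Group.IsNilpotent R := hpR.isNilpotent
    have h1 : Q.subgroupOf R < ⊤ := by
      refine lt_top_iff_ne_top.2 fun h => ?_
      exact hlt.not_ge (Subgroup.subgroupOf_eq_top.1 h)
    have h2 := Group.normalizerCondition_of_isNilpotent (G := R) (Q.subgroupOf R) h1
    obtain ⟨x, hx, hx'⟩ := SetLike.exists_of_lt h2
    exact ⟨x, x.2, Pool.Agent.Y624.NV.norm_bwd hQR hx, fun h => hx' h⟩
  have hnorm : ((R ⊓ Subgroup.normalizer (Q : Set (H × K))).subgroupOf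
      (Subgroup.normalizer (Q : Set (H × K)))).Normal := by
    constructor
    intro y hy g
    rw [Subgroup.mem_subgroupOf] at hy ⊢
    refine ⟨?_, SetLike.coe_mem _⟩
    have h1 := Subgroup.mem_normalizer_iff.1 (hNR g.2) y.1
    exact h1.1 hy.1
  have hpN : IsPGroup p ((R ⊓ Subgroup.normalizer (Q : Set (H × K))).subgroupOf
      (Subgroup.normalizer (Q : Set (H × K)))) := by
    have h1 : IsPGroup p ↥(R ⊓ Subgroup.normalizer (Q : Set (H × K))) := hpR.to_le inf_le_left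
    exact h1.comap_subtype
  have hQn : (Q.subgroupOf (Subgroup.normalizer (Q : Set (H × K)))).Normal :=
    Subgroup.normal_in_normalizer
  have hlt2 : Q.subgroupOf (Subgroup.normalizer (Q : Set (H × K))) <
      (R ⊓ Subgroup.normalizer (Q : Set (H × K))).subgroupOf
      (Subgroup.normalizer (Q : Set (H × K))) := by
    refine lt_of_le_of_ne ?_ fun h => ?_
    · intro y hy
      rw [Subgroup.mem_subgroupOf] at hy ⊢
      exact ⟨hQR hy, y.2⟩
    · apply hxQ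
      have h1 : (⟨x, hxN⟩ : Subgroup.normalizer (Q : Set (H × K))) ∈
          (R ⊓ Subgroup.normalizer (Q : Set (H × K))).subgroupOf
          (Subgroup.normalizer (Q : Set (H × K))) := by
        rw [Subgroup.mem_subgroupOf]
        exact ⟨hxR, hxN⟩
      rw [← h] at h1
      exact h1
  unfold wl Nw
  have h0 : ∀ χ : Subgroup.normalizer (Q : Set (H × K)) → ℂ,
      ¬ IsWt p (Q.subgroupOf (Subgroup.normalizer (Q : Set (H × K)))) χ := fun χ =>
    wtn p _ _ _ χ hQn hnorm hpN hlt2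
  have : IsEmpty {χ : Subgroup.normalizer (Q : Set (H × K)) → ℂ //
      IsWt p (Q.subgroupOf (Subgroup.normalizer (Q : Set (H × K)))) χ ∧
      centralValue red χ (fun x => z x) = c} := ⟨fun χ => h0 χ.1 χ.2.1⟩
  exact mul_eq_zero_of_right _ Nat.card_of_isEmpty

/-- the sum over all `p`-subgroups -/
def ws (p : ℕ) (red : integralClosure ℤ ℂ →+* F) (z : H → F) (c : F) : ℕ :=
  ∑ᶠ Q : {Q : Subgroup H // IsPGroup p Q}, wl p red z c Q.1

theorem ws_prod (red : integralClosure ℤ ℂ →+* F) {z : H → F} {z' : K → F} (hz : IsClassFun z)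
    (hz' : IsClassFun z') (h01 : ∀ B : (H → F) → F, IsBlock B → B z = 0 ∨ B z = 1)
    (h01' : ∀ B : (K → F) → F, IsBlock B → B z' = 0 ∨ B z' = 1) :
    ws p red (tn z z') 1 = ws p red z 1 * ws p red z' 1 := by
  unfold ws
  have : Fintype {Q : Subgroup H // IsPGroup p Q} := Fintype.ofFinite _
  have : Fintype {Q : Subgroup K // IsPGroup p Q} := Fintype.ofFinite _
  have : Fintype {Q : Subgroup (H × K) // IsPGroup p Q} := Fintype.ofFinite _
  rw [finsum_eq_sum_of_fintype, finsum_eq_sum_of_fintype, finsum_eq_sum_of_fintype,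
    Finset.sum_mul_sum, ← Finset.sum_product']
  symm
  have hpp : ∀ q : {Q : Subgroup H // IsPGroup p Q} × {Q : Subgroup K // IsPGroup p Q},
      IsPGroup p (q.1.1.prod q.2.1) := by
    intro q
    obtain ⟨a, ha⟩ := q.1.2.exists_card_eq
    obtain ⟨b, hb⟩ := q.2.2.exists_card_eq
    refine IsPGroup.of_card (n := a + b) ?_
    rw [card_prod_sub, ha, hb, pow_add]
  refine Finset.sum_of_injOn (fun q => ⟨q.1.1.prod q.2.1, hpp q⟩) ?_ ?_ ?_ ?_
  · rintro ⟨⟨a, ha⟩, b, hb⟩ - ⟨⟨a', ha'⟩, b', hb'⟩ - h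
    have h1 : a.prod b = a'.prod b' := congrArg Subtype.val h
    have h2 : a = a' := by
      ext x
      have h3 : ((x, 1) : H × K) ∈ a.prod b ↔ ((x, 1) : H × K) ∈ a'.prod b' := by rw [h1]
      rw [Subgroup.mem_prod, Subgroup.mem_prod] at h3
      exact ⟨fun h4 => (h3.1 ⟨h4, b.one_mem⟩).1, fun h4 => (h3.2 ⟨h4, b'.one_mem⟩).1⟩
    have h3 : b = b' := by
      ext x
      have h3 : ((1, x) : H × K) ∈ a.prod b ↔ ((1, x) : H × K) ∈ a'.prod b' := by rw [h1]
      rw [Subgroup.mem_prod, Subgroup.mem_prod] at h3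
      exact ⟨fun h4 => (h3.1 ⟨a.one_mem, h4⟩).2, fun h4 => (h3.2 ⟨a'.one_mem, h4⟩).2⟩
    subst h2
    subst h3
    rfl
  · intro q _
    exact Finset.mem_coe.2 (Finset.mem_univ _)
  · rintro ⟨Q, hQ⟩ - hn
    refine wl_zero red _ _ hQ fun Q₁ Q₂ h1 h2 h => hn ?_
    exact ⟨(⟨Q₁, h1⟩, ⟨Q₂, h2⟩), Finset.mem_coe.2 (Finset.mem_product.2
      ⟨Finset.mem_univ _, Finset.mem_univ _⟩), Subtype.ext h⟩
  · rintro ⟨⟨a, ha⟩, b, hb⟩ -
    exact (wl_prod red hz hz' h01 h01' ha hb).symm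

theorem ws_eq (red : integralClosure ℤ ℂ →+* F) {z : H → F} (hz : IsClassFun z) (c : F) :
    Nat.card H * wcl p red (⊤ : Subgroup H) z c = ws p red z c := by
  have h1 := Pool.Agent.Y286.NV.orbit_weights (Γ := H) p (fun Q =>
    Nw p red (Q.subgroupOf (Subgroup.normalizer (Q : Set H))) (fun x => z x) c) (fun g Q =>
      (Pool.Agent.Y63.NV.B48B.nw_conj p red hz c g Q).symm)
  have h2 : wcl p red (⊤ : Subgroup H) z c =
      ∑ᶠ d : Quotient (pSubgroupSetoid p H),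
        Nw p red (d.out.1.subgroupOf (Subgroup.normalizer (d.out.1 : Set H))) (fun x => z x) c := by
    unfold wcl
    refine finsum_congr fun d => ?_
    rw [if_pos (top_sup_eq _)]
  rw [h2]
  exact h1

/-- **The number of weights of a direct product.** -/
theorem W_prod (red : integralClosure ℤ ℂ →+* F) {z : H → F} {z' : K → F} (hz : IsClassFun z)
    (hz' : IsClassFun z') (h01 : ∀ B : (H → F) → F, IsBlock B → B z = 0 ∨ B z = 1)
    (h01' : ∀ B : (K → F) → F, IsBlock B → B z' = 0 ∨ B z' = 1) :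
    wcl p red (⊤ : Subgroup (H × K)) (tn z z') 1 =
      wcl p red (⊤ : Subgroup H) z 1 * wcl p red (⊤ : Subgroup K) z' 1 := by
  have h1 := ws_eq (p := p) red (tn_class hz hz') 1
  rw [ws_prod red hz hz' h01 h01', ← ws_eq (p := p) red hz 1, ← ws_eq (p := p) red hz' 1,
    Nat.card_prod] at h1
  have h2 : 0 < Nat.card H * Nat.card K := Nat.mul_pos Nat.card_pos Nat.card_pos
  refine Nat.eq_of_mul_eq_mul_left h2 (h1.trans ?_)
  ring

end Pool.Agent.X252.TP
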