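import Pool.Agent.X252.TPC
import Pool.Agent.X252.NVC

/-!
# Direct products: blocks
-/

set_option linter.unusedSectionVars false

open scoped Classical

noncomputable section

namespace Pool.Agent.X252.TP

open Pool.Agent.Y63.NV Pool.Agent.Y286.NV Pool.Agent.X252.NVC Pool.Agent.X252.NVU
open Pool.Agent.Y63.AWC (IsIrreducibleCharacter pSubgroupSetoid)

section interp

variable {F : Type} [Field F]

theorem interp {V ι : Type} [AddCommGroup V] [Module F V] [Finite ι] (L : ι → V →ₗ[F] F)
    (h : LinearIndependent F L) (i : ι) : ∃ v, L i v = 1 ∧ ∀ j, j ≠ i → L j v = 0 := by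
  have : Fintype ι := Fintype.ofFinite _
  have hs : LinearMap.range (LinearMap.pi L) = ⊤ := by
    by_contra hne
    obtain ⟨f, hf, hle⟩ := Submodule.exists_le_ker_of_lt_top _ (lt_top_iff_ne_top.2 hne)
    apply hf
    have h1 : ∑ j, f (Pi.single j 1) • L j = 0 := by
      ext v
      have h2 : f (LinearMap.pi L v) = 0 := hle ⟨v, rfl⟩
      have h3 : LinearMap.pi L v = ∑ j, L j v • (Pi.single j (1 : F) : ι → F) := by
        funext k
        rw [Finset.sum_apply, Finset.sum_eq_single k]
        · rw [Pi.smul_apply, Pi.single_eq_same, smul_eq_mul, mul_one]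
          rfl
        · intro j _ hj
          rw [Pi.smul_apply, Pi.single_eq_of_ne (Ne.symm hj), smul_zero]
        · intro hk
          exact absurd (Finset.mem_univ k) hk
      rw [h3, map_sum] at h2
      rw [LinearMap.sum_apply, LinearMap.zero_apply, ← h2]
      refine Finset.sum_congr rfl fun j _ => ?_
      rw [LinearMap.smul_apply, map_smul, smul_eq_mul, smul_eq_mul, mul_comm]
    have h4 := Fintype.linearIndependent_iff.1 h _ h1
    refine LinearMap.pi_ext' fun j => LinearMap.ext_ring ?_
    exact h4 j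
  have h5 : (Pi.single i 1 : ι → F) ∈ LinearMap.range (LinearMap.pi L) := by
    rw [hs]
    trivial
  obtain ⟨v, hv⟩ := h5
  refine ⟨v, ?_, fun j hj => ?_⟩
  · have h6 := congrFun hv i
    rw [Pi.single_eq_same] at h6
    exact h6
  · have h6 := congrFun hv j
    rw [Pi.single_eq_of_ne hj] at h6
    exact h6

variable {H : Type} [Group H] [Finite H]

theorem mult_indep (G : Subgroup H) :
    LinearIndependent F (fun L : {L : ZG F G →ₗ[F] F // IsMult L} => L.1) := by
  let _ := mulZ (F := F) G
  let Φ : {L : ZG F G →ₗ[F] F // IsMult L} → (ZG F G →* F) := fun L =>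
    { toFun := fun a => L.1 a
      map_one' := L.2.one
      map_mul' := fun a b => L.2.mul a b }
  have hΦ : Function.Injective Φ := by
    intro L L' h
    refine Subtype.ext (LinearMap.ext fun a => ?_)
    exact congrArg (fun m : ZG F G →* F => m a) h
  have h1 := (linearIndependent_monoidHom (ZG F G) F).comp Φ hΦ
  let ev : (ZG F G →ₗ[F] F) →ₗ[F] (ZG F G → F) :=
    { toFun := fun L a => L a
      map_add' := fun _ _ => rfl
      map_smul' := fun _ _ => rfl }
  exact LinearIndependent.of_comp ev h1

/-- a class function separating a block from all others -/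
theorem exists_e {D : (H → F) → F} (hD : IsBlock D) : ∃ e : H → F, IsClassFun e ∧ D e = 1 ∧
    ∀ D' : (H → F) → F, IsBlock D' →
      (D' e = 1 ∧ ∀ f, IsClassFun f → D' f = D f) ∨ D' e = 0 := by
  have := finite_mult (F := F) (⊤ : Subgroup H)
  obtain ⟨v, hv, hv'⟩ := interp _ (mult_indep (F := F) (⊤ : Subgroup H))
    ⟨resT (G := (⊤ : Subgroup H)) hD, resT_mult hD⟩
  refine ⟨v.1, v.2.conj, hv, fun D' hD' => ?_⟩
  by_cases h : (⟨resT (G := (⊤ : Subgroup H)) hD', resT_mult hD'⟩ :
      {L : ZG F (⊤ : Subgroup H) →ₗ[F] F // IsMult L}) =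
      ⟨resT (G := (⊤ : Subgroup H)) hD, resT_mult hD⟩
  · left
    have h1 : ∀ f, IsClassFun f → D' f = D f := by
      intro f hf
      have h2 := congrArg Subtype.val h
      exact congrArg (fun L : ZG F (⊤ : Subgroup H) →ₗ[F] F =>
        L ⟨f, hf, fun x hx => absurd (Subgroup.mem_top x) hx⟩) h2
    refine ⟨?_, h1⟩
    rw [h1 _ v.2.conj]
    exact hv
  · right
    exact hv' _ h

end interp

section blk

variable {F : Type} [Field F] {H K : Type} [Group H] [Finite H] [Group K] [Finite K]

/-- the product of two blocks -/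
def pb (D : (H → F) → F) (D' : (K → F) → F) : (H × K → F) → F :=
  fun f => D (fun x => D' (fun y => f (x, y)))

lemma row_class {f : H × K → F} (hf : IsClassFun f) (x : H) : IsClassFun (fun y => f (x, y)) := by
  intro g y
  have h := hf (1, g) (x, y)
  have h2 : ((1, g) : H × K) * (x, y) * (1, g)⁻¹ = (x, g * y * g⁻¹) :=
    Prod.ext (by change 1 * x * 1⁻¹ = x; group) rfl
  rw [h2] at h
  exact h

lemma col_eq {f : H × K → F} (hf : IsClassFun f) (g x : H) :
    (fun y => f (g * x * g⁻¹, y)) = fun y => f (x, y) := by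
  funext y
  have h := hf (g, 1) (x, y)
  have h2 : ((g, 1) : H × K) * (x, y) * (g, 1)⁻¹ = (g * x * g⁻¹, y) :=
    Prod.ext rfl (by change 1 * y * 1⁻¹ = y; group)
  rw [h2] at h
  exact h

lemma col_class {f : H × K → F} (hf : IsClassFun f) (D' : (K → F) → F) :
    IsClassFun (fun x : H => D' (fun y => f (x, y))) := by
  intro g x
  change D' (fun y => f (g * x * g⁻¹, y)) = _
  rw [col_eq hf]

lemma block_zero {D : (H → F) → F} (hD : IsBlock D) : D 0 = 0 := by
  have h := hD.smul 0 0 (fun _ _ => rfl)
  rwa [zero_smul, zero_mul] at h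

lemma class_sum {ι : Type} (s : Finset ι) (f : ι → H → F) (hf : ∀ i, IsClassFun (f i)) :
    IsClassFun (∑ i ∈ s, f i) := by
  intro g x
  rw [Finset.sum_apply, Finset.sum_apply]
  exact Finset.sum_congr rfl fun i _ => hf i g x

lemma block_sum {D : (H → F) → F} (hD : IsBlock D) {ι : Type} (s : Finset ι) (f : ι → H → F)
    (hf : ∀ i, IsClassFun (f i)) : D (∑ i ∈ s, f i) = ∑ i ∈ s, D (f i) := by
  induction s using Finset.induction_on with
  | empty => rw [Finset.sum_empty, Finset.sum_empty, block_zero hD]
  | insert a s ha ih =>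
    rw [Finset.sum_insert ha, Finset.sum_insert ha, hD.add _ _ (hf a) (class_sum s f hf), ih]

lemma conv_class {f g : H → F} (hf : IsClassFun f) (hg : IsClassFun g) :
    IsClassFun (conv f g) :=
  (conv_inZ (U := (⊤ : Subgroup H)) ⟨hf, fun x hx => absurd (Subgroup.mem_top x) hx⟩
    ⟨hg, fun x hx => absurd (Subgroup.mem_top x) hx⟩).conj

lemma delta_class : IsClassFun (Pi.single 1 1 : H → F) :=
  (single_inZ (F := F) (⊤ : Subgroup H)).conj

theorem tn_delta (i : DecidableEq (H × K)) :
    tn (Pi.single 1 1 : H → F) (Pi.single 1 1 : K → F) =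
      @Pi.single (H × K) (fun _ => F) _ i 1 1 := by
  funext x
  obtain ⟨x, y⟩ := x
  change (Pi.single 1 1 : H → F) x * (Pi.single 1 1 : K → F) y = _
  by_cases hx : x = 1
  · subst hx
    by_cases hy : y = 1
    · subst hy
      rw [Pi.single_eq_same, Pi.single_eq_same, mul_one]
      exact (Pi.single_eq_same (M := fun _ : H × K => F) 1 1).symm
    · rw [Pi.single_eq_of_ne hy, mul_zero, Pi.single_eq_of_ne]
      intro h
      exact hy (congrArg Prod.snd h)
  · rw [Pi.single_eq_of_ne hx, zero_mul, Pi.single_eq_of_ne]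
    intro h
    exact hx (congrArg Prod.fst h)

theorem pb_tn {D : (H → F) → F} {D' : (K → F) → F} (hD : IsBlock D) (hD' : IsBlock D')
    {e : H → F} {e' : K → F} (he : IsClassFun e) (he' : IsClassFun e') :
    pb D D' (tn e e') = D e * D' e' := by
  have h1 : (fun x : H => D' (fun y => tn e e' (x, y))) = D' e' • e := by
    funext x
    have h2 : (fun y : K => tn e e' (x, y)) = e x • e' := rfl
    rw [h2, hD'.smul _ _ he']
    exact mul_comm _ _
  unfold pb
  rw [h1, hD.smul _ _ he, mul_comm]

theorem pb_block {D : (H → F) → F} {D' : (K → F) → F} (hD : IsBlock D) (hD' : IsBlock D') :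
    IsBlock (pb D D') := by
  have : Fintype H := Fintype.ofFinite _
  have : Fintype K := Fintype.ofFinite _
  refine ⟨fun f g hf hg => ?_, fun a f hf => ?_, ?_, fun f g hf hg => ?_⟩
  · have h1 : (fun x : H => D' (fun y => (f + g) (x, y))) =
        (fun x => D' (fun y => f (x, y))) + fun x => D' (fun y => g (x, y)) := by
      funext x
      exact hD'.add _ _ (row_class hf x) (row_class hg x)
    unfold pb
    rw [h1, hD.add _ _ (col_class hf D') (col_class hg D')]
  · have h1 : (fun x : H => D' (fun y => (a • f) (x, y))) =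
        a • fun x => D' (fun y => f (x, y)) := by
      funext x
      exact hD'.smul a _ (row_class hf x)
    unfold pb
    rw [h1, hD.smul _ _ (col_class hf D')]
  · have h1 := pb_tn hD hD' (delta_class (F := F) (H := H)) (delta_class (F := F) (H := K))
    rw [hD.one, hD'.one, mul_one] at h1
    exact (congrArg (pb D D') (tn_delta _).symm).trans h1
  · have h1 : ∀ x : H, (fun y => conv f g (x, y)) =
        ∑ a : H, conv (fun y => f (a, y)) (fun y => g (a⁻¹ * x, y)) := by
      intro x
      funext y
      rw [Finset.sum_apply]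
      unfold conv
      rw [finsum_eq_sum_of_fintype, Fintype.sum_prod_type]
      refine Finset.sum_congr rfl fun a _ => ?_
      rw [finsum_eq_sum_of_fintype]
      rfl
    have h2 : (fun x : H => D' (fun y => conv f g (x, y))) =
        conv (fun x => D' (fun y => f (x, y))) (fun x => D' (fun y => g (x, y))) := by
      funext x
      rw [h1, block_sum hD' _ _ fun a => conv_class (row_class hf a) (row_class hg _)]
      unfold conv
      rw [finsum_eq_sum_of_fintype]
      exact Finset.sum_congr rfl fun a _ => hD'.mul _ _ (row_class hf a) (row_class hg _)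
    unfold pb
    rw [h2, hD.mul _ _ (col_class hf D') (col_class hg D')]

theorem conv_tn (f f' : H → F) (g g' : K → F) :
    conv (tn f g) (tn f' g') = tn (conv f f') (conv g g') := by
  have : Fintype H := Fintype.ofFinite _
  have : Fintype K := Fintype.ofFinite _
  funext x
  change _ = conv f f' x.1 * conv g g' x.2
  unfold conv
  rw [finsum_eq_sum_of_fintype, finsum_eq_sum_of_fintype, finsum_eq_sum_of_fintype,
    Fintype.sum_prod_type, Finset.sum_mul_sum]
  refine Finset.sum_congr rfl fun a _ => Finset.sum_congr rfl fun b _ => ?_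
  change f a * g b * (f' (a⁻¹ * x.1) * g' (b⁻¹ * x.2)) = _
  ring

theorem tn_cf {z : H → F} {z' : K → F} (hz : IsClassFun z) (hz' : IsClassFun z') :
    IsClassFun (tn z z') := fun g x => by
  change z (g.1 * x.1 * g.1⁻¹) * z' (g.2 * x.2 * g.2⁻¹) = z x.1 * z' x.2
  rw [hz, hz']

/-- the first component of a block of a direct product -/
theorem left_block {L : (H × K → F) → F} (hL : IsBlock L) :
    IsBlock (fun f : H → F => L (tn f (Pi.single 1 1 : K → F))) := by
  refine ⟨fun f g hf hg => ?_, fun a f hf => ?_, ?_, fun f g hf hg => ?_⟩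
  · refine Eq.trans (congrArg L ?_) (hL.add _ _ (tn_cf hf delta_class) (tn_cf hg delta_class))
    funext x
    exact add_mul _ _ _
  · refine Eq.trans (congrArg L ?_) (hL.smul a _ (tn_cf hf delta_class))
    funext x
    exact mul_assoc _ _ _
  · exact Eq.trans (congrArg L (tn_delta _)) hL.one
  · refine Eq.trans (congrArg L ?_) (hL.mul _ _ (tn_cf hf delta_class) (tn_cf hg delta_class))
    rw [conv_tn, conv_one_left]

theorem right_block {L : (H × K → F) → F} (hL : IsBlock L) :
    IsBlock (fun f : K → F => L (tn (Pi.single 1 1 : H → F) f)) := by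
  refine ⟨fun f g hf hg => ?_, fun a f hf => ?_, ?_, fun f g hf hg => ?_⟩
  · refine Eq.trans (congrArg L ?_) (hL.add _ _ (tn_cf delta_class hf) (tn_cf delta_class hg))
    funext x
    exact mul_add _ _ _
  · refine Eq.trans (congrArg L ?_) (hL.smul a _ (tn_cf delta_class hf))
    funext x
    change (Pi.single 1 1 : H → F) x.1 * (a * f x.2) = a * ((Pi.single 1 1 : H → F) x.1 * f x.2)
    ring
  · exact Eq.trans (congrArg L (tn_delta _)) hL.one
  · refine Eq.trans (congrArg L ?_) (hL.mul _ _ (tn_cf delta_class hf) (tn_cf delta_class hg))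
    rw [conv_tn, conv_one_left]

theorem L_tn {L : (H × K → F) → F} (hL : IsBlock L) {f : H → F} {g : K → F}
    (hf : IsClassFun f) (hg : IsClassFun g) :
    L (tn f g) = L (tn f (Pi.single 1 1 : K → F)) * L (tn (Pi.single 1 1 : H → F) g) := by
  rw [← hL.mul _ _ (tn_cf hf delta_class) (tn_cf delta_class hg), conv_tn, conv_one_left,
    conv_one_right]

/-- the indicator function of a class -/
def icl (F : Type) [Field F] (C : ConjClasses H) : H → F :=
  fun x => if ConjClasses.mk x = C then 1 else 0

lemma icl_class (C : ConjClasses H) : IsClassFun (icl F C) := by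
  intro g x
  unfold icl
  have h : ConjClasses.mk (g * x * g⁻¹) = ConjClasses.mk x := by
    rw [ConjClasses.mk_eq_mk_iff_isConj, isConj_comm, isConj_iff]
    exact ⟨g, rfl⟩
  rw [h]

lemma out_eq {A : Type} {f : H → A} (hf : ∀ g x, f (g * x * g⁻¹) = f x) (x : H) :
    f (ConjClasses.mk x).out = f x := by
  have h1 : ConjClasses.mk (ConjClasses.mk x).out = ConjClasses.mk x := Quotient.out_eq _
  rw [ConjClasses.mk_eq_mk_iff_isConj, isConj_iff] at h1
  obtain ⟨c, hc⟩ := h1
  rw [← hf c, hc]

theorem pb_sep {D : (H → F) → F} {D' : (K → F) → F} (hD : IsBlock D) {e : H → F} {e' : K → F} (he : IsClassFun e) (he' : IsClassFun e')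
    (h : ∀ L : (H → F) → F, IsBlock L → (L e = 1 ∧ ∀ f, IsClassFun f → L f = D f) ∨ L e = 0)
    (h' : ∀ L : (K → F) → F, IsBlock L → (L e' = 1 ∧ ∀ f, IsClassFun f → L f = D' f) ∨ L e' = 0)
    {L : (H × K → F) → F} (hL : IsBlock L) (h1 : L (tn e e') = 1) :
    ∀ f, IsClassFun f → L f = pb D D' f := by
  have : Fintype (ConjClasses H) := Fintype.ofFinite _
  have h2 := L_tn hL he he'
  rw [h1] at h2
  have hl : ∀ f, IsClassFun f → L (tn f (Pi.single 1 1 : K → F)) = D f := by
    rcases h _ (left_block hL) with h3 | h3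
    · exact h3.2
    · rw [h3, zero_mul] at h2
      exact absurd h2 one_ne_zero
  have hr : ∀ f, IsClassFun f → L (tn (Pi.single 1 1 : H → F) f) = D' f := by
    rcases h' _ (right_block hL) with h3 | h3
    · exact h3.2
    · rw [h3, mul_zero] at h2
      exact absurd h2 one_ne_zero
  intro f hf
  have e1 : f = ∑ C : ConjClasses H, tn (icl F C) (fun y => f (C.out, y)) := by
    funext x
    rw [Finset.sum_apply, Finset.sum_eq_single (ConjClasses.mk x.1)]
    · change f x = (if ConjClasses.mk x.1 = ConjClasses.mk x.1 then 1 else 0) *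
        f ((ConjClasses.mk x.1).out, x.2)
      rw [if_pos rfl, one_mul]
      exact (congrFun (out_eq (f := fun a : H => fun y : K => f (a, y)) (fun g a =>
        col_eq hf g a) x.1) x.2).symm
    · intro C _ hC
      change (if ConjClasses.mk x.1 = C then 1 else 0) * _ = (0 : F)
      rw [if_neg (Ne.symm hC), zero_mul]
    · intro hk
      exact absurd (Finset.mem_univ _) hk
  have e2 : (fun x : H => D' (fun y => f (x, y))) =
      ∑ C : ConjClasses H, D' (fun y => f (C.out, y)) • icl F C := by
    funext x
    rw [Finset.sum_apply, Finset.sum_eq_single (ConjClasses.mk x)]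
    · change _ = D' (fun y => f ((ConjClasses.mk x).out, y)) *
        (if ConjClasses.mk x = ConjClasses.mk x then 1 else 0)
      rw [if_pos rfl, mul_one]
      exact (out_eq (f := fun a : H => D' (fun y => f (a, y))) (fun g a =>
        col_class hf D' g a) x).symm
    · intro C _ hC
      change _ * (if ConjClasses.mk x = C then 1 else 0) = (0 : F)
      rw [if_neg (Ne.symm hC), mul_zero]
    · intro hk
      exact absurd (Finset.mem_univ _) hk
  have e3 : L f = ∑ C : ConjClasses H, L (tn (icl F C) (fun y => f (C.out, y))) := by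
    conv_lhs => rw [e1]
    exact block_sum hL _ _ fun C => tn_cf (icl_class C) (row_class hf _)
  have e4 : pb D D' f = ∑ C : ConjClasses H, D (D' (fun y => f (C.out, y)) • icl F C) := by
    unfold pb
    rw [e2]
    refine block_sum hD _ _ fun C g x => ?_
    change _ * icl F C (g * x * g⁻¹) = _ * icl F C x
    rw [icl_class C g x]
  rw [e3, e4]
  refine Finset.sum_congr rfl fun C _ => ?_
  rw [L_tn hL (icl_class C) (row_class hf _), hl _ (icl_class C), hr _ (row_class hf _),
    hD.smul _ _ (icl_class C), mul_comm]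

end blk

section cnt

variable {F : Type} [Field F] [IsAlgClosed F] {p : ℕ} [Fact p.Prime] [CharP F p]
  {H K : Type} [Group H] [Finite H] [Group K] [Finite K]

/-- the number of classes of weights in a block -/
def nwt (p : ℕ) (red : integralClosure ℤ ℂ →+* F) {G : Type} [Group G] (B : (G → F) → F) : ℕ :=
  ∑ᶠ c : Quotient (pSubgroupSetoid p G), numWtBlock p red c.out.1 B

theorem nwt_eq (red : integralClosure ℤ ℂ →+* F) {D : (H → F) → F} {z : H → F}
    (hz : IsClassFun z)
    (hsep : ∀ D' : (H → F) → F, IsBlock D' → D' z = D z → ∀ f, IsClassFun f → D' f = D f) :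
    Pool.Agent.X252.NVM.wcl p red (⊤ : Subgroup H) z (D z) = nwt p red D := by
  unfold Pool.Agent.X252.NVM.wcl nwt
  refine finsum_congr fun d => ?_
  rw [if_pos (top_sup_eq _)]
  exact count_W red hz hsep d.out.2

theorem pb_counts (red : integralClosure ℤ ℂ →+* F) {D : (H → F) → F} {D' : (K → F) → F}
    (hD : IsBlock D) (hD' : IsBlock D') :
    numIrrBlock (pb D D') = numIrrBlock D * numIrrBlock D' ∧
      nwt p red (pb D D') = nwt p red D * nwt p red D' := by
  obtain ⟨e, he, he1, hsep⟩ := exists_e hD
  obtain ⟨e', he', he1', hsep'⟩ := exists_e hD'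
  have h01 : ∀ B : (H → F) → F, IsBlock B → B e = 0 ∨ B e = 1 := fun B hB =>
    (hsep B hB).elim (fun h => Or.inr h.1) Or.inl
  have h01' : ∀ B : (K → F) → F, IsBlock B → B e' = 0 ∨ B e' = 1 := fun B hB =>
    (hsep' B hB).elim (fun h => Or.inr h.1) Or.inl
  have hs : ∀ B : (H → F) → F, IsBlock B → B e = D e → ∀ f, IsClassFun f → B f = D f := by
    intro B hB h
    rcases hsep B hB with h1 | h1
    · exact h1.2
    · rw [h1, he1] at h
      exact absurd h.symm one_ne_zero
  have hs' : ∀ B : (K → F) → F, IsBlock B → B e' = D' e' → ∀ f, IsClassFun f → B f = D' f := by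
    intro B hB h
    rcases hsep' B hB with h1 | h1
    · exact h1.2
    · rw [h1, he1'] at h
      exact absurd h.symm one_ne_zero
  have hv : pb D D' (tn e e') = 1 := by
    rw [pb_tn hD hD' he he', he1, he1', one_mul]
  have hsp : ∀ B : (H × K → F) → F, IsBlock B → B (tn e e') = pb D D' (tn e e') →
      ∀ f, IsClassFun f → B f = pb D D' f := by
    intro B hB h
    rw [hv] at h
    exact pb_sep hD he he' hsep hsep' hB h
  have l1 := count_L (tn_cf he he') hsp
  have l2 := count_L he hs
  have l3 := count_L he' hs'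
  have w1 := nwt_eq (p := p) red (tn_cf he he') hsp
  have w2 := nwt_eq (p := p) red he hs
  have w3 := nwt_eq (p := p) red he' hs'
  rw [hv] at l1 w1
  rw [he1] at l2 w2
  rw [he1'] at l3 w3
  exact ⟨by rw [← l1, ← l2, ← l3, L_prod p he he' h01 h01'],
    by rw [← w1, ← w2, ← w3, W_prod red he he' h01 h01']⟩

end cnt

end Pool.Agent.X252.TP
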