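import Pool.Agent.X252.TPD

/-!
# Tensor powers
-/

set_option linter.unusedSectionVars false

open scoped Classical Topology

noncomputable section

namespace Pool.Agent.X252.TP

open Pool.Agent.Y63.NV

section real

/-- the tensor power trick, with a fixed exponent -/
theorem trick1 {a b n : ℕ} (hn : 0 < n) {ε C : ℝ}
    (hC : ∀ k : ℕ, ((a ^ 2 ^ k : ℕ) : ℝ) ≤
      C * ((n ^ 2 ^ k : ℕ) : ℝ) ^ ε * ((b ^ 2 ^ k : ℕ) : ℝ)) : (a : ℝ) ≤ (n : ℝ) ^ ε * b := by
  by_contra hab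
  rw [not_le] at hab
  have hn1 : (0 : ℝ) < n := by exact_mod_cast hn
  set c : ℝ := (n : ℝ) ^ ε * b with hc
  have hc0 : 0 ≤ c := mul_nonneg (Real.rpow_nonneg hn1.le _) (Nat.cast_nonneg _)
  have ha : (0 : ℝ) < a := lt_of_le_of_lt hc0 hab
  have hpow : ∀ k : ℕ, (a : ℝ) ^ 2 ^ k ≤ C * c ^ 2 ^ k := by
    intro k
    have h1 := hC k
    rw [Nat.cast_pow, Nat.cast_pow, Nat.cast_pow, ← Real.rpow_natCast (n : ℝ),
      ← Real.rpow_mul hn1.le, mul_comm ((2 ^ k : ℕ) : ℝ) ε, Real.rpow_mul hn1.le,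
      Real.rpow_natCast, mul_assoc, ← mul_pow] at h1
    exact h1
  have hc1 : 0 < c := by
    rcases hc0.lt_or_eq with h1 | h1
    · exact h1
    · have h2 := hpow 0
      rw [← h1, pow_zero, pow_one, pow_one, mul_zero] at h2
      exact absurd h2 (not_le.2 ha)
  have hr : 1 < (a : ℝ) / c := (one_lt_div hc1).2 hab
  obtain ⟨m, hm⟩ := pow_unbounded_of_one_lt C hr
  have h1 : ((a : ℝ) / c) ^ 2 ^ m ≤ C := by
    rw [div_pow, div_le_iff₀ (pow_pos hc1 _)]
    exact hpow m
  have h2 : ((a : ℝ) / c) ^ m ≤ ((a : ℝ) / c) ^ 2 ^ m :=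
    pow_le_pow_right₀ hr.le (Nat.lt_two_pow_self).le
  exact absurd (hm.trans_le (h2.trans h1)) (lt_irrefl _)

/-- the limit `ε → 0` -/
theorem lim0 {a b n : ℕ} (hn : 0 < n) (h : ∀ ε : ℝ, 0 < ε → (a : ℝ) ≤ (n : ℝ) ^ ε * b) :
    a ≤ b := by
  by_contra hab
  rw [not_le] at hab
  have hn1 : (0 : ℝ) < n := by exact_mod_cast hn
  obtain ⟨ε, hε, hlt⟩ : ∃ ε : ℝ, 0 < ε ∧ (n : ℝ) ^ ε * b < a := by
    have h1 : Filter.Tendsto (fun ε : ℝ => (n : ℝ) ^ ε * b) (𝓝 0) (𝓝 ((n : ℝ) ^ (0 : ℝ) * b)) :=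
      ((Real.continuousAt_const_rpow hn1.ne').tendsto).mul_const _
    rw [Real.rpow_zero, one_mul] at h1
    have h2 : ∀ᶠ ε in 𝓝 (0 : ℝ), (n : ℝ) ^ ε * b < a :=
      h1.eventually_lt_const (by exact_mod_cast hab)
    have h3 : ∀ᶠ ε in 𝓝[>] (0 : ℝ), (n : ℝ) ^ ε * b < a := h2.filter_mono nhdsWithin_le_nhds
    obtain ⟨ε, h4, h5⟩ := (h3.and self_mem_nhdsWithin).exists
    exact ⟨ε, h5, h4⟩
  exact absurd (h ε hε) (not_le.2 hlt)

end real

section it

variable {F : Type} [Field F] [IsAlgClosed F] {p : ℕ} [Fact p.Prime] [CharP F p]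

/-- `X` is closed under squares -/
def Sq (X : ∀ (H : Type) [Group H], Prop) : Prop :=
  ∀ (H : Type) [Group H] [Finite H], X H → X (H × H)

theorem iter (red : integralClosure ℤ ℂ →+* F) (X : ∀ (H : Type) [Group H], Prop) (hX : Sq X)
    (k : ℕ) : ∀ (H : Type) [Group H] [Finite H], X H → ∀ B : (H → F) → F, IsBlock B →
      ∃ (H' : Type) (_ : Group H') (_ : Finite H') (B' : (H' → F) → F), X H' ∧ IsBlock B' ∧
        Nat.card H' = Nat.card H ^ 2 ^ k ∧ numIrrBlock B' = numIrrBlock B ^ 2 ^ k ∧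
        nwt p red B' = nwt p red B ^ 2 ^ k := by
  induction k with
  | zero =>
    intro H _ _ hH B hB
    refine ⟨H, inferInstance, inferInstance, B, hH, hB, ?_, ?_, ?_⟩ <;> rw [pow_zero, pow_one]
  | succ k ih =>
    intro H _ _ hH B hB
    obtain ⟨H', hg, hf, B', hX', hB', h1, h2, h3⟩ := ih H hH B hB
    refine ⟨H' × H', inferInstance, inferInstance, pb B' B', hX H' hX', pb_block hB' hB',
      ?_, ?_, ?_⟩
    · rw [Nat.card_prod, h1, pow_succ 2 k, mul_comm (2 ^ k) 2, two_mul, pow_add]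
    · rw [(pb_counts (p := p) red hB' hB').1, h2, pow_succ 2 k, mul_comm (2 ^ k) 2, two_mul, pow_add]
    · rw [(pb_counts (p := p) red hB' hB').2, h3, pow_succ 2 k, mul_comm (2 ^ k) 2, two_mul, pow_add]

/-- `f(B) ≤ C |H|^ε g(B)` for all blocks `B` of all finite groups `H` in `X` -/
def Bd (F : Type) [Field F] (X : ∀ (H : Type) [Group H], Prop)
    (f g : ∀ (H : Type) [Group H], ((H → F) → F) → ℕ) (C ε : ℝ) : Prop :=
  ∀ (H : Type) [Group H] [Finite H], X H → ∀ B : (H → F) → F, IsBlock B →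
    (f H B : ℝ) ≤ C * (Nat.card H : ℝ) ^ ε * (g H B : ℝ)

/-- upper bounds for `l(B)` -/
theorem upper (red : integralClosure ℤ ℂ →+* F) (X : ∀ (H : Type) [Group H], Prop) (hX : Sq X)
    {C ε : ℝ} (h : Bd F X (fun _ _ => numIrrBlock) (fun _ _ => nwt p red) C ε) :
    Bd F X (fun _ _ => numIrrBlock) (fun _ _ => nwt p red) 1 ε := by
  intro H _ _ hH B hB
  rw [one_mul]
  refine trick1 (n := Nat.card H) Nat.card_pos (C := C) fun k => ?_
  obtain ⟨H', hg, hf, B', hX', hB', h1, h2, h3⟩ := iter (p := p) red X hX k H hH B hB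
  rw [← h1, ← h2, ← h3]
  exact h H' hX' B' hB'

/-- lower bounds for `l(B)` -/
theorem lower (red : integralClosure ℤ ℂ →+* F) (X : ∀ (H : Type) [Group H], Prop) (hX : Sq X)
    {C ε : ℝ} (h : Bd F X (fun _ _ => nwt p red) (fun _ _ => numIrrBlock) C ε) :
    Bd F X (fun _ _ => nwt p red) (fun _ _ => numIrrBlock) 1 ε := by
  intro H _ _ hH B hB
  rw [one_mul]
  refine trick1 (n := Nat.card H) Nat.card_pos (C := C) fun k => ?_
  obtain ⟨H', hg, hf, B', hX', hB', h1, h2, h3⟩ := iter (p := p) red X hX k H hH B hB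
  rw [← h1, ← h2, ← h3]
  exact h H' hX' B' hB'

omit [IsAlgClosed F] in
theorem bd_lim (X : ∀ (H : Type) [Group H], Prop)
    (f g : ∀ (H : Type) [Group H], ((H → F) → F) → ℕ)
    (h : ∀ ε : ℝ, 0 < ε → Bd F X f g 1 ε) : ∀ (H : Type) [Group H] [Finite H], X H →
      ∀ B : (H → F) → F, IsBlock B → f H B ≤ g H B := by
  intro H _ _ hH B hB
  refine lim0 (n := Nat.card H) Nat.card_pos fun ε hε => ?_
  have h1 := h ε hε H hH B hB
  rwa [one_mul] at h1

/-- **Approximate equality implies equality.** -/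
theorem bawc_of_approx (red : integralClosure ℤ ℂ →+* F) (X : ∀ (H : Type) [Group H], Prop)
    (hX : Sq X)
    (h : ∀ ε : ℝ, 0 < ε → ∃ C : ℝ,
      Bd F X (fun _ _ => numIrrBlock) (fun _ _ => nwt p red) C ε ∧
      Bd F X (fun _ _ => nwt p red) (fun _ _ => numIrrBlock) C ε) :
    ∀ (H : Type) [Group H] [Finite H], X H → BAWC p red H := by
  intro H _ _ hH B hB
  apply le_antisymm
  · refine bd_lim (F := F) X (fun _ _ => numIrrBlock) (fun _ _ => nwt p red) (fun ε hε => ?_)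
      H hH B hB
    obtain ⟨C, hC, -⟩ := h ε hε
    exact upper red X hX hC
  · refine bd_lim (F := F) X (fun _ _ => nwt p red) (fun _ _ => numIrrBlock) (fun ε hε => ?_)
      H hH B hB
    obtain ⟨C, -, hC⟩ := h ε hε
    exact lower red X hX hC

omit [IsAlgClosed F] [Fact p.Prime] [CharP F p] in
theorem approx_of_bawc (red : integralClosure ℤ ℂ →+* F) (X : ∀ (H : Type) [Group H], Prop)
    (h : ∀ (H : Type) [Group H] [Finite H], X H → BAWC p red H) {ε : ℝ} (hε : 0 ≤ ε) :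
    Bd F X (fun _ _ => numIrrBlock) (fun _ _ => nwt p red) 1 ε ∧
      Bd F X (fun _ _ => nwt p red) (fun _ _ => numIrrBlock) 1 ε := by
  have h1 : ∀ (H : Type) [Group H] [Finite H], 1 ≤ (Nat.card H : ℝ) ^ ε := by
    intro H _ _
    refine Real.one_le_rpow ?_ hε
    exact_mod_cast Nat.card_pos (α := H)
  constructor
  · intro H _ _ hH B hB
    have h2 : numIrrBlock B = nwt p red B := h H hH B hB
    change (numIrrBlock B : ℝ) ≤ 1 * (Nat.card H : ℝ) ^ ε * (nwt p red B : ℝ)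
    rw [h2, one_mul]
    exact le_mul_of_one_le_left (Nat.cast_nonneg _) (h1 H)
  · intro H _ _ hH B hB
    have h2 : numIrrBlock B = nwt p red B := h H hH B hB
    change (nwt p red B : ℝ) ≤ 1 * (Nat.card H : ℝ) ^ ε * (numIrrBlock B : ℝ)
    rw [h2, one_mul]
    exact le_mul_of_one_le_left (Nat.cast_nonneg _) (h1 H)

/-- squares of reduced groups are reduced -/
theorem reduced_sq {p : ℕ} [Fact p.Prime] (H : Type) [Group H] [Finite H] (h : Reduced p H) :
    Reduced p (H × H) := by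
  have hp : p.Prime := Fact.out
  constructor
  · intro N hN hi
    -- a normal subgroup of index `p` contains both factors
    have key : ∀ f : H →* H × H, (∀ x, f x ∈ N) := by
      intro f x
      have h1 : (N.comap f).index ∣ p := by
        rw [← hi, Subgroup.index_comap]
        exact Subgroup.relIndex_dvd_index_of_normal N _
      have h2 : (N.comap f).index = 1 := by
        rcases (Nat.dvd_prime hp).1 h1 with h2 | h2
        · exact h2
        · exact absurd h2 (h.perfect _ (hN.comap f))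
      rw [Subgroup.index_eq_one] at h2
      have h3 : x ∈ N.comap f := by
        rw [h2]
        trivial
      exact h3
    have h1 : N = ⊤ := by
      rw [eq_top_iff]
      rintro ⟨x, y⟩ -
      have h2 := N.mul_mem (key (MonoidHom.inl H H) x) (key (MonoidHom.inr H H) y)
      rw [MonoidHom.inl_apply, MonoidHom.inr_apply, Prod.mk_mul_mk, mul_one, one_mul] at h2
      exact h2
    rw [h1, Subgroup.index_top] at hi
    exact hp.one_lt.ne hi
  · intro M hM hp
    have h1 := h.radical (M.map (MonoidHom.fst H H)) (hM.map _ Prod.fst_surjective) (hp.map _)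
    have h2 := h.radical (M.map (MonoidHom.snd H H)) (hM.map _ Prod.snd_surjective) (hp.map _)
    rw [eq_bot_iff]
    intro x hx
    have h3 : x.1 ∈ M.map (MonoidHom.fst H H) := ⟨x, hx, rfl⟩
    have h4 : x.2 ∈ M.map (MonoidHom.snd H H) := ⟨x, hx, rfl⟩
    rw [h1, Subgroup.mem_bot] at h3
    rw [h2, Subgroup.mem_bot] at h4
    exact Subgroup.mem_bot.2 (Prod.ext h3 h4)

/-- **The reduction.** -/
theorem navarro_of_approx (red : integralClosure ℤ ℂ →+* F) (X : ∀ (H : Type) [Group H], Prop)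
    (hX : Closed p X) (hS : Sq X) :
    (∀ ε : ℝ, 0 < ε → ∃ C : ℝ,
      Bd F (fun H _ => X H ∧ Reduced p H) (fun _ _ => numIrrBlock) (fun _ _ => nwt p red) C ε ∧
      Bd F (fun H _ => X H ∧ Reduced p H) (fun _ _ => nwt p red) (fun _ _ => numIrrBlock) C ε) ↔
    ∀ (Γ : Type) [Group Γ] [Finite Γ] (N G : Subgroup Γ) [N.Normal] [G.Normal], N ≤ G → X N →
      IsPGroup p (Γ ⧸ N) → NavarroTheta p red G := by
  rw [← block_strong red X hX]
  constructor
  · intro h H _ _ hH hR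
    rw [theta_iff, ← bawc_iff]
    exact bawc_of_approx red (fun H _ => X H ∧ Reduced p H)
      (fun L _ _ hL => ⟨hS L hL.1, reduced_sq L hL.2⟩) h H ⟨hH, hR⟩
  · intro h ε hε
    refine ⟨1, approx_of_bawc red (fun H _ => X H ∧ Reduced p H) (fun H _ _ hH => ?_) hε.le⟩
    rw [bawc_iff, ← theta_iff]
    exact h H hH.1 hH.2

end it

end Pool.Agent.X252.TP
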