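import Pool.Agent.X252.TPE

/-!
# Approximate forms of Navarro's equality
-/

set_option linter.unusedSectionVars false

open scoped Classical

noncomputable section

namespace Pool.Agent.X252.TP

open Pool.Agent.Y63.NV
open Pool.Agent.Y63.AWC (IsIrreducibleCharacter pSubgroupSetoid)

/-- the right hand side of Navarro's equality -/
def thetaNum (p : ℕ) {F : Type} [Field F] (red : integralClosure ℤ ℂ →+* F) {Γ : Type} [Group Γ]
    (G : Subgroup Γ) (B : (G → F) → F) : ℕ :=
  ∑ᶠ c : Quotient (pSubgroupSetoid p Γ),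
    if G ⊔ c.out.1 = ⊤ ∧ InDefect p G B c.out.1 then numDz p red G c.out.1 B else 0

/-- the two sides of Navarro's equality agree up to the factor `C |Γ|^ε` for all invariant blocks -/
def NavarroUpTo (p : ℕ) {F : Type} [Field F] (red : integralClosure ℤ ℂ →+* F) (C ε : ℝ)
    {Γ : Type} [Group Γ] (G : Subgroup Γ) : Prop :=
  ∀ B : (G → F) → F, IsBlock B → IsInvBlock G B →
    (numIBr G B : ℝ) ≤ C * (Nat.card Γ : ℝ) ^ ε * (thetaNum p red G B : ℝ) ∧
    (thetaNum p red G B : ℝ) ≤ C * (Nat.card Γ : ℝ) ^ ε * (numIBr G B : ℝ)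

variable {F : Type} [Field F] [IsAlgClosed F] {p : ℕ} [Fact p.Prime] [CharP F p]

theorem theta_top (red : integralClosure ℤ ℂ →+* F) {H : Type} [Group H] [Finite H]
    {B : (H → F) → F} (hB : IsBlock B) :
    thetaNum p red (⊤ : Subgroup H) (up B) = nwt p red B := by
  unfold thetaNum nwt
  refine finsum_congr fun c => ?_
  have h3 : numDz p red (⊤ : Subgroup H) c.out.1 (up B) = numWtBlock p red c.out.1 B :=
    numDz_eq p red c.out.1 (up B)
  by_cases h2 : InDefect p (⊤ : Subgroup H) (up B) c.out.1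
  · rw [if_pos ⟨top_sup_eq _, h2⟩, h3]
  · rw [if_neg (fun h => h2 h.2), ← h3]
    by_contra h4
    exact h2 (wdef' p F red H ⊤ (up B) (up_block hB) (up_inv B) c.out.1 c.out.2
      (fun h => h4 h.symm))

/-- **Navarro's equality holds if and only if it holds approximately.** -/
theorem navarro_approx (red : integralClosure ℤ ℂ →+* F) (X : ∀ (H : Type) [Group H], Prop)
    (hX : Closed p X) (hS : Sq X) :
    (∀ ε : ℝ, 0 < ε → ∃ C : ℝ, ∀ (Γ : Type) [Group Γ] [Finite Γ] (N G : Subgroup Γ) [N.Normal]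
      [G.Normal], N ≤ G → X N → IsPGroup p (Γ ⧸ N) → NavarroUpTo p red C ε G) ↔
    ∀ (Γ : Type) [Group Γ] [Finite Γ] (N G : Subgroup Γ) [N.Normal] [G.Normal], N ≤ G → X N →
      IsPGroup p (Γ ⧸ N) → NavarroTheta p red G := by
  constructor
  · intro h
    rw [← navarro_of_approx red X hX hS]
    intro ε hε
    obtain ⟨C, hC⟩ := h ε hε
    have key : ∀ (H : Type) [Group H] [Finite H], X H → ∀ B : (H → F) → F, IsBlock B →
        (numIrrBlock B : ℝ) ≤ C * (Nat.card H : ℝ) ^ ε * (nwt p red B : ℝ) ∧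
        (nwt p red B : ℝ) ≤ C * (Nat.card H : ℝ) ^ ε * (numIrrBlock B : ℝ) := by
      intro H _ _ hH B hB
      have h1 := hC H ⊤ ⊤ le_rfl (hX.iso _ _ hH ⟨Subgroup.topEquiv.symm⟩) (pgroup_top p H)
        (up B) (up_block hB) (up_inv B)
      have h2 : numIBr (⊤ : Subgroup H) (up B) = numIrrBlock B := numIBr_eq (up B)
      rw [h2, theta_top red hB] at h1
      exact h1
    exact ⟨C, fun H _ _ hH B hB => (key H hH.1 B hB).1, fun H _ _ hH B hB => (key H hH.1 B hB).2⟩
  · intro h ε hε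
    refine ⟨1, fun Γ _ _ N G _ _ hNG hN hp B hB hI => ?_⟩
    have h1 : numIBr G B = thetaNum p red G B := h Γ N G hNG hN hp B hB hI
    have h2 : 1 ≤ (Nat.card Γ : ℝ) ^ ε := by
      refine Real.one_le_rpow ?_ hε.le
      exact_mod_cast Nat.card_pos (α := Γ)
    rw [h1, one_mul]
    exact ⟨le_mul_of_one_le_left (Nat.cast_nonneg _) h2,
      le_mul_of_one_le_left (Nat.cast_nonneg _) h2⟩

end Pool.Agent.X252.TP
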